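import Pool.Agent.Lib.MP_7b7e48_nt.RG.TOOLS

/-!
# The frame of theorem TC1 (m-cycles): definitions

Text: `/team-store/TC_FRAME.md`. `N` is the modulus (`W^2` times the even number of the theorem), `K = log N`, `JJ N = ⌈K^1000⌉`,
`MM P N` is the size of the multipliers (primes `l` in `PZ N (MM P N)`); all numbers considered have only prime factors `> MM P N`.
The structure of the numbers is given by sets `B c` of primes: `pht B a` counts the choices of one prime divisor of `a` in each `B c`.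
-/

set_option autoImplicit false

open Finset

namespace Pool.Agent.Lib.TCF

open Pool.Agent.Lib.RG hiding RR sig Good
open Pool.Agent.Lib.RH
open Pool.Agent.Lib.MP_45349e_nt.LS (lam)

/-- the number of choices of one prime divisor of `a` in each set `B c` -/
noncomputable def pht {n : ℕ} (B : Fin n → Finset ℕ) (a : ℕ) : ℝ :=
  ∏ c, (((B c).filter fun p => p ∣ a).card : ℝ)

/-- the products of one element of each set -/
noncomputable def TUP {n : ℕ} (B : Fin n → Finset ℕ) : Finset ℕ :=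
  (Fintype.piFinset B).image fun m => ∏ c, m c

/-- the density of the family -/
noncomputable def rho {n : ℕ} (B : Fin n → Finset ℕ) : ℝ := ∏ c, ∑ p ∈ B c, 1 / (p : ℝ)

open Classical in
/-- the weight of `a`: `pht B a` if `a` is coprime to `N` and has only prime factors `> MM P N` -/
noncomputable def ph (P : Prm) (N : ℕ) {n : ℕ} (B : Fin n → Finset ℕ) (a : ℕ) : ℝ :=
  if a.Coprime N ∧ Rough (MM P N) a then pht B a else 0

/-- a family of sets of primes -/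
structure FamOk (P : Prm) (N y0 : ℕ) {n : ℕ} (B : Fin n → Finset ℕ) : Prop where
  pos : 0 < n
  pr : ∀ c, ∀ p ∈ B c, p.Prime ∧ ¬ p ∣ N ∧ y0 < p
  disj : ∀ c c', c ≠ c' → Disjoint (B c) (B c')
  lo : ∀ c, 1 / (Real.log N) ^ 3 ≤ ∑ p ∈ B c, 1 / (p : ℝ)
  up : ∀ c, ∑ p ∈ B c, 1 / (p : ℝ) ≤ 1
  tot : ∏ c, (1 + ∑ p ∈ B c, 1 / (p : ℝ)) ≤ (Real.log N) ^ 2
  nle : (n : ℝ) ≤ Real.log N
  tup : ∀ m ∈ TUP B, (m : ℝ) ≤ (N : ℝ) ^ (P.kap / 100)

/-- the data: `X`-numbers of a class are `x + j N`, `J2 ≤ j < J1`, `Y`-numbers are `x + i N`, `i < J0`; all structure primes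
are `> y0` -/
structure Dat where
  J0 : ℕ
  J1 : ℕ
  J2 : ℕ
  y0 : ℕ
  nX : ℕ
  nY : ℕ
  BX : Fin nX → Finset ℕ
  BY : Fin nY → Finset ℕ

/-- the conditions on the data -/
structure Dat.Ok (P : Prm) (N : ℕ) (D : Dat) : Prop where
  fx : FamOk P N D.y0 D.BX
  fy : FamOk P N D.y0 D.BY
  y1 : JJ N ^ 4 * MM P N ^ 4 * D.J1 ≤ D.y0
  y2 : (D.y0 : ℝ) ≤ (N : ℝ) ^ (P.kap / 1000)
  j0 : 0 < D.J0
  j02 : 8 * JJ N * MM P N ^ 2 * D.J0 ≤ D.J2
  j21 : JJ N * D.J2 ≤ D.J1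
  jy : (JJ N : ℝ) ^ 3 ≤ D.J0 * rho D.BY
  jx : (JJ N : ℝ) ^ 3 ≤ D.J1 * rho D.BX

/-- remove a set of primes from all sets of the families -/
noncomputable def Dat.del (D : Dat) (Q : Finset ℕ) : Dat :=
  { D with BX := fun c => D.BX c \ Q, BY := fun c => D.BY c \ Q }

/-- remove a set of primes from the sets of the first family -/
noncomputable def Dat.delX (D : Dat) (Q : Finset ℕ) : Dat := { D with BX := fun c => D.BX c \ Q }

open Classical in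
/-- the weights of the test measures: `1`, or `r = 1 * c` on the numbers without prime factor `≤ y0` -/
noncomputable def wt (y0 : ℕ) (o : Option (ℕ → ℝ)) (n : ℕ) : ℝ :=
  match o with
  | none => 1
  | some c => if Rough y0 n then rr c n else 0

/-- test measures `v n`, weights `wt y0 o n`, density `L / v` -/
structure TM (P : Prm) (N v : ℕ) (o : Option (ℕ → ℝ)) (L : ℝ) : Prop where
  v1 : 1 ≤ v
  vc : v.Coprime N
  vr : Rough (MM P N) v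
  ty : (o = none ∧ L = 1 ∧ (v : ℝ) ≤ (N : ℝ) ^ (1 - P.kap / 2)) ∨
    ∃ c : ℕ → ℝ, o = some c ∧ RC N c ∧ LV N c L ∧ (N : ℝ) ^ (-(1 / 200) : ℝ) ≤ L ∧
      (v : ℝ) ≤ (N : ℝ) ^ (2 * P.kap)
  sm : ∀ c : ℕ → ℝ, o = some c → ∀ l ∈ PZ N (MM P N), c l = -1

/-- the multipliers -/
def Mul (P : Prm) (N l : ℕ) : Prop := l = 1 ∨ l ∈ PZ N (MM P N)

/-- length of an interval of `n`'s plus the admissible additive error, both relative to `1 / v` -/
noncomputable def len (P : Prm) (N v a b : ℕ) : ℝ := (b : ℝ) - a + (N : ℝ) ^ (1 - P.kap / 8) / v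

/-- coprime to `N`, all prime factors `> MM P N` -/
def Rgh1 (P : Prm) (N a : ℕ) : Prop := a.Coprime N ∧ Rough (MM P N) a

/-- the density of the numbers without prime factor `≤ MM P N`, among those coprime to `N` -/
noncomputable def VM (P : Prm) (N : ℕ) : ℝ := ∏ p ∈ PN N (MM P N), (1 - 1 / (p : ℝ))

section
variable (P : Prm) (N : ℕ) (D : Dat) (Lk : ℕ → ℕ → ℕ → ℕ → Prop) (Bd : ℕ → ℕ → Prop)

/-- total weight of the `X`-numbers of the class `x` -/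
noncomputable def PX (x : ZMod N) : ℝ := ∑ j ∈ Ico D.J2 D.J1, ph P N D.BX (x.val + j * N)

/-- total weight of the `Y`-numbers of the class `x` -/
noncomputable def PY (x : ZMod N) : ℝ := ∑ i ∈ range D.J0, ph P N D.BY (x.val + i * N)

/-- the same for the `X`-numbers without roughness -/
noncomputable def PT (x : ZMod N) : ℝ := ∑ j ∈ Ico D.J2 D.J1, pht D.BX (x.val + j * N)

/-- signed weight of the `X`-numbers -/
noncomputable def SX (x : ZMod N) : ℝ :=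
  ∑ j ∈ Ico D.J2 D.J1, ph P N D.BX (x.val + j * N) * lam (x.val + j * N)

open Classical in
/-- the majority sign -/
noncomputable def FF (x : ZMod N) : ℝ := if IsUnit x then (if 0 ≤ SX P N D x then 1 else -1) else 0

open Classical in
/-- number of the pairs of tuples `t | X`, `t' | Y` which are not bad and not linked (`X`, `Y` rough and coprime to `N`) -/
noncomputable def NL (l X Y : ℕ) : ℝ :=
  if Rgh1 P N X ∧ Rgh1 P N Y then
    ∑ t ∈ (TUP D.BX).filter (fun t => t ∣ X),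
      (((TUP D.BY).filter fun t' => t' ∣ Y ∧ ¬ Bd t t' ∧ ¬ Lk X t (l * Y) t').card : ℝ) else 0

open Classical in
/-- the same for a fixed tuple `t` -/
noncomputable def NLt (X t Y : ℕ) : ℝ :=
  if Rgh1 P N Y then (((TUP D.BY).filter fun t' => t' ∣ Y ∧ ¬ Bd t t' ∧ ¬ Lk X t Y t').card : ℝ) else 0

open Classical in
/-- number of the tuples `t'` of `Y` which are linked to `(X, t)` although the signs do not agree -/
noncomputable def AFt (l X t Y : ℕ) : ℝ :=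
  if Rgh1 P N Y then (((TUP D.BY).filter fun t' => t' ∣ Y ∧ ¬ Bd t t' ∧ Lk X t (l * Y) t' ∧
    lam X ≠ lam (l * Y)).card : ℝ) else 0

open Classical in
/-- weight of the linked pairs with the wrong sign, `X`-numbers of the class `l x`, `Y`-numbers of the class `x` -/
noncomputable def AP (l : ℕ) (x : ZMod N) : ℝ :=
  ∑ j ∈ Ico D.J2 D.J1, if Rgh1 P N (((l : ZMod N) * x).val + j * N) then
    ∑ t ∈ (TUP D.BX).filter (fun t => t ∣ ((l : ZMod N) * x).val + j * N), ∑ i ∈ range D.J0,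
      AFt P N D Lk Bd l (((l : ZMod N) * x).val + j * N) t (x.val + i * N) else 0

open Classical in
/-- number of the tuples of `Y`-numbers of the class `x` which are bad for the tuple `t` -/
noncomputable def BB (t : ℕ) (x : ZMod N) : ℝ :=
  ∑ i ∈ range D.J0, if Rgh1 P N (x.val + i * N) then
    (((TUP D.BY).filter fun t' => t' ∣ x.val + i * N ∧ Bd t t').card : ℝ) else 0

/-- weight of the pairs which are not linked -/
noncomputable def UU (l : ℕ) (x : ZMod N) : ℝ :=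
  ∑ j ∈ Ico D.J2 D.J1, ∑ i ∈ range D.J0,
    NL P N D Lk Bd l (((l : ZMod N) * x).val + j * N) (x.val + i * N)

/-- typical classes -/
structure Typ (l : ℕ) (x : ZMod N) : Prop where
  x1 : D.J1 * rho D.BX / (Real.log N) ^ 2 ≤ PX P N D ((l : ZMod N) * x)
  x2 : D.J1 * rho D.BX / (Real.log N) ^ 2 ≤ PX P N D x
  y1 : D.J0 * rho D.BY / (Real.log N) ^ 2 ≤ PY P N D x
  bs : ∀ t ∈ TUP D.BX, 20 * BB P N D Bd t x ≤ PY P N D x
  u1 : 40 * UU P N D Lk Bd l x ≤ PX P N D ((l : ZMod N) * x) * PY P N D x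
  u2 : 40 * UU P N D Lk Bd 1 x ≤ PX P N D x * PY P N D x

/-- classes which do not contain too many structured numbers -/
def GD (x : ZMod N) : Prop := PT N D x ≤ 3 * (D.J1 * rho D.BX)

open Classical in
/-- total weight of the `X`-numbers of the class `l b`, without the number `l b` -/
noncomputable def PXr (l b : ℕ) : ℝ :=
  ∑ j ∈ Ico D.J2 D.J1, if (((l * b : ℕ) : ZMod N).val + j * N) = l * b then 0 else
    ph P N D.BX (((l * b : ℕ) : ZMod N).val + j * N)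

end

open Classical in
/-- the input from the pair lemma. `Lk X t Y' t'`: `X` with the marks `t` and `Y'` with the marks `t'` are connected by a good
cycle; `Bd t t'`: the pair of marks is obstructed at a small prime -/
structure PairIn (P : Prm) (N : ℕ) (D : Dat) (Lk : ℕ → ℕ → ℕ → ℕ → Prop) (Bd : ℕ → ℕ → Prop)
    (k0 k1 : ℝ) : Prop where
  m1 : ∀ (v : ℕ) (o : Option (ℕ → ℝ)) (L : ℝ), TM P N v o L → ∀ l : ℕ, Mul P N l → ∀ c c' : ℤ,
    ((v = 1 ∧ o = none) ∨ (c ≠ 0 ∧ c' ≠ 0)) → ∀ X Y : ℕ → ℕ, ∀ a b : ℕ, a ≤ b →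
    (∀ n ∈ Ioc a b, (X n : ℤ) = l * (v * n) + c' * N ∧ (Y n : ℤ) = v * n + c * N ∧ 0 < Y n ∧
      JJ N * (l * Y n) < X n ∧ X n ≤ D.J1 * N ∧ v * n ≤ D.J1 * N) →
    ∑ n ∈ Ioc a b, wt D.y0 o n * NL P N D Lk Bd l (X n) (Y n) ≤
      k0 / JJ N * (rho D.BX * rho D.BY * L * len P N v a b)
  m3 : ∀ (v : ℕ) (o : Option (ℕ → ℝ)) (L : ℝ), TM P N v o L → ∀ d a b : ℕ, 0 < d → d * N ≤ a → a ≤ b →
    b ≤ D.J1 * N → JJ N * (b - d * N) ≤ d * N →
    ∑ t ∈ TUP D.BX, ∑ n ∈ (Icc 1 b).filter (fun n => a < v * t * n ∧ v * t * n ≤ b ∧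
        Rgh1 P N (v * t * n)), wt D.y0 o n * NLt P N D Lk Bd (v * t * n) t (v * t * n - d * N) ≤
      k0 / JJ N * (rho D.BX * rho D.BY * (L / v) * ((b : ℝ) - a + (N : ℝ) ^ (1 - P.kap / 8)))
  bs : ∀ (v : ℕ) (o : Option (ℕ → ℝ)) (L : ℝ), TM P N v o L → ∀ a b : ℕ, a ≤ b → v * b ≤ D.J1 * N →
    ((v = 1 ∧ o = none) ∨ D.J2 * N < v * (a + 1)) →
    ∑ n ∈ (Ioc a b).filter (fun n => n.Coprime N ∧ ∃ t ∈ TUP D.BX,
      k1 * (VM P N * D.J0 * rho D.BY) < BB P N D Bd t ((v * n : ℕ) : ZMod N)), wt D.y0 o n ≤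
      L / JJ N * len P N v a b

open Classical in
/-- the counting lemmas -/
structure Cnt (P : Prm) (N : ℕ) [NeZero N] (D : Dat) : Prop where
  c1 : ∀ (v : ℕ) (o : Option (ℕ → ℝ)) (L : ℝ), TM P N v o L → ∀ l : ℕ, Mul P N l → ∀ a b : ℕ, a ≤ b →
    v * b ≤ D.J1 * N →
    ∑ n ∈ (Ioc a b).filter (fun n => n.Coprime N ∧
      PXr P N D l (v * n) < VM P N * D.J1 * rho D.BX / 8), wt D.y0 o n ≤ L / JJ N * len P N v a b
  c2 : ∀ (v : ℕ) (o : Option (ℕ → ℝ)) (L : ℝ), TM P N v o L → ∀ a b : ℕ, a ≤ b → v * b ≤ D.J1 * N →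
    ((v = 1 ∧ o = none) ∨ D.J2 * N < v * (a + 1)) →
    ∑ n ∈ (Ioc a b).filter (fun n => n.Coprime N ∧
      PY P N D ((v * n : ℕ) : ZMod N) < VM P N * D.J0 * rho D.BY / 2), wt D.y0 o n ≤
      L / JJ N * len P N v a b
  c3 : ∀ q t : ℕ, (q = 1 ∨ q.Prime) → q.Coprime N → (t = 1 ∨ t ∈ TUP D.BX) →
    ((q * t : ℕ) : ℝ) ≤ (N : ℝ) ^ (1 - P.kap / 2) → ∀ a b : ℕ, a ≤ b → q * t * b ≤ D.J1 * N →
    (((Ioc a b).filter fun n => n.Coprime N ∧ ¬ GD N D ((q * t * n : ℕ) : ZMod N)).card : ℝ) ≤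
      1 / JJ N * len P N (q * t) a b
  c4 : ∀ X : Finset (DirichletCharacter ℂ N), (X.card : ℝ) ≤ (N : ℝ) ^ (P.kap / 10) →
    ∀ c : DirichletCharacter ℂ N → ℂ, ∀ u : ℕ, (u.Prime ∨ ∃ l l' : ℕ, l.Prime ∧ l'.Prime ∧ u = l * l') →
    u.Coprime N → (u : ℝ) ≤ 2 * HH N P.kap → ∀ m ∈ TUP D.BX, ∀ y : ℕ, u * m * y ≤ D.J1 * N →
    D.J1 * N ≤ 16 * (u * m * y) →
    ∑ n ∈ (Icc 1 y).filter (fun n => n.Coprime N ∧
      ¬ (GD N D ((u * m * n : ℕ) : ZMod N) ∧ D.J2 * N < u * m * n)),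
      ‖∑ χ ∈ X, c χ * χ (n : ZMod N)‖ ^ 2 ≤ (Real.log N) ^ 2 / JJ N * y * ∑ χ ∈ X, ‖c χ‖ ^ 2
  c5 : ∀ q : ℕ, (q = 1 ∨ q.Prime) → q.Coprime N → ∀ z : ℕ, z ≤ D.J1 * N →
    ∑ t ∈ TUP D.BX, (((Icc 1 z).filter fun n => q * t * n ≤ z ∧
      D.J1 * rho D.BX / JJ N < pht D.BX (q * t * n)).card : ℝ) ≤
      (Real.log N) ^ 6 * JJ N / D.J1 * (z / q)
  c6 : ∑ μ ∈ (Icc 1 ⌊(N : ℝ) ^ (2 * P.kap)⌋₊).filter (fun μ => D.J1 * rho D.BX / JJ N < pht D.BX μ),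
    pht D.BX μ / (μ : ℝ) ≤ (Real.log N) ^ 6 * JJ N / D.J1

section
variable (P : Prm) (N : ℕ) (D : Dat) (Lk : ℕ → ℕ → ℕ → ℕ → Prop) (Bd : ℕ → ℕ → Prop)

open Classical in
/-- weight of the pairs of the class `b` which are not linked, without the `X`-number `l b` -/
noncomputable def UUr (l b : ℕ) : ℝ :=
  ∑ j ∈ Ico D.J2 D.J1, ∑ i ∈ range D.J0,
    if (((l * b : ℕ) : ZMod N).val + j * N) = l * b then 0 else
      NL P N D Lk Bd l (((l * b : ℕ) : ZMod N).val + j * N) (((b : ℕ) : ZMod N).val + i * N)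

end

/-- numerical facts which hold for large `N` -/
structure NumX (P : Prm) (N : ℕ) : Prop where
  num : Num P N
  vm : 1000 / Real.log N ≤ VM P N
  pw : (JJ N : ℝ) ^ 10 * (MM P N : ℝ) ^ 10 ≤ (N : ℝ) ^ (P.kap / 1000)

open Classical in
/-- the primes `q`, `MM < q ≤ N`, with `χ q = 1` -/
noncomputable def QS (P : Prm) {N : ℕ} (χ : DirichletCharacter ℂ N) : Finset ℕ :=
  (Finset.range (N + 1)).filter fun q => q.Prime ∧ MM P N < q ∧ χ (q : ZMod N) = 1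

open Classical in
/-- those of them which are at most `N ^ (1 - kap)` -/
noncomputable def QM (P : Prm) {N : ℕ} (χ : DirichletCharacter ℂ N) : Finset ℕ :=
  (QS P χ).filter fun q => (q : ℝ) ≤ (N : ℝ) ^ (1 - P.kap)

/-- the sum of their reciprocals -/
noncomputable def sgm (P : Prm) {N : ℕ} (χ : DirichletCharacter ℂ N) : ℝ := ∑ q ∈ QM P χ, 1 / (q : ℝ)

open Classical in
/-- the input on the signs: linked pairs with the wrong sign are rare -/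
structure ApIn (P : Prm) (N : ℕ) [NeZero N] (D : Dat) (Lk : ℕ → ℕ → ℕ → ℕ → Prop) (Bd : ℕ → ℕ → Prop) :
    Prop where
  a0 : ∀ l : ℕ, Mul P N l → ∑ x : ZMod N, (if IsUnit x then AP P N D Lk Bd l x else 0) ≤
    N * ((D.J1 * rho D.BX) * (D.J0 * rho D.BY)) / ((JJ N : ℝ) ^ 4 * (MM P N : ℝ) ^ 4)
  a1 : ∀ χ : DirichletCharacter ℂ N, χ ^ 2 = 1 → χ ≠ 1 → (∀ l ∈ PZ N (MM P N), χ (l : ZMod N) = -1) →
    Blk P N 12 (-1) χ → ∀ l : ℕ, Mul P N l →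
    ∑ x : ZMod N, (if IsUnit x then AP P N D Lk Bd l x else 0) ≤
      sgm P χ * (N * ((D.J1 * rho D.BX) * (D.J0 * rho D.BY)) / ((JJ N : ℝ) ^ 4 * (MM P N : ℝ) ^ 4))

open Classical in
/-- everything which is known before the character appears; outside `A` there are few linked pairs with the wrong sign -/
structure Hyp (P : Prm) (N : ℕ) [NeZero N] (D : Dat) (Lk : ℕ → ℕ → ℕ → ℕ → Prop) (Bd : ℕ → ℕ → Prop)
    (A : Finset (ZMod N)) : Prop where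
  hP : P.Ok
  nx : NumX P N
  ok : D.Ok P N
  cnt : Cnt P N D
  pin : PairIn P N D Lk Bd 4 (1 / 40)
  ac : (A.card : ℝ) ≤ (N : ℝ) / (JJ N : ℝ) ^ 2
  apa : ∀ l : ℕ, Mul P N l → ∀ x : ZMod N, IsUnit x → x ∉ A →
    AP P N D Lk Bd l x ≤ (D.J1 * rho D.BX) * (D.J0 * rho D.BY) / JJ N
  ap : ∑ x : ZMod N, (if IsUnit x then AP P N D Lk Bd 1 x else 0) ≤
    N * ((D.J1 * rho D.BX) * (D.J0 * rho D.BY)) / (JJ N : ℝ) ^ 2

/-- the numbers `a` of the range `(J2 N, J1 N]` whose class is good -/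
def GG (N : ℕ) (D : Dat) (a : ℕ) : Prop := GD N D ((a : ℕ) : ZMod N) ∧ D.J2 * N < a

open Classical in
/-- hypotheses of the spectral lemma -/
structure USLX (P : Prm) (N : ℕ) [NeZero N] (D : Dat) (ε θ : ℝ) (h : ZMod N → ℝ) (ρ : ℕ → ℝ)
    (L : ℕ → Finset ℕ) : Prop where
  zero : ∀ x : ZMod N, ¬ IsUnit x → h x = 0
  sub : ∀ Y, L Y ⊆ block N Y
  big : ∀ i : ℕ, MM P N ≤ 2 ^ i → (2 : ℝ) ^ i ≤ HH N P.kap →
    (2 : ℝ) ^ i / (Real.log N) ^ 2 ≤ (L (2 ^ i)).card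
  inv : ∀ l ∈ PZ N (MM P N), ∑ x : ZMod N, (h ((l : ZMod N) * x) - θ * h x) ^ 2 ≤
    ε * ∑ x : ZMod N, h x ^ 2
  one : ∀ i : ℕ, 2 * MM P N ^ 2 < 2 ^ i → (2 : ℝ) ^ i ≤ HH N P.kap →
    ∑ l ∈ L (2 ^ i), ∑ m ∈ TUP D.BX, ∑ n ∈ RN N (zz P N) (D.J1 * N / (2 * 2 ^ i * m)),
      (if GG N D (l * (m * n)) then (h ((l * (m * n) : ℕ) : ZMod N) - ρ (m * n)) ^ 2 else 0) ≤
      ε * (D.J1 * rho D.BX) * ∑ x : ZMod N, h x ^ 2
  two : ∀ i : ℕ, 2 * MM P N ^ 2 < 2 ^ i → (2 : ℝ) ^ i ≤ HH N P.kap →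
    ∑ l1 ∈ block N (MM P N), ∑ l2 ∈ L (2 ^ i / (2 * MM P N)), ∑ m ∈ TUP D.BX,
      ∑ n ∈ RN N (zz P N) (D.J1 * N / (2 * 2 ^ i * m)),
      (if GG N D (l1 * l2 * (m * n)) then
        (h ((l1 * l2 * (m * n) : ℕ) : ZMod N) - θ * ρ (m * n)) ^ 2 else 0) ≤
      ε * (D.J1 * rho D.BX) * ∑ x : ZMod N, h x ^ 2

/-- conclusion of the spectral lemma -/
def MassX (P : Prm) (N : ℕ) [NeZero N] (D : Dat) : Prop :=
  ∀ (θ ε : ℝ) (h : ZMod N → ℝ) (ρ : ℕ → ℝ) (L : ℕ → Finset ℕ), θ ^ 2 = 1 → 0 ≤ ε →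
    (Real.log N) ^ 60 * ε ≤ 1 → 0 < ∑ x : ZMod N, h x ^ 2 →
    (∀ i : ℕ, InR P N i →
      ((block N (2 ^ i) \ L (2 ^ i)).card : ℝ) ≤ (2 : ℝ) ^ i / (Real.log N) ^ 10) →
    USLX P N D ε θ h ρ L →
    ∃ χ0 : DirichletCharacter ℂ N,
      ((N.totient : ℝ) * ∑ χ ∈ Finset.univ.erase χ0, ‖bch (fun x => (h x : ℂ)) χ‖ ^ 2 ≤
        (Real.log N) ^ 50 * (ε * ∑ x : ZMod N, h x ^ 2)) ∧
      (∀ i : ℕ, InR P N i → ∑ l ∈ L (2 ^ i), ‖χ0 (l : ZMod N) - (θ : ℂ)‖ ^ 2 ≤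
          2 * (Real.log N) ^ 30 * ε * (L (2 ^ i)).card) ∧
      ∀ χ : DirichletCharacter ℂ N, Blk P N 9 θ χ → χ = χ0

open Classical in
/-- the situation of the second part: `D` has no structure prime with `χ = 1` -/
structure EnvX (P : Prm) (N : ℕ) [NeZero N] (D : Dat) (Lk : ℕ → ℕ → ℕ → ℕ → Prop) (Bd : ℕ → ℕ → Prop)
    (A : Finset (ZMod N)) (χ : DirichletCharacter ℂ N) : Prop where
  hyp : Hyp P N D Lk Bd A
  mass : MassX P N D
  sq : χ ^ 2 = 1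
  ne : χ ≠ 1
  small : ∀ l ∈ PZ N (MM P N), χ (l : ZMod N) = -1
  blk : Blk P N 12 (-1) χ
  fx : ∀ c, ∀ p ∈ D.BX c, χ (p : ZMod N) = -1
  agree : (((Finset.univ : Finset (ZMod N)).filter fun x => IsUnit x ∧
    (FF P N D x : ℂ) ≠ χ x).card : ℝ) ≤ (Real.log N) ^ 102 * N / JJ N
  lv : ∃ L : ℝ, LV N (fun n => (χ (n : ZMod N)).re) L ∧ (N : ℝ) ^ (-(1 / 200) : ℝ) ≤ L ∧
    L ≤ (Real.log N) ^ 3 * sgm P χ
  ac : (A.card : ℝ) ≤ sgm P χ * N / (JJ N : ℝ) ^ 2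
  ap : ∑ x : ZMod N, (if IsUnit x then AP P N D Lk Bd 1 x else 0) ≤
    sgm P χ * N * ((D.J1 * rho D.BX) * (D.J0 * rho D.BY)) / (JJ N : ℝ) ^ 2

open Classical in
/-- the classes with enough `X`-numbers in which `F = -χ` -/
noncomputable def ZX (P : Prm) (N : ℕ) [NeZero N] (D : Dat) (χ : DirichletCharacter ℂ N) :
    Finset (ZMod N) :=
  Finset.univ.filter fun x => IsUnit x ∧ D.J1 * rho D.BX / (Real.log N) ^ 2 ≤ PX P N D x ∧
    (FF P N D x : ℂ) = -χ x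

open Classical in
/-- the rough numbers `a` of the range `(J2 N, J1 N]` with `lam a ≠ χ a` -/
noncomputable def AD (P : Prm) {N : ℕ} (D : Dat) (χ : DirichletCharacter ℂ N) : Finset ℕ :=
  (Finset.Ioc (D.J2 * N) (D.J1 * N)).filter fun a => Rgh1 P N a ∧ DA χ a

/-- the data before the removal of primes -/
structure Base (P : Prm) (N : ℕ) (D : Dat) : Prop where
  ok : D.Ok P N
  lx : ∀ c, 2 / (Real.log N) ^ 3 ≤ ∑ p ∈ D.BX c, 1 / (p : ℝ)
  ly : ∀ c, 2 / (Real.log N) ^ 3 ≤ ∑ p ∈ D.BY c, 1 / (p : ℝ)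
  jy : (JJ N : ℝ) ^ 4 ≤ D.J0 * rho D.BY
  jx : (JJ N : ℝ) ^ 4 ≤ D.J1 * rho D.BX

end Pool.Agent.Lib.TCF
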