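import Pool.Agent.Lib.MP_7b7e48_nt.TCF.CDef

/-!
# Module CA1 (60 minutes): sums over marks

PROOF.
`mrk_dvd`: the `f c` are different primes (`disj`), so `mrk f ∣ m` iff all `f c ∣ m` (`Finset.prod_primes_dvd`; for integers use
`Int.natCast_dvd`, i.e. `m.natAbs`). `mrk_inj`: `f c` is the only prime divisor of `mrk f` in `B c`.
`pht_eqm`: `∏_c #{p ∈ B_c : p ∣ m} = ∏_c ∑_{p ∈ B_c} [p ∣ m] = ∑_f ∏_c [f c ∣ m]` (`Finset.prod_univ_sum`).
`sum_tt`: `sum_tp2`; the inner sum `∑_{p, q ∈ B_c} (if p = q then (if eq then u p else 0) else u p * u q)` is `U² - ∑ u² (+ U)`.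
`tp_card_le`: `mrk` maps `tp B` injectively into `Icc 1 ⌊N ^ (kap/100)⌋` (`FamW.tup`).
-/

set_option autoImplicit false

open Finset

namespace Pool.Agent.Lib.TCF

open Pool.Agent.Lib.RG hiding RR sig Good
open Pool.Agent.Lib.RH

section

variable {P : Prm} {N y0 n : ℕ} {B : Fin n → Finset ℕ}

theorem mrk_mem {f : Fin n → ℕ} (hf : f ∈ tp B) (c : Fin n) : f c ∈ B c :=
  Fintype.mem_piFinset.mp hf c

theorem mrk_prime (hF : FamW P N y0 B) {f : Fin n → ℕ} (hf : f ∈ tp B) (c : Fin n) :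
    (f c).Prime := (hF.pr c _ (mrk_mem hf c)).1

theorem mrk_ne (hF : FamW P N y0 B) {f g : Fin n → ℕ} (hf : f ∈ tp B) (hg : g ∈ tp B)
    {c c' : Fin n} (hc : c ≠ c') : f c ≠ g c' := by
  intro h
  have h1 := Finset.disjoint_left.mp (hF.disj c c' hc) (mrk_mem hf c)
  rw [h] at h1
  exact h1 (mrk_mem hg c')

theorem mrk_dvd_nat (hF : FamW P N y0 B) {f : Fin n → ℕ} (hf : f ∈ tp B) (m : ℕ) :
    mrk f ∣ m ↔ ∀ c, f c ∣ m := by
  constructor
  · intro h c
    exact (Finset.dvd_prod_of_mem f (Finset.mem_univ c)).trans h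
  · intro h
    have h1 : ((∏ c, f c : ℕ) : ℤ) ∣ (m : ℤ) := by
      push_cast
      refine Finset.prod_dvd_of_coprime ?_ ?_
      · intro a _ b _ hab
        show IsCoprime (f a : ℤ) (f b : ℤ)
        rw [Nat.isCoprime_iff_coprime]
        exact (Nat.coprime_primes (mrk_prime hF hf a) (mrk_prime hF hf b)).mpr (mrk_ne hF hf hf hab)
      · intro c _
        exact_mod_cast h c
    exact_mod_cast h1

theorem mrk_dvd (hF : FamW P N y0 B) {f : Fin n → ℕ} (hf : f ∈ tp B) (m : ℤ) :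
    (mrk f : ℤ) ∣ m ↔ ∀ c, (f c : ℤ) ∣ m := by
  simp only [Int.natCast_dvd]
  exact mrk_dvd_nat hF hf _

theorem mrk_sq (hF : FamW P N y0 B) {f : Fin n → ℕ} (hf : f ∈ tp B) : 1 ≤ mrk f ∧
    Squarefree (mrk f) ∧ ∀ p : ℕ, p.Prime → (p ∣ mrk f ↔ ∃ c, p = f c) := by
  refine ⟨Finset.prod_pos fun c _ => (mrk_prime hF hf c).pos, ?_, fun p hp => ?_⟩
  · unfold mrk
    refine Finset.squarefree_prod_of_pairwise_isCoprime ?_ ?_
    · intro a _ b _ hab
      show IsRelPrime (f a) (f b)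
      rw [← Nat.coprime_iff_isRelPrime]
      exact (Nat.coprime_primes (mrk_prime hF hf a) (mrk_prime hF hf b)).mpr (mrk_ne hF hf hf hab)
    · intro c _
      exact (mrk_prime hF hf c).prime.squarefree
  · constructor
    · intro h
      obtain ⟨c, _, hc⟩ := (hp.prime.dvd_finsetProd_iff f).mp h
      exact ⟨c, (Nat.prime_dvd_prime_iff_eq hp (mrk_prime hF hf c)).mp hc⟩
    · rintro ⟨c, rfl⟩
      exact Finset.dvd_prod_of_mem f (Finset.mem_univ c)

theorem mrk_inj (hF : FamW P N y0 B) {f g : Fin n → ℕ} (hf : f ∈ tp B) (hg : g ∈ tp B)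
    (h : mrk f = mrk g) : f = g := by
  funext c
  have h1 : f c ∣ mrk g := h ▸ Finset.dvd_prod_of_mem f (Finset.mem_univ c)
  obtain ⟨c', hc'⟩ := ((mrk_sq hF hg).2.2 _ (mrk_prime hF hf c)).mp h1
  by_cases hcc : c = c'
  · rw [hc', hcc]
  · exact absurd hc' (mrk_ne hF hf hg hcc)

theorem sum_TUP (hF : FamW P N y0 B) (g : ℕ → ℝ) : ∑ t ∈ TUP B, g t = ∑ f ∈ tp B, g (mrk f) := by
  unfold TUP
  rw [Finset.sum_image]
  · rfl
  · intro f hf g' hg' h
    exact mrk_inj hF hf hg' h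

theorem pht_eqm (hF : FamW P N y0 B) (m : ℕ) :
    pht B m = ∑ f ∈ tp B, if mrk f ∣ m then (1 : ℝ) else 0 := by
  unfold pht
  have h1 : ∀ c, (((B c).filter fun p => p ∣ m).card : ℝ) = ∑ p ∈ B c, if p ∣ m then (1 : ℝ) else 0 := by
    intro c
    rw [Finset.card_filter]
    push_cast
    rfl
  simp only [h1]
  rw [Finset.prod_univ_sum]
  refine Finset.sum_congr rfl fun f hf => ?_
  by_cases h : mrk f ∣ m
  · rw [if_pos h]
    have h2 := (mrk_dvd_nat hF hf m).mp h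
    exact Finset.prod_eq_one fun c _ => if_pos (h2 c)
  · rw [if_neg h]
    have h2 : ¬ ∀ c, f c ∣ m := fun h3 => h ((mrk_dvd_nat hF hf m).mpr h3)
    push Not at h2
    obtain ⟨c, hc⟩ := h2
    exact Finset.prod_eq_zero (Finset.mem_univ c) (if_neg hc)

theorem sum_tp (B : Fin n → Finset ℕ) (g : Fin n → ℕ → ℝ) :
    ∑ f ∈ tp B, ∏ c, g c (f c) = ∏ c, ∑ p ∈ B c, g c p := by
  unfold tp
  rw [Finset.prod_univ_sum]

theorem sum_tp2 (B : Fin n → Finset ℕ) (g : Fin n → ℕ → ℕ → ℝ) :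
    ∑ f ∈ tp B, ∑ f' ∈ tp B, ∏ c, g c (f c) (f' c) = ∏ c, ∑ p ∈ B c, ∑ p' ∈ B c, g c p p' := by
  have h1 : ∀ f ∈ tp B, ∑ f' ∈ tp B, ∏ c, g c (f c) (f' c) = ∏ c, ∑ p' ∈ B c, g c (f c) p' :=
    fun f _ => sum_tp B fun c p' => g c (f c) p'
  rw [Finset.sum_congr rfl h1]
  exact sum_tp B fun c p => ∑ p' ∈ B c, g c p p'

theorem sum_tt (B : Fin n → Finset ℕ) (u : ℕ → ℝ) (eq : Prop) [Decidable eq] :
    ∑ f ∈ tp B, ∑ f' ∈ tp B, tt u eq f f' = if eq then sDia u B else sOff u B := by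
  unfold tt
  rw [sum_tp2 B fun _ p q => if p = q then (if eq then u p else 0) else u p * u q]
  have h1 : ∀ c, ∑ p ∈ B c, ∑ q ∈ B c, (if p = q then (if eq then u p else 0) else u p * u q) =
      (∑ p ∈ B c, u p) ^ 2 - ∑ p ∈ B c, u p ^ 2 + (if eq then ∑ p ∈ B c, u p else 0) := by
    intro c
    have h2 : ∀ p ∈ B c, ∑ q ∈ B c, (if p = q then (if eq then u p else 0) else u p * u q) =
        u p * (∑ q ∈ B c, u q) - u p ^ 2 + (if eq then u p else 0) := by
      intro p hp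
      have h3 : ∀ q ∈ B c, (if p = q then (if eq then u p else 0) else u p * u q) =
          u p * u q + (if p = q then ((if eq then u p else 0) - u p ^ 2) else 0) := by
        intro q _
        by_cases hpq : p = q
        · subst hpq
          rw [if_pos rfl, if_pos rfl]
          ring
        · rw [if_neg hpq, if_neg hpq]
          ring
      rw [Finset.sum_congr rfl h3, Finset.sum_add_distrib, ← Finset.mul_sum, Finset.sum_ite_eq,
        if_pos hp]
      ring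
    rw [Finset.sum_congr rfl h2, Finset.sum_add_distrib, Finset.sum_sub_distrib, ← Finset.sum_mul]
    by_cases he : eq
    · simp only [if_pos he]
      ring
    · simp only [if_neg he, Finset.sum_const_zero]
      ring
  rw [Finset.prod_congr rfl fun c _ => h1 c]
  by_cases he : eq
  · simp only [if_pos he]
    rfl
  · simp only [if_neg he, add_zero]
    rfl

theorem sum_mrk (B : Fin n → Finset ℕ) : ∑ f ∈ tp B, 1 / (mrk f : ℝ) = rho B := by
  unfold rho
  rw [← sum_tp B fun _ p => 1 / (p : ℝ)]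
  refine Finset.sum_congr rfl fun f _ => ?_
  unfold mrk
  push_cast
  rw [one_div, ← Finset.prod_inv_distrib]
  simp only [one_div]

theorem mrk_le (hF : FamW P N y0 B) {f : Fin n → ℕ} (hf : f ∈ tp B) :
    (mrk f : ℝ) ≤ (N : ℝ) ^ (P.kap / 100) :=
  hF.tup _ (Finset.mem_image_of_mem _ hf)

theorem tp_card_le (hF : FamW P N y0 B) : ((tp B).card : ℝ) ≤ (N : ℝ) ^ (P.kap / 100) := by
  have h0 : (0 : ℝ) ≤ (N : ℝ) ^ (P.kap / 100) := Real.rpow_nonneg (Nat.cast_nonneg _) _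
  have h1 : (tp B).card ≤ (Finset.Icc 1 ⌊(N : ℝ) ^ (P.kap / 100)⌋₊).card := by
    refine Finset.card_le_card_of_injOn mrk ?_ ?_
    · intro f hf
      rw [Finset.mem_coe] at hf
      rw [Finset.mem_coe, Finset.mem_Icc]
      exact ⟨(mrk_sq hF hf).1, Nat.le_floor (mrk_le hF hf)⟩
    · intro f hf g hg h
      exact mrk_inj hF hf hg h
  rw [Nat.card_Icc, Nat.add_sub_cancel] at h1
  exact (Nat.cast_le.mpr h1).trans (Nat.floor_le h0)

end

end Pool.Agent.Lib.TCF
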