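import Pool.Agent.Lib.MP_7b7e48_nt.RG.SL

/-!
# Module CA0 (25 minutes): lower sieve weights of dimension one, sharp constant

PROOF. Copy of `RG.lower_weights2` (end of file `RG/SL.lean`): there `b` is chosen with `K₀ (1/2)^b ≤ 1/2`; choose it here with
`K₀ (1/2)^b ≤ η`. Everything else is unchanged (the private lemmas of `SL.lean` which are needed may be copied with the prefix `ca0_`).
-/

set_option autoImplicit false

open Finset

namespace Pool.Agent.Lib.TCF

open Pool.Agent.Lib.GT Pool.Agent.Lib.MP_f75418_nt Pool.Agent.Lib.RG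

theorem lower_weights_eta (η : ℝ) (hη : 0 < η) : ∃ K : ℕ, 1 ≤ K ∧ ∀ z : ℕ, 2 ≤ z → ∀ P : Finset ℕ,
    (∀ r ∈ P, r.Prime ∧ r ≤ z) → ∃ (D : Finset ℕ) (lam : ℕ → ℝ),
      (∀ d ∈ D, 1 ≤ d ∧ d ≤ z ^ K ∧ Squarefree d ∧ ∀ p, p.Prime → p ∣ d → p ∈ P) ∧
      (∀ d : ℕ, |lam d| ≤ 2 + 2 * Real.log z) ∧
      (∑ d ∈ D, |lam d| ≤ (z : ℝ) ^ K) ∧
      (∀ n : ℕ, ∑ d ∈ D with d ∣ n, lam d ≤ if (∀ r ∈ P, ¬ r ∣ n) then (1 : ℝ) else 0) ∧
      (1 - η) * ∏ r ∈ P, (1 - 1 / (r : ℝ)) ≤ ∑ d ∈ D, lam d / d := by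
  classical
  have hlim : Filter.Tendsto (fun b : ℕ => K₀ * (1 / 2 : ℝ) ^ b) Filter.atTop (nhds (K₀ * 0)) :=
    (tendsto_pow_atTop_nhds_zero_of_lt_one (by norm_num) (by norm_num)).const_mul _
  rw [mul_zero] at hlim
  obtain ⟨b, hb, hb1⟩ : ∃ b : ℕ, K₀ * (1 / 2 : ℝ) ^ b ≤ η ∧ 1 ≤ b := by
    have h1 := (hlim.eventually (Iic_mem_nhds hη)).and
      (Filter.eventually_ge_atTop 1)
    exact h1.exists
  refine ⟨12 * b + 2, by omega, ?_⟩
  intro z hz P hP
  set lam : ℕ → ℝ := fun d => ∑ E ∈ fa z b P with ee E = d, ww b E with hlam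
  have hzr : (1 : ℝ) ≤ z := by exact_mod_cast (by omega : 1 ≤ z)
  have push : ∀ g : ℕ → ℝ, ∑ d ∈ (fa z b P).image ee, lam d * g d =
      ∑ E ∈ fa z b P, ww b E * g (ee E) := by
    intro g
    rw [← Finset.sum_fiberwise_of_maps_to (s := fa z b P) (t := (fa z b P).image ee) (g := ee)
      (fun E hE => Finset.mem_image_of_mem _ hE)]
    refine Finset.sum_congr rfl fun d _ => ?_
    rw [hlam, Finset.sum_mul]
    refine Finset.sum_congr rfl fun E hE => ?_
    rw [(mem_filter.mp hE).2]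
  refine ⟨(fa z b P).image ee, lam, ?_, ?_, ?_, ?_, ?_⟩
  · intro d hd
    rw [mem_image] at hd
    obtain ⟨E, hE, rfl⟩ := hd
    have hpf : (ee E).primeFactors = un E :=
      Nat.primeFactors_prod fun r hr => (hP r (un_sub E hE hr)).1
    have hpos : 0 < ee E := Finset.prod_pos fun r hr => (hP r (un_sub E hE hr)).1.pos
    refine ⟨hpos, ?_, ?_, ?_⟩
    · have h1 := prod_un_le hP hz hb1 E hE
      have h2 : ee E ≤ z ^ (12 * b) := by exact_mod_cast h1
      exact h2.trans (Nat.pow_le_pow_right (by omega) (by omega))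
    · unfold ee
      refine Finset.squarefree_prod_of_pairwise_isCoprime ?_ fun r hr =>
        (hP r (un_sub E hE hr)).1.prime.squarefree
      intro r hr r' hr' hrr
      have h1 := (Nat.coprime_primes (hP r (un_sub E hE hr)).1 (hP r' (un_sub E hE hr')).1).mpr hrr
      exact Nat.coprime_iff_isRelPrime.mp h1
    · intro p hp hpd
      have : p ∈ (ee E).primeFactors := Nat.mem_primeFactors.mpr ⟨hp, hpd, hpos.ne'⟩
      rw [hpf] at this
      exact un_sub E hE this
  · intro d
    refine le_trans ?_ (NJ_le_log z hz)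
    show |∑ E ∈ fa z b P with ee E = d, ww b E| ≤ 1 + NJ z
    by_cases hd : ∃ E ∈ fa z b P, ee E = d
    · obtain ⟨E, hE, rfl⟩ := hd
      have h1 : (fa z b P).filter (fun E' => ee E' = ee E) = {E} := by
        ext E'
        rw [mem_filter, mem_singleton]
        constructor
        · rintro ⟨h2, h3⟩
          exact ee_inj hP (mem_coe.mpr h2) (mem_coe.mpr hE) h3
        · rintro rfl
          exact ⟨hE, rfl⟩
      rw [h1, sum_singleton]
      exact abs_ww_le E
    · have h1 : (fa z b P).filter (fun E' => ee E' = d) = ∅ := by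
        rw [Finset.filter_eq_empty_iff]
        intro E' hE' h2
        exact hd ⟨E', hE', h2⟩
      rw [h1, sum_empty, abs_zero]
      positivity
  · have h1 : ∑ d ∈ (fa z b P).image ee, |lam d| ≤ ∑ E ∈ fa z b P, |ww b E| := by
      rw [← Finset.sum_fiberwise_of_maps_to (s := fa z b P) (t := (fa z b P).image ee) (g := ee)
        (fun E hE => Finset.mem_image_of_mem _ hE)]
      exact Finset.sum_le_sum fun d _ => Finset.abs_sum_le_sum_abs _ _
    refine h1.trans ?_
    refine (Finset.sum_le_sum fun E _ => abs_ww_le E).trans ?_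
    rw [Finset.sum_const, nsmul_eq_mul]
    have h2 := card_pi_le hP hz hb1
    have h3 := NJ_le z hz
    rw [pow_add]
    refine mul_le_mul h2 (by linarith) (by positivity) (by positivity)
  · intro n
    have h1 := push (fun d => if d ∣ n then 1 else 0)
    have h2 : ∑ d ∈ (fa z b P).image ee with d ∣ n, lam d =
        ∑ d ∈ (fa z b P).image ee, lam d * (if d ∣ n then 1 else 0) := by
      rw [Finset.sum_filter]
      refine Finset.sum_congr rfl fun d _ => ?_
      split_ifs <;> simp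
    rw [h2, h1]
    exact sum_ww_le hP n
  · have h1 := push (fun d => 1 / (d : ℝ))
    have h2 : ∑ d ∈ (fa z b P).image ee, lam d / d =
        ∑ d ∈ (fa z b P).image ee, lam d * (1 / (d : ℝ)) := by
      refine Finset.sum_congr rfl fun d _ => ?_
      ring
    rw [h2, h1]
    refine le_trans ?_ (sum_ww_main hP hz)
    refine mul_le_mul_of_nonneg_right (by linarith) ?_
    refine Finset.prod_nonneg fun r hr => ?_
    have hr1 : (1 : ℝ) ≤ r := by exact_mod_cast (hP r hr).1.one_le
    rw [sub_nonneg, div_le_one (by linarith)]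
    exact hr1

end Pool.Agent.Lib.TCF
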