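import Pool.Agent.Lib.MP_7b7e48_nt.TC.FLM

/-!
# Module CA0U (45 minutes): upper sieve weights of dimension one, sharp constant

PROOF. `TC/FLM.lean` with `κ = 1`, `g r = 1/r`: choose `b` with `flK 1 (1/2)^b ≤ η`; `D` = the products of the sets `d ⊆ P` with `flUp b z P d ≠ 0` (products `≤ z^(12 b)`), `lam` of such a product = `flUp b z P d` (a squarefree number is
determined by its set of prime factors), `|flUp| ≤ 1`; the number of `d ≤ z^(12 b)` is at most `z^(12 b)`. `flUp_dens` gives the density, `le_sum_flUp` (with `B` = the primes of `P` dividing `n`) the inequality. If `n = 0` all `r ∈ P` divide `n`; the claim holds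
by `le_sum_flUp` with `B = P` as well. Compare the proof of `RG.lower_weights2` in `RG/SL.lean`.
-/

set_option autoImplicit false

open Finset

namespace Pool.Agent.Lib.TCF

open Pool.Agent.Lib.TC

theorem upper_weights_eta (η : ℝ) (hη : 0 < η) : ∃ K : ℕ, 1 ≤ K ∧ ∀ z : ℕ, 2 ≤ z → ∀ P : Finset ℕ,
    (∀ r ∈ P, r.Prime ∧ r ≤ z) → ∃ (D : Finset ℕ) (lam : ℕ → ℝ),
      (∀ d ∈ D, 1 ≤ d ∧ d ≤ z ^ K ∧ Squarefree d ∧ ∀ p, p.Prime → p ∣ d → p ∈ P) ∧
      (∀ d : ℕ, |lam d| ≤ 2 + 2 * Real.log z) ∧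
      (∑ d ∈ D, |lam d| ≤ (z : ℝ) ^ K) ∧
      (∀ n : ℕ, (if (∀ r ∈ P, ¬ r ∣ n) then (1 : ℝ) else 0) ≤ ∑ d ∈ D with d ∣ n, lam d) ∧
      ∑ d ∈ D, lam d / d ≤ (1 + η) * ∏ r ∈ P, (1 - 1 / (r : ℝ)) ∧
      ∏ r ∈ P, (1 - 1 / (r : ℝ)) ≤ ∑ d ∈ D, lam d / d := by
  classical
  have hlim : Filter.Tendsto (fun b : ℕ => flK 1 * (1 / 2 : ℝ) ^ b) Filter.atTop (nhds (flK 1 * 0)) :=
    (tendsto_pow_atTop_nhds_zero_of_lt_one (by norm_num) (by norm_num)).const_mul _
  rw [mul_zero] at hlim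
  obtain ⟨b, hb, hb1⟩ : ∃ b : ℕ, flK 1 * (1 / 2 : ℝ) ^ b ≤ η ∧ 1 ≤ b := by
    have h1 := (hlim.eventually (Iic_mem_nhds hη)).and
      (Filter.eventually_ge_atTop 1)
    exact h1.exists
  refine ⟨12 * b, by omega, ?_⟩
  intro z hz P hP
  have hzr : (1 : ℝ) ≤ z := by exact_mod_cast (by omega : 1 ≤ z)
  set SS : Finset (Finset ℕ) := P.powerset.filter (fun S => flUp b z P S ≠ 0) with hSS
  have hSP : ∀ S ∈ SS, S ⊆ P := fun S hS => mem_powerset.mp (mem_filter.mp hS).1
  have hpf : ∀ S : Finset ℕ, S ⊆ P → (∏ r ∈ S, r).primeFactors = S := fun S hS =>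
    Nat.primeFactors_prod fun r hr => (hP r (hS hr)).1
  have hpos : ∀ S : Finset ℕ, S ⊆ P → 0 < ∏ r ∈ S, r := fun S hS =>
    Finset.prod_pos fun r hr => (hP r (hS hr)).1.pos
  set lam : ℕ → ℝ := fun d => flUp b z P d.primeFactors with hlam
  have hinj : Set.InjOn (fun S : Finset ℕ => ∏ r ∈ S, r) (SS : Set (Finset ℕ)) := by
    intro S hS S' hS' h
    have h1 := hpf S (hSP S hS)
    have h2 := hpf S' (hSP S' hS')
    simp only at h
    rw [← h1, ← h2, h]
  have push : ∀ g : ℕ → ℝ, ∑ d ∈ SS.image (fun S => ∏ r ∈ S, r), lam d * g d =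
      ∑ S ∈ P.powerset, flUp b z P S * g (∏ r ∈ S, r) := by
    intro g
    rw [Finset.sum_image hinj]
    have h1 : ∑ S ∈ SS, lam (∏ r ∈ S, r) * g (∏ r ∈ S, r) = ∑ S ∈ SS, flUp b z P S * g (∏ r ∈ S, r) := by
      refine Finset.sum_congr rfl fun S hS => ?_
      simp only [hlam]
      rw [hpf S (hSP S hS)]
    rw [h1, hSS, Finset.sum_filter]
    refine Finset.sum_congr rfl fun S _ => ?_
    by_cases h : flUp b z P S = 0
    · rw [if_neg (not_not.mpr h), h, zero_mul]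
    · rw [if_pos h]
  have hDle : ∀ S ∈ SS, ∏ r ∈ S, r ≤ z ^ (12 * b) := by
    intro S hS
    have h1 := flUp_support hP hz hb1 (hSP S hS) (mem_filter.mp hS).2
    exact_mod_cast h1
  have hg : ∀ r ∈ P, 0 ≤ (1 / (r : ℝ)) ∧ (1 / (r : ℝ)) ≤ 1 / r ∧ (1 / (r : ℝ)) ≤ 2 / 3 := by
    intro r hr
    have hr2 : (2 : ℝ) ≤ r := by exact_mod_cast (hP r hr).1.two_le
    refine ⟨by positivity, le_refl _, ?_⟩
    have h1 : (1 : ℝ) / r ≤ 1 / 2 := one_div_le_one_div_of_le (by norm_num) hr2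
    linarith
  have hdens := flUp_dens (κ := 1) zero_le_one hP hz (g := fun r => 1 / (r : ℝ)) hg b
  have hmain : ∑ d ∈ SS.image (fun S => ∏ r ∈ S, r), lam d / d =
      ∑ S ∈ P.powerset, flUp b z P S * ∏ r ∈ S, (1 / (r : ℝ)) := by
    have h1 := push (fun d => 1 / (d : ℝ))
    have h2 : ∑ d ∈ SS.image (fun S => ∏ r ∈ S, r), lam d / d =
        ∑ d ∈ SS.image (fun S => ∏ r ∈ S, r), lam d * (1 / (d : ℝ)) := by
      refine Finset.sum_congr rfl fun d _ => ?_
      ring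
    rw [h2, h1]
    refine Finset.sum_congr rfl fun S _ => ?_
    congr 1
    rw [Finset.prod_div_distrib, prod_const_one]
    push_cast
    rfl
  refine ⟨SS.image (fun S => ∏ r ∈ S, r), lam, ?_, ?_, ?_, ?_, ?_, ?_⟩
  · intro d hd
    rw [mem_image] at hd
    obtain ⟨S, hS, rfl⟩ := hd
    have hSsub := hSP S hS
    refine ⟨hpos S hSsub, hDle S hS, ?_, ?_⟩
    · refine Finset.squarefree_prod_of_pairwise_isCoprime ?_ fun r hr =>
        (hP r (hSsub hr)).1.prime.squarefree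
      intro r hr r' hr' hrr
      have h1 := (Nat.coprime_primes (hP r (hSsub hr)).1 (hP r' (hSsub hr')).1).mpr hrr
      exact Nat.coprime_iff_isRelPrime.mp h1
    · intro p hp hpd
      have : p ∈ (∏ r ∈ S, r).primeFactors := Nat.mem_primeFactors.mpr ⟨hp, hpd, (hpos S hSsub).ne'⟩
      rw [hpf S hSsub] at this
      exact hSsub this
  · intro d
    have h1 := abs_flUp_le b z P d.primeFactors
    have h2 : 0 ≤ Real.log z := Real.log_nonneg hzr
    show |flUp b z P d.primeFactors| ≤ _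
    linarith
  · have h1 : ∑ d ∈ SS.image (fun S => ∏ r ∈ S, r), |lam d| ≤
        ∑ d ∈ SS.image (fun S => ∏ r ∈ S, r), (1 : ℝ) :=
      Finset.sum_le_sum fun d _ => abs_flUp_le b z P d.primeFactors
    refine h1.trans ?_
    rw [Finset.sum_const, nsmul_eq_mul, mul_one]
    have h2 : SS.image (fun S => ∏ r ∈ S, r) ⊆ Finset.Icc 1 (z ^ (12 * b)) := by
      intro d hd
      rw [mem_image] at hd
      obtain ⟨S, hS, rfl⟩ := hd
      exact mem_Icc.mpr ⟨hpos S (hSP S hS), hDle S hS⟩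
    have h3 := card_le_card h2
    rw [Nat.card_Icc] at h3
    have h4 : (SS.image (fun S => ∏ r ∈ S, r)).card ≤ z ^ (12 * b) := by omega
    exact_mod_cast h4
  · intro n
    have h1 := push (fun d => if d ∣ n then 1 else 0)
    have h2 : ∑ d ∈ SS.image (fun S => ∏ r ∈ S, r) with d ∣ n, lam d =
        ∑ d ∈ SS.image (fun S => ∏ r ∈ S, r), lam d * (if d ∣ n then 1 else 0) := by
      rw [Finset.sum_filter]
      refine Finset.sum_congr rfl fun d _ => ?_
      split_ifs <;> simp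
    rw [h2, h1]
    set B : Finset ℕ := P.filter (fun r => r ∣ n) with hB
    have hBP : B ⊆ P := filter_subset _ _
    have h3 := le_sum_flUp hP b hBP
    have h4 : (B = ∅) ↔ (∀ r ∈ P, ¬ r ∣ n) := by
      rw [hB, Finset.filter_eq_empty_iff]
    have h5 : ∑ S ∈ P.powerset, flUp b z P S * (if (∏ r ∈ S, r) ∣ n then 1 else 0) =
        ∑ S ∈ B.powerset, flUp b z P S := by
      have h6 : B.powerset = P.powerset.filter (fun S => (∏ r ∈ S, r) ∣ n) := by
        ext S
        rw [mem_filter, mem_powerset, mem_powerset]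
        constructor
        · intro h
          refine ⟨h.trans hBP, ?_⟩
          refine Finset.prod_primes_dvd n (fun r hr => (hP r (hBP (h hr))).1.prime) fun r hr => ?_
          exact (mem_filter.mp (h hr)).2
        · rintro ⟨h7, h8⟩ r hr
          exact mem_filter.mpr ⟨h7 hr, dvd_trans (Finset.dvd_prod_of_mem _ hr) h8⟩
      rw [h6, Finset.sum_filter]
      refine Finset.sum_congr rfl fun S _ => ?_
      split_ifs <;> simp
    rw [h5]
    refine le_trans (le_of_eq ?_) h3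
    by_cases h : B = ∅
    · rw [if_pos h, if_pos (h4.mp h)]
    · rw [if_neg h, if_neg (fun h' => h (h4.mpr h'))]
  · rw [hmain]
    refine hdens.2.trans ?_
    refine mul_le_mul_of_nonneg_right (by linarith) ?_
    refine Finset.prod_nonneg fun r hr => ?_
    have := (hg r hr).2.2
    linarith
  · rw [hmain]
    exact hdens.1

end Pool.Agent.Lib.TCF
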