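import Pool.Agent.Lib.MP_7b7e48_nt.TCF.Def

/-!
# Counting with marks: auxiliary definitions

Text: sections 2 and 7 of `/team-store/TC_FRAME.md` and the head comments of the modules `CA*`, `CB*`. The marks are indexed by the choices
`f ∈ tp B` of one prime of each set `B c`; the mark is `mrk f`.
-/

set_option autoImplicit false

open Finset

namespace Pool.Agent.Lib.TCF

open Pool.Agent.Lib.RG hiding RR sig Good
open Pool.Agent.Lib.RH

/-- the choices of one prime of each set -/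
def tp {n : ℕ} (B : Fin n → Finset ℕ) : Finset (Fin n → ℕ) := Fintype.piFinset B

/-- the mark of a choice -/
def mrk {n : ℕ} (f : Fin n → ℕ) : ℕ := ∏ c, f c

/-- all primes of the family -/
def prs {n : ℕ} (B : Fin n → Finset ℕ) : Finset ℕ := univ.biUnion B

/-- a family of sets of primes, weaker lower bound for the sums of reciprocals than in `FamOk` -/
structure FamW (P : Prm) (N y0 : ℕ) {n : ℕ} (B : Fin n → Finset ℕ) : Prop where
  pr : ∀ c, ∀ p ∈ B c, p.Prime ∧ ¬ p ∣ N ∧ y0 < p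
  disj : ∀ c c', c ≠ c' → Disjoint (B c) (B c')
  lo : ∀ c, 1 / (JJ N : ℝ) ≤ ∑ p ∈ B c, 1 / (p : ℝ)
  up : ∀ c, ∑ p ∈ B c, 1 / (p : ℝ) ≤ 1
  tot : ∏ c, (1 + ∑ p ∈ B c, 1 / (p : ℝ)) ≤ (Real.log N) ^ 2
  nle : (n : ℝ) ≤ Real.log N
  tup : ∀ m ∈ TUP B, (m : ℝ) ≤ (N : ℝ) ^ (P.kap / 100)

theorem FamOk.toW {P : Prm} {N y0 n : ℕ} {B : Fin n → Finset ℕ} (h : FamOk P N y0 B)
    (hN : 1 ≤ Real.log N) : FamW P N y0 B where
  pr := h.pr
  disj := h.disj
  lo c := by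
    refine le_trans ?_ (h.lo c)
    have h1 : (Real.log N) ^ 3 ≤ (JJ N : ℝ) :=
      (pow_le_pow_right₀ hN (by norm_num : 3 ≤ 1000)).trans (Nat.le_ceil _)
    exact one_div_le_one_div_of_le (by positivity) h1
  up := h.up
  tot := h.tot
  nle := h.nle
  tup := h.tup

/-- local densities: as `RG.Law`, without a bound for the number of exceptional primes -/
structure Lw (P S4 : Finset ℕ) (u e : ℕ → ℝ) : Prop where
  prime : ∀ p ∈ P, p.Prime
  four : ∀ p ∈ S4, u p = 0 ∧ e p = 1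
  small : ∀ p ∈ P, p ∉ S4 → |u p| + |e p| ≤ 3 / p ∧ 0 ≤ u p ∧ 0 ≤ u p + e p
  mean : ∀ p ∈ P, u p + e p / p = 1 / p

section sums

variable (u : ℕ → ℝ) {n : ℕ} (B : Fin n → Finset ℕ)

/-- `ρ_u` -/
noncomputable def rhoU : ℝ := ∏ c, ∑ p ∈ B c, u p

/-- sum of the densities of the pairs of coprime marks -/
noncomputable def sOff : ℝ := ∏ c, ((∑ p ∈ B c, u p) ^ 2 - ∑ p ∈ B c, u p ^ 2)

/-- sum of the densities of all pairs of marks (of one number) -/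
noncomputable def sDia : ℝ := ∏ c, ((∑ p ∈ B c, u p) ^ 2 - ∑ p ∈ B c, u p ^ 2 + ∑ p ∈ B c, u p)

/-- joint density of two marks; `eq`: of the same number -/
noncomputable def tt (eq : Prop) [Decidable eq] (f g : Fin n → ℕ) : ℝ :=
  ∏ c, (if f c = g c then (if eq then u (f c) else 0) else u (f c) * u (g c))

end sums

open Classical in
/-- `∑_{k ∈ W} (∑_{d ∣ k N + v n} w d) #{marks dividing k N + v n}` -/
noncomputable def At {r : ℕ} (B : Fin r → Finset ℕ) (D : Finset ℕ) (w : ℕ → ℝ) (W : Finset ℤ) (N v n : ℕ) :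
    ℝ :=
  ∑ k ∈ W, (∑ d ∈ D, if (d : ℤ) ∣ k * N + v * n then w d else 0) *
    ∑ f ∈ tp B, if (mrk f : ℤ) ∣ k * N + v * n then (1 : ℝ) else 0

open Classical in
/-- `∑_{k ∈ W} [k N + v n without prime factor in `PN N M`] #{marks dividing k N + v n}` -/
noncomputable def Sw {r : ℕ} (B : Fin r → Finset ℕ) (M : ℕ) (W : Finset ℤ) (N v n : ℕ) : ℝ :=
  ∑ k ∈ W, if (∀ p ∈ PN N M, ¬ (p : ℤ) ∣ k * N + v * n) then
    ∑ f ∈ tp B, (if (mrk f : ℤ) ∣ k * N + v * n then (1 : ℝ) else 0) else 0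

open Classical in
/-- `∑_{k ∈ W} #{marks dividing k N + v n}` -/
noncomputable def St {r : ℕ} (B : Fin r → Finset ℕ) (W : Finset ℤ) (N v n : ℕ) : ℝ :=
  ∑ k ∈ W, ∑ f ∈ tp B, (if (mrk f : ℤ) ∣ k * N + v * n then (1 : ℝ) else 0)

/-- the densities of the marks (`K = log N`, `J = JJ N`) -/
structure Den {n : ℕ} (B : Fin n → Finset ℕ) (u : ℕ → ℝ) (y0 : ℕ) (K J : ℝ) : Prop where
  u0 : ∀ c, ∀ p ∈ B c, 0 ≤ u p ∧ u p ≤ 1
  low : 19 / 20 * rho B ≤ rhoU u B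
  up : rhoU u B ≤ 2 * rho B
  pos : 0 < rhoU u B
  off : sOff u B ≤ rhoU u B ^ 2
  off0 : (1 - K ^ 2 * J / y0) * rhoU u B ^ 2 ≤ sOff u B
  offn : 0 ≤ sOff u B
  dia0 : sOff u B ≤ sDia u B
  dia : sDia u B ≤ K ^ 3 * rhoU u B
  card : rhoU u B ≤ (tp B).card

/-- the primes which divide `v` -/
noncomputable def dv (P : Finset ℕ) (v : ℕ) : Finset ℕ := P.filter fun p => p ∣ v

/-- the primes in question: the small primes and the primes of the family -/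
noncomputable def PP (N M : ℕ) {n : ℕ} (B : Fin n → Finset ℕ) : Finset ℕ := PN N M ∪ prs B

/-- the situation of the generic counting lemma: weights `om ≥ 0` on `I` with the law `(u, e)`, density `X`, error `Err`, for moduli
up to `N ^ (kap / 20)` -/
structure Sit (P : Prm) (N : ℕ) (y0 : ℕ) {r : ℕ} (B : Fin r → Finset ℕ) (v : ℕ) (u e : ℕ → ℝ) (I : Finset ℕ)
    (om : ℕ → ℝ) (X Err : ℝ) : Prop where
  fam : FamW P N y0 B
  v1 : 1 ≤ v
  vN : v.Coprime N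
  vle : (v : ℝ) ≤ (N : ℝ) ^ (2 : ℝ)
  lw : Lw (PP N (MM P N) B) (dv (PP N (MM P N) B) v) u e
  X0 : 0 ≤ X
  E0 : 0 ≤ Err
  om0 : ∀ n ∈ I, 0 ≤ om n
  law : HasLaw (PP N (MM P N) B) (dv (PP N (MM P N) B) v) u e I om X Err ⌊(N : ℝ) ^ (P.kap / 20)⌋₊

end Pool.Agent.Lib.TCF
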