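import Pool.Agent.Lib.MP_7b7e48_nt.TCF.CA1
import Pool.Agent.Lib.MP_7b7e48_nt.RG.SMi
import Pool.Agent.Lib.MP_7b7e48_nt.RG.RAP2

/-!
# Module CA8 (75 minutes): the laws of the two types

PROOF. `sit_one`: `u p = if p ∣ v then 0 else 1/p`, `e p = if p ∣ v then 1 else 0`; compare `RG/SM1.lean` (`SM1_law`) and `RG/SMi.lean` (`unif_law`, where `S4 = dv ..`; for primes of
`PP` membership in `dv` is `p ∣ v`). `sit_two`: `u p = if p ∣ v then 0 else (1 - c p/p)/p`, `e p = if p ∣ v then 1 else c p/p`; compare `RG/SM2.lean` (`sm2_law`, `sm2_prog`,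
`sm2_haslaw`: copy them with the prefix `ca8_`), input `RAP2.rap_law`; moduli `≤ N^(kap/20) ≤ N^(1/50)`, primes of `PP` do not divide `N` (`PN`, `FamW.pr`). `L ≥ 0` by `LV`,
`rr c n ≥ 0` by `RG.rr_nonneg` (file `A3`).
-/

set_option autoImplicit false

open Finset

namespace Pool.Agent.Lib.TCF

open Pool.Agent.Lib.RG hiding RR sig Good
open Pool.Agent.Lib.RH

private theorem ca8_PP {P : Prm} {N y0 r M : ℕ} {B : Fin r → Finset ℕ} (hF : FamW P N y0 B) {p : ℕ}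
    (hp : p ∈ PP N M B) : p.Prime ∧ ¬ p ∣ N := by
  unfold PP at hp
  rcases Finset.mem_union.1 hp with h | h
  · unfold PN at h
    rw [Finset.mem_filter] at h
    exact h.2
  · unfold prs at h
    obtain ⟨c, _, hc⟩ := Finset.mem_biUnion.1 h
    exact ⟨(hF.pr c p hc).1, (hF.pr c p hc).2.1⟩

private theorem ca8_mem_prs {N r M : ℕ} {B : Fin r → Finset ℕ} {c : Fin r} {p : ℕ} (hp : p ∈ B c) :
    p ∈ PP N M B := by
  unfold PP prs
  exact Finset.mem_union_right _ (Finset.mem_biUnion.2 ⟨c, Finset.mem_univ _, hp⟩)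

private theorem ca8_mem_dv {Q : Finset ℕ} {v p : ℕ} : p ∈ dv Q v ↔ p ∈ Q ∧ p ∣ v := by
  unfold dv
  rw [Finset.mem_filter]

theorem sit_one (P : Prm) {N : ℕ} {y0 r : ℕ} {B : Fin r → Finset ℕ} (hF : FamW P N y0 B) {v : ℕ}
    (hv : 1 ≤ v) (hvN : v.Coprime N) (hvle : (v : ℝ) ≤ (N : ℝ) ^ (2 : ℝ)) {a b : ℕ} (hab : a ≤ b) :
    ∃ u e : ℕ → ℝ, Sit P N y0 B v u e (Ioc a b) (fun _ => 1) ((b : ℝ) - a) 1 ∧
      (∀ c, ∀ p ∈ B c, 0 ≤ u p ∧ u p ≤ 1 / p) ∧ (∀ c, ∀ p ∈ B c, ¬ p ∣ v → u p + e p = 1 / p) ∧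
      (v = 1 → ∀ c, ∀ p ∈ B c, e p = 0) := by
  classical
  set S4 : Finset ℕ := dv (PP N (MM P N) B) v with hS4
  refine ⟨fun p => if p ∈ S4 then 0 else 1 / (p : ℝ), fun p => if p ∈ S4 then 1 else 0,
    ⟨hF, hv, hvN, hvle, ?_, ?_, zero_le_one, fun _ _ => zero_le_one, ?_⟩, ?_, ?_, ?_⟩
  · refine ⟨fun p hp => (ca8_PP hF hp).1, ?_, ?_, ?_⟩
    · intro p hp
      rw [if_pos hp, if_pos hp]
      exact ⟨rfl, rfl⟩
    · intro p hp hp4
      have hp0 : (0 : ℝ) < p := by exact_mod_cast (ca8_PP hF hp).1.pos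
      rw [if_neg hp4, if_neg hp4, abs_zero, add_zero, abs_of_nonneg (by positivity)]
      refine ⟨?_, by positivity, by positivity⟩
      gcongr
      norm_num
    · intro p _
      by_cases h : p ∈ S4
      · rw [if_pos h, if_pos h, zero_add]
      · rw [if_neg h, if_neg h, zero_div, add_zero]
  · rw [sub_nonneg]
    exact_mod_cast hab
  · exact unif_law (PP N (MM P N) B) S4 a b hab ⌊(N : ℝ) ^ (P.kap / 20)⌋₊
  · intro c p hp
    have hp0 : (0 : ℝ) < p := by exact_mod_cast (hF.pr c p hp).1.pos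
    have h1 : (0 : ℝ) ≤ 1 / (p : ℝ) := by positivity
    simp only
    by_cases h : p ∈ S4
    · rw [if_pos h]
      exact ⟨le_refl _, h1⟩
    · rw [if_neg h]
      exact ⟨h1, le_refl _⟩
  · intro c p _ hpv
    have h : p ∉ S4 := fun h => hpv (ca8_mem_dv.1 h).2
    simp only
    rw [if_neg h, if_neg h, add_zero]
  · intro hv1 c p hp
    have h : p ∉ S4 := by
      intro h
      have h1 := (ca8_mem_dv.1 h).2
      rw [hv1] at h1
      exact (hF.pr c p hp).1.one_lt.ne' (Nat.dvd_one.1 h1)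
    simp only
    rw [if_neg h]

open Classical in
/-- first part of the local densities of `1 * c` -/
private noncomputable def ca8_u (c : ℕ → ℝ) (S4 : Finset ℕ) (p : ℕ) : ℝ :=
  if p ∈ S4 then 0 else (1 - c p / p) / p

open Classical in
/-- second part of the local densities of `1 * c` -/
private noncomputable def ca8_e (c : ℕ → ℝ) (S4 : Finset ℕ) (p : ℕ) : ℝ :=
  if p ∈ S4 then 1 else c p / p

private theorem ca8_law {N : ℕ} {c : ℕ → ℝ} (hc : RC N c) {Q S4 : Finset ℕ}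
    (hQ : ∀ p ∈ Q, p.Prime ∧ ¬ p ∣ N) : Lw Q S4 (ca8_u c S4) (ca8_e c S4) := by
  refine ⟨fun p hp => (hQ p hp).1, ?_, ?_, ?_⟩
  · intro p hp
    unfold ca8_u ca8_e
    rw [if_pos hp, if_pos hp]
    exact ⟨rfl, rfl⟩
  · intro p hp hp4
    obtain ⟨hpr, hpN⟩ := hQ p hp
    have hcop : p.Coprime N := (Nat.Prime.coprime_iff_not_dvd hpr).2 hpN
    have hp2 : (2 : ℝ) ≤ p := by exact_mod_cast hpr.two_le
    have hp0 : (0 : ℝ) < p := by linarith
    have hinv : (1 : ℝ) / p ≤ 1 / 2 := one_div_le_one_div_of_le (by norm_num) hp2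
    have hinv0 : (0 : ℝ) < 1 / p := by positivity
    unfold ca8_u ca8_e
    rw [if_neg hp4, if_neg hp4]
    set t : ℝ := 1 / (p : ℝ) with ht
    have e1 : (1 - c p / p) / p = t * (1 - c p * t) := by rw [ht]; ring
    have e2 : c p / (p : ℝ) = c p * t := by rw [ht]; ring
    have e3 : 3 / (p : ℝ) = 3 * t := by rw [ht]; ring
    rw [e1, e2, e3]
    rcases hc.val p hcop with h | h
    · rw [h]
      have h1 : 0 ≤ t * (1 - 1 * t) := mul_nonneg hinv0.le (by linarith)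
      refine ⟨?_, h1, by linarith⟩
      rw [abs_of_nonneg h1, abs_of_nonneg (by linarith)]
      nlinarith
    · rw [h]
      have h1 : 0 ≤ t * (1 - -1 * t) := mul_nonneg hinv0.le (by linarith)
      refine ⟨?_, h1, by nlinarith⟩
      rw [abs_of_nonneg h1, abs_of_nonpos (by linarith)]
      nlinarith
  · intro p hp
    obtain ⟨hpr, -⟩ := hQ p hp
    have hp0 : (0 : ℝ) < p := by exact_mod_cast hpr.pos
    unfold ca8_u ca8_e
    by_cases h : p ∈ S4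
    · rw [if_pos h, if_pos h, zero_add]
    · rw [if_neg h, if_neg h]
      field_simp
      ring

private theorem ca8_prog (c : ℕ → ℝ) (m a b r : ℕ) (hab : a ≤ b) :
    ∑ n ∈ (Finset.Ioc a b).filter (fun n => n % m = r % m), rr c n =
      ∑ n ∈ (Finset.Icc 1 b).filter (fun n => n % m = r % m), rr c n -
        ∑ n ∈ (Finset.Icc 1 a).filter (fun n => n % m = r % m), rr c n := by
  rw [eq_sub_iff_add_eq, ← Finset.sum_union]
  · refine Finset.sum_congr ?_ fun _ _ => rfl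
    ext n
    simp only [Finset.mem_union, Finset.mem_filter, Finset.mem_Ioc, Finset.mem_Icc]
    constructor
    · rintro (⟨⟨h1, h2⟩, h3⟩ | ⟨⟨h1, h2⟩, h3⟩)
      · exact ⟨⟨by omega, h2⟩, h3⟩
      · exact ⟨⟨h1, by omega⟩, h3⟩
    · rintro ⟨⟨h1, h2⟩, h3⟩
      by_cases h : n ≤ a
      · right; exact ⟨⟨h1, h⟩, h3⟩
      · left; exact ⟨⟨by omega, h2⟩, h3⟩
  · rw [Finset.disjoint_left]
    intro n h1 h2
    simp only [Finset.mem_filter, Finset.mem_Ioc, Finset.mem_Icc] at h1 h2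
    omega

private theorem ca8_haslaw {N : ℕ} {c : ℕ → ℝ} {L : ℝ}
    (hrap : ∀ m : ℕ, Squarefree m → m.Coprime N → (m : ℝ) ≤ (N : ℝ) ^ ((1 : ℝ) / 50) → ∀ b y : ℕ,
      (y : ℝ) ≤ (N : ℝ) ^ ((21 : ℝ) / 20) →
      |∑ n ∈ (Finset.Icc 1 y).filter (fun n => n % m = b % m), rr c n -
        L * y * ∏ p ∈ m.primeFactors, ((1 - c p / p) / p + if p ∣ b then c p / p else 0)| ≤
        (N : ℝ) ^ ((4 : ℝ) / 5) / 2)
    {Q : Finset ℕ} (hQ : ∀ p ∈ Q, p.Prime ∧ ¬ p ∣ N)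
    (S4 : Finset ℕ) {a b : ℕ} (hab : a ≤ b) (hb : (b : ℝ) ≤ (N : ℝ) ^ ((21 : ℝ) / 20)) {Y : ℕ}
    (hY : (Y : ℝ) ≤ (N : ℝ) ^ ((1 : ℝ) / 50)) :
    HasLaw Q S4 (ca8_u c S4) (ca8_e c S4) (Finset.Ioc a b) (rr c) (L * ((b : ℝ) - a))
      ((N : ℝ) ^ ((4 : ℝ) / 5)) Y := by
  intro m hm hmp hmY r
  have hmN : m.Coprime N := by
    apply Nat.Coprime.symm
    apply Nat.coprime_of_dvd
    intro p hp hpN hpm
    exact (hQ p (hmp p hp hpm).1).2 hpN
  have hmY' : (m : ℝ) ≤ (N : ℝ) ^ ((1 : ℝ) / 50) := le_trans (by exact_mod_cast hmY) hY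
  have ha : (a : ℝ) ≤ (N : ℝ) ^ ((21 : ℝ) / 20) := le_trans (by exact_mod_cast hab) hb
  have h1 := hrap m hm hmN hmY' r b hb
  have h2 := hrap m hm hmN hmY' r a ha
  have h3 : ∏ p ∈ m.primeFactors, (ca8_u c S4 p + if p ∣ r then ca8_e c S4 p else 0) =
      ∏ p ∈ m.primeFactors, ((1 - c p / p) / p + if p ∣ r then c p / p else 0) := by
    refine Finset.prod_congr rfl fun p hp => ?_
    have h4 := hmp p (Nat.prime_of_mem_primeFactors hp) (Nat.dvd_of_mem_primeFactors hp)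
    unfold ca8_u ca8_e
    rw [if_neg h4.2, if_neg h4.2]
  rw [h3, ca8_prog c m a b r hab]
  set P := ∏ p ∈ m.primeFactors, ((1 - c p / p) / p + if p ∣ r then c p / p else 0) with hP
  have h5 := abs_le.1 h1
  have h6 := abs_le.1 h2
  have e : L * ((b : ℝ) - a) * P = L * b * P - L * a * P := by ring
  rw [e, abs_le]
  constructor <;> linarith [h5.1, h5.2, h6.1, h6.2]

theorem sit_two (P : Prm) (hP : P.Ok) : ∃ N0 : ℕ, ∀ N : ℕ, N0 ≤ N → ∀ (c : ℕ → ℝ) (L : ℝ), RC N c →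
    LV N c L → ∀ (y0 r : ℕ) (B : Fin r → Finset ℕ), FamW P N y0 B → ∀ v : ℕ, 1 ≤ v → v.Coprime N →
    (v : ℝ) ≤ (N : ℝ) ^ (2 : ℝ) → ∀ a b : ℕ, a ≤ b → (b : ℝ) ≤ (N : ℝ) ^ ((21 : ℝ) / 20) →
    ∃ u e : ℕ → ℝ, Sit P N y0 B v u e (Ioc a b) (rr c) (L * ((b : ℝ) - a)) ((N : ℝ) ^ ((4 : ℝ) / 5)) := by
  obtain ⟨N1, hrap⟩ := rap_law
  refine ⟨max N1 1, ?_⟩
  intro N hN c L hc hL y0 r B hF v hv hvN hvle a b hab hb
  have hN1 : N1 ≤ N := le_trans (le_max_left _ _) hN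
  have hNr : (1 : ℝ) ≤ N := by exact_mod_cast le_trans (le_max_right _ _) hN
  have hN0 : (0 : ℝ) ≤ N := by linarith
  set S4 : Finset ℕ := dv (PP N (MM P N) B) v with hS4
  have hY : ((⌊(N : ℝ) ^ (P.kap / 20)⌋₊ : ℕ) : ℝ) ≤ (N : ℝ) ^ ((1 : ℝ) / 50) := by
    refine le_trans (Nat.floor_le (Real.rpow_nonneg hN0 _)) ?_
    refine Real.rpow_le_rpow_of_exponent_le hNr ?_
    have := hP.kap1
    linarith
  refine ⟨ca8_u c S4, ca8_e c S4, ⟨hF, hv, hvN, hvle, ca8_law hc fun p hp => ca8_PP hF hp, ?_,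
    Real.rpow_nonneg hN0 _, fun n _ => rr_nonneg N c hc n,
    ca8_haslaw (hrap N hN1 c L hc hL) (fun p hp => ca8_PP hF hp) S4 hab hb hY⟩⟩
  refine mul_nonneg hL.1 ?_
  rw [sub_nonneg]
  exact_mod_cast hab

end Pool.Agent.Lib.TCF
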