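import Pool.Agent.Lib.MP_7b7e48_nt.TCF.CA1
import Pool.Agent.Lib.MP_7b7e48_nt.RG.SMi

/-!
# Module CB0 (75 minutes): the numbers of a class as values of `k N + A n`

PROOF. Let `A = l v`, `k0 = A n / N`, `x = ((A n : ℕ) : ZMod N)`: `x.val = A n % N = A n - k0 N`, so `x.val + j N = A n + (j - k0) N` (as integers); it is `0` only
if `j = k0 = 0, A n = 0`. As `(A n, N) = 1` this number is coprime to `N`; it is `Rough (MM P N)` iff no prime of `PN N (MM P N)` divides it (primes `≤ M` dividing it do not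
divide `N`). `pht B m = ∑_{f ∈ tp B} [mrk f ∣ m]` (`CA1.pht_eqm`). `PXr_ge`: the terms of `Sw` for `k ∈ W` are terms of `PXr` (`j = k + k0`; `k ≠ 0` means
`x.val + j N ≠ l (v n)`), all terms are `≥ 0`. `PY_ge`: the same for `PY` with `j = k + k0`, `0 ≤ j < J0`. `PT_le`: all `j`, the term `k = 0` is `pht (A n)`.
`floor_split`: cut `Ioc a b` by the value `k0` of `A n / N` (`RG.floor_int`, `RG.floor_card`: at most `A b / N + 1` values; sets `(Ioc a b).filter (A n / N = k0)` are intervals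
`Ioc a' b'`; the sum of their lengths is `b - a`); see the proof of `SM1` in `RG/SM1.lean`.
-/

set_option autoImplicit false

open Finset

namespace Pool.Agent.Lib.TCF

open Pool.Agent.Lib.RG hiding RR sig Good
open Pool.Agent.Lib.RH

private theorem cb0_pht_nonneg {r : ℕ} (B : Fin r → Finset ℕ) (m : ℕ) : 0 ≤ pht B m :=
  Finset.prod_nonneg fun _ _ => Nat.cast_nonneg _

private theorem cb0_ph_nonneg (P : Prm) (N : ℕ) {r : ℕ} (B : Fin r → Finset ℕ) (m : ℕ) :
    0 ≤ ph P N B m := by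
  unfold ph
  split_ifs
  · exact cb0_pht_nonneg B m
  · exact le_refl _

private theorem cb0_rough {N M m : ℕ} (hc : m.Coprime N) :
    (∀ p ∈ PN N M, ¬ (p : ℤ) ∣ (m : ℤ)) ↔ (m.Coprime N ∧ Rough M m) := by
  constructor
  · intro h
    refine ⟨hc, fun p hp hpm => ?_⟩
    by_contra hlt
    have h1 : p ∈ PN N M := by
      unfold PN
      rw [mem_filter, mem_range]
      refine ⟨by omega, hp, fun hpN => ?_⟩
      have h2 : p ∣ Nat.gcd m N := Nat.dvd_gcd hpm hpN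
      rw [hc] at h2
      exact hp.one_lt.ne' (Nat.dvd_one.mp h2)
    exact h p h1 (Int.natCast_dvd_natCast.mpr hpm)
  · rintro ⟨_, h⟩ p hp hpm
    unfold PN at hp
    rw [mem_filter, mem_range] at hp
    have h1 := h p hp.2.1 (Int.natCast_dvd_natCast.mp hpm)
    omega

private theorem cb0_pht_int {P : Prm} {N y0 r : ℕ} {B : Fin r → Finset ℕ} (hF : FamW P N y0 B)
    (m : ℕ) (z : ℤ) (hz : z = (m : ℤ)) :
    pht B m = ∑ f ∈ tp B, (if (mrk f : ℤ) ∣ z then (1 : ℝ) else 0) := by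
  rw [pht_eqm hF m, hz]
  refine Finset.sum_congr rfl fun f _ => ?_
  by_cases h : mrk f ∣ m
  · rw [if_pos h, if_pos (Int.natCast_dvd_natCast.mpr h)]
  · rw [if_neg h, if_neg (fun h1 => h (Int.natCast_dvd_natCast.mp h1))]

open Classical in
private theorem cb0_ph {P : Prm} {N y0 r : ℕ} {B : Fin r → Finset ℕ} (hF : FamW P N y0 B)
    (m : ℕ) (hc : m.Coprime N) (z : ℤ) (hz : z = (m : ℤ)) :
    (if (∀ p ∈ PN N (MM P N), ¬ (p : ℤ) ∣ z) then
      ∑ f ∈ tp B, (if (mrk f : ℤ) ∣ z then (1 : ℝ) else 0) else 0) = ph P N B m := by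
  have h1 := cb0_rough (N := N) (M := MM P N) hc
  rw [← hz] at h1
  have h2 := cb0_pht_int hF m z hz
  unfold ph
  by_cases h : m.Coprime N ∧ Rough (MM P N) m
  · rw [if_pos h, if_pos (h1.mpr h), h2]
  · rw [if_neg h, if_neg (fun h3 => h (h1.mp h3))]

/-- the numbers `x.val + j N` of the class of `A` -/
private theorem cb0_val {N A j : ℕ} [NeZero N] {k : ℤ} (hj : (j : ℤ) = k + ((A / N : ℕ) : ℤ)) :
    k * (N : ℤ) + (A : ℤ) = (((((A : ℕ) : ZMod N)).val + j * N : ℕ) : ℤ) := by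
  rw [ZMod.val_natCast]
  have h1 : ((A % N + N * (A / N) : ℕ) : ℤ) = (A : ℤ) := by rw [Nat.mod_add_div]
  push_cast at h1 ⊢
  push_cast at hj
  rw [hj]
  linarith

private theorem cb0_copr {N A j : ℕ} [NeZero N] (hc : A.Coprime N) :
    ((((A : ℕ) : ZMod N)).val + j * N).Coprime N := by
  rw [ZMod.val_natCast]
  have h1 : (A % N + j * N).gcd N = (A % N).gcd N := Nat.gcd_add_mul_right_left _ _ _
  have h2 : (A % N).gcd N = A.gcd N := by
    rw [Nat.gcd_comm A N, Nat.gcd_rec N A]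
  unfold Nat.Coprime
  rw [h1, h2]
  exact hc

open Classical in
private theorem cb0_sw {P : Prm} {N : ℕ} [NeZero N] {y0 r : ℕ} {B : Fin r → Finset ℕ}
    (hF : FamW P N y0 B) {v n A : ℕ} (hA : v * n = A) (hc : A.Coprime N) (W : Finset ℤ)
    (hW : ∀ k ∈ W, (0 : ℤ) ≤ k + ((A / N : ℕ) : ℤ)) :
    Sw B (MM P N) W N v n =
      ∑ j ∈ W.image (fun k => (k + ((A / N : ℕ) : ℤ)).toNat),
        ph P N B ((((A : ℕ) : ZMod N)).val + j * N) := by
  rw [Finset.sum_image]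
  · unfold Sw
    refine Finset.sum_congr rfl fun k hk => ?_
    have h1 : (((k + ((A / N : ℕ) : ℤ)).toNat : ℕ) : ℤ) = k + ((A / N : ℕ) : ℤ) :=
      Int.toNat_of_nonneg (hW k hk)
    have h2 := cb0_val (N := N) (A := A) h1
    have h3 : k * (N : ℤ) + (v : ℤ) * (n : ℤ) = k * (N : ℤ) + (A : ℤ) := by
      rw [← hA]; push_cast; ring
    rw [← cb0_ph hF _ (cb0_copr hc) _ (h3.trans h2)]
  · intro k hk k' hk' h
    have h1 := Int.toNat_of_nonneg (hW k hk)
    have h2 := Int.toNat_of_nonneg (hW k' hk')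
    simp only at h
    rw [h] at h1
    linarith

theorem PXr_ge {P : Prm} {N : ℕ} [NeZero N] {D : Dat} (hN : 2 ≤ N) (hF : FamW P N D.y0 D.BX)
    {l v n : ℕ} (hc : (l * v * n).Coprime N) {W : Finset ℤ}
    (hW : ∀ k ∈ W, k ≠ 0 ∧ (D.J2 : ℤ) ≤ k + ((l * v * n / N : ℕ) : ℤ) ∧
      k + ((l * v * n / N : ℕ) : ℤ) < D.J1) :
    Sw D.BX (MM P N) W N (l * v) n ≤ PXr P N D l (v * n) := by
  classical
  have hA : l * v * n = l * (v * n) := mul_assoc _ _ _
  rw [cb0_sw hF (v := l * v) (n := n) (A := l * (v * n)) hA (hA ▸ hc) W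
    (fun k hk => by rw [← hA]; exact le_trans (Int.natCast_nonneg _) (hW k hk).2.1)]
  unfold PXr
  have h1 : W.image (fun k => (k + ((l * (v * n) / N : ℕ) : ℤ)).toNat) ⊆ Ico D.J2 D.J1 := by
    intro j hj
    obtain ⟨k, hk, rfl⟩ := mem_image.mp hj
    have h2 := hW k hk
    rw [hA] at h2
    rw [mem_Ico]
    omega
  have h3 : ∑ j ∈ W.image (fun k => (k + ((l * (v * n) / N : ℕ) : ℤ)).toNat),
      ph P N D.BX ((((l * (v * n) : ℕ) : ZMod N)).val + j * N) =
      ∑ j ∈ W.image (fun k => (k + ((l * (v * n) / N : ℕ) : ℤ)).toNat),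
      (if ((((l * (v * n) : ℕ) : ZMod N)).val + j * N) = l * (v * n) then 0 else
        ph P N D.BX ((((l * (v * n) : ℕ) : ZMod N)).val + j * N)) := by
    refine Finset.sum_congr rfl fun j hj => ?_
    obtain ⟨k, hk, rfl⟩ := mem_image.mp hj
    have h2 := hW k hk
    rw [hA] at h2
    have h4 : (((k + ((l * (v * n) / N : ℕ) : ℤ)).toNat : ℕ) : ℤ) = k + ((l * (v * n) / N : ℕ) : ℤ) :=
      Int.toNat_of_nonneg (by omega)
    have h5 := cb0_val (N := N) (A := l * (v * n)) h4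
    rw [if_neg]
    intro h6
    rw [h6] at h5
    have h7 : k * (N : ℤ) = 0 := by linarith
    rcases mul_eq_zero.mp h7 with h8 | h8
    · exact h2.1 h8
    · have : N = 0 := by exact_mod_cast h8
      omega
  rw [h3]
  refine Finset.sum_le_sum_of_subset_of_nonneg h1 fun j _ _ => ?_
  split_ifs
  · exact le_refl _
  · exact cb0_ph_nonneg _ _ _ _

theorem PY_ge {P : Prm} {N : ℕ} [NeZero N] {D : Dat} (hN : 2 ≤ N) (hF : FamW P N D.y0 D.BY)
    {v n : ℕ} (hc : (v * n).Coprime N) {W : Finset ℤ}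
    (hW : ∀ k ∈ W, (0 : ℤ) ≤ k + ((v * n / N : ℕ) : ℤ) ∧ k + ((v * n / N : ℕ) : ℤ) < D.J0) :
    Sw D.BY (MM P N) W N v n ≤ PY P N D ((v * n : ℕ) : ZMod N) := by
  classical
  rw [cb0_sw hF (v := v) (n := n) (A := v * n) rfl hc W (fun k hk => (hW k hk).1)]
  unfold PY
  refine Finset.sum_le_sum_of_subset_of_nonneg ?_ fun j _ _ => cb0_ph_nonneg _ _ _ _
  intro j hj
  obtain ⟨k, hk, rfl⟩ := mem_image.mp hj
  have h2 := hW k hk
  rw [mem_range]
  omega

theorem PT_le {P : Prm} {N : ℕ} [NeZero N] {D : Dat} (hN : 2 ≤ N) (hF : FamW P N D.y0 D.BX)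
    {v n : ℕ} : PT N D ((v * n : ℕ) : ZMod N) ≤
      St D.BX ((Ico ((D.J2 : ℤ) - ((v * n / N : ℕ) : ℤ)) ((D.J1 : ℤ) - ((v * n / N : ℕ) : ℤ))).erase 0) N v n +
        pht D.BX (v * n) := by
  classical
  set k0 : ℤ := ((v * n / N : ℕ) : ℤ) with hk0
  set I := Ico ((D.J2 : ℤ) - k0) ((D.J1 : ℤ) - k0) with hI
  set G : ℤ → ℝ := fun k => ∑ f ∈ tp D.BX, (if (mrk f : ℤ) ∣ k * N + v * n then (1 : ℝ) else 0) with hG
  have hG0 : ∀ k, 0 ≤ G k := by
    intro k
    refine Finset.sum_nonneg fun f _ => ?_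
    split_ifs <;> norm_num
  have h1 : PT N D ((v * n : ℕ) : ZMod N) = ∑ k ∈ I, G k := by
    unfold PT
    refine Finset.sum_bij (fun (j : ℕ) _ => (j : ℤ) - k0) ?_ ?_ ?_ ?_
    · intro j hj
      rw [mem_Ico] at hj
      rw [hI, mem_Ico]
      omega
    · intro j _ j' _ h
      omega
    · intro k hk
      rw [hI, mem_Ico] at hk
      refine ⟨(k + k0).toNat, ?_, ?_⟩
      · rw [mem_Ico]
        omega
      · rw [Int.toNat_of_nonneg (by omega)]
        ring
    · intro j _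
      have h2 : (j : ℤ) = ((j : ℤ) - k0) + ((v * n / N : ℕ) : ℤ) := by rw [← hk0]; ring
      have h3 := cb0_val (N := N) (A := v * n) h2
      have h4 : ((j : ℤ) - k0) * (N : ℤ) + (v : ℤ) * (n : ℤ) =
          ((((((v * n : ℕ) : ZMod N)).val + j * N : ℕ)) : ℤ) := by
        rw [← h3]; push_cast; ring
      exact cb0_pht_int hF _ _ h4
  have h2 : G 0 = pht D.BX (v * n) := by
    rw [hG]
    simp only
    symm
    refine cb0_pht_int hF _ _ ?_
    push_cast
    ring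
  have h3 : St D.BX (I.erase 0) N v n = ∑ k ∈ I.erase 0, G k := rfl
  rw [h1, h3, ← h2]
  have h4 : I ⊆ insert 0 (I.erase 0) := by
    intro k hk
    rw [mem_insert, mem_erase]
    by_cases h : k = 0
    · exact Or.inl h
    · exact Or.inr ⟨h, hk⟩
  calc ∑ k ∈ I, G k ≤ ∑ k ∈ insert 0 (I.erase 0), G k :=
        Finset.sum_le_sum_of_subset_of_nonneg h4 fun k _ _ => hG0 k
    _ = G 0 + ∑ k ∈ I.erase 0, G k := Finset.sum_insert (Finset.notMem_erase 0 I)
    _ = _ := add_comm _ _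

theorem floor_split (N A a b : ℕ) (hN : 1 ≤ N) (hab : a ≤ b) (g : ℕ → ℝ) (α β : ℝ) (hβ : 0 ≤ β)
    (h : ∀ k0 a' b' : ℕ, a ≤ a' → a' ≤ b' → b' ≤ b → (∀ n ∈ Ioc a' b', A * n / N = k0) →
      ∑ n ∈ Ioc a' b', g n ≤ α * ((b' : ℝ) - a') + β) :
    ∑ n ∈ Ioc a b, g n ≤ α * ((b : ℝ) - a) + ((A * b / N : ℕ) + 1) * β := by
  classical
  have hm : ∀ n ∈ Ioc a b, A * n / N ∈ range (A * b / N + 1) := by
    intro n hn
    rw [mem_Ioc] at hn
    rw [mem_range]
    have : A * n / N ≤ A * b / N := Nat.div_le_div_right (Nat.mul_le_mul_left A hn.2)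
    omega
  rw [← Finset.sum_fiberwise_of_maps_to hm g]
  have h1 : ∀ k0 ∈ range (A * b / N + 1), ∑ n ∈ (Ioc a b).filter (fun n => A * n / N = k0), g n ≤
      α * (((Ioc a b).filter (fun n => A * n / N = k0)).card : ℝ) + β := by
    intro k0 _
    obtain ⟨a', b', hab', ha, hb, hI⟩ := floor_int N A a b k0 hN hab
    have h2 := h k0 a' b' ha hab' hb (fun n hn => by
      rw [← hI, mem_filter] at hn
      exact hn.2)
    rw [hI, Nat.card_Ioc, Nat.cast_sub hab']
    exact h2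
  refine (Finset.sum_le_sum h1).trans ?_
  rw [Finset.sum_add_distrib, ← Finset.mul_sum, ← Nat.cast_sum,
    ← Finset.card_eq_sum_card_fiberwise (f := fun n => A * n / N) (t := range (A * b / N + 1)) hm,
    Nat.card_Ioc, Nat.cast_sub hab, Finset.sum_const, card_range, nsmul_eq_mul]
  push_cast
  exact le_refl _

end Pool.Agent.Lib.TCF
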