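import Pool.Agent.Lib.MP_7b7e48_nt.TCF.CA1

/-!
# Module CB0U (30 minutes): the weight of a class as a sum over a window

PROOF. `k0 = v n / N`, `x.val = (v n) % N`, so for `k = i - k0`, `0 ≤ i < J0`: `k N + v n = x.val + i N` (a natural number `a`). As `(v n, N) = 1` and `N ≥ 2`, `a` is coprime to `N`
and `a ≠ 0`; `Rough (MM P N) a` iff no `p ∈ PN N (MM P N)` divides `a` (a prime `≤ M` which divides `a` does not divide `N`).
`pht B a = ∑_{f ∈ tp B} [mrk f ∣ a]` (`CA1.pht_eqm`). See also `CB0.PY_ge` (the same with an arbitrary subset of the window).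
-/

set_option autoImplicit false

open Finset

namespace Pool.Agent.Lib.TCF

open Pool.Agent.Lib.RG hiding RR sig Good
open Pool.Agent.Lib.RH

private theorem cb0u_pht_nonneg {r : ℕ} (B : Fin r → Finset ℕ) (m : ℕ) : 0 ≤ pht B m :=
  Finset.prod_nonneg fun _ _ => Nat.cast_nonneg _

private theorem cb0u_ph_nonneg (P : Prm) (N : ℕ) {r : ℕ} (B : Fin r → Finset ℕ) (m : ℕ) :
    0 ≤ ph P N B m := by
  unfold ph
  split_ifs
  · exact cb0u_pht_nonneg B m
  · exact le_refl _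

private theorem cb0u_rough {N M m : ℕ} (hc : m.Coprime N) :
    (∀ p ∈ PN N M, ¬ (p : ℤ) ∣ (m : ℤ)) ↔ (m.Coprime N ∧ Rough M m) := by
  constructor
  · intro h
    refine ⟨hc, fun p hp hpm => ?_⟩
    by_contra hlt
    have h1 : p ∈ PN N M := by
      unfold PN
      rw [mem_filter, mem_range]
      refine ⟨by omega, hp, fun hpN => ?_⟩
      have h2 : p ∣ Nat.gcd m N := Nat.dvd_gcd hpm hpN
      rw [hc] at h2
      exact hp.one_lt.ne' (Nat.dvd_one.mp h2)
    exact h p h1 (Int.natCast_dvd_natCast.mpr hpm)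
  · rintro ⟨_, h⟩ p hp hpm
    unfold PN at hp
    rw [mem_filter, mem_range] at hp
    have h1 := h p hp.2.1 (Int.natCast_dvd_natCast.mp hpm)
    omega

private theorem cb0u_pht_int {P : Prm} {N y0 r : ℕ} {B : Fin r → Finset ℕ} (hF : FamW P N y0 B)
    (m : ℕ) (z : ℤ) (hz : z = (m : ℤ)) :
    pht B m = ∑ f ∈ tp B, (if (mrk f : ℤ) ∣ z then (1 : ℝ) else 0) := by
  rw [pht_eqm hF m, hz]
  refine Finset.sum_congr rfl fun f _ => ?_
  by_cases h : mrk f ∣ m
  · rw [if_pos h, if_pos (Int.natCast_dvd_natCast.mpr h)]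
  · rw [if_neg h, if_neg (fun h1 => h (Int.natCast_dvd_natCast.mp h1))]

open Classical in
private theorem cb0u_ph {P : Prm} {N y0 r : ℕ} {B : Fin r → Finset ℕ} (hF : FamW P N y0 B)
    (m : ℕ) (hc : m.Coprime N) (z : ℤ) (hz : z = (m : ℤ)) :
    (if (∀ p ∈ PN N (MM P N), ¬ (p : ℤ) ∣ z) then
      ∑ f ∈ tp B, (if (mrk f : ℤ) ∣ z then (1 : ℝ) else 0) else 0) = ph P N B m := by
  have h1 := cb0u_rough (N := N) (M := MM P N) hc
  rw [← hz] at h1
  have h2 := cb0u_pht_int hF m z hz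
  unfold ph
  by_cases h : m.Coprime N ∧ Rough (MM P N) m
  · rw [if_pos h, if_pos (h1.mpr h), h2]
  · rw [if_neg h, if_neg (fun h3 => h (h1.mp h3))]

/-- the numbers `x.val + j N` of the class of `A` -/
private theorem cb0u_val {N A j : ℕ} [NeZero N] {k : ℤ} (hj : (j : ℤ) = k + ((A / N : ℕ) : ℤ)) :
    k * (N : ℤ) + (A : ℤ) = (((((A : ℕ) : ZMod N)).val + j * N : ℕ) : ℤ) := by
  rw [ZMod.val_natCast]
  have h1 : ((A % N + N * (A / N) : ℕ) : ℤ) = (A : ℤ) := by rw [Nat.mod_add_div]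
  push_cast at h1 ⊢
  push_cast at hj
  rw [hj]
  linarith

private theorem cb0u_copr {N A j : ℕ} [NeZero N] (hc : A.Coprime N) :
    ((((A : ℕ) : ZMod N)).val + j * N).Coprime N := by
  rw [ZMod.val_natCast]
  have h1 : (A % N + j * N).gcd N = (A % N).gcd N := Nat.gcd_add_mul_right_left _ _ _
  have h2 : (A % N).gcd N = A.gcd N := by
    rw [Nat.gcd_comm A N, Nat.gcd_rec N A]
  unfold Nat.Coprime
  rw [h1, h2]
  exact hc

open Classical in
private theorem cb0u_sw {P : Prm} {N : ℕ} [NeZero N] {y0 r : ℕ} {B : Fin r → Finset ℕ}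
    (hF : FamW P N y0 B) {v n A : ℕ} (hA : v * n = A) (hc : A.Coprime N) (W : Finset ℤ)
    (hW : ∀ k ∈ W, (0 : ℤ) ≤ k + ((A / N : ℕ) : ℤ)) :
    Sw B (MM P N) W N v n =
      ∑ j ∈ W.image (fun k => (k + ((A / N : ℕ) : ℤ)).toNat),
        ph P N B ((((A : ℕ) : ZMod N)).val + j * N) := by
  rw [Finset.sum_image]
  · unfold Sw
    refine Finset.sum_congr rfl fun k hk => ?_
    have h1 : (((k + ((A / N : ℕ) : ℤ)).toNat : ℕ) : ℤ) = k + ((A / N : ℕ) : ℤ) :=
      Int.toNat_of_nonneg (hW k hk)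
    have h2 := cb0u_val (N := N) (A := A) h1
    have h3 : k * (N : ℤ) + (v : ℤ) * (n : ℤ) = k * (N : ℤ) + (A : ℤ) := by
      rw [← hA]; push_cast; ring
    rw [← cb0u_ph hF _ (cb0u_copr hc) _ (h3.trans h2)]
  · intro k hk k' hk' h
    have h1 := Int.toNat_of_nonneg (hW k hk)
    have h2 := Int.toNat_of_nonneg (hW k' hk')
    simp only at h
    rw [h] at h1
    linarith

theorem PY_eq {P : Prm} {N : ℕ} [NeZero N] {D : Dat} (hN : 2 ≤ N) (hF : FamW P N D.y0 D.BY)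
    {v n : ℕ} (hc : (v * n).Coprime N) :
    PY P N D ((v * n : ℕ) : ZMod N) =
      Sw D.BY (MM P N) (Ico (-((v * n / N : ℕ) : ℤ)) (-((v * n / N : ℕ) : ℤ) + (D.J0 : ℕ))) N v n := by
  classical
  rw [cb0u_sw hF (v := v) (n := n) (A := v * n) rfl hc _ (fun k hk => by
    rw [mem_Ico] at hk
    omega)]
  unfold PY
  have h1 : (Ico (-((v * n / N : ℕ) : ℤ)) (-((v * n / N : ℕ) : ℤ) + (D.J0 : ℕ))).image
      (fun k => (k + ((v * n / N : ℕ) : ℤ)).toNat) = range D.J0 := by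
    ext j
    rw [mem_image, mem_range]
    constructor
    · rintro ⟨k, hk, rfl⟩
      rw [mem_Ico] at hk
      omega
    · intro hj
      refine ⟨(j : ℤ) - ((v * n / N : ℕ) : ℤ), ?_, ?_⟩
      · rw [mem_Ico]
        omega
      · omega
  rw [h1]

end Pool.Agent.Lib.TCF
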