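import Pool.Agent.Lib.MP_7b7e48_nt.TCF.CA6U
import Pool.Agent.Lib.MP_7b7e48_nt.TCF.CA8
import Pool.Agent.Lib.MP_7b7e48_nt.TCF.CB0
import Pool.Agent.Lib.MP_7b7e48_nt.TCF.CB0U

/-!
# Module CB2U (75 minutes): classes with too much `Y`-weight (twin of CB2)

PROOF. As `CB2`, with the upper bound `CA6U.core_upS`. `A = v`, the family `BY`, `CB0.floor_split`: on an interval `Ioc a' b'` with `v n / N = k0` the window is
`W = Ico (-k0) (-k0 + J0)`, `PY = Sw` (`CB0U.PY_eq`; `v n` is coprime to `N`). If `J2 N < v (a + 1) ≤ v n` then `k0 ≥ J2 > J0` and all `k ∈ W` are `< 0`; if `v = 1` and `o = none` then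
`e = 0` on the family (`CA8.sit_one`, last part), so `k = 0` is allowed. `|k| ≤ max(k0, J0) ≤ J1`, `2 J1 ≤ y0`. Error: with `CA8.sit_one` (`X = b' - a'`, `Err = 1`, `v ≤ N^(1 - kap/2)`) or
`CA8.sit_two` (`wt y0 o n ≤ rr c n`, `X = L (b' - a')`, `Err = N^(4/5)`, `v ≤ N^(2 kap)`; `b ≤ J1 N ≤ N^(21/20)`): the sum is
`≤ JJ²/(J0 ρ) L (b - a) + (J1 + 1) N^(kap/20) Err`, and the last term is `≤ JJ²/(J0 ρ) L N^(1 - kap/8)/v`, as `J0 ρ ≤ J0 ≤ J1 ≤ y0 ≤ N^(kap/1000)`, `L = 1` resp. `L ≥ N^(-1/200)`.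
-/

set_option autoImplicit false

open Finset

namespace Pool.Agent.Lib.TCF

open Pool.Agent.Lib.RG hiding RR sig Good
open Pool.Agent.Lib.RH

open Classical in
theorem cb2U (P : Prm) (hP : P.Ok) : ∃ N0 : ℕ, ∀ (N : ℕ) [NeZero N], N0 ≤ N → ∀ D : Dat,
    FamW P N D.y0 D.BY → JJ N ^ 4 ≤ D.y0 → MM P N ≤ D.y0 → (D.y0 : ℝ) ≤ (N : ℝ) ^ (P.kap / 1000) →
    (JJ N : ℝ) ^ 3 ≤ D.J0 * rho D.BY → D.J0 < D.J2 → D.J0 ≤ D.J1 → 2 * D.J1 ≤ D.y0 →
    ∀ (v : ℕ) (o : Option (ℕ → ℝ)) (L : ℝ), TM P N v o L → ∀ a b : ℕ, a ≤ b → v * b ≤ D.J1 * N →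
    ((v = 1 ∧ o = none) ∨ D.J2 * N < v * (a + 1)) →
    ∑ n ∈ (Ioc a b).filter (fun n => n.Coprime N ∧
      3 * (D.J0 * VM P N * rho D.BY) < PY P N D ((v * n : ℕ) : ZMod N)), wt D.y0 o n ≤
      (JJ N : ℝ) ^ 2 / (D.J0 * rho D.BY) * (L * len P N v a b) := by
  obtain ⟨N1, hcore⟩ := core_upS P hP
  obtain ⟨N2, htwo⟩ := sit_two P hP
  obtain ⟨N3, hnum⟩ := num P hP
  refine ⟨N1 + N2 + N3 + 2, fun N _ hN D hF s5 sM hy0N hjy s2 s3 s4 v o L hT a b hab hvb hcase => ?_⟩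
  have hnm := hnum N (by omega)
  have hN1 : (1 : ℝ) ≤ N := by exact_mod_cast (show 1 ≤ N by omega)
  have hN0 : (0 : ℝ) < N := by linarith
  have hK1 : 1 ≤ Real.log N := by
    have := hnm.K
    linarith
  have hk0 := hP.kap0
  have hk1 := hP.kap1
  have hJJr : (2 : ℝ) ≤ JJ N := by
    have h1 := hnm.J1
    have h2 : (Real.log N) ^ 1 ≤ (Real.log N) ^ 1000 := pow_le_pow_right₀ hK1 (by norm_num)
    have h3 := hnm.K
    rw [pow_one] at h2
    linarith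
  have hJJ : 2 ≤ JJ N := by exact_mod_cast hJJr
  have hMM : 1 ≤ MM P N := by
    unfold MM
    exact Nat.one_le_two_pow
  have s6 : JJ N ≤ D.y0 := (Nat.le_self_pow (by norm_num) _).trans s5
  have hJ4 : 0 < (JJ N : ℝ) ^ 3 := by positivity
  have hJr : 0 < D.J0 * rho D.BY := lt_of_lt_of_le hJ4 hjy
  have hrho : rho D.BY ≤ 1 := by
    unfold rho
    exact prod_le_one (fun c _ => sum_nonneg fun p _ => by positivity) fun c _ => hF.up c
  have hJ0p : 0 < D.J0 := by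
    rcases Nat.eq_zero_or_pos D.J0 with h | h
    · rw [h, Nat.cast_zero, zero_mul] at hJr
      exact absurd hJr (lt_irrefl 0)
    · exact h
  have hv1 := hT.v1
  have hvR : (1 : ℝ) ≤ v := by exact_mod_cast hv1
  have hv0 : (0 : ℝ) < v := by linarith
  have hL0 : 0 ≤ L := by
    rcases hT.ty with ⟨-, h, -⟩ | ⟨c, -, -, h, -⟩
    · rw [h]
      exact zero_le_one
    · exact h.1
  have hvle : (v : ℝ) ≤ (N : ℝ) ^ (2 : ℝ) := by
    rcases hT.ty with ⟨-, -, h⟩ | ⟨c, -, -, -, -, h⟩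
    · exact h.trans (Real.rpow_le_rpow_of_exponent_le hN1 (by linarith))
    · exact h.trans (Real.rpow_le_rpow_of_exponent_le hN1 (by linarith))
  have hbN : (b : ℝ) ≤ (N : ℝ) ^ ((21 : ℝ) / 20) := by
    have h1 : b ≤ D.y0 * N := by
      calc b ≤ v * b := Nat.le_mul_of_pos_left b hv1
        _ ≤ D.J1 * N := hvb
        _ ≤ D.y0 * N := Nat.mul_le_mul_right N (by omega)
    have h2 : (b : ℝ) ≤ D.y0 * N := by exact_mod_cast h1
    refine h2.trans ?_
    calc (D.y0 : ℝ) * N ≤ (N : ℝ) ^ (P.kap / 1000) * (N : ℝ) ^ (1 : ℝ) := by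
          rw [Real.rpow_one]
          gcongr
      _ = (N : ℝ) ^ (P.kap / 1000 + 1) := by rw [← Real.rpow_add hN0]
      _ ≤ _ := Real.rpow_le_rpow_of_exponent_le hN1 (by linarith)
  -- the additive error
  obtain ⟨Err, hErr0, hErr, hErrL⟩ : ∃ Err : ℝ, 0 ≤ Err ∧
      (∀ k0 a' b' : ℕ, a ≤ a' → a' < b' → b' ≤ b → (∀ n ∈ Ioc a' b', v * n / N = k0) →
        ∑ n ∈ (Ioc a' b').filter (fun n => 3 * (D.J0 * VM P N * rho D.BY) <
          Sw D.BY (MM P N) (Ico (-(k0 : ℤ)) (-(k0 : ℤ) + (D.J0 : ℕ))) N v n), wt D.y0 o n ≤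
        (JJ N : ℝ) ^ 2 / (D.J0 * rho D.BY) * (L * ((b' : ℝ) - a')) + (N : ℝ) ^ (P.kap / 20) * Err) ∧
      (D.y0 : ℝ) * (N : ℝ) ^ (P.kap / 20) * Err * D.y0 * v ≤ L * (N : ℝ) ^ (1 - P.kap / 8) := by
    have hwin : ∀ k0 a' b' : ℕ, a ≤ a' → a' < b' → b' ≤ b → (∀ n ∈ Ioc a' b', v * n / N = k0) →
        ∀ k ∈ Ico (-(k0 : ℤ)) (-(k0 : ℤ) + (D.J0 : ℕ)), 2 * |k| ≤ D.y0 ∧ (k ≠ 0 ∨ (v = 1 ∧ o = none)) := by
      intro k0 a' b' h1 h2 h3 h4 k hk
      rw [mem_Ico] at hk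
      have h5 := h4 b' (mem_Ioc.2 ⟨h2, le_rfl⟩)
      have h6 : k0 ≤ D.J1 := by
        rw [← h5]
        refine Nat.div_le_of_le_mul ?_
        calc v * b' ≤ v * b := Nat.mul_le_mul_left v h3
          _ ≤ D.J1 * N := hvb
          _ = N * D.J1 := mul_comm _ _
      constructor
      · have h7 : |k| ≤ D.J1 := by
          rw [abs_le]
          constructor
          · omega
          · omega
        omega
      · rcases hcase with h8 | h8
        · right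
          exact h8
        · left
          have h9 : D.J2 ≤ k0 := by
            rw [← h5]
            rw [Nat.le_div_iff_mul_le (by omega)]
            have h10 : v * (a + 1) ≤ v * b' := Nat.mul_le_mul_left v (by omega)
            omega
          omega
    rcases hT.ty with ⟨ho, hL1, hvk⟩ | ⟨c, ho, hRC, hLV, hLN, hvk⟩
    · refine ⟨1, zero_le_one, ?_, ?_⟩
      · intro k0 a' b' h1 h2 h3 h4
        obtain ⟨u, e, hS, -, -, he⟩ := sit_one P hF hv1 hT.vc hvle h2.le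
        have h5 := hcore N (by omega) D.y0 D.nY D.BY v u e (Ioc a' b') (fun _ => 1) ((b' : ℝ) - a') 1 hS hT.vr s5 sM hy0N
          (-(k0 : ℤ)) D.J0 (by
            linarith) (by
            intro k hk
            obtain ⟨h6, h7⟩ := hwin k0 a' b' h1 h2 h3 h4 k hk
            refine ⟨h6, ?_⟩
            rcases h7 with h7 | h7
            · exact Or.inl h7
            · exact Or.inr (he h7.1))
        rw [hL1, one_mul, ho]
        exact h5
      · rw [hL1, one_mul, mul_one]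
        calc (D.y0 : ℝ) * (N : ℝ) ^ (P.kap / 20) * D.y0 * v ≤ (N : ℝ) ^ (P.kap / 1000) * (N : ℝ) ^ (P.kap / 20) *
              (N : ℝ) ^ (P.kap / 1000) * (N : ℝ) ^ (1 - P.kap / 2) := by gcongr
          _ = (N : ℝ) ^ (P.kap / 1000 + P.kap / 20 + P.kap / 1000 + (1 - P.kap / 2)) := by
              rw [Real.rpow_add hN0, Real.rpow_add hN0, Real.rpow_add hN0]
          _ ≤ _ := Real.rpow_le_rpow_of_exponent_le hN1 (by linarith)
    · refine ⟨(N : ℝ) ^ ((4 : ℝ) / 5), by positivity, ?_, ?_⟩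
      · intro k0 a' b' h1 h2 h3 h4
        have hb' : (b' : ℝ) ≤ (N : ℝ) ^ ((21 : ℝ) / 20) := le_trans (by exact_mod_cast h3) hbN
        obtain ⟨u, e, hS⟩ := htwo N (by omega) c L hRC hLV D.y0 D.nY D.BY hF v hv1 hT.vc hvle a' b' h2.le hb'
        have h5 := hcore N (by omega) D.y0 D.nY D.BY v u e (Ioc a' b') (rr c) (L * ((b' : ℝ) - a'))
          ((N : ℝ) ^ ((4 : ℝ) / 5)) hS hT.vr s5 sM hy0N
          (-(k0 : ℤ)) D.J0 (by
            linarith) (by
            intro k hk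
            obtain ⟨h6, h7⟩ := hwin k0 a' b' h1 h2 h3 h4 k hk
            refine ⟨h6, ?_⟩
            rcases h7 with h7 | h7
            · exact Or.inl h7
            · rw [ho] at h7
              exact absurd h7.2 (by simp))
        refine le_trans (sum_le_sum fun n _ => ?_) h5
        rw [ho]
        unfold wt
        have h6 := rr_nonneg N c hRC n
        simp only
        split_ifs
        · exact le_rfl
        · exact h6
      · have hJN : (JJ N : ℝ) ≤ (N : ℝ) ^ (P.kap / 1000) := by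
          refine le_trans ?_ hy0N
          exact_mod_cast s6
        calc (D.y0 : ℝ) * (N : ℝ) ^ (P.kap / 20) * (N : ℝ) ^ ((4 : ℝ) / 5) * D.y0 * v ≤
              (N : ℝ) ^ (P.kap / 1000) * (N : ℝ) ^ (P.kap / 20) * (N : ℝ) ^ ((4 : ℝ) / 5) *
              (N : ℝ) ^ (P.kap / 1000) * (N : ℝ) ^ (2 * P.kap) := by gcongr
          _ = (N : ℝ) ^ (P.kap / 1000 + P.kap / 20 + 4 / 5 + P.kap / 1000 + 2 * P.kap) := by
              rw [Real.rpow_add hN0, Real.rpow_add hN0, Real.rpow_add hN0, Real.rpow_add hN0]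
          _ ≤ (N : ℝ) ^ (-(1 / 200) + (1 - P.kap / 8) : ℝ) :=
              Real.rpow_le_rpow_of_exponent_le hN1 (by linarith)
          _ = (N : ℝ) ^ (-(1 / 200) : ℝ) * (N : ℝ) ^ (1 - P.kap / 8) := by rw [Real.rpow_add hN0]
          _ ≤ _ := by gcongr
  have hwt0 : ∀ n, 0 ≤ wt D.y0 o n := by
    intro n
    rcases hT.ty with ⟨ho, -⟩ | ⟨c, ho, hRC, -⟩
    · rw [ho]
      unfold wt
      exact zero_le_one
    · rw [ho]
      unfold wt
      have h6 := rr_nonneg N c hRC n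
      simp only
      split_ifs
      · exact h6
      · exact le_rfl
  obtain ⟨g, hg⟩ : ∃ g : ℕ → ℝ, g = fun n => if (n.Coprime N ∧
      3 * (D.J0 * VM P N * rho D.BY) < PY P N D ((v * n : ℕ) : ZMod N)) then wt D.y0 o n else 0 := ⟨_, rfl⟩
  have hfl := floor_split N v a b (by omega) hab g ((JJ N : ℝ) ^ 2 / (D.J0 * rho D.BY) * L)
    ((N : ℝ) ^ (P.kap / 20) * Err) (by positivity) (by
    intro k0 a' b' h1 h2 h3 h4
    rcases Nat.eq_or_lt_of_le h2 with h5 | h5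
    · rw [h5, Ioc_self, sum_empty, sub_self, mul_zero, zero_add]
      positivity
    · have h6 := hErr k0 a' b' h1 h5 h3 h4
      have h7 : (JJ N : ℝ) ^ 2 / (D.J0 * rho D.BY) * L * ((b' : ℝ) - a') =
          (JJ N : ℝ) ^ 2 / (D.J0 * rho D.BY) * (L * ((b' : ℝ) - a')) := by ring
      rw [h7]
      refine le_trans ?_ h6
      rw [hg, sum_filter]
      refine sum_le_sum fun n hn => ?_
      have h8 := h4 n hn
      by_cases h9 : n.Coprime N ∧ 3 * (D.J0 * VM P N * rho D.BY) < PY P N D ((v * n : ℕ) : ZMod N)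
      · rw [if_pos h9, if_pos]
        have h10 : (v * n).Coprime N := Nat.Coprime.mul_left hT.vc h9.1
        have h11 := PY_eq (P := P) (D := D) (by omega) hF h10
        rw [h8] at h11
        rw [h11] at h9
        exact h9.2
      · rw [if_neg h9]
        split_ifs
        · exact hwt0 n
        · exact le_rfl)
  rw [sum_filter]
  have hgs : ∑ n ∈ Ioc a b, g n = ∑ n ∈ Ioc a b, if (n.Coprime N ∧
      3 * (D.J0 * VM P N * rho D.BY) < PY P N D ((v * n : ℕ) : ZMod N)) then wt D.y0 o n else 0 := by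
    rw [hg]
  rw [← hgs]
  refine hfl.trans ?_
  have hJ0 : (0 : ℝ) < JJ N := by linarith
  unfold len
  have e1 : (JJ N : ℝ) ^ 2 / (D.J0 * rho D.BY) * (L * ((b : ℝ) - a + (N : ℝ) ^ (1 - P.kap / 8) / v)) =
      (JJ N : ℝ) ^ 2 / (D.J0 * rho D.BY) * L * ((b : ℝ) - a) +
        (JJ N : ℝ) ^ 2 * (L * (N : ℝ) ^ (1 - P.kap / 8)) / (D.J0 * rho D.BY * v) := by
    field_simp
  rw [e1]
  refine add_le_add le_rfl ?_
  rw [le_div_iff₀ (by positivity)]
  have h1 : ((v * b / N : ℕ) : ℝ) + 1 ≤ D.y0 := by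
    have h2 : v * b / N ≤ D.J1 := by
      refine Nat.div_le_of_le_mul ?_
      rw [mul_comm N]
      exact hvb
    have h3 : v * b / N + 1 ≤ D.y0 := by omega
    exact_mod_cast h3
  have h4 : (D.J0 : ℝ) * rho D.BY ≤ D.y0 := by
    have h5 : (D.J0 : ℝ) ≤ D.y0 := by exact_mod_cast (show D.J0 ≤ D.y0 by omega)
    calc (D.J0 : ℝ) * rho D.BY ≤ D.J0 * 1 := by gcongr
      _ ≤ _ := by rw [mul_one]; exact h5
  have h6 : 1 ≤ (JJ N : ℝ) ^ 2 := by nlinarith
  have h7 : 0 ≤ L * (N : ℝ) ^ (1 - P.kap / 8) := by positivity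
  calc (((v * b / N : ℕ) : ℝ) + 1) * ((N : ℝ) ^ (P.kap / 20) * Err) * (D.J0 * rho D.BY * v) ≤
        D.y0 * ((N : ℝ) ^ (P.kap / 20) * Err) * (D.y0 * v) := by gcongr
    _ = (D.y0 : ℝ) * (N : ℝ) ^ (P.kap / 20) * Err * D.y0 * v := by ring
    _ ≤ L * (N : ℝ) ^ (1 - P.kap / 8) := hErrL
    _ ≤ (JJ N : ℝ) ^ 2 * (L * (N : ℝ) ^ (1 - P.kap / 8)) := le_mul_of_one_le_left h7 h6

end Pool.Agent.Lib.TCF
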