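import Pool.Agent.Lib.MP_7b7e48_nt.TCF.Def

/-!
# Module Bas (60 minutes): basic facts on tuples and weights

PROOFS. `tup_inj`: the sets `B c` are pairwise disjoint sets of primes; if `∏ m c = ∏ m' c` then the prime `m c` divides `∏ m' c`, so
`m c = m' c'` for some `c'`, and `c' = c` by disjointness. `tup_dvd`: the `m c` are distinct primes, hence pairwise coprime
(`Finset.prod_primes_dvd` or `Fintype.prod_dvd_of_coprime`). `pht_eq`: `Fintype.card_piFinset` for the sets `(B c).filter (p ∣ a)`, the image under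
the product is `(TUP B).filter (t ∣ a)`, injective by `tup_inj`. `tup_sum`: `Finset.prod_univ_sum` and `tup_inj`.
`pht_low`: a prime `p > y0` divides `l * b` iff it divides `b`, if `l = 1` or `l` is a prime `≤ y0`.
`nl_le`: `NL` counts pairs `(t, t')` with `t ∣ X`, `t' ∣ Y`, at most `pht X * pht Y` of them. `nl_one`: unfold.
-/

set_option autoImplicit false

open Finset

namespace Pool.Agent.Lib.TCF

open Pool.Agent.Lib.RG hiding RR sig Good
open Pool.Agent.Lib.RH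
open Pool.Agent.Lib.MP_45349e_nt.LS (lam)

variable {P : Prm} {N y0 n : ℕ} {B : Fin n → Finset ℕ}

theorem pht_nonneg (B : Fin n → Finset ℕ) (a : ℕ) : 0 ≤ pht B a := by
  unfold pht
  exact prod_nonneg fun _ _ => Nat.cast_nonneg _

theorem ph_nonneg (P : Prm) (N : ℕ) (B : Fin n → Finset ℕ) (a : ℕ) : 0 ≤ ph P N B a := by
  unfold ph
  split_ifs
  · exact pht_nonneg B a
  · exact le_rfl

theorem ph_le_pht (P : Prm) (N : ℕ) (B : Fin n → Finset ℕ) (a : ℕ) : ph P N B a ≤ pht B a := by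
  unfold ph
  split_ifs
  · exact le_rfl
  · exact pht_nonneg B a

private theorem Bas_mem (hB : FamOk P N y0 B) {m : Fin n → ℕ} (hm : m ∈ Fintype.piFinset B) {p : ℕ} (hp : p.Prime)
    (hd : p ∣ ∏ c, m c) : ∃ c, p = m c := by
  obtain ⟨c, -, hc⟩ := (Prime.dvd_finsetProd_iff hp.prime _).1 hd
  exact ⟨c, (Nat.prime_dvd_prime_iff_eq hp (hB.pr c _ (Fintype.mem_piFinset.1 hm c)).1).1 hc⟩

private theorem Bas_eq (hB : FamOk P N y0 B) {c c' : Fin n} {p : ℕ} (h1 : p ∈ B c) (h2 : p ∈ B c') : c = c' := by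
  by_contra h
  exact (Finset.disjoint_left.1 (hB.disj c c' h) h1) h2

private theorem Bas_minj (hB : FamOk P N y0 B) {m : Fin n → ℕ} (hm : m ∈ Fintype.piFinset B) : Function.Injective m := by
  intro c c' h
  have h1 := Fintype.mem_piFinset.1 hm c
  rw [h] at h1
  exact Bas_eq hB h1 (Fintype.mem_piFinset.1 hm c')

private theorem Bas_img (hB : FamOk P N y0 B) {m : Fin n → ℕ} (hm : m ∈ Fintype.piFinset B) :
    ∏ p ∈ univ.image m, p = ∏ c, m c := by
  rw [prod_image (fun a _ b _ h => Bas_minj hB hm h)]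

theorem tup_inj (hB : FamOk P N y0 B) : Set.InjOn (fun m : Fin n → ℕ => ∏ c, m c)
    (Fintype.piFinset B : Set (Fin n → ℕ)) := by
  intro m hm m' hm' h
  rw [Finset.mem_coe] at hm hm'
  have h' : ∏ c, m c = ∏ c, m' c := h
  funext c
  have h1 := Fintype.mem_piFinset.1 hm c
  obtain ⟨c', hc'⟩ := Bas_mem hB hm' (hB.pr c _ h1).1 (by
    rw [← h']
    exact dvd_prod_of_mem m (mem_univ c))
  have h2 := Fintype.mem_piFinset.1 hm' c'
  rw [← hc'] at h2
  rw [hc', Bas_eq hB h1 h2]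

theorem tup_dvd (hB : FamOk P N y0 B) {m : Fin n → ℕ} (hm : m ∈ Fintype.piFinset B) (a : ℕ) :
    (∏ c, m c) ∣ a ↔ ∀ c, m c ∣ a := by
  constructor
  · intro h c
    exact (dvd_prod_of_mem m (mem_univ c)).trans h
  · intro h
    rw [← Bas_img hB hm]
    refine Finset.prod_primes_dvd a (fun p hp => ?_) (fun p hp => ?_)
    · obtain ⟨c, -, rfl⟩ := mem_image.1 hp
      exact (hB.pr c _ (Fintype.mem_piFinset.1 hm c)).1.prime
    · obtain ⟨c, -, rfl⟩ := mem_image.1 hp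
      exact h c

theorem pht_eq (hB : FamOk P N y0 B) (a : ℕ) :
    pht B a = (((TUP B).filter fun t => t ∣ a).card : ℝ) := by
  have h1 : (TUP B).filter (fun t => t ∣ a) =
      (Fintype.piFinset (fun c => (B c).filter fun p => p ∣ a)).image fun m => ∏ c, m c := by
    ext t
    rw [mem_filter, TUP, mem_image, mem_image]
    constructor
    · rintro ⟨⟨m, hm, rfl⟩, h⟩
      refine ⟨m, ?_, rfl⟩
      rw [Fintype.mem_piFinset]
      intro c
      rw [mem_filter]
      exact ⟨Fintype.mem_piFinset.1 hm c, (tup_dvd hB hm a).1 h c⟩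
    · rintro ⟨m, hm, rfl⟩
      rw [Fintype.mem_piFinset] at hm
      have hm' : m ∈ Fintype.piFinset B := by
        rw [Fintype.mem_piFinset]
        exact fun c => (mem_filter.1 (hm c)).1
      exact ⟨⟨m, hm', rfl⟩, (tup_dvd hB hm' a).2 fun c => (mem_filter.1 (hm c)).2⟩
  rw [h1, card_image_of_injOn, Fintype.card_piFinset]
  · unfold pht
    push_cast
    rfl
  · refine (tup_inj hB).mono ?_
    intro m hm
    rw [Finset.mem_coe, Fintype.mem_piFinset] at hm ⊢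
    exact fun c => (mem_filter.1 (hm c)).1

theorem ph_eq (hB : FamOk P N y0 B) {a : ℕ} (ha : Rgh1 P N a) :
    ph P N B a = (((TUP B).filter fun t => t ∣ a).card : ℝ) := by
  have ha' : a.Coprime N ∧ Rough (MM P N) a := ha
  unfold ph
  rw [if_pos ha', pht_eq hB]

theorem ph_zero {a : ℕ} (ha : ¬ Rgh1 P N a) : ph P N B a = 0 := by
  have ha' : ¬ (a.Coprime N ∧ Rough (MM P N) a) := ha
  unfold ph
  rw [if_neg ha']

theorem tup_facts (hB : FamOk P N y0 B) {t : ℕ} (ht : t ∈ TUP B) :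
    1 < t ∧ y0 < t ∧ Squarefree t ∧ t.Coprime N ∧ Rough y0 t ∧
      (∀ p : ℕ, p.Prime → p ∣ t → ∃ c, p ∈ B c) ∧ (t : ℝ) ≤ (N : ℝ) ^ (P.kap / 100) := by
  have ht' := ht
  rw [TUP, mem_image] at ht'
  obtain ⟨m, hm, rfl⟩ := ht'
  have hmem : ∀ c, m c ∈ B c := Fintype.mem_piFinset.1 hm
  have hpr : ∀ c, (m c).Prime := fun c => (hB.pr c _ (hmem c)).1
  have hpos : 0 < ∏ c, m c := prod_pos fun c _ => (hpr c).pos
  have hle : m ⟨0, hB.pos⟩ ≤ ∏ c, m c := Nat.le_of_dvd hpos (dvd_prod_of_mem m (mem_univ _))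
  have hdv : ∀ p : ℕ, p.Prime → p ∣ ∏ c, m c → ∃ c, p ∈ B c := by
    intro p hp hd
    obtain ⟨c, hc⟩ := Bas_mem hB hm hp hd
    exact ⟨c, hc ▸ hmem c⟩
  refine ⟨(hpr _).one_lt.trans_le hle, ((hB.pr _ _ (hmem _)).2.2).trans_le hle, ?_, ?_, ?_, hdv, hB.tup _ ht⟩
  · rw [Nat.squarefree_iff_prime_squarefree]
    intro p hp hpp
    obtain ⟨c, hc⟩ := Bas_mem hB hm hp ((Dvd.intro _ rfl).trans hpp)
    rw [← mul_prod_erase univ m (mem_univ c), ← hc] at hpp
    have h1 : p ∣ ∏ c' ∈ univ.erase c, m c' := Nat.dvd_of_mul_dvd_mul_left hp.pos hpp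
    obtain ⟨c', hc', hd⟩ := (Prime.dvd_finsetProd_iff hp.prime _).1 h1
    have h2 : p = m c' := (Nat.prime_dvd_prime_iff_eq hp (hpr c')).1 hd
    have h3 : c' = c := Bas_minj hB hm (h2.symm.trans hc)
    rw [mem_erase] at hc'
    exact hc'.1 h3
  · refine Nat.Coprime.prod_left fun c _ => ?_
    exact (Nat.Prime.coprime_iff_not_dvd (hpr c)).2 (hB.pr _ _ (hmem c)).2.1
  · intro p hp hd
    obtain ⟨c, hc⟩ := hdv p hp hd
    exact (hB.pr _ _ hc).2.2

theorem tup_sum (hB : FamOk P N y0 B) : ∑ t ∈ TUP B, 1 / (t : ℝ) = rho B := by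
  unfold TUP rho
  rw [sum_image (fun a ha b hb h => tup_inj hB ha hb h), Finset.prod_univ_sum]
  refine sum_congr rfl fun m _ => ?_
  push_cast
  rw [one_div, ← prod_inv_distrib]
  exact prod_congr rfl fun c _ => (one_div _).symm

theorem rho_pos (hB : FamOk P N y0 B) (hK : 0 < Real.log N) : 0 < rho B := by
  unfold rho
  refine prod_pos fun c _ => lt_of_lt_of_le ?_ (hB.lo c)
  positivity

theorem rho_le_one (hB : FamOk P N y0 B) : rho B ≤ 1 := by
  unfold rho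
  exact prod_le_one (fun c _ => sum_nonneg fun p _ => by positivity) fun c _ => hB.up c

/-- monotone in the number -/
theorem pht_mono (B : Fin n → Finset ℕ) {a b : ℕ} (h : a ∣ b) : pht B a ≤ pht B b := by
  unfold pht
  refine prod_le_prod (fun _ _ => Nat.cast_nonneg _) fun c _ => ?_
  rw [Nat.cast_le]
  refine card_le_card fun p hp => ?_
  rw [mem_filter] at hp ⊢
  exact ⟨hp.1, hp.2.trans h⟩

/-- monotone in the family -/
theorem pht_mono_fam {B B' : Fin n → Finset ℕ} (h : ∀ c, B' c ⊆ B c) (a : ℕ) : pht B' a ≤ pht B a := by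
  unfold pht
  refine prod_le_prod (fun _ _ => Nat.cast_nonneg _) fun c _ => ?_
  rw [Nat.cast_le]
  refine card_le_card fun p hp => ?_
  rw [mem_filter] at hp ⊢
  exact ⟨h c hp.1, hp.2⟩

theorem ph_mono_fam {B B' : Fin n → Finset ℕ} (h : ∀ c, B' c ⊆ B c) (a : ℕ) : ph P N B' a ≤ ph P N B a := by
  unfold ph
  split_ifs
  · exact pht_mono_fam h a
  · exact le_rfl

theorem tup_mono {B B' : Fin n → Finset ℕ} (h : ∀ c, B' c ⊆ B c) : TUP B' ⊆ TUP B :=
  image_subset_image (Fintype.piFinset_subset _ _ h)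

theorem pht_low (hB : FamOk P N y0 B) {l b : ℕ} (hl : l = 1 ∨ (l.Prime ∧ l ≤ y0)) :
    pht B (l * b) = pht B b := by
  rcases hl with rfl | ⟨h1, h2⟩
  · rw [one_mul]
  · unfold pht
    refine prod_congr rfl fun c _ => ?_
    congr 2
    refine filter_congr fun p hp => ?_
    obtain ⟨a1, a2, a3⟩ := hB.pr c p hp
    rw [a1.dvd_mul]
    constructor
    · rintro (h | h)
      · have := (Nat.prime_dvd_prime_iff_eq a1 h1).1 h
        omega
      · exact h
    · exact fun h => Or.inr h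

/-- the number of choices is an integer: if it is positive it is at least `1` -/
theorem one_le_pht (B : Fin n → Finset ℕ) {a : ℕ} (h : 0 < pht B a) : 1 ≤ pht B a := by
  have e : pht B a = ((∏ c, ((B c).filter fun p => p ∣ a).card : ℕ) : ℝ) := by
    unfold pht
    push_cast
    rfl
  rw [e] at h ⊢
  rw [Nat.cast_pos] at h
  rw [Nat.one_le_cast]
  exact h

section
variable {D : Dat} {Lk : ℕ → ℕ → ℕ → ℕ → Prop} {Bd : ℕ → ℕ → Prop}

theorem nl_nonneg (P : Prm) (N : ℕ) (D : Dat) (Lk : ℕ → ℕ → ℕ → ℕ → Prop) (Bd : ℕ → ℕ → Prop)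
    (l X Y : ℕ) : 0 ≤ NL P N D Lk Bd l X Y := by
  unfold NL
  split_ifs
  · exact sum_nonneg fun _ _ => Nat.cast_nonneg _
  · exact le_rfl

theorem nlt_nonneg (P : Prm) (N : ℕ) (D : Dat) (Lk : ℕ → ℕ → ℕ → ℕ → Prop) (Bd : ℕ → ℕ → Prop)
    (X t Y : ℕ) : 0 ≤ NLt P N D Lk Bd X t Y := by
  unfold NLt
  split_ifs
  · exact Nat.cast_nonneg _
  · exact le_rfl

theorem nl_le (hD : D.Ok P N) (l X Y : ℕ) :
    NL P N D Lk Bd l X Y ≤ ph P N D.BX X * ph P N D.BY Y := by
  classical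
  unfold NL
  split_ifs with h
  · rw [ph_eq hD.fx h.1, ph_eq hD.fy h.2, ← nsmul_eq_mul]
    refine sum_le_card_nsmul _ _ _ fun t _ => ?_
    rw [Nat.cast_le]
    refine card_le_card fun t' ht' => ?_
    rw [mem_filter] at ht' ⊢
    exact ⟨ht'.1, ht'.2.1⟩
  · exact mul_nonneg (ph_nonneg _ _ _ _) (ph_nonneg _ _ _ _)

theorem nlt_le (hD : D.Ok P N) (X t Y : ℕ) : NLt P N D Lk Bd X t Y ≤ ph P N D.BY Y := by
  classical
  unfold NLt
  split_ifs with h
  · rw [ph_eq hD.fy h, Nat.cast_le]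
    refine card_le_card fun t' ht' => ?_
    rw [mem_filter] at ht' ⊢
    exact ⟨ht'.1, ht'.2.1⟩
  · exact ph_nonneg _ _ _ _

theorem nl_one {X : ℕ} (hX : Rgh1 P N X) (Y : ℕ) : NL P N D Lk Bd 1 X Y =
    ∑ t ∈ (TUP D.BX).filter (fun t => t ∣ X), NLt P N D Lk Bd X t Y := by
  unfold NL NLt
  by_cases hY : Rgh1 P N Y
  · rw [if_pos ⟨hX, hY⟩]
    refine sum_congr rfl fun t _ => ?_
    rw [if_pos hY, one_mul]
  · rw [if_neg fun h => hY h.2]
    rw [sum_congr rfl (fun t _ => if_neg hY), sum_const_zero]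

theorem uu_nonneg [NeZero N] (l : ℕ) (x : ZMod N) : 0 ≤ UU P N D Lk Bd l x :=
  sum_nonneg fun _ _ => sum_nonneg fun _ _ => nl_nonneg _ _ _ _ _ _ _ _

theorem uur_nonneg (l b : ℕ) : 0 ≤ UUr P N D Lk Bd l b := by
  unfold UUr
  refine sum_nonneg fun _ _ => sum_nonneg fun _ _ => ?_
  split_ifs
  · exact le_rfl
  · exact nl_nonneg _ _ _ _ _ _ _ _

theorem px_nonneg (x : ZMod N) : 0 ≤ PX P N D x := sum_nonneg fun _ _ => ph_nonneg _ _ _ _

theorem py_nonneg (x : ZMod N) : 0 ≤ PY P N D x := sum_nonneg fun _ _ => ph_nonneg _ _ _ _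

theorem px_le_pt (x : ZMod N) : PX P N D x ≤ PT N D x := sum_le_sum fun _ _ => ph_le_pht _ _ _ _

theorem bb_nonneg (t : ℕ) (x : ZMod N) : 0 ≤ BB P N D Bd t x := by
  unfold BB
  refine sum_nonneg fun _ _ => ?_
  split_ifs
  · exact Nat.cast_nonneg _
  · exact le_rfl

end

end Pool.Agent.Lib.TCF
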