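import Pool.Agent.Lib.MP_7b7e48_nt.TCF.Bas
import Pool.Agent.Lib.MP_7b7e48_nt.RG.BAS
import Pool.Agent.Lib.MP_7b7e48_nt.RG.STR0
import Pool.Agent.Lib.MP_7b7e48_nt.RG.A3

/-!
# Module Siz (60 minutes): sizes

Everything from `Dat.Ok`, `NumX`, `Num`; `K = log N`. `xy_lt`: `l ≤ 4 MM ^ 2`, the `Y`-number is `< J0 N`, so
`JJ * (l * Y) < 4 JJ MM ^ 2 J0 N ≤ J2 N / 2 ≤ X`. `mul_cast`: for `b = l n` the representative of the class `l b` is `l n - (l n / N) N` (`ZMod.val_natCast`, `Nat.div_add_mod`).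
-/

set_option autoImplicit false

open Finset

namespace Pool.Agent.Lib.TCF

open Pool.Agent.Lib.RG hiding RR sig Good
open Pool.Agent.Lib.RH
open Pool.Agent.Lib.MP_45349e_nt.LS (lam)

variable {P : Prm} {N : ℕ} {D : Dat}

theorem hK (hn : NumX P N) : (10 : ℝ) ^ 9 ≤ Real.log N := hn.num.K

theorem N_two (hn : NumX P N) : 2 ≤ N := N_pos hn.num

private theorem Siz_K1 (hn : NumX P N) : (1 : ℝ) ≤ Real.log N := le_trans (by norm_num) hn.num.K

private theorem Siz_Npos (hn : NumX P N) : 2 ≤ N := N_pos hn.num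

private theorem Siz_jj2 (hn : NumX P N) : 2 ≤ JJ N := by
  have h1 : (2 : ℝ) ≤ JJ N := by
    calc (2 : ℝ) ≤ (Real.log N) ^ 1 := by
          rw [pow_one]
          exact le_trans (by norm_num) hn.num.K
      _ ≤ (Real.log N) ^ 1000 := pow_le_pow_right₀ (Siz_K1 hn) (by norm_num)
      _ ≤ JJ N := hn.num.J1
  exact_mod_cast h1

theorem jj_one (hn : NumX P N) : 1 ≤ JJ N := (Siz_jj2 hn).trans' (by norm_num)

theorem jj_K (hn : NumX P N) : (Real.log N) ^ 1000 ≤ JJ N := hn.num.J1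

theorem mm_one (P : Prm) (N : ℕ) : 1 ≤ MM P N := Nat.one_le_two_pow

theorem j2_pos (hn : NumX P N) (hD : D.Ok P N) : 1 ≤ D.J2 := by
  refine le_trans ?_ hD.j02
  have h1 := jj_one hn
  have h2 : 1 ≤ MM P N ^ 2 := Nat.one_le_pow _ _ (mm_one P N)
  have h3 := hD.j0
  exact Nat.one_le_iff_ne_zero.2 (by positivity)

theorem j2_lt (hn : NumX P N) (hD : D.Ok P N) : D.J2 < D.J1 := by
  have h1 := Siz_jj2 hn
  have h2 := j2_pos hn hD
  have h3 := hD.j21
  nlinarith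

theorem j1_pos (hn : NumX P N) (hD : D.Ok P N) : 1 ≤ D.J1 := by
  have h1 := j2_lt hn hD
  omega

theorem j0_le (hn : NumX P N) (hD : D.Ok P N) : 8 * MM P N ^ 2 * D.J0 ≤ D.J2 := by
  refine le_trans ?_ hD.j02
  have h1 := jj_one hn
  calc 8 * MM P N ^ 2 * D.J0 = 8 * 1 * MM P N ^ 2 * D.J0 := by ring
    _ ≤ 8 * JJ N * MM P N ^ 2 * D.J0 := by gcongr

theorem y0_MM (hn : NumX P N) (hD : D.Ok P N) : 16 * MM P N ^ 4 ≤ D.y0 := by
  refine le_trans ?_ hD.y1
  have h1 := Siz_jj2 hn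
  have h2 := j1_pos hn hD
  calc 16 * MM P N ^ 4 = 2 ^ 4 * MM P N ^ 4 * 1 := by ring
    _ ≤ JJ N ^ 4 * MM P N ^ 4 * D.J1 := by gcongr

theorem y0_J1 (hn : NumX P N) (hD : D.Ok P N) : 2 * D.J1 ≤ D.y0 := by
  refine le_trans ?_ hD.y1
  have h1 := Siz_jj2 hn
  have h2 := mm_one P N
  calc 2 * D.J1 ≤ 2 ^ 4 * 1 ^ 4 * D.J1 := by
        gcongr
        norm_num
    _ ≤ JJ N ^ 4 * MM P N ^ 4 * D.J1 := by gcongr

theorem y0_JJ (hn : NumX P N) (hD : D.Ok P N) : JJ N ^ 4 ≤ D.y0 := by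
  refine le_trans ?_ hD.y1
  have h1 := j1_pos hn hD
  have h2 := mm_one P N
  calc JJ N ^ 4 = JJ N ^ 4 * 1 ^ 4 * 1 := by ring
    _ ≤ JJ N ^ 4 * MM P N ^ 4 * D.J1 := by gcongr

theorem y0_lt (hn : NumX P N) (hD : D.Ok P N) (hP : P.Ok) : D.y0 < N := by
  have hN : (1 : ℝ) < N := by
    have := Siz_Npos hn
    exact_mod_cast (show 1 < N by omega)
  have h1 : (D.y0 : ℝ) < N := by
    calc (D.y0 : ℝ) ≤ (N : ℝ) ^ (P.kap / 1000) := hD.y2
      _ < (N : ℝ) ^ (1 : ℝ) := by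
          apply Real.rpow_lt_rpow_of_exponent_lt hN
          have := hP.kap1
          linarith
      _ = N := Real.rpow_one _
  exact_mod_cast h1

/-- `J1 N ≤ N ^ 2` -/
theorem j1_N (hn : NumX P N) (hD : D.Ok P N) (hP : P.Ok) : D.J1 * N ≤ N ^ 2 := by
  have h1 := y0_J1 hn hD
  have h2 := y0_lt hn hD hP
  rw [sq]
  exact Nat.mul_le_mul_right N (by omega)

theorem j1_kap (hn : NumX P N) (hD : D.Ok P N) (hP : P.Ok) :
    (JJ N : ℝ) ^ 4 * (MM P N : ℝ) ^ 4 * D.J1 ≤ (N : ℝ) ^ (P.kap / 1000) := by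
  refine le_trans ?_ hD.y2
  exact_mod_cast hD.y1

theorem vm_pos (hn : NumX P N) : 0 < VM P N := by
  refine lt_of_lt_of_le ?_ hn.vm
  have := Siz_K1 hn
  positivity

theorem vm_le (P : Prm) (N : ℕ) : VM P N ≤ 1 := by
  unfold VM
  refine prod_le_one (fun p hp => ?_) (fun p hp => ?_)
  · unfold PN at hp
    rw [mem_filter] at hp
    have h1 : (1 : ℝ) ≤ p := by exact_mod_cast hp.2.1.one_lt.le
    have h2 : 1 / (p : ℝ) ≤ 1 := by
      rw [div_le_one (by linarith)]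
      exact h1
    linarith
  · have : (0 : ℝ) ≤ 1 / (p : ℝ) := by positivity
    linarith

/-- multipliers -/
theorem mul_facts (hn : NumX P N) {l : ℕ} (hl : Mul P N l) :
    1 ≤ l ∧ l ≤ 4 * MM P N ^ 2 ∧ l.Coprime N ∧ Rough (MM P N) l ∧ (lam l = 1 ∨ lam l = -1) := by
  rcases hl with rfl | hl
  · have h2 : 1 ≤ MM P N ^ 2 := Nat.one_le_pow _ _ (mm_one P N)
    exact ⟨le_rfl, by omega, Nat.coprime_one_left N, rough_one, lam_pm 1⟩
  · obtain ⟨h1, h2, h3, h4⟩ := mem_PZ.mp hl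
    exact ⟨h3.one_lt.le, h2, (Nat.Prime.coprime_iff_not_dvd h3).mpr h4, rough_prime h3 h1, lam_pm l⟩

theorem mul_low (hn : NumX P N) (hD : D.Ok P N) {l : ℕ} (hl : Mul P N l) :
    l = 1 ∨ (l.Prime ∧ l ≤ D.y0) := by
  rcases hl with hl | hl
  · exact Or.inl hl
  · obtain ⟨h1, h2, h3, h4⟩ := mem_PZ.mp hl
    refine Or.inr ⟨h3, h2.trans ((?_ : 4 * MM P N ^ 2 ≤ 16 * MM P N ^ 4).trans (y0_MM hn hD))⟩
    have h5 : MM P N ^ 2 ≤ MM P N ^ 4 := Nat.pow_le_pow_right (mm_one P N) (by norm_num)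
    omega

theorem lam_mul_Mul (hn : NumX P N) {l : ℕ} (hl : Mul P N l) {a : ℕ} (ha : 0 < a) :
    lam (l * a) = lam l * lam a :=
  Pool.Agent.Lib.MP_45349e_nt.LS.lam_mul l a (by have := (mul_facts hn hl).1; omega) ha.ne'

theorem lam_PZ {l : ℕ} (hl : l ∈ PZ N (MM P N)) : lam l = -1 :=
  Pool.Agent.Lib.MP_45349e_nt.LS.lam_prime l (mem_PZ.mp hl).2.2.1

/-- `X`-numbers are much larger than `l` times `Y`-numbers -/
theorem xy_lt [NeZero N] (hn : NumX P N) (hD : D.Ok P N) {l : ℕ} (hl : Mul P N l) (x y : ZMod N) {j i : ℕ}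
    (hj : D.J2 ≤ j) (hi : i < D.J0) : JJ N * (l * (y.val + i * N)) < x.val + j * N := by
  have h1 : y.val + i * N < D.J0 * N := by
    have a1 : y.val < N := ZMod.val_lt y
    have a2 : (i + 1) * N ≤ D.J0 * N := Nat.mul_le_mul_right N hi
    have a3 : (i + 1) * N = i * N + N := by ring
    omega
  have h2 := (mul_facts hn hl).2.1
  have h3 := jj_one hn
  have h4 : 0 < MM P N := mm_one P N
  have hN : 0 < N := by
    have := Siz_Npos hn
    omega
  have h5 : 0 < JJ N * (4 * MM P N ^ 2 * (D.J0 * N)) := by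
    have := hD.j0
    positivity
  calc JJ N * (l * (y.val + i * N)) ≤ JJ N * (4 * MM P N ^ 2 * (D.J0 * N)) := by gcongr
    _ < JJ N * (4 * MM P N ^ 2 * (D.J0 * N)) + JJ N * (4 * MM P N ^ 2 * (D.J0 * N)) := by omega
    _ = (8 * JJ N * MM P N ^ 2 * D.J0) * N := by ring
    _ ≤ D.J2 * N := Nat.mul_le_mul_right N hD.j02
    _ ≤ j * N := Nat.mul_le_mul_right N hj
    _ ≤ x.val + j * N := Nat.le_add_left _ _

/-- `X`-numbers are less than `J1 N` -/
theorem x_lt [NeZero N] (x : ZMod N) {j : ℕ} (hj : j < D.J1) : x.val + j * N < D.J1 * N := by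
  have a1 : x.val < N := ZMod.val_lt x
  have a2 : (j + 1) * N ≤ D.J1 * N := Nat.mul_le_mul_right N hj
  have a3 : (j + 1) * N = j * N + N := by ring
  omega

/-- the weights are nonnegative -/
theorem wt_nonneg {v : ℕ} {o : Option (ℕ → ℝ)} {L : ℝ} (hm : TM P N v o L) (y0 n : ℕ) : 0 ≤ wt y0 o n := by
  rcases hm.ty with ⟨rfl, -, -⟩ | ⟨c, rfl, hc, -, -, -⟩
  · exact zero_le_one
  · classical
    show (0 : ℝ) ≤ if Rough y0 n then rr c n else 0
    split_ifs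
    · exact rr_nonneg N c hc n
    · exact le_rfl

theorem tm_L_pos (hn : NumX P N) {v : ℕ} {o : Option (ℕ → ℝ)} {L : ℝ} (hm : TM P N v o L) : 0 < L := by
  have hN : (0 : ℝ) < N := by
    have := Siz_Npos hn
    exact_mod_cast (show 0 < N by omega)
  rcases hm.ty with ⟨-, rfl, -⟩ | ⟨c, -, -, -, hc, -⟩
  · exact one_pos
  · exact lt_of_lt_of_le (Real.rpow_pos_of_pos hN _) hc

/-- the trivial measure -/
theorem tm_one (hP : P.Ok) (hn : NumX P N) : TM P N 1 none 1 := by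
  refine ⟨le_rfl, Nat.coprime_one_left N, rough_one, Or.inl ⟨rfl, rfl, ?_⟩, nofun⟩
  rw [Nat.cast_one]
  have hN : (1 : ℝ) ≤ N := by
    have := Siz_Npos hn
    exact_mod_cast (show 1 ≤ N by omega)
  refine Real.one_le_rpow hN ?_
  have := hP.kap1
  linarith

/-- `v ≤ N ^ (1 - kap / 2)` for all measures -/
theorem tm_v (hP : P.Ok) (hn : NumX P N) {v : ℕ} {o : Option (ℕ → ℝ)} {L : ℝ} (hm : TM P N v o L) :
    (v : ℝ) ≤ (N : ℝ) ^ (1 - P.kap / 2) := by
  have hN : (1 : ℝ) ≤ N := by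
    have := Siz_Npos hn
    exact_mod_cast (show 1 ≤ N by omega)
  rcases hm.ty with ⟨-, -, h⟩ | ⟨c, -, -, -, -, h⟩
  · exact h
  · refine h.trans (Real.rpow_le_rpow_of_exponent_le hN ?_)
    have h1 := hP.kap1
    have h0 := hP.kap0
    linarith

theorem mr_pos_X (hn : NumX P N) (hD : D.Ok P N) : 0 < D.J1 * rho D.BX := by
  refine lt_of_lt_of_le ?_ hD.jx
  have h1 : (0 : ℝ) < JJ N := by
    have := jj_one hn
    exact_mod_cast (show 0 < JJ N by omega)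
  positivity

theorem mr_pos_Y (hn : NumX P N) (hD : D.Ok P N) : 0 < D.J0 * rho D.BY := by
  refine lt_of_lt_of_le ?_ hD.jy
  have h1 : (0 : ℝ) < JJ N := by
    have := jj_one hn
    exact_mod_cast (show 0 < JJ N by omega)
  positivity

/-- units have coprime representatives `> 0` -/
theorem unit_val [NeZero N] (hn : NumX P N) {x : ZMod N} (hx : IsUnit x) : x.val.Coprime N ∧ 0 < x.val := by
  have h1 : x.val.Coprime N := by
    rw [← ZMod.isUnit_iff_coprime, ZMod.natCast_zmod_val]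
    exact hx
  refine ⟨h1, ?_⟩
  rcases Nat.eq_zero_or_pos x.val with h | h
  · rw [h, Nat.coprime_zero_left] at h1
    have := Siz_Npos hn
    omega
  · exact h

theorem unit_of_cop [NeZero N] {a : ℕ} (h : a.Coprime N) : IsUnit ((a : ℕ) : ZMod N) :=
  (ZMod.isUnit_iff_coprime a N).mpr h

/-- sums over the numbers `J2 N < a ≤ J1 N` coprime to `N` are sums over the units `x` and `J2 ≤ j < J1` -/
theorem sum_split [NeZero N] (hn : NumX P N) (W : ℕ → ℝ) :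
    ∑ a ∈ (Ioc (D.J2 * N) (D.J1 * N)).filter (fun a => a.Coprime N), W a =
      ∑ x ∈ (Finset.univ.filter fun x : ZMod N => IsUnit x), ∑ j ∈ Ico D.J2 D.J1, W (x.val + j * N) := by
  have hN2 := Siz_Npos hn
  have hN : 0 < N := by omega
  rw [← sum_product' (univ.filter fun x : ZMod N => IsUnit x) (Ico D.J2 D.J1) (fun x j => W (x.val + j * N))]
  refine sum_nbij' (fun a : ℕ => (((a : ℕ) : ZMod N), a / N)) (fun z => z.1.val + z.2 * N) ?_ ?_ ?_ ?_ ?_
  · intro a ha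
    rw [mem_filter, mem_Ioc] at ha
    obtain ⟨⟨h1, h2⟩, h3⟩ := ha
    rw [mem_product, mem_filter, mem_Ico]
    refine ⟨⟨mem_univ _, unit_of_cop h3⟩, (Nat.le_div_iff_mul_le hN).2 h1.le, ?_⟩
    rw [Nat.div_lt_iff_lt_mul hN]
    refine lt_of_le_of_ne h2 fun h => ?_
    rw [h] at h3
    have h4 : Nat.gcd (D.J1 * N) N = N := Nat.gcd_mul_left_left _ _
    have h5 : Nat.gcd (D.J1 * N) N = 1 := h3
    omega
  · rintro ⟨x, j⟩ hz
    rw [mem_product, mem_filter, mem_Ico] at hz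
    obtain ⟨⟨-, h1⟩, h2, h3⟩ := hz
    obtain ⟨h4, h5⟩ := unit_val hn h1
    rw [mem_filter, mem_Ioc]
    refine ⟨⟨?_, (x_lt x h3).le⟩, ?_⟩
    · have h6 : D.J2 * N ≤ j * N := Nat.mul_le_mul_right N h2
      have h7 : 0 < x.val := h5
      show D.J2 * N < x.val + j * N
      omega
    · show (x.val + j * N).Coprime N
      rw [Nat.coprime_add_mul_right_left]
      exact h4
  · intro a ha
    show ((a : ℕ) : ZMod N).val + a / N * N = a
    rw [ZMod.val_natCast, Nat.mod_add_div']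
  · rintro ⟨x, j⟩ hz
    have h1 : (((x.val + j * N : ℕ) : ZMod N)) = x := by
      push_cast
      rw [ZMod.natCast_zmod_val, ZMod.natCast_self, mul_zero, add_zero]
    have h2 : (x.val + j * N) / N = j := by
      rw [Nat.add_mul_div_right _ _ hN, Nat.div_eq_of_lt (ZMod.val_lt x), zero_add]
    show ((((x.val + j * N : ℕ) : ZMod N)), (x.val + j * N) / N) = (x, j)
    rw [h1, h2]
  · intro a ha
    show W a = W (((a : ℕ) : ZMod N).val + a / N * N)
    rw [ZMod.val_natCast, Nat.mod_add_div']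

end Pool.Agent.Lib.TCF
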