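import Pool.Agent.Lib.MP_7b7e48_nt.TCF.Siz

/-!
# Definitions for the second part

`S1 G`, `S2 G`: the two parts into which a sum over the pairs (`a` with `lam a ≠ χ a`, tuple `t ∣ a`) is split: `a = q t n` with a prime `q ≤ N ^ (1 - kap)`,
`χ q = 1`, or `a = m t n` with `m ≤ N ^ kap`, `n` a prime `> N ^ (1 - kap)`, `χ n = 1` (weighted by `r n = 2`).
-/

set_option autoImplicit false

open Finset

namespace Pool.Agent.Lib.TCF

open Pool.Agent.Lib.RG hiding RR sig Good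
open Pool.Agent.Lib.RH
open Pool.Agent.Lib.MP_45349e_nt.LS (lam)

open Classical in
/-- the numbers `n` with `J2 N < v n ≤ J1 N`, `v n` rough and coprime to `N` -/
noncomputable def NV (P : Prm) (N : ℕ) (D : Dat) (v : ℕ) : Finset ℕ :=
  (Icc 1 (D.J1 * N / v)).filter fun n => Rgh1 P N (v * n) ∧ D.J2 * N < v * n

open Classical in
/-- the cofactors `m ≤ N ^ kap` -/
noncomputable def MV (P : Prm) (N : ℕ) : Finset ℕ := (Icc 1 ⌊(N : ℝ) ^ P.kap⌋₊).filter fun m => Rgh1 P N m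

/-- the real character as a function of natural numbers -/
noncomputable def cc {N : ℕ} (χ : DirichletCharacter ℂ N) (n : ℕ) : ℝ := (χ (n : ZMod N)).re

/-- first part -/
noncomputable def S1 (P : Prm) {N : ℕ} (D : Dat) (χ : DirichletCharacter ℂ N) (G : ℕ → ℕ → ℝ) : ℝ :=
  ∑ q ∈ QM P χ, ∑ t ∈ TUP D.BX, ∑ n ∈ NV P N D (q * t), G t (q * t * n)

open Classical in
/-- second part -/
noncomputable def S2 (P : Prm) {N : ℕ} (D : Dat) (χ : DirichletCharacter ℂ N) (G : ℕ → ℕ → ℝ) : ℝ :=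
  ∑ m ∈ MV P N, ∑ t ∈ TUP D.BX,
    ∑ n ∈ (NV P N D (m * t)).filter (fun n : ℕ => n.Prime ∧ (N : ℝ) ^ (1 - P.kap) < (n : ℝ)),
      wt D.y0 (some (cc χ)) n * G t (m * t * n)

theorem s1_mono {P : Prm} {N : ℕ} {D : Dat} {χ : DirichletCharacter ℂ N} {G G' : ℕ → ℕ → ℝ}
    (h : ∀ t ∈ TUP D.BX, ∀ a, G t a ≤ G' t a) : S1 P D χ G ≤ S1 P D χ G' :=
  sum_le_sum fun q _ => sum_le_sum fun t ht => sum_le_sum fun n _ => h t ht _

end Pool.Agent.Lib.TCF
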