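import Pool.Agent.Lib.MP_7b7e48_nt.TCF.Siz

/-!
# Module Usl0: multiplicities
-/

set_option autoImplicit false

open Finset

namespace Pool.Agent.Lib.TCF

open Pool.Agent.Lib.RG hiding RR sig Good
open Pool.Agent.Lib.RH
open Pool.Agent.Lib.MP_45349e_nt.LS (lam)

variable {P : Prm} {N : ℕ} [NeZero N] {D : Dat}

open Classical in
/-- the rough numbers of the range in good classes -/
noncomputable def AG (P : Prm) (N : ℕ) [NeZero N] (D : Dat) : Finset ℕ :=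
  (Ioc (D.J2 * N) (D.J1 * N)).filter fun a => Rgh1 P N a ∧ GD N D ((a : ℕ) : ZMod N)

open Classical in
private theorem Usl0_gen (hP : P.Ok) (hn : NumX P N) (hD : D.Ok P N) {B c m : ℕ} (hc1 : 1 ≤ c)
    (hcB : c ≤ B) (hcr : Rgh1 P N c) (hm : m ∈ TUP D.BX) (W : ℕ → ℝ) (hW : ∀ a, 0 ≤ W a) :
    ∑ n ∈ RN N (zz P N) (D.J1 * N / (B * m)),
      (if GG N D (c * (m * n)) then W (c * (m * n)) else 0) ≤
      ∑ a ∈ (AG P N D).filter (fun a => c ∣ a ∧ m ∣ a), W a := by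
  obtain ⟨hm1, -, -, hmN, hmr, -, -⟩ := tup_facts hD.fx hm
  have hm0 : 0 < m := by omega
  have hB0 : 0 < B * m := Nat.mul_pos (by omega) hm0
  rw [← sum_filter]
  have hinj : Set.InjOn (fun n => c * (m * n))
      (((RN N (zz P N) (D.J1 * N / (B * m))).filter fun n => GG N D (c * (m * n)) : Finset ℕ) : Set ℕ) :=
    fun a _ b _ h => Nat.eq_of_mul_eq_mul_left hm0 (Nat.eq_of_mul_eq_mul_left (by omega) h)
  rw [← sum_image (f := W) hinj]
  refine sum_le_sum_of_subset_of_nonneg ?_ fun _ _ _ => hW _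
  intro a ha
  obtain ⟨n, hn', rfl⟩ := mem_image.mp ha
  obtain ⟨hnR, hG⟩ := mem_filter.mp hn'
  unfold RN at hnR
  obtain ⟨hnI, hnr, hnN⟩ := mem_filter.mp hnR
  obtain ⟨hn1, hn2⟩ := mem_Icc.mp hnI
  have hle : c * (m * n) ≤ D.J1 * N := by
    calc c * (m * n) ≤ B * (m * n) := Nat.mul_le_mul_right _ hcB
      _ = n * (B * m) := by ring
      _ ≤ D.J1 * N := (Nat.le_div_iff_mul_le hB0).1 hn2
  have hMy : MM P N ≤ D.y0 := by
    have h1 := y0_MM hn hD
    have h2 := mm_one P N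
    have h3 : MM P N ≤ MM P N ^ 4 := Nat.le_self_pow (by norm_num) _
    omega
  have hMz : MM P N ≤ zz P N := (MM_lt_zz hn.num).le
  rw [mem_filter]
  refine ⟨?_, dvd_mul_right _ _, (dvd_mul_right m n).trans (dvd_mul_left _ _)⟩
  unfold AG
  rw [mem_filter, mem_Ioc]
  refine ⟨⟨hG.2, hle⟩, ⟨?_, ?_⟩, hG.1⟩
  · exact Nat.Coprime.mul_left hcr.1 (Nat.Coprime.mul_left hmN hnN)
  · exact rough_mul hcr.2 (rough_mul (rough_mono hMy hmr) (rough_mono hMz hnr))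

open Classical in
private theorem Usl0_card (hP : P.Ok) (hn : NumX P N) (hD : D.Ok P N) (L : Finset ℕ)
    (hL : ∀ l ∈ L, l.Prime) {a : ℕ} (ha : a ∈ AG P N D) :
    ((L.filter fun l => l ∣ a).card : ℝ) ≤ 4 * Real.log N := by
  unfold AG at ha
  obtain ⟨h1, -⟩ := mem_filter.mp ha
  obtain ⟨h2, h3⟩ := mem_Ioc.mp h1
  have h4 : a ≤ N ^ 2 := h3.trans (j1_N hn hD hP)
  have h5 := card_dvd_le (N ^ 2) L hL a (by omega) h4
  refine h5.trans (le_of_eq ?_)
  push_cast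
  rw [Real.log_pow]
  push_cast
  ring

open Classical in
private theorem Usl0_tup (hD : D.Ok P N) (a : ℕ) :
    ∑ m ∈ TUP D.BX, (if m ∣ a then (1 : ℝ) else 0) = pht D.BX a := by
  rw [pht_eq hD.fx, ← sum_filter, sum_const, nsmul_eq_mul, mul_one]

private theorem Usl0_block (hP : P.Ok) {Y l : ℕ} (hY : MM P N ≤ Y) (hl : l ∈ block N Y) :
    l.Prime ∧ 1 ≤ l ∧ l ≤ 2 * Y ∧ Rgh1 P N l := by
  obtain ⟨h1, h2, h3, h4⟩ := mem_block.mp hl
  refine ⟨h3, h3.one_le, h2, (Nat.Prime.coprime_iff_not_dvd h3).2 h4, rough_prime h3 (by omega)⟩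

open Classical in
theorem mulx_one (hP : P.Ok) (hn : NumX P N) (hD : D.Ok P N) {i : ℕ} (hi : MM P N ≤ 2 ^ i)
    (L : Finset ℕ) (hL : L ⊆ block N (2 ^ i)) (W : ℕ → ℝ) (hW : ∀ a, 0 ≤ W a) :
    ∑ l ∈ L, ∑ m ∈ TUP D.BX, ∑ n ∈ RN N (zz P N) (D.J1 * N / (2 * 2 ^ i * m)),
      (if GG N D (l * (m * n)) then W (l * (m * n)) else 0) ≤
      4 * Real.log N * ∑ a ∈ AG P N D, pht D.BX a * W a := by
  have hLp : ∀ l ∈ L, l.Prime := fun l hl => (mem_block.mp (hL hl)).2.2.1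
  have h1 : ∑ l ∈ L, ∑ m ∈ TUP D.BX, ∑ n ∈ RN N (zz P N) (D.J1 * N / (2 * 2 ^ i * m)),
      (if GG N D (l * (m * n)) then W (l * (m * n)) else 0) ≤
      ∑ l ∈ L, ∑ m ∈ TUP D.BX, ∑ a ∈ AG P N D,
        W a * ((if l ∣ a then 1 else 0) * (if m ∣ a then 1 else 0)) := by
    refine sum_le_sum fun l hl => sum_le_sum fun m hm => ?_
    obtain ⟨h2, h3, h4, h5⟩ := Usl0_block hP hi (hL hl)
    refine (Usl0_gen hP hn hD h3 h4 h5 hm W hW).trans (le_of_eq ?_)
    rw [sum_filter]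
    refine sum_congr rfl fun a _ => ?_
    by_cases h6 : l ∣ a
    · by_cases h7 : m ∣ a
      · rw [if_pos ⟨h6, h7⟩, if_pos h6, if_pos h7, mul_one, mul_one]
      · rw [if_neg (fun h => h7 h.2), if_neg h7, mul_zero, mul_zero]
    · rw [if_neg (fun h => h6 h.1), if_neg h6, zero_mul, mul_zero]
  refine h1.trans ?_
  have h2 : ∑ l ∈ L, ∑ m ∈ TUP D.BX, ∑ a ∈ AG P N D,
        W a * ((if l ∣ a then (1 : ℝ) else 0) * (if m ∣ a then 1 else 0)) =
      ∑ a ∈ AG P N D, W a * (((L.filter fun l => l ∣ a).card : ℝ) * pht D.BX a) := by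
    have h3 : ∀ l ∈ L, ∑ m ∈ TUP D.BX, ∑ a ∈ AG P N D,
        W a * ((if l ∣ a then (1 : ℝ) else 0) * (if m ∣ a then 1 else 0)) =
        ∑ a ∈ AG P N D, W a * ((if l ∣ a then (1 : ℝ) else 0) * pht D.BX a) := by
      intro l _
      rw [sum_comm]
      refine sum_congr rfl fun a _ => ?_
      rw [← mul_sum, ← mul_sum, Usl0_tup hD a]
    rw [sum_congr rfl h3, sum_comm]
    refine sum_congr rfl fun a _ => ?_
    rw [← mul_sum, ← sum_mul, ← sum_filter, sum_const, nsmul_eq_mul, mul_one]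
  rw [h2, mul_sum]
  refine sum_le_sum fun a ha => ?_
  have h3 := Usl0_card hP hn hD L hLp ha
  have h4 : 0 ≤ W a * pht D.BX a := mul_nonneg (hW a) (pht_nonneg _ _)
  calc W a * (((L.filter fun l => l ∣ a).card : ℝ) * pht D.BX a)
      = ((L.filter fun l => l ∣ a).card : ℝ) * (W a * pht D.BX a) := by ring
    _ ≤ 4 * Real.log N * (W a * pht D.BX a) := mul_le_mul_of_nonneg_right h3 h4
    _ = 4 * Real.log N * (pht D.BX a * W a) := by ring

open Classical in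
theorem mulx_two (hP : P.Ok) (hn : NumX P N) (hD : D.Ok P N) {i : ℕ} (hi : 2 * MM P N ^ 2 < 2 ^ i)
    (L1 L2 : Finset ℕ) (hL1 : L1 ⊆ block N (MM P N)) (hL2 : L2 ⊆ block N (2 ^ i / (2 * MM P N)))
    (W : ℕ → ℝ) (hW : ∀ a, 0 ≤ W a) :
    ∑ l1 ∈ L1, ∑ l2 ∈ L2, ∑ m ∈ TUP D.BX, ∑ n ∈ RN N (zz P N) (D.J1 * N / (2 * 2 ^ i * m)),
      (if GG N D (l1 * l2 * (m * n)) then W (l1 * l2 * (m * n)) else 0) ≤
      (4 * Real.log N) ^ 2 * ∑ a ∈ AG P N D, pht D.BX a * W a := by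
  have hLp1 : ∀ l ∈ L1, l.Prime := fun l hl => (mem_block.mp (hL1 hl)).2.2.1
  have hLp2 : ∀ l ∈ L2, l.Prime := fun l hl => (mem_block.mp (hL2 hl)).2.2.1
  have hM1 := mm_one P N
  have hMi : MM P N ≤ 2 ^ i / (2 * MM P N) := by
    rw [Nat.le_div_iff_mul_le (by omega)]
    nlinarith
  have h1 : ∑ l1 ∈ L1, ∑ l2 ∈ L2, ∑ m ∈ TUP D.BX, ∑ n ∈ RN N (zz P N) (D.J1 * N / (2 * 2 ^ i * m)),
      (if GG N D (l1 * l2 * (m * n)) then W (l1 * l2 * (m * n)) else 0) ≤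
      ∑ l1 ∈ L1, ∑ l2 ∈ L2, ∑ m ∈ TUP D.BX, ∑ a ∈ AG P N D,
        W a * ((if l1 ∣ a then 1 else 0) * ((if l2 ∣ a then 1 else 0) * (if m ∣ a then 1 else 0))) := by
    refine sum_le_sum fun l1 hl1 => sum_le_sum fun l2 hl2 => sum_le_sum fun m hm => ?_
    obtain ⟨a1, a2, a3, a4⟩ := Usl0_block hP (le_refl _) (hL1 hl1)
    obtain ⟨b1, b2, b3, b4⟩ := Usl0_block hP hMi (hL2 hl2)
    have hle : l1 * l2 ≤ 2 * 2 ^ i := by
      have h5 : 2 * MM P N * (2 ^ i / (2 * MM P N)) ≤ 2 ^ i := Nat.mul_div_le _ _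
      calc l1 * l2 ≤ (2 * MM P N) * (2 * (2 ^ i / (2 * MM P N))) := Nat.mul_le_mul a3 b3
        _ = 2 * (2 * MM P N * (2 ^ i / (2 * MM P N))) := by ring
        _ ≤ 2 * 2 ^ i := by omega
    have hr : Rgh1 P N (l1 * l2) := ⟨Nat.Coprime.mul_left a4.1 b4.1, rough_mul a4.2 b4.2⟩
    refine (Usl0_gen hP hn hD (Nat.mul_pos a2 b2) hle hr hm W hW).trans ?_
    rw [sum_filter]
    refine sum_le_sum fun a _ => ?_
    by_cases h6 : l1 * l2 ∣ a
    · by_cases h7 : m ∣ a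
      · rw [if_pos ⟨h6, h7⟩, if_pos ((dvd_mul_right _ _).trans h6), if_pos ((dvd_mul_left _ _).trans h6),
          if_pos h7, mul_one, mul_one, mul_one]
      · rw [if_neg (fun h => h7 h.2), if_neg h7, mul_zero, mul_zero, mul_zero]
    · rw [if_neg (fun h => h6 h.1)]
      refine mul_nonneg (hW a) ?_
      split_ifs <;> norm_num
  refine h1.trans ?_
  have h2 : ∑ l1 ∈ L1, ∑ l2 ∈ L2, ∑ m ∈ TUP D.BX, ∑ a ∈ AG P N D,
        W a * ((if l1 ∣ a then (1 : ℝ) else 0) * ((if l2 ∣ a then 1 else 0) * (if m ∣ a then 1 else 0))) =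
      ∑ a ∈ AG P N D, W a * (((L1.filter fun l => l ∣ a).card : ℝ) *
        (((L2.filter fun l => l ∣ a).card : ℝ) * pht D.BX a)) := by
    have h3 : ∀ l1 ∈ L1, ∑ l2 ∈ L2, ∑ m ∈ TUP D.BX, ∑ a ∈ AG P N D,
        W a * ((if l1 ∣ a then (1 : ℝ) else 0) * ((if l2 ∣ a then 1 else 0) * (if m ∣ a then 1 else 0))) =
        ∑ a ∈ AG P N D, W a * ((if l1 ∣ a then (1 : ℝ) else 0) *
          (((L2.filter fun l => l ∣ a).card : ℝ) * pht D.BX a)) := by
      intro l1 _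
      have h4 : ∀ l2 ∈ L2, ∑ m ∈ TUP D.BX, ∑ a ∈ AG P N D,
          W a * ((if l1 ∣ a then (1 : ℝ) else 0) * ((if l2 ∣ a then 1 else 0) * (if m ∣ a then 1 else 0))) =
          ∑ a ∈ AG P N D, W a * ((if l1 ∣ a then (1 : ℝ) else 0) *
            ((if l2 ∣ a then 1 else 0) * pht D.BX a)) := by
        intro l2 _
        rw [sum_comm]
        refine sum_congr rfl fun a _ => ?_
        rw [← mul_sum, ← mul_sum, ← mul_sum, Usl0_tup hD a]
      rw [sum_congr rfl h4, sum_comm]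
      refine sum_congr rfl fun a _ => ?_
      rw [← mul_sum, ← mul_sum, ← sum_mul, ← sum_filter, sum_const, nsmul_eq_mul, mul_one]
    rw [sum_congr rfl h3, sum_comm]
    refine sum_congr rfl fun a _ => ?_
    rw [← mul_sum, ← sum_mul, ← sum_filter, sum_const, nsmul_eq_mul, mul_one]
  rw [h2, mul_sum]
  refine sum_le_sum fun a ha => ?_
  have h3 := Usl0_card hP hn hD L1 hLp1 ha
  have h3' := Usl0_card hP hn hD L2 hLp2 ha
  have h4 : 0 ≤ W a * pht D.BX a := mul_nonneg (hW a) (pht_nonneg _ _)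
  have h5 : ((L1.filter fun l => l ∣ a).card : ℝ) * ((L2.filter fun l => l ∣ a).card : ℝ) ≤
      (4 * Real.log N) * (4 * Real.log N) :=
    mul_le_mul h3 h3' (Nat.cast_nonneg _) ((Nat.cast_nonneg _).trans h3)
  calc W a * (((L1.filter fun l => l ∣ a).card : ℝ) *
        (((L2.filter fun l => l ∣ a).card : ℝ) * pht D.BX a))
      = (((L1.filter fun l => l ∣ a).card : ℝ) * ((L2.filter fun l => l ∣ a).card : ℝ)) *
        (W a * pht D.BX a) := by ring
    _ ≤ ((4 * Real.log N) * (4 * Real.log N)) * (W a * pht D.BX a) := mul_le_mul_of_nonneg_right h5 h4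
    _ = (4 * Real.log N) ^ 2 * (pht D.BX a * W a) := by ring

theorem sum_ag (hP : P.Ok) (hn : NumX P N) (hD : D.Ok P N) (W : ZMod N → ℝ) (hW : ∀ x, 0 ≤ W x) :
    ∑ a ∈ AG P N D, pht D.BX a * W ((a : ℕ) : ZMod N) ≤
      3 * (D.J1 * rho D.BX) * ∑ x : ZMod N, W x := by
  classical
  set G : ℕ → ℝ := fun a => if a ∈ AG P N D then pht D.BX a * W ((a : ℕ) : ZMod N) else 0 with hG
  have hM0 : 0 < D.J1 * rho D.BX := mr_pos_X hn hD
  have h1 : ∑ a ∈ AG P N D, pht D.BX a * W ((a : ℕ) : ZMod N) =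
      ∑ a ∈ (Ioc (D.J2 * N) (D.J1 * N)).filter (fun a => a.Coprime N), G a := by
    have h6 : AG P N D ⊆ (Ioc (D.J2 * N) (D.J1 * N)).filter (fun a => a.Coprime N) := by
      intro a ha
      unfold AG at ha
      obtain ⟨h7, h8, -⟩ := mem_filter.1 ha
      exact mem_filter.2 ⟨h7, h8.1⟩
    rw [← sum_subset h6]
    · refine sum_congr rfl fun a ha => ?_
      simp only [hG]
      rw [if_pos ha]
    · intro a _ ha
      simp only [hG]
      rw [if_neg ha]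
  rw [h1, sum_split hn G, mul_sum]
  have hcast : ∀ (x : ZMod N) (j : ℕ), ((x.val + j * N : ℕ) : ZMod N) = x := by
    intro x j
    push_cast
    rw [ZMod.natCast_self, mul_zero, add_zero, ZMod.natCast_val, ZMod.cast_id', id]
  have h2 : ∀ x : ZMod N, ∑ j ∈ Ico D.J2 D.J1, G (x.val + j * N) ≤ 3 * (D.J1 * rho D.BX) * W x := by
    intro x
    by_cases hg : GD N D x
    · have h3 : ∑ j ∈ Ico D.J2 D.J1, G (x.val + j * N) ≤ PT N D x * W x := by
        unfold PT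
        rw [sum_mul]
        refine sum_le_sum fun j _ => ?_
        simp only [hG]
        split_ifs
        · rw [hcast x j]
        · exact mul_nonneg (pht_nonneg _ _) (hW x)
      exact h3.trans (mul_le_mul_of_nonneg_right hg (hW x))
    · have h3 : ∑ j ∈ Ico D.J2 D.J1, G (x.val + j * N) = 0 := by
        refine sum_eq_zero fun j _ => ?_
        simp only [hG]
        rw [if_neg]
        intro h4
        unfold AG at h4
        have h5 := (mem_filter.1 h4).2.2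
        rw [hcast x j] at h5
        exact hg h5
      rw [h3]
      exact mul_nonneg (by positivity) (hW x)
  calc ∑ x ∈ (Finset.univ.filter fun x : ZMod N => IsUnit x), ∑ j ∈ Ico D.J2 D.J1, G (x.val + j * N)
      ≤ ∑ x ∈ (Finset.univ.filter fun x : ZMod N => IsUnit x), 3 * (D.J1 * rho D.BX) * W x :=
        sum_le_sum fun x _ => h2 x
    _ ≤ ∑ x : ZMod N, 3 * (D.J1 * rho D.BX) * W x :=
        sum_le_sum_of_subset_of_nonneg (filter_subset _ _) fun x _ _ => mul_nonneg (by positivity) (hW x)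

end Pool.Agent.Lib.TCF
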