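import Pool.Agent.Lib.MP_7b7e48_nt.TCF.Siz

/-!
# Module Qsm (45 minutes): few primes with `χ = 1` below `N ^ (1/2 - 2 kap)`

PROOF of `qblk`: for `q ∈ block N (2 ^ i)` with `χ q = 1`: `‖χ q + 1‖ ^ 2 = 4`; so there are at most `2 ^ i / (4 K ^ 12)` of them by `Blk`.
`qsm`: every `q ∈ QS` with `q ≤ HH` is in exactly one `block N (2 ^ i)` (`i = ` the largest with `2 ^ i < q`; `q` does not divide `N` because `χ q ≠ 0`), `MM = 2 ^ m0 ≤ 2 ^ i` since `q > MM = 2 ^ m0`
(so `m0 ≤ i`), `2 ^ i < q ≤ HH`: `InR i`. For one `i`: `∑ 1 / q ≤ 2 ^ (-i) 2 ^ i / (4 K ^ 12)`; the number of the `i` is at most `log N / log 2 + 1 ≤ 2 K`. Total `≤ 2 K / (4 K ^ 12) ≤ 1 / K ^ 10`.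
`qs_str`: the sets `BX c` are disjoint, their elements are primes `> y0 ≥ MM`; each `p ∈ BX c` is at most `N ^ (kap / 100)`: it divides a tuple (the other sets are not empty because
`FamOk.lo` gives a positive sum), which is `≤ N ^ (kap / 100) ≤ HH`. So the sum over `c` is a sum over a subset of the `q ∈ QS` with `q ≤ HH`.
`fx_del`: `p ∈ BX c \ QS`: `p ∤ N` so `χ p = ± 1` (`chi_pm`), `MM < p ≤ N`, so `χ p = 1` would imply `p ∈ QS`.
-/

set_option autoImplicit false

open Finset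

namespace Pool.Agent.Lib.TCF

open Pool.Agent.Lib.RG hiding RR sig Good
open Pool.Agent.Lib.RH
open Pool.Agent.Lib.MP_45349e_nt.LS (lam)

variable {P : Prm} {N : ℕ} [NeZero N] {D : Dat}

private theorem Qsm_unit (χ : DirichletCharacter ℂ N) {q : ℕ} (hq : q.Prime) (h : χ (q : ZMod N) = 1) : ¬ q ∣ N := by
  intro hd
  have h1 : IsUnit (q : ZMod N) := by
    by_contra h2
    rw [MulChar.map_nonunit χ h2] at h
    exact zero_ne_one h
  have h2 := (ZMod.isUnit_iff_coprime q N).1 h1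
  exact (hq.coprime_iff_not_dvd.1 h2) hd

private theorem Qsm_log {N : ℕ} (hN : 1 ≤ N) : (Nat.log 2 N : ℝ) ≤ 3 / 2 * Real.log N := by
  have h1 : 2 ^ Nat.log 2 N ≤ N := Nat.pow_log_le_self 2 (by omega)
  have h2 : ((2 : ℝ)) ^ Nat.log 2 N ≤ N := by exact_mod_cast h1
  have h3 := Real.log_le_log (by positivity) h2
  rw [Real.log_pow] at h3
  have h4 := Real.log_two_gt_d9
  have h5 : (0 : ℝ) ≤ (Nat.log 2 N : ℝ) := Nat.cast_nonneg _
  nlinarith

open Classical in
theorem qblk (hn : NumX P N) (χ : DirichletCharacter ℂ N) (hb : Blk P N 12 (-1) χ) {i : ℕ}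
    (hi : InR P N i) : (((block N (2 ^ i)).filter fun q : ℕ => χ (q : ZMod N) = 1).card : ℝ) ≤
      (2 : ℝ) ^ i / (4 * (Real.log N) ^ 12) := by
  classical
  have h1 := hb i hi
  have h2 : ∑ l ∈ (block N (2 ^ i)).filter (fun q : ℕ => χ (q : ZMod N) = 1), (4 : ℝ) ≤
      ∑ l ∈ block N (2 ^ i), ‖χ (l : ZMod N) - ((-1 : ℝ) : ℂ)‖ ^ 2 := by
    refine le_trans (le_of_eq ?_) (sum_le_sum_of_subset_of_nonneg (filter_subset (fun q : ℕ => χ (q : ZMod N) = 1) (block N (2 ^ i)))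
      (fun l _ _ => by positivity))
    refine sum_congr rfl fun l hl => ?_
    rw [(mem_filter.1 hl).2]
    have h3 : (1 : ℂ) - ((-1 : ℝ) : ℂ) = ((2 : ℝ) : ℂ) := by push_cast; ring
    rw [h3, Complex.norm_real, Real.norm_of_nonneg (by norm_num)]
    norm_num
  rw [sum_const, nsmul_eq_mul] at h2
  have h4 := h2.trans h1
  have hK : 0 < (Real.log N) ^ 12 := pow_pos (lt_of_lt_of_le (by norm_num) (hK hn)) 12
  rw [le_div_iff₀ hK] at h4
  rw [le_div_iff₀ (by positivity)]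
  linarith

open Classical in
theorem qsm (hP : P.Ok) (hn : NumX P N) (χ : DirichletCharacter ℂ N) (hb : Blk P N 12 (-1) χ) :
    ∑ q ∈ (QS P χ).filter (fun q : ℕ => (q : ℝ) ≤ HH N P.kap), 1 / (q : ℝ) ≤ 1 / (Real.log N) ^ 10 := by
  classical
  have hK9 : (10 : ℝ) ^ 9 ≤ Real.log N := hK hn
  have hK1 : 1 ≤ Real.log N := le_trans (by norm_num) hK9
  have hK0 : 0 < Real.log N := by linarith
  have hN2 := N_two hn
  set K := Real.log N with hKd
  set S := (QS P χ).filter (fun q : ℕ => (q : ℝ) ≤ HH N P.kap) with hS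
  have hmem : ∀ q ∈ S, q.Prime ∧ q ≤ N ∧ MM P N < q ∧ χ (q : ZMod N) = 1 ∧ (q : ℝ) ≤ HH N P.kap := by
    intro q hq
    rw [hS, mem_filter, QS, mem_filter, mem_range] at hq
    exact ⟨hq.1.2.1, by omega, hq.1.2.2.1, hq.1.2.2.2, hq.2⟩
  have hmaps : ∀ q ∈ S, Nat.log 2 (q - 1) ∈ range (Nat.log 2 N + 1) := by
    intro q hq
    rw [mem_range, Nat.lt_succ_iff]
    exact Nat.log_mono_right (by have := (hmem q hq).2.1; omega)
  rw [← sum_fiberwise_of_maps_to hmaps (fun q : ℕ => 1 / (q : ℝ))]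
  have hone : ∀ i ∈ range (Nat.log 2 N + 1), ∑ q ∈ S.filter (fun q => Nat.log 2 (q - 1) = i), 1 / (q : ℝ) ≤ 1 / (4 * K ^ 12) := by
    intro i _
    rcases (S.filter (fun q => Nat.log 2 (q - 1) = i)).eq_empty_or_nonempty with he | ⟨q0, hq0⟩
    · rw [he, sum_empty]
      positivity
    · have hq : ∀ q ∈ S.filter (fun q => Nat.log 2 (q - 1) = i), 2 ^ i < q ∧ q ≤ 2 * 2 ^ i := by
        intro q hq
        rw [mem_filter] at hq
        obtain ⟨h1, h2⟩ := hq
        have hp := (hmem q h1).1.two_le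
        have h3 := Nat.pow_log_le_self 2 (show q - 1 ≠ 0 by omega)
        have h4 := Nat.lt_pow_succ_log_self (b := 2) (by norm_num) (q - 1)
        rw [h2] at h3 h4
        rw [pow_succ] at h4
        constructor <;> omega
      have hin : InR P N i := by
        have h1 := hq q0 hq0
        obtain ⟨g1, g2, g3, g4, g5⟩ := hmem q0 (mem_filter.1 hq0).1
        constructor
        · have h2 : 2 ^ m0 P N < 2 ^ (i + 1) := by
            rw [pow_succ 2 i, mul_comm]
            exact lt_of_lt_of_le g3 h1.2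
          have h3 := (Nat.pow_lt_pow_iff_right (by norm_num : 1 < 2)).1 h2
          omega
        · have h2 : ((2 : ℝ)) ^ i ≤ (q0 : ℝ) := by exact_mod_cast h1.1.le
          exact h2.trans g5
      have hsub : S.filter (fun q => Nat.log 2 (q - 1) = i) ⊆ (block N (2 ^ i)).filter fun q : ℕ => χ (q : ZMod N) = 1 := by
        intro q hqm
        have h1 := hq q hqm
        obtain ⟨g1, g2, g3, g4, g5⟩ := hmem q (mem_filter.1 hqm).1
        rw [mem_filter, mem_block]
        exact ⟨⟨h1.1, h1.2, g1, Qsm_unit χ g1 g4⟩, g4⟩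
      have hb1 := qblk hn χ hb hin
      have h2i : (0 : ℝ) < 2 ^ i := by positivity
      calc ∑ q ∈ S.filter (fun q => Nat.log 2 (q - 1) = i), 1 / (q : ℝ)
          ≤ ∑ q ∈ S.filter (fun q => Nat.log 2 (q - 1) = i), 1 / (2 : ℝ) ^ i := by
            refine sum_le_sum fun q hqm => one_div_le_one_div_of_le h2i ?_
            exact_mod_cast (hq q hqm).1.le
        _ = ((S.filter (fun q => Nat.log 2 (q - 1) = i)).card : ℝ) * (1 / (2 : ℝ) ^ i) := by rw [sum_const, nsmul_eq_mul]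
        _ ≤ ((2 : ℝ) ^ i / (4 * K ^ 12)) * (1 / (2 : ℝ) ^ i) := by
            refine mul_le_mul_of_nonneg_right (le_trans ?_ hb1) (by positivity)
            exact_mod_cast card_le_card hsub
        _ = 1 / (4 * K ^ 12) := by field_simp
  refine (sum_le_sum hone).trans ?_
  rw [sum_const, card_range, nsmul_eq_mul]
  have hl := Qsm_log (show 1 ≤ N by omega)
  have h1 : ((Nat.log 2 N + 1 : ℕ) : ℝ) ≤ 2 * K := by
    push_cast
    have h2 : (2 : ℝ) ≤ K := le_trans (by norm_num) hK9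
    rw [← hKd] at hl
    linarith
  calc ((Nat.log 2 N + 1 : ℕ) : ℝ) * (1 / (4 * K ^ 12)) ≤ 2 * K * (1 / (4 * K ^ 12)) := mul_le_mul_of_nonneg_right h1 (by positivity)
    _ = 1 / (2 * K ^ 11) := by field_simp; ring
    _ ≤ 1 / K ^ 10 := by
        refine one_div_le_one_div_of_le (by positivity) ?_
        have h2 : K ^ 11 = K * K ^ 10 := by ring
        rw [h2]
        have h3 : 0 ≤ K ^ 10 := by positivity
        nlinarith

private theorem Qsm_le (hP : P.Ok) (hn : NumX P N) (hD : D.Ok P N) (c : Fin D.nX) {p : ℕ} (hp : p ∈ D.BX c) :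
    (p : ℝ) ≤ (N : ℝ) ^ (P.kap / 100) := by
  classical
  have hK0 : 0 < Real.log N := lt_of_lt_of_le (by norm_num) (hK hn)
  have hne : ∀ c', ∃ q, q ∈ D.BX c' := by
    intro c'
    by_contra h
    have he : D.BX c' = ∅ := by
      refine eq_empty_of_forall_notMem fun q hq => h ⟨q, hq⟩
    have h1 := hD.fx.lo c'
    rw [he, sum_empty] at h1
    have h2 : 0 < 1 / (Real.log N) ^ 3 := by positivity
    linarith
  choose m hm using hne
  have hm' : ∀ c', Function.update m c p c' ∈ D.BX c' := by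
    intro c'
    by_cases h : c' = c
    · subst h
      rw [Function.update_self]
      exact hp
    · rw [Function.update_of_ne h]
      exact hm c'
  have ht : ∏ c', Function.update m c p c' ∈ TUP D.BX := by
    rw [TUP, mem_image]
    exact ⟨_, Fintype.mem_piFinset.2 hm', rfl⟩
  have h1 := hD.fx.tup _ ht
  have h2 : p ≤ ∏ c', Function.update m c p c' := by
    refine Nat.le_of_dvd (prod_pos fun c' _ => (hD.fx.pr c' _ (hm' c')).1.pos) ?_
    have h3 := dvd_prod_of_mem (Function.update m c p) (mem_univ c)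
    rw [Function.update_self] at h3
    exact h3
  refine le_trans ?_ h1
  exact_mod_cast h2

private theorem Qsm_HH (hP : P.Ok) (hn : NumX P N) : (N : ℝ) ^ (P.kap / 100) ≤ HH N P.kap := by
  have hN1 : (1 : ℝ) ≤ N := by
    have := N_two hn
    exact_mod_cast (by omega : 1 ≤ N)
  unfold HH
  refine Real.rpow_le_rpow_of_exponent_le hN1 ?_
  have h1 := hP.kap0
  have h2 := hP.kap1
  linarith

private theorem Qsm_leN (hP : P.Ok) (hn : NumX P N) (hD : D.Ok P N) (c : Fin D.nX) {p : ℕ} (hp : p ∈ D.BX c) : p ≤ N := by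
  have hN1 : (1 : ℝ) ≤ N := by
    have := N_two hn
    exact_mod_cast (by omega : 1 ≤ N)
  have h1 := Qsm_le hP hn hD c hp
  have h2 : (N : ℝ) ^ (P.kap / 100) ≤ (N : ℝ) ^ (1 : ℝ) := by
    refine Real.rpow_le_rpow_of_exponent_le hN1 ?_
    have h2 := hP.kap1
    linarith
  rw [Real.rpow_one] at h2
  exact_mod_cast h1.trans h2

private theorem Qsm_MM (hn : NumX P N) (hD : D.Ok P N) : MM P N ≤ D.y0 := by
  have h1 := y0_MM hn hD
  have h2 := mm_one P N
  have h3 : MM P N ≤ MM P N ^ 4 := Nat.le_self_pow (by norm_num) _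
  omega

open Classical in
theorem qs_str (hP : P.Ok) (hn : NumX P N) (hD : D.Ok P N) (χ : DirichletCharacter ℂ N)
    (hb : Blk P N 12 (-1) χ) :
    ∑ c, ∑ p ∈ D.BX c ∩ QS P χ, 1 / (p : ℝ) ≤ 1 / (Real.log N) ^ 10 := by
  classical
  have hdisj : ∀ c ∈ (univ : Finset (Fin D.nX)), ∀ c' ∈ (univ : Finset (Fin D.nX)), c ≠ c' → Disjoint (D.BX c ∩ QS P χ) (D.BX c' ∩ QS P χ) := by
    intro c _ c' _ hcc
    exact Disjoint.mono inter_subset_left inter_subset_left (hD.fx.disj c c' hcc)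
  rw [← sum_biUnion hdisj]
  refine le_trans (sum_le_sum_of_subset_of_nonneg ?_ (fun q _ _ => by positivity)) (qsm hP hn χ hb)
  intro p hp
  rw [mem_biUnion] at hp
  obtain ⟨c, -, hc⟩ := hp
  rw [mem_inter] at hc
  rw [mem_filter]
  exact ⟨hc.2, (Qsm_le hP hn hD c hc.1).trans (Qsm_HH hP hn)⟩

theorem fx_del (hP : P.Ok) (hn : NumX P N) (hD : D.Ok P N) (χ : DirichletCharacter ℂ N)
    (hsq : χ ^ 2 = 1) : ∀ c, ∀ p ∈ (D.delX (QS P χ)).BX c, χ (p : ZMod N) = -1 := by
  intro c p hp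
  have hp' : p ∈ D.BX c \ QS P χ := hp
  rw [mem_sdiff] at hp'
  obtain ⟨h1, h2⟩ := hp'
  obtain ⟨g1, g2, g3⟩ := hD.fx.pr c p h1
  rcases chi_pm hsq (unit_of_coprime (g1.coprime_iff_not_dvd.2 g2)) with h | h
  · exfalso
    refine h2 ?_
    rw [QS, mem_filter, mem_range]
    refine ⟨by have := Qsm_leN hP hn hD c h1; omega, g1, ?_, h⟩
    exact lt_of_le_of_lt (Qsm_MM hn hD) g3
  · exact h

end Pool.Agent.Lib.TCF
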