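import Pool.Agent.Lib.MP_7b7e48_nt.TCF.Usl3

/-!
# Module Massx: the spectral lemma for structured numbers
-/

set_option autoImplicit false

open Finset

namespace Pool.Agent.Lib.TCF

open Pool.Agent.Lib.RG hiding RR sig Good
open Pool.Agent.Lib.RH
open Pool.Agent.Lib.MP_45349e_nt.LS (lam)

theorem massx : ∃ κ0 : ℝ, 0 < κ0 ∧ κ0 ≤ 1 / 1000 ∧ ∀ κ : ℝ, 0 < κ → κ ≤ κ0 → ∃ c0 : ℝ, 0 < c0 ∧
    ∃ A : ℕ, ∀ P : Prm, P.Ok → P.kap = κ → P.c ≤ c0 → A ≤ P.C1 → ∃ N0 : ℕ, ∀ (N : ℕ) [NeZero N],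
    N0 ≤ N → NumX P N → ∀ D : Dat, D.Ok P N → Cnt P N D → MassX P N D := by
  obtain ⟨κ0, hκ0, hκ20, hcore⟩ := core_mass
  refine ⟨min κ0 (1 / 1000), by positivity, min_le_right _ _, ?_⟩
  intro κ hκ hκm
  obtain ⟨c1, hc1, N1, hmass⟩ := hcore κ hκ (hκm.trans (min_le_left _ _))
  obtain ⟨c2, hc2, A, hstep⟩ := stepx κ hκ (hκm.trans (min_le_right _ _))
  refine ⟨min c1 c2, by positivity, A, ?_⟩
  intro P hP hPk hPc hPA
  obtain ⟨N2, hst⟩ := hstep P hP hPk (hPc.trans (min_le_right _ _)) hPA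
  refine ⟨N1 + N2, ?_⟩
  intro N _ hN hn D hD hC θ ε h ρ L hθ hε hKε hS hBL H
  have hNum := hn.num
  have hMM : MM P N = 2 ^ m0 P N := rfl
  have hK9 := hNum.K
  have hK1 : 1 ≤ Real.log N := by linarith
  have hN2' : 2 ≤ N := N_two hn
  have hx1 : (1 : ℝ) ≤ N := by exact_mod_cast (by omega : 1 ≤ N)
  have hcastj : ((MM P N : ℕ) : ℝ) = (2 : ℝ) ^ m0 P N := by rw [hMM]; push_cast; ring
  have hcore' : Core N (m0 P N) κ ε θ h L := by
    refine ⟨H.zero, H.sub, ?_, H.inv, ?_⟩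
    · intro i h1 h2
      exact H.big i h1 (by rw [hPk]; exact h2)
    · intro i h1 h2
      exact hst N (by omega) hn D hD hC θ ε h ρ L hθ hε H i h1 h2
  have e1 : (Real.log N) ^ 3 ≤ (2 : ℝ) ^ m0 P N := by
    rw [← hcastj]
    refine le_trans (pow_le_pow_right₀ hK1 ?_) hNum.M1
    have := hP.C1
    omega
  have e2 : (2 : ℝ) ^ m0 P N ≤ (N : ℝ) ^ (κ / 20) := by
    rw [← hcastj]
    refine hNum.M2.trans ?_
    have h2 := hNum.sm
    rw [hPk] at h2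
    calc 2 * (Real.log N) ^ P.C1 ≤ (Real.log N) ^ 1 * (Real.log N) ^ P.C1 := by
          gcongr
          rw [pow_one]
          linarith
      _ = (Real.log N) ^ (1 + P.C1) := by rw [pow_add]
      _ ≤ (Real.log N) ^ (100 * P.C1 + 10000) := pow_le_pow_right₀ hK1 (by omega)
      _ ≤ (N : ℝ) ^ (κ / 1000) := h2
      _ ≤ (N : ℝ) ^ (κ / 20) := Real.rpow_le_rpow_of_exponent_le hx1 (by linarith)
  have e3 : 2 ^ m0 P N ≤ zz P N := by
    rw [← hMM]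
    exact (MM_lt_zz hNum).le
  have e4 : (zz P N : ℝ) ≤ (N : ℝ) ^ c1 :=
    hNum.z1.trans (Real.rpow_le_rpow_of_exponent_le hx1 (hPc.trans (min_le_left _ _)))
  have e5 : (Real.log N) ^ 40 * ε ≤ 1 := by
    refine le_trans ?_ hKε
    exact mul_le_mul_of_nonneg_right (pow_le_pow_right₀ hK1 (by norm_num)) hε
  obtain ⟨χ0, a1, a2, a3⟩ := hmass N (by omega) (m0 P N) (zz P N) e1 e2 e3 e4 θ ε h L hθ hε e5 hS
    (fun i h1 h2 => hBL i ⟨h1, by rw [hPk]; exact h2⟩) hcore'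
  refine ⟨χ0, ?_, ?_, ?_⟩
  · refine a1.trans ?_
    exact mul_le_mul_of_nonneg_right (pow_le_pow_right₀ hK1 (by norm_num)) (by positivity)
  · intro i hi
    refine (a2 i hi.1 (by rw [← hPk]; exact hi.2)).trans ?_
    gcongr
    norm_num
  · intro χ hχ
    exact a3 χ fun i h1 h2 => hχ i ⟨h1, by rw [hPk]; exact h2⟩

end Pool.Agent.Lib.TCF
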