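import Pool.Agent.Lib.MP_7b7e48_nt.TCF.Def
import Pool.Agent.Lib.MP_7b7e48_nt.RG.A7

/-!
# Module Numx (30 minutes): numerical facts for large `N`

PROOF. `num`: `RH.num`. `vm`: `RG.prod_lower` (constant `c`) for the set `PN N (MM P N)` and `z = MM P N`: `VM ≥ c / log (MM P N)`, and
`log (MM P N) ≤ log (2 K ^ C1) = log 2 + C1 log K`, `K = log N`; `c / (log 2 + C1 log K) ≥ 1000 / K` for large `K`. `pw`:
`JJ ≤ 2 K ^ 1000`, `MM ≤ 2 K ^ C1`: the left side is at most `2 ^ 20 K ^ (10000 + 10 C1) ≤ K ^ (100 C1 + 10000) ≤ N ^ (kap / 1000)` (`Num.sm`).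
-/

set_option autoImplicit false

open Finset

namespace Pool.Agent.Lib.TCF

open Pool.Agent.Lib.RG hiding RR sig Good
open Pool.Agent.Lib.RH
open Pool.Agent.Lib.MP_45349e_nt.LS (lam)

theorem numx (P : Prm) (hP : P.Ok) : ∃ N0 : ℕ, ∀ N : ℕ, N0 ≤ N → NumX P N := by
  obtain ⟨N1, hN1⟩ := num P hP
  obtain ⟨c, hc, hlow⟩ := prod_lower
  have hev : ∀ᶠ x : ℝ in Filter.atTop, Real.log 2 + P.C1 * Real.log x ≤ c / 1000 * x := by
    have h1 := Real.isLittleO_log_id_atTop.bound (show (0 : ℝ) < c / (2000 * (P.C1 + 1)) by positivity)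
    filter_upwards [h1, Filter.eventually_ge_atTop 1, Filter.eventually_ge_atTop (2000 * Real.log 2 / c)] with x h2 hx1 hx2
    rw [Real.norm_of_nonneg (Real.log_nonneg hx1), id, Real.norm_of_nonneg (by linarith)] at h2
    rw [div_le_iff₀ hc] at hx2
    have h3 : (P.C1 : ℝ) * Real.log x ≤ P.C1 * (c / (2000 * (P.C1 + 1)) * x) :=
      mul_le_mul_of_nonneg_left h2 (Nat.cast_nonneg _)
    have h4 : (P.C1 : ℝ) * (c / (2000 * (P.C1 + 1)) * x) ≤ c / 2000 * x := by
      have h5 : (P.C1 : ℝ) * (c / (2000 * (P.C1 + 1)) * x) = c / 2000 * x * (P.C1 / (P.C1 + 1)) := by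
        field_simp
      have h6 : (P.C1 : ℝ) / (P.C1 + 1) ≤ 1 := by
        rw [div_le_one (by positivity)]
        linarith
      rw [h5]
      have h7 : 0 ≤ c / 2000 * x := by positivity
      calc c / 2000 * x * (P.C1 / (P.C1 + 1)) ≤ c / 2000 * x * 1 := mul_le_mul_of_nonneg_left h6 h7
        _ = _ := mul_one _
    linarith
  have hev2 : ∀ᶠ N : ℕ in Filter.atTop, Real.log 2 + P.C1 * Real.log (Real.log N) ≤ c / 1000 * Real.log N :=
    (Real.tendsto_log_atTop.comp tendsto_natCast_atTop_atTop).eventually hev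
  obtain ⟨N2, hN2⟩ := Filter.eventually_atTop.1 hev2
  refine ⟨max N1 N2, fun N hN => ?_⟩
  have hn := hN1 N ((le_max_left _ _).trans hN)
  have h2 := hN2 N ((le_max_right _ _).trans hN)
  obtain ⟨K, hKd⟩ : ∃ K : ℝ, K = Real.log N := ⟨_, rfl⟩
  have hK := hn.K
  have hM1 := hn.M1
  have hM2 := hn.M2
  have hJ2 := hn.J2
  have hsm := hn.sm
  rw [← hKd] at hK hM1 hM2 hJ2 hsm h2
  have hK1 : (1 : ℝ) ≤ K := by linarith
  have hK0 : 0 < K := by linarith
  have hMM : 2 ≤ MM P N := by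
    have h3 : (2 : ℝ) ≤ MM P N := by
      calc (2 : ℝ) ≤ K := by linarith
        _ = K ^ 1 := (pow_one K).symm
        _ ≤ K ^ P.C1 := pow_le_pow_right₀ hK1 (by have := hP.C1; omega)
        _ ≤ MM P N := hM1
    exact_mod_cast h3
  refine ⟨hn, ?_, ?_⟩
  · have h3 : c / Real.log (MM P N) ≤ VM P N := by
      unfold VM
      refine hlow (MM P N) hMM (PN N (MM P N)) ?_
      intro r hr
      unfold PN at hr
      obtain ⟨h4, h5, _⟩ := Finset.mem_filter.1 hr
      rw [Finset.mem_range] at h4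
      exact ⟨h5, by omega⟩
    have hMr : (2 : ℝ) ≤ MM P N := by exact_mod_cast hMM
    have hlM : Real.log (MM P N) ≤ Real.log 2 + P.C1 * Real.log K := by
      calc Real.log (MM P N) ≤ Real.log (2 * K ^ P.C1) := Real.log_le_log (by linarith) hM2
        _ = Real.log 2 + P.C1 * Real.log K := by
          rw [Real.log_mul (by norm_num) (by positivity), Real.log_pow]
    have hlM0 : 0 < Real.log (MM P N) := Real.log_pos (by linarith)
    refine le_trans ?_ h3
    rw [← hKd, div_le_div_iff₀ hK0 hlM0]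
    linarith
  · refine le_trans ?_ hsm
    have h3 : (JJ N : ℝ) ^ 10 ≤ (2 * K ^ 1000) ^ 10 := pow_le_pow_left₀ (Nat.cast_nonneg _) hJ2 10
    have h4 : (MM P N : ℝ) ^ 10 ≤ (2 * K ^ P.C1) ^ 10 := pow_le_pow_left₀ (Nat.cast_nonneg _) hM2 10
    have h5 : (2 : ℝ) ^ 20 ≤ K := by
      have : (2 : ℝ) ^ 20 ≤ 10 ^ 9 := by norm_num
      linarith
    have hC := hP.C1
    calc (JJ N : ℝ) ^ 10 * (MM P N : ℝ) ^ 10 ≤ (2 * K ^ 1000) ^ 10 * (2 * K ^ P.C1) ^ 10 :=
          mul_le_mul h3 h4 (by positivity) (by positivity)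
      _ = 2 ^ 20 * K ^ (10000 + 10 * P.C1) := by
          rw [mul_pow, mul_pow, ← pow_mul, ← pow_mul, pow_add, mul_comm P.C1 10]
          norm_num
          ring
      _ ≤ K * K ^ (10000 + 10 * P.C1) := mul_le_mul_of_nonneg_right h5 (by positivity)
      _ = K ^ (10000 + 10 * P.C1 + 1) := by rw [pow_succ, mul_comm]
      _ ≤ K ^ (100 * P.C1 + 10000) := pow_le_pow_right₀ hK1 (by omega)


end Pool.Agent.Lib.TCF
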