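import Pool.Agent.Lib.MP_7b7e48_nt.TCF.Siz
import Pool.Agent.Lib.MP_7b7e48_nt.RG.A2
import Pool.Agent.Lib.MP_7b7e48_nt.RG.A4b

/-!
# Module Sgl (60 minutes): lower bound for `sgm`

PROOF. `RG.LV_char δ` with `δ = min (1 / 400) (e1 / 8)`: `L` with `LV N (χ ·).re L` and `κ N ^ (-δ) ≤ L` (see its statement in `RG/A2.lean`), so `L ≥ N ^ (-2 δ) ≥ N ^ (-1/200)`, `N ^ (-1/50)` for large `N`. `RG.sig_lower` (`c = (χ ·).re`,
`RC_char`; `z = MM P N`: `K ≤ K ^ C1 ≤ MM ≤ N ^ (1/20)`; `T = ⌊N ^ (1 - kap)⌋ ≥ N ^ (9/10)`): `L / (C K) ≤ sig c MM T`, and `sig c MM T = sgm P χ` (the same set of primes: `q ≤ T` iff `q ≤ N ^ (1 - kap)`,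
then `q ≤ N`; `(χ q).re = 1` iff `χ q = 1` as `χ q` is `0` or `± 1`). So `L ≤ C K sgm ≤ K ^ 3 sgm`. Then `sgm N / JJ ^ 2 ≥ N ^ (1 - 2 δ) / (K ^ 3 JJ ^ 2) ≥ N ^ (1 - e1)` because `2 δ ≤ e1 / 4` and `JJ ≤ 2 K ^ 1000` (`Num.J2`, or `ev_log_pow`).
`acx`: the same without `sgm`.
-/

set_option autoImplicit false

open Finset

namespace Pool.Agent.Lib.TCF

open Pool.Agent.Lib.RG hiding RR sig Good
open Pool.Agent.Lib.RH
open Pool.Agent.Lib.MP_45349e_nt.LS (lam)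

private theorem sgl_re {N : ℕ} [NeZero N] (χ : DirichletCharacter ℂ N) (h2 : χ ^ 2 = 1) (q : ℕ) :
    (χ (q : ZMod N)).re = 1 ↔ χ (q : ZMod N) = 1 := by
  constructor
  · intro h
    by_cases hu : IsUnit (q : ZMod N)
    · have h3 : (χ (q : ZMod N)) ^ 2 = 1 := by
        rw [← MulChar.pow_apply' χ two_ne_zero, h2, MulChar.one_apply hu]
      rcases mul_eq_zero.1 (show (χ (q : ZMod N) - 1) * (χ (q : ZMod N) + 1) = 0 by
        linear_combination h3) with h4 | h4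
      · linear_combination h4
      · exfalso
        have h5 : χ (q : ZMod N) = -1 := by linear_combination h4
        rw [h5] at h
        norm_num at h
    · exfalso
      rw [MulChar.map_nonunit χ hu] at h
      norm_num at h
  · intro h
    rw [h]
    simp

private theorem sgl_sum (P : Prm) (hP : P.Ok) {N : ℕ} [NeZero N] (χ : DirichletCharacter ℂ N) (h2 : χ ^ 2 = 1) :
    Pool.Agent.Lib.RG.sig (fun n => (χ (n : ZMod N)).re) (MM P N) ⌊(N : ℝ) ^ (1 - P.kap)⌋₊ = sgm P χ := by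
  have hN1 : (1 : ℝ) ≤ N := by exact_mod_cast NeZero.one_le
  have hT : ⌊(N : ℝ) ^ (1 - P.kap)⌋₊ ≤ N := by
    have h1 : (N : ℝ) ^ (1 - P.kap) ≤ N := by
      calc (N : ℝ) ^ (1 - P.kap) ≤ (N : ℝ) ^ (1 : ℝ) :=
            Real.rpow_le_rpow_of_exponent_le hN1 (by linarith [hP.kap0])
        _ = N := Real.rpow_one _
    exact Nat.floor_le_of_le h1
  unfold Pool.Agent.Lib.RG.sig sgm
  refine Finset.sum_congr ?_ fun _ _ => rfl
  ext q
  unfold QM QS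
  simp only [Finset.mem_filter, Finset.mem_range]
  rw [sgl_re χ h2 q]
  have h0 : (0 : ℝ) ≤ (N : ℝ) ^ (1 - P.kap) := by positivity
  constructor
  · rintro ⟨h1, h3⟩
    have h4 : q ≤ ⌊(N : ℝ) ^ (1 - P.kap)⌋₊ := by omega
    exact ⟨⟨by omega, h3⟩, (Nat.le_floor_iff h0).mp h4⟩
  · rintro ⟨⟨h1, h3⟩, h4⟩
    have h5 := (Nat.le_floor_iff h0).mpr h4
    exact ⟨by omega, h3⟩

private theorem sgl_rpow (t C : ℝ) (ht : 0 < t) : ∀ᶠ N : ℕ in Filter.atTop, C ≤ (N : ℝ) ^ t :=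
  ((tendsto_rpow_atTop ht).comp tendsto_natCast_atTop_atTop).eventually_ge_atTop C

theorem sgl (P : Prm) (hP : P.Ok) (e1 : ℝ) (he : 0 < e1) : ∃ N0 : ℕ, ∀ (N : ℕ) [NeZero N], N0 ≤ N →
    ∀ χ : DirichletCharacter ℂ N, χ ^ 2 = 1 → χ ≠ 1 →
    (∃ L : ℝ, LV N (fun n => (χ (n : ZMod N)).re) L ∧ (N : ℝ) ^ (-(1 / 200) : ℝ) ≤ L ∧
      L ≤ (Real.log N) ^ 3 * sgm P χ) ∧
    (N : ℝ) ^ (1 - e1) ≤ sgm P χ * N / (JJ N : ℝ) ^ 2 := by
  set δ : ℝ := min (1 / 400) (e1 / 8) with hδ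
  have hδ0 : 0 < δ := by
    rw [hδ]
    exact lt_min (by norm_num) (by linarith)
  have hδ1 : δ ≤ 1 / 400 := min_le_left _ _
  have hδ2 : δ ≤ e1 / 8 := min_le_right _ _
  obtain ⟨κ, hκ, hLV⟩ := LV_char δ hδ0
  obtain ⟨C, hC, N1, hsig⟩ := sig_lower
  obtain ⟨N2, hnum⟩ := num P hP
  have E1 := sgl_rpow δ (1 / κ) hδ0
  have E2 := ev_log_ge C
  have E3 := ev_log_pow 2003 (e1 / 2) (by linarith) 4 (by norm_num)
  have E4 := ev_log_pow P.C1 ((1 : ℝ) / 20) (by norm_num) 2 (by norm_num)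
  have E5 := sgl_rpow ((99 : ℝ) / 1000) 2 (by norm_num)
  obtain ⟨N3, hN3⟩ := Filter.eventually_atTop.mp (E1.and (E2.and (E3.and (E4.and E5))))
  refine ⟨max (max N1 N2) N3, ?_⟩
  intro N _ hN χ h2 h1
  have hNN1 : N1 ≤ N := le_trans (le_trans (le_max_left _ _) (le_max_left _ _)) hN
  have hNN2 : N2 ≤ N := le_trans (le_trans (le_max_right _ _) (le_max_left _ _)) hN
  have hNN3 : N3 ≤ N := le_trans (le_max_right _ _) hN
  have hn := hnum N hNN2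
  obtain ⟨f1, f2, f3, f4, f5⟩ := hN3 N hNN3
  have hN2 : 2 ≤ N := N_pos hn
  have hN1 : (1 : ℝ) ≤ N := by exact_mod_cast (by omega : 1 ≤ N)
  have hNpos : (0 : ℝ) < N := by linarith
  have hK := hn.K
  have hK1 : (1 : ℝ) ≤ Real.log N := by
    refine le_trans ?_ hK
    norm_num
  have hK0 : (0 : ℝ) < Real.log N := by linarith
  obtain ⟨L, hL, hLκ⟩ := hLV N hN2 χ h2 h1
  -- lower bound for `L`
  have hL1 : (N : ℝ) ^ (-(2 * δ)) ≤ L := by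
    refine le_trans ?_ hLκ
    have h3 : (N : ℝ) ^ (-(2 * δ)) = (N : ℝ) ^ (-δ) * (N : ℝ) ^ (-δ) := by
      rw [← Real.rpow_add hNpos]
      ring_nf
    have h4 : (N : ℝ) ^ (-δ) ≤ κ := by
      rw [Real.rpow_neg hNpos.le]
      rw [inv_le_comm₀ (by positivity) hκ]
      rw [← one_div]
      exact f1
    rw [h3]
    exact mul_le_mul_of_nonneg_right h4 (by positivity)
  have hL200 : (N : ℝ) ^ (-(1 / 200) : ℝ) ≤ L := by
    refine le_trans (Real.rpow_le_rpow_of_exponent_le hN1 ?_) hL1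
    linarith
  have hL50 : (N : ℝ) ^ (-(1 / 50) : ℝ) ≤ L := by
    refine le_trans (Real.rpow_le_rpow_of_exponent_le hN1 ?_) hL200
    norm_num
  have hL0 : 0 < L := lt_of_lt_of_le (by positivity) hL1
  -- the sum
  have hMM1 : Real.log N ≤ (MM P N : ℝ) := by
    refine le_trans ?_ hn.M1
    calc Real.log N = Real.log N ^ 1 := (pow_one _).symm
      _ ≤ Real.log N ^ P.C1 := pow_le_pow_right₀ hK1 (by have := hP.C1; omega)
  have hMM2 : (MM P N : ℝ) ≤ (N : ℝ) ^ ((1 : ℝ) / 20) := hn.M2.trans f4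
  have hT : (N : ℝ) ^ ((9 : ℝ) / 10) ≤ (⌊(N : ℝ) ^ (1 - P.kap)⌋₊ : ℕ) := by
    have h3 : (N : ℝ) ^ ((999 : ℝ) / 1000) ≤ (N : ℝ) ^ (1 - P.kap) :=
      Real.rpow_le_rpow_of_exponent_le hN1 (by linarith [hP.kap1])
    have h4 : (N : ℝ) ^ ((999 : ℝ) / 1000) = (N : ℝ) ^ ((9 : ℝ) / 10) * (N : ℝ) ^ ((99 : ℝ) / 1000) := by
      rw [← Real.rpow_add hNpos]
      norm_num
    have h5 : (1 : ℝ) ≤ (N : ℝ) ^ ((9 : ℝ) / 10) := Real.one_le_rpow hN1 (by norm_num)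
    have h6 : (N : ℝ) ^ ((9 : ℝ) / 10) * 2 ≤ (N : ℝ) ^ ((9 : ℝ) / 10) * (N : ℝ) ^ ((99 : ℝ) / 1000) :=
      mul_le_mul_of_nonneg_left f5 (by positivity)
    have h7 := Nat.lt_floor_add_one ((N : ℝ) ^ (1 - P.kap))
    linarith
  have hs := hsig N hNN1 _ L (RC_char N hN2 χ h2 h1) hL hL50 (MM P N)
    ⌊(N : ℝ) ^ (1 - P.kap)⌋₊ hMM1 hMM2 hT
  rw [sgl_sum P hP χ h2] at hs
  rw [div_le_iff₀ (by positivity)] at hs
  have hs0 : 0 < sgm P χ := by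
    by_contra hcon
    push Not at hcon
    have : sgm P χ * (C * Real.log N) ≤ 0 := mul_nonpos_of_nonpos_of_nonneg hcon (by positivity)
    linarith
  have hs3 : L ≤ (Real.log N) ^ 3 * sgm P χ := by
    refine hs.trans ?_
    have h3 : C * Real.log N ≤ (Real.log N) ^ 3 := by
      calc C * Real.log N ≤ Real.log N * Real.log N := mul_le_mul_of_nonneg_right f2 hK0.le
        _ = Real.log N ^ 2 := by ring
        _ ≤ Real.log N ^ 3 := pow_le_pow_right₀ hK1 (by norm_num)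
    calc sgm P χ * (C * Real.log N) ≤ sgm P χ * (Real.log N) ^ 3 :=
          mul_le_mul_of_nonneg_left h3 hs0.le
      _ = _ := by ring
  refine ⟨⟨L, hL, hL200, hs3⟩, ?_⟩
  -- the last inequality
  have hJ1 : (1 : ℝ) ≤ (JJ N : ℝ) := le_trans (one_le_pow₀ hK1) hn.J1
  have hJ2 : (JJ N : ℝ) ^ 2 ≤ 4 * Real.log N ^ 2000 := by
    calc (JJ N : ℝ) ^ 2 ≤ (2 * (Real.log N) ^ 1000) ^ 2 := by
          exact pow_le_pow_left₀ (by linarith) hn.J2 2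
      _ = 4 * Real.log N ^ 2000 := by ring
  rw [le_div_iff₀ (by positivity)]
  have h3 : (N : ℝ) ^ (1 - e1) * (JJ N : ℝ) ^ 2 * (Real.log N) ^ 3 ≤ L * N := by
    calc (N : ℝ) ^ (1 - e1) * (JJ N : ℝ) ^ 2 * (Real.log N) ^ 3
        ≤ (N : ℝ) ^ (1 - e1) * (4 * Real.log N ^ 2000) * (Real.log N) ^ 3 := by gcongr
      _ = (N : ℝ) ^ (1 - e1) * (4 * Real.log N ^ 2003) := by ring
      _ ≤ (N : ℝ) ^ (1 - e1) * (N : ℝ) ^ (e1 / 2) := by gcongr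
      _ = (N : ℝ) ^ (1 - e1 / 2) := by
          rw [← Real.rpow_add hNpos]
          ring_nf
      _ ≤ (N : ℝ) ^ (-(2 * δ) + 1) := Real.rpow_le_rpow_of_exponent_le hN1 (by linarith)
      _ = (N : ℝ) ^ (-(2 * δ)) * N := by
          rw [Real.rpow_add hNpos, Real.rpow_one]
      _ ≤ L * N := mul_le_mul_of_nonneg_right hL1 hNpos.le
  have h4 : (N : ℝ) ^ (1 - e1) * (JJ N : ℝ) ^ 2 * (Real.log N) ^ 3 ≤ sgm P χ * N * (Real.log N) ^ 3 := by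
    refine h3.trans ?_
    calc L * N ≤ ((Real.log N) ^ 3 * sgm P χ) * N := mul_le_mul_of_nonneg_right hs3 hNpos.le
      _ = _ := by ring
  exact le_of_mul_le_mul_right h4 (by positivity)

theorem acx (e1 : ℝ) (he : 0 < e1) : ∃ N0 : ℕ, ∀ N : ℕ, N0 ≤ N →
    (N : ℝ) ^ (1 - e1) ≤ (N : ℝ) / (JJ N : ℝ) ^ 2 := by
  have E3 := ev_log_pow 2000 e1 he 4 (by norm_num)
  have E4 := ev_log_ge 1
  obtain ⟨N3, hN3⟩ := Filter.eventually_atTop.mp (E3.and E4)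
  refine ⟨max N3 1, ?_⟩
  intro N hN
  obtain ⟨f1, f2⟩ := hN3 N (le_trans (le_max_left _ _) hN)
  have hN1 : (1 : ℝ) ≤ N := by exact_mod_cast le_trans (le_max_right _ _) hN
  have hNpos : (0 : ℝ) < N := by linarith
  have hKp : (1 : ℝ) ≤ Real.log N ^ 1000 := one_le_pow₀ f2
  have hJ1 : (1 : ℝ) ≤ (JJ N : ℝ) := hKp.trans (Nat.le_ceil _)
  have hJ2 : (JJ N : ℝ) ≤ 2 * Real.log N ^ 1000 := by
    have h1 : (JJ N : ℝ) < Real.log N ^ 1000 + 1 := Nat.ceil_lt_add_one (by linarith)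
    linarith
  have hJ3 : (JJ N : ℝ) ^ 2 ≤ 4 * Real.log N ^ 2000 := by
    calc (JJ N : ℝ) ^ 2 ≤ (2 * (Real.log N) ^ 1000) ^ 2 := by
          exact pow_le_pow_left₀ (by linarith) hJ2 2
      _ = 4 * Real.log N ^ 2000 := by ring
  rw [le_div_iff₀ (by positivity)]
  calc (N : ℝ) ^ (1 - e1) * (JJ N : ℝ) ^ 2 ≤ (N : ℝ) ^ (1 - e1) * (N : ℝ) ^ e1 := by
        refine mul_le_mul_of_nonneg_left (hJ3.trans f1) (by positivity)
    _ = (N : ℝ) ^ (1 : ℝ) := by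
        rw [← Real.rpow_add hNpos]
        ring_nf
    _ = N := Real.rpow_one _

end Pool.Agent.Lib.TCF
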