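import Pool.Agent.Lib.MP_7b7e48_nt.TCF.CA7
import Pool.Agent.Lib.MP_7b7e48_nt.TCF.CA8
import Pool.Agent.Lib.MP_7b7e48_nt.TCF.CB0

/-!
# Module CB3 (75 minutes): field `c3`

PROOF. `A = q t` (coprime to `N`: `q` by hypothesis, the primes of `t` by `FamOk.pr`). `CB0.floor_split`; on an interval `Ioc a' b'` with `A n / N = k0` let `W = (Ico (J2 - k0) (J1 - k0)).erase 0`, `J = J1`. By `PT_le`, `¬ GD`
gives `St > 2 J1 ρ` or `pht (A n) > J1 ρ`. First case: `CA7.core_up` with `CA8.sit_one`. Second: `CA7.core_deg` with `T = J1 ρ ≥ JJ³` and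
`∏_c (#{p ∈ B_c : p ∣ q t} + V_c) ≤ 2 ∏_c (1 + V_c) ≤ 2 K²`: if `t = mrk f`, at most `f c` and `q` (which is in at most one `B_c`) are counted, `(2 + V_c) ≤ 2 (1 + V_c)`. So the number is
`≤ (b - a) (1/JJ² + 2K²/JJ³) + (J1 + 1) (N^(kap/20) + |tp|) ≤ (1/JJ) len` (`q t ≤ N^(1 - kap/2)`; here `A b / N ≤ J1`).
-/

set_option autoImplicit false

open Finset

namespace Pool.Agent.Lib.TCF

open Pool.Agent.Lib.RG hiding RR sig Good
open Pool.Agent.Lib.RH

private theorem cb3_two {r : ℕ} {B : Fin r → Finset ℕ} (hd : ∀ c c', c ≠ c' → Disjoint (B c) (B c'))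
    (q : ℕ) : ∏ c, (1 + (if q ∈ B c then (1 : ℝ) else 0)) ≤ 2 := by
  classical
  have h1 : ∏ c, (1 + (if q ∈ B c then (1 : ℝ) else 0)) = ∏ c, (if q ∈ B c then (2 : ℝ) else 1) := by
    refine Finset.prod_congr rfl fun c _ => ?_
    split_ifs <;> norm_num
  rw [h1, Finset.prod_ite, Finset.prod_const, Finset.prod_const_one, mul_one]
  have h2 : (univ.filter fun c => q ∈ B c).card ≤ 1 := by
    rw [Finset.card_le_one]
    intro c hc c' hc'
    by_contra hne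
    exact Finset.disjoint_left.mp (hd c c' hne) (mem_filter.mp hc).2 (mem_filter.mp hc').2
  calc (2 : ℝ) ^ (univ.filter fun c => q ∈ B c).card ≤ 2 ^ 1 :=
        pow_le_pow_right₀ (by norm_num) h2
    _ = 2 := by norm_num

private theorem cb3_card {P : Prm} {N y0 r : ℕ} {B : Fin r → Finset ℕ} (hF : FamOk P N y0 B) {q t : ℕ}
    (hq : q = 1 ∨ q.Prime) (ht : t = 1 ∨ t ∈ TUP B) (c : Fin r) :
    (((B c).filter fun p => p ∣ q * t).card : ℝ) ≤ 1 + (if q ∈ B c then (1 : ℝ) else 0) := by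
  classical
  have hex : ∃ s : ℕ, ∀ p ∈ B c, p ∣ t → p = s := by
    rcases ht with ht | ht
    · refine ⟨0, fun p hp hpt => ?_⟩
      rw [ht] at hpt
      exact absurd (Nat.dvd_one.mp hpt) (hF.pr c p hp).1.one_lt.ne'
    · unfold TUP at ht
      obtain ⟨f, hf, rfl⟩ := mem_image.mp ht
      rw [Fintype.mem_piFinset] at hf
      refine ⟨f c, fun p hp hpt => ?_⟩
      have hpp := (hF.pr c p hp).1
      obtain ⟨c', _, hc'⟩ := (Prime.dvd_finset_prod_iff hpp.prime _).mp hpt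
      have h1 : p = f c' := (Nat.prime_dvd_prime_iff_eq hpp (hF.pr c' _ (hf c')).1).mp hc'
      by_cases hcc : c = c'
      · rw [hcc]; exact h1
      · exfalso
        refine Finset.disjoint_left.mp (hF.disj c c' hcc) hp ?_
        rw [h1]
        exact hf c'
  obtain ⟨s, hs⟩ := hex
  have h1 : ((B c).filter fun p => p ∣ q * t) ⊆ {s} ∪ ({q} : Finset ℕ).filter (fun x => x ∈ B c) := by
    intro p hp
    rw [mem_filter] at hp
    have hpp := (hF.pr c p hp.1).1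
    rw [mem_union, mem_singleton, mem_filter, mem_singleton]
    rcases (hpp.dvd_mul).mp hp.2 with h2 | h2
    · rcases hq with h3 | h3
      · rw [h3] at h2
        exact absurd (Nat.dvd_one.mp h2) hpp.one_lt.ne'
      · exact Or.inr ⟨(Nat.prime_dvd_prime_iff_eq hpp h3).mp h2, hp.1⟩
    · exact Or.inl (hs p hp.1 h2)
  have h2 : ((({q} : Finset ℕ).filter (fun x => x ∈ B c)).card : ℝ) ≤ (if q ∈ B c then (1 : ℝ) else 0) := by
    by_cases h : q ∈ B c
    · rw [if_pos h]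
      have := (Finset.card_filter_le ({q} : Finset ℕ) (fun x => x ∈ B c))
      rw [card_singleton] at this
      exact_mod_cast this
    · rw [if_neg h]
      have h3 : ({q} : Finset ℕ).filter (fun x => x ∈ B c) = ∅ := by
        rw [Finset.filter_eq_empty_iff]
        intro x hx
        rw [mem_singleton] at hx
        rw [hx]
        exact h
      rw [h3]
      simp
  calc (((B c).filter fun p => p ∣ q * t).card : ℝ)
      ≤ (({s} ∪ ({q} : Finset ℕ).filter (fun x => x ∈ B c)).card : ℝ) := by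
        exact_mod_cast card_le_card h1
    _ ≤ (({s} : Finset ℕ).card : ℝ) + ((({q} : Finset ℕ).filter (fun x => x ∈ B c)).card : ℝ) := by
        exact_mod_cast card_union_le _ _
    _ ≤ _ := by
        rw [card_singleton]
        push_cast
        linarith

private theorem cb3_prod {P : Prm} {N y0 r : ℕ} {B : Fin r → Finset ℕ} (hF : FamOk P N y0 B) {q t : ℕ}
    (hq : q = 1 ∨ q.Prime) (ht : t = 1 ∨ t ∈ TUP B) :
    ∏ c, ((((B c).filter fun p => p ∣ q * t).card : ℝ) + ∑ p ∈ B c, 1 / (p : ℝ)) ≤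
      2 * (Real.log N) ^ 2 := by
  classical
  have hV : ∀ c, 0 ≤ ∑ p ∈ B c, 1 / (p : ℝ) := fun c =>
    Finset.sum_nonneg fun p _ => by positivity
  calc ∏ c, ((((B c).filter fun p => p ∣ q * t).card : ℝ) + ∑ p ∈ B c, 1 / (p : ℝ))
      ≤ ∏ c, ((1 + ∑ p ∈ B c, 1 / (p : ℝ)) * (1 + (if q ∈ B c then (1 : ℝ) else 0))) := by
        refine Finset.prod_le_prod (fun c _ => add_nonneg (Nat.cast_nonneg _) (hV c)) fun c _ => ?_
        have h1 := cb3_card hF hq ht c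
        have h2 := hV c
        have h3 : (0 : ℝ) ≤ (if q ∈ B c then (1 : ℝ) else 0) := by split_ifs <;> norm_num
        nlinarith [mul_nonneg h2 h3]
    _ = (∏ c, (1 + ∑ p ∈ B c, 1 / (p : ℝ))) * ∏ c, (1 + (if q ∈ B c then (1 : ℝ) else 0)) :=
        Finset.prod_mul_distrib
    _ ≤ (Real.log N) ^ 2 * 2 := by
        refine mul_le_mul hF.tot (cb3_two hF.disj q) (Finset.prod_nonneg fun c _ => ?_) (by positivity)
        split_ifs <;> norm_num
    _ = _ := by ring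

private theorem cb3_TUP {P : Prm} {N y0 r : ℕ} {B : Fin r → Finset ℕ} (hF : FamOk P N y0 B) {t : ℕ}
    (ht : t = 1 ∨ t ∈ TUP B) : 1 ≤ t ∧ t.Coprime N := by
  rcases ht with ht | ht
  · rw [ht]; exact ⟨le_refl _, Nat.coprime_one_left N⟩
  · unfold TUP at ht
    obtain ⟨f, hf, rfl⟩ := mem_image.mp ht
    rw [Fintype.mem_piFinset] at hf
    constructor
    · exact Nat.one_le_iff_ne_zero.mpr (Finset.prod_ne_zero_iff.mpr fun c _ => (hF.pr c _ (hf c)).1.ne_zero)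
    · exact Nat.Coprime.prod_left fun c _ =>
        (Nat.Prime.coprime_iff_not_dvd (hF.pr c _ (hf c)).1).mpr (hF.pr c _ (hf c)).2.1

open Classical in
theorem cb3 (P : Prm) (hP : P.Ok) : ∃ N0 : ℕ, ∀ (N : ℕ) [NeZero N], N0 ≤ N → ∀ D : Dat, D.Ok P N →
    ∀ q t : ℕ, (q = 1 ∨ q.Prime) → q.Coprime N → (t = 1 ∨ t ∈ TUP D.BX) →
    ((q * t : ℕ) : ℝ) ≤ (N : ℝ) ^ (1 - P.kap / 2) → ∀ a b : ℕ, a ≤ b → q * t * b ≤ D.J1 * N →
    (((Ioc a b).filter fun n => n.Coprime N ∧ ¬ GD N D ((q * t * n : ℕ) : ZMod N)).card : ℝ) ≤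
      1 / JJ N * len P N (q * t) a b := by
  obtain ⟨N1, hcore⟩ := core_up P hP
  obtain ⟨N2, hnum⟩ := num P hP
  refine ⟨max (max N1 N2) 2, fun N _ hN D hD q t hq hqN ht hA a b hab hb => ?_⟩
  have hN1 : N1 ≤ N := (le_max_left _ _).trans ((le_max_left _ _).trans hN)
  have hN2 : N2 ≤ N := (le_max_right _ _).trans ((le_max_left _ _).trans hN)
  have hN3 : 2 ≤ N := (le_max_right _ _).trans hN
  have nm := hnum N hN2
  have hk0 := hP.kap0
  have hk1 := hP.kap1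
  have hNr : (2 : ℝ) ≤ N := by exact_mod_cast hN3
  have hNr1 : (1 : ℝ) ≤ N := by linarith
  have hNpos : (0 : ℝ) < N := by linarith
  set K := Real.log N with hK
  have hK9 : (10 : ℝ) ^ 9 ≤ K := nm.K
  have hKb : (10 : ℝ) ≤ K := le_trans (by norm_num) hK9
  have hK1 : (1 : ℝ) ≤ K := by linarith
  have hF : FamW P N D.y0 D.BX := hD.fx.toW hK1
  -- sizes
  have hJJK : K ^ 3 ≤ (JJ N : ℝ) := (pow_le_pow_right₀ hK1 (by norm_num)).trans nm.J1
  have hJJ8 : (8 : ℝ) * K ^ 2 ≤ (JJ N : ℝ) := by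
    refine le_trans ?_ hJJK
    have : 0 ≤ K ^ 2 * (K - 8) := mul_nonneg (by positivity) (by linarith)
    nlinarith
  have hJJr : (8 : ℝ) ≤ (JJ N : ℝ) := by
    refine le_trans ?_ hJJ8
    nlinarith
  have hJJpos : (0 : ℝ) < JJ N := by linarith
  have hJJn : 8 ≤ JJ N := by exact_mod_cast hJJr
  have hMMn : 1 ≤ MM P N := by unfold MM; exact Nat.one_le_two_pow
  have hJ21 := hD.j21
  have hJ2 : 1 ≤ D.J2 := by
    have h1 := hD.j0
    have h2 := hD.j02
    have h3 : 1 ≤ 8 * JJ N * MM P N ^ 2 * D.J0 :=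
      Nat.one_le_iff_ne_zero.mpr (by positivity)
    omega
  have hJ1 : 1 ≤ D.J1 := by
    have : 1 ≤ JJ N * D.J2 := Nat.one_le_iff_ne_zero.mpr (by positivity)
    omega
  have hy0J : JJ N ^ 2 * D.J1 ≤ D.y0 := by
    refine le_trans ?_ hD.y1
    have h1 : JJ N ^ 2 ≤ JJ N ^ 4 := Nat.pow_le_pow_right (by omega) (by norm_num)
    have h2 : 1 ≤ MM P N ^ 4 := Nat.one_le_pow _ _ (by omega)
    calc JJ N ^ 2 * D.J1 = JJ N ^ 2 * 1 * D.J1 := by ring
      _ ≤ JJ N ^ 4 * MM P N ^ 4 * D.J1 := by gcongr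
  have hy4 : (JJ N) ^ 4 ≤ D.y0 := by
    refine le_trans ?_ hD.y1
    have h2 : 1 ≤ MM P N ^ 4 := Nat.one_le_pow _ _ (by omega)
    calc (JJ N) ^ 4 = JJ N ^ 4 * 1 * 1 := by ring
      _ ≤ JJ N ^ 4 * MM P N ^ 4 * D.J1 := by gcongr
  have hJy : 2 * D.J1 ≤ D.y0 := by
    refine le_trans ?_ hy0J
    have h1 : 2 ≤ JJ N ^ 2 := by nlinarith
    exact Nat.mul_le_mul_right _ h1
  set x : ℝ := (N : ℝ) ^ (P.kap / 1000) with hx
  have hxpos : 0 < x := Real.rpow_pos_of_pos hNpos _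
  have hxK : K ≤ x := by
    refine le_trans ?_ nm.sm
    exact le_self_pow₀ hK1 (by omega)
  have hx1 : (2 : ℝ) ≤ x := by linarith
  have hJx : (JJ N : ℝ) * ((D.J1 : ℝ) + 1) ≤ x := by
    have h1 : ((JJ N ^ 2 * D.J1 : ℕ) : ℝ) ≤ x := le_trans (by exact_mod_cast hy0J) hD.y2
    push_cast at h1
    have hJr : (1 : ℝ) ≤ D.J1 := by exact_mod_cast hJ1
    have h2 : (JJ N : ℝ) * ((D.J1 : ℝ) + 1) ≤ (JJ N : ℝ) ^ 2 * D.J1 := by
      have h3 : (JJ N : ℝ) * ((D.J1 : ℝ) + 1) ≤ JJ N * (2 * D.J1) := by gcongr; linarith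
      have h4 : (JJ N : ℝ) * (2 * D.J1) ≤ JJ N * (JJ N * D.J1) := by gcongr; linarith
      calc _ ≤ _ := h3
        _ ≤ _ := h4
        _ = _ := by ring
    exact h2.trans h1
  -- the number `A`
  obtain ⟨ht1, htN⟩ := cb3_TUP hD.fx ht
  have hq1 : 1 ≤ q := by
    rcases hq with h | h
    · exact h.ge
    · exact h.one_lt.le
  set A := q * t with hAdef
  have hA1 : 1 ≤ A := Nat.one_le_iff_ne_zero.mpr (by positivity)
  have hAN : A.Coprime N := Nat.Coprime.mul_left hqN htN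
  have hApos : (0 : ℝ) < A := by exact_mod_cast hA1
  have hA2 : (A : ℝ) ≤ (N : ℝ) ^ (2 : ℝ) :=
    hA.trans (Real.rpow_le_rpow_of_exponent_le hNr1 (by linarith))
  have hpr := cb3_prod hD.fx hq ht
  rw [← hAdef] at hpr
  set T : ℝ := (D.J1 : ℝ) * rho D.BX with hT
  have hT3 : (JJ N : ℝ) ^ 3 ≤ T := hD.jx
  have hTpos : 0 < T := lt_of_lt_of_le (by positivity) hT3
  have htp := tp_card_le hF
  -- the parts
  set α : ℝ := 1 / (JJ N : ℝ) ^ 2 + 2 * K ^ 2 / (JJ N : ℝ) ^ 3 with hα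
  set β : ℝ := 2 * (N : ℝ) ^ (P.kap / 20) with hβ
  have hα0 : 0 ≤ α := by positivity
  have hβ0 : 0 ≤ β := by positivity
  set g : ℕ → ℝ := fun n => if (n.Coprime N ∧ ¬ GD N D ((A * n : ℕ) : ZMod N)) then (1 : ℝ) else 0 with hg
  have hpiece : ∀ k0 a' b' : ℕ, a ≤ a' → a' ≤ b' → b' ≤ b → (∀ n ∈ Ioc a' b', A * n / N = k0) →
      ∑ n ∈ Ioc a' b', g n ≤ α * ((b' : ℝ) - a') + β := by
    intro k0 a' b' ha' hab' hb' hk
    have hX0 : 0 ≤ (b' : ℝ) - a' := by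
      rw [sub_nonneg]
      exact_mod_cast hab'
    rcases (Ioc a' b').eq_empty_or_nonempty with hemp | hne
    · rw [hemp, Finset.sum_empty]
      positivity
    obtain ⟨n0, hn0⟩ := hne
    have hk0J : k0 ≤ D.J1 := by
      rw [← hk n0 hn0]
      apply Nat.div_le_of_le_mul
      rw [mem_Ioc] at hn0
      calc A * n0 ≤ A * b := Nat.mul_le_mul_left A (hn0.2.trans hb')
        _ ≤ D.J1 * N := hb
        _ = N * D.J1 := mul_comm _ _
    obtain ⟨u, e, S, hu, hue, _⟩ := sit_one P hF hA1 hAN hA2 hab'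
    set W : Finset ℤ := (Ico ((D.J2 : ℤ) - (k0 : ℤ)) ((D.J1 : ℤ) - (k0 : ℤ))).erase 0 with hW
    have hWc : W.card ≤ D.J1 := by
      refine (Finset.card_erase_le).trans ?_
      rw [Int.card_Ico]
      omega
    have hWk : ∀ k ∈ W, 2 * |k| ≤ (D.y0 : ℤ) ∧ (k ≠ 0 ∨ ∀ c, ∀ p ∈ D.BX c, e p = 0) := by
      intro k hkW
      rw [hW, mem_erase, mem_Ico] at hkW
      refine ⟨?_, Or.inl hkW.1⟩
      have h1 : |k| ≤ (D.J1 : ℤ) := by
        rw [abs_le]
        omega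
      omega
    have hup := hcore N hN1 D.y0 D.nX D.BX A u e (Ioc a' b') (fun _ => 1) ((b' : ℝ) - a') 1 S hu hy4
      hD.y2 W D.J1 hWc (by omega) (by
        refine le_trans ?_ hD.jx
        have : (0 : ℝ) ≤ (JJ N : ℝ) ^ 3 := by positivity
        linarith) hWk
    have hdeg := core_deg P N hN3 hk0 D.y0 D.nX D.BX A u e (Ioc a' b') (fun _ => 1) ((b' : ℝ) - a') 1 S
      hue T hTpos
    have hpt : ∀ n ∈ Ioc a' b', g n ≤ (if 2 * ((D.J1 : ℝ) * rho D.BX) < St D.BX W N A n then (1 : ℝ) else 0) +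
        (if T < pht D.BX (A * n) then (1 : ℝ) else 0) := by
      intro n hn
      rw [hg]
      simp only
      have hr1 : (0 : ℝ) ≤ (if 2 * ((D.J1 : ℝ) * rho D.BX) < St D.BX W N A n then (1 : ℝ) else 0) := by
        split_ifs <;> norm_num
      have hr2 : (0 : ℝ) ≤ (if T < pht D.BX (A * n) then (1 : ℝ) else 0) := by
        split_ifs <;> norm_num
      by_cases hc : n.Coprime N ∧ ¬ GD N D ((A * n : ℕ) : ZMod N)
      · rw [if_pos hc]
        have h1 := PT_le (P := P) (N := N) (D := D) hN3 hF (v := A) (n := n)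
        rw [hk n hn, ← hW] at h1
        have h2 := hc.2
        unfold GD at h2
        rw [not_le, ← hT] at h2
        by_cases h3 : 2 * ((D.J1 : ℝ) * rho D.BX) < St D.BX W N A n
        · rw [if_pos h3]
          linarith
        · rw [not_lt, ← hT] at h3
          have h4 : T < pht D.BX (A * n) := by linarith
          rw [if_pos h4]
          linarith
      · rw [if_neg hc]
        linarith
    have hsum : ∑ n ∈ Ioc a' b', g n ≤
        ∑ n ∈ (Ioc a' b').filter (fun n => 2 * ((D.J1 : ℝ) * rho D.BX) < St D.BX W N A n), (1 : ℝ) +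
        ∑ n ∈ (Ioc a' b').filter (fun n => T < pht D.BX (A * n)), (1 : ℝ) := by
      rw [Finset.sum_filter, Finset.sum_filter, ← Finset.sum_add_distrib]
      exact Finset.sum_le_sum hpt
    have hdeg2 : 1 / T * (((b' : ℝ) - a') * ∏ c, ((((D.BX c).filter fun p => p ∣ A).card : ℝ) +
        ∑ p ∈ D.BX c, 1 / (p : ℝ)) + (tp D.BX).card * 1) ≤
        2 * K ^ 2 / (JJ N : ℝ) ^ 3 * ((b' : ℝ) - a') + (N : ℝ) ^ (P.kap / 20) := by
      have h1 : 1 / T ≤ 1 / (JJ N : ℝ) ^ 3 := one_div_le_one_div_of_le (by positivity) hT3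
      have h2 : ((b' : ℝ) - a') * ∏ c, ((((D.BX c).filter fun p => p ∣ A).card : ℝ) +
        ∑ p ∈ D.BX c, 1 / (p : ℝ)) + (tp D.BX).card * 1 ≤
          ((b' : ℝ) - a') * (2 * K ^ 2) + (N : ℝ) ^ (P.kap / 100) := by
        rw [mul_one]
        exact add_le_add (mul_le_mul_of_nonneg_left hpr hX0) htp
      have h3 : (0 : ℝ) ≤ ((b' : ℝ) - a') * (2 * K ^ 2) + (N : ℝ) ^ (P.kap / 100) := by positivity
      have h4 : (N : ℝ) ^ (P.kap / 100) ≤ (N : ℝ) ^ (P.kap / 20) :=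
        Real.rpow_le_rpow_of_exponent_le hNr1 (by linarith)
      have h5 : (1 : ℝ) ≤ (JJ N : ℝ) ^ 3 := one_le_pow₀ (by linarith)
      have h6 : 1 / (JJ N : ℝ) ^ 3 * (N : ℝ) ^ (P.kap / 100) ≤ (N : ℝ) ^ (P.kap / 20) := by
        refine le_trans ?_ h4
        refine mul_le_of_le_one_left (by positivity) ?_
        rw [div_le_one (by positivity)]
        exact h5
      calc _ ≤ 1 / T * (((b' : ℝ) - a') * (2 * K ^ 2) + (N : ℝ) ^ (P.kap / 100)) :=
            mul_le_mul_of_nonneg_left h2 (by positivity)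
        _ ≤ 1 / (JJ N : ℝ) ^ 3 * (((b' : ℝ) - a') * (2 * K ^ 2) + (N : ℝ) ^ (P.kap / 100)) :=
            mul_le_mul_of_nonneg_right h1 h3
        _ = 2 * K ^ 2 / (JJ N : ℝ) ^ 3 * ((b' : ℝ) - a') +
            1 / (JJ N : ℝ) ^ 3 * (N : ℝ) ^ (P.kap / 100) := by ring
        _ ≤ _ := by linarith
    have hup2 : ((b' : ℝ) - a') / (JJ N : ℝ) ^ 2 + (N : ℝ) ^ (P.kap / 20) * 1 =
        1 / (JJ N : ℝ) ^ 2 * ((b' : ℝ) - a') + (N : ℝ) ^ (P.kap / 20) := by ring
    calc ∑ n ∈ Ioc a' b', g n ≤ _ := hsum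
      _ ≤ (((b' : ℝ) - a') / (JJ N : ℝ) ^ 2 + (N : ℝ) ^ (P.kap / 20) * 1) +
          (2 * K ^ 2 / (JJ N : ℝ) ^ 3 * ((b' : ℝ) - a') + (N : ℝ) ^ (P.kap / 20)) :=
        add_le_add hup (hdeg.trans hdeg2)
      _ = α * ((b' : ℝ) - a') + β := by
        rw [hup2, hα, hβ]
        ring
  have hall := floor_split N A a b (by omega) hab g α β hβ0 hpiece
  have hcard : (((Ioc a b).filter fun n => n.Coprime N ∧ ¬ GD N D ((A * n : ℕ) : ZMod N)).card : ℝ) =
      ∑ n ∈ Ioc a b, g n := by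
    rw [hg]
    simp only
    rw [Finset.sum_boole]
  rw [hcard]
  refine hall.trans ?_
  have hX0 : 0 ≤ (b : ℝ) - a := by
    rw [sub_nonneg]
    exact_mod_cast hab
  have hα1 : α ≤ 1 / JJ N := by
    have h1 : 1 / (JJ N : ℝ) ^ 2 ≤ 1 / 2 * (1 / JJ N) := by
      rw [← mul_div_assoc, mul_one, div_le_div_iff₀ (by positivity) hJJpos]
      nlinarith
    have h2 : 2 * K ^ 2 / (JJ N : ℝ) ^ 3 ≤ 1 / 2 * (1 / JJ N) := by
      rw [← mul_div_assoc, mul_one, div_le_div_iff₀ (by positivity) hJJpos]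
      have h3 : 2 * K ^ 2 * (JJ N : ℝ) ≤ 1 / 2 * (JJ N : ℝ) * JJ N := by
        have h4 : 2 * K ^ 2 ≤ 1 / 2 * (JJ N : ℝ) := by linarith
        exact mul_le_mul_of_nonneg_right h4 hJJpos.le
      have h5 : 1 / 2 * (JJ N : ℝ) * JJ N ≤ 1 / 2 * (JJ N : ℝ) ^ 3 := by
        have : (JJ N : ℝ) ^ 2 * 1 ≤ (JJ N : ℝ) ^ 2 * JJ N :=
          mul_le_mul_of_nonneg_left (by linarith) (by positivity)
        nlinarith
      linarith
    rw [hα]
    linarith
  have hfl : (((A * b / N : ℕ) : ℝ) + 1) ≤ (D.J1 : ℝ) + 1 := by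
    have h1 : A * b / N ≤ D.J1 := by
      apply Nat.div_le_of_le_mul
      rw [mul_comm N]
      exact hb
    have h2 : ((A * b / N : ℕ) : ℝ) ≤ D.J1 := by exact_mod_cast h1
    linarith
  have hx50 : (N : ℝ) ^ (P.kap / 20) = x ^ 50 := by
    rw [hx, ← Real.rpow_natCast, ← Real.rpow_mul hNpos.le]
    congr 1
    push_cast
    ring
  have hx375 : (N : ℝ) ^ (3 * P.kap / 8) = x ^ 375 := by
    rw [hx, ← Real.rpow_natCast, ← Real.rpow_mul hNpos.le]
    congr 1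
    push_cast
    ring
  have hlen : (N : ℝ) ^ (3 * P.kap / 8) ≤ (N : ℝ) ^ (1 - P.kap / 8) / A := by
    rw [le_div_iff₀ hApos]
    calc (N : ℝ) ^ (3 * P.kap / 8) * A ≤ (N : ℝ) ^ (3 * P.kap / 8) * (N : ℝ) ^ (1 - P.kap / 2) :=
          mul_le_mul_of_nonneg_left hA (by positivity)
      _ = (N : ℝ) ^ (1 - P.kap / 8) := by
          rw [← Real.rpow_add hNpos]
          congr 1
          ring
  have herr : (((A * b / N : ℕ) : ℝ) + 1) * β ≤ 1 / JJ N * ((N : ℝ) ^ (1 - P.kap / 8) / A) := by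
    have h1 : (JJ N : ℝ) * (((D.J1 : ℝ) + 1) * β) ≤ x ^ 375 := by
      calc (JJ N : ℝ) * (((D.J1 : ℝ) + 1) * β) = (JJ N * ((D.J1 : ℝ) + 1)) * β := by ring
        _ ≤ x * β := mul_le_mul_of_nonneg_right hJx hβ0
        _ = x * (2 * x ^ 50) := by rw [hβ, hx50]
        _ ≤ x * (x * x ^ 50) := by gcongr
        _ = x ^ 52 := by ring
        _ ≤ x ^ 375 := pow_le_pow_right₀ (by linarith) (by norm_num)
    have h2 : (((A * b / N : ℕ) : ℝ) + 1) * β ≤ ((D.J1 : ℝ) + 1) * β :=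
      mul_le_mul_of_nonneg_right hfl hβ0
    have h3 : ((D.J1 : ℝ) + 1) * β ≤ 1 / JJ N * x ^ 375 := by
      rw [div_mul_eq_mul_div, one_mul, le_div_iff₀ hJJpos]
      linarith
    calc _ ≤ _ := h2
      _ ≤ _ := h3
      _ ≤ _ := by
        rw [← hx375]
        exact mul_le_mul_of_nonneg_left hlen (by positivity)
  unfold len
  rw [mul_add]
  refine add_le_add (mul_le_mul_of_nonneg_right hα1 hX0) ?_
  push_cast at herr ⊢
  exact herr

end Pool.Agent.Lib.TCF
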