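import Pool.Agent.Lib.MP_7b7e48_nt.TCF.CA8
import Pool.Agent.Lib.MP_7b7e48_nt.RG.NOS

/-!
# Module CA9 (90 minutes): the law of the square of a character sum

PROOF. `u p = if p ∣ v then 0 else 1/p`, `e p = if p ∣ v then 1 else 0` (as `CA8.sit_one`). Let `m ≤ N^(kap/20)` be squarefree and coprime to `N`,
`om n = ‖∑_{χ ∈ X} c χ χ(n)‖² = ∑_{χ, ψ} c χ conj(c ψ) χ(n) conj(ψ(n))`. For `χ ≠ ψ` the character `χ ψ⁻¹` modulo `N` is nonprincipal and
`|∑_{n ∈ Ioc a b, n = r (m)} (χ ψ⁻¹)(n)| ≤ 2 PB N` (the `n` are `r₀ + m j`, `j` in an interval, and `(χψ⁻¹)(r₀ + m j) = (χψ⁻¹)(m) (χψ⁻¹)(m⁻¹ r₀ + j)`; Pólya-Vinogradov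
`RG.PV` for an interval; compare `pv_prog` in `RG/RAP1.lean`, `RAP2.lean`, and the files `NOS`, `CHA`, `STR*` for complex characters). For `χ = ψ`:
`#{n ∈ Ioc a b : n = r (m), (n,N) = 1} = (φ(N)/N) (b - a)/m + θ 2^(ω(N))` (Möbius over `d ∣ rad N`, each `#{..} = (b-a)/(d m) + θ`; or a library lemma). So the law holds with
`X = (φ(N)/N) (b - a) ∑ ‖c χ‖²` and an error `≤ 2^(ω(N)) ∑ ‖c‖² + 2 PB N (∑ ‖c χ‖)²`, `(∑ ‖c χ‖)² ≤ |X| ∑ ‖c χ‖²` (Cauchy), `|X| ≤ N^(kap/10)`,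
`PB N ≤ N^(1/2 + kap/100)`, `2^(ω(N)) ≤ N^(kap/100)` for large `N` (`RG.PB_le`, `divisor_bound`).
-/

set_option autoImplicit false

open Finset

namespace Pool.Agent.Lib.TCF

open Pool.Agent.Lib.RG hiding RR sig Good
open Pool.Agent.Lib.RH

/-- the integers of an interval in a residue class form an arithmetic progression -/
private theorem ca9_prog (a b m r : ℕ) (hab : a ≤ b) (hm : 0 < m) :
    ∃ r0 Y : ℕ, |(Y : ℝ) - ((b : ℝ) - a) / m| ≤ 1 ∧ ∀ f : ℕ → ℝ,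
      ∑ n ∈ (Ioc a b).filter (fun n => n % m = r % m), f n = ∑ j ∈ range Y, f (r0 + j * m) := by
  classical
  set t : ℕ := (r + m * (a + 1) - (a + 1)) % m with ht
  have htm : t < m := Nat.mod_lt _ hm
  have hge : a + 1 ≤ m * (a + 1) := Nat.le_mul_of_pos_left _ hm
  set r0 : ℕ := a + 1 + t with hr0
  have hmod : r0 % m = r % m := by
    have h1 : r0 ≡ a + 1 + (r + m * (a + 1) - (a + 1)) [MOD m] :=
      (Nat.ModEq.refl (a + 1)).add (Nat.mod_modEq _ _)
    have h2 : a + 1 + (r + m * (a + 1) - (a + 1)) = r + m * (a + 1) := by omega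
    rw [h2] at h1
    have h3 : r + m * (a + 1) ≡ r [MOD m] := by
      unfold Nat.ModEq
      rw [Nat.add_mul_mod_self_left]
    exact h1.trans h3
  refine ⟨r0, (b + m - r0) / m, ?_, ?_⟩
  · have hmr : (0 : ℝ) < m := by exact_mod_cast hm
    have hle : r0 ≤ b + m := by omega
    have h1 : (((b + m - r0) / m : ℕ) : ℝ) ≤ ((b + m - r0 : ℕ) : ℝ) / m := Nat.cast_div_le
    have h2 : ((b + m - r0 : ℕ) : ℝ) / m < (((b + m - r0) / m : ℕ) : ℝ) + 1 := by
      rw [div_lt_iff₀ hmr]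
      have h3 := Nat.lt_mul_div_succ (b + m - r0) hm
      have h4 : ((b + m - r0 : ℕ) : ℝ) < ((m * ((b + m - r0) / m + 1) : ℕ) : ℝ) := by exact_mod_cast h3
      push_cast at h4 ⊢
      linarith
    have h3 : ((b + m - r0 : ℕ) : ℝ) = (b : ℝ) + m - r0 := by
      rw [Nat.cast_sub hle]
      push_cast
      ring
    have h4 : (a : ℝ) ≤ r0 := by exact_mod_cast (by omega : a ≤ r0)
    have h5 : (r0 : ℝ) ≤ a + m := by exact_mod_cast (by omega : r0 ≤ a + m)
    rw [h3] at h1 h2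
    have h6 : ((b : ℝ) + m - r0) / m ≤ ((b : ℝ) - a) / m + 1 := by
      rw [div_add_one hmr.ne']
      exact div_le_div_of_nonneg_right (by linarith) hmr.le
    have h7 : ((b : ℝ) - a) / m ≤ ((b : ℝ) + m - r0) / m :=
      div_le_div_of_nonneg_right (by linarith) hmr.le
    rw [abs_le]
    constructor <;> linarith
  · intro f
    have himg : (Ioc a b).filter (fun n => n % m = r % m) =
        (range ((b + m - r0) / m)).image (fun j => r0 + j * m) := by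
      ext n
      rw [mem_filter, mem_Ioc, mem_image]
      constructor
      · rintro ⟨⟨h1, h2⟩, h3⟩
        have h4 : r0 ≤ n := by
          by_contra hlt
          push Not at hlt
          have h5 : n ≡ r0 [MOD m] := h3.trans hmod.symm
          have h6 : m ∣ r0 - n := (Nat.modEq_iff_dvd' hlt.le).1 h5
          have h7 := Nat.le_of_dvd (by omega) h6
          omega
        have h5 : r0 ≡ n [MOD m] := hmod.trans h3.symm
        obtain ⟨j, hj⟩ := (Nat.modEq_iff_dvd' h4).1 h5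
        refine ⟨j, ?_, ?_⟩
        · rw [mem_range, Nat.lt_div_iff_mul_lt hm]
          have h8 : j * m = m * j := mul_comm _ _
          omega
        · have h8 : j * m = m * j := mul_comm _ _
          omega
      · rintro ⟨j, hj, rfl⟩
        rw [mem_range, Nat.lt_div_iff_mul_lt hm] at hj
        have h8 : j * m = m * j := mul_comm _ _
        refine ⟨⟨by omega, by omega⟩, ?_⟩
        rw [Nat.add_mul_mod_self_right]
        exact hmod
    rw [himg, sum_image]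
    intro x _ y _ hxy
    have h1 : x * m = y * m := Nat.add_left_cancel hxy
    exact Nat.eq_of_mul_eq_mul_right hm h1

/-- near orthogonality on a progression -/
private theorem ca9_near {N : ℕ} [NeZero N] (h2 : 2 ≤ N) (X : Finset (DirichletCharacter ℂ N))
    (c : DirichletCharacter ℂ N → ℂ) {m : ℕ} (hm : m.Coprime N) (r0 Y : ℕ) :
    |∑ j ∈ range Y, ‖∑ χ ∈ X, c χ * χ ((r0 + j * m : ℕ) : ZMod N)‖ ^ 2 -
      Y * ((N.totient : ℝ) / N) * ∑ χ ∈ X, ‖c χ‖ ^ 2| ≤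
      2 * (((N.divisors.card : ℝ) + X.card * PB N) * ∑ χ ∈ X, ‖c χ‖ ^ 2) := by
  have hu : IsUnit (m : ZMod N) := (ZMod.isUnit_iff_coprime m N).mpr hm
  obtain ⟨u, hu'⟩ := hu
  set b' : ℕ := ((u⁻¹ : (ZMod N)ˣ) : ZMod N).val * r0 + N with hb'
  have hb1 : 1 ≤ b' := by omega
  set c' : DirichletCharacter ℂ N → ℂ := fun χ => c χ * χ (m : ZMod N) with hc'
  set g : ℕ → ℝ := fun k => ‖∑ χ ∈ X, c' χ * χ (k : ZMod N)‖ ^ 2 with hg
  have hS : ∑ χ ∈ X, ‖c' χ‖ ^ 2 = ∑ χ ∈ X, ‖c χ‖ ^ 2 := by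
    refine sum_congr rfl fun χ _ => ?_
    rw [hc']
    simp only
    rw [norm_mul, ← hu', norm_chi_unit, mul_one]
  have h1 : ∀ j : ℕ, ‖∑ χ ∈ X, c χ * χ ((r0 + j * m : ℕ) : ZMod N)‖ ^ 2 = g (b' + j) := by
    intro j
    have h3 : ((r0 + j * m : ℕ) : ZMod N) = (m : ZMod N) * ((b' + j : ℕ) : ZMod N) := by
      rw [hb']
      push_cast
      rw [ZMod.natCast_zmod_val, ZMod.natCast_self, add_zero, mul_add, ← hu', ← mul_assoc,
        Units.mul_inv, one_mul]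
      ring
    rw [hg]
    simp only
    rw [h3]
    congr 2
    refine sum_congr rfl fun χ _ => ?_
    rw [hc', map_mul, mul_assoc]
  have e1 : ∀ n : ℕ, 1 ≤ n → Finset.Icc 1 (n - 1) = Finset.Ico 1 n := by
    intro n hn
    ext i
    rw [Finset.mem_Icc, Finset.mem_Ico]
    omega
  have h4 : ∑ j ∈ range Y, g (b' + j) =
      ∑ i ∈ Finset.Icc 1 (b' + Y - 1), g i - ∑ i ∈ Finset.Icc 1 (b' - 1), g i := by
    rw [e1 (b' + Y) (by omega), e1 b' hb1, ← Finset.sum_Ico_consecutive g hb1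
      (show b' ≤ b' + Y by omega), Finset.sum_Ico_eq_sum_range g b' (b' + Y),
      Nat.add_sub_cancel_left, add_sub_cancel_left]
  have h5 := nearOrth2 h2 X c' ((b' + Y - 1 : ℕ) : ℝ) (Nat.cast_nonneg _)
  have h6 := nearOrth2 h2 X c' ((b' - 1 : ℕ) : ℝ) (Nat.cast_nonneg _)
  rw [Nat.floor_natCast, hS] at h5 h6
  rw [sum_congr rfl fun j _ => h1 j, h4]
  have h7 : ((b' + Y - 1 : ℕ) : ℝ) = ((b' - 1 : ℕ) : ℝ) + Y := by
    rw [← Nat.cast_add]
    congr 1
    omega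
  rw [h7] at h5
  rw [abs_le] at h5 h6 ⊢
  constructor
  · nlinarith [h5.1, h6.2]
  · nlinarith [h5.2, h6.1]

private theorem ca9_num (κ : ℝ) (hκ : 0 < κ) : ∃ N0 : ℕ, ∀ N : ℕ, N0 ≤ N → 2 ≤ N ∧
    2 * ((N.divisors.card : ℝ) + (N : ℝ) ^ (κ / 10) * PB N) + 1 ≤ (N : ℝ) ^ (1 / 2 + κ / 5) := by
  obtain ⟨C, hC, hPB⟩ := PB_le (κ / 20) (by positivity)
  have t1 : Filter.Tendsto (fun N : ℕ => (N : ℝ) ^ (κ / 20)) Filter.atTop Filter.atTop :=
    (tendsto_rpow_atTop (by positivity)).comp tendsto_natCast_atTop_atTop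
  obtain ⟨N0, h0⟩ := Filter.eventually_atTop.mp
    ((t1.eventually_ge_atTop (4 * C + 1)).and (Filter.eventually_ge_atTop 2))
  refine ⟨N0, fun N hN => ?_⟩
  obtain ⟨h1, h2⟩ := h0 N hN
  obtain ⟨h3, h4⟩ := hPB N h2
  refine ⟨h2, ?_⟩
  have hN1 : (1 : ℝ) ≤ N := by exact_mod_cast (by omega : 1 ≤ N)
  have hNp : (0 : ℝ) < N := by linarith
  set E : ℝ := (N : ℝ) ^ (1 / 2 + 3 * κ / 20) with hE
  have hE1 : 1 ≤ E := Real.one_le_rpow hN1 (by positivity)
  have h5 : (N : ℝ) ^ (κ / 20) ≤ E := Real.rpow_le_rpow_of_exponent_le hN1 (by linarith)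
  have h6 : (N : ℝ) ^ (κ / 10) * PB N ≤ C * E := by
    calc (N : ℝ) ^ (κ / 10) * PB N ≤ (N : ℝ) ^ (κ / 10) * (C * (N : ℝ) ^ (1 / 2 + κ / 20)) := by
          gcongr
      _ = C * ((N : ℝ) ^ (κ / 10) * (N : ℝ) ^ (1 / 2 + κ / 20)) := by ring
      _ = C * E := by
          rw [← Real.rpow_add hNp, hE]
          congr 2
          ring
  have h7 : (N.divisors.card : ℝ) ≤ C * E := h4.trans (mul_le_mul_of_nonneg_left h5 hC.le)
  have h8 : (N : ℝ) ^ (1 / 2 + κ / 5) = (N : ℝ) ^ (κ / 20) * E := by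
    rw [hE, ← Real.rpow_add hNp]
    congr 1
    ring
  rw [h8]
  have h9 : (4 * C + 1) * E ≤ (N : ℝ) ^ (κ / 20) * E := mul_le_mul_of_nonneg_right h1 (by linarith)
  linarith

theorem sit_chi (P : Prm) (hP : P.Ok) : ∃ N0 : ℕ, ∀ (N : ℕ) [NeZero N], N0 ≤ N →
    ∀ (X : Finset (DirichletCharacter ℂ N)) (c : DirichletCharacter ℂ N → ℂ),
    (X.card : ℝ) ≤ (N : ℝ) ^ (P.kap / 10) → ∀ (y0 r : ℕ) (B : Fin r → Finset ℕ), FamW P N y0 B →
    ∀ v : ℕ, 1 ≤ v → v.Coprime N → (v : ℝ) ≤ (N : ℝ) ^ (2 : ℝ) → ∀ a b : ℕ, a ≤ b →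
    ∃ u e : ℕ → ℝ, Sit P N y0 B v u e (Ioc a b) (fun n => ‖∑ χ ∈ X, c χ * χ (n : ZMod N)‖ ^ 2)
        ((Nat.totient N : ℝ) / N * ((b : ℝ) - a) * ∑ χ ∈ X, ‖c χ‖ ^ 2)
        ((N : ℝ) ^ (1 / 2 + P.kap / 5) * ∑ χ ∈ X, ‖c χ‖ ^ 2) ∧
      (∀ k, ∀ p ∈ B k, 0 ≤ u p ∧ u p ≤ 1 / p) ∧ (∀ k, ∀ p ∈ B k, ¬ p ∣ v → u p + e p = 1 / p) := by
  obtain ⟨N0, hnum⟩ := ca9_num P.kap hP.kap0
  refine ⟨N0, ?_⟩
  intro N _ hN X c hX y0 r B hF v hv hvN hvle a b hab
  classical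
  obtain ⟨hN2, hE⟩ := hnum N hN
  have hNp : (0 : ℝ) < N := by exact_mod_cast (by omega : 0 < N)
  set S : ℝ := ∑ χ ∈ X, ‖c χ‖ ^ 2 with hS
  have hS0 : 0 ≤ S := sum_nonneg fun _ _ => by positivity
  have hPP : ∀ p ∈ PP N (MM P N) B, p.Prime ∧ ¬ p ∣ N := by
    intro p hp
    rw [PP, mem_union] at hp
    rcases hp with hp | hp
    · rw [PN, mem_filter] at hp
      exact hp.2
    · rw [prs, mem_biUnion] at hp
      obtain ⟨k, -, hk⟩ := hp
      exact ⟨(hF.pr k p hk).1, (hF.pr k p hk).2.1⟩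
  have habr : (0 : ℝ) ≤ (b : ℝ) - a := by
    have : (a : ℝ) ≤ b := by exact_mod_cast hab
    linarith
  refine ⟨fun p => if p ∣ v then 0 else 1 / (p : ℝ), fun p => if p ∣ v then 1 else 0, ?_, ?_, ?_⟩
  · refine ⟨hF, hv, hvN, hvle, ?_, ?_, ?_, ?_, ?_⟩
    · refine ⟨fun p hp => (hPP p hp).1, ?_, ?_, ?_⟩
      · intro p hp
        have h1 : p ∣ v := (mem_filter.mp hp).2
        simp [h1]
      · intro p hp hp4
        have h1 : ¬ p ∣ v := fun h => hp4 (mem_filter.mpr ⟨hp, h⟩)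
        have hp0 : (0 : ℝ) < p := by exact_mod_cast (hPP p hp).1.pos
        simp only [if_neg h1, abs_zero, add_zero]
        refine ⟨?_, by positivity, by positivity⟩
        rw [abs_of_nonneg (by positivity)]
        gcongr
        norm_num
      · intro p _
        by_cases h1 : p ∣ v
        · simp [h1]
        · simp [h1]
    · positivity
    · positivity
    · intro n _
      positivity
    · intro m hm hp _ d
      have hm0 : 0 < m := Nat.pos_of_ne_zero hm.ne_zero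
      have hmN : m.Coprime N := by
        refine Nat.coprime_of_dvd fun p hpp hpm hpN => ?_
        exact (hPP p (hp p hpp hpm).1).2 hpN
      have hprod : ∏ p ∈ m.primeFactors, ((if p ∣ v then (0 : ℝ) else 1 / (p : ℝ)) +
          if p ∣ d then (if p ∣ v then (1 : ℝ) else 0) else 0) = 1 / (m : ℝ) := by
        rw [← prod_inv_sqf m hm]
        refine prod_congr rfl fun p hpm => ?_
        have h2 := hp p (Nat.prime_of_mem_primeFactors hpm) (Nat.dvd_of_mem_primeFactors hpm)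
        have h3 : ¬ p ∣ v := fun h => h2.2 (mem_filter.mpr ⟨h2.1, h⟩)
        rw [if_neg h3, if_neg h3]
        split_ifs <;> ring
      rw [hprod]
      obtain ⟨r0, Y, hY, hsum⟩ := ca9_prog a b m d hab hm0
      rw [hsum]
      have h1 := ca9_near hN2 X c hmN r0 Y
      rw [← hS] at h1
      set T : ℝ := ∑ j ∈ range Y, ‖∑ χ ∈ X, c χ * χ ((r0 + j * m : ℕ) : ZMod N)‖ ^ 2 with hT
      have hφ0 : 0 ≤ (N.totient : ℝ) / N := by positivity
      have hφ1 : (N.totient : ℝ) / N ≤ 1 := by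
        rw [div_le_one hNp]
        exact_mod_cast Nat.totient_le N
      have hPB0 : 0 ≤ PB N := by
        have h3 : 0 ≤ Real.log N := Real.log_natCast_nonneg N
        unfold PB
        positivity
      have h2 : |(Y : ℝ) * ((N.totient : ℝ) / N) * S -
          (N.totient : ℝ) / N * ((b : ℝ) - a) * S * (1 / (m : ℝ))| ≤ 1 * S := by
        have h3 : (Y : ℝ) * ((N.totient : ℝ) / N) * S -
            (N.totient : ℝ) / N * ((b : ℝ) - a) * S * (1 / (m : ℝ)) =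
            (((Y : ℝ) - ((b : ℝ) - a) / m) * ((N.totient : ℝ) / N)) * S := by ring
        rw [h3, abs_mul, abs_of_nonneg hS0]
        refine mul_le_mul_of_nonneg_right ?_ hS0
        rw [abs_mul, abs_of_nonneg hφ0]
        exact mul_le_one₀ hY hφ0 hφ1
      have h3 : 2 * (((N.divisors.card : ℝ) + X.card * PB N) * S) + 1 * S ≤
          (N : ℝ) ^ (1 / 2 + P.kap / 5) * S := by
        have h4 : (X.card : ℝ) * PB N ≤ (N : ℝ) ^ (P.kap / 10) * PB N :=
          mul_le_mul_of_nonneg_right hX hPB0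
        have h5 : 2 * ((N.divisors.card : ℝ) + X.card * PB N) + 1 ≤ (N : ℝ) ^ (1 / 2 + P.kap / 5) := by
          linarith
        have h6 := mul_le_mul_of_nonneg_right h5 hS0
        linarith
      have h4 := abs_sub_le T ((Y : ℝ) * ((N.totient : ℝ) / N) * S)
        ((N.totient : ℝ) / N * ((b : ℝ) - a) * S * (1 / (m : ℝ)))
      linarith
  · intro k p hp
    have hp0 : (0 : ℝ) < p := by exact_mod_cast (hF.pr k p hp).1.pos
    by_cases h1 : p ∣ v
    · simp only [if_pos h1]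
      exact ⟨le_rfl, by positivity⟩
    · simp only [if_neg h1]
      exact ⟨by positivity, le_rfl⟩
  · intro k p _ h1
    simp only [if_neg h1]
    ring

end Pool.Agent.Lib.TCF
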