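import Pool.Agent.Lib.MP_7b7e48_nt.TCF.CA7
import Pool.Agent.Lib.MP_7b7e48_nt.TCF.CA9
import Pool.Agent.Lib.MP_7b7e48_nt.TCF.CB0

/-!
# Module CB4 (90 minutes): field `c4`

PROOF. `A = u m`, coprime to `N`. `om n = ‖∑ c χ χ(n)‖²` is `0` for `(n, N) > 1`. The condition is violated if `¬ GD` or `A n ≤ J2 N`. (a) `A n ≤ J2 N ≤ J1 N/JJ ≤ 16 A y/JJ` gives `n ≤ 16 y/JJ`: by the law with modulus `1`
(`CA9.sit_chi` on `Ioc 0 ⌊16 y/JJ⌋`, `HasLaw` with `m = 1`) this mass is `≤ (16 y/JJ + N^(1/2 + kap/5)) S`, `S = ∑ ‖c χ‖²`. (b) `¬ GD`: as `CB3` with `CA9.sit_chi` on the intervals `Ioc a' b'` of `CB0.floor_split`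
(at most `J1 + 1` of them): `core_up` and `core_deg` (`T = J1 ρ ≥ JJ³`, `∏_c (#{p ∈ B_c : p ∣ u m} + V_c) ≤ 4 ∏_c (1 + V_c) ≤ 4 K²`, as at most two further primes divide `u`) give
`≤ y S (1/JJ² + 4K²/JJ³) + 2 (J1 + 1) N^(kap/20) N^(1/2 + kap/5) S` (`|tp| ≤ N^(kap/100)`). Finally `y ≥ J1 N/(16 u m) ≥ N/(32 N^(1/2 - 2 kap) N^(kap/100)) ≥ N^(1/2 + kap)`, `J1 ≤ y0 ≤ N^(kap/1000)`: all `N^(1/2 + ..)` terms are
`≤ y/JJ`. Total `≤ (K²/JJ) y S`.
-/

set_option autoImplicit false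

open Finset

namespace Pool.Agent.Lib.TCF

open Pool.Agent.Lib.RG hiding RR sig Good
open Pool.Agent.Lib.RH

open Classical in
/-- the number of structure primes which divide `u * m` -/
private theorem cb4_prod {P : Prm} {N y0 n : ℕ} {B : Fin n → Finset ℕ} (hF : FamW P N y0 B)
    {f : Fin n → ℕ} (hf : f ∈ tp B) {u : ℕ}
    (hu : u.Prime ∨ ∃ l l' : ℕ, l.Prime ∧ l'.Prime ∧ u = l * l') :
    ∏ c, ((((B c).filter fun p => p ∣ u * mrk f).card : ℝ) + ∑ p ∈ B c, 1 / (p : ℝ)) ≤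
      4 * (Real.log N) ^ 2 := by
  have hu0 : u ≠ 0 := by
    rcases hu with h | ⟨l, l', h1, h2, h3⟩
    · exact h.ne_zero
    · rw [h3]
      exact mul_ne_zero h1.ne_zero h2.ne_zero
  obtain ⟨a, ha⟩ : ∃ a : Fin n → ℕ, ∀ c, a c = ((B c).filter fun p => p ∣ u).card :=
    ⟨fun c => _, fun c => rfl⟩
  have hfB : ∀ c, f c ∈ B c := fun c => Fintype.mem_piFinset.1 hf c
  have hcard : ∀ c, ((B c).filter fun p => p ∣ u * mrk f).card ≤ a c + 1 := by
    intro c
    rw [ha c]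
    refine (card_le_card ?_).trans (card_insert_le (f c) _)
    intro p hp
    obtain ⟨hp1, hp2⟩ := mem_filter.1 hp
    have hpp := (hF.pr c p hp1).1
    rw [mem_insert, mem_filter]
    rcases (Nat.Prime.dvd_mul hpp).1 hp2 with h | h
    · exact Or.inr ⟨hp1, h⟩
    · left
      obtain ⟨c', hc'⟩ := ((mrk_sq hF hf).2.2 p hpp).1 h
      by_cases hcc : c = c'
      · rw [hcc]
        exact hc'
      · exact absurd (hfB c') (by
          rw [← hc']
          exact disjoint_left.1 (hF.disj c c' hcc) hp1)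
  have hpf : u.primeFactors.card ≤ 2 := by
    rcases hu with h | ⟨l, l', h1, h2, h3⟩
    · rw [h.primeFactors, card_singleton]
      norm_num
    · rw [h3, Nat.primeFactors_mul h1.ne_zero h2.ne_zero, h1.primeFactors, h2.primeFactors]
      refine (card_union_le _ _).trans ?_
      rw [card_singleton, card_singleton]
  have hsum : ∑ c, a c ≤ 2 := by
    rw [sum_congr rfl fun c _ => ha c]
    rw [← card_biUnion fun c _ c' _ hcc => disjoint_filter_filter (hF.disj c c' hcc)]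
    refine (card_le_card ?_).trans hpf
    intro p hp
    obtain ⟨c, _, hc⟩ := mem_biUnion.1 hp
    obtain ⟨h1, h2⟩ := mem_filter.1 hc
    exact Nat.mem_primeFactors.2 ⟨(hF.pr c p h1).1, h2, hu0⟩
  have hV0 : ∀ c, 0 ≤ ∑ p ∈ B c, 1 / (p : ℝ) := fun c => sum_nonneg fun p _ => by positivity
  have hone : ∀ c ∈ (univ : Finset (Fin n)),
      ((((B c).filter fun p => p ∣ u * mrk f).card : ℝ) + ∑ p ∈ B c, 1 / (p : ℝ)) ≤
        (1 + ∑ p ∈ B c, 1 / (p : ℝ)) * 2 ^ (a c) := by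
    intro c _
    have h1 : (((B c).filter fun p => p ∣ u * mrk f).card : ℝ) ≤ (a c : ℝ) + 1 := by
      exact_mod_cast hcard c
    have h2 : (a c : ℝ) + 1 ≤ 2 ^ (a c) := by exact_mod_cast (Nat.lt_two_pow_self : a c < 2 ^ a c)
    have h3 := hV0 c
    have h4 : (0 : ℝ) ≤ a c := Nat.cast_nonneg _
    calc (((B c).filter fun p => p ∣ u * mrk f).card : ℝ) + ∑ p ∈ B c, 1 / (p : ℝ) ≤
          ((a c : ℝ) + 1) + (∑ p ∈ B c, 1 / (p : ℝ)) * ((a c : ℝ) + 1) := by nlinarith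
      _ = (1 + ∑ p ∈ B c, 1 / (p : ℝ)) * ((a c : ℝ) + 1) := by ring
      _ ≤ _ := mul_le_mul_of_nonneg_left h2 (by linarith)
  have h0 : ∀ c ∈ (univ : Finset (Fin n)),
      0 ≤ ((((B c).filter fun p => p ∣ u * mrk f).card : ℝ) + ∑ p ∈ B c, 1 / (p : ℝ)) :=
    fun c _ => add_nonneg (Nat.cast_nonneg _) (hV0 c)
  have hp0 : 0 ≤ ∏ c, (1 + ∑ p ∈ B c, 1 / (p : ℝ)) :=
    prod_nonneg fun c _ => by linarith [hV0 c]
  calc ∏ c, ((((B c).filter fun p => p ∣ u * mrk f).card : ℝ) + ∑ p ∈ B c, 1 / (p : ℝ)) ≤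
        ∏ c, ((1 + ∑ p ∈ B c, 1 / (p : ℝ)) * 2 ^ (a c)) := prod_le_prod h0 hone
    _ = (∏ c, (1 + ∑ p ∈ B c, 1 / (p : ℝ))) * 2 ^ (∑ c, a c) := by
        rw [prod_mul_distrib, prod_pow_eq_pow_sum]
    _ ≤ (∏ c, (1 + ∑ p ∈ B c, 1 / (p : ℝ))) * 2 ^ 2 :=
        mul_le_mul_of_nonneg_left (pow_le_pow_right₀ (by norm_num) hsum) hp0
    _ ≤ (Real.log N) ^ 2 * 2 ^ 2 := mul_le_mul_of_nonneg_right hF.tot (by norm_num)
    _ = 4 * (Real.log N) ^ 2 := by ring

open Classical in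
private theorem cb4_mass {P : Prm} {N y0 r : ℕ} {B : Fin r → Finset ℕ} {v : ℕ} {u e : ℕ → ℝ}
    {I : Finset ℕ} {om : ℕ → ℝ} {X Err : ℝ} (S : Sit P N y0 B v u e I om X Err)
    (hN : 1 ≤ (N : ℝ) ^ (P.kap / 20)) : ∑ n ∈ I, om n ≤ X + Err := by
  have h1 := S.law 1 squarefree_one (fun p hp h => absurd (Nat.dvd_one.1 h) hp.one_lt.ne')
    (Nat.le_floor (by push_cast; exact hN)) 0
  have h2 : I.filter (fun n => n % 1 = 0 % 1) = I :=
    filter_true_of_mem fun n _ => by rw [Nat.mod_one]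
  rw [h2, Nat.primeFactors_one, prod_empty, mul_one] at h1
  linarith [le_abs_self (∑ n ∈ I, om n - X)]

/-- the final comparison -/
private theorem cb4_num {K J y J1 q h R S : ℝ} (hK : 5 ≤ K) (hJK : K ≤ J) (hJq : J ≤ q)
    (hq : 160 ≤ q) (hJ1 : 1 ≤ J1) (hJ1q : J1 ≤ q) (hh : 0 < h) (hR : R = h * q ^ 200)
    (hy : h * q ^ 1990 ≤ 32 * y) (hS : 0 ≤ S) :
    (16 * y / J * S + R * S) + ((S * (1 / J ^ 2 + 4 * K ^ 2 / J ^ 3)) * y +
      (J1 + 1) * (2 * q ^ 50 * R * S)) ≤ K ^ 2 / J * y * S := by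
  have hJ0 : 0 < J := by linarith
  have hq1 : 1 ≤ q := by linarith
  have hq0 : 0 < q := by linarith
  have hy0 : 0 ≤ y := by
    have : 0 ≤ h * q ^ 1990 := by positivity
    linarith
  have hR0 : 0 ≤ R := by
    rw [hR]
    positivity
  have h1 : J * (R + (J1 + 1) * (2 * q ^ 50 * R)) ≤ y := by
    have h2 : R + (J1 + 1) * (2 * q ^ 50 * R) ≤ 5 * q * (q ^ 50 * R) := by
      have h3 : R ≤ q ^ 50 * R := le_mul_of_one_le_left hR0 (one_le_pow₀ hq1)
      have h4 : 0 ≤ q ^ 50 * R := by positivity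
      nlinarith
    have h5 : (160 : ℝ) ≤ q ^ 1738 := by
      calc (160 : ℝ) ≤ q := hq
        _ ≤ q ^ 1738 := le_self_pow₀ hq1 (by norm_num)
    have h6 : 160 * (h * q ^ 252) ≤ h * q ^ 1990 := by
      calc 160 * (h * q ^ 252) ≤ q ^ 1738 * (h * q ^ 252) :=
            mul_le_mul_of_nonneg_right h5 (by positivity)
        _ = h * q ^ 1990 := by ring
    calc J * (R + (J1 + 1) * (2 * q ^ 50 * R)) ≤ q * (5 * q * (q ^ 50 * R)) :=
          mul_le_mul hJq h2 (by positivity) hq0.le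
      _ = 5 * (h * q ^ 252) := by
          rw [hR]
          ring
      _ ≤ y := by linarith
  have h7 : R + (J1 + 1) * (2 * q ^ 50 * R) ≤ y / J := by
    rw [le_div_iff₀ hJ0]
    linarith
  have h8 : y / J ^ 2 ≤ y / J := div_le_div_of_nonneg_left hy0 hJ0 (le_self_pow₀ (by linarith)
    (by norm_num))
  have h9 : 4 * K ^ 2 / J ^ 3 * y ≤ 4 * (y / J) := by
    have h10 : K ^ 2 ≤ J ^ 2 := pow_le_pow_left₀ (by linarith) hJK 2
    calc 4 * K ^ 2 / J ^ 3 * y = 4 * (K ^ 2 * (y / J ^ 3)) := by ring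
      _ ≤ 4 * (J ^ 2 * (y / J ^ 3)) := by
          refine mul_le_mul_of_nonneg_left (mul_le_mul_of_nonneg_right h10 (by positivity))
            (by norm_num)
      _ = 4 * (y / J) := by
          field_simp
  have h11 : 16 * y / J + (y / J ^ 2 + 4 * K ^ 2 / J ^ 3 * y) +
      (R + (J1 + 1) * (2 * q ^ 50 * R)) ≤ K ^ 2 / J * y := by
    have h12 : 16 * y / J = 16 * (y / J) := by ring
    have h13 : 22 * (y / J) ≤ K ^ 2 * (y / J) :=
      mul_le_mul_of_nonneg_right (by nlinarith) (by positivity)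
    have h14 : K ^ 2 / J * y = K ^ 2 * (y / J) := by ring
    rw [h12, h14]
    linarith
  calc (16 * y / J * S + R * S) + ((S * (1 / J ^ 2 + 4 * K ^ 2 / J ^ 3)) * y +
        (J1 + 1) * (2 * q ^ 50 * R * S)) = (16 * y / J + (y / J ^ 2 + 4 * K ^ 2 / J ^ 3 * y) +
        (R + (J1 + 1) * (2 * q ^ 50 * R))) * S := by ring
    _ ≤ K ^ 2 / J * y * S := mul_le_mul_of_nonneg_right h11 hS

open Classical in
theorem cb4 (P : Prm) (hP : P.Ok) : ∃ N0 : ℕ, ∀ (N : ℕ) [NeZero N], N0 ≤ N → ∀ D : Dat, D.Ok P N →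
    ∀ X : Finset (DirichletCharacter ℂ N), (X.card : ℝ) ≤ (N : ℝ) ^ (P.kap / 10) →
    ∀ c : DirichletCharacter ℂ N → ℂ, ∀ u : ℕ, (u.Prime ∨ ∃ l l' : ℕ, l.Prime ∧ l'.Prime ∧ u = l * l') →
    u.Coprime N → (u : ℝ) ≤ 2 * HH N P.kap → ∀ m ∈ TUP D.BX, ∀ y : ℕ, u * m * y ≤ D.J1 * N →
    D.J1 * N ≤ 16 * (u * m * y) →
    ∑ n ∈ (Icc 1 y).filter (fun n => n.Coprime N ∧
      ¬ (GD N D ((u * m * n : ℕ) : ZMod N) ∧ D.J2 * N < u * m * n)),
      ‖∑ χ ∈ X, c χ * χ (n : ZMod N)‖ ^ 2 ≤ (Real.log N) ^ 2 / JJ N * y * ∑ χ ∈ X, ‖c χ‖ ^ 2 := by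
  obtain ⟨N1, hN1⟩ := sit_chi P hP
  obtain ⟨N2, hN2⟩ := core_up P hP
  obtain ⟨N3, hN3⟩ := (((Real.tendsto_log_atTop.comp tendsto_natCast_atTop_atTop).eventually
    (Filter.eventually_ge_atTop (5 : ℝ))).and
    (((tendsto_rpow_atTop (show 0 < P.kap / 1000 by linarith [hP.kap0])).comp
      tendsto_natCast_atTop_atTop).eventually
      (Filter.eventually_ge_atTop (160 : ℝ)))).exists_forall_of_atTop
  refine ⟨max (max N1 N2) (max N3 2), fun N _ hN D hD X hX c u hu huN huH m hm y hy1 hy2 => ?_⟩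
  have hNN1 : N1 ≤ N := (le_max_left _ _).trans ((le_max_left _ _).trans hN)
  have hNN2 : N2 ≤ N := (le_max_right _ _).trans ((le_max_left _ _).trans hN)
  have hNN3 : N3 ≤ N := (le_max_left _ _).trans ((le_max_right _ _).trans hN)
  have hNge : 2 ≤ N := (le_max_right _ _).trans ((le_max_right _ _).trans hN)
  obtain ⟨hK, hq⟩ := hN3 N hNN3
  have hK : 5 ≤ Real.log N := hK
  have hq : 160 ≤ (N : ℝ) ^ (P.kap / 1000) := hq
  have hNR : (0 : ℝ) < N := by
    have : 0 < N := by omega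
    exact_mod_cast this
  have hNR2 : (2 : ℝ) ≤ N := by exact_mod_cast hNge
  have hF : FamW P N D.y0 D.BX := hD.fx.toW (by linarith)
  obtain ⟨q, hqd⟩ : ∃ q : ℝ, q = (N : ℝ) ^ (P.kap / 1000) := ⟨_, rfl⟩
  obtain ⟨h, hhd⟩ : ∃ h : ℝ, h = (N : ℝ) ^ ((1 : ℝ) / 2) := ⟨_, rfl⟩
  have hh0 : 0 < h := by
    rw [hhd]
    exact Real.rpow_pos_of_pos hNR _
  have hhh : h * h = N := by
    rw [hhd, ← Real.rpow_add hNR]
    norm_num
  rw [← hqd] at hq
  have hq0 : 0 < q := by linarith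
  have hq1 : 1 ≤ q := by linarith
  have hqpow : ∀ k : ℕ, (N : ℝ) ^ (P.kap / 1000 * k) = q ^ k := by
    intro k
    rw [Real.rpow_mul hNR.le, Real.rpow_natCast, hqd]
  have e20 : (N : ℝ) ^ (P.kap / 20) = q ^ 50 := by
    rw [← hqpow]
    congr 1
    push_cast
    ring
  have e100 : (N : ℝ) ^ (P.kap / 100) = q ^ 10 := by
    rw [← hqpow]
    congr 1
    push_cast
    ring
  have eR : (N : ℝ) ^ (1 / 2 + P.kap / 5) = h * q ^ 200 := by
    rw [Real.rpow_add hNR, hhd, ← hqpow]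
    congr 2
    push_cast
    ring
  have eH : HH N P.kap * q ^ 2000 = h := by
    unfold HH
    rw [← hqpow, hhd, ← Real.rpow_add hNR]
    congr 1
    push_cast
    ring
  have hJR : (Real.log N) ^ 1000 ≤ (JJ N : ℝ) := Nat.le_ceil _
  have hJK : Real.log N ≤ (JJ N : ℝ) := (le_self_pow₀ (by linarith) (by norm_num)).trans hJR
  have hJ5 : (5 : ℝ) ≤ (JJ N : ℝ) := hK.trans hJK
  have hJ5' : 5 ≤ JJ N := by exact_mod_cast hJ5
  have hrho0 : 0 ≤ rho D.BX := prod_nonneg fun c _ => sum_nonneg fun p _ => by positivity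
  have hT1 : (1 : ℝ) ≤ (JJ N : ℝ) ^ 3 := one_le_pow₀ (by linarith)
  have hT0 : 0 < (D.J1 : ℝ) * rho D.BX := by linarith [hD.jx]
  have hJ1 : 1 ≤ D.J1 := by
    rcases Nat.eq_zero_or_pos D.J1 with h0 | h0
    · rw [h0] at hT0
      simp at hT0
    · exact h0
  have hM1 : 1 ≤ MM P N := Nat.one_le_two_pow
  have hM4 : 1 ≤ MM P N ^ 4 := Nat.one_le_pow _ _ hM1
  have hJ4 : JJ N ^ 4 ≤ D.y0 := by
    refine le_trans ?_ hD.y1
    calc JJ N ^ 4 = JJ N ^ 4 * 1 * 1 := by ring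
      _ ≤ JJ N ^ 4 * MM P N ^ 4 * D.J1 := Nat.mul_le_mul (Nat.mul_le_mul_left _ hM4) hJ1
  have h2J : 2 * D.J1 ≤ D.y0 := by
    refine le_trans ?_ hD.y1
    have h3 : 2 ≤ JJ N ^ 4 := by
      calc 2 ≤ JJ N := by omega
        _ ≤ JJ N ^ 4 := Nat.le_self_pow (by norm_num) _
    calc 2 * D.J1 = 2 * 1 * D.J1 := by ring
      _ ≤ JJ N ^ 4 * MM P N ^ 4 * D.J1 := Nat.mul_le_mul_right _ (Nat.mul_le_mul h3 hM4)
  have hy0q : (D.y0 : ℝ) ≤ q := by
    rw [hqd]
    exact hD.y2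
  have hJJq : (JJ N : ℝ) ≤ q := by
    have h3 : JJ N ≤ D.y0 := (Nat.le_self_pow (by norm_num) _).trans hJ4
    have h4 : (JJ N : ℝ) ≤ D.y0 := by exact_mod_cast h3
    linarith
  have hJ1q : (D.J1 : ℝ) ≤ q := by
    have h4 : (D.J1 : ℝ) ≤ D.y0 := by exact_mod_cast (by omega : D.J1 ≤ D.y0)
    linarith
  have hJ1R : (1 : ℝ) ≤ D.J1 := by exact_mod_cast hJ1
  -- `m`
  obtain ⟨f, hf, rfl⟩ : ∃ f ∈ tp D.BX, mrk f = m := by
    unfold TUP at hm
    obtain ⟨f, hf, h3⟩ := mem_image.1 hm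
    exact ⟨f, hf, h3⟩
  have hu0 : 0 < u := by
    rcases hu with h3 | ⟨l, l', h1, h2, h3⟩
    · exact h3.pos
    · rw [h3]
      exact Nat.mul_pos h1.pos h2.pos
  have hm0 : 0 < mrk f := (mrk_sq hF hf).1
  obtain ⟨A, hA⟩ : ∃ A : ℕ, A = u * mrk f := ⟨_, rfl⟩
  have hA0 : 0 < A := by
    rw [hA]
    exact Nat.mul_pos hu0 hm0
  have hAN : A.Coprime N := by
    rw [hA]
    refine Nat.Coprime.mul_left huN ?_
    unfold mrk
    refine Nat.Coprime.prod_left fun c _ => ?_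
    have h3 := hF.pr c (f c) (Fintype.mem_piFinset.1 hf c)
    exact (Nat.Prime.coprime_iff_not_dvd h3.1).2 h3.2.1
  have hmq : (mrk f : ℝ) ≤ q ^ 10 := by
    rw [← e100]
    exact mrk_le hF hf
  have hAR : (A : ℝ) * q ^ 1990 ≤ 2 * h := by
    have h3 : (A : ℝ) ≤ 2 * HH N P.kap * q ^ 10 := by
      rw [hA]
      push_cast
      exact mul_le_mul huH hmq (Nat.cast_nonneg _) ((Nat.cast_nonneg _).trans huH)
    calc (A : ℝ) * q ^ 1990 ≤ 2 * HH N P.kap * q ^ 10 * q ^ 1990 :=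
          mul_le_mul_of_nonneg_right h3 (by positivity)
      _ = 2 * (HH N P.kap * q ^ 2000) := by ring
      _ = 2 * h := by rw [eH]
  have hA2 : (A : ℝ) ≤ (N : ℝ) ^ (2 : ℝ) := by
    have h3 : (A : ℝ) ≤ (A : ℝ) * q ^ 1990 := le_mul_of_one_le_right (Nat.cast_nonneg _)
      (one_le_pow₀ hq1)
    have h4 : h ≤ N := by
      have h5 : 1 ≤ h := by
        rw [hhd]
        exact Real.one_le_rpow (by linarith) (by norm_num)
      calc h = h * 1 := (mul_one h).symm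
        _ ≤ h * h := mul_le_mul_of_nonneg_left h5 hh0.le
        _ = N := hhh
    have h6 : (N : ℝ) ^ (2 : ℝ) = N * N := by
      rw [Real.rpow_two]
      ring
    rw [h6]
    nlinarith
  rw [← hA] at hy1 hy2
  have hyR : h * q ^ 1990 ≤ 32 * y := by
    have h3 : (D.J1 : ℝ) * N ≤ 16 * (A * y) := by exact_mod_cast hy2
    have h4 : h * h ≤ 16 * (A * y) := by
      rw [hhh]
      refine le_trans ?_ h3
      exact le_mul_of_one_le_left hNR.le hJ1R
    have h5 : h * (h * q ^ 1990) ≤ h * (32 * y) := by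
      calc h * (h * q ^ 1990) = h * h * q ^ 1990 := by ring
        _ ≤ 16 * (A * y) * q ^ 1990 := mul_le_mul_of_nonneg_right h4 (by positivity)
        _ = 16 * y * (A * q ^ 1990) := by ring
        _ ≤ 16 * y * (2 * h) := mul_le_mul_of_nonneg_left hAR (by positivity)
        _ = h * (32 * y) := by ring
    exact le_of_mul_le_mul_left h5 hh0
  -- abbreviations
  obtain ⟨om, hom⟩ : ∃ om : ℕ → ℝ, om = fun n : ℕ =>
    ‖∑ χ ∈ X, c χ * χ ((n : ℕ) : ZMod N)‖ ^ 2 := ⟨_, rfl⟩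
  obtain ⟨S, hS⟩ : ∃ S : ℝ, S = ∑ χ ∈ X, ‖c χ‖ ^ 2 := ⟨_, rfl⟩
  have hS0 : 0 ≤ S := by
    rw [hS]
    exact sum_nonneg fun χ _ => by positivity
  have hom0 : ∀ n, 0 ≤ om n := by
    intro n
    rw [hom]
    positivity
  have htot1 : (Nat.totient N : ℝ) / N ≤ 1 := by
    rw [div_le_one hNR]
    exact_mod_cast Nat.totient_le N
  have hsit : ∀ a b : ℕ, a ≤ b → ∃ u' e' : ℕ → ℝ, Sit P N D.y0 D.BX A u' e' (Ioc a b) om
      ((Nat.totient N : ℝ) / N * ((b : ℝ) - a) * S) (h * q ^ 200 * S) ∧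
      (∀ k, ∀ p ∈ D.BX k, 0 ≤ u' p ∧ u' p ≤ 1 / p) ∧
      (∀ k, ∀ p ∈ D.BX k, ¬ p ∣ A → u' p + e' p = 1 / p) := by
    intro a b hab
    have h3 := hN1 N hNN1 X c hX D.y0 D.nX D.BX hF A hA0 hAN hA2 a b hab
    rw [eR] at h3
    rw [hom, hS]
    exact h3
  have hXb : ∀ a b : ℕ, a ≤ b → (Nat.totient N : ℝ) / N * ((b : ℝ) - a) * S ≤
      ((b : ℝ) - a) * S := by
    intro a b hab
    have h3 : (0 : ℝ) ≤ (b : ℝ) - a := by
      have : (a : ℝ) ≤ b := by exact_mod_cast hab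
      linarith
    refine mul_le_mul_of_nonneg_right ?_ hS0
    exact mul_le_of_le_one_left h3 htot1
  -- part (a)
  have hparta : ∑ n ∈ (Icc 1 y).filter (fun n => A * n ≤ D.J2 * N), om n ≤
      16 * y / JJ N * S + h * q ^ 200 * S := by
    obtain ⟨u', e', hs, -, -⟩ := hsit 0 (16 * y / JJ N) (Nat.zero_le _)
    have h3 := cb4_mass hs (by
      rw [e20]
      exact one_le_pow₀ hq1)
    have h4 : ∑ n ∈ (Icc 1 y).filter (fun n => A * n ≤ D.J2 * N), om n ≤
        ∑ n ∈ Ioc 0 (16 * y / JJ N), om n := by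
      refine sum_le_sum_of_subset_of_nonneg ?_ fun n _ _ => hom0 n
      intro n hn
      obtain ⟨h5, h6⟩ := mem_filter.1 hn
      rw [mem_Icc] at h5
      rw [mem_Ioc]
      refine ⟨by omega, ?_⟩
      rw [Nat.le_div_iff_mul_le (by omega)]
      have h7 : A * (n * JJ N) ≤ A * (16 * y) := by
        calc A * (n * JJ N) = JJ N * (A * n) := by ring
          _ ≤ JJ N * (D.J2 * N) := Nat.mul_le_mul_left _ h6
          _ = JJ N * D.J2 * N := by ring
          _ ≤ D.J1 * N := Nat.mul_le_mul_right _ hD.j21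
          _ ≤ 16 * (A * y) := hy2
          _ = A * (16 * y) := by ring
      exact Nat.le_of_mul_le_mul_left h7 hA0
    refine h4.trans (h3.trans ?_)
    have h5 := hXb 0 (16 * y / JJ N) (Nat.zero_le _)
    have h6 : (((16 * y / JJ N : ℕ) : ℝ) - ((0 : ℕ) : ℝ)) ≤ 16 * y / JJ N := by
      rw [Nat.cast_zero, sub_zero]
      refine Nat.cast_div_le.trans (le_of_eq ?_)
      push_cast
      rfl
    have h7 := mul_le_mul_of_nonneg_right h6 hS0
    linarith
  -- part (b)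
  obtain ⟨g, hg⟩ : ∃ g : ℕ → ℝ, ∀ n, g n =
    if ¬ GD N D ((A * n : ℕ) : ZMod N) then om n else 0 := ⟨fun n => _, fun n => rfl⟩
  have hpartb := floor_split N A 0 y (by omega) (Nat.zero_le _) g
    (S * (1 / (JJ N : ℝ) ^ 2 + 4 * (Real.log N) ^ 2 / (JJ N : ℝ) ^ 3))
    (2 * q ^ 50 * (h * q ^ 200) * S) (by positivity) (fun k0 a' b' _ hab hby hk0 => by
      rcases Nat.eq_or_lt_of_le hab with h3 | h3
      · rw [h3, Ioc_self, sum_empty, sub_self, mul_zero, zero_add]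
        positivity
      · obtain ⟨u', e', hs, hu1, hu2⟩ := hsit a' b' hab
        have hkJ : k0 ≤ D.J1 := by
          rw [← hk0 b' (mem_Ioc.2 ⟨h3, le_rfl⟩)]
          refine Nat.div_le_of_le_mul ?_
          calc A * b' ≤ A * y := Nat.mul_le_mul_left _ hby
            _ ≤ D.J1 * N := hy1
            _ = N * D.J1 := mul_comm _ _
        obtain ⟨W, hW⟩ : ∃ W : Finset ℤ, W = (Ico ((D.J2 : ℤ) - ((k0 : ℕ) : ℤ))
          ((D.J1 : ℤ) - ((k0 : ℕ) : ℤ))).erase 0 := ⟨_, rfl⟩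
        have hWc : W.card ≤ D.J1 := by
          rw [hW]
          refine (card_le_card (erase_subset _ _)).trans ?_
          rw [Int.card_Ico]
          omega
        have hup := hN2 N hNN2 D.y0 D.nX D.BX A u' e' (Ioc a' b') om _ _ hs hu1 hJ4 hD.y2 W D.J1
          hWc (by omega) (by linarith [hD.jx]) (fun k hk => by
            rw [hW, mem_erase, mem_Ico] at hk
            obtain ⟨h4, h5, h6⟩ := hk
            refine ⟨?_, Or.inl h4⟩
            have h7 : |k| ≤ D.J1 := by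
              rw [abs_le]
              constructor
              · omega
              · omega
            have h8 : (2 : ℤ) * D.J1 ≤ D.y0 := by exact_mod_cast h2J
            linarith)
        have hdeg := core_deg P N hNge hP.kap0 D.y0 D.nX D.BX A u' e' (Ioc a' b') om _ _ hs hu2
          (D.J1 * rho D.BX) hT0
        have hpr := cb4_prod hF hf hu
        rw [← hA] at hpr
        have hsplit : ∑ n ∈ Ioc a' b', g n ≤
            ∑ n ∈ (Ioc a' b').filter (fun n => 2 * (D.J1 * rho D.BX) < St D.BX W N A n), om n +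
            ∑ n ∈ (Ioc a' b').filter (fun n => D.J1 * rho D.BX < pht D.BX (A * n)), om n := by
          rw [sum_filter, sum_filter, ← sum_add_distrib]
          refine sum_le_sum fun n hn => ?_
          rw [hg]
          have h0a : (0 : ℝ) ≤ if 2 * (D.J1 * rho D.BX) < St D.BX W N A n then om n else 0 := by
            split_ifs
            · exact hom0 n
            · exact le_rfl
          have h0b : (0 : ℝ) ≤ if D.J1 * rho D.BX < pht D.BX (A * n) then om n else 0 := by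
            split_ifs
            · exact hom0 n
            · exact le_rfl
          by_cases hgd : GD N D ((A * n : ℕ) : ZMod N)
          · rw [if_neg (not_not.2 hgd)]
            linarith
          · rw [if_pos hgd]
            have h4 := PT_le (P := P) (N := N) (D := D) hNge hF (v := A) (n := n)
            rw [hk0 n hn, ← hW] at h4
            have h5 : 3 * (D.J1 * rho D.BX) < PT N D ((A * n : ℕ) : ZMod N) := by
              unfold GD at hgd
              exact not_le.1 hgd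
            by_cases h6 : 2 * (D.J1 * rho D.BX) < St D.BX W N A n
            · rw [if_pos h6]
              linarith
            · have h7 : D.J1 * rho D.BX < pht D.BX (A * n) := by
                push Not at h6
                linarith
              rw [if_pos h7]
              linarith
        refine hsplit.trans ((add_le_add hup hdeg).trans ?_)
        rw [e20]
        have hXb' := hXb a' b' hab
        obtain ⟨Xv, hXv⟩ : ∃ Xv : ℝ, Xv = (Nat.totient N : ℝ) / N * ((b' : ℝ) - a') * S := ⟨_, rfl⟩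
        rw [← hXv] at hXb' ⊢
        have hXv0 : 0 ≤ Xv := by
          rw [hXv]
          exact hs.X0
        have htp : ((tp D.BX).card : ℝ) ≤ q ^ 50 := by
          refine (tp_card_le hF).trans ?_
          rw [e100]
          exact pow_le_pow_right₀ hq1 (by norm_num)
        obtain ⟨E, hE⟩ : ∃ E : ℝ, E = h * q ^ 200 * S := ⟨_, rfl⟩
        obtain ⟨Q, hQ⟩ : ∃ Q : ℝ, Q = q ^ 50 := ⟨_, rfl⟩
        have hE0 : 0 ≤ E := by
          rw [hE]
          positivity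
        have hQ0 : 0 ≤ Q := by
          rw [hQ]
          positivity
        have hgE : 2 * q ^ 50 * (h * q ^ 200) * S = 2 * (Q * E) := by
          rw [hE, hQ]
          ring
        rw [hgE, ← hE, ← hQ]
        rw [← hQ] at htp
        have hJpos : (0 : ℝ) < (JJ N : ℝ) := by linarith
        have h4 : Xv / (JJ N : ℝ) ^ 2 ≤ ((b' : ℝ) - a') * S / (JJ N : ℝ) ^ 2 :=
          div_le_div_of_nonneg_right hXb' (by positivity)
        have h5 : 1 / (D.J1 * rho D.BX) ≤ 1 / (JJ N : ℝ) ^ 3 :=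
          one_div_le_one_div_of_le (by positivity) hD.jx
        have h6 : 1 / (JJ N : ℝ) ^ 3 ≤ 1 := by
          rw [div_le_one (by positivity)]
          exact hT1
        have h7 : Xv * ∏ c, ((((D.BX c).filter fun p => p ∣ A).card : ℝ) +
            ∑ p ∈ D.BX c, 1 / (p : ℝ)) ≤ ((b' : ℝ) - a') * S * (4 * (Real.log N) ^ 2) :=
          mul_le_mul hXb' hpr (prod_nonneg fun c _ => add_nonneg (Nat.cast_nonneg _)
            (sum_nonneg fun p _ => by positivity)) (hXv0.trans hXb')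
        have h8 : ((tp D.BX).card : ℝ) * E ≤ Q * E :=
          mul_le_mul_of_nonneg_right htp hE0
        have h9 : 0 ≤ ((b' : ℝ) - a') * S * (4 * (Real.log N) ^ 2) :=
          mul_nonneg (hXv0.trans hXb') (by positivity)
        calc Xv / (JJ N : ℝ) ^ 2 + Q * E + 1 / (D.J1 * rho D.BX) *
              (Xv * ∏ c, ((((D.BX c).filter fun p => p ∣ A).card : ℝ) +
                ∑ p ∈ D.BX c, 1 / (p : ℝ)) + ((tp D.BX).card : ℝ) * E) ≤
              ((b' : ℝ) - a') * S / (JJ N : ℝ) ^ 2 + Q * E +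
              1 / (JJ N : ℝ) ^ 3 * (((b' : ℝ) - a') * S * (4 * (Real.log N) ^ 2) +
                Q * E) := by
              refine add_le_add (add_le_add_left h4 _) ?_
              refine mul_le_mul h5 (add_le_add h7 h8) ?_ (by positivity)
              exact add_nonneg (mul_nonneg hXv0 (prod_nonneg fun c _ =>
                add_nonneg (Nat.cast_nonneg _) (sum_nonneg fun p _ => by positivity)))
                (mul_nonneg (Nat.cast_nonneg _) hE0)
          _ = S * (1 / (JJ N : ℝ) ^ 2 + 4 * (Real.log N) ^ 2 / (JJ N : ℝ) ^ 3) *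
                ((b' : ℝ) - a') + Q * E +
                1 / (JJ N : ℝ) ^ 3 * (Q * E) := by ring
          _ ≤ S * (1 / (JJ N : ℝ) ^ 2 + 4 * (Real.log N) ^ 2 / (JJ N : ℝ) ^ 3) *
                ((b' : ℝ) - a') + Q * E +
                1 * (Q * E) :=
              add_le_add_right (mul_le_mul_of_nonneg_right h6 (by positivity)) _
          _ = S * (1 / (JJ N : ℝ) ^ 2 + 4 * (Real.log N) ^ 2 / (JJ N : ℝ) ^ 3) *
                ((b' : ℝ) - a') + 2 * (Q * E) := by ring)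
  have hAy : (((A * y / N : ℕ) : ℝ) + 1) ≤ (D.J1 : ℝ) + 1 := by
    have h3 : A * y / N ≤ D.J1 := by
      refine Nat.div_le_of_le_mul ?_
      rw [mul_comm N]
      exact hy1
    have h4 : ((A * y / N : ℕ) : ℝ) ≤ D.J1 := by exact_mod_cast h3
    linarith
  -- combination
  have hcomb : ∑ n ∈ (Icc 1 y).filter (fun n => n.Coprime N ∧
      ¬ (GD N D ((A * n : ℕ) : ZMod N) ∧ D.J2 * N < A * n)), om n ≤
      ∑ n ∈ (Icc 1 y).filter (fun n => A * n ≤ D.J2 * N), om n + ∑ n ∈ Ioc 0 y, g n := by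
    have h3 : Ioc 0 y = Icc 1 y := by
      ext n
      rw [mem_Ioc, mem_Icc]
      omega
    rw [h3, sum_filter, sum_filter, ← sum_add_distrib]
    refine sum_le_sum fun n _ => ?_
    rw [hg]
    have h0a : (0 : ℝ) ≤ if A * n ≤ D.J2 * N then om n else 0 := by
      split_ifs
      · exact hom0 n
      · exact le_rfl
    have h0b : (0 : ℝ) ≤ if ¬ GD N D ((A * n : ℕ) : ZMod N) then om n else 0 := by
      by_cases h7 : GD N D ((A * n : ℕ) : ZMod N)
      · rw [if_neg (not_not.2 h7)]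
      · rw [if_pos h7]
        exact hom0 n
    by_cases h4 : n.Coprime N ∧ ¬ (GD N D ((A * n : ℕ) : ZMod N) ∧ D.J2 * N < A * n)
    · rw [if_pos h4]
      by_cases h5 : GD N D ((A * n : ℕ) : ZMod N)
      · have h6 : A * n ≤ D.J2 * N := by
          by_contra h7
          exact h4.2 ⟨h5, not_le.1 h7⟩
        rw [if_pos h6]
        linarith
      · rw [if_pos h5]
        linarith
    · rw [if_neg h4]
      linarith
  have hfin := cb4_num (K := Real.log N) (J := (JJ N : ℝ)) (y := (y : ℝ)) (J1 := (D.J1 : ℝ))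
    (q := q) (h := h) (R := h * q ^ 200) (S := S) hK hJK hJJq hq hJ1R hJ1q hh0 rfl hyR hS0
  have hgoal : ∑ n ∈ (Icc 1 y).filter (fun n => n.Coprime N ∧
      ¬ (GD N D ((A * n : ℕ) : ZMod N) ∧ D.J2 * N < A * n)), om n ≤
      (Real.log N) ^ 2 / JJ N * y * S := by
    refine hcomb.trans (le_trans ?_ hfin)
    refine add_le_add hparta (hpartb.trans ?_)
    rw [Nat.cast_zero, sub_zero]
    have h3 : (((A * y / N : ℕ) : ℝ) + 1) * (2 * q ^ 50 * (h * q ^ 200) * S) ≤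
        ((D.J1 : ℝ) + 1) * (2 * q ^ 50 * (h * q ^ 200) * S) :=
      mul_le_mul_of_nonneg_right hAy (by positivity)
    linarith
  rw [hom, hS, hA] at hgoal
  exact hgoal

end Pool.Agent.Lib.TCF
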