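import Pool.Agent.Lib.MP_7b7e48_nt.TCF.CA1

/-!
# Module CB5 (75 minutes): fields `c5`, `c6`

PROOF of `cb5`. `1[T < pht a] ≤ pht a / T`, `T = J1 ρ/JJ` (`> 0`). `pht (q t n) = ∑_{f'} [mrk f' ∣ q t n]`, and for `t = mrk f`: `mrk f' ∣ q t n` iff `m ∣ n`, `m` = product of the `f' c` with `f' c ∤ q t`, i.e. `f' c ≠ f c` and
`f' c ≠ q`. So `∑_{n ≤ z/(q t)} pht ≤ (z/(q t)) ∑_{f'} ∏_{c : f' c ∤ q t} 1/f' c`, and the sum over `f` of `1/mrk f` times this is
`∏_c ∑_{p ∈ B_c} (1/p) (∑_{p' ∈ B_c} (if p' = p ∨ p' = q then 1 else 1/p')) ≤ ∏_c (V_c (V_c + 1 + [q ∈ B_c])) ≤ ρ * 2 ∏ (1 + V_c) ≤ 2 K² ρ` (`q` is in at most one `B_c`). Total `≤ (JJ/(J1 ρ)) (z/q) 2 K² ρ`.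
PROOF of `cb6`. `pht μ 1[T < pht μ] ≤ (pht μ)²/T`; `(pht μ)² = ∑_{f, f'} [lcm ∣ μ]`, `∑_{μ ≤ y, d ∣ μ} 1/μ ≤ (1 + log y)/d`, `∑_{f,f'} 1/lcm(mrk f, mrk f') = ∏_c (V_c² - ∑ 1/p² + V_c) ≤ ρ ∏ (1 + V_c) ≤ K² ρ`, `log y ≤ K`.
(`0 < ρ`: all `V_c > 0`.)
-/

set_option autoImplicit false

open Finset

namespace Pool.Agent.Lib.TCF

open Pool.Agent.Lib.RG hiding RR sig Good
open Pool.Agent.Lib.RH

private def CB5_m {n : ℕ} (q : ℕ) (f f' : Fin n → ℕ) : ℕ :=
  ∏ c, if f' c = f c ∨ f' c = q then 1 else f' c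

private theorem CB5_dvd {P : Prm} {N y0 r : ℕ} {B : Fin r → Finset ℕ} (hF : FamW P N y0 B)
    {f f' : Fin r → ℕ} (hf : f ∈ tp B) (hf' : f' ∈ tp B) {q : ℕ} (hq : q = 1 ∨ q.Prime) (n : ℕ)
    (h : mrk f' ∣ q * mrk f * n) : CB5_m q f f' ∣ n := by
  have hm : ∀ c, f c ∈ B c := fun c => Fintype.mem_piFinset.1 hf c
  have hm' : ∀ c, f' c ∈ B c := fun c => Fintype.mem_piFinset.1 hf' c
  unfold CB5_m
  rw [prod_ite, prod_const_one, one_mul]
  have e1 : ∏ c ∈ univ.filter (fun c => ¬ (f' c = f c ∨ f' c = q)), f' c =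
      ∏ p ∈ (univ.filter (fun c => ¬ (f' c = f c ∨ f' c = q))).image f', p := by
    rw [prod_image]
    intro c _ c' _ hcc
    by_contra hne
    have h1 := hm' c
    have h3 := hm' c'
    rw [← hcc] at h3
    exact Finset.disjoint_left.1 (hF.disj c c' hne) h1 h3
  rw [e1]
  refine Finset.prod_primes_dvd n ?_ ?_
  · intro p hp
    obtain ⟨c, -, rfl⟩ := mem_image.1 hp
    exact (hF.pr c _ (hm' c)).1.prime
  · intro p hp
    obtain ⟨c, hc, rfl⟩ := mem_image.1 hp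
    have hc2 := (mem_filter.1 hc).2
    have hpr := (hF.pr c _ (hm' c)).1
    have h1 : f' c ∣ q * mrk f * n := (dvd_prod_of_mem f' (mem_univ c)).trans h
    rcases hpr.dvd_mul.1 h1 with h3 | h3
    · exfalso
      rcases hpr.dvd_mul.1 h3 with h4 | h4
      · rcases hq with rfl | hq
        · exact hpr.one_lt.ne' (Nat.dvd_one.1 h4)
        · exact hc2 (Or.inr ((Nat.prime_dvd_prime_iff_eq hpr hq).1 h4))
      · obtain ⟨c', hc'⟩ := ((mrk_sq hF hf).2.2 _ hpr).1 h4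
        have hcc : c = c' := by
          by_contra hne
          have h5 := hm' c
          rw [hc'] at h5
          exact Finset.disjoint_left.1 (hF.disj c c' hne) h5 (hm c')
        subst hcc
        exact hc2 (Or.inl hc')
    · exact h3

private theorem CB5_prod {P : Prm} {N y0 r : ℕ} {B : Fin r → Finset ℕ} (hF : FamW P N y0 B)
    (q : ℕ) :
    ∑ f ∈ tp B, ∑ f' ∈ tp B, 1 / ((mrk f : ℝ) * CB5_m q f f') ≤
      2 * (Real.log N) ^ 2 * rho B := by
  classical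
  have e1 : ∑ f ∈ tp B, ∑ f' ∈ tp B, 1 / ((mrk f : ℝ) * CB5_m q f f') =
      ∏ c, ∑ p ∈ B c, ∑ p' ∈ B c, 1 / (p : ℝ) * (if p' = p ∨ p' = q then 1 else 1 / (p' : ℝ)) := by
    rw [← sum_tp2 B fun _ p p' => 1 / (p : ℝ) * (if p' = p ∨ p' = q then 1 else 1 / (p' : ℝ))]
    refine sum_congr rfl fun f _ => sum_congr rfl fun f' _ => ?_
    unfold mrk CB5_m
    rw [Nat.cast_prod, Nat.cast_prod, ← prod_mul_distrib, one_div, ← prod_inv_distrib]
    refine prod_congr rfl fun c _ => ?_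
    split_ifs with h
    · rw [Nat.cast_one, mul_one, mul_one, one_div]
    · rw [mul_inv, one_div, one_div]
  rw [e1]
  have hV : ∀ c, 0 ≤ ∑ p ∈ B c, 1 / (p : ℝ) := fun c => sum_nonneg fun p _ => by positivity
  have h1 : ∀ c, ∑ p ∈ B c, ∑ p' ∈ B c,
      1 / (p : ℝ) * (if p' = p ∨ p' = q then 1 else 1 / (p' : ℝ)) ≤
      (∑ p ∈ B c, 1 / (p : ℝ)) * (1 + ∑ p ∈ B c, 1 / (p : ℝ)) * (if q ∈ B c then 2 else 1) := by
    intro c
    rw [mul_assoc, sum_mul]
    refine sum_le_sum fun p hp => ?_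
    rw [← mul_sum]
    refine mul_le_mul_of_nonneg_left ?_ (by positivity)
    calc ∑ p' ∈ B c, (if p' = p ∨ p' = q then (1 : ℝ) else 1 / (p' : ℝ))
        ≤ ∑ p' ∈ B c, ((if p' = p then (1 : ℝ) else 0) + (if p' = q then (1 : ℝ) else 0) +
            1 / (p' : ℝ)) := by
          refine sum_le_sum fun p' _ => ?_
          have h3 : (0 : ℝ) ≤ 1 / (p' : ℝ) := by positivity
          split_ifs <;> first | linarith | (exfalso; tauto)
      _ = 1 + (if q ∈ B c then (1 : ℝ) else 0) + ∑ p' ∈ B c, 1 / (p' : ℝ) := by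
          rw [sum_add_distrib, sum_add_distrib, sum_ite_eq', sum_ite_eq', if_pos hp]
      _ ≤ (1 + ∑ p ∈ B c, 1 / (p : ℝ)) * (if q ∈ B c then 2 else 1) := by
          have h3 := hV c
          split_ifs <;> linarith
  calc ∏ c, ∑ p ∈ B c, ∑ p' ∈ B c, 1 / (p : ℝ) * (if p' = p ∨ p' = q then 1 else 1 / (p' : ℝ))
      ≤ ∏ c, ((∑ p ∈ B c, 1 / (p : ℝ)) * (1 + ∑ p ∈ B c, 1 / (p : ℝ)) *
          (if q ∈ B c then (2 : ℝ) else 1)) := by
        refine prod_le_prod (fun c _ => ?_) fun c _ => h1 c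
        refine sum_nonneg fun p _ => sum_nonneg fun p' _ => ?_
        split_ifs <;> positivity
    _ = rho B * (∏ c, (1 + ∑ p ∈ B c, 1 / (p : ℝ))) * ∏ c, (if q ∈ B c then (2 : ℝ) else 1) := by
        rw [prod_mul_distrib, prod_mul_distrib]
        rfl
    _ ≤ rho B * (Real.log N) ^ 2 * 2 := by
        have hr : 0 ≤ rho B := prod_nonneg fun c _ => hV c
        have h3 : ∏ c, (if q ∈ B c then (2 : ℝ) else 1) ≤ 2 := by
          by_cases h : ∃ c0, q ∈ B c0
          · obtain ⟨c0, h0⟩ := h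
            rw [prod_eq_single c0, if_pos h0]
            · intro c _ hc
              rw [if_neg]
              exact fun h4 => Finset.disjoint_left.1 (hF.disj c c0 hc) h4 h0
            · exact fun h4 => absurd (mem_univ c0) h4
          · push Not at h
            rw [prod_eq_one fun c _ => if_neg (h c)]
            norm_num
        have h4 : 0 ≤ ∏ c, (if q ∈ B c then (2 : ℝ) else 1) := prod_nonneg fun c _ => by
          split_ifs <;> norm_num
        exact mul_le_mul (mul_le_mul_of_nonneg_left hF.tot hr) h3 h4 (by positivity)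
    _ = _ := by ring

private theorem CB5_card (z d m : ℕ) (hd : 1 ≤ d) (hm : 1 ≤ m) :
    (((Icc 1 z).filter fun n => d * n ≤ z ∧ m ∣ n).card : ℝ) ≤ z / (d * m) := by
  have h1 : ((Icc 1 z).filter fun n => d * n ≤ z ∧ m ∣ n) ⊆
      (Icc 1 (z / (d * m))).image fun k => m * k := by
    intro n hn
    obtain ⟨h2, h3, k, rfl⟩ := mem_filter.1 hn
    have h4 := (mem_Icc.1 h2).1
    refine mem_image.2 ⟨k, mem_Icc.2 ⟨?_, ?_⟩, rfl⟩
    · rcases Nat.eq_zero_or_pos k with h5 | h5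
      · rw [h5] at h4; omega
      · exact h5
    · rw [Nat.le_div_iff_mul_le (Nat.mul_pos hd hm)]
      calc k * (d * m) = d * (m * k) := by ring
        _ ≤ z := h3
  have h2 := (card_le_card h1).trans card_image_le
  rw [Nat.card_Icc, Nat.add_sub_cancel] at h2
  calc (((Icc 1 z).filter fun n => d * n ≤ z ∧ m ∣ n).card : ℝ) ≤ ((z / (d * m) : ℕ) : ℝ) := by
        exact_mod_cast h2
    _ ≤ (z : ℝ) / ((d * m : ℕ) : ℝ) := Nat.cast_div_le
    _ = _ := by rw [Nat.cast_mul]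

private theorem CB5_m_pos {P : Prm} {N y0 r : ℕ} {B : Fin r → Finset ℕ} (hF : FamW P N y0 B)
    {f f' : Fin r → ℕ} (hf' : f' ∈ tp B) (q : ℕ) : 1 ≤ CB5_m q f f' := by
  refine Nat.one_le_iff_ne_zero.2 (prod_ne_zero_iff.2 fun c _ => ?_)
  split_ifs
  · exact one_ne_zero
  · exact (hF.pr c _ (Fintype.mem_piFinset.1 hf' c)).1.ne_zero

private theorem CB5_pos {P : Prm} {N : ℕ} {D : Dat} (hD : D.Ok P N) (hK : 1 ≤ Real.log N) :
    0 < (JJ N : ℝ) ∧ 0 < (D.J1 : ℝ) ∧ 0 < rho D.BX := by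
  have h1 : (1 : ℝ) ≤ JJ N := (one_le_pow₀ hK).trans (Nat.le_ceil ((Real.log N) ^ 1000))
  have h2 : (0 : ℝ) < (D.J1 : ℝ) * rho D.BX := lt_of_lt_of_le (by positivity) hD.jx
  have h3 : (0 : ℝ) ≤ (D.J1 : ℝ) := Nat.cast_nonneg _
  have h4 : 0 ≤ rho D.BX := prod_nonneg fun c _ => sum_nonneg fun p _ => by positivity
  refine ⟨by linarith, lt_of_le_of_ne h3 ?_, lt_of_le_of_ne h4 ?_⟩
  · intro h5
    rw [← h5, zero_mul] at h2
    exact lt_irrefl _ h2
  · intro h5
    rw [← h5, mul_zero] at h2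
    exact lt_irrefl _ h2

private theorem CB5_nn {r : ℕ} (B : Fin r → Finset ℕ) (a : ℕ) : 0 ≤ pht B a :=
  prod_nonneg fun c _ => Nat.cast_nonneg _

open Classical in
theorem cb5 (P : Prm) (hP : P.Ok) : ∃ N0 : ℕ, ∀ (N : ℕ) [NeZero N], N0 ≤ N → ∀ D : Dat, D.Ok P N →
    ∀ q : ℕ, (q = 1 ∨ q.Prime) → q.Coprime N → ∀ z : ℕ, z ≤ D.J1 * N →
    ∑ t ∈ TUP D.BX, (((Icc 1 z).filter fun n => q * t * n ≤ z ∧
      D.J1 * rho D.BX / JJ N < pht D.BX (q * t * n)).card : ℝ) ≤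
      (Real.log N) ^ 6 * JJ N / D.J1 * (z / q) := by
  obtain ⟨N0, hN0⟩ := Filter.eventually_atTop.1 (ev_log_ge 2)
  refine ⟨N0, fun N _ hN D hD q hq _ z _ => ?_⟩
  have hK : 2 ≤ Real.log N := hN0 N hN
  have hF := hD.fx.toW (by linarith)
  obtain ⟨hJ, hJ1, hr⟩ := CB5_pos hD (by linarith)
  set T : ℝ := D.J1 * rho D.BX / JJ N with hT
  have hTpos : 0 < T := div_pos (mul_pos hJ1 hr) hJ
  have hq1 : 1 ≤ q := by
    rcases hq with h | h
    · omega
    · exact h.one_lt.le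
  have hqr : (0 : ℝ) < q := by exact_mod_cast hq1
  rw [sum_TUP hF fun t => (((Icc 1 z).filter fun n => q * t * n ≤ z ∧
      T < pht D.BX (q * t * n)).card : ℝ)]
  have h1 : ∀ f ∈ tp D.BX, (((Icc 1 z).filter fun n => q * mrk f * n ≤ z ∧
      T < pht D.BX (q * mrk f * n)).card : ℝ) ≤
      ∑ f' ∈ tp D.BX, 1 / T * (z / q) * (1 / ((mrk f : ℝ) * CB5_m q f f')) := by
    intro f hf
    have hmf := (mrk_sq hF hf).1
    calc (((Icc 1 z).filter fun n => q * mrk f * n ≤ z ∧ T < pht D.BX (q * mrk f * n)).card : ℝ)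
        = ∑ n ∈ (Icc 1 z).filter (fun n => q * mrk f * n ≤ z ∧
            T < pht D.BX (q * mrk f * n)), (1 : ℝ) := by
          rw [sum_const, nsmul_eq_mul, mul_one]
      _ ≤ ∑ n ∈ (Icc 1 z).filter (fun n => q * mrk f * n ≤ z ∧
            T < pht D.BX (q * mrk f * n)), 1 / T * pht D.BX (q * mrk f * n) := by
          refine sum_le_sum fun n hn => ?_
          have h3 := (mem_filter.1 hn).2.2
          rw [one_div, ← div_eq_inv_mul, le_div_iff₀ hTpos, one_mul]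
          exact h3.le
      _ ≤ ∑ n ∈ (Icc 1 z).filter (fun n => q * mrk f * n ≤ z), 1 / T *
            pht D.BX (q * mrk f * n) := by
          refine sum_le_sum_of_subset_of_nonneg (fun n hn => ?_) fun n _ _ =>
            mul_nonneg (by positivity) (CB5_nn _ _)
          obtain ⟨h3, h4, -⟩ := mem_filter.1 hn
          exact mem_filter.2 ⟨h3, h4⟩
      _ = ∑ f' ∈ tp D.BX, 1 / T * (((Icc 1 z).filter fun n => q * mrk f * n ≤ z ∧
            mrk f' ∣ q * mrk f * n).card : ℝ) := by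
          rw [← mul_sum, ← mul_sum]
          congr 1
          rw [sum_congr rfl fun n _ => pht_eqm hF (q * mrk f * n), sum_comm]
          refine sum_congr rfl fun f' _ => ?_
          rw [← sum_filter, filter_filter, sum_const, nsmul_eq_mul, mul_one]
      _ ≤ ∑ f' ∈ tp D.BX, 1 / T * (z / q) * (1 / ((mrk f : ℝ) * CB5_m q f f')) := by
          refine sum_le_sum fun f' hf' => ?_
          rw [mul_assoc]
          refine mul_le_mul_of_nonneg_left ?_ (by positivity)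
          have h3 : (((Icc 1 z).filter fun n => q * mrk f * n ≤ z ∧
              mrk f' ∣ q * mrk f * n).card : ℝ) ≤
              (((Icc 1 z).filter fun n => q * mrk f * n ≤ z ∧ CB5_m q f f' ∣ n).card : ℝ) := by
            refine Nat.cast_le.2 (card_le_card fun n hn => ?_)
            obtain ⟨h4, h5, h6⟩ := mem_filter.1 hn
            exact mem_filter.2 ⟨h4, h5, CB5_dvd hF hf hf' hq n h6⟩
          refine h3.trans ((CB5_card z (q * mrk f) (CB5_m q f f') (Nat.mul_pos hq1 hmf)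
            (CB5_m_pos hF hf' q)).trans (le_of_eq ?_))
          have hm1 : (mrk f : ℝ) ≠ 0 := by
            have : (1 : ℝ) ≤ mrk f := by exact_mod_cast hmf
            linarith
          have hm2 : (CB5_m q f f' : ℝ) ≠ 0 := by
            have : (1 : ℝ) ≤ CB5_m q f f' := by exact_mod_cast CB5_m_pos (f := f) hF hf' q
            linarith
          rw [Nat.cast_mul]
          field_simp
  refine (sum_le_sum h1).trans ?_
  rw [sum_congr rfl fun f _ => (mul_sum (tp D.BX)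
    (fun f' => 1 / ((mrk f : ℝ) * CB5_m q f f')) (1 / T * (z / q))).symm, ← mul_sum]
  have h2 := CB5_prod hF q
  calc 1 / T * ((z : ℝ) / q) * ∑ f ∈ tp D.BX, ∑ f' ∈ tp D.BX, 1 / ((mrk f : ℝ) * CB5_m q f f')
      ≤ 1 / T * ((z : ℝ) / q) * (2 * (Real.log N) ^ 2 * rho D.BX) :=
        mul_le_mul_of_nonneg_left h2 (by positivity)
    _ = 2 * (Real.log N) ^ 2 * JJ N / D.J1 * (z / q) := by
        rw [hT]
        field_simp
    _ ≤ (Real.log N) ^ 6 * JJ N / D.J1 * (z / q) := by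
        refine mul_le_mul_of_nonneg_right ?_ (by positivity)
        refine div_le_div_of_nonneg_right ?_ hJ1.le
        refine mul_le_mul_of_nonneg_right ?_ hJ.le
        have h3 : (2 : ℝ) ≤ (Real.log N) ^ 4 := by
          calc (2 : ℝ) ≤ 2 ^ 4 := by norm_num
            _ ≤ (Real.log N) ^ 4 := pow_le_pow_left₀ (by norm_num) hK 4
        calc 2 * (Real.log N) ^ 2 ≤ (Real.log N) ^ 4 * (Real.log N) ^ 2 :=
              mul_le_mul_of_nonneg_right h3 (by positivity)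
          _ = (Real.log N) ^ 6 := by ring

private theorem CB5_harm (y d : ℕ) (hd : 1 ≤ d) :
    ∑ μ ∈ Icc 1 y, (if d ∣ μ then 1 / (μ : ℝ) else 0) ≤
      1 / (d : ℝ) * ∑ k ∈ Icc 1 y, 1 / (k : ℝ) := by
  rw [← sum_filter]
  have h1 : (Icc 1 y).filter (fun μ => d ∣ μ) ⊆ (Icc 1 y).image fun k => d * k := by
    intro μ hμ
    obtain ⟨h2, k, rfl⟩ := mem_filter.1 hμ
    have h4 := mem_Icc.1 h2
    refine mem_image.2 ⟨k, mem_Icc.2 ⟨?_, ?_⟩, rfl⟩
    · rcases Nat.eq_zero_or_pos k with h5 | h5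
      · rw [h5] at h4; omega
      · exact h5
    · exact (Nat.le_mul_of_pos_left k hd).trans h4.2
  calc ∑ μ ∈ (Icc 1 y).filter (fun μ => d ∣ μ), 1 / (μ : ℝ)
      ≤ ∑ μ ∈ (Icc 1 y).image fun k => d * k, 1 / (μ : ℝ) :=
        sum_le_sum_of_subset_of_nonneg h1 fun μ _ _ => by positivity
    _ = ∑ k ∈ Icc 1 y, 1 / ((d * k : ℕ) : ℝ) := by
        rw [sum_image]
        intro a _ b _ hab
        exact Nat.eq_of_mul_eq_mul_left hd hab
    _ = _ := by
        rw [mul_sum]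
        refine sum_congr rfl fun k _ => ?_
        rw [Nat.cast_mul, one_div_mul_one_div]

open Classical in
theorem cb6 (P : Prm) (hP : P.Ok) : ∃ N0 : ℕ, ∀ (N : ℕ) [NeZero N], N0 ≤ N → ∀ D : Dat, D.Ok P N →
    ∑ μ ∈ (Icc 1 ⌊(N : ℝ) ^ (2 * P.kap)⌋₊).filter (fun μ => D.J1 * rho D.BX / JJ N < pht D.BX μ),
    pht D.BX μ / (μ : ℝ) ≤ (Real.log N) ^ 6 * JJ N / D.J1 := by
  obtain ⟨N0, hN0⟩ := Filter.eventually_atTop.1 (ev_log_ge 2)
  refine ⟨N0, fun N _ hN D hD => ?_⟩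
  have hK : 2 ≤ Real.log N := hN0 N hN
  have hF := hD.fx.toW (by linarith)
  obtain ⟨hJ, hJ1, hr⟩ := CB5_pos hD (by linarith)
  set T : ℝ := D.J1 * rho D.BX / JJ N with hT
  have hTpos : 0 < T := div_pos (mul_pos hJ1 hr) hJ
  set y : ℕ := ⌊(N : ℝ) ^ (2 * P.kap)⌋₊ with hy
  have hN1 : (1 : ℝ) ≤ N := by
    have : 0 < N := Nat.pos_of_ne_zero (NeZero.ne N)
    exact_mod_cast this
  have hyN : y ≤ N := by
    have h1 : (N : ℝ) ^ (2 * P.kap) ≤ (N : ℝ) ^ (1 : ℝ) :=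
      Real.rpow_le_rpow_of_exponent_le hN1 (by have := hP.kap1; linarith)
    rw [Real.rpow_one] at h1
    have h2 := Nat.floor_le (show 0 ≤ (N : ℝ) ^ (2 * P.kap) by positivity)
    exact_mod_cast h2.trans h1
  have hharm : ∑ k ∈ Icc 1 y, 1 / (k : ℝ) ≤ 1 + Real.log N := by
    have h1 : ∑ k ∈ Icc 1 y, 1 / (k : ℝ) ≤ ∑ k ∈ Icc 1 N, 1 / (k : ℝ) :=
      sum_le_sum_of_subset_of_nonneg (Icc_subset_Icc_right hyN) fun k _ _ => by positivity
    have h2 := harmonic_le_one_add_log N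
    rw [harmonic_eq_sum_Icc] at h2
    push_cast at h2
    refine h1.trans (le_trans (le_of_eq ?_) h2)
    exact sum_congr rfl fun k _ => one_div _
  calc ∑ μ ∈ (Icc 1 y).filter (fun μ => T < pht D.BX μ), pht D.BX μ / (μ : ℝ)
      ≤ ∑ μ ∈ (Icc 1 y).filter (fun μ => T < pht D.BX μ), 1 / T * (pht D.BX μ ^ 2 / (μ : ℝ)) := by
        refine sum_le_sum fun μ hμ => ?_
        have h3 := (mem_filter.1 hμ).2
        have h4 := CB5_nn D.BX μ
        have h5 : pht D.BX μ ≤ 1 / T * pht D.BX μ ^ 2 := by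
          rw [one_div, ← div_eq_inv_mul, le_div_iff₀ hTpos]
          nlinarith
        calc pht D.BX μ / (μ : ℝ) ≤ (1 / T * pht D.BX μ ^ 2) / (μ : ℝ) :=
              div_le_div_of_nonneg_right h5 (Nat.cast_nonneg μ)
          _ = _ := by ring
    _ ≤ ∑ μ ∈ Icc 1 y, 1 / T * (pht D.BX μ ^ 2 / (μ : ℝ)) :=
        sum_le_sum_of_subset_of_nonneg (filter_subset _ _) fun μ _ _ => by positivity
    _ ≤ ∑ μ ∈ Icc 1 y, 1 / T * ∑ f ∈ tp D.BX, ∑ f' ∈ tp D.BX,
          (if mrk f * CB5_m 1 f f' ∣ μ then 1 / (μ : ℝ) else 0) := by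
        refine sum_le_sum fun μ _ => mul_le_mul_of_nonneg_left ?_ (by positivity)
        rw [pht_eqm hF μ, sq, sum_mul_sum, sum_div]
        refine sum_le_sum fun f hf => ?_
        rw [sum_div]
        refine sum_le_sum fun f' hf' => ?_
        have hμ0 : (0 : ℝ) ≤ 1 / (μ : ℝ) := by positivity
        by_cases h1 : mrk f ∣ μ
        · by_cases h2 : mrk f' ∣ μ
          · rw [if_pos h1, if_pos h2, if_pos, mul_one]
            obtain ⟨k, rfl⟩ := h1
            refine Nat.mul_dvd_mul_left (mrk f) (CB5_dvd hF hf hf' (Or.inl rfl) k ?_)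
            rw [one_mul]
            exact h2
          · rw [if_neg h2, mul_zero, zero_div]
            split_ifs
            · exact hμ0
            · exact le_refl 0
        · rw [if_neg h1, zero_mul, zero_div]
          split_ifs
          · exact hμ0
          · exact le_refl 0
    _ = 1 / T * ∑ f ∈ tp D.BX, ∑ f' ∈ tp D.BX, ∑ μ ∈ Icc 1 y,
          (if mrk f * CB5_m 1 f f' ∣ μ then 1 / (μ : ℝ) else 0) := by
        rw [← mul_sum, sum_comm]
        congr 1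
        exact sum_congr rfl fun f _ => sum_comm
    _ ≤ 1 / T * ∑ f ∈ tp D.BX, ∑ f' ∈ tp D.BX, 1 / ((mrk f : ℝ) * CB5_m 1 f f') *
          (1 + Real.log N) := by
        refine mul_le_mul_of_nonneg_left ?_ (by positivity)
        refine sum_le_sum fun f hf => sum_le_sum fun f' hf' => ?_
        have h1 := CB5_harm y (mrk f * CB5_m 1 f f')
          (Nat.mul_pos (mrk_sq hF hf).1 (CB5_m_pos hF hf' 1))
        rw [Nat.cast_mul] at h1
        exact h1.trans (mul_le_mul_of_nonneg_left hharm (by positivity))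
    _ = 1 / T * (1 + Real.log N) * ∑ f ∈ tp D.BX, ∑ f' ∈ tp D.BX,
          1 / ((mrk f : ℝ) * CB5_m 1 f f') := by
        rw [sum_congr rfl fun f _ => (sum_mul (tp D.BX)
          (fun f' => 1 / ((mrk f : ℝ) * CB5_m 1 f f')) (1 + Real.log N)).symm, ← sum_mul]
        ring
    _ ≤ 1 / T * (1 + Real.log N) * (2 * (Real.log N) ^ 2 * rho D.BX) :=
        mul_le_mul_of_nonneg_left (CB5_prod hF 1) (by positivity)
    _ = (1 + Real.log N) * (2 * (Real.log N) ^ 2) * JJ N / D.J1 := by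
        rw [hT]
        field_simp
    _ ≤ (Real.log N) ^ 6 * JJ N / D.J1 := by
        refine div_le_div_of_nonneg_right ?_ hJ1.le
        refine mul_le_mul_of_nonneg_right ?_ hJ.le
        have h3 : (1 + Real.log N) * 2 ≤ (Real.log N) ^ 4 := by
          have h4 : (Real.log N) ^ 4 = Real.log N * (Real.log N) ^ 3 := by ring
          have h5 : (8 : ℝ) ≤ (Real.log N) ^ 3 := by
            calc (8 : ℝ) = 2 ^ 3 := by norm_num
              _ ≤ (Real.log N) ^ 3 := pow_le_pow_left₀ (by norm_num) hK 3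
          rw [h4]
          nlinarith
        calc (1 + Real.log N) * (2 * (Real.log N) ^ 2)
            = (1 + Real.log N) * 2 * (Real.log N) ^ 2 := by ring
          _ ≤ (Real.log N) ^ 4 * (Real.log N) ^ 2 :=
              mul_le_mul_of_nonneg_right h3 (by positivity)
          _ = (Real.log N) ^ 6 := by ring

end Pool.Agent.Lib.TCF
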