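import Pool.Agent.Lib.MP_7b7e48_nt.TCF.CB1
import Pool.Agent.Lib.MP_7b7e48_nt.TCF.CB2
import Pool.Agent.Lib.MP_7b7e48_nt.TCF.CB3
import Pool.Agent.Lib.MP_7b7e48_nt.TCF.CB4
import Pool.Agent.Lib.MP_7b7e48_nt.TCF.CB5

/-!
# Module CBT: the counting lemmas
-/

set_option autoImplicit false

open Finset

namespace Pool.Agent.Lib.TCF

open Pool.Agent.Lib.RG hiding RR sig Good
open Pool.Agent.Lib.RH

theorem cnt (P : Prm) (hP : P.Ok) : ∃ N0 : ℕ, ∀ (N : ℕ) [NeZero N], N0 ≤ N → ∀ D : Dat, D.Ok P N →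
    Cnt P N D := by
  obtain ⟨N1, h1⟩ := cb1 P hP
  obtain ⟨N2, h2⟩ := cb2 P hP
  obtain ⟨N3, h3⟩ := cb3 P hP
  obtain ⟨N4, h4⟩ := cb4 P hP
  obtain ⟨N5, h5⟩ := cb5 P hP
  obtain ⟨N6, h6⟩ := cb6 P hP
  refine ⟨N1 + N2 + N3 + N4 + N5 + N6, fun N _ hN D hD => ⟨?_, ?_, ?_, ?_, ?_, ?_⟩⟩
  · exact h1 N (by omega) D hD
  · exact h2 N (by omega) D hD
  · exact h3 N (by omega) D hD
  · exact h4 N (by omega) D hD
  · exact h5 N (by omega) D hD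
  · exact h6 N (by omega) D hD

end Pool.Agent.Lib.TCF
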