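import Pool.Agent.Lib.MP_7b7e48_nt.TCF.Maj

/-!
# Module Apx (75 minutes): the exceptional classes

PROOFS. `apx`: `A =` the units `x` such that some multiplier `l` has `AP l x > M M' / JJ` (`M = J1 rho_X`, `M' = J0 rho_Y`). There are at most `1 + 4 MM ^ 2 ≤ 5 MM ^ 2` multipliers (`Mul`: `l = 1` or `l ∈ PZ ⊆ [1, 4 MM ^ 2]`). So
`|A| * M M' / JJ ≤ ∑_l ∑_x AP l x ≤ 5 MM ^ 2 * 2 s (N M M' / (JJ ^ 4 MM ^ 4))`, i.e. `|A| ≤ 10 s N / JJ ^ 3 ≤ s N / JJ ^ 2`. The third claim: the bound for `l = 1`.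
`ap_del`: for the family without `Q` there are fewer `t` (`tup_mono`); all other data are equal; terms `≥ 0` (`aft_nonneg`).
`apin_of_rel`: for `x ∉ A` (a unit) all terms of `AP l x` vanish: `X = (l x).val + j N`, `Y = x.val + i N`, `Lk X t (l * Y) t'`, `X`, `Y` rough and coprime to `N`, `l Y < X` (`xy_lt`), `X ≤ J1 N` (`x_lt`), so `lam X = lam (l Y)` by `rel`. For `x ∈ A`: every inner number
of tuples `t' ∣ Y`, `t ∣ X` is at most the number of divisors, `≤ C N ^ (e1 / 16)` (`RG.divisor_bound`, numbers `≤ J1 N ≤ N ^ 2`: `(N ^ 2) ^ (e1 / 32)`), so `AP l x ≤ J1 J0 C ^ 2 N ^ (e1 / 8)`, and `∑_x AP l x ≤ N ^ (1 - e1) J1 J0 C ^ 2 N ^ (e1 / 8)`. Compare with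
`sgm N M M' / (JJ ^ 4 MM ^ 4)`: `M, M' ≥ 1` (`Dat.Ok.jx, jy`), `sgm N / JJ ^ 2 ≥ N ^ (1 - e1 / 4)` (hypothesis `hS`, this is `sgl` for `e1 / 4`), `N ≥ N ^ (1 - e1/4)`, and `J0 J1 ≤ J1 ^ 2 ≤ N ^ (e1/8)`? not true in general, so `J1 ≤ N ^ (kap / 1000)` is not enough: therefore the hypothesis
`hJ : J1 ≤ N ^ (e1 / 16)` is made. `JJ ^ 4 MM ^ 4 ≤ N ^ (e1 / 8)` for large `N` (`Num.J2`, `Num.M2`, `ev_log_pow`).
-/

set_option autoImplicit false

open Finset

namespace Pool.Agent.Lib.TCF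

open Pool.Agent.Lib.RG hiding RR sig Good
open Pool.Agent.Lib.RH
open Pool.Agent.Lib.MP_45349e_nt.LS (lam)

variable {P : Prm} {N : ℕ} [NeZero N] {D : Dat} {Lk : ℕ → ℕ → ℕ → ℕ → Prop} {Bd : ℕ → ℕ → Prop}

private theorem Apx_PZ_card (hn : NumX P N) : ((insert 1 (PZ N (MM P N))).card : ℝ) ≤ 5 * (MM P N : ℝ) ^ 2 := by
  classical
  have h1 : (PZ N (MM P N)).card ≤ 4 * MM P N ^ 2 := by
    have h2 : PZ N (MM P N) ⊆ Ioc 0 (4 * MM P N ^ 2) := by
      intro l hl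
      have h3 := mem_PZ.mp hl
      rw [mem_Ioc]
      exact ⟨h3.2.2.1.pos, h3.2.1⟩
    have h3 := card_le_card h2
    rw [Nat.card_Ioc] at h3
    omega
  have h2 := card_insert_le 1 (PZ N (MM P N))
  have h3 : 1 ≤ MM P N ^ 2 := Nat.one_le_pow _ _ (mm_one P N)
  have h4 : (insert 1 (PZ N (MM P N))).card ≤ 5 * MM P N ^ 2 := by omega
  exact_mod_cast h4

private theorem Apx_K (hn : NumX P N) : (10 : ℝ) ≤ JJ N := by
  have h1 := hK hn
  have h2 := jj_K hn
  have h3 : Real.log N ≤ (Real.log N) ^ 1000 := by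
    refine le_self_pow₀ (le_trans (by norm_num) h1) (by norm_num)
  linarith

open Classical in
theorem apx (hn : NumX P N) (hD : D.Ok P N) (s : ℝ) (hs : 0 ≤ s)
    (h : ∀ l : ℕ, Mul P N l → ∑ x : ZMod N, (if IsUnit x then AP P N D Lk Bd l x else 0) ≤
      2 * (s * (N * ((D.J1 * rho D.BX) * (D.J0 * rho D.BY)) / ((JJ N : ℝ) ^ 4 * (MM P N : ℝ) ^ 4)))) :
    ∃ A : Finset (ZMod N), (A.card : ℝ) ≤ s * N / (JJ N : ℝ) ^ 2 ∧
      (∀ l : ℕ, Mul P N l → ∀ x : ZMod N, IsUnit x → x ∉ A →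
        AP P N D Lk Bd l x ≤ (D.J1 * rho D.BX) * (D.J0 * rho D.BY) / JJ N) ∧
      ∑ x : ZMod N, (if IsUnit x then AP P N D Lk Bd 1 x else 0) ≤
        s * N * ((D.J1 * rho D.BX) * (D.J0 * rho D.BY)) / (JJ N : ℝ) ^ 2 := by
  classical
  have hM := mr_pos_X hn hD
  have hM' := mr_pos_Y hn hD
  set M : ℝ := D.J1 * rho D.BX with hMd
  set M' : ℝ := D.J0 * rho D.BY with hMd'
  have hJ := Apx_K hn
  set J : ℝ := (JJ N : ℝ) with hJd
  have hm1 : (1 : ℝ) ≤ (MM P N : ℝ) := by exact_mod_cast mm_one P N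
  set m : ℝ := (MM P N : ℝ) with hmd
  have hN : (0 : ℝ) < N := by
    have := N_two hn
    exact_mod_cast (show 0 < N by omega)
  have hJ0 : 0 < J := by linarith
  have hm0 : 0 < m := by linarith
  have hMM : 0 < M * M' := mul_pos hM hM'
  refine ⟨univ.filter fun x => IsUnit x ∧ ∃ l, Mul P N l ∧ M * M' / J < AP P N D Lk Bd l x, ?_, ?_, ?_⟩
  · set A := univ.filter fun x : ZMod N => IsUnit x ∧ ∃ l, Mul P N l ∧ M * M' / J < AP P N D Lk Bd l x with hA
    have h1 : (A.card : ℝ) * (M * M' / J) ≤ ∑ l ∈ insert 1 (PZ N (MM P N)), ∑ x : ZMod N,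
        (if IsUnit x then AP P N D Lk Bd l x else 0) := by
      rw [sum_comm]
      calc (A.card : ℝ) * (M * M' / J) = ∑ _x ∈ A, M * M' / J := by rw [sum_const, nsmul_eq_mul]
        _ ≤ ∑ x ∈ A, ∑ l ∈ insert 1 (PZ N (MM P N)), (if IsUnit x then AP P N D Lk Bd l x else 0) := by
            refine sum_le_sum fun x hx => ?_
            rw [hA, mem_filter] at hx
            obtain ⟨-, hu, l, hl, hlt⟩ := hx
            have hmem : l ∈ insert 1 (PZ N (MM P N)) := by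
              rw [mem_insert]
              exact hl
            have h2 := single_le_sum (f := fun l => if IsUnit x then AP P N D Lk Bd l x else 0)
              (s := insert 1 (PZ N (MM P N))) (fun l' _ => by
                rw [if_pos hu]
                exact ap_nonneg l' x) hmem
            rw [if_pos hu] at h2
            exact hlt.le.trans h2
        _ ≤ ∑ x : ZMod N, ∑ l ∈ insert 1 (PZ N (MM P N)), (if IsUnit x then AP P N D Lk Bd l x else 0) := by
            refine sum_le_sum_of_subset_of_nonneg (subset_univ _) fun x _ _ => sum_nonneg fun l _ => ?_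
            split_ifs
            · exact ap_nonneg l x
            · exact le_rfl
    have h2 : ∑ l ∈ insert 1 (PZ N (MM P N)), ∑ x : ZMod N, (if IsUnit x then AP P N D Lk Bd l x else 0) ≤
        (5 * m ^ 2) * (2 * (s * (N * (M * M') / (J ^ 4 * m ^ 4)))) := by
      calc _ ≤ ∑ _l ∈ insert 1 (PZ N (MM P N)), 2 * (s * (N * (M * M') / (J ^ 4 * m ^ 4))) := by
            refine sum_le_sum fun l hl => h l ?_
            rw [mem_insert] at hl
            exact hl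
        _ = ((insert 1 (PZ N (MM P N))).card : ℝ) * (2 * (s * (N * (M * M') / (J ^ 4 * m ^ 4)))) := by
            rw [sum_const, nsmul_eq_mul]
        _ ≤ _ := mul_le_mul_of_nonneg_right (Apx_PZ_card hn) (by positivity)
    have h3 := h1.trans h2
    have h4 : (A.card : ℝ) ≤ 10 * (s * N) / (J ^ 3 * m ^ 2) := by
      rw [le_div_iff₀ (by positivity)]
      have h5 : (5 * m ^ 2) * (2 * (s * (N * (M * M') / (J ^ 4 * m ^ 4)))) = 10 * (s * N) * (M * M' / J) / (J ^ 3 * m ^ 2) := by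
        field_simp
        ring
      rw [h5, le_div_iff₀ (by positivity)] at h3
      have h6 : 0 < M * M' / J := by positivity
      refine le_of_mul_le_mul_right ?_ h6
      linarith
    refine h4.trans ?_
    rw [div_le_div_iff₀ (by positivity) (by positivity)]
    have h5 : 0 ≤ s * N := by positivity
    have h6 : 1 ≤ m ^ 2 := one_le_pow₀ hm1
    have h7 : 10 * J ^ 2 ≤ J ^ 3 * m ^ 2 := by
      have h8 : J ^ 3 * 1 ≤ J ^ 3 * m ^ 2 := mul_le_mul_of_nonneg_left h6 (by positivity)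
      have h9 : J ^ 3 = J * J ^ 2 := by ring
      have h10 : 10 * J ^ 2 ≤ J * J ^ 2 := mul_le_mul_of_nonneg_right hJ (by positivity)
      linarith
    have h11 := mul_le_mul_of_nonneg_left h7 h5
    linarith
  · intro l hl x hx hxA
    by_contra hcon
    rw [not_le] at hcon
    refine hxA ?_
    rw [mem_filter]
    exact ⟨mem_univ _, hx, l, hl, hcon⟩
  · refine (h 1 (Or.inl rfl)).trans ?_
    have h1 : s * N * (M * M') / J ^ 2 = s * N * (M * M') * (1 / J ^ 2) := by ring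
    have h2 : 2 * (s * (N * (M * M') / (J ^ 4 * m ^ 4))) = s * N * (M * M') * (2 / (J ^ 4 * m ^ 4)) := by ring
    rw [h1, h2]
    refine mul_le_mul_of_nonneg_left ?_ (by positivity)
    rw [div_le_div_iff₀ (by positivity) (by positivity)]
    have h6 : 1 ≤ m ^ 4 := one_le_pow₀ hm1
    have h8 : J ^ 4 * 1 ≤ J ^ 4 * m ^ 4 := mul_le_mul_of_nonneg_left h6 (by positivity)
    have h9 : J ^ 4 = J ^ 2 * J ^ 2 := by ring
    have h10 : 2 * J ^ 2 ≤ J ^ 2 * J ^ 2 := by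
      refine mul_le_mul_of_nonneg_right ?_ (by positivity)
      nlinarith
    linarith

theorem ap_del (Q : Finset ℕ) (l : ℕ) (x : ZMod N) :
    AP P N (D.delX Q) Lk Bd l x ≤ AP P N D Lk Bd l x := by
  classical
  unfold AP
  refine sum_le_sum fun j _ => ?_
  by_cases hR : Rgh1 P N (((l : ZMod N) * x).val + j * N)
  · rw [if_pos hR, if_pos hR]
    refine sum_le_sum_of_subset_of_nonneg ?_ fun t _ _ => sum_nonneg fun i _ => aft_nonneg _ _ _ _ _ _ _ _ _
    refine filter_subset_filter _ (tup_mono fun c => ?_)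
    exact sdiff_subset
  · rw [if_neg hR, if_neg hR]

private theorem Apx_cast (x : ZMod N) (j : ℕ) : ((x.val + j * N : ℕ) : ZMod N) = x := by
  push_cast
  rw [ZMod.natCast_self, mul_zero, add_zero, ZMod.natCast_val, ZMod.cast_id', id]

omit [NeZero N] in
private theorem Apx_pos (hn : NumX P N) {a : ℕ} (h : Rgh1 P N a) : 0 < a := by
  rcases Nat.eq_zero_or_pos a with h0 | h0
  · exfalso
    have h1 := h.1
    rw [h0, Nat.coprime_zero_left] at h1
    have h2 := N_two hn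
    omega
  · exact h0

/-- trivial bound for one class -/
private theorem Apx_triv (hn : NumX P N) (hP : P.Ok) (hD : D.Ok P N) (E : ℝ) (hE : 0 ≤ E)
    (hd : ∀ X : ℕ, 0 < X → X ≤ N ^ 2 → (X.divisors.card : ℝ) ≤ E) (l : ℕ) (x : ZMod N) :
    AP P N D Lk Bd l x ≤ D.J1 * (E * (D.J0 * E)) := by
  classical
  have hJN := j1_N hn hD hP
  have hJ0 : D.J0 ≤ D.J1 := by
    have h1 := j0_le hn hD
    have h2 := j2_lt hn hD
    have h3 : 1 ≤ MM P N ^ 2 := Nat.one_le_pow _ _ (mm_one P N)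
    have h4 : 1 * D.J0 ≤ (8 * MM P N ^ 2) * D.J0 := Nat.mul_le_mul_right _ (by omega)
    omega
  have hcard : ∀ (B : Finset ℕ) (q : ℕ → Prop) [DecidablePred q] (X : ℕ), 0 < X → X ≤ N ^ 2 → (∀ t, q t → t ∣ X) →
      ((B.filter q).card : ℝ) ≤ E := by
    intro B q _ X hX hXN hq
    refine le_trans ?_ (hd X hX hXN)
    rw [Nat.cast_le]
    refine card_le_card fun t ht => ?_
    rw [mem_filter] at ht
    rw [Nat.mem_divisors]
    exact ⟨hq t ht.2, hX.ne'⟩
  have haft : ∀ X t i, i < D.J0 → AFt P N D Lk Bd l X t (x.val + i * N) ≤ E := by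
    intro X t i hi
    unfold AFt
    split_ifs with h
    · refine hcard _ _ (x.val + i * N) (Apx_pos hn h) ?_ (fun t ht => ht.1)
      have h1 := x_lt (D := D) x (show i < D.J1 by omega)
      omega
    · exact hE
  unfold AP
  calc _ ≤ ∑ _j ∈ Ico D.J2 D.J1, E * (D.J0 * E) := by
        refine sum_le_sum fun j hj => ?_
        rw [mem_Ico] at hj
        split_ifs with h
        · calc _ ≤ ∑ t ∈ (TUP D.BX).filter (fun t => t ∣ ((l : ZMod N) * x).val + j * N), (D.J0 * E) := by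
                refine sum_le_sum fun t _ => ?_
                calc _ ≤ ∑ _i ∈ range D.J0, E := sum_le_sum fun i hi => haft _ _ _ (mem_range.1 hi)
                  _ = D.J0 * E := by rw [sum_const, card_range, nsmul_eq_mul]
            _ = ((((TUP D.BX).filter (fun t => t ∣ ((l : ZMod N) * x).val + j * N)).card : ℕ) : ℝ) * (D.J0 * E) := by
                rw [sum_const, nsmul_eq_mul]
            _ ≤ E * (D.J0 * E) := by
                refine mul_le_mul_of_nonneg_right ?_ (by positivity)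
                refine hcard _ _ (((l : ZMod N) * x).val + j * N) (Apx_pos hn h) ?_ (fun t ht => ht)
                have h1 := x_lt (D := D) ((l : ZMod N) * x) hj.2
                omega
        · positivity
    _ = ((D.J1 - D.J2 : ℕ) : ℝ) * (E * (D.J0 * E)) := by rw [sum_const, Nat.card_Ico, nsmul_eq_mul]
    _ ≤ D.J1 * (E * (D.J0 * E)) := by
        refine mul_le_mul_of_nonneg_right ?_ (by positivity)
        exact_mod_cast Nat.sub_le _ _

/-- classes outside `A` -/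
private theorem Apx_out (hn : NumX P N) (hD : D.Ok P N) (A : Finset (ZMod N))
    (hrel : ∀ l X Y t t' : ℕ, Mul P N l → ((X : ℕ) : ZMod N) = (l : ZMod N) * ((Y : ℕ) : ZMod N) →
      ((Y : ℕ) : ZMod N) ∉ A → Rgh1 P N X → Rgh1 P N Y → l * Y < X → X ≤ D.J1 * N →
      t ∈ TUP D.BX → t' ∈ TUP D.BY → t ∣ X → t' ∣ Y → Lk X t (l * Y) t' → lam X = lam (l * Y))
    {l : ℕ} (hl : Mul P N l) {x : ZMod N} (hx : x ∉ A) : AP P N D Lk Bd l x ≤ 0 := by
  classical
  unfold AP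
  refine sum_nonpos fun j hj => ?_
  rw [mem_Ico] at hj
  split_ifs with hR
  · refine sum_nonpos fun t ht => sum_nonpos fun i hi => ?_
    rw [mem_filter] at ht
    rw [mem_range] at hi
    unfold AFt
    split_ifs with hY
    · rw [filter_eq_empty_iff.2, card_empty, Nat.cast_zero]
      rintro t' ht' ⟨g1, -, g3, g4⟩
      refine g4 (hrel l _ _ t t' hl ?_ ?_ hR hY ?_ ?_ ht.1 ht' ht.2 g1 g3)
      · rw [Apx_cast, Apx_cast]
      · rw [Apx_cast]
        exact hx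
      · have h1 := xy_lt hn hD hl ((l : ZMod N) * x) x hj.1 hi
        have h2 := jj_one hn
        have h3 : 1 * (l * (x.val + i * N)) ≤ JJ N * (l * (x.val + i * N)) := Nat.mul_le_mul_right _ h2
        omega
      · exact (x_lt (D := D) ((l : ZMod N) * x) hj.2).le
    · exact le_rfl
  · exact le_rfl

theorem apin_of_rel (P : Prm) (hP : P.Ok) (e1 : ℝ) (he : 0 < e1) : ∃ N0 : ℕ, ∀ (N : ℕ) [NeZero N],
    N0 ≤ N → NumX P N → ∀ D : Dat, D.Ok P N → (D.J1 : ℝ) ≤ (N : ℝ) ^ (e1 / 16) →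
    ∀ (Lk : ℕ → ℕ → ℕ → ℕ → Prop) (Bd : ℕ → ℕ → Prop) (A : Finset (ZMod N)),
    (A.card : ℝ) ≤ (N : ℝ) ^ (1 - e1) →
    (∀ l X Y t t' : ℕ, Mul P N l → ((X : ℕ) : ZMod N) = (l : ZMod N) * ((Y : ℕ) : ZMod N) →
      ((Y : ℕ) : ZMod N) ∉ A → Rgh1 P N X → Rgh1 P N Y → l * Y < X → X ≤ D.J1 * N →
      t ∈ TUP D.BX → t' ∈ TUP D.BY → t ∣ X → t' ∣ Y → Lk X t (l * Y) t' → lam X = lam (l * Y)) →
    (∀ χ : DirichletCharacter ℂ N, χ ^ 2 = 1 → χ ≠ 1 →
      (N : ℝ) ^ (1 - e1 / 4) ≤ sgm P χ * N / (JJ N : ℝ) ^ 2) →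
    ApIn P N D Lk Bd := by
  classical
  obtain ⟨C, hC1, hC⟩ := divisor_bound (e1 / 32) (by positivity)
  have hev := ev_log_pow (4000 + 4 * P.C1) (e1 / 8) (by positivity) (256 * C ^ 2) (by positivity)
  obtain ⟨N0, hN0⟩ := Filter.eventually_atTop.mp hev
  refine ⟨N0, fun N _ hNN hn D hD hJ1 Lk Bd A hA hrel hS => ?_⟩
  have hbig := hN0 N hNN
  have hN2 := N_two hn
  have hN1 : (1 : ℝ) ≤ N := by exact_mod_cast (show 1 ≤ N by omega)
  have hNp : (0 : ℝ) < N := by linarith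
  have hM1 : 1 ≤ D.J1 * rho D.BX := by
    refine le_trans ?_ hD.jx
    exact one_le_pow₀ (by exact_mod_cast jj_one hn)
  have hM1' : 1 ≤ D.J0 * rho D.BY := by
    refine le_trans ?_ hD.jy
    exact one_le_pow₀ (by exact_mod_cast jj_one hn)
  set M : ℝ := D.J1 * rho D.BX with hMd
  set M' : ℝ := D.J0 * rho D.BY with hMd'
  have hJ := Apx_K hn
  have hJup := hn.num.J2
  have hMup := hn.num.M2
  set J : ℝ := (JJ N : ℝ) with hJd
  have hm1 : (1 : ℝ) ≤ (MM P N : ℝ) := by exact_mod_cast mm_one P N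
  set m : ℝ := (MM P N : ℝ) with hmd
  have hJ0 : 0 < J := by linarith
  have hm0 : 0 < m := by linarith
  have hK1 : 1 ≤ Real.log N := le_trans (by norm_num) (hK hn)
  -- the bound for `J ^ 4 m ^ 4`
  have hJm : C ^ 2 * (J ^ 4 * m ^ 4) ≤ (N : ℝ) ^ (e1 / 8) := by
    refine le_trans ?_ hbig
    have h1 : J ^ 4 ≤ (2 * (Real.log N) ^ 1000) ^ 4 := pow_le_pow_left₀ hJ0.le hJup 4
    have h2 : m ^ 4 ≤ (2 * (Real.log N) ^ P.C1) ^ 4 := pow_le_pow_left₀ hm0.le hMup 4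
    have h3 : (2 * (Real.log N) ^ 1000) ^ 4 * (2 * (Real.log N) ^ P.C1) ^ 4 = 256 * (Real.log N) ^ (4000 + 4 * P.C1) := by
      rw [mul_pow, mul_pow, ← pow_mul, ← pow_mul, pow_add]
      ring
    calc C ^ 2 * (J ^ 4 * m ^ 4) ≤ C ^ 2 * ((2 * (Real.log N) ^ 1000) ^ 4 * (2 * (Real.log N) ^ P.C1) ^ 4) := by
          refine mul_le_mul_of_nonneg_left (mul_le_mul h1 h2 (by positivity) (by positivity)) (by positivity)
      _ = 256 * C ^ 2 * (Real.log N) ^ (4000 + 4 * P.C1) := by rw [h3]; ring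
  -- divisors
  set E : ℝ := C * (N : ℝ) ^ (e1 / 16) with hEd
  have hE : 0 ≤ E := by positivity
  have hd : ∀ X : ℕ, 0 < X → X ≤ N ^ 2 → (X.divisors.card : ℝ) ≤ E := by
    intro X hX hXN
    refine (hC X hX).trans (mul_le_mul_of_nonneg_left ?_ (by linarith))
    have h1 : (X : ℝ) ≤ (N : ℝ) ^ 2 := by exact_mod_cast hXN
    calc (X : ℝ) ^ (e1 / 32) ≤ ((N : ℝ) ^ 2) ^ (e1 / 32) := Real.rpow_le_rpow (by positivity) h1 (by positivity)
      _ = (N : ℝ) ^ (e1 / 16) := by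
          rw [← Real.rpow_natCast, ← Real.rpow_mul hNp.le]
          congr 1
          push_cast
          ring
  -- the sum over the classes
  have hJ01 : (D.J0 : ℝ) ≤ (N : ℝ) ^ (e1 / 16) := by
    refine le_trans ?_ hJ1
    have h1 := j0_le hn hD
    have h2 := j2_lt hn hD
    have h3 : 1 ≤ MM P N ^ 2 := Nat.one_le_pow _ _ (mm_one P N)
    have h4 : 1 * D.J0 ≤ (8 * MM P N ^ 2) * D.J0 := Nat.mul_le_mul_right _ (by omega)
    have h5 : D.J0 ≤ D.J1 := by omega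
    exact_mod_cast h5
  have hsum : ∀ l : ℕ, Mul P N l → ∑ x : ZMod N, (if IsUnit x then AP P N D Lk Bd l x else 0) ≤
      C ^ 2 * (N : ℝ) ^ (1 - 3 / 4 * e1) := by
    intro l hl
    have h1 : ∀ x : ZMod N, (if IsUnit x then AP P N D Lk Bd l x else 0) ≤
        if x ∈ A then D.J1 * (E * (D.J0 * E)) else 0 := by
      intro x
      by_cases hx : x ∈ A
      · rw [if_pos hx]
        split_ifs
        · exact Apx_triv hn hP hD E hE hd l x
        · positivity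
      · rw [if_neg hx]
        split_ifs
        · exact Apx_out hn hD A hrel hl hx
        · exact le_rfl
    have h2 : ∑ x : ZMod N, (if x ∈ A then D.J1 * (E * (D.J0 * E)) else 0) = (A.card : ℝ) * (D.J1 * (E * (D.J0 * E))) := by
      rw [sum_ite_mem, univ_inter, sum_const, nsmul_eq_mul]
    refine ((sum_le_sum fun x _ => h1 x).trans (le_of_eq h2)).trans ?_
    have h3 : D.J1 * (E * (D.J0 * E)) ≤ C ^ 2 * (N : ℝ) ^ (e1 / 4) := by
      have h4 : (N : ℝ) ^ (e1 / 4) = (N : ℝ) ^ (e1 / 16) * (N : ℝ) ^ (e1 / 16) * ((N : ℝ) ^ (e1 / 16) * (N : ℝ) ^ (e1 / 16)) := by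
        rw [← Real.rpow_add hNp, ← Real.rpow_add hNp]
        congr 1
        ring
      rw [h4, hEd]
      have h5 : (D.J1 : ℝ) * D.J0 ≤ (N : ℝ) ^ (e1 / 16) * (N : ℝ) ^ (e1 / 16) :=
        mul_le_mul hJ1 hJ01 (by positivity) (by positivity)
      have h6 : 0 ≤ C ^ 2 * ((N : ℝ) ^ (e1 / 16) * (N : ℝ) ^ (e1 / 16)) := by positivity
      have h7 := mul_le_mul_of_nonneg_left h5 h6
      calc _ = C ^ 2 * ((N : ℝ) ^ (e1 / 16) * (N : ℝ) ^ (e1 / 16)) * (D.J1 * D.J0) := by ring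
        _ ≤ _ := h7
        _ = _ := by ring
    calc (A.card : ℝ) * (D.J1 * (E * (D.J0 * E))) ≤ (N : ℝ) ^ (1 - e1) * (C ^ 2 * (N : ℝ) ^ (e1 / 4)) :=
          mul_le_mul hA h3 (by positivity) (by positivity)
      _ = C ^ 2 * ((N : ℝ) ^ (1 - e1) * (N : ℝ) ^ (e1 / 4)) := by ring
      _ = C ^ 2 * (N : ℝ) ^ (1 - 3 / 4 * e1) := by
          rw [← Real.rpow_add hNp]
          congr 2
          ring
  have hJm4 : 1 ≤ J ^ 4 * m ^ 4 := by
    have h1 : (1 : ℝ) ≤ J ^ 4 := one_le_pow₀ (by linarith)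
    have h2 : (1 : ℝ) ≤ m ^ 4 := one_le_pow₀ hm1
    nlinarith
  -- first bound
  have hfin : C ^ 2 * (N : ℝ) ^ (1 - 3 / 4 * e1) * (J ^ 4 * m ^ 4) ≤ (N : ℝ) ^ (1 - e1 / 4) := by
    calc C ^ 2 * (N : ℝ) ^ (1 - 3 / 4 * e1) * (J ^ 4 * m ^ 4) = (N : ℝ) ^ (1 - 3 / 4 * e1) * (C ^ 2 * (J ^ 4 * m ^ 4)) := by ring
      _ ≤ (N : ℝ) ^ (1 - 3 / 4 * e1) * (N : ℝ) ^ (e1 / 8) := mul_le_mul_of_nonneg_left hJm (by positivity)
      _ = (N : ℝ) ^ (1 - 3 / 4 * e1 + e1 / 8) := (Real.rpow_add hNp _ _).symm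
      _ ≤ (N : ℝ) ^ (1 - e1 / 4) := Real.rpow_le_rpow_of_exponent_le hN1 (by linarith)
  have hMM1 : 1 ≤ M * M' := by nlinarith
  constructor
  · intro l hl
    refine (hsum l hl).trans ?_
    rw [le_div_iff₀ (by positivity)]
    refine hfin.trans ?_
    have h1 : (N : ℝ) ^ (1 - e1 / 4) ≤ (N : ℝ) ^ (1 : ℝ) := Real.rpow_le_rpow_of_exponent_le hN1 (by linarith)
    rw [Real.rpow_one] at h1
    nlinarith
  · intro χ hsq hne _ _ l hl
    refine (hsum l hl).trans ?_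
    have h1 := hS χ hsq hne
    have hsg : 0 ≤ sgm P χ := sum_nonneg fun q _ => by positivity
    rw [le_div_iff₀ (by positivity)] at h1
    have h2 : sgm P χ * (N * (M * M') / (J ^ 4 * m ^ 4)) = sgm P χ * N * (M * M') / (J ^ 4 * m ^ 4) := by ring
    rw [h2, le_div_iff₀ (by positivity)]
    have h3 : (N : ℝ) ^ (1 - e1 / 4) ≤ sgm P χ * N := by
      refine le_trans ?_ h1
      have h4 : (1 : ℝ) ≤ J ^ 2 := one_le_pow₀ (by linarith)
      have h5 : 0 ≤ (N : ℝ) ^ (1 - e1 / 4) := by positivity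
      nlinarith
    have h4 : sgm P χ * N * 1 ≤ sgm P χ * N * (M * M') := mul_le_mul_of_nonneg_left hMM1 (by positivity)
    linarith

end Pool.Agent.Lib.TCF
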