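import Pool.Agent.Lib.MP_7b7e48_nt.TCF.Siz

/-!
# Module Maj (90 minutes): the majority sign

`x` a unit, `x ∉ A`, `Typ l x`. Write `P' = PX (l x)`, `Q = PY x` (both `> 0`), `F = FF`.
PROOF of `typ_pairs`: the pairs (`X`-number `X` of the class `l x` with `t ∣ X`, `Y`-number `Y` of the class `x` with `t' ∣ Y`), `X`, `Y` rough and coprime
to `N`, are `P' * Q` in number (`ph_eq`). The bad ones: for each `(X, t)` at most `BB t x ≤ Q / 20`, together `≤ P' Q / 20`. The pairs which are not bad and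
not linked: `UU l x ≤ P' Q / 40`. The remaining pairs are linked, so `lam X = lam (l * Y) = lam l * lam Y` (`PairIn.rel`, with `xy_lt`, `x_lt`,
`JJ ≥ 1`; the class of `Y = x.val + i N` is `x`). So the pairs with `lam X ≠ lam l * lam Y` are at most `(3 / 40) P' Q`, i.e.
`∑_j ∑_i ph X_j * ph Y_i * [lam X_j ≠ lam l * lam Y_i] ≤ (3 / 40) P' Q`.
`typ_y`: `l = 1`, `Typ l x` contains the conditions for `l = 1` (`x2`, `u2`, so `typ_one`). Let `p` be the weight of the `X` with `lam X = F x`; `p ≥ PX x / 2` by the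
definition of `FF` (`lam = ± 1`; `SX = p₊ - p₋`). The pairs with `lam X = F x ≠ lam Y`: `p * q' ≤ (3 / 40) PX x * Q`, so `q' ≤ (3 / 20) Q`.
`maj1`: assume `F (l x) ≠ lam l * F x`, so `F (l x) = - lam l * F x`. The `X` in the class `l x` with `lam X = F (l x)` weigh `≥ P' / 2`, the `Y` with `lam Y = F x`
weigh `≥ (17 / 20) Q`; for these pairs `lam X ≠ lam l * lam Y`: `(17 / 40) P' Q ≤ (3 / 40) P' Q`, contradiction.
`maj3`: if `Y` is linked to `(X, t)` by `t'` (`Lk X t Y t'`) then `lam X = lam Y` (`rel` with `l = 1`: `Lk X t (1 * Y) t'`), so `lam Y ≠ F x`. So for every `Y` with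
`lam Y = F x` all `t' ∣ Y` are bad for `t` or counted in `NLt X t Y`; sum over `i`: `(17 / 20) Q ≤ BB t x + ∑_i NLt ≤ Q / 20 + ∑_i NLt`.
`maj4`: sum `maj3` over `t ∣ X_j` and `j` with `lam X_j ≠ F x` (`nl_one`, `ph_eq`).
-/

set_option autoImplicit false

open Finset

namespace Pool.Agent.Lib.TCF

open Pool.Agent.Lib.RG hiding RR sig Good
open Pool.Agent.Lib.RH
open Pool.Agent.Lib.MP_45349e_nt.LS (lam)

variable {P : Prm} {N : ℕ} [NeZero N] {D : Dat} {Lk : ℕ → ℕ → ℕ → ℕ → Prop} {Bd : ℕ → ℕ → Prop}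
  {A : Finset (ZMod N)}

private theorem maj_lam_pm (a : ℕ) : lam a = 1 ∨ lam a = -1 := by
  have h := Pool.Agent.Lib.MP_45349e_nt.LS.abs_lam a
  rcases (abs_eq (by norm_num : (0 : ℝ) ≤ 1)).mp h with h1 | h1
  · exact Or.inl h1
  · exact Or.inr h1

private theorem maj_lam_one : lam 1 = 1 := Pool.Agent.Lib.MP_45349e_nt.LS.lam_one

theorem ff_zero {x : ZMod N} (hx : ¬ IsUnit x) : FF P N D x = 0 := by
  unfold FF
  rw [if_neg hx]

theorem ff_pm {x : ZMod N} (hx : IsUnit x) : FF P N D x = 1 ∨ FF P N D x = -1 := by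
  unfold FF
  rw [if_pos hx]
  by_cases h : 0 ≤ SX P N D x
  · left; rw [if_pos h]
  · right; rw [if_neg h]

theorem ff_sq {x : ZMod N} (hx : IsUnit x) : FF P N D x ^ 2 = 1 := by
  rcases ff_pm (P := P) (D := D) hx with h | h <;> rw [h] <;> norm_num

/-- at least half of the weight of the `X`-numbers has the sign `FF x` -/
theorem ff_half {x : ZMod N} (hx : IsUnit x) : PX P N D x ≤
    2 * ∑ j ∈ Ico D.J2 D.J1, (if lam (x.val + j * N) = FF P N D x then ph P N D.BX (x.val + j * N) else 0) := by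
  by_cases h : 0 ≤ SX P N D x
  · have hF : FF P N D x = 1 := by
      unfold FF
      rw [if_pos hx, if_pos h]
    rw [hF]
    have h1 : PX P N D x = 2 * ∑ j ∈ Ico D.J2 D.J1, (if lam (x.val + j * N) = 1 then
        ph P N D.BX (x.val + j * N) else 0) - SX P N D x := by
      unfold PX SX
      rw [mul_sum, ← sum_sub_distrib]
      refine sum_congr rfl fun j _ => ?_
      rcases maj_lam_pm (x.val + j * N) with h2 | h2
      · rw [h2, if_pos rfl]; ring
      · rw [h2, if_neg (by norm_num)]; ring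
    linarith
  · have hF : FF P N D x = -1 := by
      unfold FF
      rw [if_pos hx, if_neg h]
    rw [hF]
    have h1 : PX P N D x = 2 * ∑ j ∈ Ico D.J2 D.J1, (if lam (x.val + j * N) = -1 then
        ph P N D.BX (x.val + j * N) else 0) + SX P N D x := by
      unfold PX SX
      rw [mul_sum, ← sum_add_distrib]
      refine sum_congr rfl fun j _ => ?_
      rcases maj_lam_pm (x.val + j * N) with h2 | h2
      · rw [h2, if_neg (by norm_num)]; ring
      · rw [h2, if_pos rfl]; ring
    have h2 : SX P N D x < 0 := lt_of_not_ge h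
    linarith

/-- representatives of a class have the class -/
private theorem maj_cast (x : ZMod N) (j : ℕ) : ((x.val + j * N : ℕ) : ZMod N) = x := by
  push_cast
  rw [ZMod.natCast_self, mul_zero, add_zero, ZMod.natCast_val, ZMod.cast_id', id]

private theorem maj_rgh_pos (hn : NumX P N) {a : ℕ} (h : Rgh1 P N a) : 0 < a := by
  rcases Nat.eq_zero_or_pos a with h0 | h0
  · exfalso
    have h1 := h.1
    rw [h0, Nat.coprime_zero_left] at h1
    have h2 := N_two hn
    omega
  · exact h0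

theorem aft_nonneg (P : Prm) (N : ℕ) (D : Dat) (Lk : ℕ → ℕ → ℕ → ℕ → Prop) (Bd : ℕ → ℕ → Prop)
    (l X t Y : ℕ) : 0 ≤ AFt P N D Lk Bd l X t Y := by
  unfold AFt
  split_ifs
  · exact Nat.cast_nonneg _
  · exact le_rfl

theorem ap_nonneg (l : ℕ) (x : ZMod N) : 0 ≤ AP P N D Lk Bd l x := by
  unfold AP
  refine sum_nonneg fun j _ => ?_
  split_ifs
  · exact sum_nonneg fun t _ => sum_nonneg fun i _ => aft_nonneg _ _ _ _ _ _ _ _ _
  · exact le_rfl

open Classical in
/-- number of bad pairs at one `Y`-number -/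
private noncomputable def majB (P : Prm) (N : ℕ) (D : Dat) (Bd : ℕ → ℕ → Prop) (t Y : ℕ) : ℝ :=
  if Rgh1 P N Y then (((TUP D.BY).filter fun t' => t' ∣ Y ∧ Bd t t').card : ℝ) else 0

private theorem majB_nonneg (t Y : ℕ) : 0 ≤ majB P N D Bd t Y := by
  unfold majB
  split_ifs
  · exact Nat.cast_nonneg _
  · exact le_rfl

private theorem majB_sum (t : ℕ) (x : ZMod N) :
    ∑ i ∈ range D.J0, majB P N D Bd t (x.val + i * N) = BB P N D Bd t x := rfl

private theorem maj_card {S : Finset ℕ} {p q r : ℕ → Prop} [DecidablePred p] [DecidablePred q]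
    [DecidablePred r] (h : ∀ t' ∈ S, p t' → q t' ∨ r t') :
    ((S.filter p).card : ℝ) ≤ ((S.filter q).card : ℝ) + ((S.filter r).card : ℝ) := by
  have h1 : S.filter p ⊆ S.filter q ∪ S.filter r := by
    intro t' ht'
    obtain ⟨h2, h3⟩ := mem_filter.mp ht'
    rcases h t' h2 h3 with h4 | h4
    · exact mem_union_left _ (mem_filter.mpr ⟨h2, h4⟩)
    · exact mem_union_right _ (mem_filter.mpr ⟨h2, h4⟩)
  have h2 := (card_le_card h1).trans (card_union_le _ _)
  exact_mod_cast h2

/-- one `X`-number, one tuple, one `Y`-number -/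
private theorem maj_one (hh : Hyp P N D Lk Bd A) {l : ℕ} (hl : Mul P N l) {X t Y : ℕ}
    (hne : lam X ≠ lam l * lam Y) :
    ph P N D.BY Y ≤ NLt P N D (fun X t Y t' => Lk X t (l * Y) t') Bd X t Y +
        majB P N D Bd t Y + AFt P N D Lk Bd l X t Y := by
  classical
  by_cases hY : Rgh1 P N Y
  · rw [ph_eq hh.ok.fy hY]
    unfold NLt majB AFt
    rw [if_pos hY, if_pos hY, if_pos hY]
    have hpos := maj_rgh_pos hh.nx hY
    have h1 := maj_card (S := TUP D.BY) (p := fun t' => t' ∣ Y)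
      (q := fun t' => t' ∣ Y ∧ ¬ Bd t t' ∧ ¬ Lk X t (l * Y) t')
      (r := fun t' => (t' ∣ Y ∧ Bd t t') ∨ (t' ∣ Y ∧ ¬ Bd t t' ∧ Lk X t (l * Y) t' ∧ lam X ≠ lam (l * Y)))
      (fun t' _ hd' => by
        by_cases hb : Bd t t'
        · exact Or.inr (Or.inl ⟨hd', hb⟩)
        · by_cases hk : Lk X t (l * Y) t'
          · refine Or.inr (Or.inr ⟨hd', hb, hk, ?_⟩)
            rw [lam_mul_Mul hh.nx hl hpos]
            exact hne
          · exact Or.inl ⟨hd', hb, hk⟩)
    have h2 := maj_card (S := TUP D.BY)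
      (p := fun t' => (t' ∣ Y ∧ Bd t t') ∨ (t' ∣ Y ∧ ¬ Bd t t' ∧ Lk X t (l * Y) t' ∧ lam X ≠ lam (l * Y)))
      (q := fun t' => t' ∣ Y ∧ Bd t t')
      (r := fun t' => t' ∣ Y ∧ ¬ Bd t t' ∧ Lk X t (l * Y) t' ∧ lam X ≠ lam (l * Y))
      (fun t' _ h => h)
    linarith
  · rw [ph_zero hY]
    unfold NLt majB AFt
    rw [if_neg hY, if_neg hY, if_neg hY]
    norm_num

private theorem maj_nl {l : ℕ} {X Y : ℕ} (hX : Rgh1 P N X) : NL P N D Lk Bd l X Y =
    ∑ t ∈ (TUP D.BX).filter (fun t => t ∣ X), NLt P N D (fun X t Y t' => Lk X t (l * Y) t') Bd X t Y := by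
  classical
  unfold NL NLt
  by_cases hY : Rgh1 P N Y
  · rw [if_pos ⟨hX, hY⟩]
    refine sum_congr rfl fun t _ => ?_
    rw [if_pos hY]
  · rw [if_neg (fun h => hY h.2)]
    symm
    refine sum_eq_zero fun t _ => ?_
    rw [if_neg hY]

/-- the linked pairs with the wrong sign are few in a typical class -/
private theorem maj_ap (hh : Hyp P N D Lk Bd A) {l : ℕ} (hl : Mul P N l) {x : ZMod N} (hx : IsUnit x)
    (hA : x ∉ A) (ht : Typ P N D Lk Bd l x) :
    AP P N D Lk Bd l x ≤ 1 / 40 * (PX P N D ((l : ZMod N) * x) * PY P N D x) := by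
  have hK9 := hK hh.nx
  have hJ := jj_K hh.nx
  have h1 := hh.apa l hl x hx hA
  have h2 := ht.x1
  have h3 := ht.y1
  have hMX := mr_pos_X hh.nx hh.ok
  have hMY := mr_pos_Y hh.nx hh.ok
  set K := Real.log N with hKd
  have hK0 : 0 < K := by linarith
  have hK1 : 1 ≤ K := by linarith
  have hJ0 : (0 : ℝ) < JJ N := lt_of_lt_of_le (by positivity) hJ
  rw [div_le_iff₀ (by positivity)] at h2 h3
  have hPX : 0 ≤ PX P N D ((l : ZMod N) * x) := px_nonneg _
  have hPY : 0 ≤ PY P N D x := py_nonneg _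
  have h4 : (D.J1 * rho D.BX) * (D.J0 * rho D.BY) ≤
      (PX P N D ((l : ZMod N) * x) * K ^ 2) * (PY P N D x * K ^ 2) :=
    mul_le_mul h2 h3 hMY.le (by positivity)
  have h5 : 40 * K ^ 4 ≤ JJ N := by
    calc 40 * K ^ 4 ≤ K * K ^ 4 := by gcongr; linarith
      _ = K ^ 5 := by ring
      _ ≤ K ^ 1000 := pow_le_pow_right₀ hK1 (by norm_num)
      _ ≤ JJ N := hJ
  refine h1.trans ?_
  rw [div_le_iff₀ hJ0]
  have h6 : 0 ≤ PX P N D ((l : ZMod N) * x) * PY P N D x := mul_nonneg hPX hPY
  calc (D.J1 * rho D.BX) * (D.J0 * rho D.BY) ≤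
      (PX P N D ((l : ZMod N) * x) * K ^ 2) * (PY P N D x * K ^ 2) := h4
    _ = 1 / 40 * (PX P N D ((l : ZMod N) * x) * PY P N D x) * (40 * K ^ 4) := by ring
    _ ≤ 1 / 40 * (PX P N D ((l : ZMod N) * x) * PY P N D x) * JJ N :=
        mul_le_mul_of_nonneg_left h5 (by positivity)

open Classical in
theorem typ_pairs (hh : Hyp P N D Lk Bd A) {l : ℕ} (hl : Mul P N l) {x : ZMod N} (hx : IsUnit x)
    (hA : x ∉ A) (ht : Typ P N D Lk Bd l x) :
    ∑ j ∈ Ico D.J2 D.J1, ∑ i ∈ range D.J0,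
      (if lam (((l : ZMod N) * x).val + j * N) ≠ lam l * lam (x.val + i * N) then
        ph P N D.BX (((l : ZMod N) * x).val + j * N) * ph P N D.BY (x.val + i * N) else 0) ≤
      1 / 10 * (PX P N D ((l : ZMod N) * x) * PY P N D x) := by
  have key : ∀ j ∈ Ico D.J2 D.J1, ∑ i ∈ range D.J0,
      (if lam (((l : ZMod N) * x).val + j * N) ≠ lam l * lam (x.val + i * N) then
        ph P N D.BX (((l : ZMod N) * x).val + j * N) * ph P N D.BY (x.val + i * N) else 0) ≤
      (∑ i ∈ range D.J0, NL P N D Lk Bd l (((l : ZMod N) * x).val + j * N) (x.val + i * N) +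
        ph P N D.BX (((l : ZMod N) * x).val + j * N) * (PY P N D x / 20)) +
      (if Rgh1 P N (((l : ZMod N) * x).val + j * N) then
        ∑ t ∈ (TUP D.BX).filter (fun t => t ∣ ((l : ZMod N) * x).val + j * N), ∑ i ∈ range D.J0,
          AFt P N D Lk Bd l (((l : ZMod N) * x).val + j * N) t (x.val + i * N) else 0) := by
    intro j hj
    obtain ⟨hj1, hj2⟩ := mem_Ico.mp hj
    by_cases hX : Rgh1 P N (((l : ZMod N) * x).val + j * N)
    · rw [if_pos hX]
      have h1 : ∑ i ∈ range D.J0,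
          (if lam (((l : ZMod N) * x).val + j * N) ≠ lam l * lam (x.val + i * N) then
            ph P N D.BX (((l : ZMod N) * x).val + j * N) * ph P N D.BY (x.val + i * N) else 0) ≤
          ∑ i ∈ range D.J0, (NL P N D Lk Bd l (((l : ZMod N) * x).val + j * N) (x.val + i * N) +
            ∑ t ∈ (TUP D.BX).filter (fun t => t ∣ ((l : ZMod N) * x).val + j * N),
              majB P N D Bd t (x.val + i * N) +
            ∑ t ∈ (TUP D.BX).filter (fun t => t ∣ ((l : ZMod N) * x).val + j * N),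
              AFt P N D Lk Bd l (((l : ZMod N) * x).val + j * N) t (x.val + i * N)) := by
        refine sum_le_sum fun i hi => ?_
        by_cases hne : lam (((l : ZMod N) * x).val + j * N) ≠ lam l * lam (x.val + i * N)
        · rw [if_pos hne, ph_eq hh.ok.fx hX, maj_nl hX, ← sum_add_distrib, ← sum_add_distrib,
            ← nsmul_eq_mul, ← sum_const]
          exact sum_le_sum fun t _ => maj_one hh hl hne
        · rw [if_neg hne]
          exact add_nonneg (add_nonneg (nl_nonneg _ _ _ _ _ _ _ _) (sum_nonneg fun t _ => majB_nonneg _ _))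
            (sum_nonneg fun t _ => aft_nonneg _ _ _ _ _ _ _ _ _)
      refine h1.trans ?_
      rw [sum_add_distrib, sum_add_distrib]
      refine add_le_add (add_le_add le_rfl ?_) (le_of_eq sum_comm)
      rw [sum_comm]
      calc ∑ t ∈ (TUP D.BX).filter (fun t => t ∣ ((l : ZMod N) * x).val + j * N),
            ∑ i ∈ range D.J0, majB P N D Bd t (x.val + i * N)
          ≤ ∑ t ∈ (TUP D.BX).filter (fun t => t ∣ ((l : ZMod N) * x).val + j * N),
            PY P N D x / 20 := by
            refine sum_le_sum fun t ht' => ?_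
            rw [majB_sum]
            have h2 := ht.bs t (mem_filter.mp ht').1
            linarith
        _ = ph P N D.BX (((l : ZMod N) * x).val + j * N) * (PY P N D x / 20) := by
            rw [sum_const, nsmul_eq_mul, ph_eq hh.ok.fx hX]
    · rw [ph_zero hX, zero_mul, add_zero, if_neg hX, add_zero]
      refine sum_le_sum fun i _ => ?_
      rw [zero_mul, ite_self]
      exact nl_nonneg _ _ _ _ _ _ _ _
  refine (sum_le_sum key).trans ?_
  rw [sum_add_distrib, sum_add_distrib, ← sum_mul]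
  have h1 := ht.u1
  unfold UU at h1
  have h2 : ∑ j ∈ Ico D.J2 D.J1, ph P N D.BX (((l : ZMod N) * x).val + j * N) =
    PX P N D ((l : ZMod N) * x) := rfl
  have h3 := maj_ap hh hl hx hA ht
  unfold AP at h3
  rw [h2]
  linarith

theorem typ_one {l : ℕ} {x : ZMod N} (ht : Typ P N D Lk Bd l x) : Typ P N D Lk Bd 1 x := by
  refine ⟨?_, ht.x2, ht.y1, ht.bs, ?_, ht.u2⟩
  · rw [Nat.cast_one, one_mul]; exact ht.x2
  · rw [Nat.cast_one, one_mul]; exact ht.u2

private theorem maj_log_pos (hh : Hyp P N D Lk Bd A) : 0 < Real.log N :=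
  lt_of_lt_of_le (by norm_num) (hK hh.nx)

theorem typ_pos (hh : Hyp P N D Lk Bd A) {l : ℕ} {x : ZMod N} (ht : Typ P N D Lk Bd l x) :
    0 < PX P N D x ∧ 0 < PY P N D x ∧ 0 < PX P N D ((l : ZMod N) * x) := by
  have hK := maj_log_pos hh
  have h1 : 0 < D.J1 * rho D.BX / (Real.log N) ^ 2 := div_pos (mr_pos_X hh.nx hh.ok) (by positivity)
  have h2 : 0 < D.J0 * rho D.BY / (Real.log N) ^ 2 := div_pos (mr_pos_Y hh.nx hh.ok) (by positivity)
  exact ⟨h1.trans_le ht.x2, h2.trans_le ht.y1, h1.trans_le ht.x1⟩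

/-- product of the weight of some `X`-numbers and of some `Y`-numbers which form wrong pairs -/
private theorem maj_prod (hh : Hyp P N D Lk Bd A) {l : ℕ} (hl : Mul P N l) {x : ZMod N} (hx : IsUnit x)
    (hA : x ∉ A) (ht : Typ P N D Lk Bd l x) {p q : ℕ → Prop} [DecidablePred p] [DecidablePred q]
    (hpq : ∀ j i, p (((l : ZMod N) * x).val + j * N) → q (x.val + i * N) →
      lam (((l : ZMod N) * x).val + j * N) ≠ lam l * lam (x.val + i * N)) :
    (∑ j ∈ Ico D.J2 D.J1, (if p (((l : ZMod N) * x).val + j * N) then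
        ph P N D.BX (((l : ZMod N) * x).val + j * N) else 0)) *
      (∑ i ∈ range D.J0, (if q (x.val + i * N) then ph P N D.BY (x.val + i * N) else 0)) ≤
      1 / 10 * (PX P N D ((l : ZMod N) * x) * PY P N D x) := by
  refine le_trans ?_ (typ_pairs hh hl hx hA ht)
  rw [sum_mul_sum]
  refine sum_le_sum fun j _ => sum_le_sum fun i _ => ?_
  by_cases h1 : p (((l : ZMod N) * x).val + j * N)
  · by_cases h2 : q (x.val + i * N)
    · rw [if_pos h1, if_pos h2, if_pos (hpq j i h1 h2)]
    · rw [if_neg h2, mul_zero]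
      split_ifs
      · exact mul_nonneg (ph_nonneg _ _ _ _) (ph_nonneg _ _ _ _)
      · exact le_rfl
  · rw [if_neg h1, zero_mul]
    split_ifs
    · exact mul_nonneg (ph_nonneg _ _ _ _) (ph_nonneg _ _ _ _)
    · exact le_rfl

open Classical in
theorem typ_y (hh : Hyp P N D Lk Bd A) {l : ℕ} {x : ZMod N} (hx : IsUnit x) (hA : x ∉ A)
    (ht : Typ P N D Lk Bd l x) : 4 / 5 * PY P N D x ≤
      ∑ i ∈ range D.J0, (if lam (x.val + i * N) = FF P N D x then ph P N D.BY (x.val + i * N) else 0) := by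
  have ht1 := typ_one ht
  obtain ⟨hp1, hp2, -⟩ := typ_pos hh ht
  have h1 := maj_prod hh (Or.inl rfl) hx hA ht1 (p := fun a => lam a = FF P N D x)
    (q := fun a => ¬ lam a = FF P N D x) (by
      intro j i h2 h3 h4
      rw [maj_lam_one, one_mul] at h4
      exact h3 (h4.symm.trans h2))
  rw [Nat.cast_one, one_mul] at h1
  have h2 := ff_half (P := P) (D := D) hx
  have h3 : PY P N D x =
      (∑ i ∈ range D.J0, (if lam (x.val + i * N) = FF P N D x then ph P N D.BY (x.val + i * N) else 0)) +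
      (∑ i ∈ range D.J0, (if ¬ lam (x.val + i * N) = FF P N D x then ph P N D.BY (x.val + i * N) else 0)) := by
    unfold PY
    rw [← sum_add_distrib]
    refine sum_congr rfl fun i _ => ?_
    by_cases h4 : lam (x.val + i * N) = FF P N D x
    · rw [if_pos h4, if_neg (not_not.mpr h4), add_zero]
    · rw [if_neg h4, if_pos h4, zero_add]
  set p := ∑ j ∈ Ico D.J2 D.J1, (if lam (x.val + j * N) = FF P N D x then
    ph P N D.BX (x.val + j * N) else 0)
  set q := ∑ i ∈ range D.J0, (if lam (x.val + i * N) = FF P N D x then ph P N D.BY (x.val + i * N) else 0)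
  set q' := ∑ i ∈ range D.J0, (if ¬ lam (x.val + i * N) = FF P N D x then
    ph P N D.BY (x.val + i * N) else 0) with hq'
  have hq0 : 0 ≤ q' := by
    rw [hq']
    refine sum_nonneg fun i _ => ?_
    split_ifs
    · exact le_rfl
    · exact ph_nonneg _ _ _ _
  have h4 : PX P N D x / 2 * q' ≤ 1 / 10 * (PX P N D x * PY P N D x) := by
    refine le_trans ?_ h1
    exact mul_le_mul_of_nonneg_right (by linarith) hq0
  have h5 : q' ≤ 1 / 5 * PY P N D x := by
    by_contra h6
    push Not at h6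
    have h7 : PX P N D x / 2 * (1 / 5 * PY P N D x) < PX P N D x / 2 * q' :=
      mul_lt_mul_of_pos_left h6 (by linarith)
    nlinarith
  linarith

theorem maj1 (hh : Hyp P N D Lk Bd A) {l : ℕ} (hl : Mul P N l) {x : ZMod N} (hx : IsUnit x)
    (hA : x ∉ A) (ht : Typ P N D Lk Bd l x) : FF P N D ((l : ZMod N) * x) = lam l * FF P N D x := by
  classical
  by_contra hne
  obtain ⟨-, -, hlc, -, hlp⟩ := mul_facts hh.nx hl
  have hul : IsUnit (l : ZMod N) := (ZMod.isUnit_iff_coprime l N).mpr hlc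
  have hulx : IsUnit ((l : ZMod N) * x) := hul.mul hx
  obtain ⟨-, hp2, hp3⟩ := typ_pos hh ht
  have h1 := maj_prod hh hl hx hA ht (p := fun a => lam a = FF P N D ((l : ZMod N) * x))
    (q := fun a => lam a = FF P N D x) (by
      intro j i h2 h3 h4
      apply hne
      rw [← h2, h4, h3])
  have h2 := ff_half (P := P) (D := D) hulx
  have h3 := typ_y hh hx hA ht
  set p := ∑ j ∈ Ico D.J2 D.J1, (if lam (((l : ZMod N) * x).val + j * N) = FF P N D ((l : ZMod N) * x) then
    ph P N D.BX (((l : ZMod N) * x).val + j * N) else 0)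
  set q := ∑ i ∈ range D.J0, (if lam (x.val + i * N) = FF P N D x then ph P N D.BY (x.val + i * N) else 0)
  have h4 : PX P N D ((l : ZMod N) * x) / 2 * (4 / 5 * PY P N D x) ≤ p * q :=
    mul_le_mul (by linarith) h3 (by positivity) (by linarith)
  have h5 : 0 < PX P N D ((l : ZMod N) * x) * PY P N D x := mul_pos hp3 hp2
  nlinarith

open Classical in
theorem maj3 (hh : Hyp P N D Lk Bd A) {l : ℕ} {x : ZMod N} (hx : IsUnit x) (hA : x ∉ A)
    (ht : Typ P N D Lk Bd l x) {X t : ℕ} (hm : t ∈ TUP D.BX) (hne : lam X ≠ FF P N D x) :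
    3 / 4 * PY P N D x ≤ ∑ i ∈ range D.J0, (NLt P N D Lk Bd X t (x.val + i * N) +
      AFt P N D Lk Bd 1 X t (x.val + i * N)) := by
  have h1 := typ_y hh hx hA ht
  have h2 : ∑ i ∈ range D.J0, (if lam (x.val + i * N) = FF P N D x then ph P N D.BY (x.val + i * N) else 0) ≤
      ∑ i ∈ range D.J0, ((NLt P N D Lk Bd X t (x.val + i * N) +
        AFt P N D Lk Bd 1 X t (x.val + i * N)) + majB P N D Bd t (x.val + i * N)) := by
    refine sum_le_sum fun i hi => ?_
    by_cases h3 : lam (x.val + i * N) = FF P N D x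
    · rw [if_pos h3]
      have h4 := maj_one (l := 1) (X := X) (t := t) (Y := x.val + i * N) hh (Or.inl rfl)
        (by rw [maj_lam_one, one_mul, h3]; exact hne)
      have h5 : NLt P N D (fun X t Y t' => Lk X t (1 * Y) t') Bd X t (x.val + i * N) =
          NLt P N D Lk Bd X t (x.val + i * N) := by
        simp only [one_mul]
      rw [h5] at h4
      linarith
    · rw [if_neg h3]
      exact add_nonneg (add_nonneg (nlt_nonneg _ _ _ _ _ _ _ _) (aft_nonneg _ _ _ _ _ _ _ _ _))
        (majB_nonneg _ _)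
  rw [sum_add_distrib (f := fun i => NLt P N D Lk Bd X t (x.val + i * N) +
        AFt P N D Lk Bd 1 X t (x.val + i * N)), majB_sum] at h2
  have h3 := ht.bs t hm
  linarith

open Classical in
theorem maj4 (hh : Hyp P N D Lk Bd A) {l : ℕ} {x : ZMod N} (hx : IsUnit x) (hA : x ∉ A)
    (ht : Typ P N D Lk Bd l x) :
    3 / 4 * PY P N D x * ∑ j ∈ Ico D.J2 D.J1,
      (if lam (x.val + j * N) ≠ FF P N D x then ph P N D.BX (x.val + j * N) else 0) ≤
      UU P N D Lk Bd 1 x + AP P N D Lk Bd 1 x := by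
  unfold UU AP
  rw [Nat.cast_one, one_mul, mul_sum, ← sum_add_distrib]
  refine sum_le_sum fun j hj => ?_
  have hnn : 0 ≤ (if Rgh1 P N (x.val + j * N) then
      ∑ t ∈ (TUP D.BX).filter (fun t => t ∣ x.val + j * N), ∑ i ∈ range D.J0,
        AFt P N D Lk Bd 1 (x.val + j * N) t (x.val + i * N) else 0) := by
    split_ifs
    · exact sum_nonneg fun t _ => sum_nonneg fun i _ => aft_nonneg _ _ _ _ _ _ _ _ _
    · exact le_rfl
  by_cases hne : lam (x.val + j * N) ≠ FF P N D x
  · rw [if_pos hne]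
    by_cases hX : Rgh1 P N (x.val + j * N)
    · rw [ph_eq hh.ok.fx hX, if_pos hX]
      calc 3 / 4 * PY P N D x * (((TUP D.BX).filter fun t => t ∣ x.val + j * N).card : ℝ)
          = ∑ t ∈ (TUP D.BX).filter (fun t => t ∣ x.val + j * N), 3 / 4 * PY P N D x := by
            rw [sum_const, nsmul_eq_mul, mul_comm]
        _ ≤ ∑ t ∈ (TUP D.BX).filter (fun t => t ∣ x.val + j * N),
              ∑ i ∈ range D.J0, (NLt P N D Lk Bd (x.val + j * N) t (x.val + i * N) +
                AFt P N D Lk Bd 1 (x.val + j * N) t (x.val + i * N)) := by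
            refine sum_le_sum fun t ht' => ?_
            obtain ⟨h2, -⟩ := mem_filter.mp ht'
            exact maj3 hh hx hA ht h2 hne
        _ = ∑ i ∈ range D.J0, NL P N D Lk Bd 1 (x.val + j * N) (x.val + i * N) +
            ∑ t ∈ (TUP D.BX).filter (fun t => t ∣ x.val + j * N), ∑ i ∈ range D.J0,
              AFt P N D Lk Bd 1 (x.val + j * N) t (x.val + i * N) := by
            simp only [sum_add_distrib]
            congr 1
            rw [sum_comm]
            exact sum_congr rfl fun i _ => (nl_one hX _).symm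
    · rw [ph_zero hX, mul_zero]
      exact add_nonneg (sum_nonneg fun i _ => nl_nonneg _ _ _ _ _ _ _ _) hnn
  · rw [if_neg hne, mul_zero]
    exact add_nonneg (sum_nonneg fun i _ => nl_nonneg _ _ _ _ _ _ _ _) hnn

end Pool.Agent.Lib.TCF
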