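import Pool.Agent.Lib.MP_7b7e48_nt.TCF.CA1

/-!
# Module CA2 (60 minutes): bounds for the densities of the marks

PROOF. `K = log N ≥ 10`, `JJ = JJ N ≥ K^1000`, `y0 ≥ JJ⁴`; `V_c = ∑_{p ∈ B_c} 1/p ≥ 1/JJ`, `U_c = ∑_{p ∈ B_c} u p`. For `p ∈ B_c` (`p > y0`): if `p ∣ v` then `u p = 0`;
otherwise `u p = 1/p - e p/p`, `|e p| ≤ 3/p`, so `(1 - 3/y0)/p ≤ u p ≤ (1 + 3/y0)/p`. The primes of `B_c` which divide `v` are among the
primes `> y0` of `v`, at most `2K`; each has `1/p ≤ 1/y0`. So `(1 - 3/y0) V_c - 2K/y0 ≤ U_c ≤ (1 + 3/y0) V_c`, hence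
`U_c ≥ V_c (1 - (3 + 2 K JJ)/y0) ≥ V_c/2`.
`low`: `ρ_u ≥ ρ (1 - (3 + 2 K JJ)/y0)^n ≥ ρ (1 - 3 K² JJ/y0) ≥ (19/20) ρ` (Bernoulli; `n ≤ K`). `up`: `ρ_u ≤ (1 + 3/y0)^n ρ ≤ exp(3K/y0) ρ ≤ 2 ρ`.
`off0`: `∑ u² ≤ (4/y0) U_c`, `U_c ≥ 1/(2 JJ)`: `∑ u² ≤ (8 JJ/y0) U_c²`, so `sOff ≥ ρ_u² (1 - 8 JJ/y0)^n ≥ ρ_u² (1 - 8 K JJ/y0)`. `offn`, `off`: each factor
`U² - ∑ u²` is between `0` and `U²`. `dia`: `sDia ≤ ∏ (U_c² + U_c) = ρ_u ∏ (1 + U_c) ≤ ρ_u ∏ (1 + V_c) (1 + 3/y0)^n ≤ 2K² ρ_u`.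
`card`: `ρ_u = ∑_f ∏ u (f c) ≤ |tp|`.
`big_primes`: `y0^(number) ≤ v ≤ N^2`, `log y0 ≥ 1`.
-/

set_option autoImplicit false

open Finset

namespace Pool.Agent.Lib.TCF

open Pool.Agent.Lib.RG hiding RR sig Good
open Pool.Agent.Lib.RH

section

variable {P : Prm} {N y0 n : ℕ} {B : Fin n → Finset ℕ}

private theorem CA2_J {N : ℕ} (hK : 10 ≤ Real.log N) : (1000 : ℝ) ≤ (JJ N : ℝ) ∧ Real.log N ≤ JJ N := by
  have h1 : (Real.log N) ^ 1000 ≤ (JJ N : ℝ) := Nat.le_ceil _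
  have h2 : (Real.log N) ^ 3 ≤ (Real.log N) ^ 1000 := pow_le_pow_right₀ (by linarith) (by norm_num)
  have h3 : (10 : ℝ) ^ 3 ≤ (Real.log N) ^ 3 := pow_le_pow_left₀ (by norm_num) hK 3
  have h4 : Real.log N ≤ (Real.log N) ^ 1000 := le_self_pow₀ (by linarith) (by norm_num)
  constructor
  · norm_num at h3
    linarith
  · linarith

/-- the numbers `3 / y0` and `2 K J / y0` are small -/
private theorem CA2_small {N y0 : ℕ} (hK : 10 ≤ Real.log N) (hy : (JJ N) ^ 4 ≤ y0) :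
    (1000 : ℝ) ≤ y0 ∧ Real.log N * ((3 + 2 * Real.log N * JJ N) / y0) ≤ 1 / 100 ∧
    4 * Real.log N * JJ N / y0 ≤ 1 / 100 := by
  obtain ⟨h1, h2⟩ := CA2_J hK
  have h3 : (JJ N : ℝ) ^ 4 ≤ y0 := by exact_mod_cast hy
  have h0 : (0 : ℝ) < JJ N := by linarith
  have h4 : (1000 : ℝ) * (JJ N : ℝ) ^ 3 ≤ y0 := by
    refine le_trans ?_ h3
    have e : (JJ N : ℝ) ^ 4 = JJ N * (JJ N : ℝ) ^ 3 := by ring
    rw [e]
    exact mul_le_mul_of_nonneg_right h1 (by positivity)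
  have h5 : (1 : ℝ) ≤ (JJ N : ℝ) ^ 3 := one_le_pow₀ (by linarith)
  have hy0 : (1000 : ℝ) ≤ y0 := by linarith
  have hyp : (0 : ℝ) < y0 := by linarith
  have hK0 : 0 < Real.log N := by linarith
  refine ⟨hy0, ?_, ?_⟩
  · rw [mul_div_assoc', div_le_iff₀ hyp]
    have h6 : Real.log N ≤ (JJ N : ℝ) ^ 3 := by
      refine h2.trans ?_
      exact le_self_pow₀ (by linarith) (by norm_num)
    have h7 : Real.log N * (Real.log N * JJ N) ≤ (JJ N : ℝ) ^ 3 := by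
      have e : (JJ N : ℝ) ^ 3 = JJ N * (JJ N * JJ N) := by ring
      rw [e]
      exact mul_le_mul h2 (mul_le_mul_of_nonneg_right h2 h0.le) (by positivity) h0.le
    nlinarith
  · rw [div_le_iff₀ hyp]
    have h7 : Real.log N * JJ N ≤ (JJ N : ℝ) ^ 3 := by
      have e : (JJ N : ℝ) ^ 3 = JJ N * JJ N * JJ N := by ring
      rw [e]
      have : Real.log N * JJ N ≤ JJ N * JJ N := mul_le_mul_of_nonneg_right h2 h0.le
      have h8 : (JJ N : ℝ) * JJ N ≤ JJ N * JJ N * JJ N := by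
        have : (0 : ℝ) < (JJ N : ℝ) * JJ N := by positivity
        nlinarith
      linarith
    nlinarith

/-- the values of `u` -/
private theorem CA2_u (hF : FamW P N y0 B) (hy3 : (1000 : ℝ) ≤ y0)
    {Pr S4 : Finset ℕ} {u e : ℕ → ℝ} (hL : Lw Pr S4 u e) (hP : prs B ⊆ Pr) {v : ℕ}
    (hS4 : ∀ p : ℕ, p ∈ S4 ↔ p ∈ Pr ∧ p ∣ v) (c : Fin n) {p : ℕ} (hp : p ∈ B c) :
    0 ≤ u p ∧ u p ≤ (1 + 3 / y0) * (1 / p) ∧ (¬ p ∣ v → (1 - 3 / y0) * (1 / p) ≤ u p) := by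
  have hmem : p ∈ Pr := hP (by
    unfold prs
    rw [mem_biUnion]
    exact ⟨c, mem_univ c, hp⟩)
  obtain ⟨h1, -, h2⟩ := hF.pr c p hp
  have hp0 : (0 : ℝ) < p := by exact_mod_cast h1.pos
  have hy0 : (0 : ℝ) < y0 := by linarith
  have hyp : (y0 : ℝ) ≤ p := by exact_mod_cast h2.le
  have h30 : (0 : ℝ) ≤ 3 / y0 := by positivity
  have h1p : (0 : ℝ) ≤ 1 / (p : ℝ) := by positivity
  by_cases hv : p ∣ v
  · have h3 := (hL.four p ((hS4 p).2 ⟨hmem, hv⟩)).1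
    rw [h3]
    refine ⟨le_refl 0, by positivity, fun h => absurd hv h⟩
  · have h3 : p ∉ S4 := fun h => hv ((hS4 p).1 h).2
    obtain ⟨h4, h5, -⟩ := hL.small p hmem h3
    have h6 := hL.mean p hmem
    have h7 : |e p| ≤ 3 / p := by linarith [abs_nonneg (u p)]
    have h8 : |e p / p| ≤ 3 / y0 * (1 / p) := by
      rw [abs_div, abs_of_pos hp0]
      calc |e p| / p ≤ (3 / p) / p := div_le_div_of_nonneg_right h7 hp0.le
        _ ≤ (3 / y0) / p := by
            refine div_le_div_of_nonneg_right ?_ hp0.le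
            exact div_le_div_of_nonneg_left (by norm_num) hy0 hyp
        _ = 3 / y0 * (1 / p) := by ring
    obtain ⟨h9, h10⟩ := abs_le.1 h8
    refine ⟨h5, ?_, fun _ => ?_⟩
    · have e1 : (1 + 3 / (y0 : ℝ)) * (1 / p) = 1 / p + 3 / y0 * (1 / p) := by ring
      rw [e1]
      linarith
    · have e1 : (1 - 3 / (y0 : ℝ)) * (1 / p) = 1 / p - 3 / y0 * (1 / p) := by ring
      rw [e1]
      linarith

/-- the sums over one set -/
private theorem CA2_U (hF : FamW P N y0 B) (hK : 10 ≤ Real.log N) (hy : (JJ N) ^ 4 ≤ y0)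
    {Pr S4 : Finset ℕ} {u e : ℕ → ℝ} (hL : Lw Pr S4 u e) (hP : prs B ⊆ Pr) {v : ℕ} (hv : 1 ≤ v)
    (hS4 : ∀ p : ℕ, p ∈ S4 ↔ p ∈ Pr ∧ p ∣ v)
    (hvp : ((v.primeFactors.filter fun p => y0 < p).card : ℝ) ≤ 2 * Real.log N) (c : Fin n) :
    ∑ p ∈ B c, u p ≤ (1 + 3 / y0) * ∑ p ∈ B c, 1 / (p : ℝ) ∧
    (1 - (3 + 2 * Real.log N * JJ N) / y0) * ∑ p ∈ B c, 1 / (p : ℝ) ≤ ∑ p ∈ B c, u p := by
  classical
  obtain ⟨hy3, -, -⟩ := CA2_small hK hy
  obtain ⟨hJ1, hJ2⟩ := CA2_J hK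
  have hy0 : (0 : ℝ) < y0 := by linarith
  have hu := fun p (hp : p ∈ B c) => CA2_u hF hy3 hL hP hS4 c hp
  constructor
  · rw [mul_sum]
    exact sum_le_sum fun p hp => (hu p hp).2.1
  · have h1 : ∀ p ∈ B c, (1 - 3 / (y0 : ℝ)) * (1 / p) - (if p ∣ v then 1 / (y0 : ℝ) else 0) ≤ u p := by
      intro p hp
      obtain ⟨a1, a2, a3⟩ := hu p hp
      by_cases h : p ∣ v
      · rw [if_pos h]
        have h2 := (hF.pr c p hp).2.2
        have h3 : 1 / (p : ℝ) ≤ 1 / y0 := one_div_le_one_div_of_le hy0 (by exact_mod_cast h2.le)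
        have h4 : (0 : ℝ) ≤ 3 / y0 * (1 / p) := by positivity
        have e1 : (1 - 3 / (y0 : ℝ)) * (1 / p) = 1 / p - 3 / y0 * (1 / p) := by ring
        rw [e1]
        linarith
      · rw [if_neg h, sub_zero]
        exact a3 h
    have h2 := sum_le_sum h1
    rw [sum_sub_distrib, ← mul_sum] at h2
    have h3 : ∑ p ∈ B c, (if p ∣ v then 1 / (y0 : ℝ) else 0) ≤ 2 * Real.log N * (1 / y0) := by
      rw [← sum_filter, sum_const, nsmul_eq_mul]
      refine mul_le_mul_of_nonneg_right (le_trans ?_ hvp) (by positivity)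
      have : (B c).filter (fun p => p ∣ v) ⊆ v.primeFactors.filter (fun p => y0 < p) := by
        intro p hp
        rw [mem_filter] at hp
        obtain ⟨b1, -, b3⟩ := hF.pr c p hp.1
        rw [mem_filter, Nat.mem_primeFactors]
        exact ⟨⟨b1, hp.2, by omega⟩, b3⟩
      exact_mod_cast card_le_card this
    have h4 : 1 ≤ JJ N * ∑ p ∈ B c, 1 / (p : ℝ) := by
      have h5 := hF.lo c
      have hJ0 : (0 : ℝ) < JJ N := by linarith
      calc (1 : ℝ) = JJ N * (1 / JJ N) := by field_simp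
        _ ≤ _ := mul_le_mul_of_nonneg_left h5 hJ0.le
    set V := ∑ p ∈ B c, 1 / (p : ℝ)
    have hK0 : 0 ≤ 2 * Real.log N * (1 / (y0 : ℝ)) := by
      have : 0 ≤ Real.log N := by linarith
      positivity
    have h6 : 2 * Real.log N * (1 / y0) ≤ 2 * Real.log N * (1 / y0) * (JJ N * V) :=
      le_mul_of_one_le_right hK0 h4
    have e1 : (1 - (3 + 2 * Real.log N * JJ N) / (y0 : ℝ)) * V =
        (1 - 3 / y0) * V - 2 * Real.log N * (1 / y0) * (JJ N * V) := by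
      field_simp
      ring
    rw [e1]
    linarith

private theorem CA2_V (hF : FamW P N y0 B) (hK : 10 ≤ Real.log N) (c : Fin n) :
    0 < ∑ p ∈ B c, 1 / (p : ℝ) ∧ 1 / (JJ N : ℝ) ≤ ∑ p ∈ B c, 1 / (p : ℝ) := by
  obtain ⟨hJ1, hJ2⟩ := CA2_J hK
  have hJ0 : (0 : ℝ) < JJ N := by linarith
  have h := hF.lo c
  refine ⟨lt_of_lt_of_le (by positivity) h, h⟩

theorem den (hF : FamW P N y0 B) (hK : 10 ≤ Real.log N) (hy : (JJ N) ^ 4 ≤ y0)
    {Pr S4 : Finset ℕ} {u e : ℕ → ℝ} (hL : Lw Pr S4 u e) (hP : prs B ⊆ Pr) {v : ℕ} (hv : 1 ≤ v)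
    (hS4 : ∀ p : ℕ, p ∈ S4 ↔ p ∈ Pr ∧ p ∣ v)
    (hvp : ((v.primeFactors.filter fun p => y0 < p).card : ℝ) ≤ 2 * Real.log N) :
    Den B u y0 (Real.log N) (JJ N) := by
  classical
  obtain ⟨hy3, hs1, hs2⟩ := CA2_small hK hy
  obtain ⟨hJ1, hJ2⟩ := CA2_J hK
  have hy0 : (0 : ℝ) < y0 := by linarith
  have hJ0 : (0 : ℝ) < JJ N := by linarith
  have hu := fun c p (hp : p ∈ B c) => CA2_u hF hy3 hL hP hS4 c hp
  have hU := CA2_U hF hK hy hL hP hv hS4 hvp
  have hV := CA2_V hF hK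
  have hn := hF.nle
  set K := Real.log N with hKdef
  set J : ℝ := (JJ N : ℝ) with hJdef
  have hK0 : 0 < K := by linarith
  set η : ℝ := (3 + 2 * K * J) / y0 with hη
  have hη0 : 0 ≤ η := by rw [hη]; positivity
  have hηK : K * η ≤ 1 / 100 := hs1
  have hη1 : η ≤ 1 / 100 := by nlinarith
  have h3y : 3 / (y0 : ℝ) ≤ η := by
    rw [hη]
    refine div_le_div_of_nonneg_right ?_ hy0.le
    have : 0 ≤ 2 * K * J := by positivity
    linarith
  have h3y0 : 0 ≤ 3 / (y0 : ℝ) := by positivity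
  have hn0 : (0 : ℝ) ≤ (n : ℝ) := Nat.cast_nonneg n
  -- powers
  have hpl : 19 / 20 ≤ (1 - η) ^ n := by
    have h1 := one_add_mul_le_pow (a := -η) (by linarith) n
    have h2 : (n : ℝ) * η ≤ K * η := mul_le_mul_of_nonneg_right hn hη0
    have e1 : (1 + -η) ^ n = (1 - η) ^ n := by rw [← sub_eq_add_neg]
    rw [e1] at h1
    linarith
  have hpu : (1 + 3 / (y0 : ℝ)) ^ n ≤ 2 := by
    have h1 : (1 + 3 / (y0 : ℝ)) ^ n ≤ Real.exp ((3 / y0) * n) := by
      calc (1 + 3 / (y0 : ℝ)) ^ n ≤ (Real.exp (3 / y0)) ^ n :=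
            pow_le_pow_left₀ (by linarith) (by linarith [Real.add_one_le_exp (3 / (y0 : ℝ))]) n
        _ = Real.exp ((3 / y0) * n) := by rw [← Real.exp_nat_mul, mul_comm]
    have h2 : (3 / (y0 : ℝ)) * n ≤ 1 / 2 := by
      calc (3 / (y0 : ℝ)) * n ≤ η * K := mul_le_mul h3y hn hn0 hη0
        _ ≤ 1 / 2 := by linarith
    have h3 := Real.exp_bound_div_one_sub_of_interval (x := 1 / 2) (by norm_num) (by norm_num)
    calc (1 + 3 / (y0 : ℝ)) ^ n ≤ Real.exp ((3 / y0) * n) := h1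
      _ ≤ Real.exp (1 / 2) := Real.exp_le_exp.2 h2
      _ ≤ 1 / (1 - 1 / 2) := h3
      _ = 2 := by norm_num
  have hUpos : ∀ c, 0 < ∑ p ∈ B c, u p := by
    intro c
    have h1 := (hU c).2
    have h2 : 0 < (1 - η) * ∑ p ∈ B c, 1 / (p : ℝ) := mul_pos (by linarith) (hV c).1
    linarith
  have hpos : 0 < rhoU u B := prod_pos fun c _ => hUpos c
  have hsq0 : ∀ c, 0 ≤ (∑ p ∈ B c, u p) ^ 2 - ∑ p ∈ B c, u p ^ 2 := by
    intro c
    have h1 : ∑ p ∈ B c, u p ^ 2 ≤ (∑ p ∈ B c, u p) ^ 2 := by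
      rw [sq, sum_mul]
      refine sum_le_sum fun p hp => ?_
      rw [sq]
      refine mul_le_mul_of_nonneg_left ?_ (hu c p hp).1
      exact single_le_sum (fun q hq => (hu c q hq).1) hp
    linarith
  have hsqn : ∀ c, 0 ≤ ∑ p ∈ B c, u p ^ 2 := fun c => sum_nonneg fun p _ => by positivity
  have hrho2 : rhoU u B ^ 2 = ∏ c, (∑ p ∈ B c, u p) ^ 2 := by
    unfold rhoU
    rw [prod_pow]
  refine ⟨?_, ?_, ?_, hpos, ?_, ?_, ?_, ?_, ?_, ?_⟩
  · -- u0
    intro c p hp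
    refine ⟨(hu c p hp).1, (hu c p hp).2.1.trans ?_⟩
    have h1 := (hF.pr c p hp)
    have h2 : (2 : ℝ) ≤ p := by exact_mod_cast h1.1.two_le
    have h3 : 1 / (p : ℝ) ≤ 1 / 2 := one_div_le_one_div_of_le (by norm_num) h2
    have h4 : (0 : ℝ) ≤ 1 / (p : ℝ) := by positivity
    nlinarith
  · -- low
    have h1 : (1 - η) ^ n * rho B ≤ rhoU u B := by
      have e1 : (1 - η) ^ n * rho B = ∏ c, (1 - η) * ∑ p ∈ B c, 1 / (p : ℝ) := by
        rw [prod_mul_distrib, prod_const, card_univ, Fintype.card_fin]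
        rfl
      rw [e1]
      exact prod_le_prod (fun c _ => mul_nonneg (by linarith) (hV c).1.le) fun c _ => (hU c).2
    have h2 : 0 ≤ rho B := prod_nonneg fun c _ => (hV c).1.le
    exact (mul_le_mul_of_nonneg_right hpl h2).trans h1
  · -- up
    have h1 : rhoU u B ≤ (1 + 3 / (y0 : ℝ)) ^ n * rho B := by
      have e1 : (1 + 3 / (y0 : ℝ)) ^ n * rho B = ∏ c, (1 + 3 / (y0 : ℝ)) * ∑ p ∈ B c, 1 / (p : ℝ) := by
        rw [prod_mul_distrib, prod_const, card_univ, Fintype.card_fin]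
        rfl
      rw [e1]
      exact prod_le_prod (fun c _ => (hUpos c).le) fun c _ => (hU c).1
    have h2 : 0 ≤ rho B := prod_nonneg fun c _ => (hV c).1.le
    exact h1.trans (mul_le_mul_of_nonneg_right hpu h2)
  · -- off
    rw [hrho2]
    unfold sOff
    exact prod_le_prod (fun c _ => hsq0 c) fun c _ => by linarith [hsqn c]
  · -- off0
    have hθ : ∀ c, (1 - 4 * J / y0) * (∑ p ∈ B c, u p) ^ 2 ≤
        (∑ p ∈ B c, u p) ^ 2 - ∑ p ∈ B c, u p ^ 2 := by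
      intro c
      have h1 : ∀ p ∈ B c, u p ^ 2 ≤ (2 / y0) * u p := by
        intro p hp
        obtain ⟨a1, a2, -⟩ := hu c p hp
        have h2 := (hF.pr c p hp).2.2
        have h3 : 1 / (p : ℝ) ≤ 1 / y0 := one_div_le_one_div_of_le hy0 (by exact_mod_cast h2.le)
        have h4 : u p ≤ 2 / y0 := by
          have h5 : (1 + 3 / (y0 : ℝ)) * (1 / p) ≤ 2 * (1 / y0) :=
            mul_le_mul (by linarith) h3 (by positivity) (by norm_num)
          calc u p ≤ (1 + 3 / (y0 : ℝ)) * (1 / p) := a2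
            _ ≤ 2 * (1 / y0) := h5
            _ = 2 / y0 := by ring
        rw [sq]
        exact mul_le_mul_of_nonneg_right h4 a1
      have h2 : ∑ p ∈ B c, u p ^ 2 ≤ (2 / y0) * ∑ p ∈ B c, u p := by
        rw [mul_sum]
        exact sum_le_sum h1
      have h3 : 1 ≤ 2 * J * ∑ p ∈ B c, u p := by
        have h4 := (hU c).2
        have h5 := (hV c).2
        have h6 : 1 / 2 * (1 / J) ≤ ∑ p ∈ B c, u p := by
          refine le_trans ?_ h4
          exact mul_le_mul (by linarith) h5 (by positivity) (by linarith)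
        calc (1 : ℝ) = 2 * J * (1 / 2 * (1 / J)) := by field_simp
          _ ≤ _ := mul_le_mul_of_nonneg_left h6 (by positivity)
      have h7 : (2 / (y0 : ℝ)) * ∑ p ∈ B c, u p ≤
          (2 / (y0 : ℝ)) * ((∑ p ∈ B c, u p) * (2 * J * ∑ p ∈ B c, u p)) := by
        refine mul_le_mul_of_nonneg_left ?_ (by positivity)
        exact le_mul_of_one_le_right (hUpos c).le h3
      have e1 : (1 - 4 * J / (y0 : ℝ)) * (∑ p ∈ B c, u p) ^ 2 = (∑ p ∈ B c, u p) ^ 2 -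
          (2 / (y0 : ℝ)) * ((∑ p ∈ B c, u p) * (2 * J * ∑ p ∈ B c, u p)) := by
        field_simp
        ring
      rw [e1]
      linarith
    have h4J : 4 * J / (y0 : ℝ) ≤ 1 / 100 := by
      refine le_trans ?_ hs2
      refine div_le_div_of_nonneg_right ?_ hy0.le
      nlinarith
    have h4J0 : 0 ≤ 4 * J / (y0 : ℝ) := by positivity
    have h1 : (1 - 4 * J / y0) ^ n * rhoU u B ^ 2 ≤ sOff u B := by
      have e1 : (1 - 4 * J / (y0 : ℝ)) ^ n * rhoU u B ^ 2 =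
          ∏ c, (1 - 4 * J / (y0 : ℝ)) * (∑ p ∈ B c, u p) ^ 2 := by
        rw [prod_mul_distrib, prod_const, card_univ, Fintype.card_fin, hrho2]
      rw [e1]
      unfold sOff
      exact prod_le_prod (fun c _ => mul_nonneg (by linarith) (by positivity)) fun c _ => hθ c
    refine le_trans ?_ h1
    refine mul_le_mul_of_nonneg_right ?_ (by positivity)
    have h2 := one_add_mul_le_pow (a := -(4 * J / (y0 : ℝ))) (by linarith) n
    have e2 : (1 + -(4 * J / (y0 : ℝ))) ^ n = (1 - 4 * J / (y0 : ℝ)) ^ n := by rw [← sub_eq_add_neg]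
    rw [e2] at h2
    have h3 : (n : ℝ) * (4 * J / (y0 : ℝ)) ≤ K * (4 * J / (y0 : ℝ)) :=
      mul_le_mul_of_nonneg_right hn h4J0
    have h5 : K * (4 * J / (y0 : ℝ)) ≤ K ^ 2 * J / y0 := by
      rw [mul_div_assoc']
      refine div_le_div_of_nonneg_right ?_ hy0.le
      have : 0 ≤ K * J := by positivity
      nlinarith
    linarith
  · -- offn
    exact prod_nonneg fun c _ => hsq0 c
  · -- dia0
    unfold sOff sDia
    exact prod_le_prod (fun c _ => hsq0 c) fun c _ => by linarith [(hUpos c).le]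
  · -- dia
    have h1 : sDia u B ≤ ∏ c, ((∑ p ∈ B c, u p) * ((1 + 3 / (y0 : ℝ)) * (1 + ∑ p ∈ B c, 1 / (p : ℝ)))) := by
      unfold sDia
      refine prod_le_prod (fun c _ => ?_) fun c _ => ?_
      · linarith [hsq0 c, (hUpos c).le]
      · have h2 : 1 + ∑ p ∈ B c, u p ≤ (1 + 3 / (y0 : ℝ)) * (1 + ∑ p ∈ B c, 1 / (p : ℝ)) := by
          have h3 := (hU c).1
          have e1 : (1 + 3 / (y0 : ℝ)) * (1 + ∑ p ∈ B c, 1 / (p : ℝ)) =
              1 + 3 / (y0 : ℝ) + (1 + 3 / (y0 : ℝ)) * ∑ p ∈ B c, 1 / (p : ℝ) := by ring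
          rw [e1]
          linarith
        have h3 := mul_le_mul_of_nonneg_left h2 (hUpos c).le
        have h4 := hsqn c
        nlinarith
    rw [prod_mul_distrib, prod_mul_distrib, prod_const, card_univ, Fintype.card_fin] at h1
    have h2 : (1 + 3 / (y0 : ℝ)) ^ n * ∏ c, (1 + ∑ p ∈ B c, 1 / (p : ℝ)) ≤ 2 * K ^ 2 :=
      mul_le_mul hpu hF.tot (prod_nonneg fun c _ => by linarith [(hV c).1]) (by norm_num)
    have h3 : 2 * K ^ 2 ≤ K ^ 3 := by
      have : 0 ≤ K ^ 2 := by positivity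
      nlinarith
    have e1 : ∏ c, ∑ p ∈ B c, u p = rhoU u B := rfl
    rw [e1] at h1
    calc sDia u B ≤ rhoU u B * ((1 + 3 / (y0 : ℝ)) ^ n * ∏ c, (1 + ∑ p ∈ B c, 1 / (p : ℝ))) := h1
      _ ≤ rhoU u B * K ^ 3 := mul_le_mul_of_nonneg_left (h2.trans h3) hpos.le
      _ = K ^ 3 * rhoU u B := mul_comm _ _
  · -- card
    unfold rhoU tp
    rw [Fintype.card_piFinset]
    push_cast
    refine prod_le_prod (fun c _ => (hUpos c).le) fun c _ => ?_
    have h1 : ∑ p ∈ B c, u p ≤ ∑ _p ∈ B c, (1 : ℝ) := by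
      refine sum_le_sum fun p hp => (hu c p hp).2.1.trans ?_
      have h1 := (hF.pr c p hp)
      have h2 : (2 : ℝ) ≤ p := by exact_mod_cast h1.1.two_le
      have h3 : 1 / (p : ℝ) ≤ 1 / 2 := one_div_le_one_div_of_le (by norm_num) h2
      have h4 : (0 : ℝ) ≤ 1 / (p : ℝ) := by positivity
      nlinarith
    refine h1.trans (le_of_eq ?_)
    rw [sum_const, nsmul_eq_mul, mul_one]

/-- type 1: the density is at most `ρ` -/
theorem den_le {u : ℕ → ℝ} (hu : ∀ c, ∀ p ∈ B c, 0 ≤ u p ∧ u p ≤ 1 / p) : rhoU u B ≤ rho B :=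
  prod_le_prod (fun c _ => sum_nonneg fun p hp => (hu c p hp).1)
    fun c _ => sum_le_sum fun p hp => (hu c p hp).2

theorem rho_posm (hF : FamW P N y0 B) (hK : 0 < Real.log N) : 0 < rho B := by
  have h1 : (Real.log N) ^ 1000 ≤ (JJ N : ℝ) := Nat.le_ceil _
  have h2 : (0 : ℝ) < JJ N := lt_of_lt_of_le (by positivity) h1
  exact prod_pos fun c _ => lt_of_lt_of_le (by positivity) (hF.lo c)

theorem big_primes {v : ℕ} (hv : 1 ≤ v) (hlo : 3 ≤ y0) (h : (v : ℝ) ≤ (N : ℝ) ^ (2 : ℝ)) (hN : 2 ≤ N) :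
    ((v.primeFactors.filter fun p => y0 < p).card : ℝ) ≤ 2 * Real.log N := by
  classical
  have h1 : 3 ^ (v.primeFactors.filter fun p => y0 < p).card ≤ v := by
    calc 3 ^ (v.primeFactors.filter fun p => y0 < p).card ≤
        ∏ p ∈ v.primeFactors.filter (fun p => y0 < p), p := by
          refine pow_card_le_prod _ _ _ fun p hp => ?_
          rw [mem_filter] at hp
          omega
      _ ≤ ∏ p ∈ v.primeFactors, p := by
          refine prod_le_prod_of_subset_of_one_le' (filter_subset _ _) fun p hp _ => ?_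
          exact (Nat.prime_of_mem_primeFactors hp).one_le
      _ ≤ v := Nat.le_of_dvd (by omega) (Nat.prod_primeFactors_dvd v)
  have hNr : (0 : ℝ) < N := by
    have : 0 < N := by omega
    exact_mod_cast this
  have h2 : (3 : ℝ) ^ (v.primeFactors.filter fun p => y0 < p).card ≤ (N : ℝ) ^ (2 : ℝ) :=
    le_trans (by exact_mod_cast h1) h
  have h3 := Real.log_le_log (by positivity) h2
  rw [Real.log_pow, Real.log_rpow hNr] at h3
  have h4 : 1 ≤ Real.log 3 := by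
    rw [Real.le_log_iff_exp_le (by norm_num)]
    have := Real.exp_one_lt_d9
    linarith
  have h5 : (0 : ℝ) ≤ ((v.primeFactors.filter fun p => y0 < p).card : ℝ) := Nat.cast_nonneg _
  nlinarith

/-- the situation of the counting lemmas -/
theorem Sit.den {v : ℕ} {u e : ℕ → ℝ} {I : Finset ℕ} {om : ℕ → ℝ} {X Err : ℝ}
    (S : Sit P N y0 B v u e I om X Err) (hK : 10 ≤ Real.log N) (hy : (JJ N) ^ 4 ≤ y0) :
    Den B u y0 (Real.log N) (JJ N) := by
  classical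
  have hN : 2 ≤ N := by
    by_contra hcon
    have h1 : N = 0 ∨ N = 1 := by omega
    rcases h1 with h1 | h1 <;> rw [h1] at hK <;> norm_num at hK
  have hy3 : 3 ≤ y0 := by
    have h1 := (CA2_small hK hy).1
    have h2 : 1000 ≤ y0 := by exact_mod_cast h1
    omega
  refine TCF.den S.fam hK hy S.lw ?_ S.v1 (fun p => ?_) (big_primes S.v1 hy3 S.vle hN)
  · unfold PP
    exact subset_union_right
  · unfold dv
    rw [mem_filter]

end

end Pool.Agent.Lib.TCF
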