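import Pool.Agent.Lib.MP_7b7e48_nt.TCF.CA1

/-!
# Module CA4 (60 minutes): densities of sieve modulus times mark

PROOF. The primes of `d, d₁, d₂` are `≤ y0`, those of the marks are `> y0`; `mrk f` is the product of the different primes `f c`
(`CA1.mrk_sq`), so `(d * mrk f).primeFactors` is the disjoint union of `d.primeFactors` and of `{f c}`, `f` is injective (`disj`).
`pw_mul`: a prime `f c > y0 ≥ |k|` does not divide `k ≠ 0`, so its factor is `u (f c)`; if `k = 0` use `e (f c) = 0`.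
`jw_mul`: `gcd(d₁ mrk f, d₂ mrk f') = gcd(d₁,d₂) ∏_{c : f c = f' c} f c` (a prime `f c = f' c'` forces `c = c'`),
`(d₂ mrk f')/gcd = (d₂/gcd(d₁,d₂)) ∏_{c : f c ≠ f' c} f' c`, and `gcd ∣ k₂ - k₁` iff `gcd(d₁,d₂) ∣ k₂ - k₁` and (`k₁ = k₂` or there is no `c` with
`f c = f' c`), because `|k₂ - k₁| ≤ y0`. It may be easier to prove first `jw u e a b k₁ k₂ = (if gcd(a,b) ∣ k₂ - k₁ then 1 else 0) *
∏_{p ∣ a} (u p + [p ∣ k₁] e p) * ∏_{p ∣ b, p ∤ a} (u p + [p ∣ k₂] e p)` for squarefree `a, b`.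
-/

set_option autoImplicit false

open Finset

namespace Pool.Agent.Lib.TCF

open Pool.Agent.Lib.RG hiding RR sig Good
open Pool.Agent.Lib.RH

section

variable {P : Prm} {N y0 n : ℕ} {B : Fin n → Finset ℕ}

/-- the factor of one prime -/
private noncomputable def ca4F (u e : ℕ → ℝ) (k : ℤ) (p : ℕ) : ℝ := u p + if (p : ℤ) ∣ k then e p else 0

private theorem ca4_pw (u e : ℕ → ℝ) (d : ℕ) (k : ℤ) :
    pw u e d k = ∏ p ∈ d.primeFactors, ca4F u e k p := rfl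

private theorem ca4_mem (hF : FamW P N y0 B) {f : Fin n → ℕ} (hf : f ∈ tp B) (c : Fin n) :
    f c ∈ B c ∧ (f c).Prime ∧ y0 < f c := by
  have h1 : f c ∈ B c := Fintype.mem_piFinset.1 hf c
  exact ⟨h1, (hF.pr c _ h1).1, (hF.pr c _ h1).2.2⟩

private theorem ca4_inj (hF : FamW P N y0 B) {f f' : Fin n → ℕ} (hf : f ∈ tp B) (hf' : f' ∈ tp B)
    {c c' : Fin n} (h : f c = f' c') : c = c' := by
  by_contra hne
  have h1 := (ca4_mem hF hf c).1
  have h2 := (ca4_mem hF hf' c').1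
  rw [← h] at h2
  exact Finset.disjoint_left.1 (hF.disj c c' hne) h1 h2

private theorem ca4_pfm (hF : FamW P N y0 B) {f : Fin n → ℕ} (hf : f ∈ tp B) :
    (mrk f).primeFactors = univ.image f := by
  obtain ⟨h1, -, h3⟩ := mrk_sq hF hf
  ext p
  rw [Nat.mem_primeFactors, Finset.mem_image]
  constructor
  · rintro ⟨hp, hd, -⟩
    obtain ⟨c, hc⟩ := (h3 p hp).1 hd
    exact ⟨c, Finset.mem_univ _, hc.symm⟩
  · rintro ⟨c, -, rfl⟩
    exact ⟨(ca4_mem hF hf c).2.1, (h3 _ (ca4_mem hF hf c).2.1).2 ⟨c, rfl⟩, by omega⟩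

private theorem ca4_pf (hF : FamW P N y0 B) {f : Fin n → ℕ} (hf : f ∈ tp B) {d : ℕ}
    (hd : Squarefree d) : (d * mrk f).primeFactors = d.primeFactors ∪ univ.image f := by
  have h1 := (mrk_sq hF hf).1
  rw [Nat.primeFactors_mul hd.ne_zero (by omega), ca4_pfm hF hf]

private theorem ca4_dis (hF : FamW P N y0 B) {f : Fin n → ℕ} (hf : f ∈ tp B) {d : ℕ}
    (hdl : ∀ p : ℕ, p.Prime → p ∣ d → p ≤ y0) : Disjoint d.primeFactors (univ.image f) := by
  rw [Finset.disjoint_left]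
  intro p hp hq
  rw [Finset.mem_image] at hq
  obtain ⟨c, -, rfl⟩ := hq
  have h1 := hdl _ (Nat.prime_of_mem_primeFactors hp) (Nat.dvd_of_mem_primeFactors hp)
  have h2 := (ca4_mem hF hf c).2.2
  omega

private theorem ca4_sqf (hF : FamW P N y0 B) {f : Fin n → ℕ} (hf : f ∈ tp B) {d : ℕ}
    (hd : Squarefree d) (hdl : ∀ p : ℕ, p.Prime → p ∣ d → p ≤ y0) : Squarefree (d * mrk f) := by
  obtain ⟨h1, h2, -⟩ := mrk_sq hF hf
  rw [Nat.squarefree_mul_iff]
  refine ⟨?_, hd, h2⟩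
  rw [← Nat.disjoint_primeFactors hd.ne_zero (by omega), ca4_pfm hF hf]
  exact ca4_dis hF hf hdl

private theorem ca4_fac (hF : FamW P N y0 B) (u e : ℕ → ℝ) {f : Fin n → ℕ} (hf : f ∈ tp B)
    {k : ℤ} (hk : k ≠ 0 ∨ ∀ c, ∀ p ∈ B c, e p = 0) (hk' : |k| ≤ y0) (c : Fin n) :
    ca4F u e k (f c) = u (f c) := by
  obtain ⟨h1, h2, h3⟩ := ca4_mem hF hf c
  unfold ca4F
  rcases hk with hk | hk
  · have h4 : ¬ (f c : ℤ) ∣ k := by
      intro h5
      have h6 := Int.le_of_dvd (abs_pos.2 hk) ((dvd_abs _ _).2 h5)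
      omega
    rw [if_neg h4, add_zero]
  · rw [hk c _ h1]
    simp

private theorem ca4_quo {a b : ℕ} (ha : Squarefree a) (hb : Squarefree b) :
    (b / a.gcd b).primeFactors = b.primeFactors \ a.primeFactors := by
  have hg : a.gcd b ∣ b := Nat.gcd_dvd_right a b
  have hb0 : b ≠ 0 := hb.ne_zero
  have hg0 : 0 < a.gcd b := Nat.gcd_pos_of_pos_right a (Nat.pos_of_ne_zero hb0)
  have e1 : a.gcd b * (b / a.gcd b) = b := Nat.mul_div_cancel' hg
  ext p
  rw [Finset.mem_sdiff, Nat.mem_primeFactors, Nat.mem_primeFactors]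
  constructor
  · rintro ⟨hp, hd, h0⟩
    have h1 : p ∣ b := hd.trans (Nat.div_dvd_of_dvd hg)
    refine ⟨⟨hp, h1, hb0⟩, fun h2 => ?_⟩
    have h3 : p ∣ a.gcd b := Nat.dvd_gcd (Nat.dvd_of_mem_primeFactors h2) h1
    have h4 : p * p ∣ b := by
      rw [← e1]
      exact Nat.mul_dvd_mul h3 hd
    have h5 := hb p h4
    rw [Nat.isUnit_iff] at h5
    exact hp.one_lt.ne' h5
  · rintro ⟨⟨hp, hd, -⟩, h2⟩
    refine ⟨hp, ?_, ?_⟩
    · rw [← e1] at hd
      rcases hp.dvd_mul.1 hd with h3 | h3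
      · exfalso
        exact h2 (Nat.mem_primeFactors.2 ⟨hp, h3.trans (Nat.gcd_dvd_left a b), ha.ne_zero⟩)
      · exact h3
    · intro h0
      rw [h0, mul_zero] at e1
      exact hb0 e1.symm

private theorem ca4_gcd {a b : ℕ} (ha : Squarefree a) (hb : Squarefree b) (m : ℤ) :
    ((a.gcd b : ℕ) : ℤ) ∣ m ↔ ∀ p ∈ a.primeFactors ∩ b.primeFactors, (p : ℤ) ∣ m := by
  have hs : Squarefree (a.gcd b) := ha.squarefree_of_dvd (Nat.gcd_dvd_left a b)
  have h1 : (a.gcd b).primeFactors = a.primeFactors ∩ b.primeFactors :=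
    Nat.primeFactors_gcd ha.ne_zero hb.ne_zero
  rw [← h1, Int.natCast_dvd]
  constructor
  · intro h p hp
    rw [Int.natCast_dvd]
    exact (Nat.dvd_of_mem_primeFactors hp).trans h
  · intro h
    rw [← Nat.prod_primeFactors_of_squarefree hs]
    refine Finset.prod_primes_dvd _ (fun p hp => (Nat.prime_of_mem_primeFactors hp).prime)
      fun p hp => ?_
    exact Int.natCast_dvd.1 (h p hp)

open Classical in
private theorem ca4_jw (u e : ℕ → ℝ) {a b : ℕ} (ha : Squarefree a) (hb : Squarefree b) (k₁ k₂ : ℤ) :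
    jw u e a b k₁ k₂ = (∏ p ∈ a.primeFactors, ca4F u e k₁ p) *
      (∏ p ∈ b.primeFactors \ a.primeFactors, ca4F u e k₂ p) *
      (if ∀ p ∈ a.primeFactors ∩ b.primeFactors, (p : ℤ) ∣ k₂ - k₁ then 1 else 0) := by
  unfold jw
  rw [ca4_pw, ca4_pw, ca4_quo ha hb]
  by_cases h : ((a.gcd b : ℕ) : ℤ) ∣ k₂ - k₁
  · rw [if_pos h, if_pos ((ca4_gcd ha hb _).1 h)]
  · rw [if_neg h, if_neg fun h' => h ((ca4_gcd ha hb _).2 h')]

theorem pw_mul (hF : FamW P N y0 B) (u e : ℕ → ℝ) {d : ℕ} (hd : Squarefree d)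
    (hdl : ∀ p : ℕ, p.Prime → p ∣ d → p ≤ y0) {f : Fin n → ℕ} (hf : f ∈ tp B)
    {k : ℤ} (hk : k ≠ 0 ∨ ∀ c, ∀ p ∈ B c, e p = 0) (hk' : |k| ≤ y0) :
    pw u e (d * mrk f) k = pw u e d k * ∏ c, u (f c) := by
  rw [ca4_pw, ca4_pw, ca4_pf hF hf hd, Finset.prod_union (ca4_dis hF hf hdl)]
  congr 1
  rw [Finset.prod_image fun c _ c' _ h => ca4_inj hF hf hf h]
  exact Finset.prod_congr rfl fun c _ => ca4_fac hF u e hf hk hk' c

open Classical in
theorem jw_mul (hF : FamW P N y0 B) (u e : ℕ → ℝ) {d₁ d₂ : ℕ}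
    (hd₁ : Squarefree d₁) (hd₂ : Squarefree d₂) (hl₁ : ∀ p : ℕ, p.Prime → p ∣ d₁ → p ≤ y0)
    (hl₂ : ∀ p : ℕ, p.Prime → p ∣ d₂ → p ≤ y0) {f f' : Fin n → ℕ} (hf : f ∈ tp B) (hf' : f' ∈ tp B)
    {k₁ k₂ : ℤ} (h₁ : k₁ ≠ 0 ∨ ∀ c, ∀ p ∈ B c, e p = 0) (h₂ : k₂ ≠ 0 ∨ ∀ c, ∀ p ∈ B c, e p = 0)
    (h₁' : 2 * |k₁| ≤ y0) (h₂' : 2 * |k₂| ≤ y0) :
    jw u e (d₁ * mrk f) (d₂ * mrk f') k₁ k₂ = jw u e d₁ d₂ k₁ k₂ * tt u (k₁ = k₂) f f' := by
  have hk1 : |k₁| ≤ y0 := by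
    have := abs_nonneg k₁
    omega
  have hk2 : |k₂| ≤ y0 := by
    have := abs_nonneg k₂
    omega
  have hdis1 := ca4_dis hF hf hl₁
  have hdis2 := ca4_dis hF hf' hl₂
  have hdis1' := ca4_dis hF hf' hl₁
  have hdis2' := ca4_dis hF hf hl₂
  rw [ca4_jw u e (ca4_sqf hF hf hd₁ hl₁) (ca4_sqf hF hf' hd₂ hl₂), ca4_jw u e hd₁ hd₂,
    ca4_pf hF hf hd₁, ca4_pf hF hf' hd₂]
  -- the first product
  have e1 : ∏ p ∈ d₁.primeFactors ∪ univ.image f, ca4F u e k₁ p =
      (∏ p ∈ d₁.primeFactors, ca4F u e k₁ p) * ∏ c, u (f c) := by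
    rw [Finset.prod_union hdis1, Finset.prod_image fun c _ c' _ h => ca4_inj hF hf hf h]
    congr 1
    exact Finset.prod_congr rfl fun c _ => ca4_fac hF u e hf h₁ hk1 c
  -- the second product
  have s2 : (d₂.primeFactors ∪ univ.image f') \ (d₁.primeFactors ∪ univ.image f) =
      (d₂.primeFactors \ d₁.primeFactors) ∪ (univ.filter fun c => f c ≠ f' c).image f' := by
    ext p
    simp only [Finset.mem_sdiff, Finset.mem_union, Finset.mem_image, Finset.mem_filter,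
      Finset.mem_univ, true_and, not_or, not_exists]
    constructor
    · rintro ⟨h3 | ⟨c, rfl⟩, h4, h5⟩
      · exact Or.inl ⟨h3, h4⟩
      · exact Or.inr ⟨c, h5 c, rfl⟩
    · rintro (⟨h3, h4⟩ | ⟨c, h3, rfl⟩)
      · refine ⟨Or.inl h3, h4, fun c hc => ?_⟩
        exact Finset.disjoint_left.1 hdis2' h3 (Finset.mem_image.2 ⟨c, Finset.mem_univ _, hc⟩)
      · refine ⟨Or.inr ⟨c, rfl⟩, fun h4 => ?_, fun c' hc' => ?_⟩
        · exact Finset.disjoint_left.1 hdis1' h4 (Finset.mem_image.2 ⟨c, Finset.mem_univ _, rfl⟩)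
        · have h5 := ca4_inj hF hf hf' hc'
          subst h5
          exact h3 hc'
  have d2 : Disjoint (d₂.primeFactors \ d₁.primeFactors)
      ((univ.filter fun c => f c ≠ f' c).image f') := by
    refine Finset.disjoint_of_subset_left Finset.sdiff_subset
      (Finset.disjoint_of_subset_right ?_ hdis2)
    exact Finset.image_subset_image (Finset.filter_subset _ _)
  have e2 : ∏ p ∈ (d₂.primeFactors ∪ univ.image f') \ (d₁.primeFactors ∪ univ.image f),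
      ca4F u e k₂ p = (∏ p ∈ d₂.primeFactors \ d₁.primeFactors, ca4F u e k₂ p) *
        ∏ c ∈ univ.filter (fun c => f c ≠ f' c), u (f' c) := by
    rw [s2, Finset.prod_union d2, Finset.prod_image fun c _ c' _ h => ca4_inj hF hf' hf' h]
    congr 1
    exact Finset.prod_congr rfl fun c _ => ca4_fac hF u e hf' h₂ hk2 c
  rw [e1, e2]
  -- the condition
  have e3 : (∀ p ∈ (d₁.primeFactors ∪ univ.image f) ∩ (d₂.primeFactors ∪ univ.image f'),
      (p : ℤ) ∣ k₂ - k₁) ↔ (∀ p ∈ d₁.primeFactors ∩ d₂.primeFactors, (p : ℤ) ∣ k₂ - k₁) ∧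
        (k₁ = k₂ ∨ ∀ c, f c ≠ f' c) := by
    constructor
    · intro h
      refine ⟨fun p hp => h p ?_, ?_⟩
      · rw [Finset.mem_inter] at hp ⊢
        exact ⟨Finset.mem_union_left _ hp.1, Finset.mem_union_left _ hp.2⟩
      · by_contra hcon
        push Not at hcon
        obtain ⟨h3, c, h4⟩ := hcon
        have h5 := h (f c) (by
          rw [Finset.mem_inter]
          refine ⟨Finset.mem_union_right _ (Finset.mem_image.2 ⟨c, Finset.mem_univ _, rfl⟩),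
            Finset.mem_union_right _ (Finset.mem_image.2 ⟨c, Finset.mem_univ _, h4.symm⟩)⟩)
        have h6 : 0 < |k₂ - k₁| := abs_pos.2 (sub_ne_zero.2 (Ne.symm h3))
        have h7 := Int.le_of_dvd h6 ((dvd_abs _ _).2 h5)
        have h8 := (ca4_mem hF hf c).2.2
        have h9 : |k₂ - k₁| ≤ |k₂| + |k₁| := abs_sub _ _
        omega
    · rintro ⟨h3, h4⟩ p hp
      rw [Finset.mem_inter, Finset.mem_union, Finset.mem_union] at hp
      obtain ⟨h5 | h5, h6 | h6⟩ := hp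
      · exact h3 p (Finset.mem_inter.2 ⟨h5, h6⟩)
      · exact (Finset.disjoint_left.1 hdis1' h5 h6).elim
      · exact (Finset.disjoint_left.1 hdis2' h6 h5).elim
      · rcases h4 with h4 | h4
        · rw [h4, sub_self]
          exact dvd_zero _
        · exfalso
          rw [Finset.mem_image] at h5 h6
          obtain ⟨c, -, hc⟩ := h5
          obtain ⟨c', -, hc'⟩ := h6
          have h7 := ca4_inj hF hf hf' (hc.trans hc'.symm)
          subst h7
          exact h4 c (hc.trans hc'.symm)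
  -- the densities
  have e4 : (∏ c, u (f c)) * (∏ c ∈ univ.filter (fun c => f c ≠ f' c), u (f' c)) *
      (if k₁ = k₂ ∨ ∀ c, f c ≠ f' c then 1 else 0) = tt u (k₁ = k₂) f f' := by
    unfold tt
    rw [Finset.prod_filter]
    by_cases hk : k₁ = k₂
    · rw [if_pos (Or.inl hk), mul_one, ← Finset.prod_mul_distrib]
      refine Finset.prod_congr rfl fun c _ => ?_
      by_cases hc : f c = f' c
      · rw [if_pos hc, if_pos hk, if_neg (not_not.2 hc), mul_one]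
      · rw [if_neg hc, if_pos hc]
    · by_cases hc : ∀ c, f c ≠ f' c
      · rw [if_pos (Or.inr hc), mul_one, ← Finset.prod_mul_distrib]
        refine Finset.prod_congr rfl fun c _ => ?_
        rw [if_neg (hc c), if_pos (hc c)]
      · rw [if_neg (not_or.2 ⟨hk, hc⟩), mul_zero]
        push Not at hc
        obtain ⟨c, hc⟩ := hc
        symm
        refine Finset.prod_eq_zero (Finset.mem_univ c) ?_
        rw [if_pos hc, if_neg hk]
  rw [← e4]
  by_cases h3 : ∀ p ∈ d₁.primeFactors ∩ d₂.primeFactors, (p : ℤ) ∣ k₂ - k₁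
  · by_cases h4 : k₁ = k₂ ∨ ∀ c, f c ≠ f' c
    · rw [if_pos (e3.2 ⟨h3, h4⟩), if_pos h3, if_pos h4]
      ring
    · rw [if_neg fun h => h4 (e3.1 h).2, if_neg h4]
      ring
  · rw [if_neg fun h => h3 (e3.1 h).1, if_neg h3]
    ring

end

end Pool.Agent.Lib.TCF
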