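import Pool.Agent.Lib.MP_7b7e48_nt.TCF.CA2
import Pool.Agent.Lib.MP_7b7e48_nt.TCF.CA3
import Pool.Agent.Lib.MP_7b7e48_nt.TCF.CA4
import Pool.Agent.Lib.MP_7b7e48_nt.RG.SMc2

/-!
# Module CA5 (90 minutes): the second moment of the weights

NOTATION: `K = log N`, `M = MM P N`, `W = Ico a (a + J)` resp. any finite set, `U = rhoU u B`.
PROOF of `second_low`. `CA3.second_moment_idx` with the index set `D ×ˢ tp B`, moduli `d * mrk f` (squarefree: the primes of `d` are `≤ M ≤ y0`),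
weights `w d`, `y1' = y1 ⌊N^(kap/100)⌋` (`CA1.mrk_le`), `T = J V U`, `V = Vw D w`. `At` is the double sum (a product of indicators: `d` and `mrk f`
are coprime). By `CA4.pw_mul` and `∑_f ∏ u (f c) = U` (`sum_tp`) the linear term is `U M1` (`M1` of `RG` for `D, w, W`). By `CA4.jw_mul` and
`CA1.sum_tt` the quadratic term is `sOff (M2 - G) + sDia G`, `G = ∑_{d₁,d₂} w w ∑_{k ∈ W} jw(d₁,d₂,k,k)`. So the bracket is
`U² [M2 - 2 J V M1 + (J V)²] + (sOff - U²) M2 + (sDia - sOff) G`.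
The first part is `≤ U² C Lam² J (1 + log M)^9` (`RG.variance` with `Law M (PN N M) ∅ u e`: no prime of `PN N M` divides `v`). Moreover
`|jw u e d₁ d₂ k₁ k₂| ≤ Ew d₁ * Ew (d₂/gcd)` (`0 ≤ pw ≤ Ew`), so with `SMc2_sum_gcd`, `SMc2_sum_le` (`∑_{d₁} Ew d₁ τ(d₁) ≤ ∏ (1 + 2 Ew p)`),
`SMc2_prod_exc`, `prod_upper`: `|M2| ≤ J² Lam² C (1 + log M)^9`, `|G| ≤ J Lam² C (1 + log M)^9`. Finally `0 ≤ U² - sOff ≤ (K² JJ/y0) U²`,
`0 ≤ sDia - sOff ≤ K³ U` (`Den`). The error term: `|V| ≤ ∑ |w|`, `U ≤ |tp B|`.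
PROOF of `second_up`. The same with `D = {1}`, `w = 1` (directly with the index set `tp B`), any finite `W`: the bracket is
`sOff (|W|² - |W|) + sDia |W| - U² |W|² ≤ sDia |W| ≤ K³ U |W|`.
-/

set_option autoImplicit false

open Finset

namespace Pool.Agent.Lib.TCF

open Pool.Agent.Lib.RG hiding RR sig Good
open Pool.Agent.Lib.RH

private theorem ca5_pw_abs (u e : ℕ → ℝ) (d : ℕ) (k : ℤ) : |pw u e d k| ≤ Ew u e d := by
  unfold pw Ew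
  rw [abs_prod]
  refine prod_le_prod (fun _ _ => abs_nonneg _) fun p _ => ?_
  refine (abs_add_le _ _).trans ?_
  split_ifs with h
  · exact le_rfl
  · rw [abs_zero]
    linarith [abs_nonneg (e p)]

private theorem ca5_jw_abs (u e : ℕ → ℝ) (d₁ d₂ : ℕ) (k₁ k₂ : ℤ) :
    |jw u e d₁ d₂ k₁ k₂| ≤ Ew u e d₁ * Ew u e (d₂ / d₁.gcd d₂) := by
  unfold jw
  rw [abs_mul, abs_mul]
  have h1 := ca5_pw_abs u e d₁ k₁
  have h2 := ca5_pw_abs u e (d₂ / d₁.gcd d₂) k₂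
  have h3 : |(if ((d₁.gcd d₂ : ℕ) : ℤ) ∣ k₂ - k₁ then (1 : ℝ) else 0)| ≤ 1 := by
    split_ifs <;> simp
  have h4 := SMc1_Ew_nonneg u e d₁
  have h5 := SMc1_Ew_nonneg u e (d₂ / d₁.gcd d₂)
  calc |pw u e d₁ k₁| * |pw u e (d₂ / d₁.gcd d₂) k₂| *
        |(if ((d₁.gcd d₂ : ℕ) : ℤ) ∣ k₂ - k₁ then (1 : ℝ) else 0)|
      ≤ (Ew u e d₁ * Ew u e (d₂ / d₁.gcd d₂)) * 1 :=
        mul_le_mul (mul_le_mul h1 h2 (abs_nonneg _) h4) h3 (abs_nonneg _) (mul_nonneg h4 h5)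
    _ = _ := mul_one _

/-- double sums over the sieve moduli -/
private theorem ca5_double : ∃ C : ℝ, 0 < C ∧ ∀ (z : ℕ), 2 ≤ z → ∀ (P S4 : Finset ℕ) (u e : ℕ → ℝ),
    Law z P S4 u e → ∀ (D : Finset ℕ) (w : ℕ → ℝ) (Lam : ℝ), Wts P D w Lam →
    ∀ (F : ℕ → ℕ → ℝ) (A : ℝ), 0 ≤ A → (∀ d₁ ∈ D, ∀ d₂ ∈ D,
      |F d₁ d₂| ≤ A * (Ew u e d₁ * Ew u e (d₂ / d₁.gcd d₂))) →
    |∑ d₁ ∈ D, ∑ d₂ ∈ D, w d₁ * w d₂ * F d₁ d₂| ≤ A * (C * Lam ^ 2 * (1 + Real.log z) ^ 9) := by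
  obtain ⟨C3, hC3, H3⟩ := prod_upper 3
  obtain ⟨C6, hC6, H6⟩ := prod_upper 6
  refine ⟨(16 * C3) * (81 * C6), by positivity, ?_⟩
  intro z hz P S4 u e hL D w Lam hw F A hA hF
  set Lz : ℝ := 1 + Real.log z with hLz
  have hLz1 : 1 ≤ Lz := by
    have : 0 ≤ Real.log z := Real.log_natCast_nonneg z
    linarith
  set T : ℝ := ∏ p ∈ P, (1 + (|u p| + |e p|)) with hT
  have hfn : ∀ p, 0 ≤ |u p| + |e p| := fun p => add_nonneg (abs_nonneg _) (abs_nonneg _)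
  have hT0 : 0 ≤ T := prod_nonneg fun p _ => by linarith [hfn p]
  have hTle : T ≤ 16 * C3 * Lz ^ 3 := by
    have h1 := SMc2_prod_exc hL 1
    have h2 := H3 z hz P hL.prime
    norm_num at h1
    calc T ≤ 16 * ∏ p ∈ P, (1 + 3 / (p : ℝ)) := by
          rw [hT]; exact h1
      _ ≤ 16 * (C3 * Lz ^ 3) := by
          have h2' : ∏ p ∈ P, (1 + 3 / (p : ℝ)) ≤ C3 * Lz ^ 3 := by
            simpa using h2
          linarith
      _ = 16 * C3 * Lz ^ 3 := by ring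
  set Q : ℝ := ∏ p ∈ P, (1 + 2 * (|u p| + |e p|)) with hQ
  have hQ0 : 0 ≤ Q := prod_nonneg fun p _ => by linarith [hfn p]
  have hQle : Q ≤ 81 * C6 * Lz ^ 6 := by
    have h1 := SMc2_prod_exc hL 2
    have h2 := H6 z hz P hL.prime
    norm_num at h1
    calc Q ≤ 81 * ∏ p ∈ P, (1 + 6 / (p : ℝ)) := by
          rw [hQ]; exact h1
      _ ≤ 81 * (C6 * Lz ^ 6) := by
          have h2' : ∏ p ∈ P, (1 + 6 / (p : ℝ)) ≤ C6 * Lz ^ 6 := by
            simpa using h2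
          linarith
      _ = 81 * C6 * Lz ^ 6 := by ring
  rcases D.eq_empty_or_nonempty with hDe | ⟨d0, hd0⟩
  · rw [hDe]
    simp only [sum_empty, abs_zero]
    positivity
  have hLam : 0 ≤ Lam := (abs_nonneg _).trans (hw.bd d0 hd0)
  have h1 : ∀ d₁ ∈ D, |∑ d₂ ∈ D, w d₁ * w d₂ * F d₁ d₂| ≤
      A * Lam ^ 2 * T * ∏ p ∈ d₁.primeFactors, 2 * (|u p| + |e p|) := by
    intro d₁ h₁
    have hE := SMc1_Ew_nonneg u e d₁
    calc |∑ d₂ ∈ D, w d₁ * w d₂ * F d₁ d₂| ≤ ∑ d₂ ∈ D, |w d₁ * w d₂ * F d₁ d₂| :=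
          abs_sum_le_sum_abs _ _
      _ ≤ ∑ d₂ ∈ D, (A * Lam ^ 2 * Ew u e d₁) * Ew u e (d₂ / d₁.gcd d₂) := by
          refine sum_le_sum fun d₂ h₂ => ?_
          rw [abs_mul, abs_mul]
          calc |w d₁| * |w d₂| * |F d₁ d₂|
              ≤ (Lam * Lam) * (A * (Ew u e d₁ * Ew u e (d₂ / d₁.gcd d₂))) :=
                mul_le_mul (mul_le_mul (hw.bd d₁ h₁) (hw.bd d₂ h₂) (abs_nonneg _) hLam)
                  (hF d₁ h₁ d₂ h₂) (abs_nonneg _) (mul_nonneg hLam hLam)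
            _ = _ := by ring
      _ = (A * Lam ^ 2 * Ew u e d₁) * ∑ d₂ ∈ D, Ew u e (d₂ / d₁.gcd d₂) := by rw [mul_sum]
      _ ≤ (A * Lam ^ 2 * Ew u e d₁) * ((d₁.divisors.card : ℝ) * T) :=
          mul_le_mul_of_nonneg_left (SMc2_sum_gcd P D u e d₁ (hw.sq d₁ h₁).1 hw.sq) (by positivity)
      _ = A * Lam ^ 2 * T * ((d₁.divisors.card : ℝ) * Ew u e d₁) := by ring
      _ = _ := by
          rw [SMc2_card_divisors d₁ (hw.sq d₁ h₁).2.1]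
          unfold Ew
          rw [← prod_mul_distrib]
  have h5 : ∑ d ∈ D, ∏ p ∈ d.primeFactors, 2 * (|u p| + |e p|) ≤ Q := by
    rw [hQ]
    exact SMc2_sum_le P D _ (fun p _ => by linarith [hfn p]) hw.sq
  calc |∑ d₁ ∈ D, ∑ d₂ ∈ D, w d₁ * w d₂ * F d₁ d₂|
      ≤ ∑ d₁ ∈ D, |∑ d₂ ∈ D, w d₁ * w d₂ * F d₁ d₂| := abs_sum_le_sum_abs _ _
    _ ≤ ∑ d₁ ∈ D, A * Lam ^ 2 * T * ∏ p ∈ d₁.primeFactors, 2 * (|u p| + |e p|) := sum_le_sum h1
    _ = A * Lam ^ 2 * T * ∑ d₁ ∈ D, ∏ p ∈ d₁.primeFactors, 2 * (|u p| + |e p|) := by rw [mul_sum]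
    _ ≤ A * Lam ^ 2 * T * Q := mul_le_mul_of_nonneg_left h5 (by positivity)
    _ = A * Lam ^ 2 * (T * Q) := by ring
    _ ≤ A * Lam ^ 2 * ((16 * C3 * Lz ^ 3) * (81 * C6 * Lz ^ 6)) :=
        mul_le_mul_of_nonneg_left (mul_le_mul hTle hQle hQ0 (by positivity)) (by positivity)
    _ = _ := by ring

section

variable {P : Prm} {N y0 r : ℕ} {B : Fin r → Finset ℕ} {v : ℕ} {u e : ℕ → ℝ} {I : Finset ℕ}
  {om : ℕ → ℝ} {X Err : ℝ}

private theorem ca5_ppN (S : Sit P N y0 B v u e I om X Err) :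
    ∀ p ∈ PP N (MM P N) B, ¬ p ∣ N := by
  intro p hp
  unfold PP at hp
  rcases mem_union.1 hp with h | h
  · unfold PN at h
    exact (mem_filter.1 h).2.2
  · unfold prs at h
    obtain ⟨c, -, hc⟩ := mem_biUnion.1 h
    exact (S.fam.pr c p hc).2.1

private theorem ca5_mem {f : Fin r → ℕ} (hf : f ∈ tp B) (c : Fin r) : f c ∈ B c :=
  Fintype.mem_piFinset.1 hf c

/-- the moduli -/
private theorem ca5_mod (S : Sit P N y0 B v u e I om X Err) (hMy : MM P N ≤ y0) {d : ℕ}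
    (hd : 1 ≤ d ∧ Squarefree d ∧ ∀ p : ℕ, p.Prime → p ∣ d → p ∈ PN N (MM P N))
    {f : Fin r → ℕ} (hf : f ∈ tp B) : d.Coprime (mrk f) ∧ Squarefree (d * mrk f) ∧
      ∀ p : ℕ, p.Prime → p ∣ d * mrk f → p ∈ PP N (MM P N) B := by
  obtain ⟨h1, h2, h3⟩ := mrk_sq S.fam hf
  have hlo : ∀ p : ℕ, p.Prime → p ∣ d → p ≤ MM P N := by
    intro p hp hpd
    have h := hd.2.2 p hp hpd
    unfold PN at h
    have := mem_range.1 (mem_filter.1 h).1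
    omega
  have hcop : d.Coprime (mrk f) := by
    apply Nat.coprime_of_dvd
    intro p hp hpd hpm
    obtain ⟨c, hc⟩ := (h3 p hp).1 hpm
    have h4 := (S.fam.pr c (f c) (ca5_mem hf c)).2.2
    have h5 := hlo p hp hpd
    rw [← hc] at h4
    omega
  refine ⟨hcop, (Nat.squarefree_mul hcop).2 ⟨hd.2.1, h2⟩, ?_⟩
  intro p hp hpd
  unfold PP prs
  rw [mem_union, mem_biUnion]
  rcases (Nat.Prime.dvd_mul hp).1 hpd with h | h
  · exact Or.inl (hd.2.2 p hp h)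
  · obtain ⟨c, hc⟩ := (h3 p hp).1 h
    right
    refine ⟨c, mem_univ _, ?_⟩
    rw [hc]
    exact ca5_mem hf c

private theorem ca5_law (S : Sit P N y0 B v u e I om X Err) (hv : Rough (MM P N) v) :
    Law (MM P N) (PN N (MM P N)) ∅ u e where
  prime := by
    intro p hp
    unfold PN at hp
    have h := mem_filter.1 hp
    exact ⟨h.2.1, by have := mem_range.1 h.1; omega⟩
  card := by simp
  four := by
    intro p hp
    simp at hp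
  small := by
    intro p hp _
    have hpP : p ∈ PP N (MM P N) B := mem_union_left _ hp
    refine S.lw.small p hpP ?_
    intro h
    unfold dv at h
    have h2 := (mem_filter.1 h).2
    unfold PN at hp
    have h3 := mem_filter.1 hp
    have h4 := hv p h3.2.1 h2
    have h5 := mem_range.1 h3.1
    omega
  mean := by
    intro p hp
    exact S.lw.mean p (mem_union_left _ hp)

end

theorem second_low : ∃ C : ℝ, 0 < C ∧ ∀ (P : Prm) (N y0 r : ℕ) (B : Fin r → Finset ℕ) (v : ℕ) (u e : ℕ → ℝ)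
    (I : Finset ℕ) (om : ℕ → ℝ) (X Err : ℝ), Sit P N y0 B v u e I om X Err →
    Den B u y0 (Real.log N) (JJ N) → Rough (MM P N) v → 2 ≤ MM P N → MM P N ≤ y0 →
    ∀ (D : Finset ℕ) (w : ℕ → ℝ) (Lam : ℝ), Wts (PN N (MM P N)) D w Lam → ∀ y1 : ℕ, 1 ≤ y1 →
    (∀ d ∈ D, d ≤ y1) → ((y1 : ℝ) * (N : ℝ) ^ (P.kap / 100)) ^ 2 ≤ (N : ℝ) ^ (P.kap / 20) →
    ∀ (a : ℤ) (J : ℕ), 1 ≤ J →
    (∀ k ∈ Ico a (a + J), 2 * |k| ≤ y0 ∧ (k ≠ 0 ∨ ∀ c, ∀ p ∈ B c, e p = 0)) →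
    ∑ n ∈ I, om n * (At B D w (Ico a (a + J)) N v n - J * Vw D w * rhoU u B) ^ 2 ≤
      X * (C * Lam ^ 2 * (1 + Real.log (MM P N)) ^ 9 * (J * rhoU u B ^ 2 +
        (Real.log N) ^ 2 * JJ N / y0 * (J * rhoU u B) ^ 2 + (Real.log N) ^ 3 * J * rhoU u B)) +
      4 * (J * (∑ d ∈ D, |w d|) * (tp B).card) ^ 2 * Err := by
  obtain ⟨C1, hC1, hvar⟩ := variance
  obtain ⟨C2, hC2, hdbl⟩ := ca5_double
  refine ⟨C1 + C2, by positivity, ?_⟩
  intro P N y0 r B v u e I om X Err S hD hv hM2 hMy D w Lam hw y1 hy1 hDy hsz a J hJ hk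
  set W : Finset ℤ := Ico a (a + J) with hW
  set U : ℝ := rhoU u B with hU
  set V : ℝ := Vw D w with hV
  have hU0 : 0 < U := hD.pos
  have hWc : (W.card : ℝ) = J := by
    rw [hW, Int.card_Ico]
    simp
  have hlaw := ca5_law S hv
  have htp : (tp B).Nonempty := by
    rw [← card_pos]
    have h1 := hD.pos.trans_le hD.card
    exact_mod_cast h1
  obtain ⟨f0, hf0⟩ := htp
  set F : ℕ := ⌊(N : ℝ) ^ (P.kap / 100)⌋₊ with hF
  have hmF : ∀ f ∈ tp B, mrk f ≤ F := fun f hf => Nat.le_floor (mrk_le S.fam hf)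
  have hF1 : 1 ≤ F := (mrk_sq S.fam hf0).1.trans (hmF f0 hf0)
  have hFr : (F : ℝ) ≤ (N : ℝ) ^ (P.kap / 100) := Nat.floor_le (Real.rpow_nonneg (Nat.cast_nonneg _) _)
  have hlo : ∀ d ∈ D, ∀ p : ℕ, p.Prime → p ∣ d → p ≤ y0 := by
    intro d hd p hp hpd
    have h := (hw.sq d hd).2.2 p hp hpd
    exact ((hlaw.prime p h).2).trans hMy
  have hyl : ∀ k ∈ W, |k| ≤ (y0 : ℤ) := by
    intro k hk1
    have := (hk k hk1).1
    have h0 := abs_nonneg k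
    linarith
  have key := second_moment_idx S.lw (ca5_ppN S) (v := v)
    (fun p => by unfold dv; rw [mem_filter]) (D ×ˢ tp B) (fun i => i.1 * mrk i.2) (fun i => w i.1)
    (y1 * F) ⌊(N : ℝ) ^ (P.kap / 20)⌋₊
    (fun i hi => by
      obtain ⟨hi1, hi2⟩ := mem_product.1 hi
      have h := ca5_mod S hMy (hw.sq i.1 hi1) hi2
      exact ⟨Nat.mul_le_mul (hDy i.1 hi1) (hmF i.2 hi2), h.2.1, h.2.2⟩)
    (Nat.mul_pos hy1 hF1)
    (Nat.le_floor (by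
      push_cast
      refine le_trans (pow_le_pow_left₀ (by positivity) ?_ 2) hsz
      exact mul_le_mul_of_nonneg_left hFr (Nat.cast_nonneg _)))
    I om X Err S.law W (J * V * U)
  -- the left hand side
  have hA : ∀ n : ℕ, ∑ k ∈ W, ∑ i ∈ D ×ˢ tp B,
      (if ((i.1 * mrk i.2 : ℕ) : ℤ) ∣ k * N + v * n then w i.1 else 0) = At B D w W N v n := by
    intro n
    unfold At
    refine sum_congr rfl fun k _ => ?_
    rw [sum_product, sum_mul_sum]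
    refine sum_congr rfl fun d hd => sum_congr rfl fun f hf => ?_
    have hc := (ca5_mod S hMy (hw.sq d hd) hf).1
    have hiff : ((d * mrk f : ℕ) : ℤ) ∣ k * N + v * n ↔
        (d : ℤ) ∣ k * N + v * n ∧ (mrk f : ℤ) ∣ k * N + v * n := by
      rw [Int.natCast_dvd, Int.natCast_dvd, Int.natCast_dvd]
      constructor
      · intro h
        exact ⟨(dvd_mul_right _ _).trans h, (dvd_mul_left _ _).trans h⟩
      · rintro ⟨h1, h2⟩
        exact Nat.Coprime.mul_dvd_of_dvd_of_dvd hc h1 h2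
    by_cases h1 : (d : ℤ) ∣ k * N + v * n
    · by_cases h2 : (mrk f : ℤ) ∣ k * N + v * n
      · rw [if_pos (hiff.2 ⟨h1, h2⟩), if_pos h1, if_pos h2, mul_one]
      · rw [if_neg (fun h => h2 (hiff.1 h).2), if_neg h2, mul_zero]
    · rw [if_neg (fun h => h1 (hiff.1 h).1), if_neg h1, zero_mul]
  -- the linear term
  have hLin : ∑ i ∈ D ×ˢ tp B, w i.1 * ∑ k ∈ W, pw u e (i.1 * mrk i.2) k = U * M1 u e D w W := by
    rw [sum_product]
    unfold M1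
    rw [mul_sum]
    refine sum_congr rfl fun d hd => ?_
    have h1 : ∀ f ∈ tp B, w d * ∑ k ∈ W, pw u e (d * mrk f) k =
        (w d * ∑ k ∈ W, pw u e d k) * ∏ c, u (f c) := by
      intro f hf
      rw [mul_assoc, sum_mul]
      refine congrArg (fun t => w d * t) (sum_congr rfl fun k hk1 => ?_)
      exact pw_mul S.fam u e (hw.sq d hd).2.1 (hlo d hd) hf (hk k hk1).2 (hyl k hk1)
    rw [sum_congr rfl h1, ← mul_sum, sum_tp B (fun _ p => u p)]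
    have h2 : (∏ c : Fin r, ∑ p ∈ B c, u p) = U := rfl
    rw [h2]
    ring
  -- the quadratic term
  set G : ℝ := ∑ d₁ ∈ D, ∑ d₂ ∈ D, w d₁ * w d₂ * ∑ k ∈ W, jw u e d₁ d₂ k k with hG
  have hQuad : ∑ i ∈ D ×ˢ tp B, ∑ j ∈ D ×ˢ tp B, w i.1 * w j.1 * ∑ k₁ ∈ W, ∑ k₂ ∈ W,
      jw u e (i.1 * mrk i.2) (j.1 * mrk j.2) k₁ k₂ =
      sOff u B * M2 u e D w W + (sDia u B - sOff u B) * G := by
    have h0 : ∀ d₁ ∈ D, ∀ d₂ ∈ D, ∑ f ∈ tp B, ∑ f' ∈ tp B, w d₁ * w d₂ * ∑ k₁ ∈ W, ∑ k₂ ∈ W,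
        jw u e (d₁ * mrk f) (d₂ * mrk f') k₁ k₂ =
        sOff u B * (w d₁ * w d₂ * ∑ k₁ ∈ W, ∑ k₂ ∈ W, jw u e d₁ d₂ k₁ k₂) +
          (sDia u B - sOff u B) * (w d₁ * w d₂ * ∑ k ∈ W, jw u e d₁ d₂ k k) := by
      intro d₁ h₁ d₂ h₂
      have h1 : ∀ f ∈ tp B, ∀ f' ∈ tp B, w d₁ * w d₂ * ∑ k₁ ∈ W, ∑ k₂ ∈ W,
          jw u e (d₁ * mrk f) (d₂ * mrk f') k₁ k₂ =
          ∑ k₁ ∈ W, ∑ k₂ ∈ W, (w d₁ * w d₂ * jw u e d₁ d₂ k₁ k₂) * tt u (k₁ = k₂) f f' := by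
        intro f hf f' hf'
        rw [mul_sum]
        refine sum_congr rfl fun k₁ hk₁ => ?_
        rw [mul_sum]
        refine sum_congr rfl fun k₂ hk₂ => ?_
        rw [jw_mul S.fam u e (hw.sq d₁ h₁).2.1 (hw.sq d₂ h₂).2.1 (hlo d₁ h₁) (hlo d₂ h₂) hf hf'
          (hk k₁ hk₁).2 (hk k₂ hk₂).2 (hk k₁ hk₁).1 (hk k₂ hk₂).1]
        ring
      rw [sum_congr rfl fun f hf => sum_congr rfl fun f' hf' => h1 f hf f' hf']
      have h2 : ∑ f ∈ tp B, ∑ f' ∈ tp B, ∑ k₁ ∈ W, ∑ k₂ ∈ W,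
          (w d₁ * w d₂ * jw u e d₁ d₂ k₁ k₂) * tt u (k₁ = k₂) f f' =
          ∑ k₁ ∈ W, ∑ k₂ ∈ W, (w d₁ * w d₂ * jw u e d₁ d₂ k₁ k₂) *
            ∑ f ∈ tp B, ∑ f' ∈ tp B, tt u (k₁ = k₂) f f' := by
        have e1 : ∀ f : Fin r → ℕ, ∑ f' ∈ tp B, ∑ k₁ ∈ W, ∑ k₂ ∈ W,
            (w d₁ * w d₂ * jw u e d₁ d₂ k₁ k₂) * tt u (k₁ = k₂) f f' =
            ∑ k₁ ∈ W, ∑ k₂ ∈ W, ∑ f' ∈ tp B,
              (w d₁ * w d₂ * jw u e d₁ d₂ k₁ k₂) * tt u (k₁ = k₂) f f' := by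
          intro f
          rw [sum_comm]
          refine sum_congr rfl fun k₁ _ => ?_
          rw [sum_comm]
        rw [sum_congr rfl fun f _ => e1 f, sum_comm]
        refine sum_congr rfl fun k₁ _ => ?_
        rw [sum_comm]
        refine sum_congr rfl fun k₂ _ => ?_
        rw [mul_sum]
        refine sum_congr rfl fun f _ => ?_
        rw [mul_sum]
      rw [h2]
      have h3 : ∀ k₁ ∈ W, ∑ k₂ ∈ W, (w d₁ * w d₂ * jw u e d₁ d₂ k₁ k₂) *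
            ∑ f ∈ tp B, ∑ f' ∈ tp B, tt u (k₁ = k₂) f f' =
          ∑ k₂ ∈ W, sOff u B * (w d₁ * w d₂ * jw u e d₁ d₂ k₁ k₂) +
            (sDia u B - sOff u B) * (w d₁ * w d₂ * jw u e d₁ d₂ k₁ k₁) := by
        intro k₁ hk₁
        have h4 : ∀ k₂ ∈ W, (w d₁ * w d₂ * jw u e d₁ d₂ k₁ k₂) *
            ∑ f ∈ tp B, ∑ f' ∈ tp B, tt u (k₁ = k₂) f f' =
            sOff u B * (w d₁ * w d₂ * jw u e d₁ d₂ k₁ k₂) +
              (if k₁ = k₂ then (sDia u B - sOff u B) * (w d₁ * w d₂ * jw u e d₁ d₂ k₁ k₂) else 0) := by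
          intro k₂ _
          rw [sum_tt B u (k₁ = k₂)]
          split_ifs with h
          · ring
          · ring
        rw [sum_congr rfl h4, sum_add_distrib, sum_ite_eq, if_pos hk₁]
      rw [sum_congr rfl h3, sum_add_distrib]
      simp only [mul_sum]
    have h5 : ∑ i ∈ D ×ˢ tp B, ∑ j ∈ D ×ˢ tp B, w i.1 * w j.1 * ∑ k₁ ∈ W, ∑ k₂ ∈ W,
        jw u e (i.1 * mrk i.2) (j.1 * mrk j.2) k₁ k₂ =
        ∑ d₁ ∈ D, ∑ d₂ ∈ D, ∑ f ∈ tp B, ∑ f' ∈ tp B, w d₁ * w d₂ * ∑ k₁ ∈ W, ∑ k₂ ∈ W,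
          jw u e (d₁ * mrk f) (d₂ * mrk f') k₁ k₂ := by
      rw [sum_product]
      refine sum_congr rfl fun d₁ _ => ?_
      have e2 : ∀ f : Fin r → ℕ, ∑ j ∈ D ×ˢ tp B, w d₁ * w j.1 * ∑ k₁ ∈ W, ∑ k₂ ∈ W,
          jw u e (d₁ * mrk f) (j.1 * mrk j.2) k₁ k₂ =
          ∑ d₂ ∈ D, ∑ f' ∈ tp B, w d₁ * w d₂ * ∑ k₁ ∈ W, ∑ k₂ ∈ W,
          jw u e (d₁ * mrk f) (d₂ * mrk f') k₁ k₂ := fun f => by rw [sum_product]
      rw [sum_congr rfl fun f _ => e2 f, sum_comm]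
    rw [h5, sum_congr rfl fun d₁ h₁ => sum_congr rfl fun d₂ h₂ => h0 d₁ h₁ d₂ h₂]
    unfold M2
    rw [hG, mul_sum, mul_sum, ← sum_add_distrib]
    refine sum_congr rfl fun d₁ _ => ?_
    rw [sum_add_distrib, mul_sum, mul_sum]
  -- the bounds
  set Lz : ℝ := (1 + Real.log (MM P N)) ^ 9 with hLz
  have hLz0 : 0 ≤ Lz := by
    have : 0 ≤ Real.log (MM P N) := Real.log_natCast_nonneg _
    positivity
  have hJ0 : (0 : ℝ) ≤ J := Nat.cast_nonneg _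
  have hM2b : |M2 u e D w W| ≤ (J : ℝ) ^ 2 * (C2 * Lam ^ 2 * Lz) := by
    unfold M2
    refine hdbl (MM P N) hM2 (PN N (MM P N)) ∅ u e hlaw D w Lam hw
      (fun d₁ d₂ => ∑ k₁ ∈ W, ∑ k₂ ∈ W, jw u e d₁ d₂ k₁ k₂) ((J : ℝ) ^ 2) (by positivity) ?_
    intro d₁ _ d₂ _
    calc |∑ k₁ ∈ W, ∑ k₂ ∈ W, jw u e d₁ d₂ k₁ k₂| ≤ ∑ k₁ ∈ W, |∑ k₂ ∈ W, jw u e d₁ d₂ k₁ k₂| :=
          abs_sum_le_sum_abs _ _
      _ ≤ ∑ k₁ ∈ W, ∑ k₂ ∈ W, |jw u e d₁ d₂ k₁ k₂| :=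
          sum_le_sum fun k₁ _ => abs_sum_le_sum_abs _ _
      _ ≤ ∑ k₁ ∈ W, ∑ k₂ ∈ W, Ew u e d₁ * Ew u e (d₂ / d₁.gcd d₂) :=
          sum_le_sum fun k₁ _ => sum_le_sum fun k₂ _ => ca5_jw_abs u e d₁ d₂ k₁ k₂
      _ = (J : ℝ) ^ 2 * (Ew u e d₁ * Ew u e (d₂ / d₁.gcd d₂)) := by
          rw [sum_const, sum_const, nsmul_eq_mul, nsmul_eq_mul, hWc]
          ring
  have hGb : |G| ≤ (J : ℝ) * (C2 * Lam ^ 2 * Lz) := by
    rw [hG]
    refine hdbl (MM P N) hM2 (PN N (MM P N)) ∅ u e hlaw D w Lam hw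
      (fun d₁ d₂ => ∑ k ∈ W, jw u e d₁ d₂ k k) (J : ℝ) hJ0 ?_
    intro d₁ _ d₂ _
    calc |∑ k ∈ W, jw u e d₁ d₂ k k| ≤ ∑ k ∈ W, |jw u e d₁ d₂ k k| := abs_sum_le_sum_abs _ _
      _ ≤ ∑ k ∈ W, Ew u e d₁ * Ew u e (d₂ / d₁.gcd d₂) :=
          sum_le_sum fun k _ => ca5_jw_abs u e d₁ d₂ k k
      _ = (J : ℝ) * (Ew u e d₁ * Ew u e (d₂ / d₁.gcd d₂)) := by
          rw [sum_const, nsmul_eq_mul, hWc]
  have hvr := hvar (MM P N) hM2 (PN N (MM P N)) ∅ u e hlaw D w Lam hw a J hJ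
  rw [← hW, ← hV, ← hLz] at hvr
  have hbr : (sOff u B * M2 u e D w W + (sDia u B - sOff u B) * G) -
      2 * (J * V * U) * (U * M1 u e D w W) + (J * V * U) ^ 2 ≤
      (C1 + C2) * Lam ^ 2 * Lz * (J * U ^ 2 +
        (Real.log N) ^ 2 * JJ N / y0 * (J * U) ^ 2 + (Real.log N) ^ 3 * J * U) := by
    have e1 : (sOff u B * M2 u e D w W + (sDia u B - sOff u B) * G) -
      2 * (J * V * U) * (U * M1 u e D w W) + (J * V * U) ^ 2 =
      U ^ 2 * (M2 u e D w W - 2 * (J * V) * M1 u e D w W + (J * V) ^ 2) +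
        (U ^ 2 - sOff u B) * (-(M2 u e D w W)) + (sDia u B - sOff u B) * G := by ring
    rw [e1]
    have b1 : U ^ 2 * (M2 u e D w W - 2 * (J * V) * M1 u e D w W + (J * V) ^ 2) ≤
        U ^ 2 * (C1 * Lam ^ 2 * J * Lz) := mul_le_mul_of_nonneg_left hvr (sq_nonneg _)
    have o1 : 0 ≤ U ^ 2 - sOff u B := by linarith [hD.off]
    have o2 : U ^ 2 - sOff u B ≤ (Real.log N) ^ 2 * JJ N / y0 * U ^ 2 := by
      have := hD.off0
      rw [← hU] at this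
      linarith
    have b2 : (U ^ 2 - sOff u B) * (-(M2 u e D w W)) ≤
        ((Real.log N) ^ 2 * JJ N / y0 * U ^ 2) * ((J : ℝ) ^ 2 * (C2 * Lam ^ 2 * Lz)) := by
      refine (mul_le_mul_of_nonneg_left (neg_le_abs _) o1).trans ?_
      exact mul_le_mul o2 hM2b (abs_nonneg _) (o1.trans o2)
    have s1 : 0 ≤ sDia u B - sOff u B := by linarith [hD.dia0]
    have s2 : sDia u B - sOff u B ≤ (Real.log N) ^ 3 * U := by
      have := hD.dia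
      rw [← hU] at this
      linarith [hD.offn]
    have b3 : (sDia u B - sOff u B) * G ≤
        ((Real.log N) ^ 3 * U) * ((J : ℝ) * (C2 * Lam ^ 2 * Lz)) := by
      refine (mul_le_mul_of_nonneg_left (le_abs_self _) s1).trans ?_
      exact mul_le_mul s2 hGb (abs_nonneg _) (s1.trans s2)
    have n1 : 0 ≤ (Real.log N) ^ 2 * JJ N / y0 * U ^ 2 := o1.trans o2
    have n2 : 0 ≤ (Real.log N) ^ 3 * U := s1.trans s2
    have n3 : 0 ≤ Lam ^ 2 * Lz := by positivity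
    have m1 : 0 ≤ C2 * ((Lam ^ 2 * Lz) * (J * U ^ 2)) := by positivity
    have m2 : 0 ≤ C1 * ((Lam ^ 2 * Lz) * (J ^ 2 * ((Real.log N) ^ 2 * JJ N / y0 * U ^ 2))) := by
      positivity
    have m3 : 0 ≤ C1 * ((Lam ^ 2 * Lz) * (J * ((Real.log N) ^ 3 * U))) := by positivity
    have e2 : (C1 + C2) * Lam ^ 2 * Lz * (J * U ^ 2 +
        (Real.log N) ^ 2 * JJ N / y0 * (J * U) ^ 2 + (Real.log N) ^ 3 * J * U) =
        U ^ 2 * (C1 * Lam ^ 2 * J * Lz) +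
        ((Real.log N) ^ 2 * JJ N / y0 * U ^ 2) * ((J : ℝ) ^ 2 * (C2 * Lam ^ 2 * Lz)) +
        ((Real.log N) ^ 3 * U) * ((J : ℝ) * (C2 * Lam ^ 2 * Lz)) +
        C2 * ((Lam ^ 2 * Lz) * (J * U ^ 2)) +
        C1 * ((Lam ^ 2 * Lz) * (J ^ 2 * ((Real.log N) ^ 2 * JJ N / y0 * U ^ 2))) +
        C1 * ((Lam ^ 2 * Lz) * (J * ((Real.log N) ^ 3 * U))) := by ring
    rw [e2]
    linarith
  -- the error
  have hVabs : |V| ≤ ∑ d ∈ D, |w d| := by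
    rw [hV]
    unfold Vw
    refine (abs_sum_le_sum_abs _ _).trans (sum_le_sum fun d hd => ?_)
    rw [abs_div, Nat.abs_cast]
    have : (1 : ℝ) ≤ d := by exact_mod_cast (hw.sq d hd).1
    exact div_le_self (abs_nonneg _) this
  have hsw : 0 ≤ ∑ d ∈ D, |w d| := sum_nonneg fun _ _ => abs_nonneg _
  have herr : (W.card * (∑ i ∈ D ×ˢ tp B, |w i.1|) + |J * V * U|) ^ 2 * Err ≤
      4 * (J * (∑ d ∈ D, |w d|) * (tp B).card) ^ 2 * Err := by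
    apply mul_le_mul_of_nonneg_right _ S.E0
    have h1 : ∑ i ∈ D ×ˢ tp B, |w i.1| = (∑ d ∈ D, |w d|) * (tp B).card := by
      rw [sum_product, sum_mul]
      refine sum_congr rfl fun d _ => ?_
      have h5 : ∑ _y ∈ tp B, |w d| = |w d| * (tp B).card := by
        rw [sum_const, nsmul_eq_mul]
        ring
      exact h5
    have h2 : |J * V * U| ≤ J * (∑ d ∈ D, |w d|) * (tp B).card := by
      rw [abs_mul, abs_mul, Nat.abs_cast, abs_of_pos hU0]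
      exact mul_le_mul (mul_le_mul_of_nonneg_left hVabs hJ0) hD.card hU0.le (by positivity)
    rw [h1, hWc]
    have h3 : (0 : ℝ) ≤ J * ((∑ d ∈ D, |w d|) * (tp B).card) := by positivity
    calc (J * ((∑ d ∈ D, |w d|) * (tp B).card) + |J * V * U|) ^ 2
        ≤ (J * ((∑ d ∈ D, |w d|) * (tp B).card) + J * (∑ d ∈ D, |w d|) * (tp B).card) ^ 2 :=
          pow_le_pow_left₀ (add_nonneg h3 (abs_nonneg _)) (by linarith) 2
      _ = 4 * (J * (∑ d ∈ D, |w d|) * (tp B).card) ^ 2 := by ring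
  simp only [hA, hLin, hQuad] at key
  have hfin := (abs_le.1 key).2
  have hX := mul_le_mul_of_nonneg_left hbr S.X0
  linarith

theorem second_up (P : Prm) (N y0 r : ℕ) (B : Fin r → Finset ℕ) (v : ℕ) (u e : ℕ → ℝ)
    (I : Finset ℕ) (om : ℕ → ℝ) (X Err : ℝ) (S : Sit P N y0 B v u e I om X Err)
    (hD : Den B u y0 (Real.log N) (JJ N)) (hN : 2 ≤ N) (hk : 0 < P.kap) (W : Finset ℤ)
    (hW : ∀ k ∈ W, 2 * |k| ≤ y0 ∧ (k ≠ 0 ∨ ∀ c, ∀ p ∈ B c, e p = 0)) :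
    ∑ n ∈ I, om n * (St B W N v n - W.card * rhoU u B) ^ 2 ≤
      X * ((Real.log N) ^ 3 * rhoU u B * W.card) + 4 * (W.card * (tp B).card) ^ 2 * Err := by
  set U : ℝ := rhoU u B with hU
  have hU0 : 0 < U := hD.pos
  have htp : (tp B).Nonempty := by
    rw [← card_pos]
    have h1 := hD.pos.trans_le hD.card
    exact_mod_cast h1
  obtain ⟨f0, hf0⟩ := htp
  set F : ℕ := ⌊(N : ℝ) ^ (P.kap / 100)⌋₊ with hF
  have hmF : ∀ f ∈ tp B, mrk f ≤ F := fun f hf => Nat.le_floor (mrk_le S.fam hf)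
  have hF1 : 1 ≤ F := (mrk_sq S.fam hf0).1.trans (hmF f0 hf0)
  have hN0 : (0 : ℝ) < N := by
    have : 0 < N := by omega
    exact_mod_cast this
  have hN1 : (1 : ℝ) ≤ N := by
    have : 1 ≤ N := by omega
    exact_mod_cast this
  have hFr : (F : ℝ) ≤ (N : ℝ) ^ (P.kap / 100) := Nat.floor_le (Real.rpow_nonneg hN0.le _)
  have hyl : ∀ k ∈ W, |k| ≤ (y0 : ℤ) := by
    intro k hk1
    have := (hW k hk1).1
    have h0 := abs_nonneg k
    linarith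
  have key := second_moment_idx S.lw (ca5_ppN S) (v := v)
    (fun p => by unfold dv; rw [mem_filter]) (tp B) (fun f => mrk f) (fun _ => (1 : ℝ))
    F ⌊(N : ℝ) ^ (P.kap / 20)⌋₊
    (fun f hf => by
      obtain ⟨h1, h2, h3⟩ := mrk_sq S.fam hf
      refine ⟨hmF f hf, h2, ?_⟩
      intro p hp hpd
      obtain ⟨c, hc⟩ := (h3 p hp).1 hpd
      unfold PP prs
      rw [mem_union, mem_biUnion]
      right
      refine ⟨c, mem_univ _, ?_⟩
      rw [hc]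
      exact ca5_mem hf c)
    hF1
    (Nat.le_floor (by
      push_cast
      calc (F : ℝ) ^ 2 ≤ ((N : ℝ) ^ (P.kap / 100)) ^ 2 := pow_le_pow_left₀ (Nat.cast_nonneg _) hFr 2
        _ = (N : ℝ) ^ (P.kap / 100 * 2) := by
            rw [← Real.rpow_natCast ((N : ℝ) ^ (P.kap / 100)) 2, ← Real.rpow_mul hN0.le]
            norm_num
        _ ≤ (N : ℝ) ^ (P.kap / 20) := Real.rpow_le_rpow_of_exponent_le hN1 (by linarith)))
    I om X Err S.law W (W.card * U)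
  have hA : ∀ n : ℕ, ∑ k ∈ W, ∑ f ∈ tp B,
      (if (mrk f : ℤ) ∣ k * N + v * n then (1 : ℝ) else 0) = St B W N v n := fun n => rfl
  have hpw : ∀ f ∈ tp B, ∀ k ∈ W, pw u e (mrk f) k = ∏ c, u (f c) := by
    intro f hf k hk1
    have h := pw_mul S.fam u e (d := 1) squarefree_one (fun p hp hpd => by
      have := Nat.le_of_dvd one_pos hpd
      have := hp.two_le
      omega) hf (hW k hk1).2 (hyl k hk1)
    rw [one_mul] at h
    rw [h]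
    have h1 : pw u e 1 k = 1 := by
      unfold pw
      rw [Nat.primeFactors_one, prod_empty]
    rw [h1, one_mul]
  have hLin : ∑ f ∈ tp B, (1 : ℝ) * ∑ k ∈ W, pw u e (mrk f) k = W.card * U := by
    have h1 : ∀ f ∈ tp B, (1 : ℝ) * ∑ k ∈ W, pw u e (mrk f) k = W.card * ∏ c, u (f c) := by
      intro f hf
      rw [one_mul, sum_congr rfl (hpw f hf), sum_const, nsmul_eq_mul]
    rw [sum_congr rfl h1, ← mul_sum, sum_tp B (fun _ p => u p)]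
    rfl
  have hjw : ∀ f ∈ tp B, ∀ f' ∈ tp B, ∀ k₁ ∈ W, ∀ k₂ ∈ W,
      jw u e (mrk f) (mrk f') k₁ k₂ = tt u (k₁ = k₂) f f' := by
    intro f hf f' hf' k₁ hk₁ k₂ hk₂
    have h1 : ∀ p : ℕ, p.Prime → p ∣ 1 → p ≤ y0 := fun p hp hpd => by
      have := Nat.le_of_dvd one_pos hpd
      have := hp.two_le
      omega
    have h := jw_mul S.fam u e (d₁ := 1) (d₂ := 1) squarefree_one squarefree_one h1 h1 hf hf'
      (hW k₁ hk₁).2 (hW k₂ hk₂).2 (hW k₁ hk₁).1 (hW k₂ hk₂).1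
    rw [one_mul, one_mul] at h
    rw [h]
    have h2 : jw u e 1 1 k₁ k₂ = 1 := by
      unfold jw pw
      simp
    rw [h2, one_mul]
  have hQuad : ∑ f ∈ tp B, ∑ f' ∈ tp B, (1 : ℝ) * 1 * ∑ k₁ ∈ W, ∑ k₂ ∈ W,
      jw u e (mrk f) (mrk f') k₁ k₂ =
      sOff u B * (W.card : ℝ) ^ 2 + (sDia u B - sOff u B) * W.card := by
    have h1 : ∀ f ∈ tp B, ∀ f' ∈ tp B, (1 : ℝ) * 1 * ∑ k₁ ∈ W, ∑ k₂ ∈ W,
        jw u e (mrk f) (mrk f') k₁ k₂ = ∑ k₁ ∈ W, ∑ k₂ ∈ W, tt u (k₁ = k₂) f f' := by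
      intro f hf f' hf'
      rw [one_mul, one_mul]
      exact sum_congr rfl fun k₁ hk₁ => sum_congr rfl fun k₂ hk₂ => hjw f hf f' hf' k₁ hk₁ k₂ hk₂
    rw [sum_congr rfl fun f hf => sum_congr rfl fun f' hf' => h1 f hf f' hf']
    have e1 : ∀ f : Fin r → ℕ, ∑ f' ∈ tp B, ∑ k₁ ∈ W, ∑ k₂ ∈ W, tt u (k₁ = k₂) f f' =
        ∑ k₁ ∈ W, ∑ k₂ ∈ W, ∑ f' ∈ tp B, tt u (k₁ = k₂) f f' := by
      intro f
      rw [sum_comm]
      refine sum_congr rfl fun k₁ _ => ?_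
      rw [sum_comm]
    have e2 : ∀ k₁ ∈ W, ∑ f ∈ tp B, ∑ k₂ ∈ W, ∑ f' ∈ tp B, tt u (k₁ = k₂) f f' =
        sOff u B * W.card + (sDia u B - sOff u B) := by
      intro k₁ hk₁
      rw [sum_comm]
      have h4 : ∀ k₂ ∈ W, ∑ f ∈ tp B, ∑ f' ∈ tp B, tt u (k₁ = k₂) f f' =
          sOff u B + (if k₁ = k₂ then (sDia u B - sOff u B) else 0) := by
        intro k₂ _
        rw [sum_tt B u (k₁ = k₂)]
        split_ifs with h
        · ring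
        · ring
      rw [sum_congr rfl h4, sum_add_distrib, sum_ite_eq, if_pos hk₁, sum_const, nsmul_eq_mul]
      ring
    rw [sum_congr rfl fun f _ => e1 f, sum_comm, sum_congr rfl e2, sum_const, nsmul_eq_mul]
    ring
  have hWc0 : (0 : ℝ) ≤ W.card := Nat.cast_nonneg _
  have hbr : (sOff u B * (W.card : ℝ) ^ 2 + (sDia u B - sOff u B) * W.card) -
      2 * (W.card * U) * (W.card * U) + (W.card * U) ^ 2 ≤ (Real.log N) ^ 3 * U * W.card := by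
    have s1 := hD.off
    rw [← hU] at s1
    have s2 : sDia u B - sOff u B ≤ (Real.log N) ^ 3 * U := by
      have := hD.dia
      rw [← hU] at this
      linarith [hD.offn]
    have b1 := mul_le_mul_of_nonneg_right s1 (sq_nonneg (W.card : ℝ))
    have b2 := mul_le_mul_of_nonneg_right s2 hWc0
    have e1 : 2 * (W.card * U) * (W.card * U) = 2 * (W.card * U) ^ 2 := by ring
    have e2 : (W.card * U) ^ 2 = U ^ 2 * (W.card : ℝ) ^ 2 := by ring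
    rw [e1, e2]
    linarith
  have herr : (W.card * (∑ f ∈ tp B, |(1 : ℝ)|) + |W.card * U|) ^ 2 * Err ≤
      4 * (W.card * (tp B).card) ^ 2 * Err := by
    apply mul_le_mul_of_nonneg_right _ S.E0
    have h1 : ∑ f ∈ tp B, |(1 : ℝ)| = (tp B).card := by
      rw [abs_one, sum_const, nsmul_eq_mul, mul_one]
    have h2 : |W.card * U| ≤ W.card * (tp B).card := by
      rw [abs_mul, Nat.abs_cast, abs_of_pos hU0]
      exact mul_le_mul_of_nonneg_left hD.card hWc0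
    rw [h1]
    have h3 : (0 : ℝ) ≤ W.card * (tp B).card := by positivity
    calc (W.card * ((tp B).card : ℝ) + |W.card * U|) ^ 2
        ≤ (W.card * ((tp B).card : ℝ) + W.card * (tp B).card) ^ 2 :=
          pow_le_pow_left₀ (add_nonneg h3 (abs_nonneg _)) (by linarith) 2
      _ = 4 * (W.card * (tp B).card) ^ 2 := by ring
  simp only [hA] at key
  rw [hLin, hQuad] at key
  have hfin := (abs_le.1 key).2
  have hX := mul_le_mul_of_nonneg_left hbr S.X0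
  linarith

end Pool.Agent.Lib.TCF
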