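import Pool.Agent.Lib.MP_7b7e48_nt.TCF.CA0
import Pool.Agent.Lib.MP_7b7e48_nt.TCF.CA5
import Pool.Agent.Lib.MP_7b7e48_nt.RG.A7

/-!
# Module CA6 (90 minutes): lower bound for the rough weight, off a small mass

PROOF. `CA0` with `η = 1/20`, `z = M = MM P N`, `P = PN N M`: weights `D, w`, `y1 = M^K0`, `∑ |w| ≤ M^K0`, `Lam = 2 + 2 log M`,
`V = Vw D w ≥ (19/20) VM` and `VM ≥ c / log M` (`RG.prod_lower`). As `∑_{d ∣ F} w d ≤ [no p ∈ PN N M divides F]` (apply it to `F.natAbs`; if `F = 0` every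
`d` divides it and the statement for `n = 0` gives `∑ w ≤ 0 or 1`, also fine), `At ≤ Sw` (the number of marks is `≥ 0`). `T = J V U ≥ (9/10) J VM ρ`
(`Den.low`). If `Sw < (4/5) J VM ρ` then `At ≤ (8/9) T`, `(At - T)² ≥ T²/81`. So by `second_low` the mass is at most
`(81/T²) [X C' (1 + log M)^11 (J U² + (K² JJ/y0) (J U)² + K³ J U) + 4 (J M^K0 |tp|)² Err]`.
With `T ≥ J U (19/20) c/log M` the first part is `≤ X C'' (1 + log M)^13 (1/J + K² JJ/y0 + K³/(J U))`; `J U ≥ J ρ/2 ≥ JJ³/8`, `J ≥ JJ³/4 / ρ ≥ JJ³/4`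
(`ρ ≤ 1`, as all `V_c ≤ 1`), `y0 ≥ JJ⁴`, `JJ ≥ K^1000`, `log M ≤ (C1 + 1) log K + 1`: it is `≤ X/JJ²` for large `N`. Second part:
`≤ 4 * 81 * (2 log M M^K0 |tp|/(c U))² Err`, `1/U ≤ 2/ρ ≤ 8 J ≤ 16 y0 ≤ 16 N^(kap/1000)` (`J ≤ y0 + 1` as `2|k| ≤ y0` on the window), `|tp| ≤ N^(kap/100)`,
`M ≤ 2 K^(C1)`, so it is `≤ N^(kap/20) Err` for large `N`. The condition of `second_low` on `y1` holds as `M^(2 K0) ≤ N^(kap/50)`.
(`Den`: `Sit.den`.)
-/

set_option autoImplicit false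

open Finset

namespace Pool.Agent.Lib.TCF

open Pool.Agent.Lib.RG hiding RR sig Good
open Pool.Agent.Lib.RH

private theorem CA6_first (C c K jj J U V X y lM : ℝ) (hC : 0 < C) (hc : 0 < c) (hK : 10 ≤ K)
    (hjj : K ^ 1000 ≤ jj) (hJ : jj ^ 3 / 4 ≤ J) (hy : jj ^ 4 ≤ y) (hJU : jj ^ 3 / 5 ≤ J * U)
    (hU : 0 < U) (hV : c / (2 * K) ≤ V) (hX : 0 ≤ X) (hl0 : 0 ≤ lM) (hl : 1 + lM ≤ K)
    (hbig : 14256 * C / c ^ 2 ≤ K) :
    81 / (J * V * U) ^ 2 * (X * (C * (2 + 2 * lM) ^ 2 * (1 + lM) ^ 9 *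
      (J * U ^ 2 + K ^ 2 * jj / y * (J * U) ^ 2 + K ^ 3 * J * U))) ≤ X / jj ^ 2 := by
  have hK0 : 0 < K := by linarith
  have hK1 : 1 ≤ K := by linarith
  have hjj0 : 0 < jj := lt_of_lt_of_le (by positivity) hjj
  have hJ0 : 0 < J := lt_of_lt_of_le (by positivity) hJ
  have hy0 : 0 < y := lt_of_lt_of_le (by positivity) hy
  have hV0 : 0 < V := lt_of_lt_of_le (by positivity) hV
  have hJU0 : 0 < J * U := mul_pos hJ0 hU
  have e1 : 81 / (J * V * U) ^ 2 * (X * (C * (2 + 2 * lM) ^ 2 * (1 + lM) ^ 9 *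
      (J * U ^ 2 + K ^ 2 * jj / y * (J * U) ^ 2 + K ^ 3 * J * U))) =
      X * (324 * C * (1 + lM) ^ 11 * (1 / V ^ 2) * (1 / J + K ^ 2 * jj / y + K ^ 3 / (J * U))) := by
    field_simp
    ring
  have f1 : 1 / V ^ 2 ≤ 4 * K ^ 2 / c ^ 2 := by
    have h1 : 1 / V ≤ 2 * K / c := by
      rw [div_le_iff₀ hV0]
      calc (1 : ℝ) = 2 * K / c * (c / (2 * K)) := by field_simp
        _ ≤ 2 * K / c * V := mul_le_mul_of_nonneg_left hV (by positivity)
    calc 1 / V ^ 2 = (1 / V) ^ 2 := by rw [div_pow, one_pow]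
      _ ≤ (2 * K / c) ^ 2 := pow_le_pow_left₀ (by positivity) h1 2
      _ = 4 * K ^ 2 / c ^ 2 := by ring
  have f2 : (1 + lM) ^ 11 ≤ K ^ 11 := pow_le_pow_left₀ (by linarith) hl 11
  have f3 : 1 / J + K ^ 2 * jj / y + K ^ 3 / (J * U) ≤ 11 * K ^ 3 / jj ^ 3 := by
    have h1 : 1 / J ≤ 4 / jj ^ 3 := by
      calc 1 / J ≤ 1 / (jj ^ 3 / 4) := one_div_le_one_div_of_le (by positivity) hJ
        _ = 4 / jj ^ 3 := by field_simp
    have h2 : K ^ 2 * jj / y ≤ K ^ 2 / jj ^ 3 := by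
      calc K ^ 2 * jj / y ≤ K ^ 2 * jj / jj ^ 4 :=
            div_le_div_of_nonneg_left (by positivity) (by positivity) hy
        _ = K ^ 2 / jj ^ 3 := by field_simp
    have h3 : K ^ 3 / (J * U) ≤ 5 * K ^ 3 / jj ^ 3 := by
      calc K ^ 3 / (J * U) ≤ K ^ 3 / (jj ^ 3 / 5) :=
            div_le_div_of_nonneg_left (by positivity) (by positivity) hJU
        _ = 5 * K ^ 3 / jj ^ 3 := by field_simp
    have h4 : 4 / jj ^ 3 + K ^ 2 / jj ^ 3 + 5 * K ^ 3 / jj ^ 3 ≤ 11 * K ^ 3 / jj ^ 3 := by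
      rw [← add_div, ← add_div]
      refine div_le_div_of_nonneg_right ?_ (by positivity)
      have h5 : K ^ 2 ≤ K ^ 3 := pow_le_pow_right₀ hK1 (by norm_num)
      have h6 : (1 : ℝ) ≤ K ^ 3 := one_le_pow₀ hK1
      linarith
    linarith
  have f4 : 324 * C * (1 + lM) ^ 11 * (1 / V ^ 2) * (1 / J + K ^ 2 * jj / y + K ^ 3 / (J * U)) ≤
      1 / jj ^ 2 := by
    calc 324 * C * (1 + lM) ^ 11 * (1 / V ^ 2) * (1 / J + K ^ 2 * jj / y + K ^ 3 / (J * U)) ≤
          324 * C * K ^ 11 * (4 * K ^ 2 / c ^ 2) * (11 * K ^ 3 / jj ^ 3) := by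
            gcongr
      _ = (14256 * C / c ^ 2) * (K ^ 16 / jj ^ 3) := by ring
      _ ≤ K * (K ^ 16 / jj ^ 3) := mul_le_mul_of_nonneg_right hbig (by positivity)
      _ = K ^ 17 / jj ^ 3 := by ring
      _ ≤ jj / jj ^ 3 := by
          refine div_le_div_of_nonneg_right ?_ (by positivity)
          exact (pow_le_pow_right₀ hK1 (by norm_num)).trans hjj
      _ = 1 / jj ^ 2 := by field_simp
  rw [e1]
  calc _ ≤ X * (1 / jj ^ 2) := mul_le_mul_of_nonneg_left f4 hX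
    _ = X / jj ^ 2 := by rw [mul_one_div]

/-- the sieve weight is below the indicator -/
private theorem CA6_At_le {r : ℕ} (B : Fin r → Finset ℕ) (M N v : ℕ) (D : Finset ℕ) (w : ℕ → ℝ)
    (hw : ∀ n : ℕ, ∑ d ∈ D with d ∣ n, w d ≤ if (∀ r ∈ PN N M, ¬ r ∣ n) then (1 : ℝ) else 0)
    (W : Finset ℤ) (n : ℕ) : At B D w W N v n ≤ Sw B M W N v n := by
  classical
  unfold At Sw
  refine Finset.sum_le_sum fun k _ => ?_
  have h1 : ∑ d ∈ D, (if (d : ℤ) ∣ k * N + v * n then w d else 0) =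
      ∑ d ∈ D with d ∣ (k * N + v * n : ℤ).natAbs, w d := by
    rw [Finset.sum_filter]
    refine Finset.sum_congr rfl fun d _ => ?_
    by_cases h : (d : ℤ) ∣ k * N + v * n
    · rw [if_pos h, if_pos (Int.natCast_dvd.1 h)]
    · rw [if_neg h, if_neg (fun h' => h (Int.natCast_dvd.2 h'))]
  have h2 := hw (k * N + v * n : ℤ).natAbs
  have h3 : 0 ≤ ∑ f ∈ tp B, (if (mrk f : ℤ) ∣ k * N + v * n then (1 : ℝ) else 0) :=
    Finset.sum_nonneg fun f _ => by split_ifs <;> norm_num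
  rw [h1]
  by_cases h : ∀ p ∈ PN N M, ¬ (p : ℤ) ∣ k * N + v * n
  · rw [if_pos h]
    have h4 : ∀ r ∈ PN N M, ¬ r ∣ (k * N + v * n : ℤ).natAbs :=
      fun r hr h' => h r hr (Int.natCast_dvd.2 h')
    rw [if_pos h4] at h2
    calc _ ≤ 1 * _ := mul_le_mul_of_nonneg_right h2 h3
      _ = _ := one_mul _
  · rw [if_neg h]
    have h4 : ¬ ∀ r ∈ PN N M, ¬ r ∣ (k * N + v * n : ℤ).natAbs :=
      fun h' => h fun r hr h'' => h' r hr (Int.natCast_dvd.1 h'')
    rw [if_neg h4] at h2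
    exact mul_nonpos_of_nonpos_of_nonneg h2 h3

/-- Markov -/
private theorem CA6_markov (I : Finset ℕ) (bad : ℕ → Prop) [DecidablePred bad] (om A : ℕ → ℝ) (T : ℝ)
    (hT : 0 < T) (hom : ∀ n ∈ I, 0 ≤ om n) (hbad : ∀ n ∈ I, bad n → A n ≤ 8 / 9 * T) :
    ∑ n ∈ I.filter bad, om n ≤ 81 / T ^ 2 * ∑ n ∈ I, om n * (A n - T) ^ 2 := by
  rw [Finset.mul_sum]
  refine (Finset.sum_le_sum (g := fun n => 81 / T ^ 2 * (om n * (A n - T) ^ 2)) ?_).trans
    (Finset.sum_le_sum_of_subset_of_nonneg (Finset.filter_subset _ _) fun n hn _ => ?_)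
  · intro n hn
    rw [Finset.mem_filter] at hn
    have h1 := hbad n hn.1 hn.2
    have h2 := hom n hn.1
    have h3 : (T / 9) ^ 2 ≤ (A n - T) ^ 2 := by
      have h4 : (A n - T) ^ 2 = (T - A n) ^ 2 := by ring
      rw [h4]
      exact pow_le_pow_left₀ (by positivity) (by linarith) 2
    calc om n = 81 / T ^ 2 * (om n * (T / 9) ^ 2) := by
          field_simp
          norm_num
      _ ≤ 81 / T ^ 2 * (om n * (A n - T) ^ 2) := by
          refine mul_le_mul_of_nonneg_left ?_ (by positivity)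
          exact mul_le_mul_of_nonneg_left h3 h2
  · have h2 := hom n hn
    positivity

open Classical in
theorem core_low (P : Prm) (hP : P.Ok) : ∃ N0 : ℕ, ∀ (N : ℕ) [NeZero N], N0 ≤ N →
    ∀ (y0 r : ℕ) (B : Fin r → Finset ℕ) (v : ℕ) (u e : ℕ → ℝ) (I : Finset ℕ) (om : ℕ → ℝ) (X Err : ℝ),
    Sit P N y0 B v u e I om X Err → Rough (MM P N) v → (JJ N) ^ 4 ≤ y0 → MM P N ≤ y0 →
    (y0 : ℝ) ≤ (N : ℝ) ^ (P.kap / 1000) → ∀ (a : ℤ) (J : ℕ), (JJ N : ℝ) ^ 3 / 4 ≤ J * rho B →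
    (∀ k ∈ Ico a (a + J), 2 * |k| ≤ y0 ∧ (k ≠ 0 ∨ ∀ c, ∀ p ∈ B c, e p = 0)) →
    ∑ n ∈ I.filter (fun n => Sw B (MM P N) (Ico a (a + J)) N v n < 4 / 5 * (J * VM P N * rho B)), om n ≤
      X / (JJ N) ^ 2 + (N : ℝ) ^ (P.kap / 20) * Err := by
  obtain ⟨K0, hK0, hlw⟩ := lower_weights_eta (1 / 20) (by norm_num)
  obtain ⟨c, hc, hprod⟩ := prod_lower
  obtain ⟨C, hC, hsec⟩ := second_low
  obtain ⟨N1, hN1⟩ := num P hP
  have hk := hP.kap0
  obtain ⟨N2, hN2⟩ := Filter.eventually_atTop.1 ((ev_log_ge (14256 * C / c ^ 2)).and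
    ((ev_log_pow ((P.C1 + 1) * K0 + 1) (P.kap / 100) (by positivity) (36 / c + 1)
      (by positivity)).and (Filter.eventually_ge_atTop 2)))
  refine ⟨max N1 N2, fun N _ hN y0 r B v u e I om X Err S hv hy hMy hy2 a J hJ hwin => ?_⟩
  have hnum := hN1 N ((le_max_left _ _).trans hN)
  obtain ⟨hb1, hb2, hN2'⟩ := hN2 N ((le_max_right _ _).trans hN)
  have hK9 : (10 : ℝ) ^ 9 ≤ Real.log N := hnum.K
  have hK10 : 10 ≤ Real.log N := le_trans (by norm_num) hK9
  have hden := S.den hK10 hy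
  have hN0 : (0 : ℝ) < N := by exact_mod_cast (by omega : 0 < N)
  have hNr1 : (1 : ℝ) ≤ N := by exact_mod_cast (by omega : 1 ≤ N)
  set K : ℝ := Real.log N with hK
  have hK0' : 0 < K := by linarith
  have hK1 : 1 ≤ K := by linarith
  -- the size of `M`
  have hM1 := hnum.M1
  have hM2 := hnum.M2
  have hMr : (10 : ℝ) ≤ MM P N := by
    refine hK10.trans (le_trans ?_ hM1)
    calc Real.log N = K ^ 1 := by rw [pow_one]
      _ ≤ K ^ P.C1 := pow_le_pow_right₀ hK1 (by have := hP.C1; omega)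
  have hM2' : 2 ≤ MM P N := by
    have : (2 : ℝ) ≤ MM P N := by linarith
    exact_mod_cast this
  have hMK : (MM P N : ℝ) ≤ K ^ (P.C1 + 1) := by
    refine hM2.trans ?_
    rw [pow_succ, mul_comm]
    exact mul_le_mul_of_nonneg_left (by linarith) (by positivity)
  have hlM0 : 0 < Real.log (MM P N) := Real.log_pos (by linarith)
  have hlM : 1 + Real.log (MM P N) ≤ K := by
    have h1 : (MM P N : ℝ) ≤ (N : ℝ) ^ (P.kap / 1000) := by
      refine hMK.trans (le_trans ?_ hnum.sm)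
      exact pow_le_pow_right₀ hK1 (by omega)
    have h2 : Real.log (MM P N) ≤ Real.log ((N : ℝ) ^ (P.kap / 1000)) :=
      Real.log_le_log (by linarith) h1
    rw [Real.log_rpow hN0] at h2
    have h3 : P.kap / 1000 * Real.log N ≤ 1 / 2 * K := by
      refine mul_le_mul_of_nonneg_right ?_ hK0'.le
      have := hP.kap1
      linarith
    linarith
  -- the window
  have hjj : K ^ 1000 ≤ (JJ N : ℝ) := hnum.J1
  have hjj10 : (10 : ℝ) ≤ JJ N := by
    refine hK10.trans (le_trans ?_ hjj)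
    calc Real.log N = K ^ 1 := by rw [pow_one]
      _ ≤ K ^ 1000 := pow_le_pow_right₀ hK1 (by norm_num)
  have hρ1 : rho B ≤ 1 := by
    unfold rho
    exact Finset.prod_le_one (fun c _ => Finset.sum_nonneg fun p _ => by positivity)
      fun c _ => S.fam.up c
  have hU0 := hden.pos
  have hρ0 : 0 < rho B := by
    have := hden.up
    linarith
  have hJ1 : 1 ≤ J := by
    rcases Nat.eq_zero_or_pos J with h | h
    · exfalso
      rw [h, Nat.cast_zero, zero_mul] at hJ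
      have : (0 : ℝ) < (JJ N : ℝ) ^ 3 / 4 := by positivity
      linarith
    · exact h
  have hJ0 : (0 : ℝ) < J := by exact_mod_cast hJ1
  have hJjj : (JJ N : ℝ) ^ 3 / 4 ≤ J := hJ.trans (mul_le_of_le_one_right hJ0.le hρ1)
  have hJy : (J : ℝ) ≤ 2 * y0 := by
    have h1 := (hwin a (Finset.mem_Ico.2 ⟨le_rfl, by omega⟩)).1
    have h2 := (hwin (a + J - 1) (Finset.mem_Ico.2 ⟨by omega, by omega⟩)).1
    have h3 : -a ≤ |a| := neg_le_abs a
    have h4 : a + J - 1 ≤ |a + J - 1| := le_abs_self _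
    have h5 : 1 ≤ y0 := by omega
    have h6 : (J : ℤ) ≤ 2 * y0 := by omega
    exact_mod_cast h6
  have hyr : (JJ N : ℝ) ^ 4 ≤ y0 := by exact_mod_cast hy
  -- the weights
  obtain ⟨D, w, hD1, hD2, hD3, hD4, hD5⟩ := hlw (MM P N) hM2' (PN N (MM P N)) (by
    intro r hr
    unfold PN at hr
    rw [Finset.mem_filter, Finset.mem_range] at hr
    exact ⟨hr.2.1, by omega⟩)
  have hVM : c / Real.log (MM P N) ≤ VM P N := hprod (MM P N) hM2' (PN N (MM P N)) (by
    intro r hr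
    unfold PN at hr
    rw [Finset.mem_filter, Finset.mem_range] at hr
    exact ⟨hr.2.1, by omega⟩)
  have hVM0 : 0 < VM P N := lt_of_lt_of_le (by positivity) hVM
  have hV : 19 / 20 * VM P N ≤ Vw D w := by
    unfold Vw
    refine le_trans (le_of_eq ?_) hD5
    unfold VM
    ring
  have hV0 : 0 < Vw D w := lt_of_lt_of_le (by positivity) hV
  have hVK : c / (2 * K) ≤ Vw D w := by
    refine le_trans ?_ hV
    calc c / (2 * K) = 1 / 2 * (c / K) := by field_simp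
      _ ≤ 19 / 20 * (c / Real.log (MM P N)) := by
          refine mul_le_mul (by norm_num) ?_ (by positivity) (by norm_num)
          exact div_le_div_of_nonneg_left hc.le hlM0 (by linarith)
      _ ≤ 19 / 20 * VM P N := mul_le_mul_of_nonneg_left hVM (by norm_num)
  have hS0 : 0 ≤ ∑ d ∈ D, |w d| := Finset.sum_nonneg fun d _ => abs_nonneg _
  have hMK0 : (MM P N : ℝ) ^ K0 ≤ K ^ ((P.C1 + 1) * K0) := by
    calc (MM P N : ℝ) ^ K0 ≤ (K ^ (P.C1 + 1)) ^ K0 := pow_le_pow_left₀ (by linarith) hMK K0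
      _ = K ^ ((P.C1 + 1) * K0) := by rw [pow_mul]
  have hKK : 0 < K ^ ((P.C1 + 1) * K0) := by positivity
  have hb2' : 36 / c * K * K ^ ((P.C1 + 1) * K0) ≤ (N : ℝ) ^ (P.kap / 100) := by
    refine le_trans ?_ hb2
    rw [pow_succ]
    have : 0 ≤ K ^ ((P.C1 + 1) * K0) * K := by positivity
    nlinarith
  have hb3 : K ^ ((P.C1 + 1) * K0) ≤ (N : ℝ) ^ (P.kap / 100) := by
    refine le_trans ?_ hb2
    rw [pow_succ]
    have h1 : K ^ ((P.C1 + 1) * K0) * 1 ≤ K ^ ((P.C1 + 1) * K0) * K :=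
      mul_le_mul_of_nonneg_left hK1 hKK.le
    have h2 : 0 ≤ 36 / c * (K ^ ((P.C1 + 1) * K0) * K) := by positivity
    linarith
  have hW : Wts (PN N (MM P N)) D w (2 + 2 * Real.log (MM P N)) :=
    ⟨fun d hd => ⟨(hD1 d hd).1, (hD1 d hd).2.2.1, (hD1 d hd).2.2.2⟩, fun d _ => hD2 d⟩
  have hmain := hsec P N y0 r B v u e I om X Err S hden hv hM2' hMy D w _ hW ((MM P N) ^ K0)
    (Nat.one_le_pow _ _ (by omega)) (fun d hd => (hD1 d hd).2.1) (by
      push_cast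
      calc ((MM P N : ℝ) ^ K0 * (N : ℝ) ^ (P.kap / 100)) ^ 2 ≤
            ((N : ℝ) ^ (P.kap / 100) * (N : ℝ) ^ (P.kap / 100)) ^ 2 := by
              refine pow_le_pow_left₀ (by positivity) ?_ 2
              exact mul_le_mul_of_nonneg_right (hMK0.trans hb3) (by positivity)
        _ = (N : ℝ) ^ (P.kap / 25) := by
              rw [← Real.rpow_add hN0, ← Real.rpow_natCast, ← Real.rpow_mul hN0.le]
              congr 1
              push_cast
              ring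
        _ ≤ (N : ℝ) ^ (P.kap / 20) := Real.rpow_le_rpow_of_exponent_le hNr1 (by linarith))
    a J hJ1 hwin
  set U : ℝ := rhoU u B with hU
  set T : ℝ := J * Vw D w * U with hT
  have hT0 : 0 < T := by positivity
  have hTlow : 361 / 400 * (J * VM P N * rho B) ≤ T := by
    calc 361 / 400 * (J * VM P N * rho B) = J * (19 / 20 * VM P N) * (19 / 20 * rho B) := by ring
      _ ≤ J * Vw D w * U := by
          refine mul_le_mul (mul_le_mul_of_nonneg_left hV hJ0.le) hden.low (by positivity)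
            (by positivity)
  have hJVρ : 0 < J * VM P N * rho B := by positivity
  refine (CA6_markov I _ om (fun n => At B D w (Ico a (a + J)) N v n) T hT0 S.om0 ?_).trans ?_
  · intro n _ hn
    have h1 := CA6_At_le B (MM P N) N v D w hD4 (Ico a (a + (J : ℤ))) n
    linarith
  refine (mul_le_mul_of_nonneg_left hmain (by positivity)).trans ?_
  rw [mul_add]
  refine add_le_add ?_ ?_
  · refine CA6_first C c K (JJ N) J U (Vw D w) X y0 (Real.log (MM P N)) hC hc hK10 hjj hJjj hyr ?_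
      hU0 hVK S.X0 hlM0.le hlM hb1
    have h1 := hden.low
    calc (JJ N : ℝ) ^ 3 / 5 ≤ 19 / 20 * ((JJ N : ℝ) ^ 3 / 4) := by
          have : (0 : ℝ) ≤ (JJ N : ℝ) ^ 3 := by positivity
          linarith
      _ ≤ 19 / 20 * (J * rho B) := mul_le_mul_of_nonneg_left hJ (by norm_num)
      _ = J * (19 / 20 * rho B) := by ring
      _ ≤ J * U := mul_le_mul_of_nonneg_left h1 hJ0.le
  · have hE0 := S.E0
    have e1 : 81 / T ^ 2 * (4 * (J * (∑ d ∈ D, |w d|) * (tp B).card) ^ 2 * Err) =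
        (18 * (∑ d ∈ D, |w d|) * (tp B).card * (1 / Vw D w) * (1 / U)) ^ 2 * Err := by
      rw [hT]
      field_simp
      ring
    rw [e1]
    refine mul_le_mul_of_nonneg_right ?_ hE0
    have g1 : 1 / Vw D w ≤ 2 * K / c := by
      rw [div_le_iff₀ hV0]
      calc (1 : ℝ) = 2 * K / c * (c / (2 * K)) := by field_simp
        _ ≤ 2 * K / c * Vw D w := mul_le_mul_of_nonneg_left hVK (by positivity)
    have g2 : 1 / U ≤ (N : ℝ) ^ (P.kap / 1000) := by
      refine le_trans ?_ hy2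
      rw [div_le_iff₀ hU0]
      have h1 := hden.low
      have h2 : (1 : ℝ) ≤ J * rho B * (19 / 40) := by
        have h3 : (10 : ℝ) ^ 3 ≤ (JJ N : ℝ) ^ 3 := pow_le_pow_left₀ (by norm_num) hjj10 3
        norm_num at h3
        linarith
      calc (1 : ℝ) ≤ J * rho B * (19 / 40) := h2
        _ = (J / 2) * (19 / 20 * rho B) := by ring
        _ ≤ y0 * U := mul_le_mul (by linarith) h1 (by positivity) (Nat.cast_nonneg _)
    have g3 : ((tp B).card : ℝ) ≤ (N : ℝ) ^ (P.kap / 100) := tp_card_le S.fam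
    have g4 : ∑ d ∈ D, |w d| ≤ K ^ ((P.C1 + 1) * K0) := hD3.trans hMK0
    have g5 : 18 * (∑ d ∈ D, |w d|) * (tp B).card * (1 / Vw D w) * (1 / U) ≤
        (N : ℝ) ^ (21 * P.kap / 1000) := by
      calc 18 * (∑ d ∈ D, |w d|) * (tp B).card * (1 / Vw D w) * (1 / U) ≤
            18 * K ^ ((P.C1 + 1) * K0) * (N : ℝ) ^ (P.kap / 100) * (2 * K / c) *
              (N : ℝ) ^ (P.kap / 1000) := by gcongr
        _ = (36 / c * K * K ^ ((P.C1 + 1) * K0)) * (N : ℝ) ^ (P.kap / 100) *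
              (N : ℝ) ^ (P.kap / 1000) := by ring
        _ ≤ (N : ℝ) ^ (P.kap / 100) * (N : ℝ) ^ (P.kap / 100) * (N : ℝ) ^ (P.kap / 1000) := by
              gcongr
        _ = (N : ℝ) ^ (21 * P.kap / 1000) := by
              rw [← Real.rpow_add hN0, ← Real.rpow_add hN0]
              congr 1
              ring
    calc _ ≤ ((N : ℝ) ^ (21 * P.kap / 1000)) ^ 2 := pow_le_pow_left₀ (by positivity) g5 2
      _ = (N : ℝ) ^ (42 * P.kap / 1000) := by
            rw [← Real.rpow_natCast, ← Real.rpow_mul hN0.le]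
            congr 1
            push_cast
            ring
      _ ≤ (N : ℝ) ^ (P.kap / 20) := Real.rpow_le_rpow_of_exponent_le hNr1 (by linarith)

end Pool.Agent.Lib.TCF
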