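import Pool.Agent.Lib.MP_7b7e48_nt.TCF.CA0U
import Pool.Agent.Lib.MP_7b7e48_nt.TCF.CA5
import Pool.Agent.Lib.MP_7b7e48_nt.RG.A7

/-!
# Module CA6U (60 minutes): upper bound for the rough weight, off a small mass

PROOF. As `CA6.core_low` (same numbers) with the upper weights of `CA0U`, `η = 1/20`: `Sw ≤ At`, `T = J V U`, `U ≤ ρ (1 + 3/y0)^n`: here `U ≤ ρ` is a hypothesis in type 1; in general `Den.up` gives `U ≤ 2ρ`, so `T ≤ (21/10) J VM ρ`.
A bad `n` (`Sw > 3 J VM ρ`) has `At - T > (9/10) J VM ρ ≥ (9/21) T`, so `(At - T)² ≥ T²/6`.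
The first part of the bound of `second_low` is (see `CA6`) `≤ X C'' (1 + log M)^13 (1/J + K² JJ/y0 + K³/(J U))`; here we keep the factor `1/(J ρ)`:
`1/J ≤ 1/(J ρ)` (`ρ ≤ 1`), `J ≤ y0 + 1 ≤ 2 y0` (as `2|k| ≤ y0` on the window), so `1/y0 ≤ 2/J ≤ 2/(J ρ)`, and `1/(J U) ≤ (20/19)/(J ρ)`: it is
`≤ X JJ²/(J ρ)` for large `N`, as `C'' (1 + log M)^13 (1 + 2 K² JJ + 2 K³) ≤ JJ²`.
-/

set_option autoImplicit false

open Finset

namespace Pool.Agent.Lib.TCF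

open Pool.Agent.Lib.RG hiding RR sig Good
open Pool.Agent.Lib.RH

/-- the pure inequality -/
private theorem ca6u_final {c C K jj lM X Err S J V U ρ y0 Wt tp : ℝ}
    (hc : 0 < c) (hlM : 0 < lM) (hK : 1 ≤ K) (hJ : 1 ≤ J)
    (hX : 0 ≤ X) (hErr : 0 ≤ Err) (hρ : 0 < ρ) (hρ1 : ρ ≤ 1)
    (hV : c / lM ≤ V) (hU : 19 / 20 * ρ ≤ U) (hjj : 0 ≤ jj) (hy0 : 0 < y0) (hJy : J ≤ 2 * y0) (hC : 0 < C)
    (hmain : S * (J * V * U) ^ 2 / 6 ≤ X * (C * (2 + 2 * lM) ^ 2 * (1 + lM) ^ 9 * (J * U ^ 2 +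
        K ^ 2 * jj / y0 * (J * U) ^ 2 + K ^ 3 * J * U)) + 4 * (J * Wt * tp) ^ 2 * Err)
    (hjj2 : 24 * C / c ^ 2 * (1 + lM) ^ 13 * (1 + 2 * K ^ 2 * jj + 2 * K ^ 3) ≤ jj ^ 2) :
    S ≤ jj ^ 2 / (J * ρ) * X + 24 * (Wt * tp * (lM / c) * (2 / ρ)) ^ 2 * Err := by
  have hV0 : 0 < c / lM := by positivity
  have hVp : 0 < V := lt_of_lt_of_le hV0 hV
  have hUp : 0 < U := lt_of_lt_of_le (by positivity) hU
  have hJ0 : 0 < J := by linarith
  have hK0 : 0 < K := by linarith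
  -- divide
  have hS1 : S = 6 / (J * V * U) ^ 2 * (S * (J * V * U) ^ 2 / 6) := by
    field_simp
  have hinvV : 1 / V ≤ lM / c := by
    have e1 := one_div_le_one_div_of_le hV0 hV
    rwa [one_div_div] at e1
  have hinvU : 1 / U ≤ 2 / ρ := by
    have e1 := one_div_le_one_div_of_le (by positivity : 0 < 19 / 20 * ρ) hU
    refine e1.trans ?_
    rw [div_le_div_iff₀ (by positivity) hρ]
    linarith
  have h1 : S ≤ 6 / (J * V * U) ^ 2 * (X * (C * (2 + 2 * lM) ^ 2 * (1 + lM) ^ 9 * (J * U ^ 2 +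
        K ^ 2 * jj / y0 * (J * U) ^ 2 + K ^ 3 * J * U)) + 4 * (J * Wt * tp) ^ 2 * Err) := by
    rw [hS1]
    exact mul_le_mul_of_nonneg_left hmain (by positivity)
  have e2 : 6 / (J * V * U) ^ 2 * (X * (C * (2 + 2 * lM) ^ 2 * (1 + lM) ^ 9 * (J * U ^ 2 +
        K ^ 2 * jj / y0 * (J * U) ^ 2 + K ^ 3 * J * U)) + 4 * (J * Wt * tp) ^ 2 * Err) =
      X * (24 * C * (1 + lM) ^ 11) * (1 / V) ^ 2 * (1 / J + K ^ 2 * jj * (1 / y0) + K ^ 3 * (1 / J * (1 / U))) +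
        24 * (Wt * tp * (1 / V) * (1 / U)) ^ 2 * Err := by
    field_simp
    ring
  rw [e2] at h1
  -- first part
  have hJr : 1 / J ≤ 1 / (J * ρ) := by
    refine one_div_le_one_div_of_le (by positivity) ?_
    exact mul_le_of_le_one_right hJ0.le hρ1
  have hyr : 1 / y0 ≤ 2 * (1 / (J * ρ)) := by
    have e3 : 1 / y0 ≤ 2 * (1 / J) := by
      rw [mul_one_div, div_le_div_iff₀ hy0 hJ0]
      linarith
    linarith
  have hUr : 1 / J * (1 / U) ≤ 2 * (1 / (J * ρ)) := by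
    calc 1 / J * (1 / U) ≤ 1 / J * (2 / ρ) := mul_le_mul_of_nonneg_left hinvU (by positivity)
      _ = 2 * (1 / (J * ρ)) := by
        field_simp
  have h3 : 1 / J + K ^ 2 * jj * (1 / y0) + K ^ 3 * (1 / J * (1 / U)) ≤
      (1 / (J * ρ)) * (1 + 2 * K ^ 2 * jj + 2 * K ^ 3) := by
    have f1 : K ^ 2 * jj * (1 / y0) ≤ K ^ 2 * jj * (2 * (1 / (J * ρ))) :=
      mul_le_mul_of_nonneg_left hyr (by positivity)
    have f2 : K ^ 3 * (1 / J * (1 / U)) ≤ K ^ 3 * (2 * (1 / (J * ρ))) :=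
      mul_le_mul_of_nonneg_left hUr (by positivity)
    have f3 : (1 / (J * ρ)) * (1 + 2 * K ^ 2 * jj + 2 * K ^ 3) =
        1 / (J * ρ) + K ^ 2 * jj * (2 * (1 / (J * ρ))) + K ^ 3 * (2 * (1 / (J * ρ))) := by ring
    rw [f3]
    linarith
  have hVV : (1 / V) ^ 2 ≤ (lM / c) ^ 2 := pow_le_pow_left₀ (by positivity) hinvV 2
  have h4 : X * (24 * C * (1 + lM) ^ 11) * (1 / V) ^ 2 *
      (1 / J + K ^ 2 * jj * (1 / y0) + K ^ 3 * (1 / J * (1 / U))) ≤ jj ^ 2 / (J * ρ) * X := by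
    have g1 : (24 * C * (1 + lM) ^ 11) * (1 / V) ^ 2 ≤ 24 * C / c ^ 2 * (1 + lM) ^ 13 := by
      have g2 : (24 * C * (1 + lM) ^ 11) * (1 / V) ^ 2 ≤ (24 * C * (1 + lM) ^ 11) * (lM / c) ^ 2 :=
        mul_le_mul_of_nonneg_left hVV (by positivity)
      have g3 : (24 * C * (1 + lM) ^ 11) * (lM / c) ^ 2 ≤ (24 * C * (1 + lM) ^ 11) * ((1 + lM) / c) ^ 2 := by
        refine mul_le_mul_of_nonneg_left ?_ (by positivity)
        refine pow_le_pow_left₀ (by positivity) ?_ 2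
        exact div_le_div_of_nonneg_right (by linarith) hc.le
      have g4 : (24 * C * (1 + lM) ^ 11) * ((1 + lM) / c) ^ 2 = 24 * C / c ^ 2 * (1 + lM) ^ 13 := by
        field_simp
      linarith
    have g5 : 0 ≤ 1 / J + K ^ 2 * jj * (1 / y0) + K ^ 3 * (1 / J * (1 / U)) := by positivity
    calc X * (24 * C * (1 + lM) ^ 11) * (1 / V) ^ 2 *
      (1 / J + K ^ 2 * jj * (1 / y0) + K ^ 3 * (1 / J * (1 / U)))
        = X * (((24 * C * (1 + lM) ^ 11) * (1 / V) ^ 2) *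
          (1 / J + K ^ 2 * jj * (1 / y0) + K ^ 3 * (1 / J * (1 / U)))) := by ring
      _ ≤ X * ((24 * C / c ^ 2 * (1 + lM) ^ 13) * ((1 / (J * ρ)) * (1 + 2 * K ^ 2 * jj + 2 * K ^ 3))) := by
          refine mul_le_mul_of_nonneg_left ?_ hX
          exact mul_le_mul g1 h3 g5 (by positivity)
      _ = X * (1 / (J * ρ)) * (24 * C / c ^ 2 * (1 + lM) ^ 13 * (1 + 2 * K ^ 2 * jj + 2 * K ^ 3)) := by ring
      _ ≤ X * (1 / (J * ρ)) * jj ^ 2 := mul_le_mul_of_nonneg_left hjj2 (by positivity)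
      _ = jj ^ 2 / (J * ρ) * X := by ring
  have h5 : 24 * (Wt * tp * (1 / V) * (1 / U)) ^ 2 * Err ≤ 24 * (Wt * tp * (lM / c) * (2 / ρ)) ^ 2 * Err := by
    refine mul_le_mul_of_nonneg_right ?_ hErr
    refine mul_le_mul_of_nonneg_left ?_ (by norm_num)
    have g1 : (1 / V * (1 / U)) ^ 2 ≤ (lM / c * (2 / ρ)) ^ 2 := by
      refine pow_le_pow_left₀ (by positivity) ?_ 2
      exact mul_le_mul hinvV hinvU (by positivity) (by positivity)
    calc (Wt * tp * (1 / V) * (1 / U)) ^ 2 = (Wt * tp) ^ 2 * (1 / V * (1 / U)) ^ 2 := by ring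
      _ ≤ (Wt * tp) ^ 2 * (lM / c * (2 / ρ)) ^ 2 := mul_le_mul_of_nonneg_left g1 (by positivity)
      _ = (Wt * tp * (lM / c) * (2 / ρ)) ^ 2 := by ring
  linarith

/-- facts for large `N` -/
private theorem ca6u_num (P : Prm) (hP : P.Ok) (c C : ℝ) (hc : 0 < c) (hC : 0 < C) (K0 : ℕ) :
    ∃ N0 : ℕ, ∀ N : ℕ, N0 ≤ N → Num P N ∧ 2 ≤ N ∧
      24 * C / c ^ 2 * (1 + Real.log (MM P N)) ^ 13 *
        (1 + 2 * (Real.log N) ^ 2 * JJ N + 2 * (Real.log N) ^ 3) ≤ (JJ N : ℝ) ^ 2 ∧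
      ((MM P N : ℝ) ^ K0) ^ 2 ≤ (N : ℝ) ^ (P.kap / 1000) ∧
      24 * (16 / c) ^ 2 * ((MM P N : ℝ) ^ K0 * Real.log (MM P N)) ^ 2 ≤ (N : ℝ) ^ (P.kap / 1000) := by
  obtain ⟨N1, h1⟩ := num P hP
  have hk := hP.kap0
  have e1 := ev_log_ge (24 * C / c ^ 2 * 2 ^ 13 * 5)
  have e2 := ev_log_pow (P.C1 * K0 * 2) (P.kap / 1000) (by positivity) ((2 ^ K0) ^ 2) (by positivity)
  have e3 := ev_log_pow (P.C1 * K0 * 2 + 2) (P.kap / 1000) (by positivity)
    (24 * (16 / c) ^ 2 * (2 ^ K0) ^ 2) (by positivity)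
  obtain ⟨N2, h2⟩ := Filter.eventually_atTop.1 (e1.and (e2.and e3))
  refine ⟨max (max N1 N2) 2, ?_⟩
  intro N hN
  have hN1 : N1 ≤ N := le_trans (le_trans (le_max_left _ _) (le_max_left _ _)) hN
  have hN2 : N2 ≤ N := le_trans (le_trans (le_max_right _ _) (le_max_left _ _)) hN
  have hN3 : 2 ≤ N := le_trans (le_max_right _ _) hN
  have hn := h1 N hN1
  obtain ⟨g1, g2, g3⟩ := h2 N hN2
  set K := Real.log N with hK
  have hK1 : (10 : ℝ) ^ 9 ≤ K := hn.K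
  have hK1' : 1 ≤ K := le_trans (by norm_num) hK1
  have hK0 : 0 < K := by linarith
  have hMpos : 0 < MM P N := by unfold MM; positivity
  have hM1 : (1 : ℝ) ≤ MM P N := by exact_mod_cast hMpos
  have hN0 : (0 : ℝ) < N := by
    have : 0 < N := by omega
    exact_mod_cast this
  have hMN : (MM P N : ℝ) ≤ N := by
    have a1 := hn.M2
    have a2 := hn.sm
    have hC1 := hP.C1
    have a3 : 2 * K ^ P.C1 ≤ K ^ (100 * P.C1 + 10000) := by
      calc 2 * K ^ P.C1 ≤ K * K ^ P.C1 := by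
            have : (2 : ℝ) ≤ K := le_trans (by norm_num) hK1
            exact mul_le_mul_of_nonneg_right this (by positivity)
        _ = K ^ (P.C1 + 1) := by ring
        _ ≤ _ := pow_le_pow_right₀ hK1' (by omega)
    have a4 : (N : ℝ) ^ (P.kap / 1000) ≤ (N : ℝ) ^ (1 : ℝ) := by
      refine Real.rpow_le_rpow_of_exponent_le (by exact_mod_cast (by omega : 1 ≤ N)) ?_
      have := hP.kap1
      linarith
    rw [Real.rpow_one] at a4
    linarith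
  have hlM : Real.log (MM P N) ≤ K := Real.log_le_log (by linarith) hMN
  have hlM0 : 0 ≤ Real.log (MM P N) := Real.log_nonneg hM1
  have hMp : (MM P N : ℝ) ^ K0 ≤ 2 ^ K0 * K ^ (P.C1 * K0) := by
    calc (MM P N : ℝ) ^ K0 ≤ (2 * K ^ P.C1) ^ K0 := pow_le_pow_left₀ (by linarith) hn.M2 K0
      _ = _ := by rw [mul_pow, ← pow_mul]
  refine ⟨hn, hN3, ?_, ?_, ?_⟩
  · have a1 : (1 + Real.log (MM P N)) ^ 13 ≤ (2 * K) ^ 13 :=
      pow_le_pow_left₀ (by linarith) (by linarith) 13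
    have hj1 : K ^ 1000 ≤ (JJ N : ℝ) := hn.J1
    have hj2 : 1 ≤ (JJ N : ℝ) := le_trans (one_le_pow₀ hK1') hj1
    have a2 : 1 + 2 * K ^ 2 * JJ N + 2 * K ^ 3 ≤ 5 * K ^ 3 * JJ N := by
      have b1 : 1 ≤ K ^ 3 * JJ N := by
        have := one_le_pow₀ hK1' (n := 3)
        nlinarith
      have b2 : K ^ 2 * (JJ N : ℝ) ≤ K ^ 3 * JJ N :=
        mul_le_mul_of_nonneg_right (pow_le_pow_right₀ hK1' (by norm_num)) (by linarith)
      have b3 : K ^ 3 ≤ K ^ 3 * JJ N := le_mul_of_one_le_right (by positivity) hj2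
      linarith
    have a0 : 0 ≤ 1 + 2 * K ^ 2 * (JJ N : ℝ) + 2 * K ^ 3 := by positivity
    calc 24 * C / c ^ 2 * (1 + Real.log (MM P N)) ^ 13 * (1 + 2 * K ^ 2 * JJ N + 2 * K ^ 3)
        ≤ 24 * C / c ^ 2 * (2 * K) ^ 13 * (5 * K ^ 3 * JJ N) := by
          refine mul_le_mul ?_ a2 a0 (by positivity)
          exact mul_le_mul_of_nonneg_left a1 (by positivity)
      _ = (24 * C / c ^ 2 * 2 ^ 13 * 5) * K ^ 16 * JJ N := by ring
      _ ≤ K * K ^ 16 * JJ N := by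
          refine mul_le_mul_of_nonneg_right ?_ (by linarith)
          exact mul_le_mul_of_nonneg_right g1 (by positivity)
      _ = K ^ 17 * JJ N := by ring
      _ ≤ K ^ 1000 * JJ N :=
          mul_le_mul_of_nonneg_right (pow_le_pow_right₀ hK1' (by norm_num)) (by linarith)
      _ ≤ (JJ N : ℝ) * JJ N := mul_le_mul_of_nonneg_right hj1 (by linarith)
      _ = (JJ N : ℝ) ^ 2 := by ring
  · calc ((MM P N : ℝ) ^ K0) ^ 2 ≤ (2 ^ K0 * K ^ (P.C1 * K0)) ^ 2 :=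
          pow_le_pow_left₀ (by positivity) hMp 2
      _ = (2 ^ K0) ^ 2 * K ^ (P.C1 * K0 * 2) := by rw [mul_pow, ← pow_mul K]
      _ ≤ _ := g2
  · calc 24 * (16 / c) ^ 2 * ((MM P N : ℝ) ^ K0 * Real.log (MM P N)) ^ 2
        ≤ 24 * (16 / c) ^ 2 * ((2 ^ K0 * K ^ (P.C1 * K0)) * K) ^ 2 := by
          refine mul_le_mul_of_nonneg_left ?_ (by positivity)
          refine pow_le_pow_left₀ (by positivity) ?_ 2
          exact mul_le_mul hMp hlM hlM0 (by positivity)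
      _ = 24 * (16 / c) ^ 2 * (2 ^ K0) ^ 2 * K ^ (P.C1 * K0 * 2 + 2) := by
          rw [pow_add, pow_mul K (P.C1 * K0) 2]
          ring
      _ ≤ _ := g3

open Classical in
/-- the upper weights bound `Sw` -/
private theorem ca6u_le_At {r : ℕ} (B : Fin r → Finset ℕ) (D : Finset ℕ) (w : ℕ → ℝ) (W : Finset ℤ)
    (M N v n : ℕ)
    (hw : ∀ m : ℕ, (if (∀ p ∈ PN N M, ¬ p ∣ m) then (1 : ℝ) else 0) ≤ ∑ d ∈ D with d ∣ m, w d) :
    Sw B M W N v n ≤ At B D w W N v n := by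
  unfold Sw At
  refine sum_le_sum fun k _ => ?_
  have h0 : 0 ≤ ∑ f ∈ tp B, if (mrk f : ℤ) ∣ k * N + v * n then (1 : ℝ) else 0 :=
    sum_nonneg fun f _ => by split_ifs <;> norm_num
  have h1 := hw (k * N + v * n).natAbs
  have e1 : ∑ d ∈ D with d ∣ (k * N + v * n).natAbs, w d =
      ∑ d ∈ D, if (d : ℤ) ∣ k * N + v * n then w d else 0 := by
    rw [sum_filter]
    refine sum_congr rfl fun d _ => ?_
    have : d ∣ (k * (N : ℤ) + v * n).natAbs ↔ (d : ℤ) ∣ k * N + v * n := by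
      rw [← Int.natCast_dvd]
    simp only [this]
  rw [e1] at h1
  have e2 : (∀ p ∈ PN N M, ¬ p ∣ (k * (N : ℤ) + v * n).natAbs) ↔
      ∀ p ∈ PN N M, ¬ (p : ℤ) ∣ k * N + v * n := by
    refine forall₂_congr fun p _ => ?_
    rw [← Int.natCast_dvd]
  rw [if_congr e2 rfl rfl] at h1
  have h2 := mul_le_mul_of_nonneg_right h1 h0
  refine le_trans (le_of_eq ?_) h2
  split_ifs <;> simp

open Classical in
theorem core_upS (P : Prm) (hP : P.Ok) : ∃ N0 : ℕ, ∀ (N : ℕ) [NeZero N], N0 ≤ N →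
    ∀ (y0 r : ℕ) (B : Fin r → Finset ℕ) (v : ℕ) (u e : ℕ → ℝ) (I : Finset ℕ) (om : ℕ → ℝ) (X Err : ℝ),
    Sit P N y0 B v u e I om X Err → Rough (MM P N) v → (JJ N) ^ 4 ≤ y0 → MM P N ≤ y0 →
    (y0 : ℝ) ≤ (N : ℝ) ^ (P.kap / 1000) → ∀ (a : ℤ) (J : ℕ), (JJ N : ℝ) ^ 3 / 4 ≤ J * rho B →
    (∀ k ∈ Ico a (a + J), 2 * |k| ≤ y0 ∧ (k ≠ 0 ∨ ∀ c, ∀ p ∈ B c, e p = 0)) →
    ∑ n ∈ I.filter (fun n => 3 * (J * VM P N * rho B) < Sw B (MM P N) (Ico a (a + J)) N v n), om n ≤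
      (JJ N : ℝ) ^ 2 / (J * rho B) * X + (N : ℝ) ^ (P.kap / 20) * Err := by
  obtain ⟨K0, hK0, hlw⟩ := upper_weights_eta (1 / 20) (by norm_num)
  obtain ⟨c, hc, hpl⟩ := prod_lower
  obtain ⟨C, hC, hsec⟩ := second_low
  obtain ⟨N0, hnum⟩ := ca6u_num P hP c C hc hC K0
  refine ⟨N0, ?_⟩
  intro N _ hN y0 r B v u e I om X Err S hv hy hMy hyN a J hJρ hk
  obtain ⟨hn, hN2, q1, q2, q3⟩ := hnum N hN
  have hK9 : (10 : ℝ) ^ 9 ≤ Real.log N := hn.K
  set K := Real.log N with hK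
  have hK1 : 1 ≤ K := le_trans (by norm_num) hK9
  have hD : Den B u y0 K (JJ N) := S.den (le_trans (by norm_num) hK9) hy
  have hρ : 0 < rho B := rho_posm S.fam (by linarith)
  have hρ1 : rho B ≤ 1 := by
    unfold rho
    refine prod_le_one (fun cc _ => sum_nonneg fun p _ => by positivity) fun cc _ => S.fam.up cc
  have hj1 : K ^ 1000 ≤ (JJ N : ℝ) := hn.J1
  have hj2 : 10 ≤ (JJ N : ℝ) := by
    refine le_trans ?_ hj1
    calc (10 : ℝ) ≤ K := le_trans (by norm_num) hK9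
      _ = K ^ 1 := (pow_one K).symm
      _ ≤ K ^ 1000 := pow_le_pow_right₀ hK1 (by norm_num)
  have hJρ1 : 1 ≤ (J : ℝ) * rho B := by
    refine le_trans ?_ hJρ
    have : (10 : ℝ) ^ 3 ≤ (JJ N : ℝ) ^ 3 := pow_le_pow_left₀ (by norm_num) hj2 3
    linarith
  have hJ1 : 1 ≤ J := by
    by_contra hcon
    have h0 : J = 0 := by omega
    rw [h0] at hJρ1
    norm_num at hJρ1
  have hJr : (1 : ℝ) ≤ J := by exact_mod_cast hJ1
  have hMpos : 0 < MM P N := by unfold MM; positivity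
  -- sizes
  have hjN : 10 ≤ JJ N := by exact_mod_cast hj2
  have hy1 : 1 ≤ y0 := le_trans (Nat.one_le_pow _ _ (by omega)) hy
  have hy0r : (0 : ℝ) < y0 := by exact_mod_cast hy1
  have hJy : (J : ℝ) ≤ 2 * y0 := by
    have h1 := (hk a (by rw [mem_Ico]; omega)).1
    have h2 := (hk (a + J - 1) (by rw [mem_Ico]; omega)).1
    have h3 : (J : ℤ) ≤ 2 * y0 := by
      have h4 := neg_abs_le a
      have h5 := le_abs_self (a + J - 1)
      omega
    exact_mod_cast h3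
  have hM2 : 2 ≤ MM P N := by
    have h1 := hn.M1
    have h2 : K ^ 1 ≤ K ^ P.C1 := pow_le_pow_right₀ hK1 (le_trans (by norm_num) hP.C1)
    have h3 : (2 : ℝ) ≤ MM P N := by
      rw [pow_one] at h2
      have : (2 : ℝ) ≤ K := le_trans (by norm_num) hK9
      linarith
    exact_mod_cast h3
  have hPN : ∀ q ∈ PN N (MM P N), q.Prime ∧ q ≤ MM P N := by
    intro q hq
    unfold PN at hq
    rw [mem_filter, mem_range] at hq
    exact ⟨hq.2.1, by omega⟩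
  obtain ⟨D, w, hD1, hD2, hD3, hD4, hD5, hD6⟩ := hlw (MM P N) hM2 (PN N (MM P N)) hPN
  set M := MM P N with hM
  have hMr : (2 : ℝ) ≤ M := by exact_mod_cast hM2
  have hlM : 0 < Real.log M := Real.log_pos (by linarith)
  have hWts : Wts (PN N M) D w (2 + 2 * Real.log M) :=
    ⟨fun d hd => ⟨(hD1 d hd).1, (hD1 d hd).2.2.1, (hD1 d hd).2.2.2⟩, fun d _ => hD2 d⟩
  have hVM : c / Real.log M ≤ VM P N := hpl M hM2 (PN N M) hPN
  have hVM0 : 0 < VM P N := lt_of_lt_of_le (by positivity) hVM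
  have hV1 : VM P N ≤ Vw D w := hD6
  have hV2 : Vw D w ≤ (1 + 1 / 20) * VM P N := hD5
  have hV0 : 0 < Vw D w := lt_of_lt_of_le hVM0 hV1
  have hN1r : (1 : ℝ) ≤ N := by exact_mod_cast (by omega : 1 ≤ N)
  have hN0r : (0 : ℝ) < N := by linarith
  -- the powers of `N`
  have hk0 := hP.kap0
  have hpw : ∀ s t : ℝ, (N : ℝ) ^ s * (N : ℝ) ^ t = (N : ℝ) ^ (s + t) := fun s t =>
    (Real.rpow_add hN0r s t).symm
  have hsz : ((((M ^ K0 : ℕ) : ℕ) : ℝ) * (N : ℝ) ^ (P.kap / 100)) ^ 2 ≤ (N : ℝ) ^ (P.kap / 20) := by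
    push_cast
    rw [mul_pow]
    calc ((M : ℝ) ^ K0) ^ 2 * ((N : ℝ) ^ (P.kap / 100)) ^ 2
        ≤ (N : ℝ) ^ (P.kap / 1000) * ((N : ℝ) ^ (P.kap / 100)) ^ 2 :=
          mul_le_mul_of_nonneg_right q2 (by positivity)
      _ = (N : ℝ) ^ (P.kap / 1000 + (P.kap / 100 + P.kap / 100)) := by
          rw [sq ((N : ℝ) ^ (P.kap / 100)), hpw, hpw]
      _ ≤ _ := Real.rpow_le_rpow_of_exponent_le hN1r (by linarith)
  have hmain := hsec P N y0 r B v u e I om X Err S hD hv hM2 hMy D w _ hWts (M ^ K0)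
    (Nat.one_le_pow _ _ (by omega)) (fun d hd => (hD1 d hd).2.1) hsz a J hJ1 hk
  set W : Finset ℤ := Ico a (a + J) with hW
  set U : ℝ := rhoU u B with hU
  have hU0 : 0 < U := hD.pos
  have hUlow : 19 / 20 * rho B ≤ U := hD.low
  have hUup : U ≤ 2 * rho B := hD.up
  have hJ0 : (0 : ℝ) < J := by linarith
  set Bd := I.filter (fun n => 3 * (J * VM P N * rho B) < Sw B M W N v n) with hBd
  have hbad : (∑ n ∈ Bd, om n) * (J * Vw D w * U) ^ 2 / 6 ≤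
      ∑ n ∈ I, om n * (At B D w W N v n - J * Vw D w * U) ^ 2 := by
    have h1 : ∑ n ∈ Bd, om n * (At B D w W N v n - J * Vw D w * U) ^ 2 ≤
        ∑ n ∈ I, om n * (At B D w W N v n - J * Vw D w * U) ^ 2 := by
      refine sum_le_sum_of_subset_of_nonneg (filter_subset _ _) fun n hn _ => ?_
      exact mul_nonneg (S.om0 n hn) (sq_nonneg _)
    refine le_trans ?_ h1
    rw [sum_mul, sum_div]
    refine sum_le_sum fun n hn => ?_
    rw [hBd, mem_filter] at hn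
    have h2 := ca6u_le_At B D w W M N v n hD4
    set T := J * Vw D w * U with hT
    set R := J * VM P N * rho B with hR
    have hR0 : 0 < R := by positivity
    have hT0 : 0 < T := by positivity
    have hTR : T ≤ 21 / 10 * R := by
      have h3 : Vw D w * U ≤ ((1 + 1 / 20) * VM P N) * (2 * rho B) :=
        mul_le_mul hV2 hUup hU0.le (by positivity)
      calc T = J * (Vw D w * U) := by rw [hT]; ring
        _ ≤ J * (((1 + 1 / 20) * VM P N) * (2 * rho B)) := mul_le_mul_of_nonneg_left h3 hJ0.le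
        _ = 21 / 10 * R := by rw [hR]; ring
    have h4 : 3 / 7 * T ≤ At B D w W N v n - T := by
      have h5 := hn.2
      linarith
    have h6 : (3 / 7 * T) ^ 2 ≤ (At B D w W N v n - T) ^ 2 := pow_le_pow_left₀ (by positivity) h4 2
    have h7 : T ^ 2 / 6 ≤ (At B D w W N v n - T) ^ 2 := by
      refine le_trans ?_ h6
      have : 0 ≤ T ^ 2 := sq_nonneg T
      nlinarith
    calc om n * T ^ 2 / 6 = om n * (T ^ 2 / 6) := by ring
      _ ≤ _ := mul_le_mul_of_nonneg_left h7 (S.om0 n hn.1)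
  have hfin := ca6u_final (S := ∑ n ∈ Bd, om n) hc hlM hK1 hJr S.X0 S.E0 hρ hρ1 (hVM.trans hV1) hUlow
    (by linarith) hy0r hJy hC (hbad.trans hmain) q1
  refine hfin.trans ?_
  refine add_le_add le_rfl ?_
  refine mul_le_mul_of_nonneg_right ?_ S.E0
  -- the second part
  have htp : ((tp B).card : ℝ) ≤ (N : ℝ) ^ (P.kap / 100) := tp_card_le S.fam
  have hρi : 2 / rho B ≤ 16 * (N : ℝ) ^ (P.kap / 1000) := by
    have h1 : 1 / rho B ≤ J := by
      rw [div_le_iff₀ hρ]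
      exact hJρ1
    have h2 : 2 / rho B = 2 * (1 / rho B) := by ring
    rw [h2]
    have h3 : (J : ℝ) ≤ 2 * (N : ℝ) ^ (P.kap / 1000) := hJy.trans (by linarith)
    have h4 : 0 ≤ (N : ℝ) ^ (P.kap / 1000) := by positivity
    linarith
  have hWt0 : 0 ≤ ∑ d ∈ D, |w d| := sum_nonneg fun _ _ => abs_nonneg _
  have h1 : (∑ d ∈ D, |w d|) * ((tp B).card : ℝ) * (Real.log M / c) * (2 / rho B) ≤
      ((M : ℝ) ^ K0 * Real.log M) * (16 / c) * ((N : ℝ) ^ (P.kap / 100) * (N : ℝ) ^ (P.kap / 1000)) := by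
    calc (∑ d ∈ D, |w d|) * ((tp B).card : ℝ) * (Real.log M / c) * (2 / rho B)
        ≤ (M : ℝ) ^ K0 * (N : ℝ) ^ (P.kap / 100) * (Real.log M / c) * (16 * (N : ℝ) ^ (P.kap / 1000)) := by
          refine mul_le_mul ?_ hρi (by positivity) (by positivity)
          refine mul_le_mul_of_nonneg_right ?_ (by positivity)
          exact mul_le_mul hD3 htp (by positivity) (by positivity)
      _ = _ := by ring
  have h0 : 0 ≤ (∑ d ∈ D, |w d|) * ((tp B).card : ℝ) * (Real.log M / c) * (2 / rho B) := by positivity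
  calc 24 * ((∑ d ∈ D, |w d|) * ((tp B).card : ℝ) * (Real.log M / c) * (2 / rho B)) ^ 2
      ≤ 24 * (((M : ℝ) ^ K0 * Real.log M) * (16 / c) *
        ((N : ℝ) ^ (P.kap / 100) * (N : ℝ) ^ (P.kap / 1000))) ^ 2 :=
        mul_le_mul_of_nonneg_left (pow_le_pow_left₀ h0 h1 2) (by norm_num)
    _ = (24 * (16 / c) ^ 2 * ((M : ℝ) ^ K0 * Real.log M) ^ 2) *
        ((N : ℝ) ^ (P.kap / 100) * (N : ℝ) ^ (P.kap / 1000)) ^ 2 := by ring
    _ ≤ (N : ℝ) ^ (P.kap / 1000) * ((N : ℝ) ^ (P.kap / 100) * (N : ℝ) ^ (P.kap / 1000)) ^ 2 :=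
        mul_le_mul_of_nonneg_right q3 (by positivity)
    _ = (N : ℝ) ^ (P.kap / 1000 + ((P.kap / 100 + P.kap / 1000) + (P.kap / 100 + P.kap / 1000))) := by
        rw [sq, hpw, hpw, hpw]
    _ ≤ (N : ℝ) ^ (P.kap / 20) := Real.rpow_le_rpow_of_exponent_le hN1r (by linarith)

end Pool.Agent.Lib.TCF
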