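import Pool.Agent.Lib.MP_7b7e48_nt.TCF.CA5

/-!
# Module CA7 (60 minutes): upper bound for the number of marks, off a small mass

PROOF of `core_up`. `T = |W| U ≤ J ρ` (`CA2.den_le`), so `St > 2 J ρ` gives `St - T > J ρ`. By `second_up` the mass is at most
`(X K³ U |W| + 4 (|W| |tp|)² Err)/(J ρ)² ≤ X K³/(J ρ) + 4 (|tp|/ρ)² Err` (`|W| ≤ J`, `U ≤ ρ`), `J ρ ≥ JJ³/4`, `1/ρ ≤ 4J ≤ 4 y0 ≤ 4 N^(kap/1000)`.
PROOF of `core_deg`. Markov: `1[T < pht(v n)] ≤ pht(v n)/T`, `pht(v n) = ∑_f [mrk f ∣ v n]` (`CA1.pht_eqm`), and `mrk f ∣ v n` iff `m_f ∣ n` where `m_f` is the product of the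
`f c` which do not divide `v` (`mrk f` is squarefree). By `CA3.law_dvd`: `∑ om [m_f ∣ n] ≤ X ∏_{c : f c ∤ v} (1/f c) + Err` (`u p + e p = 1/p`). Sum over `f`
(`CA1.sum_tp` with `g c p = if p ∣ v then 1 else 1/p`): `≤ X ∏_c (#{p ∈ B_c : p ∣ v} + V_c) + |tp| Err`.
-/

set_option autoImplicit false

open Finset

namespace Pool.Agent.Lib.TCF

open Pool.Agent.Lib.RG hiding RR sig Good
open Pool.Agent.Lib.RH

open Classical in
theorem core_up (P : Prm) (hP : P.Ok) : ∃ N0 : ℕ, ∀ (N : ℕ) [NeZero N], N0 ≤ N →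
    ∀ (y0 r : ℕ) (B : Fin r → Finset ℕ) (v : ℕ) (u e : ℕ → ℝ) (I : Finset ℕ) (om : ℕ → ℝ) (X Err : ℝ),
    Sit P N y0 B v u e I om X Err → (∀ c, ∀ p ∈ B c, 0 ≤ u p ∧ u p ≤ 1 / p) → (JJ N) ^ 4 ≤ y0 →
    (y0 : ℝ) ≤ (N : ℝ) ^ (P.kap / 1000) → ∀ (W : Finset ℤ) (J : ℕ), W.card ≤ J → J ≤ y0 →
    (JJ N : ℝ) ^ 3 / 4 ≤ J * rho B →
    (∀ k ∈ W, 2 * |k| ≤ y0 ∧ (k ≠ 0 ∨ ∀ c, ∀ p ∈ B c, e p = 0)) →
    ∑ n ∈ I.filter (fun n => 2 * (J * rho B) < St B W N v n), om n ≤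
      X / (JJ N) ^ 2 + (N : ℝ) ^ (P.kap / 20) * Err := by
  have hkap := hP.kap0
  refine ⟨⌈Real.exp (10 + 5 / (28 / 1000 * P.kap))⌉₊ + 2, ?_⟩
  intro N _ hN y0 r B v u e I om X Err S hu hy hyN W J hWJ hJy hJr hW
  have hN2 : 2 ≤ N := by omega
  have hNr : Real.exp (10 + 5 / (28 / 1000 * P.kap)) ≤ N := by
    refine (Nat.le_ceil _).trans ?_
    exact_mod_cast (by omega : ⌈Real.exp (10 + 5 / (28 / 1000 * P.kap))⌉₊ ≤ N)
  have hN0 : (0 : ℝ) < N := by exact_mod_cast (by omega : 0 < N)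
  have hlog : 10 + 5 / (28 / 1000 * P.kap) ≤ Real.log N := (Real.le_log_iff_exp_le hN0).2 hNr
  have hq0 : 0 < 5 / (28 / 1000 * P.kap) := by positivity
  obtain ⟨K, hKd⟩ : ∃ K : ℝ, K = Real.log N := ⟨_, rfl⟩
  have hK : 10 ≤ K := by rw [hKd]; linarith
  have hbig : (64 : ℝ) ≤ (N : ℝ) ^ (28 / 1000 * P.kap) := by
    have h1 : 5 ≤ 28 / 1000 * P.kap * Real.log N := by
      have h2 : 5 / (28 / 1000 * P.kap) ≤ Real.log N := by linarith
      rw [div_le_iff₀ (by positivity)] at h2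
      linarith
    rw [Real.rpow_def_of_pos hN0]
    have h3 : Real.exp 5 ≤ Real.exp (Real.log N * (28 / 1000 * P.kap)) := Real.exp_le_exp.2 (by linarith)
    have h4 : (64 : ℝ) ≤ Real.exp 5 := by
      have h5 : Real.exp 5 = Real.exp 1 ^ 5 := by
        rw [← Real.exp_nat_mul]; norm_num
      have h6 : (2.7 : ℝ) ≤ Real.exp 1 := by
        have := Real.exp_one_gt_d9
        linarith
      rw [h5]
      calc (64 : ℝ) ≤ 2.7 ^ 5 := by norm_num
        _ ≤ Real.exp 1 ^ 5 := pow_le_pow_left₀ (by norm_num) h6 5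
    linarith
  have hF := S.fam
  have hD : Den B u y0 (Real.log N) (JJ N) := S.den (by rw [← hKd]; exact hK) hy
  have hsec := second_up P N y0 r B v u e I om X Err S hD hN2 hkap W hW
  have hUr : rhoU u B ≤ rho B := den_le hu
  have hU0 : 0 < rhoU u B := hD.pos
  obtain ⟨U, hUd⟩ : ∃ U : ℝ, U = rhoU u B := ⟨_, rfl⟩
  obtain ⟨ρ, hρd⟩ : ∃ ρ : ℝ, ρ = rho B := ⟨_, rfl⟩
  obtain ⟨w, hwd⟩ : ∃ w : ℝ, w = (W.card : ℝ) := ⟨_, rfl⟩
  obtain ⟨Jr, hJd⟩ : ∃ Jr : ℝ, Jr = (J : ℝ) := ⟨_, rfl⟩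
  obtain ⟨tc, htd⟩ : ∃ tc : ℝ, tc = ((tp B).card : ℝ) := ⟨_, rfl⟩
  obtain ⟨jj, hjd⟩ : ∃ jj : ℝ, jj = (JJ N : ℝ) := ⟨_, rfl⟩
  rw [← hUd, ← hwd, ← htd, ← hKd] at hsec
  rw [← hUd, ← hρd] at hUr
  rw [← hUd] at hU0
  rw [← hρd, ← hJd, ← hjd] at hJr
  have hwJ : w ≤ Jr := by rw [hwd, hJd]; exact_mod_cast hWJ
  have hw0 : 0 ≤ w := by rw [hwd]; exact Nat.cast_nonneg _
  have ht0 : 0 ≤ tc := by rw [htd]; exact Nat.cast_nonneg _
  have hρ0 : 0 < ρ := lt_of_lt_of_le hU0 hUr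
  have hjK : K ^ 1000 ≤ jj := by
    rw [hjd, hKd]
    exact Nat.le_ceil _
  have hj4 : 4 * K ^ 3 ≤ jj := by
    calc 4 * K ^ 3 ≤ K * K ^ 3 := mul_le_mul_of_nonneg_right (by linarith) (by positivity)
      _ = K ^ 4 := by ring
      _ ≤ K ^ 1000 := pow_le_pow_right₀ (by linarith) (by norm_num)
      _ ≤ jj := hjK
  have hj1 : 1 ≤ jj := by
    have : (0 : ℝ) < K ^ 3 := by positivity
    have h2 : (1 : ℝ) ≤ K ^ 3 := one_le_pow₀ (by linarith)
    linarith
  have hJ0 : 0 ≤ Jr := hw0.trans hwJ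
  obtain ⟨z, hzd⟩ : ∃ z : ℝ, z = Jr * ρ := ⟨_, rfl⟩
  rw [← hzd] at hJr
  have hj3 : 1 ≤ jj ^ 3 := one_le_pow₀ hj1
  have hz0 : 0 < z := by linarith
  have hJ0' : 0 < Jr := by
    rcases hJ0.lt_or_eq with h | h
    · exact h
    · rw [hzd, ← h, zero_mul] at hz0
      exact absurd hz0 (lt_irrefl _)
  have hT : w * U ≤ z := by
    rw [hzd]
    exact mul_le_mul hwJ hUr hU0.le hJ0
  -- the mass
  have hmass : z ^ 2 * ∑ n ∈ I.filter (fun n => 2 * (J * rho B) < St B W N v n), om n ≤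
      X * (K ^ 3 * U * w) + 4 * (w * tc) ^ 2 * Err := by
    refine le_trans ?_ hsec
    rw [Finset.mul_sum]
    refine le_trans (Finset.sum_le_sum (g := fun n => om n * (St B W N v n - w * U) ^ 2) fun n hn => ?_) ?_
    · obtain ⟨hnI, hnS⟩ := Finset.mem_filter.1 hn
      rw [← hρd, ← hJd, ← hzd] at hnS
      have h1 : z ≤ St B W N v n - w * U := by linarith
      have h2 : z ^ 2 ≤ (St B W N v n - w * U) ^ 2 := pow_le_pow_left₀ hz0.le h1 2
      rw [mul_comm]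
      exact mul_le_mul_of_nonneg_left h2 (S.om0 n hnI)
    · refine Finset.sum_le_sum_of_subset_of_nonneg (Finset.filter_subset _ _) fun n hn _ => ?_
      exact mul_nonneg (S.om0 n hn) (sq_nonneg _)
  -- the error term
  have htc : tc ≤ (N : ℝ) ^ (P.kap / 100) := by rw [htd]; exact tp_card_le hF
  obtain ⟨a, had⟩ : ∃ a : ℝ, a = (N : ℝ) ^ (P.kap / 100) := ⟨_, rfl⟩
  obtain ⟨b, hbd⟩ : ∃ b : ℝ, b = (N : ℝ) ^ (P.kap / 1000) := ⟨_, rfl⟩
  obtain ⟨c, hcd⟩ : ∃ c : ℝ, c = (N : ℝ) ^ (P.kap / 20) := ⟨_, rfl⟩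
  obtain ⟨d, hdd⟩ : ∃ d : ℝ, d = (N : ℝ) ^ (28 / 1000 * P.kap) := ⟨_, rfl⟩
  have hc : c = a * a * b * b * d := by
    rw [hcd, had, hbd, hdd, ← Real.rpow_add hN0, ← Real.rpow_add hN0, ← Real.rpow_add hN0, ← Real.rpow_add hN0]
    congr 1
    ring
  have ha0 : 0 < a := by rw [had]; exact Real.rpow_pos_of_pos hN0 _
  have hb0 : 0 < b := by rw [hbd]; exact Real.rpow_pos_of_pos hN0 _
  rw [← had] at htc
  rw [← hdd] at hbig
  have hJb : Jr ≤ b := by
    rw [hJd, hbd]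
    refine le_trans ?_ hyN
    exact_mod_cast hJy
  have herr : 4 * (w * tc) ^ 2 ≤ c * z ^ 2 := by
    have h1 : w * tc ≤ Jr * a := mul_le_mul hwJ htc ht0 hJ0
    have h2 : (w * tc) ^ 2 ≤ (Jr * a) ^ 2 := pow_le_pow_left₀ (mul_nonneg hw0 ht0) h1 2
    have h3 : 1 ≤ 4 * z := by linarith
    have h4 : 1 ≤ (4 * z) ^ 2 := one_le_pow₀ h3
    have h5 : (Jr * a) ^ 2 ≤ (b * a) ^ 2 :=
      pow_le_pow_left₀ (mul_nonneg hJ0 ha0.le) (mul_le_mul_of_nonneg_right hJb ha0.le) 2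
    have h6 : 64 * (a * a * b * b) ≤ c := by
      rw [hc]
      have h7 : 0 ≤ a * a * b * b := by positivity
      nlinarith
    have h8 : 0 ≤ a * a * b * b := by positivity
    have h9 : (b * a) ^ 2 = a * a * b * b := by ring
    have h10 : a * a * b * b * 64 * z ^ 2 ≤ c * z ^ 2 :=
      mul_le_mul_of_nonneg_right (by linarith) (sq_nonneg z)
    have h11 : a * a * b * b * 1 ≤ a * a * b * b * (4 * z) ^ 2 := mul_le_mul_of_nonneg_left h4 h8
    have h12 : a * a * b * b * (4 * z) ^ 2 * 4 = a * a * b * b * 64 * z ^ 2 := by ring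
    linarith
  have hmain : z ^ 2 * (∑ n ∈ I.filter (fun n => 2 * (J * rho B) < St B W N v n), om n) ≤
      z ^ 2 * (X / jj ^ 2 + c * Err) := by
    refine hmass.trans ?_
    have h1 : X * (K ^ 3 * U * w) ≤ z ^ 2 * (X / jj ^ 2) := by
      have h2 : K ^ 3 * U * w ≤ K ^ 3 * z := by
        have h3 : K ^ 3 * U * w = K ^ 3 * (w * U) := by ring
        rw [h3]
        exact mul_le_mul_of_nonneg_left hT (by positivity)
      have h4 : K ^ 3 * jj ^ 2 ≤ z := by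
        have h5 : 4 * K ^ 3 * jj ^ 2 ≤ jj * jj ^ 2 := mul_le_mul_of_nonneg_right hj4 (sq_nonneg _)
        have h6 : jj * jj ^ 2 = jj ^ 3 := by ring
        linarith
      have hjj : 0 < jj ^ 2 := by positivity
      have h7 : K ^ 3 ≤ z / jj ^ 2 := by rw [le_div_iff₀ hjj]; exact h4
      calc X * (K ^ 3 * U * w) ≤ X * (K ^ 3 * z) := mul_le_mul_of_nonneg_left h2 S.X0
        _ ≤ X * (z / jj ^ 2 * z) := mul_le_mul_of_nonneg_left (mul_le_mul_of_nonneg_right h7 hz0.le) S.X0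
        _ = z ^ 2 * (X / jj ^ 2) := by ring
    have h2 : 4 * (w * tc) ^ 2 * Err ≤ z ^ 2 * (c * Err) := by
      calc 4 * (w * tc) ^ 2 * Err ≤ c * z ^ 2 * Err := mul_le_mul_of_nonneg_right herr S.E0
        _ = z ^ 2 * (c * Err) := by ring
    linarith
  have hfin := le_of_mul_le_mul_left hmain (by positivity : 0 < z ^ 2)
  rw [hjd, hcd] at hfin
  exact hfin


open Classical in
theorem core_deg (P : Prm) (N : ℕ) (hN : 2 ≤ N) (hk : 0 < P.kap) (y0 r : ℕ) (B : Fin r → Finset ℕ) (v : ℕ)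
    (u e : ℕ → ℝ) (I : Finset ℕ) (om : ℕ → ℝ) (X Err : ℝ) (S : Sit P N y0 B v u e I om X Err)
    (hue : ∀ c, ∀ p ∈ B c, ¬ p ∣ v → u p + e p = 1 / p) (T : ℝ) (hT : 0 < T) :
    ∑ n ∈ I.filter (fun n => T < pht B (v * n)), om n ≤
      1 / T * (X * ∏ c, ((((B c).filter fun p => p ∣ v).card : ℝ) + ∑ p ∈ B c, 1 / (p : ℝ)) +
        (tp B).card * Err) := by
  have hF := S.fam
  have hN1 : (1 : ℝ) ≤ N := by exact_mod_cast (by omega : 1 ≤ N)
  -- one choice of the primes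
  have key : ∀ f ∈ tp B, ∑ n ∈ I, (if mrk f ∣ v * n then om n else 0) ≤
      X * ∏ c, (if f c ∣ v then (1 : ℝ) else 1 / (f c : ℝ)) + Err := by
    intro f hf
    have hfB : ∀ c, f c ∈ B c := fun c => (Fintype.mem_piFinset.1 hf) c
    have hinj : Function.Injective f := by
      intro c c' h
      by_contra hne
      exact (Finset.disjoint_left.1 (hF.disj c c' hne)) (hfB c) (h ▸ hfB c')
    have hpr : ∀ c, (f c).Prime := fun c => (hF.pr c _ (hfB c)).1
    obtain ⟨s, hs⟩ : ∃ s : Finset (Fin r), s = univ.filter (fun c => ¬ f c ∣ v) := ⟨_, rfl⟩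
    have hsmem : ∀ c, c ∈ s ↔ ¬ f c ∣ v := by
      intro c
      rw [hs, Finset.mem_filter]
      exact ⟨fun h => h.2, fun h => ⟨mem_univ _, h⟩⟩
    obtain ⟨m, hm⟩ : ∃ m : ℕ, m = ∏ c ∈ s, f c := ⟨_, rfl⟩
    have hmi : m = ∏ p ∈ s.image f, p := by
      rw [hm, Finset.prod_image (fun _ _ _ _ h => hinj h)]
    have hmm : m ∣ mrk f := by
      rw [hm]
      exact Finset.prod_dvd_prod_of_subset _ _ _ (Finset.subset_univ _)
    obtain ⟨h1, hsq, _⟩ := mrk_sq hF hf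
    have hmsq : Squarefree m := hsq.squarefree_of_dvd hmm
    have hpf : m.primeFactors = s.image f := by
      rw [hmi]
      apply Nat.primeFactors_prod
      intro p hp
      obtain ⟨c, _, rfl⟩ := Finset.mem_image.1 hp
      exact hpr c
    have hcond : ∀ p : ℕ, p.Prime → p ∣ m → p ∈ PP N (MM P N) B ∧ p ∉ dv (PP N (MM P N) B) v := by
      intro p hp hpm
      have hpin : p ∈ m.primeFactors := Nat.mem_primeFactors.2 ⟨hp, hpm, hmsq.ne_zero⟩
      rw [hpf] at hpin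
      obtain ⟨c, hc, rfl⟩ := Finset.mem_image.1 hpin
      have hcv : ¬ f c ∣ v := (hsmem c).1 hc
      refine ⟨?_, ?_⟩
      · unfold PP prs
        exact Finset.mem_union_right _ (Finset.mem_biUnion.2 ⟨c, mem_univ _, hfB c⟩)
      · unfold dv
        intro h
        exact hcv (Finset.mem_filter.1 h).2
    have hmY : m ≤ ⌊(N : ℝ) ^ (P.kap / 20)⌋₊ := by
      apply Nat.le_floor
      have h2 : (m : ℝ) ≤ mrk f := by exact_mod_cast Nat.le_of_dvd h1 hmm
      have h3 := mrk_le hF hf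
      have h4 : (N : ℝ) ^ (P.kap / 100) ≤ (N : ℝ) ^ (P.kap / 20) :=
        Real.rpow_le_rpow_of_exponent_le hN1 (by linarith)
      linarith
    have hl := law_dvd S.law m hmsq hcond hmY
    have e1 : ∀ n : ℕ, mrk f ∣ v * n ↔ m ∣ n := by
      intro n
      have h5 : mrk f ∣ v * n ↔ ∀ c, f c ∣ v * n := by
        have h := mrk_dvd hF hf ((v * n : ℕ) : ℤ)
        simpa only [Int.natCast_dvd_natCast] using h
      have h6 : m ∣ n ↔ ∀ c ∈ s, f c ∣ n := by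
        constructor
        · intro h c hc
          rw [hm] at h
          exact (Finset.dvd_prod_of_mem f hc).trans h
        · intro h
          rw [hmi]
          apply Finset.prod_primes_dvd
          · intro p hp
            obtain ⟨c, _, rfl⟩ := Finset.mem_image.1 hp
            exact (hpr c).prime
          · intro p hp
            obtain ⟨c, hc, rfl⟩ := Finset.mem_image.1 hp
            exact h c hc
      rw [h5, h6]
      constructor
      · intro h c hc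
        rcases (hpr c).dvd_mul.1 (h c) with h7 | h7
        · exact absurd h7 ((hsmem c).1 hc)
        · exact h7
      · intro h c
        by_cases h7 : f c ∣ v
        · exact h7.mul_right n
        · exact (h c ((hsmem c).2 h7)).mul_left v
    have e2 : ∏ p ∈ m.primeFactors, (u p + e p) = ∏ c, (if f c ∣ v then (1 : ℝ) else 1 / (f c : ℝ)) := by
      rw [hpf, Finset.prod_image (fun _ _ _ _ h => hinj h), hs, Finset.prod_filter]
      refine Finset.prod_congr rfl fun c _ => ?_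
      by_cases h7 : f c ∣ v
      · rw [if_neg (not_not.2 h7), if_pos h7]
      · rw [if_pos h7, if_neg h7, hue c _ (hfB c) h7]
    rw [e2] at hl
    have e3 : ∑ n ∈ I, (if mrk f ∣ v * n then om n else 0) = ∑ n ∈ I, (if m ∣ n then om n else 0) := by
      refine Finset.sum_congr rfl fun n _ => ?_
      by_cases h8 : m ∣ n
      · rw [if_pos h8, if_pos ((e1 n).2 h8)]
      · rw [if_neg h8, if_neg (fun h9 => h8 ((e1 n).1 h9))]
    rw [e3]
    have h9 := (abs_le.1 hl).2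
    linarith
  -- the sum over all choices
  have htot : ∑ n ∈ I, om n * pht B (v * n) ≤
      X * ∏ c, ((((B c).filter fun p => p ∣ v).card : ℝ) + ∑ p ∈ B c, 1 / (p : ℝ)) + (tp B).card * Err := by
    have e1 : ∑ n ∈ I, om n * pht B (v * n) = ∑ f ∈ tp B, ∑ n ∈ I, (if mrk f ∣ v * n then om n else 0) := by
      rw [Finset.sum_comm]
      refine Finset.sum_congr rfl fun n _ => ?_
      rw [pht_eqm hF, Finset.mul_sum]
      refine Finset.sum_congr rfl fun f _ => ?_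
      rw [mul_ite, mul_one, mul_zero]
    have e2 : ∑ f ∈ tp B, ∏ c, (if f c ∣ v then (1 : ℝ) else 1 / (f c : ℝ)) =
        ∏ c, ∑ p ∈ B c, (if p ∣ v then (1 : ℝ) else 1 / (p : ℝ)) :=
      sum_tp B (fun _ p => if p ∣ v then (1 : ℝ) else 1 / (p : ℝ))
    have e3 : ∏ c, ∑ p ∈ B c, (if p ∣ v then (1 : ℝ) else 1 / (p : ℝ)) ≤
        ∏ c, ((((B c).filter fun p => p ∣ v).card : ℝ) + ∑ p ∈ B c, 1 / (p : ℝ)) := by
      refine Finset.prod_le_prod (fun c _ => Finset.sum_nonneg fun p _ => ?_) fun c _ => ?_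
      · split_ifs
        · exact zero_le_one
        · positivity
      · have h1 : (((B c).filter fun p => p ∣ v).card : ℝ) = ∑ p ∈ B c, (if p ∣ v then (1 : ℝ) else 0) := by
          rw [Finset.card_filter]
          push_cast
          rfl
        rw [h1, ← Finset.sum_add_distrib]
        refine Finset.sum_le_sum fun p _ => ?_
        have h2 : (0 : ℝ) ≤ 1 / (p : ℝ) := by positivity
        split_ifs
        · linarith
        · linarith
    rw [e1]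
    calc ∑ f ∈ tp B, ∑ n ∈ I, (if mrk f ∣ v * n then om n else 0)
        ≤ ∑ f ∈ tp B, (X * ∏ c, (if f c ∣ v then (1 : ℝ) else 1 / (f c : ℝ)) + Err) := Finset.sum_le_sum key
      _ = X * (∏ c, ∑ p ∈ B c, (if p ∣ v then (1 : ℝ) else 1 / (p : ℝ))) + (tp B).card * Err := by
          rw [Finset.sum_add_distrib, ← Finset.mul_sum, e2, Finset.sum_const, nsmul_eq_mul]
      _ ≤ _ := by
          have := mul_le_mul_of_nonneg_left e3 S.X0
          linarith
  have hph0 : ∀ n : ℕ, 0 ≤ pht B n := by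
    intro n
    unfold pht
    exact Finset.prod_nonneg fun c _ => Nat.cast_nonneg _
  have hmk : T * ∑ n ∈ I.filter (fun n => T < pht B (v * n)), om n ≤ ∑ n ∈ I, om n * pht B (v * n) := by
    rw [Finset.mul_sum]
    refine le_trans (Finset.sum_le_sum (g := fun n => om n * pht B (v * n)) fun n hn => ?_) ?_
    · obtain ⟨hnI, hnT⟩ := Finset.mem_filter.1 hn
      rw [mul_comm]
      exact mul_le_mul_of_nonneg_left hnT.le (S.om0 n hnI)
    · exact Finset.sum_le_sum_of_subset_of_nonneg (Finset.filter_subset _ _) fun n hn _ =>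
        mul_nonneg (S.om0 n hn) (hph0 _)
  rw [one_div, ← div_eq_inv_mul, le_div_iff₀ hT, mul_comm]
  exact hmk.trans htot


end Pool.Agent.Lib.TCF
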