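import Pool.Agent.Lib.MP_7b7e48_nt.TCF.CA6
import Pool.Agent.Lib.MP_7b7e48_nt.TCF.CA8
import Pool.Agent.Lib.MP_7b7e48_nt.TCF.CB0

/-!
# Module CB1 (90 minutes): field `c1`

PROOF. `A = l v` (coprime to `N`, `≤ N^2`, only prime factors `> M`; `l ≤ 4M²`). `CB0.floor_split` with `A`: on an interval `Ioc a' b'` with `A n / N = k0` (`k0 ≤ l J1 ≤ 4M² J1`) let
`W` be the longer one of the two parts `k < 0`, `k > 0` of `[J2 - k0, J1 - k0)`: an interval `Ico w (w + J)` with `J ≥ (J1 - J2 - 1)/2 ≥ (49/100) J1` (`J2 ≤ J1/JJ`; `J1 ≥ JJ³` is large).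
`J ρ ≥ JJ³/4`, `2|k| ≤ 2 max(J1, k0) ≤ 8 M² J1 ≤ y0`. By `PXr_ge` and `(4/5)(49/100) ≥ 1/8` a bad `n` has `Sw < (4/5) J VM ρ`. Apply `CA6.core_low` with `CA8.sit_one` (`X = b' - a'`, `Err = 1`) or, if
`o = some c`, `wt y0 o n ≤ rr c n` and `CA8.sit_two` (`X = L (b' - a')`, `Err = N^(4/5)`; `b ≤ J1 N ≤ N^(1 + kap/1000) ≤ N^(21/20)`). Sum:
`≤ L (b - a)/JJ² + (4 M² J1 + 1) N^(kap/20) Err`, and the last term is `≤ (L/JJ) N^(1 - kap/8)/v`: type 1, `v ≤ N^(1 - kap/2)`: `4M² J1 + 1 ≤ y0 ≤ N^(kap/1000)`, `JJ ≤ N^(kap/1000)`,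
`N^(kap/20 + kap/500) ≤ N^(3 kap/8)`; type 2: `v ≤ N^(2 kap)`, `L ≥ N^(-1/200)`: `4/5 + kap/20 + kap/500 ≤ 1 - kap/8 - 2 kap - 1/200`, as `kap ≤ 1/1000`.
-/

set_option autoImplicit false

open Finset

namespace Pool.Agent.Lib.TCF

open Pool.Agent.Lib.RG hiding RR sig Good
open Pool.Agent.Lib.RH

private theorem CB1_win (J1 J2 k0 : ℕ) (h : J2 ≤ J1) : ∃ (w : ℤ) (J : ℕ), J1 ≤ 2 * J + J2 + 1 ∧
    ∀ k ∈ Ico w (w + J), k ≠ 0 ∧ (J2 : ℤ) ≤ k + k0 ∧ k + k0 < (J1 : ℤ) := by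
  by_cases h1 : J1 ≤ k0
  · refine ⟨(J2 : ℤ) - k0, J1 - J2, by omega, fun k hk => ?_⟩
    rw [mem_Ico] at hk
    omega
  · by_cases h2 : k0 < J2
    · refine ⟨(J2 : ℤ) - k0, J1 - J2, by omega, fun k hk => ?_⟩
      rw [mem_Ico] at hk
      omega
    · by_cases h3 : J1 - k0 - 1 ≤ k0 - J2
      · refine ⟨(J2 : ℤ) - k0, k0 - J2, by omega, fun k hk => ?_⟩
        rw [mem_Ico] at hk
        omega
      · refine ⟨1, J1 - k0 - 1, by omega, fun k hk => ?_⟩
        rw [mem_Ico] at hk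
        omega

private theorem CB1_rho {n : ℕ} {B : Fin n → Finset ℕ} (h : ∀ c, ∑ p ∈ B c, 1 / (p : ℝ) ≤ 1) :
    0 ≤ rho B ∧ rho B ≤ 1 :=
  ⟨prod_nonneg fun c _ => sum_nonneg fun p _ => by positivity,
    prod_le_one (fun c _ => sum_nonneg fun p _ => by positivity) fun c _ => h c⟩

open Classical in
theorem cb1 (P : Prm) (hP : P.Ok) : ∃ N0 : ℕ, ∀ (N : ℕ) [NeZero N], N0 ≤ N → ∀ D : Dat, D.Ok P N →
    ∀ (v : ℕ) (o : Option (ℕ → ℝ)) (L : ℝ), TM P N v o L → ∀ l : ℕ, Mul P N l → ∀ a b : ℕ, a ≤ b →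
    v * b ≤ D.J1 * N →
    ∑ n ∈ (Ioc a b).filter (fun n => n.Coprime N ∧
      PXr P N D l (v * n) < VM P N * D.J1 * rho D.BX / 8), wt D.y0 o n ≤ L / JJ N * len P N v a b := by
  obtain ⟨Na, hNa⟩ := num P hP
  obtain ⟨Nb, hNb⟩ := core_low P hP
  obtain ⟨Nc, hNc⟩ := sit_two P hP
  refine ⟨max (max Na Nb) (max Nc 2), ?_⟩
  intro N _ hN D hD v o L hT l hl a b hab hvb
  have hN1 : Na ≤ N := (le_max_left _ _).trans ((le_max_left _ _).trans hN)
  have hN2 : Nb ≤ N := (le_max_right _ _).trans ((le_max_left _ _).trans hN)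
  have hN3 : Nc ≤ N := (le_max_left _ _).trans ((le_max_right _ _).trans hN)
  have hN4 : 2 ≤ N := (le_max_right _ _).trans ((le_max_right _ _).trans hN)
  have nm := hNa N hN1
  have hNr : (1 : ℝ) ≤ N := by exact_mod_cast (by omega : 1 ≤ N)
  have hNp : (0 : ℝ) < N := by linarith
  have hK1 : 1 ≤ Real.log N := le_trans (by norm_num) nm.K
  have hk0 := hP.kap0
  have hk1 := hP.kap1
  have hfam : FamW P N D.y0 D.BX := hD.fx.toW hK1
  -- sizes
  have hJJr : (1000 : ℝ) ≤ JJ N := by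
    have h1 : (Real.log N) ≤ (Real.log N) ^ 1000 := le_self_pow₀ hK1 (by norm_num)
    have h2 := nm.K
    have h3 := nm.J1
    norm_num at h2
    linarith
  have hJJ : 1000 ≤ JJ N := by exact_mod_cast hJJr
  have hMM : 1 ≤ MM P N := Nat.one_le_two_pow
  obtain ⟨hrho0, hrho1⟩ := CB1_rho hD.fx.up
  have hJ1r : (JJ N : ℝ) ^ 3 ≤ D.J1 := by
    refine hD.jx.trans ?_
    exact mul_le_of_le_one_right (Nat.cast_nonneg _) hrho1
  have hJ1J : JJ N ^ 3 ≤ D.J1 := by exact_mod_cast hJ1r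
  have hJ1k : 1000 ≤ D.J1 := by
    have : JJ N ≤ JJ N ^ 3 := Nat.le_self_pow (by norm_num) _
    omega
  have hJ2 : 1000 * D.J2 ≤ D.J1 := (Nat.mul_le_mul_right _ hJJ).trans hD.j21
  have hM24 : MM P N ^ 2 ≤ MM P N ^ 4 := Nat.pow_le_pow_right hMM (by norm_num)
  have hJ4 : JJ N ≤ JJ N ^ 4 := Nat.le_self_pow (by norm_num) _
  have hJ48 : 1000 ≤ JJ N ^ 4 := hJJ.trans hJ4
  have hy8 : 1000 * (MM P N ^ 2 * D.J1) ≤ D.y0 := by
    refine le_trans ?_ hD.y1
    rw [mul_assoc]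
    exact Nat.mul_le_mul hJ48 (Nat.mul_le_mul_right _ hM24)
  have hM2pos : 0 < MM P N ^ 2 * D.J1 := Nat.mul_pos (pow_pos (by omega) _) (by omega)
  have hyJ : JJ N ^ 4 ≤ D.y0 := by
    refine le_trans ?_ hD.y1
    rw [mul_assoc]
    exact Nat.le_mul_of_pos_right _ (Nat.mul_pos (pow_pos (by omega) _) (by omega))
  have hyM : MM P N ≤ D.y0 := by
    have h1 : MM P N ≤ MM P N ^ 2 := Nat.le_self_pow (by norm_num) _
    have h2 : MM P N ^ 2 ≤ MM P N ^ 2 * D.J1 := Nat.le_mul_of_pos_right _ (by omega)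
    omega
  have hl4 : l ≤ 4 * MM P N ^ 2 := by
    rcases hl with rfl | hl
    · have : 0 < MM P N ^ 2 := pow_pos (by omega) _
      omega
    · exact (mem_PZ.1 hl).2.1
  have hl1 : 1 ≤ l := by
    rcases hl with rfl | hl
    · exact le_rfl
    · exact (mem_PZ.1 hl).2.2.1.one_lt.le
  have hlN : l.Coprime N := by
    rcases hl with rfl | hl
    · exact Nat.coprime_one_left N
    · exact (Nat.Prime.coprime_iff_not_dvd (mem_PZ.1 hl).2.2.1).2 (mem_PZ.1 hl).2.2.2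
  have hlR : Rough (MM P N) (l * v) := by
    intro p hp hpd
    rcases (Nat.Prime.dvd_mul hp).1 hpd with h | h
    · rcases hl with rfl | hl
      · exact absurd (Nat.dvd_one.1 h) hp.one_lt.ne'
      · have := (Nat.prime_dvd_prime_iff_eq hp (mem_PZ.1 hl).2.2.1).1 h
        rw [this]
        exact (mem_PZ.1 hl).1
    · exact hT.vr p hp h
  have hAc : (l * v).Coprime N := Nat.Coprime.mul_left hlN hT.vc
  have hA1 : 1 ≤ l * v := Nat.mul_pos hl1 hT.v1
  -- powers of N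
  have hy2 := hD.y2
  have hpow : ∀ x : ℝ, 0 < (N : ℝ) ^ x := fun x => Real.rpow_pos_of_pos hNp x
  have hMJ : (4 * (MM P N : ℝ) ^ 2 * D.J1 + 1) ≤ (N : ℝ) ^ (P.kap / 1000) := by
    refine le_trans ?_ hy2
    have h1 : 4 * (MM P N ^ 2 * D.J1) + 1 ≤ D.y0 := by omega
    have h2 : (4 * ((MM P N : ℝ) ^ 2 * D.J1) + 1) ≤ D.y0 := by exact_mod_cast h1
    linarith
  have hJp : (JJ N : ℝ) ≤ (N : ℝ) ^ (P.kap / 1000) := by
    refine le_trans ?_ hy2
    exact_mod_cast hJ4.trans hyJ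
  have hL0 : 0 ≤ L := by
    rcases hT.ty with ⟨-, h, -⟩ | ⟨c, -, -, h, -, -⟩
    · rw [h]; exact zero_le_one
    · exact h.1
  have hvle : (v : ℝ) ≤ N := by
    rcases hT.ty with ⟨-, -, h⟩ | ⟨c, -, -, -, -, h⟩
    · refine h.trans ?_
      calc (N : ℝ) ^ (1 - P.kap / 2) ≤ (N : ℝ) ^ (1 : ℝ) :=
            Real.rpow_le_rpow_of_exponent_le hNr (by linarith)
        _ = N := Real.rpow_one _
    · refine h.trans ?_
      calc (N : ℝ) ^ (2 * P.kap) ≤ (N : ℝ) ^ (1 : ℝ) :=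
            Real.rpow_le_rpow_of_exponent_le hNr (by linarith)
        _ = N := Real.rpow_one _
  have hAle : ((l * v : ℕ) : ℝ) ≤ (N : ℝ) ^ (2 : ℝ) := by
    have h1 : (l : ℝ) ≤ N := by
      have h2 : l ≤ D.y0 := by
        have : MM P N ^ 2 ≤ MM P N ^ 2 * D.J1 := Nat.le_mul_of_pos_right _ (by omega)
        omega
      calc (l : ℝ) ≤ D.y0 := by exact_mod_cast h2
        _ ≤ (N : ℝ) ^ (P.kap / 1000) := hy2
        _ ≤ (N : ℝ) ^ (1 : ℝ) := Real.rpow_le_rpow_of_exponent_le hNr (by linarith)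
        _ = N := Real.rpow_one _
    push_cast
    calc (l : ℝ) * v ≤ N * N := mul_le_mul h1 hvle (Nat.cast_nonneg _) hNp.le
      _ = (N : ℝ) ^ (2 : ℝ) := by
        rw [Real.rpow_two]; ring
  -- the bad n in an interval on which the quotient is constant
  have key : ∀ (om : ℕ → ℝ) (X Err : ℝ) (a' b' k0 : ℕ), (∀ n, 0 ≤ om n) → (∀ n, wt D.y0 o n ≤ om n) →
      k0 ≤ 4 * MM P N ^ 2 * D.J1 → (∀ n ∈ Ioc a' b', l * v * n / N = k0) →
      (∃ u e : ℕ → ℝ, Sit P N D.y0 D.BX (l * v) u e (Ioc a' b') om X Err) →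
      ∑ n ∈ Ioc a' b', (if n.Coprime N ∧ PXr P N D l (v * n) < VM P N * D.J1 * rho D.BX / 8 then
        wt D.y0 o n else 0) ≤ X / (JJ N) ^ 2 + (N : ℝ) ^ (P.kap / 20) * Err := by
    intro om X Err a' b' k0 hom hwt hk hfl ⟨u, e, hS⟩
    obtain ⟨w, J, hJ, hW⟩ := CB1_win D.J1 D.J2 k0 (by omega)
    have hJr : (49 / 100 : ℝ) * D.J1 ≤ J := by
      have h1 : (D.J1 : ℝ) ≤ 2 * J + D.J2 + 1 := by exact_mod_cast hJ
      have h2 : (1000 : ℝ) * D.J2 ≤ D.J1 := by exact_mod_cast hJ2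
      have h3 : (1000 : ℝ) ≤ D.J1 := by exact_mod_cast hJ1k
      linarith
    have hVM : 0 ≤ VM P N := by
      unfold VM
      refine prod_nonneg fun p hp => ?_
      have hp2 : p.Prime := by
        rw [PN, mem_filter] at hp
        exact hp.2.1
      have h1 : (1 : ℝ) / p ≤ 1 := by
        rw [div_le_one (by exact_mod_cast hp2.pos)]
        exact_mod_cast hp2.one_lt.le
      linarith
    have hlow := hNb N hN2 D.y0 D.nX D.BX (l * v) u e (Ioc a' b') om X Err hS hlR hyJ hyM hy2 w J (by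
      have h1 : (49 / 100 : ℝ) * D.J1 * rho D.BX ≤ J * rho D.BX :=
        mul_le_mul_of_nonneg_right hJr hrho0
      have h2 := hD.jx
      have h3 : (0 : ℝ) ≤ D.J1 * rho D.BX := by positivity
      nlinarith) (by
      intro k hk'
      obtain ⟨h1, h2, h3⟩ := hW k hk'
      refine ⟨?_, Or.inl h1⟩
      have h4 : k0 ≤ 4 * (MM P N ^ 2 * D.J1) := by rw [← mul_assoc]; exact hk
      have h5 : D.J1 ≤ MM P N ^ 2 * D.J1 := Nat.le_mul_of_pos_left _ (pow_pos (by omega) _)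
      have h6 : |k| ≤ 4 * ((MM P N ^ 2 * D.J1 : ℕ) : ℤ) := by
        rw [abs_le]
        constructor <;> omega
      have h7 : (1000 * (MM P N ^ 2 * D.J1) : ℕ) ≤ D.y0 := hy8
      omega)
    refine le_trans ?_ hlow
    rw [sum_filter]
    refine sum_le_sum fun n hn => ?_
    by_cases hc : n.Coprime N ∧ PXr P N D l (v * n) < VM P N * D.J1 * rho D.BX / 8
    · rw [if_pos hc, if_pos]
      · exact hwt n
      · have h1 := PXr_ge (P := P) (D := D) hN4 hfam (l := l) (v := v) (n := n)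
          (Nat.Coprime.mul_left hAc hc.1) (W := Ico w (w + J)) (by
            intro k hk'
            rw [hfl n hn]
            exact hW k hk')
        refine lt_of_le_of_lt h1 (lt_of_lt_of_le hc.2 ?_)
        have h2 : (49 / 100 : ℝ) * D.J1 * (VM P N * rho D.BX) ≤ J * (VM P N * rho D.BX) :=
          mul_le_mul_of_nonneg_right hJr (by positivity)
        have h3 : (0 : ℝ) ≤ D.J1 * (VM P N * rho D.BX) := by positivity
        nlinarith
    · rw [if_neg hc]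
      split_ifs
      · exact hom n
      · exact le_rfl
  have hkb : ∀ a' b' k0 : ℕ, a' < b' → b' ≤ b → (∀ n ∈ Ioc a' b', l * v * n / N = k0) →
      k0 ≤ 4 * MM P N ^ 2 * D.J1 := by
    intro a' b' k0 h1 h2 h3
    rw [← h3 b' (mem_Ioc.2 ⟨h1, le_rfl⟩)]
    calc l * v * b' / N ≤ (l * D.J1 * N) / N := by
          apply Nat.div_le_div_right
          calc l * v * b' ≤ l * v * b := Nat.mul_le_mul_left _ h2
            _ = l * (v * b) := Nat.mul_assoc _ _ _
            _ ≤ l * (D.J1 * N) := Nat.mul_le_mul_left _ hvb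
            _ = l * D.J1 * N := (Nat.mul_assoc _ _ _).symm
      _ = l * D.J1 := Nat.mul_div_cancel _ (by omega)
      _ ≤ _ := Nat.mul_le_mul_right _ hl4
  have hquo : ((l * v * b / N : ℕ) : ℝ) + 1 ≤ (N : ℝ) ^ (P.kap / 1000) := by
    refine le_trans ?_ hMJ
    have h1 : l * v * b / N ≤ 4 * MM P N ^ 2 * D.J1 := by
      calc l * v * b / N ≤ (l * D.J1 * N) / N := by
            apply Nat.div_le_div_right
            calc l * v * b = l * (v * b) := Nat.mul_assoc _ _ _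
              _ ≤ l * (D.J1 * N) := Nat.mul_le_mul_left _ hvb
              _ = l * D.J1 * N := (Nat.mul_assoc _ _ _).symm
        _ = l * D.J1 := Nat.mul_div_cancel _ (by omega)
        _ ≤ _ := Nat.mul_le_mul_right _ hl4
    have h2 : ((l * v * b / N : ℕ) : ℝ) ≤ 4 * (MM P N : ℝ) ^ 2 * D.J1 := by exact_mod_cast h1
    linarith
  -- summation over the intervals
  have fin : ∀ Err : ℝ, 0 ≤ Err → (∀ k0 a' b' : ℕ, a ≤ a' → a' ≤ b' → b' ≤ b →
      (∀ n ∈ Ioc a' b', l * v * n / N = k0) →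
      ∑ n ∈ Ioc a' b', (if n.Coprime N ∧ PXr P N D l (v * n) < VM P N * D.J1 * rho D.BX / 8 then
        wt D.y0 o n else 0) ≤ L / (JJ N) ^ 2 * ((b' : ℝ) - a') + (N : ℝ) ^ (P.kap / 20) * Err) →
      (N : ℝ) ^ (P.kap / 1000) * ((N : ℝ) ^ (P.kap / 20) * Err) ≤
        L / JJ N * ((N : ℝ) ^ (1 - P.kap / 8) / v) →
      ∑ n ∈ (Ioc a b).filter (fun n => n.Coprime N ∧
        PXr P N D l (v * n) < VM P N * D.J1 * rho D.BX / 8), wt D.y0 o n ≤
        L / JJ N * len P N v a b := by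
    intro Err hErr h1 h2
    rw [sum_filter]
    refine (floor_split N (l * v) a b (by omega) hab _ _ _ (by positivity) h1).trans ?_
    unfold len
    rw [mul_add]
    refine add_le_add ?_ ?_
    · refine mul_le_mul_of_nonneg_right ?_ (sub_nonneg.2 (by exact_mod_cast hab))
      apply div_le_div_of_nonneg_left hL0 (by linarith)
      exact le_self_pow₀ (by linarith) (by norm_num)
    · refine le_trans ?_ h2
      exact mul_le_mul_of_nonneg_right hquo (by positivity)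
  have hv0 : (0 : ℝ) < v := by exact_mod_cast hT.v1
  have hJJ0 : (0 : ℝ) < JJ N := by linarith
  rcases hT.ty with ⟨ho, hL, hv⟩ | ⟨c, ho, hRC, hLV, hL, hv⟩
  · refine fin 1 zero_le_one ?_ ?_
    · intro k0 a' b' h1 h2 h3 h4
      rcases Nat.lt_or_ge a' b' with h5 | h5
      · obtain ⟨u, e, hS, -⟩ := sit_one P hfam hA1 hAc hAle h2
        have h6 := key (fun _ => 1) ((b' : ℝ) - a') 1 a' b' k0 (fun _ => zero_le_one) (fun n => by
          rw [ho]; exact le_rfl) (hkb a' b' k0 h5 h3 h4) h4 ⟨u, e, hS⟩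
        refine h6.trans (le_of_eq ?_)
        rw [hL]; ring
      · have h6 : a' = b' := by omega
        rw [h6, Ioc_self, sum_empty, sub_self, mul_zero, zero_add]
        positivity
    · rw [hL, mul_one, one_div, ← Real.rpow_add hNp]
      rw [inv_mul_eq_div, le_div_iff₀ hJJ0, le_div_iff₀ hv0]
      calc (N : ℝ) ^ (P.kap / 1000 + P.kap / 20) * JJ N * v
          ≤ (N : ℝ) ^ (P.kap / 1000 + P.kap / 20) * (N : ℝ) ^ (P.kap / 1000) *
            (N : ℝ) ^ (1 - P.kap / 2) := by gcongr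
        _ = (N : ℝ) ^ (P.kap / 1000 + P.kap / 20 + P.kap / 1000 + (1 - P.kap / 2)) := by
            rw [← Real.rpow_add hNp, ← Real.rpow_add hNp]
        _ ≤ (N : ℝ) ^ (1 - P.kap / 8) :=
            Real.rpow_le_rpow_of_exponent_le hNr (by linarith)
  · refine fin ((N : ℝ) ^ ((4 : ℝ) / 5)) (hpow _).le ?_ ?_
    · intro k0 a' b' h1 h2 h3 h4
      rcases Nat.lt_or_ge a' b' with h5 | h5
      · have hb' : (b' : ℝ) ≤ (N : ℝ) ^ ((21 : ℝ) / 20) := by
          have h7 : b' ≤ D.J1 * N := by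
            calc b' ≤ b := h3
              _ ≤ v * b := Nat.le_mul_of_pos_left _ hT.v1
              _ ≤ D.J1 * N := hvb
          have h8 : (D.J1 : ℝ) ≤ (N : ℝ) ^ (P.kap / 1000) := by
            refine le_trans ?_ hy2
            have : D.J1 ≤ MM P N ^ 2 * D.J1 := Nat.le_mul_of_pos_left _ (pow_pos (by omega) _)
            exact_mod_cast (by omega : D.J1 ≤ D.y0)
          calc (b' : ℝ) ≤ D.J1 * N := by exact_mod_cast h7
            _ ≤ (N : ℝ) ^ (P.kap / 1000) * (N : ℝ) ^ (1 : ℝ) := by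
              rw [Real.rpow_one]
              exact mul_le_mul_of_nonneg_right h8 hNp.le
            _ = (N : ℝ) ^ (P.kap / 1000 + 1) := by rw [← Real.rpow_add hNp]
            _ ≤ _ := Real.rpow_le_rpow_of_exponent_le hNr (by linarith)
        obtain ⟨u, e, hS⟩ := hNc N hN3 c L hRC hLV D.y0 D.nX D.BX hfam (l * v) hA1 hAc hAle a' b'
          h2 hb'
        have hrr : ∀ n, 0 ≤ rr c n := fun n => rr_nonneg N c hRC n
        have h6 := key (rr c) (L * ((b' : ℝ) - a')) ((N : ℝ) ^ ((4 : ℝ) / 5)) a' b' k0 hrr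
          (fun n => by
            rw [ho]
            show (if Rough D.y0 n then rr c n else 0) ≤ rr c n
            split_ifs
            · exact le_rfl
            · exact hrr n) (hkb a' b' k0 h5 h3 h4) h4 ⟨u, e, hS⟩
        refine h6.trans (le_of_eq ?_)
        ring
      · have h6 : a' = b' := by omega
        rw [h6, Ioc_self, sum_empty, sub_self, mul_zero, zero_add]
        positivity
    · rw [← Real.rpow_add hNp, ← Real.rpow_add hNp]
      rw [div_mul_div_comm, le_div_iff₀ (by positivity)]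
      calc (N : ℝ) ^ (P.kap / 1000 + (P.kap / 20 + 4 / 5)) * (JJ N * v)
          ≤ (N : ℝ) ^ (P.kap / 1000 + (P.kap / 20 + 4 / 5)) * ((N : ℝ) ^ (P.kap / 1000) *
            (N : ℝ) ^ (2 * P.kap)) := by gcongr
        _ = (N : ℝ) ^ (P.kap / 1000 + (P.kap / 20 + 4 / 5) + (P.kap / 1000 + 2 * P.kap)) := by
            rw [← Real.rpow_add hNp, ← Real.rpow_add hNp]
        _ ≤ (N : ℝ) ^ (-(1 / 200) + (1 - P.kap / 8) : ℝ) :=
            Real.rpow_le_rpow_of_exponent_le hNr (by linarith)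
        _ = (N : ℝ) ^ (-(1 / 200) : ℝ) * (N : ℝ) ^ (1 - P.kap / 8) := Real.rpow_add hNp _ _
        _ ≤ L * (N : ℝ) ^ (1 - P.kap / 8) := by gcongr

end Pool.Agent.Lib.TCF
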