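import Pool.Agent.Lib.MP_7b7e48_nt.TCF.Siz

/-!
# Module Clsu (90 minutes): sum of `UU` over all classes

PROOF. `UU l x = ∑_j ∑_i NL l X_j Y_i`, `X_j = (l x).val + j N`, `Y_i = x.val + i N`. Fix `j, i`. For a unit `x` put `n = x.val`, `1 ≤ n < N`;
`(l x).val = l n - q N`, `q = l n / N < l` (`ZMod.val_natCast`, `Nat.div_add_mod`). So `X_j = l (1 n) + (j - q) N`, `Y_i = 1 n + i N`. For fixed `q < l` the `n < N`, `1 ≤ n` with
`l n / N = q` form an interval `Ioc a_q b_q` (`a_q = (q N - 1) / l` (natural numbers; `0` for `q = 0`), `b_q = ((q + 1) N - 1) / l`; or use any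
description of `{n : l n / N = q, 1 ≤ n}` as `Ioc a b` with `b - a` = number of its elements), the sum of the `b_q - a_q` over `q < l` is
`≤ N`. `PairIn.m1` for `v = 1`, `o = none`, `L = 1` (`tm_one`), `c' = j - q`, `c = i` (`wt = 1`), with `X n`, `Y n` these functions of `n`;
its conditions: `xy_lt`, `x_lt`, `0 < Y` as `n ≥ 1`. The sum over `q < l` is `≤ (4 / JJ) rho rho (N + l N ^ (1 - kap / 8)) ≤ (4 / JJ) rho rho 2 N`
(`l ≤ 4 MM ^ 2 ≤ N ^ (kap / 8)` by `NumX.pw` / `j1_kap`). Sum over `J2 ≤ j < J1`, `i < J0`.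
All terms are `≥ 0`, so it does not matter if some `n` are counted which are not units.
-/

set_option autoImplicit false

open Finset

namespace Pool.Agent.Lib.TCF

open Pool.Agent.Lib.RG hiding RR sig Good
open Pool.Agent.Lib.RH
open Pool.Agent.Lib.MP_45349e_nt.LS (lam)

variable {P : Prm} {N : ℕ} [NeZero N] {D : Dat} {Lk : ℕ → ℕ → ℕ → ℕ → Prop} {Bd : ℕ → ℕ → Prop}
  {A : Finset (ZMod N)}

private theorem Clsu_NL_nonneg (P : Prm) (N : ℕ) (D : Dat) (Lk : ℕ → ℕ → ℕ → ℕ → Prop)
    (Bd : ℕ → ℕ → Prop) (l X Y : ℕ) : 0 ≤ NL P N D Lk Bd l X Y := by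
  unfold NL
  split_ifs
  · exact sum_nonneg fun _ _ => Nat.cast_nonneg _
  · exact le_rfl

private theorem Clsu_rho_nonneg {n : ℕ} (B : Fin n → Finset ℕ) : 0 ≤ rho B :=
  prod_nonneg fun _ _ => sum_nonneg fun _ _ => by positivity

/-- multipliers times the additive error -/
private theorem Clsu_err (hP : P.Ok) (hn : NumX P N) {l : ℕ} (hl : Mul P N l) :
    (l : ℝ) * (N : ℝ) ^ (1 - P.kap / 8) ≤ N := by
  have hN2 := N_two hn
  have hN0 : (0 : ℝ) < N := by
    have : (2 : ℝ) ≤ N := by exact_mod_cast hN2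
    linarith
  have hN1 : (1 : ℝ) ≤ N := by
    have : (2 : ℝ) ≤ N := by exact_mod_cast hN2
    linarith
  have h1 : (l : ℝ) ≤ 4 * (MM P N : ℝ) ^ 2 := by
    have := (mul_facts hn hl).2.1
    exact_mod_cast this
  have hM1 : (1 : ℝ) ≤ MM P N := by exact_mod_cast mm_one P N
  have hJ : (4 : ℝ) ≤ JJ N := by
    have h := jj_K hn
    have hK := hK hn
    have : (10 : ℝ) ^ 9 ≤ (Real.log N) ^ 1000 := by
      calc (10 : ℝ) ^ 9 ≤ Real.log N := hK
        _ = (Real.log N) ^ 1 := (pow_one _).symm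
        _ ≤ (Real.log N) ^ 1000 := pow_le_pow_right₀ (by linarith [show (1:ℝ) ≤ 10 ^ 9 by norm_num]) (by norm_num)
    have h9 : (4 : ℝ) ≤ 10 ^ 9 := by norm_num
    linarith
  have h2 : 4 * (MM P N : ℝ) ^ 2 ≤ (JJ N : ℝ) ^ 10 * (MM P N : ℝ) ^ 10 := by
    have ha : (4 : ℝ) ≤ (JJ N : ℝ) ^ 10 := by
      calc (4 : ℝ) ≤ JJ N := hJ
        _ = (JJ N : ℝ) ^ 1 := (pow_one _).symm
        _ ≤ (JJ N : ℝ) ^ 10 := pow_le_pow_right₀ (by linarith) (by norm_num)
    have hb : (MM P N : ℝ) ^ 2 ≤ (MM P N : ℝ) ^ 10 := pow_le_pow_right₀ hM1 (by norm_num)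
    exact mul_le_mul ha hb (by positivity) (by positivity)
  have h3 : (N : ℝ) ^ (P.kap / 1000) ≤ (N : ℝ) ^ (P.kap / 8) := by
    apply Real.rpow_le_rpow_of_exponent_le hN1
    have := hP.kap0
    linarith
  have h4 : (l : ℝ) ≤ (N : ℝ) ^ (P.kap / 8) := by
    have := hn.pw
    linarith
  calc (l : ℝ) * (N : ℝ) ^ (1 - P.kap / 8) ≤ (N : ℝ) ^ (P.kap / 8) * (N : ℝ) ^ (1 - P.kap / 8) :=
        mul_le_mul_of_nonneg_right h4 (Real.rpow_nonneg hN0.le _)
    _ = (N : ℝ) ^ (P.kap / 8 + (1 - P.kap / 8)) := (Real.rpow_add hN0 _ _).symm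
    _ = N := by
        rw [show P.kap / 8 + (1 - P.kap / 8) = 1 by ring, Real.rpow_one]

/-- the interval of the `n` with `l n / N = q` -/
private theorem Clsu_div {l q n : ℕ} (hN : 0 < N) (hl : 0 < l) (hn : 0 < n) :
    l * n / N = q ↔ (q * N - 1) / l < n ∧ n ≤ ((q + 1) * N - 1) / l := by
  rw [Nat.div_lt_iff_lt_mul hl, Nat.le_div_iff_mul_le hl, Nat.div_eq_iff hN]
  have h1 : 0 < n * l := Nat.mul_pos hn hl
  have h2 : (q + 1) * N = q * N + N := by ring
  rw [h2, mul_comm l n]
  constructor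
  · rintro ⟨ha, hb⟩
    constructor <;> omega
  · rintro ⟨ha, hb⟩
    constructor <;> omega

private theorem Clsu_fix (hh : Hyp P N D Lk Bd A) {l : ℕ} (hl : Mul P N l) {j i : ℕ}
    (hj : D.J2 ≤ j) (hj' : j < D.J1) (hi : i < D.J0) :
    ∑ n ∈ Icc 1 (N - 1), NL P N D Lk Bd l ((l * n) % N + j * N) (n + i * N) ≤
      8 / JJ N * (rho D.BX * rho D.BY) * N := by
  classical
  have hn := hh.nx
  have hP := hh.hP
  have hN2 := N_two hn
  have hN : 0 < N := by omega
  have hl1 : 0 < l := (mul_facts hn hl).1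
  set t : ℕ → ℕ := fun q => (q * N - 1) / l with ht
  have htm : Monotone t := by
    intro a b hab
    apply Nat.div_le_div_right
    have : a * N ≤ b * N := Nat.mul_le_mul_right _ hab
    omega
  have hrX := Clsu_rho_nonneg D.BX
  have hrY := Clsu_rho_nonneg D.BY
  -- each interval
  have key : ∀ q ∈ range l, ∑ n ∈ Ioc (t q) (t (q + 1)),
      NL P N D Lk Bd l ((l * n) % N + j * N) (n + i * N) ≤
      4 / JJ N * (rho D.BX * rho D.BY * 1 * len P N 1 (t q) (t (q + 1))) := by
    intro q hq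
    have hq' : q < l := mem_range.mp hq
    have := hh.pin.m1 1 none 1 (tm_one hP hn) l hl (i : ℤ) ((j : ℤ) - q) (Or.inl ⟨rfl, rfl⟩)
      (fun n => (l * n) % N + j * N) (fun n => n + i * N) (t q) (t (q + 1)) (htm (Nat.le_succ q)) ?_
    · refine le_trans (le_of_eq ?_) this
      apply sum_congr rfl
      intro n _
      simp only [wt, one_mul]
    · intro n hnm
      rw [mem_Ioc] at hnm
      have hn0 : 0 < n := by omega
      have hdiv : l * n / N = q := (Clsu_div hN hl1 hn0).mpr hnm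
      have hnN : n < N := by
        have h1 : l * n < l * N := by
          have := Nat.div_lt_iff_lt_mul (x := l * n) (y := l) hN
          exact this.mp (by rw [hdiv]; exact hq')
        exact Nat.lt_of_mul_lt_mul_left h1
      have hmod : l * n % N + N * q = l * n := by
        rw [← hdiv]
        exact Nat.mod_add_div _ _
      have hval1 : ((l : ZMod N) * (n : ZMod N)).val = l * n % N := by
        rw [← Nat.cast_mul, ZMod.val_natCast]
      have hval2 : ((n : ZMod N)).val = n := by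
        rw [ZMod.val_natCast, Nat.mod_eq_of_lt hnN]
      have hxy := xy_lt hn hh.ok hl ((l : ZMod N) * (n : ZMod N)) (n : ZMod N) hj hi
      have hx := x_lt (D := D) ((l : ZMod N) * (n : ZMod N)) hj'
      rw [hval1] at hxy hx
      rw [hval2] at hxy
      refine ⟨?_, ?_, ?_, hxy, hx.le, ?_⟩
      · have h1 : ((l * n % N : ℕ) : ℤ) = (l : ℤ) * n - q * N := by
          have : ((l * n % N + N * q : ℕ) : ℤ) = ((l * n : ℕ) : ℤ) := by rw [hmod]
          push_cast at this
          push_cast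
          linarith
        simp only [Nat.cast_add, h1, Nat.cast_mul, Nat.cast_one]
        ring
      · push_cast
        ring
      · show 0 < n + i * N
        omega
      · have h1 := j1_pos hn hh.ok
        have : N ≤ D.J1 * N := Nat.le_mul_of_pos_left N h1
        omega
  -- partition
  have hmap : ∀ n ∈ Icc 1 (N - 1), l * n / N ∈ range l := by
    intro n hnm
    rw [mem_Icc] at hnm
    rw [mem_range, Nat.div_lt_iff_lt_mul hN]
    exact Nat.mul_lt_mul_of_pos_left (by omega) hl1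
  have hsum : ∑ n ∈ Icc 1 (N - 1), NL P N D Lk Bd l ((l * n) % N + j * N) (n + i * N) ≤
      ∑ q ∈ range l, ∑ n ∈ Ioc (t q) (t (q + 1)),
        NL P N D Lk Bd l ((l * n) % N + j * N) (n + i * N) := by
    rw [← sum_fiberwise_of_maps_to hmap]
    apply sum_le_sum
    intro q _
    apply sum_le_sum_of_subset_of_nonneg
    · intro n hnm
      rw [mem_filter, mem_Icc] at hnm
      rw [mem_Ioc]
      exact (Clsu_div hN hl1 (by omega)).mp hnm.2
    · intro n _ _
      exact Clsu_NL_nonneg _ _ _ _ _ _ _ _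
  have hJ : (0 : ℝ) < JJ N := by
    have := jj_one hn
    exact_mod_cast this
  have htele : ∑ q ∈ range l, len P N 1 (t q) (t (q + 1)) ≤ 2 * N := by
    unfold len
    rw [sum_add_distrib, sum_range_sub (fun q => ((t q : ℕ) : ℝ)), sum_const, card_range,
      nsmul_eq_mul]
    have h0 : t 0 = 0 := by
      simp only [ht, Nat.zero_mul, Nat.zero_sub, Nat.zero_div]
    have hL : ((t l : ℕ) : ℝ) ≤ N := by
      have : t l ≤ N := by
        simp only [ht]
        apply Nat.div_le_of_le_mul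
        omega
      exact_mod_cast this
    have herr := Clsu_err hP hn hl
    rw [h0, Nat.cast_zero, sub_zero, Nat.cast_one, div_one]
    linarith
  calc ∑ n ∈ Icc 1 (N - 1), NL P N D Lk Bd l ((l * n) % N + j * N) (n + i * N)
      ≤ ∑ q ∈ range l, ∑ n ∈ Ioc (t q) (t (q + 1)),
        NL P N D Lk Bd l ((l * n) % N + j * N) (n + i * N) := hsum
    _ ≤ ∑ q ∈ range l, 4 / JJ N * (rho D.BX * rho D.BY * 1 * len P N 1 (t q) (t (q + 1))) :=
        sum_le_sum key
    _ = 4 / JJ N * (rho D.BX * rho D.BY) * ∑ q ∈ range l, len P N 1 (t q) (t (q + 1)) := by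
        rw [mul_sum]
        apply sum_congr rfl
        intro q _
        ring
    _ ≤ 4 / JJ N * (rho D.BX * rho D.BY) * (2 * N) := by
        apply mul_le_mul_of_nonneg_left htele
        positivity
    _ = 8 / JJ N * (rho D.BX * rho D.BY) * N := by ring

open Classical in
theorem clsu (hh : Hyp P N D Lk Bd A) {l : ℕ} (hl : Mul P N l) :
    ∑ x ∈ (Finset.univ.filter fun x : ZMod N => IsUnit x), UU P N D Lk Bd l x ≤
      8 / JJ N * (D.J1 * rho D.BX) * (D.J0 * rho D.BY) * N := by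
  have hn := hh.nx
  have hN2 := N_two hn
  have hN : 0 < N := by omega
  have hrX := Clsu_rho_nonneg D.BX
  have hrY := Clsu_rho_nonneg D.BY
  have hJ : (0 : ℝ) < JJ N := by
    have := jj_one hn
    exact_mod_cast this
  have hN0 : (0 : ℝ) ≤ N := Nat.cast_nonneg _
  unfold UU
  rw [sum_comm]
  have h1 : ∀ j ∈ Ico D.J2 D.J1, ∑ x ∈ (Finset.univ.filter fun x : ZMod N => IsUnit x),
      ∑ i ∈ range D.J0, NL P N D Lk Bd l (((l : ZMod N) * x).val + j * N) (x.val + i * N) ≤
      D.J0 * (8 / JJ N * (rho D.BX * rho D.BY) * N) := by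
    intro j hj
    rw [mem_Ico] at hj
    rw [sum_comm]
    have h2 : ∀ i ∈ range D.J0, ∑ x ∈ (Finset.univ.filter fun x : ZMod N => IsUnit x),
        NL P N D Lk Bd l (((l : ZMod N) * x).val + j * N) (x.val + i * N) ≤
        8 / JJ N * (rho D.BX * rho D.BY) * N := by
      intro i hi
      refine le_trans ?_ (Clsu_fix hh hl hj.1 hj.2 (mem_range.mp hi))
      have h3 : ∑ x ∈ (Finset.univ.filter fun x : ZMod N => IsUnit x),
          NL P N D Lk Bd l (((l : ZMod N) * x).val + j * N) (x.val + i * N) =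
          ∑ n ∈ (Finset.univ.filter fun x : ZMod N => IsUnit x).image ZMod.val,
            NL P N D Lk Bd l ((l * n) % N + j * N) (n + i * N) := by
        rw [sum_image (fun a _ b _ hab => ZMod.val_injective N hab)]
        apply sum_congr rfl
        intro x _
        have : ((l : ZMod N) * x).val = (l * x.val) % N := by
          conv_lhs => rw [← ZMod.natCast_zmod_val x, ← Nat.cast_mul, ZMod.val_natCast]
        rw [this]
      rw [h3]
      apply sum_le_sum_of_subset_of_nonneg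
      · intro n hnm
        rw [mem_image] at hnm
        obtain ⟨x, hx, rfl⟩ := hnm
        rw [mem_filter] at hx
        have h4 := (unit_val hn hx.2).2
        have h5 := ZMod.val_lt x
        rw [mem_Icc]
        omega
      · intro n _ _
        exact Clsu_NL_nonneg _ _ _ _ _ _ _ _
    calc _ ≤ ∑ i ∈ range D.J0, 8 / JJ N * (rho D.BX * rho D.BY) * N := sum_le_sum h2
      _ = D.J0 * (8 / JJ N * (rho D.BX * rho D.BY) * N) := by
        rw [sum_const, card_range, nsmul_eq_mul]
  calc _ ≤ ∑ j ∈ Ico D.J2 D.J1, D.J0 * (8 / JJ N * (rho D.BX * rho D.BY) * N) := sum_le_sum h1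
    _ = ((D.J1 - D.J2 : ℕ) : ℝ) * (D.J0 * (8 / JJ N * (rho D.BX * rho D.BY) * N)) := by
        rw [sum_const, Nat.card_Ico, nsmul_eq_mul]
    _ ≤ (D.J1 : ℝ) * (D.J0 * (8 / JJ N * (rho D.BX * rho D.BY) * N)) := by
        apply mul_le_mul_of_nonneg_right
        · exact_mod_cast Nat.sub_le _ _
        · positivity
    _ = 8 / JJ N * (D.J1 * rho D.BX) * (D.J0 * rho D.BY) * N := by ring

end Pool.Agent.Lib.TCF
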