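import Pool.Agent.Lib.MP_7b7e48_nt.TCF.Uusum
import Pool.Agent.Lib.MP_7b7e48_nt.TCF.Maj
import Pool.Agent.Lib.MP_7b7e48_nt.TCF.Clsu

/-!
# Module Cls (60 minutes): atypical classes; `FF (l x) = - FF x`

PROOF of `cls`. `K = log N`, `n = x.val`, `M = J1 rho_X`, `M' = J0 rho_Y`. By `NumX.vm`: `VM ≥ 1000 / K`. If one condition of `Typ l x` fails:
(x1) `PX (l x) < M / K ^ 2` implies `PXr l n ≤ PX (l x) < VM M / 8` (`pxr_class`): counted by `Cnt.c1` (`l`, `v = 1`, `o = none`, interval `Ioc 0 (N - 1)` or `Ioc 0 N`; `tm_one`);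
(x2): `Cnt.c1` with `l = 1`; (y1): `Cnt.c2` (first alternative); (bs): if `Cnt.c2` does not count `n` then `PY x ≥ VM M' / 2`, and if `PairIn.bs` (`k1 = 1 / 40`) does
not count `n` then `20 BB t x ≤ 20 VM M' / 40 ≤ PY x`. (u1) if none of the previous ones: `UU l x > PX (l x) PY x / 40 ≥ (125 / K) (500 / K) M M' / 40 ≥ M M' / K ^ 2`;
Markov with `clsu`: at most `8 K ^ 2 N / JJ` classes. (u2): `l = 1`. Total `≤ (8 + 16 K ^ 2) N / JJ` (`len P N 1 0 N = N + N ^ (1 - kap / 8) ≤ 2 N`).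
`inv1x`: if `x ∉ A` and `Typ l x` then `FF (l x) = lam l FF x = - FF x` (`maj1`, `lam_PZ`; `l ∈ PZ` is `Mul`). So the count is `≤ cls + |A| ≤ (K ^ 12 + 1) N / JJ` (`Hyp.ac`).
-/

set_option autoImplicit false

open Finset

namespace Pool.Agent.Lib.TCF

open Pool.Agent.Lib.RG hiding RR sig Good
open Pool.Agent.Lib.RH
open Pool.Agent.Lib.MP_45349e_nt.LS (lam)

variable {P : Prm} {N : ℕ} [NeZero N] {D : Dat} {Lk : ℕ → ℕ → ℕ → ℕ → Prop} {Bd : ℕ → ℕ → Prop}
  {A : Finset (ZMod N)}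

private theorem Cls_typ (hh : Hyp P N D Lk Bd A) {l : ℕ} (hl : Mul P N l) {x : ZMod N}
    (h1 : VM P N * D.J1 * rho D.BX / 8 ≤ PXr P N D l x.val)
    (h2 : VM P N * D.J1 * rho D.BX / 8 ≤ PXr P N D 1 x.val)
    (h3 : VM P N * D.J0 * rho D.BY / 2 ≤ PY P N D x)
    (h4 : ∀ t ∈ TUP D.BX, BB P N D Bd t x ≤ 1 / 40 * (VM P N * D.J0 * rho D.BY))
    (h5 : UU P N D Lk Bd l x ≤ (D.J1 * rho D.BX) * (D.J0 * rho D.BY) / (Real.log N) ^ 2)
    (h6 : UU P N D Lk Bd 1 x ≤ (D.J1 * rho D.BX) * (D.J0 * rho D.BY) / (Real.log N) ^ 2) :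
    Typ P N D Lk Bd l x := by
  have hn := hh.nx
  have hD := hh.ok
  have hK9 : (10 : ℝ) ^ 9 ≤ Real.log N := hK hn
  have hK1 : (1 : ℝ) ≤ Real.log N := le_trans (by norm_num) hK9
  have hK0 : (0 : ℝ) < Real.log N := by linarith
  have hM := mr_pos_X hn hD
  have hM' := mr_pos_Y hn hD
  have hvm := hn.vm
  -- lower bounds
  have lowX : ∀ l', VM P N * D.J1 * rho D.BX / 8 ≤ PXr P N D l' x.val →
      125 * (D.J1 * rho D.BX) / Real.log N ≤ PX P N D ((l' : ZMod N) * x) := by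
    intro l' hl'
    have h := pxr_class (P := P) (N := N) (D := D) l' x
    have h7 : 1000 / Real.log N * (D.J1 * rho D.BX) ≤ VM P N * (D.J1 * rho D.BX) :=
      mul_le_mul_of_nonneg_right hvm hM.le
    have h8 : 125 * (D.J1 * rho D.BX) / Real.log N = 1000 / Real.log N * (D.J1 * rho D.BX) / 8 := by
      ring
    rw [h8]
    linarith
  have lowY : 500 * (D.J0 * rho D.BY) / Real.log N ≤ PY P N D x := by
    have h7 : 1000 / Real.log N * (D.J0 * rho D.BY) ≤ VM P N * (D.J0 * rho D.BY) :=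
      mul_le_mul_of_nonneg_right hvm hM'.le
    have h8 : 500 * (D.J0 * rho D.BY) / Real.log N = 1000 / Real.log N * (D.J0 * rho D.BY) / 2 := by
      ring
    rw [h8]
    linarith
  have weak : ∀ c m : ℝ, 1 ≤ c → 0 < m → m / (Real.log N) ^ 2 ≤ c * m / Real.log N := by
    intro c m hc hm
    rw [div_le_div_iff₀ (by positivity) hK0]
    have h9 : Real.log N ≤ (Real.log N) ^ 2 := by
      rw [pow_two]
      exact le_mul_of_one_le_left hK0.le hK1
    calc m * Real.log N ≤ m * (Real.log N) ^ 2 := mul_le_mul_of_nonneg_left h9 hm.le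
      _ ≤ c * m * (Real.log N) ^ 2 := by
          apply mul_le_mul_of_nonneg_right _ (by positivity)
          exact le_mul_of_one_le_left hm.le hc
  have lx1 := lowX l h1
  have lx2 := lowX 1 h2
  rw [Nat.cast_one, one_mul] at lx2
  have uu : ∀ l' : ℕ, 125 * (D.J1 * rho D.BX) / Real.log N ≤ PX P N D ((l' : ZMod N) * x) →
      UU P N D Lk Bd l' x ≤ (D.J1 * rho D.BX) * (D.J0 * rho D.BY) / (Real.log N) ^ 2 →
      40 * UU P N D Lk Bd l' x ≤ PX P N D ((l' : ZMod N) * x) * PY P N D x := by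
    intro l' hlow hU
    have h14 : (125 * (D.J1 * rho D.BX) / Real.log N) * (500 * (D.J0 * rho D.BY) / Real.log N) ≤
        PX P N D ((l' : ZMod N) * x) * PY P N D x :=
      mul_le_mul hlow lowY (by positivity) (le_trans (by positivity) hlow)
    have h15 : 62500 * ((D.J1 * rho D.BX) * (D.J0 * rho D.BY) / (Real.log N) ^ 2) =
        (125 * (D.J1 * rho D.BX) / Real.log N) * (500 * (D.J0 * rho D.BY) / Real.log N) := by
      ring
    have h16 : 0 < (D.J1 * rho D.BX) * (D.J0 * rho D.BY) / (Real.log N) ^ 2 := by positivity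
    linarith
  refine ⟨?_, ?_, ?_, ?_, uu l lx1 h5, ?_⟩
  · exact le_trans (weak 125 _ (by norm_num) hM) lx1
  · exact le_trans (weak 125 _ (by norm_num) hM) lx2
  · exact le_trans (weak 500 _ (by norm_num) hM') lowY
  · intro t ht
    have := h4 t ht
    linarith
  · have h17 := uu 1 (by rw [Nat.cast_one, one_mul]; exact lx2) h6
    rw [Nat.cast_one, one_mul] at h17
    exact h17

open Classical in
private theorem Cls_cnt (hn : NumX P N) (y0 : ℕ) (Q : ℕ → Prop) :
    (((Finset.univ : Finset (ZMod N)).filter fun x => IsUnit x ∧ Q x.val).card : ℝ) ≤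
      ∑ n ∈ (Ioc 0 N).filter (fun n : ℕ => n.Coprime N ∧ Q n), wt y0 none n := by
  have h1 : ∑ n ∈ (Ioc 0 N).filter (fun n : ℕ => n.Coprime N ∧ Q n), wt y0 none n =
      (((Ioc 0 N).filter (fun n : ℕ => n.Coprime N ∧ Q n)).card : ℝ) := by
    simp only [wt, sum_const, nsmul_eq_mul, mul_one]
  rw [h1]
  have h2 : ((Finset.univ : Finset (ZMod N)).filter fun x => IsUnit x ∧ Q x.val).card ≤
      ((Ioc 0 N).filter (fun n : ℕ => n.Coprime N ∧ Q n)).card := by
    apply card_le_card_of_injOn ZMod.val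
    · intro x hx
      rw [mem_coe, mem_filter] at hx
      have h3 := unit_val hn hx.2.1
      rw [mem_coe, mem_filter, mem_Ioc]
      exact ⟨⟨h3.2, (ZMod.val_lt x).le⟩, h3.1, hx.2.2⟩
    · intro x _ y _ hxy
      exact ZMod.val_injective N hxy
  exact_mod_cast h2

open Classical in
theorem cls (hh : Hyp P N D Lk Bd A) {l : ℕ} (hl : Mul P N l) :
    (((Finset.univ : Finset (ZMod N)).filter fun x => IsUnit x ∧ ¬ Typ P N D Lk Bd l x).card : ℝ) ≤
      (Real.log N) ^ 12 * N / JJ N := by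
  have hn := hh.nx
  have hD := hh.ok
  have hP := hh.hP
  have hN2 := N_two hn
  have hK9 : (10 : ℝ) ^ 9 ≤ Real.log N := hK hn
  have hK1 : (1 : ℝ) ≤ Real.log N := le_trans (by norm_num) hK9
  have hK0 : (0 : ℝ) < Real.log N := by linarith
  have hM := mr_pos_X hn hD
  have hM' := mr_pos_Y hn hD
  have hJ0 : (0 : ℝ) < JJ N := by
    have := jj_one hn
    exact_mod_cast this
  have hN0 : (0 : ℝ) < N := by
    have : (2 : ℝ) ≤ N := by exact_mod_cast hN2
    linarith
  have hN1 : (1 : ℝ) ≤ N := by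
    have : (2 : ℝ) ≤ N := by exact_mod_cast hN2
    linarith
  have hb : 1 * N ≤ D.J1 * N := Nat.mul_le_mul_right _ (j1_pos hn hD)
  have htm := tm_one (P := P) (N := N) hP hn
  have hlen : len P N 1 0 N ≤ 2 * N := by
    unfold len
    have h1 : (N : ℝ) ^ (1 - P.kap / 8) ≤ N := by
      calc (N : ℝ) ^ (1 - P.kap / 8) ≤ (N : ℝ) ^ (1 : ℝ) := by
            apply Real.rpow_le_rpow_of_exponent_le hN1
            have := hP.kap0
            linarith
        _ = N := Real.rpow_one _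
    simp only [Nat.cast_zero, Nat.cast_one, div_one, sub_zero]
    linarith
  have hE : (1 : ℝ) / JJ N * len P N 1 0 N ≤ 2 * N / JJ N := by
    calc (1 : ℝ) / JJ N * len P N 1 0 N ≤ 1 / JJ N * (2 * N) :=
          mul_le_mul_of_nonneg_left hlen (by positivity)
      _ = 2 * N / JJ N := by ring
  have c1 := (hh.cnt.c1 1 none 1 htm l hl 0 N (Nat.zero_le _) hb).trans hE
  have c2 := (hh.cnt.c1 1 none 1 htm 1 (Or.inl rfl) 0 N (Nat.zero_le _) hb).trans hE
  have c3 := (hh.cnt.c2 1 none 1 htm 0 N (Nat.zero_le _) hb (Or.inl ⟨rfl, rfl⟩)).trans hE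
  have c4 := (hh.pin.bs 1 none 1 htm 0 N (Nat.zero_le _) hb (Or.inl ⟨rfl, rfl⟩)).trans hE
  simp only [one_mul] at c1 c2 c3 c4
  set T := (D.J1 * rho D.BX) * (D.J0 * rho D.BY) / (Real.log N) ^ 2 with hT
  have hT0 : 0 < T := by positivity
  have mk : ∀ l', Mul P N l' →
      ((((Finset.univ : Finset (ZMod N)).filter fun x => IsUnit x).filter fun x =>
        T ≤ UU P N D Lk Bd l' x).card : ℝ) ≤ 8 * (Real.log N) ^ 2 * N / JJ N := by
    intro l' hl'
    have h := clsu hh hl'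
    have h1 : T * ((((Finset.univ : Finset (ZMod N)).filter fun x => IsUnit x).filter fun x =>
        T ≤ UU P N D Lk Bd l' x).card : ℝ) ≤
        8 / JJ N * (D.J1 * rho D.BX) * (D.J0 * rho D.BY) * N := by
      refine le_trans ?_ h
      refine le_trans ?_ (sum_le_sum_of_subset_of_nonneg
        (filter_subset (fun x => T ≤ UU P N D Lk Bd l' x) _) ?_)
      · rw [mul_comm, ← nsmul_eq_mul]
        apply card_nsmul_le_sum
        intro x hx
        rw [mem_filter] at hx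
        exact hx.2
      · intro x _ _
        exact uu_nonneg _ _
    have h2 : 8 / JJ N * (D.J1 * rho D.BX) * (D.J0 * rho D.BY) * N =
        T * (8 * (Real.log N) ^ 2 * N / JJ N) := by
      rw [hT]
      field_simp
    rw [h2] at h1
    exact le_of_mul_le_mul_left h1 hT0
  have m5 := mk l hl
  have m6 := mk 1 (Or.inl rfl)
  have n1 := (Cls_cnt (P := P) (N := N) hn D.y0
    (fun n => PXr P N D l n < VM P N * D.J1 * rho D.BX / 8)).trans c1
  have n2 := (Cls_cnt (P := P) (N := N) hn D.y0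
    (fun n => PXr P N D 1 n < VM P N * D.J1 * rho D.BX / 8)).trans c2
  have n3 := (Cls_cnt (P := P) (N := N) hn D.y0
    (fun n => PY P N D ((n : ℕ) : ZMod N) < VM P N * D.J0 * rho D.BY / 2)).trans c3
  obtain ⟨Q4, hQ4⟩ : ∃ Q : ℕ → Prop, Q = fun n => ∃ t ∈ TUP D.BX,
      1 / 40 * (VM P N * D.J0 * rho D.BY) < BB P N D Bd t ((n : ℕ) : ZMod N) := ⟨_, rfl⟩
  have n4 := (Cls_cnt (P := P) (N := N) hn D.y0 Q4).trans (le_trans (le_of_eq (sum_congr
    (by ext n; rw [mem_filter, mem_filter, hQ4]) (fun _ _ => rfl))) c4)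
  set S1 := (Finset.univ : Finset (ZMod N)).filter fun x => IsUnit x ∧
    PXr P N D l x.val < VM P N * D.J1 * rho D.BX / 8
  set S2 := (Finset.univ : Finset (ZMod N)).filter fun x => IsUnit x ∧
    PXr P N D 1 x.val < VM P N * D.J1 * rho D.BX / 8
  set S3 := (Finset.univ : Finset (ZMod N)).filter fun x => IsUnit x ∧
    PY P N D ((x.val : ℕ) : ZMod N) < VM P N * D.J0 * rho D.BY / 2
  set S4 := (Finset.univ : Finset (ZMod N)).filter fun x => IsUnit x ∧ Q4 x.val
  set S5 := ((Finset.univ : Finset (ZMod N)).filter fun x => IsUnit x).filter fun x =>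
        T ≤ UU P N D Lk Bd l x
  set S6 := ((Finset.univ : Finset (ZMod N)).filter fun x => IsUnit x).filter fun x =>
        T ≤ UU P N D Lk Bd 1 x
  have hsub : ((Finset.univ : Finset (ZMod N)).filter fun x => IsUnit x ∧
      ¬ Typ P N D Lk Bd l x) ⊆ S1 ∪ (S2 ∪ (S3 ∪ (S4 ∪ (S5 ∪ S6)))) := by
    intro x hx
    rw [mem_filter] at hx
    obtain ⟨_, hu, htyp⟩ := hx
    by_contra hcon
    rw [mem_union, mem_union, mem_union, mem_union, mem_union] at hcon
    push Not at hcon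
    obtain ⟨g1, g2, g3, g4, g5, g6⟩ := hcon
    apply htyp
    have hmu : x ∈ ((Finset.univ : Finset (ZMod N)).filter fun x => IsUnit x) :=
      mem_filter.mpr ⟨mem_univ _, hu⟩
    have hcast : ((x.val : ℕ) : ZMod N) = x := ZMod.natCast_zmod_val x
    have e1' : ¬ PXr P N D l x.val < VM P N * D.J1 * rho D.BX / 8 := fun h =>
      g1 (mem_filter.mpr ⟨mem_univ _, hu, h⟩)
    have e2' : ¬ PXr P N D 1 x.val < VM P N * D.J1 * rho D.BX / 8 := fun h =>
      g2 (mem_filter.mpr ⟨mem_univ _, hu, h⟩)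
    have e3' : ¬ PY P N D x < VM P N * D.J0 * rho D.BY / 2 := fun h =>
      g3 (mem_filter.mpr ⟨mem_univ _, hu, by rw [hcast]; exact h⟩)
    have e4' : ∀ t ∈ TUP D.BX, ¬ 1 / 40 * (VM P N * D.J0 * rho D.BY) <
        BB P N D Bd t x := fun t ht h =>
      g4 (mem_filter.mpr ⟨mem_univ _, hu, by rw [hQ4]; exact ⟨t, ht, by rw [hcast]; exact h⟩⟩)
    have e5' : ¬ T ≤ UU P N D Lk Bd l x := fun h => g5 (mem_filter.mpr ⟨hmu, h⟩)
    have e6' : ¬ T ≤ UU P N D Lk Bd 1 x := fun h => g6 (mem_filter.mpr ⟨hmu, h⟩)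
    exact Cls_typ hh hl (not_lt.mp e1') (not_lt.mp e2') (not_lt.mp e3')
      (fun t ht => not_lt.mp (e4' t ht)) (not_le.mp e5').le (not_le.mp e6').le
  have hcard : (((Finset.univ : Finset (ZMod N)).filter fun x => IsUnit x ∧
      ¬ Typ P N D Lk Bd l x).card : ℝ) ≤ S1.card + (S2.card + (S3.card + (S4.card +
      (S5.card + S6.card)))) := by
    have h1 := card_le_card hsub
    have h2 := card_union_le S1 (S2 ∪ (S3 ∪ (S4 ∪ (S5 ∪ S6))))
    have h3 := card_union_le S2 (S3 ∪ (S4 ∪ (S5 ∪ S6)))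
    have h4 := card_union_le S3 (S4 ∪ (S5 ∪ S6))
    have h5 := card_union_le S4 (S5 ∪ S6)
    have h6 := card_union_le S5 S6
    have h7 : ((Finset.univ : Finset (ZMod N)).filter fun x => IsUnit x ∧
      ¬ Typ P N D Lk Bd l x).card ≤ S1.card + (S2.card + (S3.card + (S4.card +
      (S5.card + S6.card)))) := by omega
    exact_mod_cast h7
  have hfin : 4 * (2 * N / JJ N) + 2 * (8 * (Real.log N) ^ 2 * N / JJ N) ≤
      (Real.log N) ^ 12 * N / JJ N := by
    have h1 : 8 + 16 * (Real.log N) ^ 2 ≤ (Real.log N) ^ 12 := by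
      have h2 : (1 : ℝ) ≤ (Real.log N) ^ 2 := one_le_pow₀ hK1
      have h3 : (24 : ℝ) ≤ (Real.log N) ^ 10 := by
        calc (24 : ℝ) ≤ Real.log N := le_trans (by norm_num) hK9
          _ = (Real.log N) ^ 1 := (pow_one _).symm
          _ ≤ (Real.log N) ^ 10 := pow_le_pow_right₀ hK1 (by norm_num)
      have h4 : (Real.log N) ^ 12 = (Real.log N) ^ 10 * (Real.log N) ^ 2 := by ring
      rw [h4]
      have h5 : 24 * (Real.log N) ^ 2 ≤ (Real.log N) ^ 10 * (Real.log N) ^ 2 :=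
        mul_le_mul_of_nonneg_right h3 (by positivity)
      linarith
    have h6 : 4 * (2 * N / JJ N) + 2 * (8 * (Real.log N) ^ 2 * N / JJ N) =
        (8 + 16 * (Real.log N) ^ 2) * N / JJ N := by ring
    rw [h6]
    apply div_le_div_of_nonneg_right _ hJ0.le
    exact mul_le_mul_of_nonneg_right h1 hN0.le
  linarith

open Classical in
theorem inv1x (hh : Hyp P N D Lk Bd A) {l : ℕ} (hl : l ∈ PZ N (MM P N)) :
    (((Finset.univ : Finset (ZMod N)).filter fun x => IsUnit x ∧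
      FF P N D ((l : ZMod N) * x) ≠ - FF P N D x).card : ℝ) ≤ (Real.log N) ^ 13 * N / JJ N := by
  have hn := hh.nx
  have hmul : Mul P N l := Or.inr hl
  have hN2 := N_two hn
  have hK9 : (10 : ℝ) ^ 9 ≤ Real.log N := hK hn
  have hK1 : (1 : ℝ) ≤ Real.log N := le_trans (by norm_num) hK9
  have hN0 : (0 : ℝ) ≤ N := Nat.cast_nonneg _
  have hJ1 : (1 : ℝ) ≤ JJ N := by
    have := jj_one hn
    exact_mod_cast this
  have hJ0 : (0 : ℝ) < JJ N := by linarith
  have hc := cls hh hmul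
  have hsub : ((Finset.univ : Finset (ZMod N)).filter fun x => IsUnit x ∧
      FF P N D ((l : ZMod N) * x) ≠ - FF P N D x) ⊆
      ((Finset.univ : Finset (ZMod N)).filter fun x => IsUnit x ∧
        ¬ Typ P N D Lk Bd l x) ∪ A := by
    intro x hx
    rw [mem_filter] at hx
    obtain ⟨_, hu, hne⟩ := hx
    rw [mem_union, mem_filter]
    by_contra hcon
    push Not at hcon
    obtain ⟨g1, g2⟩ := hcon
    have htyp := g1 (mem_univ _) hu
    apply hne
    rw [maj1 hh hmul hu g2 htyp, lam_PZ hl]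
    ring
  have h1 : (((Finset.univ : Finset (ZMod N)).filter fun x => IsUnit x ∧
      FF P N D ((l : ZMod N) * x) ≠ - FF P N D x).card : ℝ) ≤
      (((Finset.univ : Finset (ZMod N)).filter fun x => IsUnit x ∧
        ¬ Typ P N D Lk Bd l x).card : ℝ) + A.card := by
    have h2 := (card_le_card hsub).trans (card_union_le _ _)
    exact_mod_cast h2
  have h3 : (A.card : ℝ) ≤ N / JJ N := by
    refine hh.ac.trans ?_
    apply div_le_div_of_nonneg_left hN0 hJ0
    rw [pow_two]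
    exact le_mul_of_one_le_left hJ0.le hJ1
  have h4 : (Real.log N) ^ 12 * N / JJ N + N / JJ N ≤ (Real.log N) ^ 13 * N / JJ N := by
    rw [← add_div]
    apply div_le_div_of_nonneg_right _ hJ0.le
    have h5 : (Real.log N) ^ 12 + 1 ≤ (Real.log N) ^ 13 := by
      have h6 : (1 : ℝ) ≤ (Real.log N) ^ 12 := one_le_pow₀ hK1
      have h7 : (Real.log N) ^ 13 = Real.log N * (Real.log N) ^ 12 := by ring
      rw [h7]
      have h8 : 2 * (Real.log N) ^ 12 ≤ Real.log N * (Real.log N) ^ 12 :=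
        mul_le_mul_of_nonneg_right (le_trans (by norm_num) hK9) (by positivity)
      linarith
    calc (Real.log N) ^ 12 * N + N = ((Real.log N) ^ 12 + 1) * N := by ring
      _ ≤ (Real.log N) ^ 13 * N := mul_le_mul_of_nonneg_right h5 hN0
  linarith

end Pool.Agent.Lib.TCF
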