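import Pool.Agent.Lib.MP_7b7e48_nt.TCF.Siz

/-!
# Module Sub (75 minutes): removal of a few structure primes

`Q` a set with `∑_c ∑_{p ∈ BX c ∩ Q} 1/p ≤ 1 / K ^ 10`, `K = log N`, `V_c = ∑_{BX c} 1/p ≥ 2 / K ^ 3` (`Base.lx`), `V'_c = V_c - δ_c`, `∑ δ_c ≤ 1 / K ^ 10`.
PROOF of `subx`: `V'_c ≥ 2 / K ^ 3 - 1 / K ^ 10 ≥ 1 / K ^ 3` (`lo`); `up`, `tot`, `nle`, `pr`, `disj`, `tup` are inherited (smaller sets; `TUP` is smaller, `tup_mono`). `rho' = ∏ (V_c - δ_c) =
∏ V_c ∏ (1 - δ_c / V_c) ≥ rho (1 - ∑ δ_c / V_c) ≥ rho (1 - K ^ 3 / (2 K ^ 10)) ≥ rho / 2` (`Finset.prod_one_sub_ge_one_sub_sum`-type induction, or `prod_add_prod_le`...). `jx`: `J1 rho' ≥ J1 rho / 2 ≥ JJ ^ 4 / 2 ≥ JJ ^ 3`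
(`Base.jx`). The second family and `J0, J1, J2, y0` are unchanged.
`subx_pin`: for the smaller family `NL`, `NLt` are smaller (fewer `t`; the `Y`-family is the same), the sets of `t` in `m3`, `bs`, `rel` are smaller, `rho D.BX ≤ 2 rho D'.BX`, so the constants `1 → 2 ≤ 4`; `bs`: the
condition with `1 / 40` implies the one with `1 / 80` (`VM J0 rho_Y ≥ 0`). `wt ≥ 0` is needed in `m1`, `m3`, `bs` (`wt_nonneg`). `pin_weak`: the same with equal families. `J0, J1, J2, y0` of `D.delX Q` are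
those of `D` (`rfl`).
-/

set_option autoImplicit false

open Finset

namespace Pool.Agent.Lib.TCF

open Pool.Agent.Lib.RG hiding RR sig Good
open Pool.Agent.Lib.RH
open Pool.Agent.Lib.MP_45349e_nt.LS (lam)

variable {P : Prm} {N : ℕ} [NeZero N] {D : Dat} {Lk : ℕ → ℕ → ℕ → ℕ → Prop} {Bd : ℕ → ℕ → Prop}
  {A : Finset (ZMod N)}

private theorem sub_prod {n : ℕ} (x : Fin n → ℝ) (h0 : ∀ c, 0 ≤ x c) (h1 : ∀ c, x c ≤ 1) (s : Finset (Fin n)) :
    1 - ∑ c ∈ s, x c ≤ ∏ c ∈ s, (1 - x c) ∧ ∏ c ∈ s, (1 - x c) ≤ 1 := by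
  classical
  induction s using Finset.induction_on with
  | empty => simp
  | insert a s ha ih =>
    rw [sum_insert ha, prod_insert ha]
    have hp : 0 ≤ ∏ c ∈ s, (1 - x c) := prod_nonneg fun c _ => by linarith [h1 c]
    have hx0 := h0 a
    have hx1 := h1 a
    constructor <;> nlinarith [ih.1, ih.2]

private theorem sub_tup {n : ℕ} (B : Fin n → Finset ℕ) (Q : Finset ℕ) :
    TUP (fun c => B c \ Q) ⊆ TUP B := by
  unfold TUP
  refine Finset.image_subset_image ?_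
  refine Fintype.piFinset_subset _ _ ?_
  intro c
  exact Finset.sdiff_subset

private theorem sub_jj (hn : NumX P N) : (2 : ℝ) ≤ JJ N := by
  have h1 : (10 : ℝ) ^ 9 ≤ Real.log N := hn.num.K
  have h2 := hn.num.J1
  have h3 : Real.log N ≤ (Real.log N) ^ 1000 := le_self_pow₀ (by linarith) (by norm_num)
  linarith

private theorem sub_rho_nonneg {n : ℕ} (B : Fin n → Finset ℕ) : 0 ≤ rho B := by
  unfold rho
  exact prod_nonneg fun c _ => sum_nonneg fun p _ => by positivity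

open Classical in
theorem subx (hn : NumX P N) (hb : Base P N D) (Q : Finset ℕ)
    (hQ : ∑ c, ∑ p ∈ D.BX c ∩ Q, 1 / (p : ℝ) ≤ 1 / (Real.log N) ^ 10) :
    (D.delX Q).Ok P N ∧ rho D.BX ≤ 2 * rho (D.delX Q).BX := by
  have hK : (10 : ℝ) ^ 9 ≤ Real.log N := hn.num.K
  set K : ℝ := Real.log N with hKdef
  have hK0 : 0 < K := by linarith
  have hK1 : 1 ≤ K := by linarith
  set V : Fin D.nX → ℝ := fun c => ∑ p ∈ D.BX c, 1 / (p : ℝ) with hV
  set dl : Fin D.nX → ℝ := fun c => ∑ p ∈ D.BX c ∩ Q, 1 / (p : ℝ) with hdl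
  have hsplit : ∀ c, ∑ p ∈ D.BX c \ Q, 1 / (p : ℝ) = V c - dl c := by
    intro c
    have h := Finset.sum_inter_add_sum_sdiff (D.BX c) Q (fun p : ℕ => 1 / (p : ℝ))
    rw [hV, hdl]
    simp only
    linarith
  have hdl0 : ∀ c, 0 ≤ dl c := fun c => sum_nonneg fun p _ => by positivity
  have hdl1 : ∀ c, dl c ≤ 1 / K ^ 10 := by
    intro c
    refine le_trans ?_ hQ
    exact Finset.single_le_sum (f := dl) (fun c _ => hdl0 c) (Finset.mem_univ c)
  have hVl : ∀ c, 2 / K ^ 3 ≤ V c := hb.lx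
  have hK3 : 0 < K ^ 3 := pow_pos hK0 _
  have hK10 : 0 < K ^ 10 := pow_pos hK0 _
  have hK310 : 1 / K ^ 10 ≤ 1 / K ^ 3 := by
    apply one_div_le_one_div_of_le hK3
    exact pow_le_pow_right₀ hK1 (by norm_num)
  have h23 : 2 / K ^ 3 = 1 / K ^ 3 + 1 / K ^ 3 := by ring
  have hVpos : ∀ c, 0 < V c := fun c => lt_of_lt_of_le (by positivity) (hVl c)
  -- the product
  have hrho : rho D.BX ≤ 2 * rho (D.delX Q).BX := by
    have e1 : rho D.BX = ∏ c, V c := rfl
    have e2 : rho (D.delX Q).BX = ∏ c, (V c - dl c) := by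
      unfold rho
      refine Finset.prod_congr rfl fun c _ => ?_
      exact hsplit c
    have e3 : ∏ c, (V c - dl c) = (∏ c, V c) * ∏ c, (1 - dl c / V c) := by
      rw [← Finset.prod_mul_distrib]
      refine Finset.prod_congr rfl fun c _ => ?_
      have := (hVpos c).ne'
      field_simp
    have hx1 : ∀ c, dl c / V c ≤ 1 := by
      intro c
      rw [div_le_one (hVpos c)]
      linarith [hdl1 c, hVl c, (by positivity : (0 : ℝ) < 1 / K ^ 3)]
    have hx0 : ∀ c, 0 ≤ dl c / V c := fun c => div_nonneg (hdl0 c) (hVpos c).le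
    have h1 := (sub_prod (fun c => dl c / V c) hx0 hx1 Finset.univ).1
    have h2 : ∑ c, dl c / V c ≤ 1 / 2 := by
      have h3 : ∀ c, dl c / V c ≤ dl c * (K ^ 3 / 2) := by
        intro c
        rw [div_eq_mul_inv]
        refine mul_le_mul_of_nonneg_left ?_ (hdl0 c)
        have h4 := inv_anti₀ (by positivity) (hVl c)
        rwa [inv_div] at h4
      calc ∑ c, dl c / V c ≤ ∑ c, dl c * (K ^ 3 / 2) := Finset.sum_le_sum fun c _ => h3 c
        _ = (∑ c, dl c) * (K ^ 3 / 2) := by rw [Finset.sum_mul]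
        _ ≤ 1 / K ^ 10 * (K ^ 3 / 2) := mul_le_mul_of_nonneg_right hQ (by positivity)
        _ ≤ 1 / K ^ 3 * (K ^ 3 / 2) := mul_le_mul_of_nonneg_right hK310 (by positivity)
        _ = 1 / 2 := by field_simp
    have hP : 0 < ∏ c, V c := prod_pos fun c _ => hVpos c
    rw [e1, e2, e3]
    nlinarith
  have hmono : ∀ c, ∑ p ∈ D.BX c \ Q, 1 / (p : ℝ) ≤ ∑ p ∈ D.BX c, 1 / (p : ℝ) := by
    intro c
    exact Finset.sum_le_sum_of_subset_of_nonneg Finset.sdiff_subset (fun p _ _ => by positivity)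
  refine ⟨⟨⟨hb.ok.fx.pos, ?_, ?_, ?_, ?_, ?_, hb.ok.fx.nle, ?_⟩, hb.ok.fy, hb.ok.y1, hb.ok.y2, hb.ok.j0,
    hb.ok.j02, hb.ok.j21, hb.ok.jy, ?_⟩, hrho⟩
  · intro c p hp
    exact hb.ok.fx.pr c p (Finset.sdiff_subset hp)
  · intro c c' hcc
    exact Finset.disjoint_of_subset_left Finset.sdiff_subset
      (Finset.disjoint_of_subset_right Finset.sdiff_subset (hb.ok.fx.disj c c' hcc))
  · intro c
    show 1 / K ^ 3 ≤ ∑ p ∈ D.BX c \ Q, 1 / (p : ℝ)
    rw [hsplit c]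
    linarith [hdl1 c, hVl c]
  · intro c
    exact (hmono c).trans (hb.ok.fx.up c)
  · refine le_trans ?_ hb.ok.fx.tot
    refine Finset.prod_le_prod (fun c _ => ?_) (fun c _ => ?_)
    · have : 0 ≤ ∑ p ∈ (D.delX Q).BX c, 1 / (p : ℝ) := sum_nonneg fun p _ => by positivity
      linarith
    · have := hmono c
      show 1 + ∑ p ∈ D.BX c \ Q, 1 / (p : ℝ) ≤ 1 + ∑ p ∈ D.BX c, 1 / (p : ℝ)
      linarith
  · intro m hm
    exact hb.ok.fx.tup m (sub_tup D.BX Q hm)
  · show (JJ N : ℝ) ^ 3 ≤ D.J1 * rho (D.delX Q).BX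
    have h1 := hb.jx
    have h2 := sub_jj hn
    have h3 : (D.J1 : ℝ) * rho D.BX ≤ D.J1 * (2 * rho (D.delX Q).BX) := mul_le_mul_of_nonneg_left hrho (by positivity)
    have h4 : (0 : ℝ) ≤ (JJ N : ℝ) ^ 3 := by positivity
    nlinarith

theorem subx_pin (hn : NumX P N) (hb : Base P N D) (Q : Finset ℕ)
    (hr : rho D.BX ≤ 2 * rho (D.delX Q).BX) (h : PairIn P N D Lk Bd 1 (1 / 80)) :
    PairIn P N (D.delX Q) Lk Bd 4 (1 / 40) := by
  classical
  have hJ := sub_jj hn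
  have hJ0 : (0 : ℝ) < JJ N := by linarith
  have hry := sub_rho_nonneg D.BY
  have hrx := sub_rho_nonneg (D.delX Q).BX
  have hsub : TUP (D.delX Q).BX ⊆ TUP D.BX := sub_tup D.BX Q
  have hNLt : ∀ X t Y, 0 ≤ NLt P N D Lk Bd X t Y := by
    intro X t Y
    unfold NLt
    split_ifs
    · positivity
    · exact le_refl _
  have hNL : ∀ l X Y, NL P N (D.delX Q) Lk Bd l X Y ≤ NL P N D Lk Bd l X Y := by
    intro l X Y
    unfold NL
    split_ifs
    · exact Finset.sum_le_sum_of_subset_of_nonneg (Finset.filter_subset_filter _ hsub) (fun _ _ _ => by positivity)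
    · exact le_refl _
  -- comparison of the bounds
  have hbd : ∀ T : ℝ, 0 ≤ T → 1 / (JJ N : ℝ) * (rho D.BX * rho D.BY * T) ≤
      4 / JJ N * (rho (D.delX Q).BX * rho D.BY * T) := by
    intro T hT
    have h1 : rho D.BX * rho D.BY * T ≤ (2 * rho (D.delX Q).BX) * rho D.BY * T :=
      mul_le_mul_of_nonneg_right (mul_le_mul_of_nonneg_right hr hry) hT
    have h2 : 0 ≤ rho (D.delX Q).BX * rho D.BY * T := by positivity
    have h3 : 4 / (JJ N : ℝ) * (rho (D.delX Q).BX * rho D.BY * T) = 1 / (JJ N : ℝ) * (4 * (rho (D.delX Q).BX * rho D.BY * T)) := by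
      ring
    rw [h3]
    refine mul_le_mul_of_nonneg_left ?_ (by positivity)
    linarith
  have hNp : (0 : ℝ) ≤ (N : ℝ) ^ (1 - P.kap / 8) := by positivity
  refine ⟨?_, ?_, ?_⟩
  · intro v o L hm l hl c c' hcc X Y a b hab hXY
    have h1 := h.m1 v o L hm l hl c c' hcc X Y a b hab hXY
    have hL := tm_L_pos hn hm
    have hlen : 0 ≤ len P N v a b := by
      unfold len
      have : (a : ℝ) ≤ b := by exact_mod_cast hab
      have h5 : 0 ≤ (N : ℝ) ^ (1 - P.kap / 8) / v := by positivity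
      linarith
    have h2 : 1 / (JJ N : ℝ) * (rho D.BX * rho D.BY * L * len P N v a b) ≤
        4 / JJ N * (rho (D.delX Q).BX * rho D.BY * L * len P N v a b) := by
      have h3 := hbd (L * len P N v a b) (by positivity)
      linarith [h3]
    refine le_trans ?_ (h1.trans h2)
    refine Finset.sum_le_sum fun n _ => ?_
    exact mul_le_mul_of_nonneg_left (hNL l (X n) (Y n)) (wt_nonneg hm _ _)
  · intro v o L hm d a b hd hda hab hb' hJJ
    have h1 := h.m3 v o L hm d a b hd hda hab hb' hJJ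
    have hL := tm_L_pos hn hm
    have hlen : 0 ≤ (b : ℝ) - a + (N : ℝ) ^ (1 - P.kap / 8) := by
      have : (a : ℝ) ≤ b := by exact_mod_cast hab
      linarith
    have h2 : 1 / (JJ N : ℝ) * (rho D.BX * rho D.BY * (L / v) * ((b : ℝ) - a + (N : ℝ) ^ (1 - P.kap / 8))) ≤
        4 / JJ N * (rho (D.delX Q).BX * rho D.BY * (L / v) * ((b : ℝ) - a + (N : ℝ) ^ (1 - P.kap / 8))) := by
      have h3 := hbd (L / v * ((b : ℝ) - a + (N : ℝ) ^ (1 - P.kap / 8))) (by positivity)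
      linarith [h3]
    refine le_trans ?_ (h1.trans h2)
    refine Finset.sum_le_sum_of_subset_of_nonneg hsub ?_
    intro t _ _
    refine Finset.sum_nonneg fun n _ => ?_
    exact mul_nonneg (wt_nonneg hm _ _) (hNLt _ _ _)
  · intro v o L hm a b hab hvb hor
    have h1 := h.bs v o L hm a b hab hvb hor
    refine le_trans ?_ h1
    refine Finset.sum_le_sum_of_subset_of_nonneg ?_ (fun n _ _ => wt_nonneg hm _ _)
    intro n hn'
    rw [mem_filter] at hn' ⊢
    obtain ⟨hn1, hn2, t, ht, hlt⟩ := hn'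
    refine ⟨hn1, hn2, t, hsub ht, lt_of_le_of_lt ?_ hlt⟩
    have hv : 0 ≤ VM P N * D.J0 * rho D.BY := by
      have := (vm_pos hn).le
      positivity
    show 1 / 80 * (VM P N * D.J0 * rho D.BY) ≤ 1 / 40 * (VM P N * D.J0 * rho D.BY)
    nlinarith

theorem pin_weak (hn : NumX P N) (hb : Base P N D) (h : PairIn P N D Lk Bd 1 (1 / 80)) :
    PairIn P N D Lk Bd 4 (1 / 40) := by
  have he : D.delX ∅ = D := by
    cases D
    simp [Dat.delX]
  have hr : rho D.BX ≤ 2 * rho (D.delX ∅).BX := by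
    rw [he]
    linarith [sub_rho_nonneg D.BX]
  have h1 := subx_pin hn hb ∅ hr h
  rwa [he] at h1

end Pool.Agent.Lib.TCF
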