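import Pool.Agent.Lib.MP_7b7e48_nt.TCF.Ufx
import Pool.Agent.Lib.MP_7b7e48_nt.TCF.Chx
import Pool.Agent.Lib.MP_7b7e48_nt.TCF.Qsm
import Pool.Agent.Lib.MP_7b7e48_nt.TCF.Sub
import Pool.Agent.Lib.MP_7b7e48_nt.TCF.Fq
import Pool.Agent.Lib.MP_7b7e48_nt.TCF.Betax
import Pool.Agent.Lib.MP_7b7e48_nt.TCF.Sgl
import Pool.Agent.Lib.MP_7b7e48_nt.TCF.Apx
import Pool.Agent.Lib.MP_7b7e48_nt.RG.CHR1

/-!
# Module Env (75 minutes): the environment

PROOF. `hh : Hyp P N D ..` (`pin_weak`, `apx`). `ufx` gives `χ` and `Blk`, `RH.chr1` (for `f = FF`, `ff_zero`, `ff_pm`) gives `χ ^ 2 = 1`, `β`, `FF D = β χ` off `K ^ 100 N / J` units; `chx`: `χ ≠ 1`, `χ = - 1` on `PZ`. Put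
`Q = QS P χ`, `D' = D.delX Q`. `qs_str`, `subx`: `D'.Ok`, `subx_pin`: `PairIn` for `D'`; `Cnt P N D'` and `MassX P N D'` by hypothesis: `Hyp P N D' ..`. `fq`: `FF D' = FF D` off `K ^ 13 N / J`, so `FF D' = β χ` off `K ^ 101 N / J`;
`fx_del`; `betax` for `D'`: `β = 1`. `agree` follows (`K ^ 101 ≤ K ^ 102`). `lv`, `ac`: `sgl` (`PairIn.ac`).
-/

set_option autoImplicit false

open Finset

namespace Pool.Agent.Lib.TCF

open Pool.Agent.Lib.RG hiding RR sig Good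
open Pool.Agent.Lib.RH
open Pool.Agent.Lib.MP_45349e_nt.LS (lam)

variable {P : Prm} {N : ℕ} [NeZero N] {D : Dat} {Lk : ℕ → ℕ → ℕ → ℕ → Prop} {Bd : ℕ → ℕ → Prop}

theorem env_exists (hP : P.Ok) (hn : NumX P N) (hb : Base P N D)
    (hC : ∀ D' : Dat, D'.Ok P N → Cnt P N D') (hM : ∀ D' : Dat, D'.Ok P N → MassX P N D')
    (hS : ∀ χ : DirichletCharacter ℂ N, χ ^ 2 = 1 → χ ≠ 1 →
      ∃ L : ℝ, LV N (fun n => (χ (n : ZMod N)).re) L ∧ (N : ℝ) ^ (-(1 / 200) : ℝ) ≤ L ∧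
        L ≤ (Real.log N) ^ 3 * sgm P χ)
    (h : PairIn P N D Lk Bd 1 (1 / 80)) (ha : ApIn P N D Lk Bd) :
    ∃ (D' : Dat) (A : Finset (ZMod N)) (χ : DirichletCharacter ℂ N), EnvX P N D' Lk Bd A χ := by
  classical
  have hMX := mr_pos_X hn hb.ok
  have hMY := mr_pos_Y hn hb.ok
  have hUU0 : (0 : ℝ) ≤ N * ((D.J1 * rho D.BX) * (D.J0 * rho D.BY)) /
      ((JJ N : ℝ) ^ 4 * (MM P N : ℝ) ^ 4) := by positivity
  obtain ⟨A, hA1, hA2, hA3⟩ := apx (P := P) (Lk := Lk) (Bd := Bd) hn hb.ok 1 zero_le_one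
    (fun l hl => (ha.a0 l hl).trans (by rw [one_mul]; linarith))
  rw [one_mul] at hA1 hA3
  have hh : Hyp P N D Lk Bd A := ⟨hP, hn, hb.ok, hC D hb.ok, pin_weak hn hb h, hA1, hA2, hA3⟩
  obtain ⟨χ, hblk, hχ⟩ := ufx hh (hM D hb.ok)
  obtain ⟨hsq, β, hβ, hcard⟩ := chr1 P N hn.num (FF P N D) (fun x hx => ff_zero hx) (fun x hx => ff_pm hx) χ hχ
  obtain ⟨hne, hsmall⟩ := chx hh χ β hβ hcard
  have hstr := qs_str hP hn hb.ok χ hblk
  obtain ⟨hok', hr'⟩ := subx hn hb (QS P χ) hstr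
  have hσ : 0 ≤ sgm P χ := by
    unfold sgm
    exact sum_nonneg fun q _ => by positivity
  have hle : ∀ s : ℝ, 0 ≤ s → s * (N * ((D.J1 * rho D.BX) * (D.J0 * rho D.BY)) /
      ((JJ N : ℝ) ^ 4 * (MM P N : ℝ) ^ 4)) ≤
      2 * (s * (N * (((D.delX (QS P χ)).J1 * rho (D.delX (QS P χ)).BX) *
        ((D.delX (QS P χ)).J0 * rho (D.delX (QS P χ)).BY)) /
      ((JJ N : ℝ) ^ 4 * (MM P N : ℝ) ^ 4))) := by
    intro s hs
    show s * (N * ((D.J1 * rho D.BX) * (D.J0 * rho D.BY)) /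
      ((JJ N : ℝ) ^ 4 * (MM P N : ℝ) ^ 4)) ≤
      2 * (s * (N * ((D.J1 * rho (D.delX (QS P χ)).BX) * (D.J0 * rho D.BY)) /
      ((JJ N : ℝ) ^ 4 * (MM P N : ℝ) ^ 4)))
    have h1 : (D.J1 : ℝ) * rho D.BX ≤ 2 * (D.J1 * rho (D.delX (QS P χ)).BX) := by
      have := mul_le_mul_of_nonneg_left hr' (Nat.cast_nonneg (α := ℝ) D.J1)
      linarith
    have h2 : 2 * (s * (N * ((D.J1 * rho (D.delX (QS P χ)).BX) * (D.J0 * rho D.BY)) /
      ((JJ N : ℝ) ^ 4 * (MM P N : ℝ) ^ 4))) =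
      s * (N * ((2 * (D.J1 * rho (D.delX (QS P χ)).BX)) * (D.J0 * rho D.BY)) /
      ((JJ N : ℝ) ^ 4 * (MM P N : ℝ) ^ 4)) := by ring
    rw [h2]
    gcongr
  have hdel : ∀ l : ℕ, ∑ x : ZMod N, (if IsUnit x then AP P N (D.delX (QS P χ)) Lk Bd l x else 0) ≤
      ∑ x : ZMod N, (if IsUnit x then AP P N D Lk Bd l x else 0) := by
    intro l
    refine sum_le_sum fun x _ => ?_
    split_ifs
    · exact ap_del _ _ _
    · exact le_rfl
  obtain ⟨A1, hB1, hB2, hB3⟩ := apx (P := P) (Lk := Lk) (Bd := Bd) hn hok' 1 zero_le_one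
    (fun l hl => (hdel l).trans ((ha.a0 l hl).trans (by
      have := hle 1 zero_le_one
      rw [one_mul] at this
      exact this)))
  obtain ⟨A2, hC1, hC2, hC3⟩ := apx (P := P) (Lk := Lk) (Bd := Bd) hn hok' (sgm P χ) hσ
    (fun l hl => (hdel l).trans ((ha.a1 χ hsq hne hsmall hblk l hl).trans (hle _ hσ)))
  rw [one_mul] at hB1 hB3
  have hh' : Hyp P N (D.delX (QS P χ)) Lk Bd (A1 ∩ A2) := by
    refine ⟨hP, hn, hok', hC _ hok', subx_pin hn hb (QS P χ) hr' h, ?_, ?_, hB3⟩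
    · refine le_trans ?_ hB1
      exact_mod_cast card_le_card inter_subset_left
    · intro l hl x hx hxA
      rw [mem_inter, not_and_or] at hxA
      rcases hxA with h1 | h1
      · exact hB2 l hl x hx h1
      · exact hC2 l hl x hx h1
  have hfq := fq (QS P χ) hh hh'
  have hfx := fx_del hP hn hb.ok χ hsq
  have hK9 : (10 : ℝ) ^ 9 ≤ Real.log N := hn.num.K
  set K : ℝ := Real.log N with hKdef
  have hK1 : 1 ≤ K := by linarith
  have hJ0 : (0 : ℝ) < JJ N := by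
    have h1 := jj_one hn
    exact_mod_cast h1
  have hN0 : (0 : ℝ) ≤ (N : ℝ) := by positivity
  have hagree : (((Finset.univ : Finset (ZMod N)).filter fun x => IsUnit x ∧
      (FF P N (D.delX (QS P χ)) x : ℂ) ≠ β * χ x).card : ℝ) ≤ K ^ 101 * N / JJ N := by
    have hsub : ((Finset.univ : Finset (ZMod N)).filter fun x => IsUnit x ∧
        (FF P N (D.delX (QS P χ)) x : ℂ) ≠ β * χ x) ⊆
        ((Finset.univ : Finset (ZMod N)).filter fun x => IsUnit x ∧ (FF P N D x : ℂ) ≠ β * χ x) ∪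
        ((Finset.univ : Finset (ZMod N)).filter fun x => IsUnit x ∧
          FF P N D x ≠ FF P N (D.delX (QS P χ)) x) := by
      intro x hx
      simp only [mem_union, mem_filter, mem_univ, true_and] at hx ⊢
      by_cases he : FF P N D x = FF P N (D.delX (QS P χ)) x
      · left
        rw [he]
        exact hx
      · right
        exact ⟨hx.1, he⟩
    have h1 : (((Finset.univ : Finset (ZMod N)).filter fun x => IsUnit x ∧
        (FF P N (D.delX (QS P χ)) x : ℂ) ≠ β * χ x).card : ℝ) ≤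
        (((Finset.univ : Finset (ZMod N)).filter fun x => IsUnit x ∧ (FF P N D x : ℂ) ≠ β * χ x).card : ℝ) +
        (((Finset.univ : Finset (ZMod N)).filter fun x => IsUnit x ∧
          FF P N D x ≠ FF P N (D.delX (QS P χ)) x).card : ℝ) := by
      exact_mod_cast (Finset.card_le_card hsub).trans (Finset.card_union_le _ _)
    have hNJ : (0 : ℝ) ≤ N / JJ N := by positivity
    have h13 : K ^ 13 ≤ K ^ 100 := pow_le_pow_right₀ hK1 (by norm_num)
    have h100 : 0 ≤ K ^ 100 := by positivity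
    have h2 : K ^ 100 + K ^ 13 ≤ K ^ 101 := by
      have : K ^ 101 = K * K ^ 100 := by ring
      rw [this]
      nlinarith
    calc _ ≤ K ^ 100 * N / JJ N + K ^ 13 * N / JJ N := h1.trans (add_le_add hcard hfq)
      _ = (K ^ 100 + K ^ 13) * (N / JJ N) := by ring
      _ ≤ K ^ 101 * (N / JJ N) := mul_le_mul_of_nonneg_right h2 hNJ
      _ = K ^ 101 * N / JJ N := by ring
  have hβ1 : β = 1 := betax hh' χ hsq hblk hfx β hβ hagree
  have hS1 := hS χ hsq hne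
  have hac : (((A1 ∩ A2).card : ℕ) : ℝ) ≤ sgm P χ * N / (JJ N : ℝ) ^ 2 := by
    refine le_trans ?_ hC1
    exact_mod_cast card_le_card inter_subset_right
  refine ⟨D.delX (QS P χ), A1 ∩ A2, χ, ⟨hh', hM _ hok', hsq, hne, hsmall, hblk, hfx, ?_, hS1, hac, hC3⟩⟩
  have h1 : (((Finset.univ : Finset (ZMod N)).filter fun x => IsUnit x ∧
      (FF P N (D.delX (QS P χ)) x : ℂ) ≠ χ x).card : ℝ) ≤ K ^ 101 * N / JJ N := by
    rw [hβ1] at hagree
    simpa using hagree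
  refine h1.trans ?_
  have h2 : K ^ 101 ≤ K ^ 102 := pow_le_pow_right₀ hK1 (by norm_num)
  gcongr

end Pool.Agent.Lib.TCF
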