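import Pool.Agent.Lib.MP_7b7e48_nt.TCF.Def2
import Pool.Agent.Lib.MP_7b7e48_nt.RG.A2
import Pool.Agent.Lib.MP_7b7e48_nt.RG.A3

/-!
# Module Sprs (90 minutes): numbers with `lam ≠ χ` have a prime factor with `χ = 1`

PROOF. Let `a ∈ AD`, `t ∈ TUP BX`, `t ∣ a`. `DA χ a`: by `DA_prime` (`RG/BAS.lean`, look at its statement) or directly by multiplicativity there is a prime `q ∣ a` with `χ q ≠ -1`, so `χ q = 1` (`a` coprime to `N`, `χ ^ 2 = 1`), and `q > MM` as `a` is rough.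
`q ∤ t`, because the primes of `t` have `χ = -1` (`EnvX.fx`, `tup_facts`). So `q t ∣ a`. Case 1: some such `q` is `≤ N ^ (1 - kap)`: then `q ∈ QM` and `a = q t n` with `n = a / (q t) ∈ NV (q t)`: the term `G t a` occurs in `S1`.
Case 2: all such `q` are `> N ^ (1 - kap)`; choose one; `a = m t q` with `m = a / (t q) ≤ J1 N / (y0 N ^ (1 - kap)) ≤ N ^ kap` (`t > y0 ≥ 2 J1`), `m ∣ a` is rough and coprime to `N`: `m ∈ MV`, `q ∈ NV (m t)`, and `wt y0 (some cc) q = rr cc q =
1 + χ q = 2 ≥ 1` (`q` prime `> y0`: rough; divisors of a prime; `q > y0` because `N ^ (1 - kap) > y0`). So `G t a ≤` the term of `S2` at `(m, t, q)`.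
The map `(a, t) ↦ (q, t, n)` resp. `(m, t, n)` is injective in both cases (`a = q t n`), all terms of `S1`, `S2` are `≥ 0` (`rr_nonneg` in `RG/A3.lean` with `RC_char`; `EnvX.sq`).
`card_pht`: `∑_{a ∈ S} ∑_{t ∣ a} G a = ∑_{a ∈ S} pht a * G a` by `pht_eq`.
-/

set_option autoImplicit false

open Finset

namespace Pool.Agent.Lib.TCF

open Pool.Agent.Lib.RG hiding RR sig Good
open Pool.Agent.Lib.RH
open Pool.Agent.Lib.MP_45349e_nt.LS (lam)

variable {P : Prm} {N : ℕ} [NeZero N] {D : Dat} {Lk : ℕ → ℕ → ℕ → ℕ → Prop} {Bd : ℕ → ℕ → Prop}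
  {A : Finset (ZMod N)} {χ : DirichletCharacter ℂ N}

private theorem sprs_rc (E : EnvX P N D Lk Bd A χ) : RC N (cc χ) :=
  RC_char N (N_two E.hyp.nx) χ E.sq E.ne

private theorem sprs_wt (E : EnvX P N D Lk Bd A χ) (n : ℕ) : 0 ≤ wt D.y0 (some (cc χ)) n := by
  unfold wt
  simp only
  split_ifs
  · exact rr_nonneg N (cc χ) (sprs_rc E) n
  · exact le_rfl

private theorem sprs_sum {ι κ : Type*} [DecidableEq ι] (S : Finset ι) (T : Finset κ) (F : κ → ι) (H : κ → ℝ)
    (hH : ∀ k ∈ T, 0 ≤ H k) :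
    ∑ a ∈ S, ∑ k ∈ T, (if F k = a then H k else 0) ≤ ∑ k ∈ T, H k := by
  rw [Finset.sum_comm]
  refine sum_le_sum fun k hk => ?_
  rw [Finset.sum_ite_eq]
  split_ifs
  · exact le_rfl
  · exact hH k hk

private theorem sprs_nt (E : EnvX P N D Lk Bd A χ) {q t : ℕ} (hq : q.Prime)
    (h1 : χ (q : ZMod N) = 1) (ht : t ∈ TUP D.BX) : ¬ q ∣ t := by
  intro hd
  obtain ⟨c, hc⟩ := (tup_facts E.hyp.ok.fx ht).2.2.2.2.2.1 q hq hd
  have h2 := E.fx c q hc
  rw [h1] at h2
  norm_num at h2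

private theorem sprs_dvd (E : EnvX P N D Lk Bd A χ) {q t a : ℕ} (hq : q.Prime)
    (h1 : χ (q : ZMod N) = 1) (ht : t ∈ TUP D.BX) (hta : t ∣ a) (hqa : q ∣ a) : q * t ∣ a :=
  Nat.Coprime.mul_dvd_of_dvd_of_dvd ((Nat.Prime.coprime_iff_not_dvd hq).2 (sprs_nt E hq h1 ht)) hqa hta

omit [NeZero N] in
open Classical in
private theorem sprs_NV {v n a : ℕ} (hv : v * n = a) (ha0 : 0 < a) (h2 : D.J2 * N < a)
    (h1 : a ≤ D.J1 * N) (hr : Rgh1 P N a) : n ∈ NV P N D v := by
  have hv0 : 0 < v := Nat.pos_of_ne_zero (by rintro rfl; simp at hv; omega)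
  have hn0 : 0 < n := Nat.pos_of_ne_zero (by rintro rfl; simp at hv; omega)
  unfold NV
  rw [mem_filter, mem_Icc]
  refine ⟨⟨hn0, ?_⟩, ?_, ?_⟩
  · rw [Nat.le_div_iff_mul_le hv0, mul_comm, hv]
    exact h1
  · rw [hv]; exact hr
  · rw [hv]; exact h2

private theorem sprs_rr (c : ℕ → ℝ) {q : ℕ} (hq : q.Prime) : rr c q = c 1 + c q := by
  unfold rr
  rw [Nat.Prime.sum_divisors hq, add_comm]

open Classical in
private theorem sprs_key (E : EnvX P N D Lk Bd A χ) (G : ℕ → ℕ → ℝ) (hG : ∀ t a, 0 ≤ G t a)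
    {a t : ℕ} (ha : a ∈ AD P D χ) (ht : t ∈ TUP D.BX) (hta : t ∣ a) :
    G t a ≤ (∑ q ∈ QM P χ, ∑ n ∈ NV P N D (q * t), if q * t * n = a then G t (q * t * n) else 0) +
      ∑ m ∈ MV P N, ∑ n ∈ (NV P N D (m * t)).filter
        (fun n : ℕ => n.Prime ∧ (N : ℝ) ^ (1 - P.kap) < (n : ℝ)),
        if m * t * n = a then wt D.y0 (some (cc χ)) n * G t (m * t * n) else 0 := by
  have hnn1 : 0 ≤ ∑ q ∈ QM P χ, ∑ n ∈ NV P N D (q * t),
      (if q * t * n = a then G t (q * t * n) else 0) :=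
    sum_nonneg fun q _ => sum_nonneg fun n _ => by
      split_ifs
      · exact hG _ _
      · exact le_rfl
  have hnn2 : 0 ≤ ∑ m ∈ MV P N, ∑ n ∈ (NV P N D (m * t)).filter
        (fun n : ℕ => n.Prime ∧ (N : ℝ) ^ (1 - P.kap) < (n : ℝ)),
        (if m * t * n = a then wt D.y0 (some (cc χ)) n * G t (m * t * n) else 0) :=
    sum_nonneg fun q _ => sum_nonneg fun n _ => by
      split_ifs
      · exact mul_nonneg (sprs_wt E n) (hG _ _)
      · exact le_rfl
  have hn := E.hyp.nx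
  have hD := E.hyp.ok
  have hP := E.hyp.hP
  unfold AD at ha
  rw [mem_filter, mem_Ioc] at ha
  obtain ⟨⟨ha2, ha1⟩, hr, hDA⟩ := ha
  have ha0 : 0 < a := lt_of_le_of_lt (Nat.zero_le _) ha2
  have hN2 := N_two hn
  have hN1 : (1 : ℝ) ≤ N := by exact_mod_cast (by omega : 1 ≤ N)
  have hN0 : (0 : ℝ) < N := by linarith
  by_cases hc : ∃ q : ℕ, q.Prime ∧ q ∣ a ∧ χ (q : ZMod N) = 1 ∧ (q : ℝ) ≤ (N : ℝ) ^ (1 - P.kap)
  · obtain ⟨q, hq, hqa, hχ, hqN⟩ := hc
    obtain ⟨n, hn'⟩ := sprs_dvd E hq hχ ht hta hqa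
    have hqN' : q < N + 1 := by
      have h1 : (q : ℝ) ≤ (N : ℝ) := by
        refine hqN.trans ?_
        calc (N : ℝ) ^ (1 - P.kap) ≤ (N : ℝ) ^ (1 : ℝ) :=
              Real.rpow_le_rpow_of_exponent_le hN1 (by linarith [hP.kap0])
          _ = N := Real.rpow_one _
      have h2 : q ≤ N := by exact_mod_cast h1
      omega
    have hqQ : q ∈ QM P χ := by
      unfold QM QS
      rw [mem_filter, mem_filter, mem_range]
      exact ⟨⟨hqN', hq, hr.2 q hq hqa, hχ⟩, hqN⟩
    have hnN : n ∈ NV P N D (q * t) := sprs_NV hn'.symm ha0 ha2 ha1 hr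
    have h3 : G t a ≤ ∑ n ∈ NV P N D (q * t), (if q * t * n = a then G t (q * t * n) else 0) := by
      have h4 := single_le_sum (f := fun n => if q * t * n = a then G t (q * t * n) else 0)
        (fun n _ => by
          show (0 : ℝ) ≤ if q * t * n = a then G t (q * t * n) else 0
          split_ifs
          · exact hG _ _
          · exact le_rfl) hnN
      simp only [← hn', if_true] at h4
      exact h4
    have h5 := single_le_sum (f := fun q => ∑ n ∈ NV P N D (q * t),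
        (if q * t * n = a then G t (q * t * n) else 0))
        (fun q _ => sum_nonneg fun n _ => by
          show (0 : ℝ) ≤ if q * t * n = a then G t (q * t * n) else 0
          split_ifs
          · exact hG _ _
          · exact le_rfl) hqQ
    have h6 := h3.trans h5
    linarith
  · push Not at hc
    obtain ⟨q, hq, hqa, hχ⟩ := DA_prime E.sq ha0 hr.1 hDA
    have hqN := hc q hq hqa hχ
    obtain ⟨m, hm⟩ := sprs_dvd E hq hχ ht hta hqa
    have hm' : m * t * q = a := by rw [hm]; ring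
    have htf := tup_facts hD.fx ht
    have hJ1 := y0_J1 hn hD
    have hj1 := j1_pos hn hD
    -- size of m
    have hmle : (m : ℝ) ≤ (N : ℝ) ^ P.kap := by
      have h1 : (m : ℝ) * t * q ≤ D.J1 * N := by
        have : m * t * q ≤ D.J1 * N := by rw [hm']; exact ha1
        exact_mod_cast this
      have ht1 : (D.J1 : ℝ) ≤ t := by
        have : D.J1 ≤ t := by have := htf.2.1; omega
        exact_mod_cast this
      have hJ0 : (0 : ℝ) < D.J1 := by exact_mod_cast hj1
      have hq0 : (0 : ℝ) < (N : ℝ) ^ (1 - P.kap) := Real.rpow_pos_of_pos hN0 _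
      have h2 : (m : ℝ) * D.J1 * (N : ℝ) ^ (1 - P.kap) ≤ D.J1 * N := by
        refine le_trans ?_ h1
        have hm0 : (0 : ℝ) ≤ m := Nat.cast_nonneg m
        have : (m : ℝ) * D.J1 ≤ m * t := mul_le_mul_of_nonneg_left ht1 hm0
        exact mul_le_mul this hqN.le hq0.le (mul_nonneg hm0 (hJ0.le.trans ht1))
      have h3 : (N : ℝ) = (N : ℝ) ^ P.kap * (N : ℝ) ^ (1 - P.kap) := by
        rw [← Real.rpow_add hN0]
        rw [show P.kap + (1 - P.kap) = 1 by ring, Real.rpow_one]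
      have h4 : (m : ℝ) * (N : ℝ) ^ (1 - P.kap) ≤ N := by
        have : (D.J1 : ℝ) * (m * (N : ℝ) ^ (1 - P.kap)) ≤ D.J1 * N := by linarith
        exact le_of_mul_le_mul_left this hJ0
      rw [h3] at h4
      have h5 : (m : ℝ) * (N : ℝ) ^ (1 - P.kap) ≤ (N : ℝ) ^ P.kap * (N : ℝ) ^ (1 - P.kap) := by
        calc (m : ℝ) * (N : ℝ) ^ (1 - P.kap) ≤ N := by rw [h3]; convert h4 using 2
          _ = _ := h3
      exact le_of_mul_le_mul_right h5 hq0
    have hm0 : 0 < m := Nat.pos_of_ne_zero (by rintro rfl; simp at hm; omega)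
    have hma : m ∣ a := ⟨q * t, by rw [hm]; ring⟩
    have hmM : m ∈ MV P N := by
      unfold MV
      rw [mem_filter, mem_Icc]
      refine ⟨⟨hm0, Nat.le_floor hmle⟩, Nat.Coprime.coprime_dvd_left hma hr.1, ?_⟩
      intro p hp hpm
      exact hr.2 p hp (hpm.trans hma)
    have hqV : q ∈ (NV P N D (m * t)).filter
        (fun n : ℕ => n.Prime ∧ (N : ℝ) ^ (1 - P.kap) < (n : ℝ)) := by
      rw [mem_filter]
      exact ⟨sprs_NV hm' ha0 ha2 ha1 hr, hq, hqN⟩
    have hy : D.y0 < q := by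
      have h1 : (D.y0 : ℝ) < q := by
        refine lt_of_le_of_lt hD.y2 (lt_of_le_of_lt ?_ hqN)
        refine Real.rpow_le_rpow_of_exponent_le hN1 ?_
        have := hP.kap0; have := hP.kap1; linarith
      exact_mod_cast h1
    have hwt : 1 ≤ wt D.y0 (some (cc χ)) q := by
      unfold wt
      simp only
      rw [if_pos (rough_prime hq hy), sprs_rr _ hq]
      unfold cc
      rw [hχ]
      simp
    have hterm : ∀ m n : ℕ, (0 : ℝ) ≤
        if m * t * n = a then wt D.y0 (some (cc χ)) n * G t (m * t * n) else 0 := fun m n => by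
      split_ifs
      · exact mul_nonneg (sprs_wt E n) (hG _ _)
      · exact le_rfl
    have h3 : G t a ≤ ∑ n ∈ (NV P N D (m * t)).filter
        (fun n : ℕ => n.Prime ∧ (N : ℝ) ^ (1 - P.kap) < (n : ℝ)),
        (if m * t * n = a then wt D.y0 (some (cc χ)) n * G t (m * t * n) else 0) := by
      have h4 := single_le_sum (f := fun n =>
        if m * t * n = a then wt D.y0 (some (cc χ)) n * G t (m * t * n) else 0)
        (fun n _ => hterm m n) hqV
      simp only [hm', if_true] at h4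
      refine le_trans ?_ h4
      have := mul_le_mul_of_nonneg_right hwt (hG t a)
      linarith
    have h5 := single_le_sum (f := fun m => ∑ n ∈ (NV P N D (m * t)).filter
        (fun n : ℕ => n.Prime ∧ (N : ℝ) ^ (1 - P.kap) < (n : ℝ)),
        (if m * t * n = a then wt D.y0 (some (cc χ)) n * G t (m * t * n) else 0))
        (fun m _ => sum_nonneg fun n _ => hterm m n) hmM
    have h6 := h3.trans h5
    linarith

theorem sprs (E : EnvX P N D Lk Bd A χ) (G : ℕ → ℕ → ℝ) (hG : ∀ t a, 0 ≤ G t a) :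
    ∑ a ∈ AD P D χ, ∑ t ∈ (TUP D.BX).filter (fun t => t ∣ a), G t a ≤ S1 P D χ G + S2 P D χ G := by
  classical
  have h1 : ∑ a ∈ AD P D χ, ∑ t ∈ (TUP D.BX).filter (fun t => t ∣ a), G t a ≤
      ∑ a ∈ AD P D χ, ∑ t ∈ TUP D.BX,
        ((∑ q ∈ QM P χ, ∑ n ∈ NV P N D (q * t), if q * t * n = a then G t (q * t * n) else 0) +
        ∑ m ∈ MV P N, ∑ n ∈ (NV P N D (m * t)).filter
          (fun n : ℕ => n.Prime ∧ (N : ℝ) ^ (1 - P.kap) < (n : ℝ)),
          if m * t * n = a then wt D.y0 (some (cc χ)) n * G t (m * t * n) else 0) := by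
    refine sum_le_sum fun a ha => ?_
    calc ∑ t ∈ (TUP D.BX).filter (fun t => t ∣ a), G t a
        ≤ ∑ t ∈ (TUP D.BX).filter (fun t => t ∣ a),
        ((∑ q ∈ QM P χ, ∑ n ∈ NV P N D (q * t), if q * t * n = a then G t (q * t * n) else 0) +
        ∑ m ∈ MV P N, ∑ n ∈ (NV P N D (m * t)).filter
          (fun n : ℕ => n.Prime ∧ (N : ℝ) ^ (1 - P.kap) < (n : ℝ)),
          if m * t * n = a then wt D.y0 (some (cc χ)) n * G t (m * t * n) else 0) :=
          sum_le_sum fun t ht => by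
            rw [mem_filter] at ht
            exact sprs_key E G hG ha ht.1 ht.2
      _ ≤ _ := by
          refine sum_le_sum_of_subset_of_nonneg (filter_subset _ _) fun t _ _ => ?_
          refine add_nonneg (sum_nonneg fun q _ => sum_nonneg fun n _ => ?_)
            (sum_nonneg fun q _ => sum_nonneg fun n _ => ?_)
          · split_ifs
            · exact hG _ _
            · exact le_rfl
          · split_ifs
            · exact mul_nonneg (sprs_wt E n) (hG _ _)
            · exact le_rfl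
  refine h1.trans ?_
  have h2 : ∑ a ∈ AD P D χ, ∑ t ∈ TUP D.BX,
        ((∑ q ∈ QM P χ, ∑ n ∈ NV P N D (q * t), if q * t * n = a then G t (q * t * n) else 0) +
        ∑ m ∈ MV P N, ∑ n ∈ (NV P N D (m * t)).filter
          (fun n : ℕ => n.Prime ∧ (N : ℝ) ^ (1 - P.kap) < (n : ℝ)),
          if m * t * n = a then wt D.y0 (some (cc χ)) n * G t (m * t * n) else 0) =
      (∑ t ∈ TUP D.BX, ∑ q ∈ QM P χ, ∑ a ∈ AD P D χ, ∑ n ∈ NV P N D (q * t),
        if q * t * n = a then G t (q * t * n) else 0) +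
      ∑ t ∈ TUP D.BX, ∑ m ∈ MV P N, ∑ a ∈ AD P D χ, ∑ n ∈ (NV P N D (m * t)).filter
          (fun n : ℕ => n.Prime ∧ (N : ℝ) ^ (1 - P.kap) < (n : ℝ)),
          if m * t * n = a then wt D.y0 (some (cc χ)) n * G t (m * t * n) else 0 := by
    rw [sum_comm, ← sum_add_distrib]
    refine sum_congr rfl fun t _ => ?_
    rw [sum_add_distrib]
    congr 1
    · rw [sum_comm]
    · rw [sum_comm]
  rw [h2]
  refine add_le_add ?_ ?_
  · unfold S1
    rw [sum_comm (s := QM P χ)]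
    refine sum_le_sum fun t _ => sum_le_sum fun q _ => ?_
    exact sprs_sum (AD P D χ) (NV P N D (q * t)) (fun n => q * t * n) (fun n => G t (q * t * n))
      fun n _ => hG _ _
  · unfold S2
    rw [sum_comm (s := MV P N)]
    refine sum_le_sum fun t _ => sum_le_sum fun m _ => ?_
    exact sprs_sum (AD P D χ) _ (fun n => m * t * n)
      (fun n => wt D.y0 (some (cc χ)) n * G t (m * t * n))
      fun n _ => mul_nonneg (sprs_wt E n) (hG _ _)

theorem sprs_pht (E : EnvX P N D Lk Bd A χ) (G : ℕ → ℝ) (hG : ∀ a, 0 ≤ G a) :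
    ∑ a ∈ AD P D χ, pht D.BX a * G a ≤ S1 P D χ (fun _ a => G a) + S2 P D χ (fun _ a => G a) := by
  refine le_trans (le_of_eq ?_) (sprs E (fun _ a => G a) fun _ a => hG a)
  refine sum_congr rfl fun a _ => ?_
  rw [pht_eq E.hyp.ok.fx a, sum_const, nsmul_eq_mul]

end Pool.Agent.Lib.TCF
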