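import Pool.Agent.Lib.MP_7b7e48_nt.TCF.Zsum
import Pool.Agent.Lib.MP_7b7e48_nt.TCF.Sprs
import Pool.Agent.Lib.MP_7b7e48_nt.TCF.Smb
import Pool.Agent.Lib.MP_7b7e48_nt.TCF.Lbm
import Pool.Agent.Lib.MP_7b7e48_nt.TCF.Sml

/-!
# Module Invz (60 minutes): `ZX` is almost invariant; sums over `AD`

`K = log N`, `M = J1 rho_X`, `σ = sgm`. PROOFS. `bads`: `sprs_pht`, `bad1`, `bad2`. `lamf`: `sprs_pht`, `lf1`, `lf2`. `zbad`: `zsum` with `H` = indicator of `¬ Typ l`, `bads`, and `lbm` (`σ N ≤ K ^ 20 |ZX|`): `2 K ^ 2 / M * 2 K ^ 20 / JJ * M σ N ≤ K ^ 43 |ZX| / JJ`. `acz`: `|A| ≤ σ N / JJ ^ 2 ≤ K ^ 20 |ZX| / JJ ^ 2`.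
`invz`: let `l ∈ PZ`, `x ∈ ZX`, `Typ l x`, `x ∉ A`: `FF (l x) = - FF x = χ x = - χ (l x)` (`maj1`, `EnvX.small`), `PX (l x) ≥ M / K ^ 2` (`Typ.x1`), `l x` is a unit: `l x ∈ ZX`. So `#{x ∈ ZX : l x ∉ ZX} ≤ K ^ 44 |ZX| / JJ`. Multiplication by `l` is a bijection of `ZMod N`,
so `#{x : l x ∈ ZX, x ∉ ZX} = |ZX| - #{x ∈ ZX : l x ∈ ZX} = #{x ∈ ZX : l x ∉ ZX}` and the sum of the squares is `2 #{x ∈ ZX : l x ∉ ZX}`.
-/

set_option autoImplicit false

open Finset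

namespace Pool.Agent.Lib.TCF

open Pool.Agent.Lib.RG hiding RR sig Good
open Pool.Agent.Lib.RH
open Pool.Agent.Lib.MP_45349e_nt.LS (lam)

variable {P : Prm} {N : ℕ} [NeZero N] {D : Dat} {Lk : ℕ → ℕ → ℕ → ℕ → Prop} {Bd : ℕ → ℕ → Prop}
  {A : Finset (ZMod N)} {χ : DirichletCharacter ℂ N}

open Classical in
theorem bads (E : EnvX P N D Lk Bd A χ) (hW : WT P N) {l : ℕ} (hl : Mul P N l) :
    ∑ a ∈ AD P D χ, pht D.BX a * (if ¬ Typ P N D Lk Bd l ((a : ℕ) : ZMod N) then 1 else 0) ≤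
      2 * (Real.log N) ^ 20 / JJ N * (D.J1 * rho D.BX) * sgm P χ * N := by
  have h1 := sprs_pht E (fun a : ℕ => (if ¬ Typ P N D Lk Bd l ((a : ℕ) : ZMod N) then (1 : ℝ) else 0))
    (fun a => by split_ifs <;> norm_num)
  have h2 := bad1 E hl
  have h3 := bad2 E hW hl
  calc _ ≤ _ := h1
    _ ≤ (Real.log N) ^ 20 / JJ N * (D.J1 * rho D.BX) * sgm P χ * N +
        (Real.log N) ^ 20 / JJ N * (D.J1 * rho D.BX) * sgm P χ * N := add_le_add h2 h3
    _ = _ := by ring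

open Classical in
theorem lamf (E : EnvX P N D Lk Bd A χ) (hW : WT P N) :
    ∑ a ∈ AD P D χ, pht D.BX a * (if Lf P N D Lk Bd A a then 1 else 0) ≤
      2 * (Real.log N) ^ 20 / JJ N * (D.J1 * rho D.BX) * sgm P χ * N := by
  have h1 := sprs_pht E (fun a : ℕ => (if Lf P N D Lk Bd A a then (1 : ℝ) else 0))
    (fun a => by split_ifs <;> norm_num)
  have h2 := lf1 E
  have h3 := lf2 E
  calc _ ≤ _ := h1
    _ ≤ (Real.log N) ^ 20 / JJ N * (D.J1 * rho D.BX) * sgm P χ * N +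
        (Real.log N) ^ 20 / JJ N * (D.J1 * rho D.BX) * sgm P χ * N := add_le_add h2 h3
    _ = _ := by ring

private theorem invz_pos (E : EnvX P N D Lk Bd A χ) :
    (10 : ℝ) ^ 9 ≤ Real.log N ∧ 0 < (JJ N : ℝ) ∧ (Real.log N) ^ 1000 ≤ (JJ N : ℝ) := by
  refine ⟨hK E.hyp.nx, ?_, jj_K E.hyp.nx⟩
  exact_mod_cast jj_one E.hyp.nx

private theorem invz_sg (hP : P.Ok) (E : EnvX P N D Lk Bd A χ) :
    sgm P χ * N ≤ (Real.log N) ^ 20 * (ZX P N D χ).card := by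
  have h1 := lbm hP E
  obtain ⟨hK, -, -⟩ := invz_pos E
  have h2 : 0 < (Real.log N) ^ 20 := by positivity
  rw [div_le_iff₀ h2] at h1
  linarith

open Classical in
theorem zbad (hP : P.Ok) (E : EnvX P N D Lk Bd A χ) (hW : WT P N) {l : ℕ} (hl : Mul P N l) :
    (((ZX P N D χ).filter fun x => ¬ Typ P N D Lk Bd l x).card : ℝ) ≤
      (Real.log N) ^ 43 / JJ N * (ZX P N D χ).card := by
  obtain ⟨hK, hJ, -⟩ := invz_pos E
  have hM := mr_pos_X E.hyp.nx E.hyp.ok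
  set K := Real.log N with hKdef
  set M : ℝ := D.J1 * rho D.BX with hMdef
  have hK0 : 0 < K := by linarith [show (0:ℝ) < 10 ^ 9 by norm_num]
  have h1 := zsum E (fun x : ZMod N => (if ¬ Typ P N D Lk Bd l x then (1 : ℝ) else 0))
    (fun a => by split_ifs <;> norm_num)
  have h2 : (((ZX P N D χ).filter fun x => ¬ Typ P N D Lk Bd l x).card : ℝ) =
      ∑ x ∈ ZX P N D χ, (if ¬ Typ P N D Lk Bd l x then (1 : ℝ) else 0) := by
    rw [sum_boole]
  rw [h2]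
  refine h1.trans ?_
  have h3 := bads E hW hl
  have h4 := invz_sg hP E
  have h5 : 2 * K ^ 2 / M * ∑ a ∈ AD P D χ, pht D.BX a *
      (if ¬ Typ P N D Lk Bd l ((a : ℕ) : ZMod N) then 1 else 0) ≤
      2 * K ^ 2 / M * (2 * K ^ 20 / JJ N * M * sgm P χ * N) :=
    mul_le_mul_of_nonneg_left h3 (by positivity)
  refine h5.trans ?_
  have h6 : 2 * K ^ 2 / M * (2 * K ^ 20 / JJ N * M * sgm P χ * N) =
      4 * K ^ 22 / JJ N * (sgm P χ * N) := by
    field_simp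
    ring
  rw [h6]
  have h7 : 4 * K ^ 22 / JJ N * (sgm P χ * N) ≤
      4 * K ^ 22 / JJ N * (K ^ 20 * (ZX P N D χ).card) :=
    mul_le_mul_of_nonneg_left h4 (by positivity)
  refine h7.trans ?_
  have h8 : 4 * K ^ 22 / JJ N * (K ^ 20 * (ZX P N D χ).card) =
      (4 * K ^ 42) / JJ N * (ZX P N D χ).card := by ring
  rw [h8]
  refine mul_le_mul_of_nonneg_right ?_ (Nat.cast_nonneg _)
  refine div_le_div_of_nonneg_right ?_ hJ.le
  have h9 : 4 ≤ K := by linarith [show (4:ℝ) ≤ 10 ^ 9 by norm_num]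
  calc 4 * K ^ 42 ≤ K * K ^ 42 := mul_le_mul_of_nonneg_right h9 (by positivity)
    _ = K ^ 43 := by ring

theorem acz (hP : P.Ok) (E : EnvX P N D Lk Bd A χ) :
    (A.card : ℝ) ≤ 1 / JJ N * (ZX P N D χ).card := by
  obtain ⟨hK, hJ, hKJ⟩ := invz_pos E
  have h1 := E.ac
  have h4 := invz_sg hP E
  set K := Real.log N with hKdef
  have hK1 : 1 ≤ K := by linarith [show (1:ℝ) ≤ 10 ^ 9 by norm_num]
  have h5 : K ^ 20 ≤ JJ N := (pow_le_pow_right₀ hK1 (by norm_num)).trans hKJ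
  calc (A.card : ℝ) ≤ sgm P χ * N / (JJ N : ℝ) ^ 2 := h1
    _ ≤ JJ N * (ZX P N D χ).card / (JJ N : ℝ) ^ 2 := by
        refine div_le_div_of_nonneg_right (h4.trans ?_) (by positivity)
        exact mul_le_mul_of_nonneg_right h5 (Nat.cast_nonneg _)
    _ = 1 / JJ N * (ZX P N D χ).card := by
        field_simp

open Classical in
private theorem invz_card (hP : P.Ok) (E : EnvX P N D Lk Bd A χ) (hW : WT P N) {l : ℕ}
    (hl : l ∈ PZ N (MM P N)) :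
    (((ZX P N D χ).filter fun x => (l : ZMod N) * x ∉ ZX P N D χ).card : ℝ) ≤
      (Real.log N) ^ 44 / JJ N * (ZX P N D χ).card := by
  obtain ⟨hK, hJ, hKJ⟩ := invz_pos E
  have hM : Mul P N l := Or.inr hl
  obtain ⟨-, -, hlc, -, -⟩ := mul_facts E.hyp.nx hM
  have hul : IsUnit (l : ZMod N) := (ZMod.isUnit_iff_coprime l N).mpr hlc
  have h1 : ((ZX P N D χ).filter fun x => (l : ZMod N) * x ∉ ZX P N D χ) ⊆
      ((ZX P N D χ).filter fun x => ¬ Typ P N D Lk Bd l x) ∪ A := by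
    intro x hx
    obtain ⟨hx1, hx2⟩ := mem_filter.mp hx
    by_cases hA : x ∈ A
    · exact mem_union_right _ hA
    · refine mem_union_left _ (mem_filter.mpr ⟨hx1, fun ht => hx2 ?_⟩)
      obtain ⟨-, hu, hp, hf⟩ := mem_filter.mp hx1
      refine mem_filter.mpr ⟨mem_univ _, hul.mul hu, ht.x1, ?_⟩
      rw [maj1 E.hyp hM hu hA ht, lam_PZ hl, map_mul, E.small l hl]
      push_cast
      rw [hf]
      ring
  have h2 := (card_le_card h1).trans (card_union_le _ _)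
  have h3 : (((ZX P N D χ).filter fun x => (l : ZMod N) * x ∉ ZX P N D χ).card : ℝ) ≤
      (((ZX P N D χ).filter fun x => ¬ Typ P N D Lk Bd l x).card : ℝ) + (A.card : ℝ) := by
    exact_mod_cast h2
  refine h3.trans ?_
  have h4 := zbad hP E hW hM
  have h5 := acz hP E
  set K := Real.log N with hKdef
  have hK1 : 1 ≤ K := by linarith [show (1:ℝ) ≤ 10 ^ 9 by norm_num]
  have hK2 : 2 ≤ K := by linarith [show (2:ℝ) ≤ 10 ^ 9 by norm_num]
  have h6 : K ^ 43 / JJ N + 1 / JJ N ≤ K ^ 44 / JJ N := by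
    rw [← add_div]
    refine div_le_div_of_nonneg_right ?_ hJ.le
    have h7 : 1 ≤ K ^ 43 := one_le_pow₀ hK1
    have h8 : 2 * K ^ 43 ≤ K * K ^ 43 := mul_le_mul_of_nonneg_right hK2 (by positivity)
    have h9 : K * K ^ 43 = K ^ 44 := by ring
    linarith
  calc _ ≤ K ^ 43 / JJ N * (ZX P N D χ).card + 1 / JJ N * (ZX P N D χ).card := add_le_add h4 h5
    _ = (K ^ 43 / JJ N + 1 / JJ N) * (ZX P N D χ).card := by ring
    _ ≤ _ := mul_le_mul_of_nonneg_right h6 (Nat.cast_nonneg _)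

open Classical in
theorem invz (hP : P.Ok) (E : EnvX P N D Lk Bd A χ) (hW : WT P N) {l : ℕ} (hl : l ∈ PZ N (MM P N)) :
    ∑ x : ZMod N, ((if (l : ZMod N) * x ∈ ZX P N D χ then (1 : ℝ) else 0) -
      (if x ∈ ZX P N D χ then 1 else 0)) ^ 2 ≤ (Real.log N) ^ 45 / JJ N * (ZX P N D χ).card := by
  obtain ⟨hK, hJ, hKJ⟩ := invz_pos E
  have hM : Mul P N l := Or.inr hl
  obtain ⟨-, -, hlc, -, -⟩ := mul_facts E.hyp.nx hM
  have hul : IsUnit (l : ZMod N) := (ZMod.isUnit_iff_coprime l N).mpr hlc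
  set Z := ZX P N D χ with hZ
  have h1 : ∑ x : ZMod N, (if (l : ZMod N) * x ∈ Z then (1 : ℝ) else 0) =
      ∑ x : ZMod N, (if x ∈ Z then (1 : ℝ) else 0) := by
    have h2 := Equiv.sum_comp (Units.mulLeft hul.unit) (fun x : ZMod N => (if x ∈ Z then (1 : ℝ) else 0))
    rw [← h2]
    refine sum_congr rfl fun x _ => ?_
    rw [Units.mulLeft_apply, IsUnit.unit_spec]
  have h2 : ∑ x : ZMod N, ((if (l : ZMod N) * x ∈ Z then (1 : ℝ) else 0) -
      (if x ∈ Z then 1 else 0)) ^ 2 = 2 * ((Z.filter fun x => (l : ZMod N) * x ∉ Z).card : ℝ) := by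
    have h3 : ((Z.filter fun x => (l : ZMod N) * x ∉ Z).card : ℝ) =
        ∑ x : ZMod N, (if x ∈ Z then (if (l : ZMod N) * x ∉ Z then (1 : ℝ) else 0) else 0) := by
      rw [← sum_filter, filter_mem_eq_inter, univ_inter, sum_boole]
    rw [h3, mul_sum]
    have h4 : ∑ x : ZMod N, ((if (l : ZMod N) * x ∈ Z then (1 : ℝ) else 0) -
        (if x ∈ Z then 1 else 0)) ^ 2 =
        ∑ x : ZMod N, (2 * (if x ∈ Z then (if (l : ZMod N) * x ∉ Z then (1 : ℝ) else 0) else 0) +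
          ((if (l : ZMod N) * x ∈ Z then (1 : ℝ) else 0) - (if x ∈ Z then (1 : ℝ) else 0))) := by
      refine sum_congr rfl fun x _ => ?_
      by_cases ha : (l : ZMod N) * x ∈ Z <;> by_cases hb : x ∈ Z <;> simp [ha, hb] <;> norm_num
    rw [h4, sum_add_distrib, sum_sub_distrib, h1, sub_self, add_zero]
  rw [h2]
  have h3 := invz_card hP E hW hl
  set K := Real.log N with hKdef
  have hK2 : 2 ≤ K := by linarith [show (2:ℝ) ≤ 10 ^ 9 by norm_num]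
  have h5 : 2 * (K ^ 44 / JJ N * (Z.card : ℝ)) ≤ K * (K ^ 44 / JJ N * (Z.card : ℝ)) :=
    mul_le_mul_of_nonneg_right hK2 (by positivity)
  have h6 : K * (K ^ 44 / JJ N * (Z.card : ℝ)) = K ^ 45 / JJ N * (Z.card : ℝ) := by ring
  linarith

end Pool.Agent.Lib.TCF
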