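import Pool.Agent.Lib.MP_7b7e48_nt.TCF.Def2
import Pool.Agent.Lib.MP_7b7e48_nt.RG.A3
import Pool.Agent.Lib.MP_7b7e48_nt.RG.A2

/-!
# Module Smz (90 minutes): the measures of the two parts; total masses; numbers with many tuples

`K = log N`, `M = J1 rho_X`, `σ = sgm P χ`, `L` from `EnvX.lv` (`L ≤ K ^ 3 σ`). PROOFS.
`tm_q`: `q ∈ QM`, `t ∈ TUP`: `v = q t ≤ N ^ (1 - kap) N ^ (kap / 100) ≤ N ^ (1 - kap / 2)`, coprime to `N` (`χ q = 1 ≠ 0`), rough. `tm_m`: `m ∈ MV`, `m t ≤ N ^ kap N ^ (kap / 100) ≤ N ^ (2 kap)`, second alternative with `c = cc χ`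
(`RC_char`). `tm_q0`, `tm_m0`: the same for `v = q`, `v = m`.
`wt_tot`: `o = none`: trivial (`L = 1`). `o = some c`: `wt ≤ rr c n` (`rr_nonneg`), `∑_{n ≤ y} rr c n = SS c y ≤ L y + error` by `SS_asymp` (`RG/A3.lean`), the error is at most `L y` because `y ≥ N ^ (9/10)`, `L ≥ N ^ (-1/200)`.
`mv_sum`: `∑_{m ≤ N} 1/m ≤ 1 + log N`. `qm_sum`: definition of `sgm`.
`tot1`: `|NV (q t)| ≤ J1 N / (q t)`, sum over `q, t`: `σ rho J1 N`. `tot2`: `wt_tot` for `y = J1 N / (m t) ≥ N ^ (9/10)`: `∑ ≤ 2 L J1 N ∑ 1 / (m t) ≤ 2 L J1 N * 2 K rho`.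
`big1`: `Cnt.c5` with `z = J1 N` for every `q ∈ QM` (`n ∈ NV (q t)` has `n ≤ z`, `q t n ≤ z`): `∑_q K ^ 6 JJ / J1 * (J1 N / q)`. `big2`: for a prime `n > N ^ (1 - kap)`: `pht (m t n) = pht (m t)` because `n` is in no `B c` (the elements of `B c`
are `≤ N ^ (kap / 100)`, they divide tuples); so the sum is `≤ ∑_{m, t : pht (m t) > M / JJ} 2 L J1 N / (m t) ≤ 2 L J1 N ∑_{μ ≤ N ^ (2 kap), pht μ > M / JJ} pht μ / μ` (every `μ = m t` has at most `pht μ` representations), then `Cnt.c6`: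
`≤ 2 L J1 N K ^ 6 JJ / J1 ≤ 2 K ^ 9 σ JJ N`.
-/

set_option autoImplicit false

open Finset

namespace Pool.Agent.Lib.TCF

open Pool.Agent.Lib.RG hiding RR sig Good
open Pool.Agent.Lib.RH
open Pool.Agent.Lib.MP_45349e_nt.LS (lam)

variable {P : Prm} {N : ℕ} [NeZero N] {D : Dat} {Lk : ℕ → ℕ → ℕ → ℕ → Prop} {Bd : ℕ → ℕ → Prop}
  {A : Finset (ZMod N)} {χ : DirichletCharacter ℂ N}

private theorem smz_qm {q : ℕ} (hq : q ∈ QM P χ) : q.Prime ∧ MM P N < q ∧ χ (q : ZMod N) = 1 ∧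
    (q : ℝ) ≤ (N : ℝ) ^ (1 - P.kap) ∧ q.Coprime N := by
  classical
  unfold QM QS at hq
  obtain ⟨h1, h2⟩ := mem_filter.mp hq
  obtain ⟨-, h4, h5, h6⟩ := mem_filter.mp h1
  refine ⟨h4, h5, h6, h2, ?_⟩
  rw [← ZMod.isUnit_iff_coprime]
  by_contra hu
  rw [MulChar.map_nonunit χ hu] at h6
  exact zero_ne_one h6

omit [NeZero N] in
private theorem smz_mv {m : ℕ} (hm : m ∈ MV P N) : 1 ≤ m ∧ (m : ℝ) ≤ (N : ℝ) ^ P.kap ∧
    m.Coprime N ∧ Rough (MM P N) m := by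
  classical
  unfold MV at hm
  obtain ⟨h1, h2⟩ := mem_filter.mp hm
  obtain ⟨h3, h4⟩ := mem_Icc.mp h1
  exact ⟨h3, (Nat.cast_le.mpr h4).trans (Nat.floor_le (by positivity)), h2.1, h2.2⟩

private theorem smz_N (E : EnvX P N D Lk Bd A χ) : (1 : ℝ) ≤ N := by
  have h := N_two E.hyp.nx
  exact_mod_cast (by omega : 1 ≤ N)

private theorem smz_y0 (E : EnvX P N D Lk Bd A χ) : MM P N ≤ D.y0 := by
  have h := y0_MM E.hyp.nx E.hyp.ok
  have h1 : MM P N ≤ MM P N ^ 4 := Nat.le_self_pow (by norm_num) _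
  omega

/-- tuples -/
private theorem smz_tup (E : EnvX P N D Lk Bd A χ) {t : ℕ} (ht : t ∈ TUP D.BX) :
    1 ≤ t ∧ (t : ℝ) ≤ (N : ℝ) ^ (P.kap / 100) ∧ t.Coprime N ∧ Rough (MM P N) t := by
  obtain ⟨h1, -, -, h4, h5, -, h7⟩ := tup_facts E.hyp.ok.fx ht
  exact ⟨h1.le, h7, h4, rough_mono (smz_y0 E) h5⟩

private theorem smz_rc (E : EnvX P N D Lk Bd A χ) : RC N (cc χ) :=
  RC_char N (N_two E.hyp.nx) χ E.sq E.ne

private theorem smz_sm (E : EnvX P N D Lk Bd A χ) (c : ℕ → ℝ) (hc : some (cc χ) = some c) :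
    ∀ l ∈ PZ N (MM P N), c l = -1 := by
  intro l hl
  rw [← Option.some.inj hc]
  unfold cc
  rw [E.small l hl]
  simp

theorem sgm_pos (E : EnvX P N D Lk Bd A χ) : 0 < sgm P χ := by
  obtain ⟨L, -, h1, h2⟩ := E.lv
  have hK := hK E.hyp.nx
  have hN := smz_N E
  have h0 : (0 : ℝ) < (N : ℝ) ^ (-(1 / 200) : ℝ) := Real.rpow_pos_of_pos (by linarith) _
  by_contra hcon
  push Not at hcon
  have hK0 : (0 : ℝ) ≤ Real.log N := le_trans (by norm_num) hK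
  have h3 : (Real.log N) ^ 3 * sgm P χ ≤ 0 :=
    mul_nonpos_of_nonneg_of_nonpos (pow_nonneg hK0 3) hcon
  linarith

theorem tm_q (E : EnvX P N D Lk Bd A χ) {q t : ℕ} (hq : q ∈ QM P χ) (ht : t ∈ TUP D.BX) :
    TM P N (q * t) none 1 := by
  obtain ⟨h1, h2, -, h4, h5⟩ := smz_qm hq
  obtain ⟨t1, t2, t3, t4⟩ := smz_tup E ht
  have hN := smz_N E
  have hk := E.hyp.hP.kap0
  refine ⟨Nat.mul_pos h1.pos t1, Nat.Coprime.mul_left h5 t3, rough_mul (rough_prime h1 h2) t4,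
    Or.inl ⟨rfl, rfl, ?_⟩, nofun⟩
  push_cast
  calc (q : ℝ) * t ≤ (N : ℝ) ^ (1 - P.kap) * (N : ℝ) ^ (P.kap / 100) := by gcongr
    _ = (N : ℝ) ^ (1 - P.kap + P.kap / 100) := by rw [← Real.rpow_add (by linarith)]
    _ ≤ (N : ℝ) ^ (1 - P.kap / 2) := Real.rpow_le_rpow_of_exponent_le hN (by linarith)

theorem tm_q0 (E : EnvX P N D Lk Bd A χ) {q : ℕ} (hq : q ∈ QM P χ) : TM P N q none 1 := by
  obtain ⟨h1, h2, -, h4, h5⟩ := smz_qm hq
  have hN := smz_N E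
  have hk := E.hyp.hP.kap0
  refine ⟨h1.pos, h5, rough_prime h1 h2, Or.inl ⟨rfl, rfl, ?_⟩, nofun⟩
  exact h4.trans (Real.rpow_le_rpow_of_exponent_le hN (by linarith))

theorem tm_m (E : EnvX P N D Lk Bd A χ) {L : ℝ} (hL : LV N (cc χ) L)
    (hL2 : (N : ℝ) ^ (-(1 / 200) : ℝ) ≤ L) {m t : ℕ} (hm : m ∈ MV P N) (ht : t ∈ TUP D.BX) :
    TM P N (m * t) (some (cc χ)) L := by
  obtain ⟨h1, h2, h3, h4⟩ := smz_mv hm
  obtain ⟨t1, t2, t3, t4⟩ := smz_tup E ht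
  have hN := smz_N E
  have hk := E.hyp.hP.kap0
  refine ⟨Nat.mul_pos h1 t1, Nat.Coprime.mul_left h3 t3, rough_mul h4 t4,
    Or.inr ⟨cc χ, rfl, smz_rc E, hL, hL2, ?_⟩, smz_sm E⟩
  push_cast
  calc (m : ℝ) * t ≤ (N : ℝ) ^ P.kap * (N : ℝ) ^ (P.kap / 100) := by gcongr
    _ = (N : ℝ) ^ (P.kap + P.kap / 100) := by rw [← Real.rpow_add (by linarith)]
    _ ≤ (N : ℝ) ^ (2 * P.kap) := Real.rpow_le_rpow_of_exponent_le hN (by linarith)

theorem tm_m0 (E : EnvX P N D Lk Bd A χ) {L : ℝ} (hL : LV N (cc χ) L)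
    (hL2 : (N : ℝ) ^ (-(1 / 200) : ℝ) ≤ L) {m : ℕ} (hm : m ∈ MV P N) :
    TM P N m (some (cc χ)) L := by
  obtain ⟨h1, h2, h3, h4⟩ := smz_mv hm
  have hN := smz_N E
  have hk := E.hyp.hP.kap0
  refine ⟨h1, h3, h4, Or.inr ⟨cc χ, rfl, smz_rc E, hL, hL2, ?_⟩, smz_sm E⟩
  exact h2.trans (Real.rpow_le_rpow_of_exponent_le hN (by linarith))

theorem qm_sum (E : EnvX P N D Lk Bd A χ) :
    ∑ q ∈ QM P χ, ∑ t ∈ TUP D.BX, 1 / ((q * t : ℕ) : ℝ) = sgm P χ * rho D.BX := by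
  rw [← tup_sum E.hyp.ok.fx]
  unfold sgm
  rw [sum_mul_sum]
  refine sum_congr rfl fun q _ => sum_congr rfl fun t _ => ?_
  push_cast
  rw [one_div_mul_one_div]

theorem mv_sum0 (E : EnvX P N D Lk Bd A χ) : ∑ m ∈ MV P N, 1 / (m : ℝ) ≤ 2 * Real.log N := by
  have hN := smz_N E
  have hK := hK E.hyp.nx
  have hk1 := E.hyp.hP.kap1
  have h8 := harmonic_le_one_add_log N
  simp_rw [harmonic_eq_sum_Icc, Rat.cast_sum, Rat.cast_inv, Rat.cast_natCast] at h8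
  have h1 : MV P N ⊆ Icc 1 N := by
    intro m hm
    obtain ⟨h1, h2, -, -⟩ := smz_mv hm
    have h3 : (m : ℝ) ≤ N := by
      refine h2.trans ?_
      calc (N : ℝ) ^ P.kap ≤ (N : ℝ) ^ (1 : ℝ) := Real.rpow_le_rpow_of_exponent_le hN (by linarith)
        _ = N := Real.rpow_one _
    exact mem_Icc.mpr ⟨h1, by exact_mod_cast h3⟩
  have h2 : ∑ m ∈ MV P N, 1 / (m : ℝ) ≤ ∑ m ∈ Icc 1 N, ((m : ℕ) : ℝ)⁻¹ := by
    simp_rw [one_div]
    exact sum_le_sum_of_subset_of_nonneg h1 fun _ _ _ => by positivity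
  have h3 : (1 : ℝ) ≤ Real.log N := le_trans (by norm_num) hK
  linarith

theorem mv_sum (E : EnvX P N D Lk Bd A χ) :
    ∑ m ∈ MV P N, ∑ t ∈ TUP D.BX, 1 / ((m * t : ℕ) : ℝ) ≤ 2 * Real.log N * rho D.BX := by
  have hK := hK E.hyp.nx
  have h0 : (0 : ℝ) < Real.log N := lt_of_lt_of_le (by norm_num) hK
  have h1 : ∑ m ∈ MV P N, ∑ t ∈ TUP D.BX, 1 / ((m * t : ℕ) : ℝ) =
      (∑ m ∈ MV P N, 1 / (m : ℝ)) * rho D.BX := by
    rw [← tup_sum E.hyp.ok.fx, sum_mul_sum]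
    refine sum_congr rfl fun q _ => sum_congr rfl fun t _ => ?_
    push_cast
    rw [one_div_mul_one_div]
  rw [h1]
  exact mul_le_mul_of_nonneg_right (mv_sum0 E) (rho_pos E.hyp.ok.fx h0).le

theorem tot1 (E : EnvX P N D Lk Bd A χ) :
    S1 P D χ (fun _ _ => 1) ≤ (D.J1 * rho D.BX) * sgm P χ * N := by
  classical
  unfold S1
  have h1 : ∀ q ∈ QM P χ, ∀ t ∈ TUP D.BX, ∑ _n ∈ NV P N D (q * t), (1 : ℝ) ≤
      ((D.J1 : ℝ) * N) * (1 / ((q * t : ℕ) : ℝ)) := by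
    intro q hq t ht
    rw [sum_const, nsmul_eq_mul, mul_one]
    have h2 : (NV P N D (q * t)).card ≤ D.J1 * N / (q * t) := by
      unfold NV
      refine (card_filter_le _ _).trans ?_
      rw [Nat.card_Icc, Nat.add_sub_cancel]
    calc ((NV P N D (q * t)).card : ℝ) ≤ ((D.J1 * N / (q * t) : ℕ) : ℝ) := Nat.cast_le.mpr h2
      _ ≤ ((D.J1 * N : ℕ) : ℝ) / ((q * t : ℕ) : ℝ) := Nat.cast_div_le
      _ = _ := by
        rw [Nat.cast_mul D.J1 N]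
        ring
  calc _ ≤ ∑ q ∈ QM P χ, ∑ t ∈ TUP D.BX, ((D.J1 : ℝ) * N) * (1 / ((q * t : ℕ) : ℝ)) :=
        sum_le_sum fun q hq => sum_le_sum fun t ht => h1 q hq t ht
    _ = ((D.J1 : ℝ) * N) * ∑ q ∈ QM P χ, ∑ t ∈ TUP D.BX, 1 / ((q * t : ℕ) : ℝ) := by
        simp_rw [mul_sum]
    _ = _ := by
        rw [qm_sum E]
        ring

theorem big1 (E : EnvX P N D Lk Bd A χ) :
    S1 P D χ (fun _ a => if D.J1 * rho D.BX / JJ N < pht D.BX a then 1 else 0) ≤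
      (Real.log N) ^ 6 * JJ N * sgm P χ * N := by
  classical
  unfold S1
  have hJ1 : (0 : ℝ) < D.J1 := by
    have := j1_pos E.hyp.nx E.hyp.ok
    exact_mod_cast (by omega : 0 < D.J1)
  have h1 : ∀ q ∈ QM P χ, ∑ t ∈ TUP D.BX, ∑ n ∈ NV P N D (q * t),
      (if D.J1 * rho D.BX / JJ N < pht D.BX (q * t * n) then (1 : ℝ) else 0) ≤
      ((Real.log N) ^ 6 * JJ N * N) * (1 / (q : ℝ)) := by
    intro q hq
    obtain ⟨q1, q2, q3, q4, q5⟩ := smz_qm hq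
    have h2 := E.hyp.cnt.c5 q (Or.inr q1) q5 (D.J1 * N) le_rfl
    refine le_trans (le_trans (sum_le_sum fun t ht => ?_) h2) ?_
    · obtain ⟨t1, -, -, -⟩ := smz_tup E ht
      rw [← sum_filter, sum_const, nsmul_eq_mul, mul_one]
      refine Nat.cast_le.mpr (card_le_card fun n hn => ?_)
      obtain ⟨h3, h4⟩ := mem_filter.mp hn
      unfold NV at h3
      obtain ⟨h5, h6⟩ := mem_Icc.mp (mem_filter.mp h3).1
      have h7 : q * t * n ≤ D.J1 * N :=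
        (Nat.mul_le_mul_left (q * t) h6).trans (Nat.mul_div_le _ _)
      refine mem_filter.mpr ⟨mem_Icc.mpr ⟨h5, ?_⟩, h7, h4⟩
      exact h6.trans (Nat.div_le_self _ _)
    · refine le_of_eq ?_
      push_cast
      have hq0 : (0 : ℝ) < q := by exact_mod_cast q1.pos
      field_simp
  refine (sum_le_sum h1).trans (le_of_eq ?_)
  rw [← mul_sum]
  unfold sgm
  ring

/-- the upper bound for the mass of the second type (for large `N`) -/
theorem wt_tot (P : Prm) (hP : P.Ok) : ∃ N0 : ℕ, ∀ (N : ℕ) [NeZero N], N0 ≤ N →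
    ∀ (v : ℕ) (o : Option (ℕ → ℝ)) (L : ℝ), TM P N v o L → ∀ y0 y : ℕ, (N : ℝ) ^ ((9 : ℝ) / 10) ≤ y →
    ∑ n ∈ Icc 1 y, wt y0 o n ≤ 2 * L * y := by
  obtain ⟨C, hC, hSS⟩ := SS_asymp
  have t1 : Filter.Tendsto (fun N : ℕ => (N : ℝ) ^ ((37 : ℝ) / 200)) Filter.atTop Filter.atTop :=
    (tendsto_rpow_atTop (by norm_num)).comp tendsto_natCast_atTop_atTop
  obtain ⟨N0, h0⟩ := Filter.eventually_atTop.mp
    ((t1.eventually_ge_atTop C).and (Filter.eventually_ge_atTop 2))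
  refine ⟨N0, ?_⟩
  intro N _ hN v o L hT y0 y hy
  obtain ⟨hCN, hN2⟩ := h0 N hN
  rcases hT.ty with ⟨ho, hL, -⟩ | ⟨c, ho, hc, hL, hL2, -⟩
  · subst ho
    subst hL
    have h1 : ∑ n ∈ Icc 1 y, wt y0 none n = y := by
      simp [wt]
    rw [h1]
    have h2 : (0 : ℝ) ≤ y := Nat.cast_nonneg y
    linarith
  · subst ho
    have hNr : (1 : ℝ) ≤ N := by exact_mod_cast (by omega : 1 ≤ N)
    have hNp : (0 : ℝ) < N := by linarith
    have h1 : ∑ n ∈ Icc 1 y, wt y0 (some c) n ≤ SS c y := by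
      unfold SS
      refine sum_le_sum fun n _ => ?_
      have h3 := rr_nonneg N c hc n
      simp only [wt]
      split_ifs
      · exact le_rfl
      · exact h3
    have h2 := (abs_le.mp (hSS N hN2 c L hc hL y)).2
    have hy0 : (0 : ℝ) ≤ y := Nat.cast_nonneg y
    have h3 : (N : ℝ) ^ ((9 : ℝ) / 20) ≤ Real.sqrt y := by
      have h4 : (N : ℝ) ^ ((9 : ℝ) / 20) = Real.sqrt ((N : ℝ) ^ ((9 : ℝ) / 10)) := by
        rw [Real.sqrt_eq_rpow, ← Real.rpow_mul hNp.le]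
        norm_num
      rw [h4]
      exact Real.sqrt_le_sqrt hy
    have h5 : C * (N : ℝ) ^ ((13 : ℝ) / 50) ≤ L * Real.sqrt y := by
      calc C * (N : ℝ) ^ ((13 : ℝ) / 50)
          ≤ (N : ℝ) ^ ((37 : ℝ) / 200) * (N : ℝ) ^ ((13 : ℝ) / 50) := by gcongr
        _ = (N : ℝ) ^ (-(1 / 200) : ℝ) * (N : ℝ) ^ ((9 : ℝ) / 20) := by
            rw [← Real.rpow_add hNp, ← Real.rpow_add hNp]
            norm_num
        _ ≤ L * Real.sqrt y := by
            have h6 : (0 : ℝ) ≤ (N : ℝ) ^ (-(1 / 200) : ℝ) := by positivity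
            exact mul_le_mul hL2 h3 (by positivity) (h6.trans hL2)
    have h6 : C * Real.sqrt y * (N : ℝ) ^ ((13 : ℝ) / 50) ≤ L * y := by
      calc C * Real.sqrt y * (N : ℝ) ^ ((13 : ℝ) / 50)
          = (C * (N : ℝ) ^ ((13 : ℝ) / 50)) * Real.sqrt y := by ring
        _ ≤ (L * Real.sqrt y) * Real.sqrt y := mul_le_mul_of_nonneg_right h5 (Real.sqrt_nonneg _)
        _ = L * (Real.sqrt y * Real.sqrt y) := by ring
        _ = L * y := by rw [Real.mul_self_sqrt hy0]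
    linarith

/-- the conclusion of `wt_tot` as a hypothesis -/
def WT (P : Prm) (N : ℕ) : Prop :=
  ∀ (v : ℕ) (o : Option (ℕ → ℝ)) (L : ℝ), TM P N v o L → ∀ y0 y : ℕ, (N : ℝ) ^ ((9 : ℝ) / 10) ≤ y →
    ∑ n ∈ Icc 1 y, wt y0 o n ≤ 2 * L * y

private theorem smz_len (E : EnvX P N D Lk Bd A χ) {v : ℕ} (hv : 1 ≤ v)
    (hv2 : (v : ℝ) ≤ (N : ℝ) ^ (2 * P.kap)) : (N : ℝ) ^ ((9 : ℝ) / 10) ≤ ((D.J1 * N / v : ℕ) : ℝ) := by
  have hN := smz_N E
  have hNp : (0 : ℝ) < N := by linarith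
  have hK := hK E.hyp.nx
  have hk1 := E.hyp.hP.kap1
  have hJ := j1_pos E.hyp.nx E.hyp.ok
  have hvr : (0 : ℝ) < v := by exact_mod_cast hv
  have h1 : ((D.J1 * N : ℕ) : ℝ) < (v : ℝ) * (((D.J1 * N / v : ℕ) : ℝ) + 1) := by
    have h2 := Nat.lt_mul_div_succ (D.J1 * N) (show 0 < v by omega)
    exact_mod_cast h2
  have h3 : (N : ℝ) ≤ ((D.J1 * N : ℕ) : ℝ) := by
    exact_mod_cast Nat.le_mul_of_pos_left N (show 0 < D.J1 by omega)
  set y : ℝ := ((D.J1 * N / v : ℕ) : ℝ) with hy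
  have hy0 : 0 ≤ y := Nat.cast_nonneg _
  have h4 : (N : ℝ) < (N : ℝ) ^ (2 * P.kap) * (y + 1) := by
    calc (N : ℝ) ≤ ((D.J1 * N : ℕ) : ℝ) := h3
      _ < (v : ℝ) * (y + 1) := h1
      _ ≤ (N : ℝ) ^ (2 * P.kap) * (y + 1) := mul_le_mul_of_nonneg_right hv2 (by linarith)
  have h5 : (N : ℝ) ^ (1 - 2 * P.kap) ≤ y + 1 := by
    rw [Real.rpow_sub hNp, Real.rpow_one, div_le_iff₀ (Real.rpow_pos_of_pos hNp _), mul_comm]
    exact h4.le
  have h6 : (N : ℝ) ^ ((9 : ℝ) / 10) * (N : ℝ) ^ ((9 : ℝ) / 100) ≤ (N : ℝ) ^ (1 - 2 * P.kap) := by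
    rw [← Real.rpow_add hNp]
    exact Real.rpow_le_rpow_of_exponent_le hN (by linarith)
  have h7 : (2 : ℝ) ≤ (N : ℝ) ^ ((9 : ℝ) / 100) := by
    rw [Real.rpow_def_of_pos hNp]
    have h8 := Real.add_one_le_exp (Real.log N * (9 / 100))
    have h9 : (10 : ℝ) ^ 9 * (9 / 100) ≤ Real.log N * (9 / 100) :=
      mul_le_mul_of_nonneg_right hK (by norm_num)
    have h10 : (1 : ℝ) ≤ (10 : ℝ) ^ 9 * (9 / 100) := by norm_num
    linarith
  have h8 : (1 : ℝ) ≤ (N : ℝ) ^ ((9 : ℝ) / 10) := Real.one_le_rpow hN (by norm_num)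
  nlinarith

/-- the inner sums of the second part -/
private theorem smz_inner (E : EnvX P N D Lk Bd A χ) (hW : WT P N) {L : ℝ} (hL : LV N (cc χ) L)
    (hL2 : (N : ℝ) ^ (-(1 / 200) : ℝ) ≤ L) {m t : ℕ} (hm : m ∈ MV P N) (ht : t ∈ TUP D.BX)
    (S : Finset ℕ) (hS : S ⊆ NV P N D (m * t)) :
    ∑ n ∈ S, wt D.y0 (some (cc χ)) n ≤ (2 * L * (D.J1 * N)) * (1 / ((m * t : ℕ) : ℝ)) := by
  classical
  have hT := tm_m E hL hL2 hm ht
  have hv1 := hT.v1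
  have hv2 : ((m * t : ℕ) : ℝ) ≤ (N : ℝ) ^ (2 * P.kap) := by
    rcases hT.ty with ⟨h, -, -⟩ | ⟨c, -, -, -, -, h⟩
    · exact absurd h (by simp)
    · exact h
  have hL0 : 0 < L := tm_L_pos E.hyp.nx hT
  have h1 : ∑ n ∈ S, wt D.y0 (some (cc χ)) n ≤
      ∑ n ∈ Icc 1 (D.J1 * N / (m * t)), wt D.y0 (some (cc χ)) n := by
    refine sum_le_sum_of_subset_of_nonneg ?_ fun n _ _ => wt_nonneg hT D.y0 n
    refine hS.trans ?_
    unfold NV
    exact filter_subset _ _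
  have h2 := hW _ _ _ hT D.y0 _ (smz_len E hv1 hv2)
  have h3 : ((D.J1 * N / (m * t) : ℕ) : ℝ) ≤ (D.J1 * N) * (1 / ((m * t : ℕ) : ℝ)) := by
    refine (Nat.cast_div_le (α := ℝ)).trans (le_of_eq ?_)
    rw [Nat.cast_mul D.J1 N]
    ring
  calc _ ≤ _ := h1
    _ ≤ _ := h2
    _ ≤ 2 * L * ((D.J1 * N) * (1 / ((m * t : ℕ) : ℝ))) :=
        mul_le_mul_of_nonneg_left h3 (by linarith)
    _ = _ := by ring

theorem tot2 (E : EnvX P N D Lk Bd A χ) (hW : WT P N) :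
    S2 P D χ (fun _ _ => 1) ≤ (Real.log N) ^ 5 * (D.J1 * rho D.BX) * sgm P χ * N := by
  classical
  obtain ⟨L, hL, hL2, hL3⟩ := E.lv
  have hN := smz_N E
  have hK := hK E.hyp.nx
  have hK0 : (0 : ℝ) < Real.log N := lt_of_lt_of_le (by norm_num) hK
  have hK4 : (4 : ℝ) ≤ Real.log N := le_trans (by norm_num) hK
  have hL0 : 0 ≤ L := (by positivity : (0 : ℝ) ≤ (N : ℝ) ^ (-(1 / 200) : ℝ)).trans hL2
  have hrho := rho_pos E.hyp.ok.fx hK0
  have hsg := sgm_pos E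
  unfold S2
  have h1 : ∀ m ∈ MV P N, ∀ t ∈ TUP D.BX,
      ∑ n ∈ (NV P N D (m * t)).filter (fun n : ℕ => n.Prime ∧ (N : ℝ) ^ (1 - P.kap) < (n : ℝ)),
        wt D.y0 (some (cc χ)) n * 1 ≤ (2 * L * (D.J1 * N)) * (1 / ((m * t : ℕ) : ℝ)) := by
    intro m hm t ht
    simp_rw [mul_one]
    exact smz_inner E hW hL hL2 hm ht _ (filter_subset _ _)
  have h2 := mv_sum E
  calc _ ≤ ∑ m ∈ MV P N, ∑ t ∈ TUP D.BX, (2 * L * (D.J1 * N)) * (1 / ((m * t : ℕ) : ℝ)) :=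
        sum_le_sum fun m hm => sum_le_sum fun t ht => h1 m hm t ht
    _ = (2 * L * (D.J1 * N)) * ∑ m ∈ MV P N, ∑ t ∈ TUP D.BX, 1 / ((m * t : ℕ) : ℝ) := by
        simp_rw [mul_sum]
    _ ≤ (2 * L * (D.J1 * N)) * (2 * Real.log N * rho D.BX) :=
        mul_le_mul_of_nonneg_left h2 (by positivity)
    _ = (4 * L * Real.log N) * (D.J1 * rho D.BX * N) := by ring
    _ ≤ (Real.log N * ((Real.log N) ^ 3 * sgm P χ) * Real.log N) * (D.J1 * rho D.BX * N) := by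
        gcongr
    _ = _ := by ring

/-- the primes of the family are small -/
private theorem smz_small (E : EnvX P N D Lk Bd A χ) {c : Fin D.nX} {p : ℕ} (hp : p ∈ D.BX c) :
    (p : ℝ) ≤ (N : ℝ) ^ (P.kap / 100) := by
  classical
  have hK := hK E.hyp.nx
  have hK0 : (0 : ℝ) < Real.log N := lt_of_lt_of_le (by norm_num) hK
  have hne : ∀ c' : Fin D.nX, ∃ p' : ℕ, p' ∈ D.BX c' := by
    intro c'
    by_contra hcon
    push Not at hcon
    have h1 := E.hyp.ok.fx.lo c'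
    rw [Finset.eq_empty_of_forall_notMem hcon, sum_empty] at h1
    have h2 : (0 : ℝ) < 1 / (Real.log N) ^ 3 := by positivity
    linarith
  choose g hg using hne
  set f : Fin D.nX → ℕ := Function.update g c p with hf
  have hfm : f ∈ Fintype.piFinset D.BX := by
    rw [Fintype.mem_piFinset]
    intro c'
    by_cases h : c' = c
    · subst h
      rw [hf, Function.update_self]
      exact hp
    · rw [hf, Function.update_of_ne h]
      exact hg c'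
  have ht : (∏ c', f c') ∈ TUP D.BX := mem_image_of_mem _ hfm
  have h1 := E.hyp.ok.fx.tup _ ht
  have h2 : p ∣ ∏ c', f c' := by
    have h3 : f c = p := by rw [hf, Function.update_self]
    rw [← h3]
    exact dvd_prod_of_mem f (mem_univ c)
  have h3 : 0 < ∏ c', f c' := by
    have h4 := (tup_facts E.hyp.ok.fx ht).1
    omega
  have h4 : (p : ℝ) ≤ ((∏ c', f c' : ℕ) : ℝ) := by exact_mod_cast Nat.le_of_dvd h3 h2
  exact h4.trans h1

private theorem smz_pht (E : EnvX P N D Lk Bd A χ) (a : ℕ) {n : ℕ} (hn : n.Prime)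
    (hn2 : (N : ℝ) ^ (1 - P.kap) < (n : ℝ)) : pht D.BX (a * n) = pht D.BX a := by
  classical
  have hN := smz_N E
  have hk1 := E.hyp.hP.kap1
  unfold pht
  refine prod_congr rfl fun c _ => ?_
  have h1 : ∀ p ∈ D.BX c, (p ∣ a * n ↔ p ∣ a) := by
    intro p hp
    have hpp := (E.hyp.ok.fx.pr c p hp).1
    constructor
    · intro h
      rcases (Nat.Prime.dvd_mul hpp).mp h with h2 | h2
      · exact h2
      · exfalso
        have h3 := (Nat.prime_dvd_prime_iff_eq hpp hn).mp h2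
        have h4 := smz_small E hp
        have h5 : (N : ℝ) ^ (P.kap / 100) ≤ (N : ℝ) ^ (1 - P.kap) :=
          Real.rpow_le_rpow_of_exponent_le hN (by linarith)
        rw [h3] at h4
        linarith
    · intro h
      exact h.mul_right n
  rw [filter_congr h1]

theorem big2 (E : EnvX P N D Lk Bd A χ) (hW : WT P N) :
    S2 P D χ (fun _ a => if D.J1 * rho D.BX / JJ N < pht D.BX a then 1 else 0) ≤
      (Real.log N) ^ 10 * JJ N * sgm P χ * N := by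
  classical
  obtain ⟨L, hL, hL2, hL3⟩ := E.lv
  have hN := smz_N E
  have hNp : (0 : ℝ) < N := by linarith
  have hK := hK E.hyp.nx
  have hK0 : (0 : ℝ) < Real.log N := lt_of_lt_of_le (by norm_num) hK
  have hK4 : (2 : ℝ) ≤ Real.log N := le_trans (by norm_num) hK
  have hL0 : 0 ≤ L := (by positivity : (0 : ℝ) ≤ (N : ℝ) ^ (-(1 / 200) : ℝ)).trans hL2
  have hk := E.hyp.hP.kap0
  have hsg := sgm_pos E
  have hJ1 : (0 : ℝ) < D.J1 := by
    have := j1_pos E.hyp.nx E.hyp.ok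
    exact_mod_cast (by omega : 0 < D.J1)
  set W : ℝ := D.J1 * rho D.BX / JJ N with hWdef
  set T : Finset ℕ := (Icc 1 ⌊(N : ℝ) ^ (2 * P.kap)⌋₊).filter (fun μ => W < pht D.BX μ) with hTdef
  unfold S2
  have h1 : ∀ m ∈ MV P N, ∀ t ∈ TUP D.BX,
      ∑ n ∈ (NV P N D (m * t)).filter (fun n : ℕ => n.Prime ∧ (N : ℝ) ^ (1 - P.kap) < (n : ℝ)),
        wt D.y0 (some (cc χ)) n * (if W < pht D.BX (m * t * n) then (1 : ℝ) else 0) ≤
      (2 * L * (D.J1 * N)) * (if W < pht D.BX (m * t) then 1 / ((m * t : ℕ) : ℝ) else 0) := by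
    intro m hm t ht
    have h2 : ∑ n ∈ (NV P N D (m * t)).filter
          (fun n : ℕ => n.Prime ∧ (N : ℝ) ^ (1 - P.kap) < (n : ℝ)),
        wt D.y0 (some (cc χ)) n * (if W < pht D.BX (m * t * n) then (1 : ℝ) else 0) =
        ∑ n ∈ (NV P N D (m * t)).filter
          (fun n : ℕ => n.Prime ∧ (N : ℝ) ^ (1 - P.kap) < (n : ℝ)),
        wt D.y0 (some (cc χ)) n * (if W < pht D.BX (m * t) then (1 : ℝ) else 0) := by
      refine sum_congr rfl fun n hn => ?_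
      obtain ⟨-, h3, h4⟩ := mem_filter.mp hn
      rw [smz_pht E (m * t) h3 h4]
    rw [h2]
    by_cases h3 : W < pht D.BX (m * t)
    · simp only [if_pos h3, mul_one]
      exact smz_inner E hW hL hL2 hm ht _ (filter_subset _ _)
    · simp only [if_neg h3, mul_zero, sum_const_zero]
      exact le_rfl
  -- each tuple
  have h2 : ∀ t ∈ TUP D.BX, ∑ m ∈ MV P N, (if W < pht D.BX (m * t) then 1 / ((m * t : ℕ) : ℝ) else 0) ≤
      ∑ μ ∈ T, (if t ∣ μ then 1 / (μ : ℝ) else 0) := by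
    intro t ht
    obtain ⟨t1, t2, -, -⟩ := smz_tup E ht
    rw [← sum_filter, ← sum_filter]
    have hinj : Set.InjOn (fun m : ℕ => m * t) ((MV P N).filter fun m => W < pht D.BX (m * t)) := by
      intro x _ y _ hxy
      exact Nat.eq_of_mul_eq_mul_right (show 0 < t by omega) hxy
    rw [← sum_image (f := fun μ : ℕ => 1 / (μ : ℝ)) hinj]
    refine sum_le_sum_of_subset_of_nonneg ?_ fun _ _ _ => by positivity
    intro μ hμ
    obtain ⟨m, hm, rfl⟩ := mem_image.mp hμ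
    obtain ⟨hm1, hm2⟩ := mem_filter.mp hm
    obtain ⟨m1, m2, -, -⟩ := smz_mv hm1
    refine mem_filter.mpr ⟨mem_filter.mpr ⟨mem_Icc.mpr ⟨Nat.mul_pos m1 t1, ?_⟩, hm2⟩, Nat.dvd_mul_left t m⟩
    refine Nat.le_floor ?_
    push_cast
    calc (m : ℝ) * t ≤ (N : ℝ) ^ P.kap * (N : ℝ) ^ (P.kap / 100) := by gcongr
      _ = (N : ℝ) ^ (P.kap + P.kap / 100) := by rw [← Real.rpow_add (by linarith)]
      _ ≤ (N : ℝ) ^ (2 * P.kap) := Real.rpow_le_rpow_of_exponent_le hN (by linarith)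
  have h3 : ∑ m ∈ MV P N, ∑ t ∈ TUP D.BX,
      (if W < pht D.BX (m * t) then 1 / ((m * t : ℕ) : ℝ) else 0) ≤
      ∑ μ ∈ T, pht D.BX μ / (μ : ℝ) := by
    rw [sum_comm]
    refine (sum_le_sum h2).trans (le_of_eq ?_)
    rw [sum_comm]
    refine sum_congr rfl fun μ _ => ?_
    rw [pht_eq E.hyp.ok.fx μ, ← sum_filter, sum_const, nsmul_eq_mul, mul_one_div]
  have h4 := E.hyp.cnt.c6
  rw [← hWdef] at h4
  calc _ ≤ ∑ m ∈ MV P N, ∑ t ∈ TUP D.BX, (2 * L * (D.J1 * N)) *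
          (if W < pht D.BX (m * t) then 1 / ((m * t : ℕ) : ℝ) else 0) :=
        sum_le_sum fun m hm => sum_le_sum fun t ht => h1 m hm t ht
    _ = (2 * L * (D.J1 * N)) * ∑ m ∈ MV P N, ∑ t ∈ TUP D.BX,
          (if W < pht D.BX (m * t) then 1 / ((m * t : ℕ) : ℝ) else 0) := by
        simp_rw [mul_sum]
    _ ≤ (2 * L * (D.J1 * N)) * ((Real.log N) ^ 6 * JJ N / D.J1) :=
        mul_le_mul_of_nonneg_left (h3.trans h4) (by positivity)
    _ = 2 * L * ((Real.log N) ^ 6 * JJ N * N) := by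
        field_simp
    _ ≤ Real.log N * ((Real.log N) ^ 3 * sgm P χ) * ((Real.log N) ^ 6 * JJ N * N) := by
        gcongr
    _ = _ := by ring

end Pool.Agent.Lib.TCF
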