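import Pool.Agent.Lib.MP_7b7e48_nt.TCF.Tha
import Pool.Agent.Lib.MP_7b7e48_nt.TCF.Thb
import Pool.Agent.Lib.MP_7b7e48_nt.TCF.Qsm

/-!
# Module Thn (75 minutes): the hypotheses of the spectral lemma for the indicator of `ZX`

`K = log N`, `Z = ZX`, `h = 1_Z`, `ρ n = 1` if `DA χ n`, else `0`; `L Y = ` the primes `l` of `block N Y` with `χ l ≠ 1` (so `χ l = -1`), `θ = 1`, `ε = K ^ 60 / JJ`. `∑ h ^ 2 = |Z|`.
PROOFS. `zero`: elements of `Z` are units. `big`: `Num.bl` (`2 ^ i ≥ MM ≥ K ^ 10`): `|block| ≥ 2 ^ i / (4 K)`, minus `qblk`. `inv`: `invz`. `one`: for `l ∈ L` and `b = m n` coprime to `N`: `DA χ (l b) ↔ DA χ b` (`RH.DA_mul`: `lam (l b) = - lam b`, `χ (l b) = - χ b`), so the term is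
`(1_Z a - [DA a]) ^ 2 = [exactly one of a ∈ Z, DA a]`, `a = l b`; by `mulx_one` with `W a = [..]` the sum is `≤ 4 K ∑_{a ∈ AG} pht a W a ≤ 4 K (tha + thb) ≤ 8 K K ^ 55 / JJ M |Z| ≤ ε M |Z|`. `two`: `mulx_two`, `l1 ∈ block N MM ⊆ PZ` has `χ l1 = -1`, `θ = 1`: factor `(4 K) ^ 2 ≤ K ^ 3`.
`blq`: `block \ L` = the `q` of the block with `χ q = 1`: `qblk`.
-/

set_option autoImplicit false

open Finset

namespace Pool.Agent.Lib.TCF

open Pool.Agent.Lib.RG hiding RR sig Good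
open Pool.Agent.Lib.RH
open Pool.Agent.Lib.MP_45349e_nt.LS (lam)

variable {P : Prm} {N : ℕ} [NeZero N] {D : Dat} {Lk : ℕ → ℕ → ℕ → ℕ → Prop} {Bd : ℕ → ℕ → Prop}
  {A : Finset (ZMod N)} {χ : DirichletCharacter ℂ N}

open Classical in
/-- the primes of the blocks with `χ = -1` -/
noncomputable def LX {N : ℕ} (χ : DirichletCharacter ℂ N) (Y : ℕ) : Finset ℕ :=
  (block N Y).filter fun l => ¬ χ (l : ZMod N) = 1

open Classical in
private theorem Thn_sdiff (Y : ℕ) :
    block N Y \ LX χ Y = (block N Y).filter fun q : ℕ => χ (q : ZMod N) = 1 := by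
  ext l
  unfold LX
  rw [mem_sdiff, mem_filter, mem_filter]
  tauto

open Classical in
/-- the indicator of the difference -/
private noncomputable def Thn_W (P : Prm) (N : ℕ) [NeZero N] (D : Dat) (χ : DirichletCharacter ℂ N)
    (a : ℕ) : ℝ :=
  (if DA χ a ∧ ((a : ℕ) : ZMod N) ∉ ZX P N D χ then 1 else 0) +
    (if ¬ DA χ a ∧ ((a : ℕ) : ZMod N) ∈ ZX P N D χ then 1 else 0)

open Classical in
private theorem Thn_W0 (a : ℕ) : 0 ≤ Thn_W P N D χ a := by
  unfold Thn_W
  refine add_nonneg ?_ ?_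
  · split_ifs <;> norm_num
  · split_ifs <;> norm_num

open Classical in
private theorem Thn_sq {a b : ℕ} (h : DA χ a ↔ DA χ b) :
    ((if ((a : ℕ) : ZMod N) ∈ ZX P N D χ then (1 : ℝ) else 0) - (if DA χ b then 1 else 0)) ^ 2 =
      Thn_W P N D χ a := by
  unfold Thn_W
  by_cases h1 : ((a : ℕ) : ZMod N) ∈ ZX P N D χ
  · by_cases h2 : DA χ a
    · simp [h1, h2, h.mp h2]
    · have h3 : ¬ DA χ b := fun h4 => h2 (h.mpr h4)
      simp [h1, h2, h3]
  · by_cases h2 : DA χ a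
    · simp [h1, h2, h.mp h2]
    · have h3 : ¬ DA χ b := fun h4 => h2 (h.mpr h4)
      simp [h1, h2, h3]

open Classical in
private theorem Thn_sum (hP : P.Ok) (E : EnvX P N D Lk Bd A χ) (hW : WT P N) :
    ∑ a ∈ AG P N D, pht D.BX a * Thn_W P N D χ a ≤
      2 * (Real.log N) ^ 55 / JJ N * (D.J1 * rho D.BX) * (ZX P N D χ).card := by
  have h1 := tha hP E hW
  have h2 := thb hP E hW
  have h3 : ∑ a ∈ AG P N D, pht D.BX a * Thn_W P N D χ a =
      ∑ a ∈ AG P N D, pht D.BX a *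
        (if DA χ a ∧ ((a : ℕ) : ZMod N) ∉ ZX P N D χ then 1 else 0) +
      ∑ a ∈ AG P N D, pht D.BX a *
        (if ¬ DA χ a ∧ ((a : ℕ) : ZMod N) ∈ ZX P N D χ then 1 else 0) := by
    rw [← sum_add_distrib]
    refine sum_congr rfl fun a _ => ?_
    unfold Thn_W
    ring
  rw [h3]
  have hKK := hK E.hyp.nx
  have hM := mr_pos_X E.hyp.nx E.hyp.ok
  have hJ : (0 : ℝ) < JJ N := by
    have := jj_one E.hyp.nx
    exact_mod_cast this
  set K := Real.log N with hKdef
  have hK1 : (1 : ℝ) ≤ K := by linarith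
  have h4 : K ^ 45 ≤ K ^ 55 := pow_le_pow_right₀ hK1 (by norm_num)
  have h5 : K ^ 45 / JJ N * (D.J1 * rho D.BX) * (ZX P N D χ).card ≤
      K ^ 55 / JJ N * (D.J1 * rho D.BX) * (ZX P N D χ).card := by gcongr
  have h6 : 2 * K ^ 55 / JJ N * (D.J1 * rho D.BX) * (ZX P N D χ).card =
      K ^ 55 / JJ N * (D.J1 * rho D.BX) * (ZX P N D χ).card +
      K ^ 55 / JJ N * (D.J1 * rho D.BX) * (ZX P N D χ).card := by ring
  rw [h6]
  linarith

open Classical in
private theorem Thn_hsq : ∑ x : ZMod N, (if x ∈ ZX P N D χ then (1 : ℝ) else 0) ^ 2 =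
    (ZX P N D χ).card := by
  have h1 : ∀ x : ZMod N, (if x ∈ ZX P N D χ then (1 : ℝ) else 0) ^ 2 =
      (if x ∈ ZX P N D χ then (1 : ℝ) else 0) := by
    intro x
    split_ifs <;> norm_num
  rw [sum_congr rfl fun x _ => h1 x, sum_ite_mem, univ_inter, sum_const, nsmul_eq_mul, mul_one]

private theorem Thn_LX (E : EnvX P N D Lk Bd A χ) {Y l : ℕ} (h : l ∈ LX χ Y) :
    l.Prime ∧ χ (l : ZMod N) = -1 := by
  classical
  unfold LX at h
  obtain ⟨h1, h2⟩ := mem_filter.mp h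
  obtain ⟨_, _, h3, h4⟩ := mem_block.mp h1
  refine ⟨h3, ?_⟩
  rcases chi_pm E.sq (unit_of_cop ((Nat.Prime.coprime_iff_not_dvd h3).mpr h4)) with h5 | h5
  · exact absurd h5 h2
  · exact h5

open Classical in
theorem blq (E : EnvX P N D Lk Bd A χ) {i : ℕ} (hi : InR P N i) :
    ((block N (2 ^ i) \ LX χ (2 ^ i)).card : ℝ) ≤ (2 : ℝ) ^ i / (Real.log N) ^ 10 := by
  have h1 := qblk E.hyp.nx χ E.blk hi
  have hKK := hK E.hyp.nx
  rw [Thn_sdiff]
  refine h1.trans ?_
  set K := Real.log N with hKdef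
  have hK1 : (1 : ℝ) ≤ K := by linarith
  have h2 : K ^ 10 ≤ 4 * K ^ 12 := by
    have h3 : K ^ 10 ≤ K ^ 12 := pow_le_pow_right₀ hK1 (by norm_num)
    have h4 : 0 ≤ K ^ 12 := by positivity
    linarith
  exact div_le_div_of_nonneg_left (by positivity) (by positivity) h2

open Classical in
theorem uslx_z (hP : P.Ok) (E : EnvX P N D Lk Bd A χ) (hW : WT P N) :
    USLX P N D ((Real.log N) ^ 60 / JJ N) 1 (fun x => if x ∈ ZX P N D χ then 1 else 0)
      (fun n => if DA χ n then 1 else 0) (LX χ) := by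
  have hn := E.hyp.nx
  have hKK := hK hn
  have hM := mr_pos_X E.hyp.nx E.hyp.ok
  have hJ : (0 : ℝ) < JJ N := by
    have := jj_one E.hyp.nx
    exact_mod_cast this
  have hsum := Thn_sum hP E hW
  have hZ0 : (0 : ℝ) ≤ (ZX P N D χ).card := Nat.cast_nonneg _
  have hN2 := N_two hn
  have hNr : (1 : ℝ) ≤ N := by exact_mod_cast (by omega : 1 ≤ N)
  have hM1 := hn.num.M1
  set K := Real.log N with hKdef
  have hK1 : (1 : ℝ) ≤ K := by linarith
  have hK10 : (100 : ℝ) ≤ K := le_trans (by norm_num) hKK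
  set M : ℝ := D.J1 * rho D.BX with hMdef
  set Z : ℝ := ((ZX P N D χ).card : ℝ) with hZdef
  have hMZ : 0 ≤ 1 / (JJ N : ℝ) * M * Z := by positivity
  have hfin : ∀ c : ℝ, c ≤ (4 * K) ^ 2 → 0 ≤ c →
      c * (2 * K ^ 55 / JJ N * M * Z) ≤ K ^ 60 / JJ N * M * Z := by
    intro c hc hc0
    have h1 : c * (2 * K ^ 55) ≤ K ^ 60 := by
      have h2 : c * (2 * K ^ 55) ≤ (4 * K) ^ 2 * (2 * K ^ 55) :=
        mul_le_mul_of_nonneg_right hc (by positivity)
      have h3 : (4 * K) ^ 2 * (2 * K ^ 55) = 32 * K ^ 57 := by ring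
      have h4 : 32 * K ^ 57 ≤ K * K ^ 57 := mul_le_mul_of_nonneg_right (by linarith) (by positivity)
      have h5 : K * K ^ 57 = K ^ 58 := by ring
      have h6 : K ^ 58 ≤ K ^ 60 := pow_le_pow_right₀ hK1 (by norm_num)
      linarith
    have h2 := mul_le_mul_of_nonneg_right h1 hMZ
    calc c * (2 * K ^ 55 / JJ N * M * Z) = c * (2 * K ^ 55) * (1 / (JJ N : ℝ) * M * Z) := by ring
      _ ≤ K ^ 60 * (1 / (JJ N : ℝ) * M * Z) := h2
      _ = _ := by ring
  refine ⟨?_, ?_, ?_, ?_, ?_, ?_⟩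
  · -- zero
    intro x hx
    rw [if_neg]
    intro h
    unfold ZX at h
    exact hx (mem_filter.mp h).2.1
  · -- sub
    intro Y
    unfold LX
    exact filter_subset _ _
  · -- big
    intro i hi1 hi2
    have hinr : InR P N i := by
      refine ⟨?_, hi2⟩
      unfold MM at hi1
      exact (Nat.pow_le_pow_iff_right (by norm_num)).mp hi1
    have h1 := qblk hn χ E.blk hinr
    have hiR : (MM P N : ℝ) ≤ (2 : ℝ) ^ i := by exact_mod_cast hi1
    have h2 : K ^ 3 ≤ ((2 ^ i : ℕ) : ℝ) := by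
      push_cast
      refine le_trans ?_ (hM1.trans hiR)
      exact pow_le_pow_right₀ hK1 (by have := hP.C1; omega)
    have h3 : 2 ^ i ≤ N := by
      have h4 : (2 : ℝ) ^ i ≤ (N : ℝ) := by
        refine hi2.trans ?_
        unfold HH
        calc (N : ℝ) ^ (1 / 2 - 2 * P.kap) ≤ (N : ℝ) ^ (1 : ℝ) :=
              Real.rpow_le_rpow_of_exponent_le hNr (by have := hP.kap0; linarith)
          _ = N := Real.rpow_one _
      exact_mod_cast h4
    have h4 := hn.num.bl (2 ^ i) h2 h3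
    have h5 : (block N (2 ^ i)).card ≤ (LX χ (2 ^ i)).card +
        ((block N (2 ^ i)).filter fun q : ℕ => χ (q : ZMod N) = 1).card := by
      rw [← Thn_sdiff]
      have h6 : block N (2 ^ i) ⊆ LX χ (2 ^ i) ∪ (block N (2 ^ i) \ LX χ (2 ^ i)) := by
        intro l hl
        rw [mem_union, mem_sdiff]
        tauto
      exact (card_le_card h6).trans (card_union_le _ _)
    have h6 : ((block N (2 ^ i)).card : ℝ) ≤ (LX χ (2 ^ i)).card +
        (((block N (2 ^ i)).filter fun q : ℕ => χ (q : ZMod N) = 1).card : ℝ) := by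
      exact_mod_cast h5
    push_cast at h4
    have h7 : (2 : ℝ) ^ i / K ^ 2 + (2 : ℝ) ^ i / (4 * K ^ 12) ≤ (2 : ℝ) ^ i / (4 * K) := by
      have h8 : 1 / K ^ 2 + 1 / (4 * K ^ 12) ≤ 1 / (4 * K) := by
        have h9 : 1 / K ^ 2 ≤ 1 / (8 * K) := by
          apply one_div_le_one_div_of_le (by positivity)
          nlinarith
        have h10 : 1 / (4 * K ^ 12) ≤ 1 / (8 * K) := by
          apply one_div_le_one_div_of_le (by positivity)
          have h11 : K ^ 2 ≤ K ^ 12 := pow_le_pow_right₀ hK1 (by norm_num)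
          nlinarith
        have h11 : 1 / (8 * K) + 1 / (8 * K) = 1 / (4 * K) := by
          field_simp
          norm_num
        linarith
      have h9 := mul_le_mul_of_nonneg_left h8 (show (0 : ℝ) ≤ (2 : ℝ) ^ i by positivity)
      calc (2 : ℝ) ^ i / K ^ 2 + (2 : ℝ) ^ i / (4 * K ^ 12) =
            (2 : ℝ) ^ i * (1 / K ^ 2 + 1 / (4 * K ^ 12)) := by ring
        _ ≤ _ := h9
        _ = _ := by ring
    linarith
  · -- inv
    intro l hl
    rw [Thn_hsq]
    have h1 := invz hP E hW hl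
    simp only [one_mul]
    refine h1.trans ?_
    have h2 : K ^ 45 ≤ K ^ 60 := pow_le_pow_right₀ hK1 (by norm_num)
    gcongr
  · -- one
    intro i hi1 hi2
    have hMMi : MM P N ≤ 2 ^ i := by
      have h1 := mm_one P N
      have h2 : MM P N ≤ MM P N ^ 2 := by nlinarith
      omega
    have h1 := mulx_one hP hn E.hyp.ok hMMi (LX χ (2 ^ i)) (by unfold LX; exact filter_subset _ _)
      (Thn_W P N D χ) Thn_W0
    rw [Thn_hsq]
    refine le_trans (le_of_eq ?_) (h1.trans ?_)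
    · refine sum_congr rfl fun l hl => sum_congr rfl fun m hm => sum_congr rfl fun n hn' => ?_
      obtain ⟨hlp, hlχ⟩ := Thn_LX E hl
      have hm1 := (tup_facts E.hyp.ok.fx hm).1
      have hn1 : 0 < n := by
        unfold RN at hn'
        have := (mem_Icc.mp (mem_filter.mp hn').1).1
        omega
      have hmn : 0 < m * n := Nat.mul_pos (by omega) hn1
      by_cases hg : GG N D (l * (m * n))
      · rw [if_pos hg, if_pos hg]
        exact Thn_sq (DA_mul hlp hlχ hmn)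
      · rw [if_neg hg, if_neg hg]
    · refine (mul_le_mul_of_nonneg_left hsum (by positivity)).trans (hfin _ ?_ (by positivity))
      nlinarith
  · -- two
    intro i hi1 hi2
    have h1 := mulx_two hP hn E.hyp.ok hi1 (block N (MM P N)) (LX χ (2 ^ i / (2 * MM P N)))
      (subset_refl _) (by unfold LX; exact filter_subset _ _) (Thn_W P N D χ) Thn_W0
    rw [Thn_hsq]
    refine le_trans (le_of_eq ?_) (h1.trans ?_)
    · refine sum_congr rfl fun l1 hl1 => sum_congr rfl fun l2 hl2 => sum_congr rfl fun m hm =>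
        sum_congr rfl fun n hn' => ?_
      obtain ⟨hlp, hlχ⟩ := Thn_LX E hl2
      obtain ⟨hb1, hb2, hb3, hb4⟩ := mem_block.mp hl1
      have hl1P : l1 ∈ PZ N (MM P N) := by
        rw [mem_PZ]
        refine ⟨hb1, ?_, hb3, hb4⟩
        have := mm_one P N
        nlinarith
      have hl1χ := E.small l1 hl1P
      have hm1 := (tup_facts E.hyp.ok.fx hm).1
      have hn1 : 0 < n := by
        unfold RN at hn'
        have := (mem_Icc.mp (mem_filter.mp hn').1).1
        omega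
      have hmn : 0 < m * n := Nat.mul_pos (by omega) hn1
      have hlmn : 0 < l2 * (m * n) := Nat.mul_pos hlp.pos hmn
      have hDA : DA χ (l1 * l2 * (m * n)) ↔ DA χ (m * n) := by
        rw [mul_assoc, DA_mul hb3 hl1χ hlmn, DA_mul hlp hlχ hmn]
      by_cases hg : GG N D (l1 * l2 * (m * n))
      · rw [if_pos hg, if_pos hg, one_mul]
        exact Thn_sq hDA
      · rw [if_neg hg, if_neg hg]
    · exact (mul_le_mul_of_nonneg_left hsum (by positivity)).trans (hfin _ le_rfl (by positivity))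

end Pool.Agent.Lib.TCF
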