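import Pool.Agent.Lib.MP_7b7e48_nt.TCF.Usl0
import Pool.Agent.Lib.MP_7b7e48_nt.RG.E4

/-!
# Module Usl1: one step of the spectral lemma for structured numbers

Adapted from `RG/E4.lean`: the numbers `n` are replaced by the products `m n`, `m ∈ TUP BX`, and only the products in good classes and in the range are counted (`Cnt.c4`).
-/

set_option autoImplicit false

open Finset

namespace Pool.Agent.Lib.TCF

open Pool.Agent.Lib.RG hiding RR sig Good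
open Pool.Agent.Lib.RH
open Pool.Agent.Lib.MP_45349e_nt.LS (lam)

theorem num1 (c3 l Y p q : ℝ) (hc3 : 0 < c3) (hl : 1 ≤ l) (hl2 : 100352 / c3 ≤ l) (hY : 0 ≤ Y)
    (hp : Y / l ^ 2 ≤ p) (hq : Y / (8 * l ^ 3) ≤ q) :
    8 * Y * l / c3 * (2 * q * (24 * l ^ 2 + 2) + 2 * p * (96 * l ^ 3 + 2)) ≤ l ^ 12 * (p * q) := by
  have hl0 : 0 < l := by linarith
  have hp0 : 0 ≤ p := le_trans (by positivity) hp
  have hq0 : 0 ≤ q := le_trans (by positivity) hq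
  have h1 : Y ≤ p * l ^ 2 := by
    rwa [div_le_iff₀ (by positivity)] at hp
  have h2 : Y ≤ q * (8 * l ^ 3) := by
    rwa [div_le_iff₀ (by positivity)] at hq
  have h3 : 1 / c3 ≤ l / 100352 := by
    rw [div_le_iff₀ hc3] at hl2
    rw [div_le_iff₀ hc3]
    linarith
  have hp2 : (1 : ℝ) ≤ l ^ 2 := one_le_pow₀ hl
  have hp3 : (1 : ℝ) ≤ l ^ 3 := one_le_pow₀ hl
  have e1 : 8 * Y * l / c3 * (2 * q * (24 * l ^ 2 + 2)) ≤ 1 / 2 * (l ^ 12 * (p * q)) := by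
    calc 8 * Y * l / c3 * (2 * q * (24 * l ^ 2 + 2)) = (16 * Y * l * q * (24 * l ^ 2 + 2)) * (1 / c3) := by ring
      _ ≤ (16 * Y * l * q * (24 * l ^ 2 + 2)) * (l / 100352) := mul_le_mul_of_nonneg_left h3 (by positivity)
      _ ≤ (16 * Y * l * q * (26 * l ^ 2)) * (l / 100352) := by
          refine mul_le_mul_of_nonneg_right ?_ (by positivity)
          refine mul_le_mul_of_nonneg_left ?_ (by positivity)
          linarith
      _ = Y * (q * l ^ 4 * (416 / 100352)) := by ring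
      _ ≤ (p * l ^ 2) * (q * l ^ 4 * (416 / 100352)) := mul_le_mul_of_nonneg_right h1 (by positivity)
      _ = (416 / 100352) * (l ^ 6 * (p * q)) := by ring
      _ ≤ 1 / 2 * (l ^ 6 * (p * q)) := mul_le_mul_of_nonneg_right (by norm_num) (by positivity)
      _ ≤ 1 / 2 * (l ^ 12 * (p * q)) := by
          refine mul_le_mul_of_nonneg_left ?_ (by norm_num)
          exact mul_le_mul_of_nonneg_right (pow_le_pow_right₀ hl (by norm_num)) (by positivity)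
  have e2 : 8 * Y * l / c3 * (2 * p * (96 * l ^ 3 + 2)) ≤ 1 / 2 * (l ^ 12 * (p * q)) := by
    calc 8 * Y * l / c3 * (2 * p * (96 * l ^ 3 + 2)) = (16 * Y * l * p * (96 * l ^ 3 + 2)) * (1 / c3) := by ring
      _ ≤ (16 * Y * l * p * (96 * l ^ 3 + 2)) * (l / 100352) := mul_le_mul_of_nonneg_left h3 (by positivity)
      _ ≤ (16 * Y * l * p * (98 * l ^ 3)) * (l / 100352) := by
          refine mul_le_mul_of_nonneg_right ?_ (by positivity)
          refine mul_le_mul_of_nonneg_left ?_ (by positivity)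
          linarith
      _ = Y * (p * l ^ 5 * (1568 / 100352)) := by ring
      _ ≤ (q * (8 * l ^ 3)) * (p * l ^ 5 * (1568 / 100352)) := mul_le_mul_of_nonneg_right h2 (by positivity)
      _ = 12544 / 100352 * (l ^ 8 * (p * q)) := by ring
      _ ≤ 1 / 2 * (l ^ 8 * (p * q)) := mul_le_mul_of_nonneg_right (by norm_num) (by positivity)
      _ ≤ 1 / 2 * (l ^ 12 * (p * q)) := by
          refine mul_le_mul_of_nonneg_left ?_ (by norm_num)
          exact mul_le_mul_of_nonneg_right (pow_le_pow_right₀ hl (by norm_num)) (by positivity)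
  calc 8 * Y * l / c3 * (2 * q * (24 * l ^ 2 + 2) + 2 * p * (96 * l ^ 3 + 2)) =
        8 * Y * l / c3 * (2 * q * (24 * l ^ 2 + 2)) + 8 * Y * l / c3 * (2 * p * (96 * l ^ 3 + 2)) := by ring
    _ ≤ 1 / 2 * (l ^ 12 * (p * q)) + 1 / 2 * (l ^ 12 * (p * q)) := add_le_add e1 e2
    _ = l ^ 12 * (p * q) := by ring

private theorem sq1 (a b : ℂ) : ‖a - b‖ ^ 2 ≤ 2 * ‖a‖ ^ 2 + 2 * ‖b‖ ^ 2 := by
  have h1 : ‖a - b‖ ≤ ‖a‖ + ‖b‖ := norm_sub_le a b
  have h2 : ‖a - b‖ ^ 2 ≤ (‖a‖ + ‖b‖) ^ 2 := pow_le_pow_left₀ (norm_nonneg _) h1 2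
  nlinarith [sq_nonneg (‖a‖ - ‖b‖)]

private theorem ite_le_lin (p : Prop) [Decidable p] {x y z : ℝ} (h : x ≤ 2 * y + 2 * z) :
    (if p then x else 0) ≤ 2 * (if p then y else 0) + 2 * (if p then z else 0) := by
  split_ifs
  · exact h
  · simp

open Classical in
theorem det1 (N : ℕ) [NeZero N] (l ε θ D MX : ℝ) (h : ZMod N → ℝ) (ρ : ℕ → ℝ)
    (hl : 0 ≤ l) (hMX : 0 ≤ MX) (hθ : θ ^ 2 = 1)
    (X : Finset (DirichletCharacter ℂ N)) (T : Finset ℕ) (R : ℕ → Finset ℕ) (g : ℕ → Prop)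
    (P P1 P' : Finset ℕ)
    (h0 : ∀ x : ZMod N, ¬ IsUnit x → h x = 0)
    (first : (N.totient : ℝ) * ∑ χ ∈ Finset.univ \ X, ‖bch (fun x => (h x : ℂ)) χ‖ ^ 2 ≤
      l * (ε * ∑ x : ZMod N, h x ^ 2))
    (one : ∑ a ∈ P, ∑ m ∈ T, ∑ n ∈ R m,
      (if g (a * (m * n)) then (h ((a * (m * n) : ℕ) : ZMod N) - ρ (m * n)) ^ 2 else 0) ≤
      ε * MX * ∑ x : ZMod N, h x ^ 2)
    (two : ∑ a ∈ P1, ∑ b ∈ P', ∑ m ∈ T, ∑ n ∈ R m,
      (if g (a * b * (m * n)) then (h ((a * b * (m * n) : ℕ) : ZMod N) - θ * ρ (m * n)) ^ 2 else 0) ≤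
      ε * MX * ∑ x : ZMod N, h x ^ 2)
    (m1 : ∀ W : ZMod N → ℝ, (∀ x, 0 ≤ W x) →
      ∑ a ∈ P, ∑ m ∈ T, ∑ n ∈ R m, (if g (a * (m * n)) then W ((a * (m * n) : ℕ) : ZMod N) else 0) ≤
        12 * l * MX * ∑ x : ZMod N, W x)
    (m2 : ∀ W : ZMod N → ℝ, (∀ x, 0 ≤ W x) →
      ∑ a ∈ P1, ∑ b ∈ P', ∑ m ∈ T, ∑ n ∈ R m,
        (if g (a * b * (m * n)) then W ((a * b * (m * n) : ℕ) : ZMod N) else 0) ≤
        48 * l ^ 2 * MX * ∑ x : ZMod N, W x)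
    (no : ∀ a ∈ P, ∀ b ∈ P1, ∀ b' ∈ P', ∀ c : DirichletCharacter ℂ N → ℂ, D * ∑ χ ∈ X, ‖c χ‖ ^ 2 ≤
      ∑ m ∈ T, ∑ n ∈ R m, (if g (a * (m * n)) ∧ g (b * b' * (m * n)) then
        ‖∑ χ ∈ X, c χ * χ ((m * n : ℕ) : ZMod N)‖ ^ 2 else 0)) :
    D * (∑ a ∈ P, ∑ b ∈ P1, ∑ b' ∈ P', ∑ χ ∈ X, ‖bch (fun x => (h x : ℂ)) χ‖ ^ 2 *
        ‖(θ : ℂ) * χ (a : ZMod N) - χ (b : ZMod N) * χ (b' : ZMod N)‖ ^ 2) ≤
      (2 * (P1.card * P'.card) * (24 * l ^ 2 + 2) + 2 * P.card * (96 * l ^ 3 + 2)) *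
        (MX * (ε * ∑ x : ZMod N, h x ^ 2)) := by
  set S : ℝ := ε * ∑ x : ZMod N, h x ^ 2 with hS
  set F : ZMod N → ℂ := fun x => (h x : ℂ) with hF
  set B : DirichletCharacter ℂ N → ℂ := bch F with hB
  set hX : ZMod N → ℂ := fun x => ∑ χ ∈ X, B χ * χ x with hhX
  set W : ZMod N → ℝ := fun x => ‖F x - hX x‖ ^ 2 with hW
  have hW0 : ∀ x, 0 ≤ W x := fun x => by rw [hW]; positivity
  have hF0 : ∀ x, ¬ IsUnit x → F x = 0 := fun x hx => by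
    rw [hF]
    simp only
    rw [h0 x hx, Complex.ofReal_zero]
  have hWs : ∑ x : ZMod N, W x ≤ l * S := by
    refine le_trans (le_of_eq ?_) first
    rw [← chPars (Finset.univ \ X) B]
    refine sum_congr rfl fun x _ => ?_
    rw [hW]
    simp only
    congr 2
    rw [chInv F hF0 x, ← Finset.sum_sdiff (Finset.subset_univ X)]
    rw [hhX]
    simp only
    rw [add_sub_cancel_right]
  have hU : ∀ a b : ℕ, ‖hX ((a * b : ℕ) : ZMod N) - (ρ b : ℂ)‖ ^ 2 ≤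
      2 * W ((a * b : ℕ) : ZMod N) + 2 * (h ((a * b : ℕ) : ZMod N) - ρ b) ^ 2 := by
    intro a b
    set x : ZMod N := ((a * b : ℕ) : ZMod N)
    have e : hX x - (ρ b : ℂ) = (F x - (ρ b : ℂ)) - (F x - hX x) := by ring
    rw [e]
    refine (sq1 _ _).trans ?_
    have e2 : ‖F x - (ρ b : ℂ)‖ ^ 2 = (h x - ρ b) ^ 2 := by
      rw [hF]
      simp only
      rw [← Complex.ofReal_sub, Complex.norm_real, Real.norm_eq_abs, sq_abs]
    rw [e2]
    linarith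
  have hV : ∀ a b : ℕ, ‖hX ((a * b : ℕ) : ZMod N) - ((θ * ρ b : ℝ) : ℂ)‖ ^ 2 ≤
      2 * W ((a * b : ℕ) : ZMod N) + 2 * (h ((a * b : ℕ) : ZMod N) - θ * ρ b) ^ 2 := by
    intro a b
    set x : ZMod N := ((a * b : ℕ) : ZMod N)
    have e : hX x - ((θ * ρ b : ℝ) : ℂ) = (F x - ((θ * ρ b : ℝ) : ℂ)) - (F x - hX x) := by ring
    rw [e]
    refine (sq1 _ _).trans ?_
    have e2 : ‖F x - ((θ * ρ b : ℝ) : ℂ)‖ ^ 2 = (h x - θ * ρ b) ^ 2 := by
      rw [hF]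
      simp only
      rw [← Complex.ofReal_sub, Complex.norm_real, Real.norm_eq_abs, sq_abs]
    rw [e2]
    linarith
  have sU : ∑ a ∈ P, ∑ m ∈ T, ∑ n ∈ R m,
      (if g (a * (m * n)) then ‖hX ((a * (m * n) : ℕ) : ZMod N) - (ρ (m * n) : ℂ)‖ ^ 2 else 0) ≤
      (24 * l ^ 2 + 2) * (MX * S) := by
    calc ∑ a ∈ P, ∑ m ∈ T, ∑ n ∈ R m,
      (if g (a * (m * n)) then ‖hX ((a * (m * n) : ℕ) : ZMod N) - (ρ (m * n) : ℂ)‖ ^ 2 else 0) ≤
          ∑ a ∈ P, ∑ m ∈ T, ∑ n ∈ R m,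
            (2 * (if g (a * (m * n)) then W ((a * (m * n) : ℕ) : ZMod N) else 0) +
            2 * (if g (a * (m * n)) then (h ((a * (m * n) : ℕ) : ZMod N) - ρ (m * n)) ^ 2 else 0)) :=
          sum_le_sum fun a _ => sum_le_sum fun m _ => sum_le_sum fun n _ => ite_le_lin _ (hU a (m * n))
      _ = 2 * (∑ a ∈ P, ∑ m ∈ T, ∑ n ∈ R m,
            (if g (a * (m * n)) then W ((a * (m * n) : ℕ) : ZMod N) else 0)) +
          2 * ∑ a ∈ P, ∑ m ∈ T, ∑ n ∈ R m,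
            (if g (a * (m * n)) then (h ((a * (m * n) : ℕ) : ZMod N) - ρ (m * n)) ^ 2 else 0) := by
          simp only [sum_add_distrib, mul_sum]
      _ ≤ 2 * (12 * l * MX * (l * S)) + 2 * (ε * MX * ∑ x : ZMod N, h x ^ 2) := by
          refine add_le_add ?_ (mul_le_mul_of_nonneg_left one (by norm_num))
          refine mul_le_mul_of_nonneg_left ?_ (by norm_num)
          exact (m1 W hW0).trans (mul_le_mul_of_nonneg_left hWs (by positivity))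
      _ = (24 * l ^ 2 + 2) * (MX * S) := by rw [hS]; ring
  have sV : ∑ a ∈ P1, ∑ b ∈ P', ∑ m ∈ T, ∑ n ∈ R m,
      (if g (a * b * (m * n)) then
        ‖hX ((a * b * (m * n) : ℕ) : ZMod N) - ((θ * ρ (m * n) : ℝ) : ℂ)‖ ^ 2 else 0) ≤
      (96 * l ^ 3 + 2) * (MX * S) := by
    calc ∑ a ∈ P1, ∑ b ∈ P', ∑ m ∈ T, ∑ n ∈ R m,
      (if g (a * b * (m * n)) then
        ‖hX ((a * b * (m * n) : ℕ) : ZMod N) - ((θ * ρ (m * n) : ℝ) : ℂ)‖ ^ 2 else 0) ≤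
          ∑ a ∈ P1, ∑ b ∈ P', ∑ m ∈ T, ∑ n ∈ R m,
            (2 * (if g (a * b * (m * n)) then W ((a * b * (m * n) : ℕ) : ZMod N) else 0) +
            2 * (if g (a * b * (m * n)) then
              (h ((a * b * (m * n) : ℕ) : ZMod N) - θ * ρ (m * n)) ^ 2 else 0)) :=
          sum_le_sum fun a _ => sum_le_sum fun b _ => sum_le_sum fun m _ => sum_le_sum fun n _ =>
            ite_le_lin _ (hV (a * b) (m * n))
      _ = 2 * (∑ a ∈ P1, ∑ b ∈ P', ∑ m ∈ T, ∑ n ∈ R m,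
            (if g (a * b * (m * n)) then W ((a * b * (m * n) : ℕ) : ZMod N) else 0)) +
          2 * ∑ a ∈ P1, ∑ b ∈ P', ∑ m ∈ T, ∑ n ∈ R m,
            (if g (a * b * (m * n)) then
              (h ((a * b * (m * n) : ℕ) : ZMod N) - θ * ρ (m * n)) ^ 2 else 0) := by
          simp only [sum_add_distrib, mul_sum]
      _ ≤ 2 * (48 * l ^ 2 * MX * (l * S)) + 2 * (ε * MX * ∑ x : ZMod N, h x ^ 2) := by
          refine add_le_add ?_ (mul_le_mul_of_nonneg_left two (by norm_num))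
          refine mul_le_mul_of_nonneg_left ?_ (by norm_num)
          exact (m2 W hW0).trans (mul_le_mul_of_nonneg_left hWs (by positivity))
      _ = (96 * l ^ 3 + 2) * (MX * S) := by rw [hS]; ring
  have hθn : ‖(θ : ℂ)‖ ^ 2 = 1 := by
    rw [Complex.norm_real, Real.norm_eq_abs, sq_abs, hθ]
  have step : ∀ a ∈ P, ∀ b ∈ P1, ∀ b' ∈ P', D * (∑ χ ∈ X, ‖B χ‖ ^ 2 *
        ‖(θ : ℂ) * χ (a : ZMod N) - χ (b : ZMod N) * χ (b' : ZMod N)‖ ^ 2) ≤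
      ∑ m ∈ T, ∑ n ∈ R m, (2 * (if g (a * (m * n)) then
          ‖hX ((a * (m * n) : ℕ) : ZMod N) - (ρ (m * n) : ℂ)‖ ^ 2 else 0) +
        2 * (if g (b * b' * (m * n)) then
          ‖hX ((b * b' * (m * n) : ℕ) : ZMod N) - ((θ * ρ (m * n) : ℝ) : ℂ)‖ ^ 2 else 0)) := by
    intro a ha b hb b' hb'
    have e1 : ∑ χ ∈ X, ‖B χ‖ ^ 2 * ‖(θ : ℂ) * χ (a : ZMod N) - χ (b : ZMod N) * χ (b' : ZMod N)‖ ^ 2 =
        ∑ χ ∈ X, ‖B χ * ((θ : ℂ) * χ (a : ZMod N) - χ (b : ZMod N) * χ (b' : ZMod N))‖ ^ 2 := by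
      refine sum_congr rfl fun χ _ => ?_
      rw [norm_mul, mul_pow]
    rw [e1]
    refine (no a ha b hb b' hb' _).trans (sum_le_sum fun m _ => sum_le_sum fun n _ => ?_)
    have e2 : ∑ χ ∈ X, B χ * ((θ : ℂ) * χ (a : ZMod N) - χ (b : ZMod N) * χ (b' : ZMod N)) *
        χ ((m * n : ℕ) : ZMod N) =
        (θ : ℂ) * (hX ((a * (m * n) : ℕ) : ZMod N) - (ρ (m * n) : ℂ)) -
          (hX ((b * b' * (m * n) : ℕ) : ZMod N) - ((θ * ρ (m * n) : ℝ) : ℂ)) := by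
      have e3 : (θ : ℂ) * hX ((a * (m * n) : ℕ) : ZMod N) - hX ((b * b' * (m * n) : ℕ) : ZMod N) =
          ∑ χ ∈ X, B χ * ((θ : ℂ) * χ (a : ZMod N) - χ (b : ZMod N) * χ (b' : ZMod N)) *
            χ ((m * n : ℕ) : ZMod N) := by
        rw [hhX]
        simp only
        rw [mul_sum, ← sum_sub_distrib]
        refine sum_congr rfl fun χ _ => ?_
        push_cast
        rw [map_mul χ (a : ZMod N), map_mul χ ((b : ZMod N) * (b' : ZMod N)), map_mul χ (b : ZMod N)]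
        ring
      rw [← e3]
      push_cast
      ring
    by_cases hg : g (a * (m * n)) ∧ g (b * b' * (m * n))
    · rw [if_pos hg, if_pos hg.1, if_pos hg.2, e2]
      refine (sq1 _ _).trans ?_
      rw [norm_mul, mul_pow, hθn, one_mul]
    · rw [if_neg hg]
      refine add_nonneg (mul_nonneg (by norm_num) ?_) (mul_nonneg (by norm_num) ?_)
      · split_ifs
        · positivity
        · exact le_rfl
      · split_ifs
        · positivity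
        · exact le_rfl
  calc D * (∑ a ∈ P, ∑ b ∈ P1, ∑ b' ∈ P', ∑ χ ∈ X, ‖B χ‖ ^ 2 *
        ‖(θ : ℂ) * χ (a : ZMod N) - χ (b : ZMod N) * χ (b' : ZMod N)‖ ^ 2) =
      ∑ a ∈ P, ∑ b ∈ P1, ∑ b' ∈ P', D * (∑ χ ∈ X, ‖B χ‖ ^ 2 *
        ‖(θ : ℂ) * χ (a : ZMod N) - χ (b : ZMod N) * χ (b' : ZMod N)‖ ^ 2) := by
        simp only [← mul_sum]
    _ ≤ ∑ a ∈ P, ∑ b ∈ P1, ∑ b' ∈ P', ∑ m ∈ T, ∑ n ∈ R m, (2 * (if g (a * (m * n)) then
          ‖hX ((a * (m * n) : ℕ) : ZMod N) - (ρ (m * n) : ℂ)‖ ^ 2 else 0) +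
        2 * (if g (b * b' * (m * n)) then
          ‖hX ((b * b' * (m * n) : ℕ) : ZMod N) - ((θ * ρ (m * n) : ℝ) : ℂ)‖ ^ 2 else 0)) :=
        sum_le_sum fun a ha => sum_le_sum fun b hb => sum_le_sum fun b' hb' => step a ha b hb b' hb'
    _ = 2 * (P1.card * P'.card) * (∑ a ∈ P, ∑ m ∈ T, ∑ n ∈ R m,
          (if g (a * (m * n)) then ‖hX ((a * (m * n) : ℕ) : ZMod N) - (ρ (m * n) : ℂ)‖ ^ 2 else 0)) +
        2 * P.card * ∑ b ∈ P1, ∑ b' ∈ P', ∑ m ∈ T, ∑ n ∈ R m,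
          (if g (b * b' * (m * n)) then
            ‖hX ((b * b' * (m * n) : ℕ) : ZMod N) - ((θ * ρ (m * n) : ℝ) : ℂ)‖ ^ 2 else 0) := by
        simp only [sum_add_distrib, sum_const, nsmul_eq_mul, ← mul_sum]
        ring
    _ ≤ 2 * (P1.card * P'.card) * ((24 * l ^ 2 + 2) * (MX * S)) +
        2 * P.card * ((96 * l ^ 3 + 2) * (MX * S)) :=
        add_le_add (mul_le_mul_of_nonneg_left sU (by positivity))
          (mul_le_mul_of_nonneg_left sV (by positivity))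
    _ = _ := by ring

end Pool.Agent.Lib.TCF
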