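import Pool.Agent.Lib.MP_7b7e48_nt.TCF.Usl1

/-!
# Module Usl2: one step of the spectral lemma, numerically
-/

set_option autoImplicit false

open Finset

namespace Pool.Agent.Lib.TCF

open Pool.Agent.Lib.RG hiding RR sig Good
open Pool.Agent.Lib.RH
open Pool.Agent.Lib.MP_45349e_nt.LS (lam)

private theorem m0_pow (P : Prm) (N : ℕ) : MM P N = 2 ^ m0 P N := rfl

/-- lower bounds for `y = J1 N / (2 Y m)` -/
private theorem y_low {κ Nr Y m J : ℝ} {y : ℕ} (hN : 1 ≤ Nr) (hκ : 0 < κ) (hNκ : 4 ≤ Nr ^ (κ / 2))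
    (hY : 0 < Y) (hYH : Y ≤ Nr ^ (1 / 2 - 2 * κ)) (hm : 1 ≤ m) (hm2 : m ≤ Nr ^ (κ / 100)) (hJ : 1 ≤ J)
    (hy : J * Nr / (2 * Y * m) < (y : ℝ) + 1) :
    Nr ^ (1 / 2 + κ / 2) ≤ (y : ℝ) ∧ J * Nr / (4 * Y * m) ≤ (y : ℝ) := by
  have hN0 : 0 < Nr := by linarith
  have h1 : 2 * Nr ^ (1 / 2 + κ) ≤ J * Nr / (2 * Y * m) := by
    rw [le_div_iff₀ (by positivity)]
    calc 2 * Nr ^ (1 / 2 + κ) * (2 * Y * m) = 4 * Nr ^ (1 / 2 + κ) * Y * m := by ring
      _ ≤ Nr ^ (κ / 2) * Nr ^ (1 / 2 + κ) * Nr ^ (1 / 2 - 2 * κ) * Nr ^ (κ / 100) := by gcongr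
      _ = Nr ^ (1 - κ / 2 + κ / 100) := by
          rw [← Real.rpow_add hN0, ← Real.rpow_add hN0, ← Real.rpow_add hN0]
          congr 1
          ring
      _ ≤ Nr ^ (1 : ℝ) := Real.rpow_le_rpow_of_exponent_le hN (by linarith)
      _ = 1 * Nr := by rw [Real.rpow_one, one_mul]
      _ ≤ J * Nr := by gcongr
  have h2 : 1 ≤ Nr ^ (1 / 2 + κ) := Real.one_le_rpow hN (by positivity)
  have h3 : Nr ^ (1 / 2 + κ / 2) ≤ Nr ^ (1 / 2 + κ) := Real.rpow_le_rpow_of_exponent_le hN (by linarith)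
  refine ⟨by linarith, ?_⟩
  have h4 : J * Nr / (4 * Y * m) = J * Nr / (2 * Y * m) / 2 := by
    rw [div_div]
    congr 1
    ring
  rw [h4]
  linarith

private theorem norm_chi_cop {N : ℕ} [NeZero N] (χ : DirichletCharacter ℂ N) {m : ℕ} (h : m.Coprime N) :
    ‖χ (m : ZMod N)‖ = 1 := chNorm χ ((ZMod.isUnit_iff_coprime m N).2 h)

open Classical in
/-- near orthogonality for one tuple `m`, with the bad `n` removed -/
private theorem one_m {N : ℕ} [NeZero N] {z y m a b : ℕ} {g : ℕ → Prop} {X : Finset (DirichletCharacter ℂ N)}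
    {A B : ℝ} (hm : m.Coprime N) (c : DirichletCharacter ℂ N → ℂ)
    (hno : ∀ c : DirichletCharacter ℂ N → ℂ, A * ∑ χ ∈ X, ‖c χ‖ ^ 2 ≤
      ∑ n ∈ RN N z y, ‖∑ χ ∈ X, c χ * χ (n : ZMod N)‖ ^ 2)
    (ha : ∀ c : DirichletCharacter ℂ N → ℂ, ∑ n ∈ (Icc 1 y).filter (fun n => n.Coprime N ∧ ¬ g (a * m * n)),
      ‖∑ χ ∈ X, c χ * χ (n : ZMod N)‖ ^ 2 ≤ B * ∑ χ ∈ X, ‖c χ‖ ^ 2)
    (hb : ∀ c : DirichletCharacter ℂ N → ℂ, ∑ n ∈ (Icc 1 y).filter (fun n => n.Coprime N ∧ ¬ g (b * m * n)),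
      ‖∑ χ ∈ X, c χ * χ (n : ZMod N)‖ ^ 2 ≤ B * ∑ χ ∈ X, ‖c χ‖ ^ 2) :
    (A - 2 * B) * ∑ χ ∈ X, ‖c χ‖ ^ 2 ≤
      ∑ n ∈ RN N z y, (if g (a * (m * n)) ∧ g (b * (m * n)) then
        ‖∑ χ ∈ X, c χ * χ ((m * n : ℕ) : ZMod N)‖ ^ 2 else 0) := by
  set c' : DirichletCharacter ℂ N → ℂ := fun χ => c χ * χ (m : ZMod N) with hc'
  have hn : ∑ χ ∈ X, ‖c' χ‖ ^ 2 = ∑ χ ∈ X, ‖c χ‖ ^ 2 := by
    refine sum_congr rfl fun χ _ => ?_
    rw [hc']
    simp only
    rw [norm_mul, norm_chi_cop χ hm, mul_one]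
  set V : ℕ → ℝ := fun n => ‖∑ χ ∈ X, c' χ * χ (n : ZMod N)‖ ^ 2 with hV
  have hV0 : ∀ n, 0 ≤ V n := fun n => by rw [hV]; positivity
  have hVe : ∀ n : ℕ, ‖∑ χ ∈ X, c χ * χ ((m * n : ℕ) : ZMod N)‖ ^ 2 = V n := by
    intro n
    rw [hV]
    simp only
    congr 2
    refine sum_congr rfl fun χ _ => ?_
    rw [hc']
    simp only
    rw [Nat.cast_mul, map_mul]
    ring
  have h1 := hno c'
  have h2 := ha c'
  have h3 := hb c'
  rw [hn] at h1 h2 h3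
  have hbad : ∀ u : ℕ, ∑ n ∈ RN N z y, (if ¬ g (u * m * n) then V n else 0) ≤
      ∑ n ∈ (Icc 1 y).filter (fun n => n.Coprime N ∧ ¬ g (u * m * n)), V n := by
    intro u
    rw [← sum_filter]
    refine sum_le_sum_of_subset_of_nonneg ?_ fun n _ _ => hV0 n
    intro n hn
    rw [mem_filter] at hn ⊢
    have h4 := hn.1
    unfold RN at h4
    rw [mem_filter] at h4
    exact ⟨h4.1, h4.2.2, hn.2⟩
  have h4 := (hbad a).trans h2
  have h5 := (hbad b).trans h3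
  have h6 : ∑ n ∈ RN N z y, V n ≤ ∑ n ∈ RN N z y, (if g (a * (m * n)) ∧ g (b * (m * n)) then V n else 0) +
      (∑ n ∈ RN N z y, (if ¬ g (a * m * n) then V n else 0) +
        ∑ n ∈ RN N z y, (if ¬ g (b * m * n) then V n else 0)) := by
    rw [← sum_add_distrib, ← sum_add_distrib]
    refine sum_le_sum fun n _ => ?_
    have e1 : a * m * n = a * (m * n) := mul_assoc _ _ _
    have e2 : b * m * n = b * (m * n) := mul_assoc _ _ _
    rw [e1, e2]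
    have h7 := hV0 n
    by_cases ga : g (a * (m * n)) <;> by_cases gb : g (b * (m * n)) <;> simp [ga, gb] <;> linarith
  have h7 : ∑ n ∈ RN N z y, (if g (a * (m * n)) ∧ g (b * (m * n)) then
        ‖∑ χ ∈ X, c χ * χ ((m * n : ℕ) : ZMod N)‖ ^ 2 else 0) =
      ∑ n ∈ RN N z y, (if g (a * (m * n)) ∧ g (b * (m * n)) then V n else 0) := by
    refine sum_congr rfl fun n _ => ?_
    rw [hVe n]
  rw [h7]
  have h8 : ∑ n ∈ RN N z y, V n = ∑ n ∈ RN N z y, ‖∑ χ ∈ X, c' χ * χ (n : ZMod N)‖ ^ 2 := rfl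
  rw [← h8] at h1
  linarith

theorem stepx (κ : ℝ) (hκ : 0 < κ) (hκ1 : κ ≤ 1 / 1000) : ∃ c0 : ℝ, 0 < c0 ∧ ∃ A : ℕ,
    ∀ P : Prm, P.Ok → P.kap = κ → P.c ≤ c0 → A ≤ P.C1 → ∃ N0 : ℕ, ∀ (N : ℕ) [NeZero N],
    N0 ≤ N → NumX P N → ∀ D : Dat, D.Ok P N → Cnt P N D →
    ∀ (θ ε : ℝ) (h : ZMod N → ℝ) (ρ : ℕ → ℝ) (L : ℕ → Finset ℕ), θ ^ 2 = 1 → 0 ≤ ε →
    USLX P N D ε θ h ρ L → ∀ i : ℕ, 2 * MM P N ^ 2 < 2 ^ i → (2 : ℝ) ^ i ≤ HH N κ →
    (N.totient : ℝ) * ∑ l ∈ L (2 ^ i), ∑ l1 ∈ block N (MM P N), ∑ l2 ∈ L (2 ^ i / (2 * MM P N)),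
      ∑ χ ∈ XX N (MM P N) θ, ‖bch (fun x => (h x : ℂ)) χ‖ ^ 2 *
        ‖(θ : ℂ) * χ (l : ZMod N) - χ (l1 : ZMod N) * χ (l2 : ZMod N)‖ ^ 2 ≤
      (Real.log N) ^ 12 * (ε * ∑ x : ZMod N, h x ^ 2) *
        ((L (2 ^ i)).card * (block N (MM P N)).card * (L (2 ^ i / (2 * MM P N))).card) := by
  classical
  obtain ⟨c3, hc3, hno3⟩ := no3
  obtain ⟨c0', hc0', N1, hno⟩ := hno3 κ hκ
  obtain ⟨A, hA3, N2, hfew⟩ := few_XX (κ / 10) (by positivity)
  refine ⟨c0', hc0', A, ?_⟩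
  intro P hP hPk hPc hPA
  obtain ⟨N3, hN3'⟩ := Filter.eventually_atTop.1 (((Filter.tendsto_atTop.1
    (Real.tendsto_log_atTop.comp tendsto_natCast_atTop_atTop) (100352 / c3))).and
    ((tendsto_rpow_atTop (show 0 < κ / 2 by positivity)).comp
      (tendsto_natCast_atTop_atTop (R := ℝ)) |>.eventually_ge_atTop 4))
  refine ⟨N1 + N2 + N3 + 3, ?_⟩
  intro N _ hN hn D hD hC θ ε h ρ L hθ hε H i hi1 hi2
  obtain ⟨hl2', hNκ'⟩ := hN3' N (by omega)
  have hl2 : 100352 / c3 ≤ Real.log N := hl2'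
  have hNκ : (4 : ℝ) ≤ (N : ℝ) ^ (κ / 2) := hNκ'
  have hNum := hn.num
  have hN3 : 3 ≤ N := by omega
  set j := m0 P N with hj
  have hMM : MM P N = 2 ^ j := rfl
  have hK9 := hNum.K
  set l : ℝ := Real.log N with hl
  have hl1 : 1 ≤ l := by linarith
  have hl0 : 0 < l := by linarith
  have hx1 : (1 : ℝ) ≤ N := by
    have : 1 ≤ N := by omega
    exact_mod_cast this
  have hx0 : (0 : ℝ) < N := by linarith
  rw [hMM] at hi1 ⊢
  have hij : 2 * j + 1 < i := by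
    have h1 : 2 * (2 ^ j) ^ 2 = 2 ^ (2 * j + 1) := by
      rw [← pow_mul, pow_succ]
      ring
    rw [h1] at hi1
    exact (Nat.pow_lt_pow_iff_right (by norm_num)).1 hi1
  have hdiv : 2 ^ i / (2 * 2 ^ j) = 2 ^ (i - j - 1) := by
    have h1 : 2 * 2 ^ j = 2 ^ (j + 1) := by rw [pow_succ]; ring
    rw [h1, Nat.pow_div (by omega) (by norm_num)]
    congr 1
  have hij2 : 2 * 2 ^ j * 2 ^ (i - j - 1) = 2 ^ i := by
    have h1 : 2 * 2 ^ j = 2 ^ (j + 1) := by rw [pow_succ]; ring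
    rw [h1, ← pow_add]
    congr 1
    omega
  have hij2' : 2 * (2 : ℝ) ^ j * (2 : ℝ) ^ (i - j - 1) = (2 : ℝ) ^ i := by exact_mod_cast hij2
  set Y : ℝ := (2 : ℝ) ^ i with hY
  have hY0 : 0 < Y := by positivity
  have hi2' : Y ≤ (N : ℝ) ^ (1 / 2 - 2 * κ) := hi2
  -- sizes of `MM`
  have hcastj : (((2 ^ j : ℕ)) : ℝ) = (2 : ℝ) ^ j := by push_cast; ring
  have hM1 : l ^ P.C1 ≤ (2 : ℝ) ^ j := by
    have := hNum.M1
    rw [hMM, hcastj] at this
    exact this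
  have hM2 : (2 : ℝ) ^ j ≤ (N : ℝ) ^ (κ / 1000) := by
    have h1 := hNum.M2
    rw [hMM, hcastj] at h1
    refine h1.trans ?_
    have h2 := hNum.sm
    rw [hPk] at h2
    refine le_trans ?_ h2
    calc 2 * l ^ P.C1 ≤ l ^ 1 * l ^ P.C1 := by
          gcongr
          rw [pow_one]
          linarith
      _ = l ^ (1 + P.C1) := by rw [pow_add]
      _ ≤ l ^ (100 * P.C1 + 10000) := pow_le_pow_right₀ hl1 (by omega)
  have hXX : ((XX N (2 ^ j) θ).card : ℝ) ≤ (N : ℝ) ^ (κ / 10) := by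
    refine hfew N (by omega) (2 ^ j) ?_ ?_ θ hθ
    · rw [hcastj]; exact (pow_le_pow_right₀ hl1 hPA).trans hM1
    · rw [hcastj]
      refine hM2.trans (Real.rpow_le_rpow_of_exponent_le hx1 (by linarith))
  have hMN : (2 : ℝ) ^ j ≤ N := by
    refine hM2.trans ?_
    calc (N : ℝ) ^ (κ / 1000) ≤ (N : ℝ) ^ (1 : ℝ) := Real.rpow_le_rpow_of_exponent_le hx1 (by linarith)
      _ = N := Real.rpow_one _
  have hbc : (2 : ℝ) ^ j / (4 * l) ≤ (block N (2 ^ j)).card := by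
    have h1 := hNum.bl (2 ^ j) (by
      rw [hcastj]
      refine le_trans (pow_le_pow_right₀ hl1 ?_) hM1
      have := hP.C1
      omega) (by
      have : (((2 ^ j : ℕ)) : ℝ) ≤ (N : ℝ) := by rw [hcastj]; exact hMN
      exact_mod_cast this)
    rwa [hcastj] at h1
  have hPi : Y / l ^ 2 ≤ (L (2 ^ i)).card := by
    refine H.big i ?_ (by rw [hPk]; exact hi2)
    rw [hMM]
    exact Nat.pow_le_pow_right (by norm_num) (by omega)
  have hP' : (2 : ℝ) ^ (i - j - 1) / l ^ 2 ≤ (L (2 ^ (i - j - 1))).card := by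
    refine H.big (i - j - 1) (by rw [hMM]; exact Nat.pow_le_pow_right (by norm_num) (by omega)) ?_
    rw [hPk]
    refine le_trans ?_ hi2
    exact pow_le_pow_right₀ (by norm_num) (by omega)
  have hbpos : 0 < (block N (2 ^ j)).card := by
    have h1 : (0 : ℝ) < (block N (2 ^ j)).card := lt_of_lt_of_le (by positivity) hbc
    exact_mod_cast h1
  have first := usl_first N hN3 (2 ^ j) (Nat.one_le_two_pow) θ ε h H.zero hbpos H.inv
  set MX : ℝ := D.J1 * rho D.BX with hMX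
  have hMX0 : 0 < MX := mr_pos_X hn hD
  set T := TUP D.BX with hT0
  set R : ℕ → Finset ℕ := fun m => RN N (zz P N) (D.J1 * N / (2 * 2 ^ i * m)) with hR
  have m1 : ∀ W : ZMod N → ℝ, (∀ x, 0 ≤ W x) →
      ∑ a ∈ L (2 ^ i), ∑ m ∈ T, ∑ n ∈ R m,
        (if GG N D (a * (m * n)) then W ((a * (m * n) : ℕ) : ZMod N) else 0) ≤
        12 * l * MX * ∑ x : ZMod N, W x := by
    intro W hW
    have h1 := mulx_one hP hn hD (i := i) (by rw [hMM]; exact Nat.pow_le_pow_right (by norm_num) (by omega))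
      (L (2 ^ i)) (H.sub _) (fun a => W ((a : ℕ) : ZMod N)) (fun a => hW _)
    refine h1.trans ?_
    have h2 := sum_ag hP hn hD W hW
    calc 4 * Real.log N * ∑ a ∈ AG P N D, pht D.BX a * W ((a : ℕ) : ZMod N) ≤
          4 * Real.log N * (3 * (D.J1 * rho D.BX) * ∑ x : ZMod N, W x) :=
          mul_le_mul_of_nonneg_left h2 (by positivity)
      _ = 12 * l * MX * ∑ x : ZMod N, W x := by rw [hMX]; ring
  have m2 : ∀ W : ZMod N → ℝ, (∀ x, 0 ≤ W x) →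
      ∑ a ∈ block N (2 ^ j), ∑ b ∈ L (2 ^ (i - j - 1)), ∑ m ∈ T, ∑ n ∈ R m,
        (if GG N D (a * b * (m * n)) then W ((a * b * (m * n) : ℕ) : ZMod N) else 0) ≤
        48 * l ^ 2 * MX * ∑ x : ZMod N, W x := by
    intro W hW
    have h1 := mulx_two hP hn hD (i := i) (by rw [hMM]; exact hi1)
      (block N (2 ^ j)) (L (2 ^ (i - j - 1))) (subset_refl _) (by
        rw [hMM, hdiv]
        exact H.sub _) (fun a => W ((a : ℕ) : ZMod N)) (fun a => hW _)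
    refine h1.trans ?_
    have h2 := sum_ag hP hn hD W hW
    calc (4 * Real.log N) ^ 2 * ∑ a ∈ AG P N D, pht D.BX a * W ((a : ℕ) : ZMod N) ≤
          (4 * Real.log N) ^ 2 * (3 * (D.J1 * rho D.BX) * ∑ x : ZMod N, W x) :=
          mul_le_mul_of_nonneg_left h2 (by positivity)
      _ = 48 * l ^ 2 * MX * ∑ x : ZMod N, W x := by rw [hMX]; ring
  have one := H.one i (by rw [hMM]; exact hi1) (by rw [hPk]; exact hi2)
  have two := H.two i (by rw [hMM]; exact hi1) (by rw [hPk]; exact hi2)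
  rw [hMM, hdiv] at two
  rw [hdiv]
  -- near orthogonality
  have hz1 : l ≤ zz P N := by
    refine le_trans ?_ hNum.z5
    calc l = l ^ 1 := (pow_one l).symm
      _ ≤ l ^ (100 * P.C1 + 10000) := pow_le_pow_right₀ hl1 (by omega)
  have hz2 : (zz P N : ℝ) ≤ (N : ℝ) ^ c0' :=
    hNum.z1.trans (Real.rpow_le_rpow_of_exponent_le hx1 hPc)
  have hlz0 : 0 < Real.log (zz P N) := Real.log_pos (by linarith)
  have hlz : Real.log (zz P N) ≤ l / 2 := by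
    refine hNum.z4.trans ?_
    have h1 := hP.c1
    have h2 := hP.kap1
    have h3 : P.c ≤ 1 / 2 := by linarith
    rw [← hl]
    nlinarith
  have hJJ : l ^ 1000 ≤ (JJ N : ℝ) := hNum.J1
  have hJJ0 : (0 : ℝ) < JJ N := lt_of_lt_of_le (by positivity) hJJ
  have hJ1 : 1 ≤ D.J1 := j1_pos hn hD
  have hJ1r : (1 : ℝ) ≤ D.J1 := by exact_mod_cast hJ1
  have hB : c3 / (2 * l) ≤ c3 / Real.log (zz P N) - 2 * (l ^ 2 / JJ N) := by
    have h1 : 2 * c3 / l ≤ c3 / Real.log (zz P N) := by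
      rw [div_le_div_iff₀ hl0 hlz0]
      nlinarith
    have h2 : 2 * (l ^ 2 / JJ N) ≤ c3 / l := by
      rw [← mul_div_assoc, div_le_div_iff₀ hJJ0 hl0]
      have h3 : 2 ≤ c3 * l := by
        rw [div_le_iff₀ hc3] at hl2
        linarith
      have h4 : l ^ 4 ≤ l ^ 1000 := pow_le_pow_right₀ hl1 (by norm_num)
      calc 2 * l ^ 2 * l = 2 * l ^ 3 := by ring
        _ ≤ c3 * l * l ^ 3 := by gcongr
        _ = c3 * l ^ 4 := by ring
        _ ≤ c3 * JJ N := by gcongr; linarith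
    have h3 : c3 / (2 * l) = (c3 / l) / 2 := by
      rw [div_div, mul_comm]
    have h4 : 0 < c3 / l := by positivity
    have h5 : 2 * c3 / l = 2 * (c3 / l) := by ring
    rw [h3]
    linarith
  have no : ∀ a ∈ L (2 ^ i), ∀ b ∈ block N (2 ^ j), ∀ b' ∈ L (2 ^ (i - j - 1)),
      ∀ c : DirichletCharacter ℂ N → ℂ, (c3 * MX * N / (8 * Y * l)) * ∑ χ ∈ XX N (2 ^ j) θ, ‖c χ‖ ^ 2 ≤
      ∑ m ∈ T, ∑ n ∈ R m, (if GG N D (a * (m * n)) ∧ GG N D (b * b' * (m * n)) then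
        ‖∑ χ ∈ XX N (2 ^ j) θ, c χ * χ ((m * n : ℕ) : ZMod N)‖ ^ 2 else 0) := by
    intro a ha b hb b' hb' c
    have ha' := mem_block.1 (H.sub _ ha)
    have hb1 := mem_block.1 hb
    have hb2 := mem_block.1 (H.sub _ hb')
    set sC : ℝ := ∑ χ ∈ XX N (2 ^ j) θ, ‖c χ‖ ^ 2 with hSc
    have hSc0 : 0 ≤ sC := sum_nonneg fun _ _ => by positivity
    have hm : ∀ m ∈ T, c3 / (2 * l) * (D.J1 * N / (4 * Y * m)) * sC ≤
        ∑ n ∈ R m, (if GG N D (a * (m * n)) ∧ GG N D (b * b' * (m * n)) then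
        ‖∑ χ ∈ XX N (2 ^ j) θ, c χ * χ ((m * n : ℕ) : ZMod N)‖ ^ 2 else 0) := by
      intro m hmT
      obtain ⟨f1, f2, f3, f4, f5, f6, f7⟩ := tup_facts hD.fx hmT
      have hm1 : (1 : ℝ) ≤ m := by
        have : 1 ≤ m := by omega
        exact_mod_cast this
      rw [hPk] at f7
      set y : ℕ := D.J1 * N / (2 * 2 ^ i * m) with hy
      have hd0 : 0 < 2 * 2 ^ i * m := by
        have : 0 < m := by omega
        positivity
      have hylt : (D.J1 : ℝ) * N / (2 * Y * m) < (y : ℝ) + 1 := by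
        have h1 : (((2 * 2 ^ i * m : ℕ)) : ℝ) = 2 * Y * m := by
          rw [hY]
          push_cast
          ring
        rw [← h1, div_lt_iff₀ (by exact_mod_cast hd0)]
        have h3 := Nat.lt_div_mul_add (a := D.J1 * N) (b := 2 * 2 ^ i * m) hd0
        have h4 : D.J1 * N < (y + 1) * (2 * 2 ^ i * m) := by
          rw [add_mul, one_mul]
          exact h3
        exact_mod_cast h4
      obtain ⟨hyκ, hyN⟩ := y_low hx1 hκ hNκ hY0 hi2' hm1 f7 hJ1r hylt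
      have hyle : 2 * 2 ^ i * m * y ≤ D.J1 * N := Nat.mul_div_le _ _
      have hy0 : (0 : ℝ) ≤ y := Nat.cast_nonneg y
      -- the bad numbers
      have hc4 : ∀ u : ℕ, (u.Prime ∨ ∃ l l' : ℕ, l.Prime ∧ l'.Prime ∧ u = l * l') → u.Coprime N →
          u ≤ 2 * 2 ^ i → 2 ^ i ≤ 2 * u →
          ∀ c : DirichletCharacter ℂ N → ℂ,
          ∑ n ∈ (Icc 1 y).filter (fun n => n.Coprime N ∧ ¬ GG N D (u * m * n)),
            ‖∑ χ ∈ XX N (2 ^ j) θ, c χ * χ (n : ZMod N)‖ ^ 2 ≤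
            l ^ 2 / JJ N * y * ∑ χ ∈ XX N (2 ^ j) θ, ‖c χ‖ ^ 2 := by
        intro u hu huN hu2 hu1 c
        have h1 := hC.c4 (XX N (2 ^ j) θ) (by rw [hPk]; exact hXX) c u hu huN (by
          rw [hPk]
          have : ((u : ℕ) : ℝ) ≤ ((2 * 2 ^ i : ℕ) : ℝ) := by exact_mod_cast hu2
          refine this.trans ?_
          push_cast
          exact mul_le_mul_of_nonneg_left hi2 (by norm_num)) m hmT y (by
          calc u * m * y ≤ 2 * 2 ^ i * m * y := by gcongr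
            _ ≤ D.J1 * N := hyle) (by
          -- `J1 N ≤ 16 u m y`
          have h2 : (D.J1 : ℝ) * N ≤ 4 * Y * m * y := by
            rw [div_le_iff₀ (by positivity)] at hyN
            linarith
          have h3 : D.J1 * N ≤ 4 * 2 ^ i * m * y := by
            have h4 : ((D.J1 * N : ℕ) : ℝ) ≤ ((4 * 2 ^ i * m * y : ℕ) : ℝ) := by
              push_cast
              rw [hY] at h2
              linarith
            exact_mod_cast h4
          calc D.J1 * N ≤ 4 * 2 ^ i * m * y := h3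
            _ ≤ 4 * (2 * u) * m * y := by gcongr
            _ ≤ 16 * (u * m * y) := by
                have : 4 * (2 * u) * m * y = 8 * (u * m * y) := by ring
                rw [this]
                omega)
        refine le_trans (le_of_eq ?_) h1
        refine sum_congr ?_ fun _ _ => rfl
        ext n
        simp only [mem_filter, GG]
      have hua := hc4 a (Or.inl ha'.2.2.1) ((Nat.Prime.coprime_iff_not_dvd ha'.2.2.1).2 ha'.2.2.2)
        ha'.2.1 (by omega)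
      have hub := hc4 (b * b') (Or.inr ⟨b, b', hb1.2.2.1, hb2.2.2.1, rfl⟩)
        (Nat.Coprime.mul_left ((Nat.Prime.coprime_iff_not_dvd hb1.2.2.1).2 hb1.2.2.2)
          ((Nat.Prime.coprime_iff_not_dvd hb2.2.2.1).2 hb2.2.2.2)) (by
          calc b * b' ≤ (2 * 2 ^ j) * (2 * 2 ^ (i - j - 1)) := Nat.mul_le_mul hb1.2.1 hb2.2.1
            _ = 2 * (2 * 2 ^ j * 2 ^ (i - j - 1)) := by ring
            _ = 2 * 2 ^ i := by rw [hij2]) (by
          calc 2 ^ i = 2 * (2 ^ j * 2 ^ (i - j - 1)) := by rw [← hij2]; ring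
            _ ≤ 2 * (b * b') := Nat.mul_le_mul_left _ (Nat.mul_le_mul hb1.1.le hb2.1.le))
      have hkey := one_m (z := zz P N) (y := y) (a := a) (b := b * b') (g := GG N D)
        (X := XX N (2 ^ j) θ) (A := c3 * (y / Real.log (zz P N))) (B := l ^ 2 / JJ N * y) f4 c
        (fun c => hno N (by omega) (zz P N) hz1 hz2 y hyκ (XX N (2 ^ j) θ) hXX c) hua hub
      refine le_trans ?_ hkey
      refine mul_le_mul_of_nonneg_right ?_ hSc0
      calc c3 / (2 * l) * (D.J1 * N / (4 * Y * m)) ≤ c3 / (2 * l) * y := by gcongr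
        _ ≤ (c3 / Real.log (zz P N) - 2 * (l ^ 2 / JJ N)) * y := by gcongr
        _ = c3 * (y / Real.log (zz P N)) - 2 * (l ^ 2 / JJ N * y) := by ring
    refine le_trans (le_of_eq ?_) (sum_le_sum hm)
    rw [← sum_mul]
    congr 1
    have h1 : ∀ m ∈ T, c3 / (2 * l) * (D.J1 * N / (4 * Y * m)) =
        (c3 / (2 * l) * (D.J1 * N / (4 * Y))) * (1 / (m : ℝ)) := by
      intro m _
      ring
    rw [sum_congr rfl h1, ← mul_sum, tup_sum hD.fx, hMX]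
    field_simp
    ring
  have key := det1 N l ε θ (c3 * MX * N / (8 * Y * l)) MX h ρ hl0.le hMX0.le hθ (XX N (2 ^ j) θ) T R
    (GG N D) (L (2 ^ i)) (block N (2 ^ j)) (L (2 ^ (i - j - 1))) H.zero first one two m1 m2 no
  set TT : ℝ := ∑ a ∈ L (2 ^ i), ∑ b ∈ block N (2 ^ j), ∑ b' ∈ L (2 ^ (i - j - 1)),
    ∑ χ ∈ XX N (2 ^ j) θ, ‖bch (fun x => (h x : ℂ)) χ‖ ^ 2 *
        ‖(θ : ℂ) * χ (a : ZMod N) - χ (b : ZMod N) * χ (b' : ZMod N)‖ ^ 2 with hTT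
  have hT0 : 0 ≤ TT := by
    rw [hTT]
    exact sum_nonneg fun _ _ => sum_nonneg fun _ _ => sum_nonneg fun _ _ => sum_nonneg fun _ _ => by
      positivity
  set p : ℝ := ((L (2 ^ i)).card : ℝ) with hp
  set q : ℝ := ((block N (2 ^ j)).card : ℝ) * (L (2 ^ (i - j - 1))).card with hq
  set S : ℝ := ε * ∑ x : ZMod N, h x ^ 2 with hS
  have hS0 : 0 ≤ S := mul_nonneg hε (sum_nonneg fun _ _ => sq_nonneg _)
  have hq1 : Y / (8 * l ^ 3) ≤ q := by
    calc Y / (8 * l ^ 3) = (2 : ℝ) ^ j / (4 * l) * ((2 : ℝ) ^ (i - j - 1) / l ^ 2) := by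
          rw [← hij2']
          field_simp
          ring
      _ ≤ q := mul_le_mul hbc hP' (by positivity) (by positivity)
  have hnum := num1 c3 l Y p q hc3 hl1 hl2 hY0.le hPi hq1
  have hNT : (N : ℝ) * TT ≤ 8 * Y * l / c3 * ((2 * q * (24 * l ^ 2 + 2) + 2 * p * (96 * l ^ 3 + 2)) * S) := by
    have h2 : (N : ℝ) * TT = 8 * Y * l / (c3 * MX) * (c3 * MX * N / (8 * Y * l) * TT) := by
      field_simp
    rw [h2]
    refine (mul_le_mul_of_nonneg_left key (by positivity)).trans (le_of_eq ?_)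
    field_simp
  have hφ : (N.totient : ℝ) ≤ N := by exact_mod_cast Nat.totient_le N
  calc (N.totient : ℝ) * TT ≤ N * TT := mul_le_mul_of_nonneg_right hφ hT0
    _ ≤ 8 * Y * l / c3 * ((2 * q * (24 * l ^ 2 + 2) + 2 * p * (96 * l ^ 3 + 2)) * S) := hNT
    _ = 8 * Y * l / c3 * (2 * q * (24 * l ^ 2 + 2) + 2 * p * (96 * l ^ 3 + 2)) * S := by ring
    _ ≤ l ^ 12 * (p * q) * S := mul_le_mul_of_nonneg_right hnum hS0
    _ = _ := by ring

end Pool.Agent.Lib.TCF
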