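import Pool.Agent.Lib.MP_7b7e48_nt.TCF.Usl2
import Pool.Agent.Lib.MP_7b7e48_nt.RG.E5
import Pool.Agent.Lib.MP_7b7e48_nt.RG.E7

/-!
# Module Usl3: the spectral lemma from its steps (the proofs of `RG/E5.lean` and `RG/E7.lean`)
-/

set_option autoImplicit false

open Finset

namespace Pool.Agent.Lib.TCF

open Pool.Agent.Lib.RG hiding RR sig Good
open Pool.Agent.Lib.RH
open Pool.Agent.Lib.MP_45349e_nt.LS (lam)

/-- what the spectral lemma needs -/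
structure Core (N : ℕ) [NeZero N] (j : ℕ) (κ ε θ : ℝ) (h : ZMod N → ℝ) (L : ℕ → Finset ℕ) : Prop where
  zero : ∀ x : ZMod N, ¬ IsUnit x → h x = 0
  sub : ∀ Y, L Y ⊆ block N Y
  big : ∀ i : ℕ, 2 ^ j ≤ 2 ^ i → (2 : ℝ) ^ i ≤ HH N κ → (2 : ℝ) ^ i / (Real.log N) ^ 2 ≤ (L (2 ^ i)).card
  inv : ∀ l ∈ PZ N (2 ^ j), ∑ x : ZMod N, (h ((l : ZMod N) * x) - θ * h x) ^ 2 ≤
    ε * ∑ x : ZMod N, h x ^ 2
  step : ∀ i : ℕ, 2 * (2 ^ j) ^ 2 < 2 ^ i → (2 : ℝ) ^ i ≤ HH N κ →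
    (N.totient : ℝ) * ∑ l ∈ L (2 ^ i), ∑ l1 ∈ block N (2 ^ j), ∑ l2 ∈ L (2 ^ i / (2 * 2 ^ j)),
      ∑ χ ∈ XX N (2 ^ j) θ, ‖bch (fun x => (h x : ℂ)) χ‖ ^ 2 *
        ‖(θ : ℂ) * χ (l : ZMod N) - χ (l1 : ZMod N) * χ (l2 : ZMod N)‖ ^ 2 ≤
      (Real.log N) ^ 12 * (ε * ∑ x : ZMod N, h x ^ 2) *
        ((L (2 ^ i)).card * (block N (2 ^ j)).card * (L (2 ^ i / (2 * 2 ^ j))).card)

theorem core_usl (κ : ℝ) (hκ : 0 < κ) : ∃ N0 : ℕ,
    ∀ (N : ℕ) [NeZero N], N0 ≤ N → ∀ j : ℕ,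
    ∀ (θ ε : ℝ) (h : ZMod N → ℝ) (L : ℕ → Finset ℕ), θ ^ 2 = 1 → 0 ≤ ε →
    Core N j κ ε θ h L →
    ∀ i : ℕ, j ≤ i → (2 : ℝ) ^ i ≤ HH N κ →
    (N.totient : ℝ) * ∑ l ∈ L (2 ^ i), ∑ χ ∈ XX N (2 ^ j) θ, ‖bch (fun x => (h x : ℂ)) χ‖ ^ 2 *
        ‖χ (l : ZMod N) - (θ : ℂ)‖ ^ 2 ≤
      (Real.log N) ^ 15 * (ε * ∑ x : ZMod N, h x ^ 2) * (L (2 ^ i)).card := by
  classical
  have hlog : Filter.Tendsto (fun N : ℕ => Real.log N) Filter.atTop Filter.atTop :=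
    Real.tendsto_log_atTop.comp tendsto_natCast_atTop_atTop
  obtain ⟨N1, hN1⟩ := Filter.eventually_atTop.mp (hlog.eventually (Filter.eventually_ge_atTop 100))
  refine ⟨max N1 3, ?_⟩
  intro N _ hN j θ ε h L hθ hε hU
  have hNN1 : N1 ≤ N := (le_max_left _ _).trans hN
  have hN3 : 3 ≤ N := (le_max_right _ _).trans hN
  set K : ℝ := Real.log N with hKdef
  have hK : 100 ≤ K := hN1 N hNN1
  have hK0 : 0 < K := by linarith
  have hNr : (1 : ℝ) ≤ N := by exact_mod_cast (by omega : 1 ≤ N)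
  set S : ℝ := ∑ x : ZMod N, h x ^ 2 with hS
  have hS0 : 0 ≤ S := sum_nonneg fun _ _ => sq_nonneg _
  set b : DirichletCharacter ℂ N → ℝ := fun χ => ‖bch (fun x => (h x : ℂ)) χ‖ ^ 2 with hb
  have hb0 : ∀ χ, 0 ≤ b χ := fun χ => by rw [hb]; positivity
  set X := XX N (2 ^ j) θ with hX
  have hφ : (0 : ℝ) < N.totient := phi_pos
  -- one prime of `PZ`
  have hone : ∀ l ∈ PZ N (2 ^ j), (N.totient : ℝ) * ∑ χ ∈ X, b χ * ‖χ (l : ZMod N) - (θ : ℂ)‖ ^ 2 ≤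
      ε * S := by
    intro l hl
    have h1 := hU.inv l hl
    rw [← mulSq_real h hU.zero θ (l : ZMod N)] at h1
    refine le_trans ?_ h1
    refine mul_le_mul_of_nonneg_left ?_ hφ.le
    exact sum_le_sum_of_subset_of_nonneg (subset_univ _) fun χ _ _ => by positivity
  have hM1 : 1 ≤ 2 ^ j := Nat.one_le_two_pow
  have hLsub := hU.sub
  -- the claim
  have claim : ∀ i : ℕ, j ≤ i → (2 : ℝ) ^ i ≤ HH N κ →
      (N.totient : ℝ) * ∑ l ∈ L (2 ^ i), ∑ χ ∈ X, b χ * ‖χ (l : ZMod N) - (θ : ℂ)‖ ^ 2 ≤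
      ((1 + 1 / K) ^ i * (1 + i * ((1 + K) * (2 * K ^ 12 + 2)))) * (ε * S) * (L (2 ^ i)).card := by
    intro i
    induction i using Nat.strong_induction_on with
    | _ i ih =>
    intro hji hi
    by_cases hcase : 2 * (2 ^ j) ^ 2 < 2 ^ i
    · -- step
      have h2j : 2 * j + 1 < i := by
        have h1 : (2 : ℕ) ^ (2 * j + 1) < 2 ^ i := by
          calc (2 : ℕ) ^ (2 * j + 1) = 2 * (2 ^ j) ^ 2 := by rw [pow_succ, pow_mul', mul_comm]
            _ < _ := hcase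
        exact (Nat.pow_lt_pow_iff_right (by norm_num)).mp h1
      set i' := i - j - 1 with hi'
      have hii : i' + (j + 1) = i := by omega
      have hdiv : 2 ^ i / (2 * 2 ^ j) = 2 ^ i' := by
        rw [← hii, ← pow_succ', pow_add, Nat.mul_div_cancel _ (by positivity)]
      have hji' : j ≤ i' := by omega
      have hi'2 : (2 : ℝ) ^ i' ≤ HH N κ :=
        (pow_le_pow_right₀ (by norm_num) (by omega : i' ≤ i)).trans hi
      have hih := ih i' (by omega) hji' hi'2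
      have hst := hU.step i hcase hi
      rw [hdiv] at hst
      rw [← hKdef] at hst
      -- cardinalities
      have hl' : (0 : ℝ) < ((L (2 ^ i')).card : ℝ) := by
        have h1 := hU.big i' (Nat.pow_le_pow_right (by norm_num) hji') hi'2
        have h2 : (0 : ℝ) < (2 : ℝ) ^ i' / (Real.log N) ^ 2 := by rw [← hKdef]; positivity
        exact lt_of_lt_of_le h2 h1
      have hp : (0 : ℝ) < ((block N (2 ^ j)).card : ℝ) := by
        have h1 := hU.big j (le_refl _) ((pow_le_pow_right₀ (by norm_num) hji).trans hi)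
        have h2 : (0 : ℝ) < (2 : ℝ) ^ j / (Real.log N) ^ 2 := by rw [← hKdef]; positivity
        have h3 : ((L (2 ^ j)).card : ℝ) ≤ ((block N (2 ^ j)).card : ℝ) := by
          exact_mod_cast card_le_card (hLsub _)
        linarith
      have hPC : (N.totient : ℝ) * ∑ l1 ∈ block N (2 ^ j), ∑ χ ∈ X, b χ * ‖χ (l1 : ZMod N) - (θ : ℂ)‖ ^ 2 ≤
          (ε * S) * (block N (2 ^ j)).card := by
        rw [mul_sum]
        refine (sum_le_sum fun l hl => hone l (block_sub_PZ hM1 hl)).trans (le_of_eq ?_)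
        rw [sum_const, nsmul_eq_mul]
        ring
      have hmain : ((block N (2 ^ j)).card : ℝ) * ((L (2 ^ i')).card : ℝ) *
          ((N.totient : ℝ) * ∑ l ∈ L (2 ^ i), ∑ χ ∈ X, b χ * ‖χ (l : ZMod N) - (θ : ℂ)‖ ^ 2) ≤
          (1 + 1 / K) * (((L (2 ^ i)).card : ℝ) * ((block N (2 ^ j)).card : ℝ) *
            ((N.totient : ℝ) * ∑ l ∈ L (2 ^ i'), ∑ χ ∈ X, b χ * ‖χ (l : ZMod N) - (θ : ℂ)‖ ^ 2)) +
          (1 + K) * (2 * ((N.totient : ℝ) * ∑ l ∈ L (2 ^ i), ∑ l1 ∈ block N (2 ^ j), ∑ l2 ∈ L (2 ^ i'),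
            ∑ χ ∈ X, b χ * ‖(θ : ℂ) * χ (l : ZMod N) - χ (l1 : ZMod N) * χ (l2 : ZMod N)‖ ^ 2) +
            2 * (((L (2 ^ i)).card : ℝ) * ((L (2 ^ i')).card : ℝ) *
            ((N.totient : ℝ) * ∑ l1 ∈ block N (2 ^ j), ∑ χ ∈ X, b χ * ‖χ (l1 : ZMod N) - (θ : ℂ)‖ ^ 2))) := by
        have e1 : ((block N (2 ^ j)).card : ℝ) * ((L (2 ^ i')).card : ℝ) *
            ((N.totient : ℝ) * ∑ l ∈ L (2 ^ i), ∑ χ ∈ X, b χ * ‖χ (l : ZMod N) - (θ : ℂ)‖ ^ 2) =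
            ∑ l ∈ L (2 ^ i), ∑ l1 ∈ block N (2 ^ j), ∑ l2 ∈ L (2 ^ i'), ∑ χ ∈ X,
              (N.totient : ℝ) * (b χ * ‖χ (l : ZMod N) - (θ : ℂ)‖ ^ 2) := by
          simp only [sum_const, nsmul_eq_mul, mul_sum]
          refine sum_congr rfl fun l _ => sum_congr rfl fun χ _ => ?_
          ring
        have e2 : ((L (2 ^ i)).card : ℝ) * ((block N (2 ^ j)).card : ℝ) *
            ((N.totient : ℝ) * ∑ l ∈ L (2 ^ i'), ∑ χ ∈ X, b χ * ‖χ (l : ZMod N) - (θ : ℂ)‖ ^ 2) =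
            ∑ l ∈ L (2 ^ i), ∑ l1 ∈ block N (2 ^ j), ∑ l2 ∈ L (2 ^ i'), ∑ χ ∈ X,
              (N.totient : ℝ) * (b χ * ‖χ (l2 : ZMod N) - (θ : ℂ)‖ ^ 2) := by
          simp only [sum_const, nsmul_eq_mul, mul_sum]
          refine sum_congr rfl fun l _ => sum_congr rfl fun χ _ => ?_
          ring
        have e3 : ((L (2 ^ i)).card : ℝ) * ((L (2 ^ i')).card : ℝ) *
            ((N.totient : ℝ) * ∑ l1 ∈ block N (2 ^ j), ∑ χ ∈ X, b χ * ‖χ (l1 : ZMod N) - (θ : ℂ)‖ ^ 2) =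
            ∑ l ∈ L (2 ^ i), ∑ l1 ∈ block N (2 ^ j), ∑ l2 ∈ L (2 ^ i'), ∑ χ ∈ X,
              (N.totient : ℝ) * (b χ * ‖χ (l1 : ZMod N) - (θ : ℂ)‖ ^ 2) := by
          simp only [sum_const, nsmul_eq_mul, mul_sum]
          refine sum_congr rfl fun l _ => sum_congr rfl fun χ _ => ?_
          ring
        have e4 : (N.totient : ℝ) * ∑ l ∈ L (2 ^ i), ∑ l1 ∈ block N (2 ^ j), ∑ l2 ∈ L (2 ^ i'),
            ∑ χ ∈ X, b χ * ‖(θ : ℂ) * χ (l : ZMod N) - χ (l1 : ZMod N) * χ (l2 : ZMod N)‖ ^ 2 =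
            ∑ l ∈ L (2 ^ i), ∑ l1 ∈ block N (2 ^ j), ∑ l2 ∈ L (2 ^ i'), ∑ χ ∈ X,
              (N.totient : ℝ) * (b χ * ‖(θ : ℂ) * χ (l : ZMod N) - χ (l1 : ZMod N) * χ (l2 : ZMod N)‖ ^ 2) := by
          simp only [mul_sum]
        rw [e1, e2, e3, e4]
        simp only [mul_sum, ← sum_add_distrib]
        refine sum_le_sum fun l _ => sum_le_sum fun l1 _ => sum_le_sum fun l2 _ => sum_le_sum fun χ _ => ?_
        have h1 := usl_pt K hK0 θ hθ (χ (l : ZMod N)) (χ (l1 : ZMod N)) (χ (l2 : ZMod N))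
          (DirichletCharacter.norm_le_one χ _)
        have h2 := mul_le_mul_of_nonneg_left h1 (mul_nonneg hφ.le (hb0 χ))
        refine le_trans (le_of_eq (by ring)) (h2.trans (le_of_eq (by ring)))
      have hfin := usl_div (K := K) hK0 (Nat.cast_nonneg _) hp hl' hmain hih (hst.trans (le_of_eq (by ring)))
        hPC (c12 := K ^ 12)
      refine hfin.trans ?_
      have hcard0 : (0 : ℝ) ≤ ((L (2 ^ i)).card : ℝ) := Nat.cast_nonneg _
      refine mul_le_mul_of_nonneg_right ?_ hcard0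
      refine mul_le_mul_of_nonneg_right ?_ (by positivity)
      -- numerical recursion
      set q : ℝ := 1 + 1 / K with hq
      have hq1 : 1 ≤ q := by rw [hq]; have : 0 < 1 / K := by positivity
                             linarith
      set c : ℝ := (1 + K) * (2 * K ^ 12 + 2) with hc
      have hc00 : 0 ≤ c := by positivity
      have hi'i : (i' : ℝ) + 1 ≤ i := by exact_mod_cast (by omega : i' + 1 ≤ i)
      have h1 : q * q ^ i' ≤ q ^ i := by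
        rw [← pow_succ']
        exact pow_le_pow_right₀ hq1 (by omega)
      have h2 : 1 ≤ q ^ i := one_le_pow₀ hq1
      calc q * (q ^ i' * (1 + i' * c)) + c = (q * q ^ i') * (1 + i' * c) + c * 1 := by ring
        _ ≤ q ^ i * (1 + i' * c) + c * q ^ i := by gcongr
        _ = q ^ i * (1 + (i' + 1) * c) := by ring
        _ ≤ q ^ i * (1 + i * c) := by gcongr
    · -- base
      have h1 : ∀ l ∈ L (2 ^ i), l ∈ PZ N (2 ^ j) := by
        intro l hl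
        have h2 := mem_block.mp (hLsub _ hl)
        rw [mem_PZ]
        have h3 : 2 ^ j ≤ 2 ^ i := Nat.pow_le_pow_right (by norm_num) hji
        refine ⟨by omega, by omega, h2.2.2⟩
      have h2 : (N.totient : ℝ) * ∑ l ∈ L (2 ^ i), ∑ χ ∈ X, b χ * ‖χ (l : ZMod N) - (θ : ℂ)‖ ^ 2 ≤
          1 * (ε * S) * (L (2 ^ i)).card := by
        rw [mul_sum]
        refine (sum_le_sum fun l hl => hone l (h1 l hl)).trans (le_of_eq ?_)
        rw [sum_const, nsmul_eq_mul]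
        ring
      refine h2.trans ?_
      have h3 : (1 : ℝ) ≤ (1 + 1 / K) ^ i * (1 + i * ((1 + K) * (2 * K ^ 12 + 2))) := by
        have h4 : (1 : ℝ) ≤ (1 + 1 / K) ^ i := one_le_pow₀ (by
          have : 0 < 1 / K := by positivity
          linarith)
        have h5 : (1 : ℝ) ≤ 1 + i * ((1 + K) * (2 * K ^ 12 + 2)) := by
          have : (0 : ℝ) ≤ i * ((1 + K) * (2 * K ^ 12 + 2)) := by positivity
          linarith
        nlinarith
      gcongr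
  intro i hji hi
  refine (claim i hji hi).trans ?_
  have hiK : (i : ℝ) ≤ K := by
    have h1 : (2 : ℝ) ^ i ≤ (N : ℝ) ^ (1 / 2 : ℝ) := by
      refine hi.trans ?_
      unfold HH
      exact Real.rpow_le_rpow_of_exponent_le hNr (by linarith)
    have h2 := Real.log_le_log (by positivity) h1
    rw [Real.log_pow, Real.log_rpow (by linarith), ← hKdef] at h2
    have h3 := Real.log_two_gt_d9
    have h4 : (0 : ℝ) ≤ (i : ℝ) := Nat.cast_nonneg _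
    nlinarith
  have h5 := usl_num hK i hiK
  gcongr


open Classical in
theorem core_mass : ∃ κ0 : ℝ, 0 < κ0 ∧ κ0 ≤ 1 / 20 ∧ ∀ κ : ℝ, 0 < κ → κ ≤ κ0 → ∃ c0 : ℝ, 0 < c0 ∧
    ∃ N0 : ℕ,
    ∀ (N : ℕ) [NeZero N], N0 ≤ N → ∀ j z : ℕ, (Real.log N) ^ 3 ≤ (2 : ℝ) ^ j →
    (2 : ℝ) ^ j ≤ (N : ℝ) ^ (κ / 20) → 2 ^ j ≤ z → (z : ℝ) ≤ (N : ℝ) ^ c0 →
    ∀ (θ ε : ℝ) (h : ZMod N → ℝ) (L : ℕ → Finset ℕ), θ ^ 2 = 1 → 0 ≤ ε →
    (Real.log N) ^ 40 * ε ≤ 1 → 0 < ∑ x : ZMod N, h x ^ 2 →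
    (∀ i : ℕ, j ≤ i → (2 : ℝ) ^ i ≤ HH N κ →
      ((block N (2 ^ i) \ L (2 ^ i)).card : ℝ) ≤ (2 : ℝ) ^ i / (Real.log N) ^ 10) →
    Core N j κ ε θ h L →
    ∃ χ0 : DirichletCharacter ℂ N,
      ((N.totient : ℝ) * ∑ χ ∈ Finset.univ.erase χ0, ‖bch (fun x => (h x : ℂ)) χ‖ ^ 2 ≤
        (Real.log N) ^ 30 * (ε * ∑ x : ZMod N, h x ^ 2)) ∧
      (∀ i : ℕ, j ≤ i → (2 : ℝ) ^ i ≤ HH N κ →
        ∑ l ∈ L (2 ^ i), ‖χ0 (l : ZMod N) - (θ : ℂ)‖ ^ 2 ≤
          2 * (Real.log N) ^ 15 * ε * (L (2 ^ i)).card) ∧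
      ∀ χ : DirichletCharacter ℂ N, (∀ i : ℕ, j ≤ i → (2 : ℝ) ^ i ≤ HH N κ →
        ∑ l ∈ block N (2 ^ i), ‖χ (l : ZMod N) - (θ : ℂ)‖ ^ 2 ≤ (2 : ℝ) ^ i / (Real.log N) ^ 9) →
        χ = χ0 := by
  obtain ⟨κ0, hκ0, hU⟩ := uniq
  refine ⟨min κ0 (1 / 20), by positivity, min_le_right _ _, ?_⟩
  intro κ hκ hκm
  obtain ⟨cq, hcq, N1, hN1⟩ := hU κ hκ (hκm.trans (min_le_left _ _))
  obtain ⟨N2, hN2⟩ := core_usl κ hκ
  obtain ⟨N3, hN3⟩ := block_card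
  have hlog : Filter.Tendsto (fun N : ℕ => Real.log N) Filter.atTop Filter.atTop :=
    Real.tendsto_log_atTop.comp tendsto_natCast_atTop_atTop
  obtain ⟨N4, hN4⟩ := Filter.eventually_atTop.mp (hlog.eventually (Filter.eventually_ge_atTop 8))
  refine ⟨cq, hcq, max (max N1 N2) (max N3 (max N4 3)), ?_⟩
  intro N _ hN j z hj hjκ hjz hz θ ε h L hθ hε hKε hS hBL hH
  have hNN1 : N1 ≤ N := ((le_max_left _ _).trans (le_max_left _ _)).trans hN
  have hNN2 : N2 ≤ N := ((le_max_right _ _).trans (le_max_left _ _)).trans hN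
  have hNN3 : N3 ≤ N := ((le_max_left _ _).trans (le_max_right _ _)).trans hN
  have hNN4 : N4 ≤ N := (((le_max_left _ _).trans (le_max_right _ _)).trans (le_max_right _ _)).trans hN
  have hN3' : 3 ≤ N := (((le_max_right _ _).trans (le_max_right _ _)).trans (le_max_right _ _)).trans hN
  have hN1R : (1 : ℝ) ≤ N := by exact_mod_cast (by omega : 1 ≤ N)
  have hNR : (0 : ℝ) < N := by linarith
  have husl := hN2 N hNN2 j θ ε h L hθ hε hH
  have hK8 := hN4 N hNN4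
  have hj3 : (Real.log N) ^ 3 ≤ (2 : ℝ) ^ j := hj
  have hu := hN1 N hNN1 j z hj3 hjz hz θ
  obtain ⟨K, hK⟩ : ∃ K : ℝ, K = Real.log N := ⟨_, rfl⟩
  obtain ⟨S, hSd⟩ : ∃ S : ℝ, S = ∑ x : ZMod N, h x ^ 2 := ⟨_, rfl⟩
  have hfirst := usl_first N hN3' (2 ^ j) Nat.one_le_two_pow θ ε h hH.zero (by
    have h1 := hN3 N hNN3 (2 ^ j) (by push_cast; exact hj3) (by
      have h2 : ((2 : ℝ)) ^ j ≤ N := by
        refine hjκ.trans ?_
        calc (N : ℝ) ^ (κ / 20) ≤ (N : ℝ) ^ (1 : ℝ) := by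
              refine Real.rpow_le_rpow_of_exponent_le hN1R ?_
              have := hκm.trans (min_le_right _ _)
              linarith
          _ = N := Real.rpow_one _
      exact_mod_cast h2)
    have h2 : 0 < (((2 ^ j : ℕ) : ℝ)) / (4 * Real.log N) := by
      have : 0 < Real.log N := by linarith
      positivity
    have h3 : (0 : ℝ) < ((block N (2 ^ j)).card : ℝ) := lt_of_lt_of_le h2 h1
    exact_mod_cast h3) hH.inv
  rw [← hK, ← hSd] at hfirst husl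
  rw [← hK] at hu hBL hK8 hKε
  rw [← hSd] at hS
  rw [← hK, ← hSd]
  have hK0 : 0 < K := by linarith
  obtain ⟨φ, hφ⟩ : ∃ φ : ℝ, φ = (N.totient : ℝ) := ⟨_, rfl⟩
  have hφ0 : 0 < φ := by
    rw [hφ]
    exact phi_pos
  obtain ⟨b, hb⟩ : ∃ b : DirichletCharacter ℂ N → ℝ, b = fun χ => ‖bch (fun x => (h x : ℂ)) χ‖ ^ 2 := ⟨_, rfl⟩
  have hb0 : ∀ χ, 0 ≤ b χ := by
    intro χ
    rw [hb]
    positivity
  have hpars : S = φ * ∑ χ : DirichletCharacter ℂ N, b χ := by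
    rw [hSd, hφ, hb, ← sum_norm_cast h]
    exact chParsF (fun x => ((h x : ℝ) : ℂ)) (fun x hx => by rw [hH.zero x hx]; simp)
  rw [← hφ] at hfirst husl
  rw [← hφ]
  obtain ⟨D, hD⟩ : ∃ D : DirichletCharacter ℂ N → ℕ → ℝ, D = fun χ l => ‖χ (l : ZMod N) - (θ : ℂ)‖ ^ 2 := ⟨_, rfl⟩
  have hD0 : ∀ χ l, 0 ≤ D χ l := by
    intro χ l
    rw [hD]
    positivity
  have hθn : ‖(θ : ℂ)‖ = 1 := by
    rw [Complex.norm_real, Real.norm_eq_abs]
    have h1 : |θ| ^ 2 = 1 := by rw [sq_abs, hθ]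
    have h2 : 0 ≤ |θ| := abs_nonneg θ
    nlinarith
  have hD4 : ∀ χ l, D χ l ≤ 4 := by
    intro χ l
    rw [hD]
    have h1 : ‖χ (l : ZMod N) - (θ : ℂ)‖ ≤ 2 := by
      refine (norm_sub_le _ _).trans ?_
      have := DirichletCharacter.norm_le_one χ (l : ZMod N)
      linarith
    have h2 := pow_le_pow_left₀ (norm_nonneg _) h1 2
    simp only
    linarith
  -- close characters
  obtain ⟨close, hclose⟩ : ∃ close : DirichletCharacter ℂ N → Prop, close = fun χ =>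
      ∀ i : ℕ, j ≤ i → (2 : ℝ) ^ i ≤ HH N κ → ∑ l ∈ block N (2 ^ i), D χ l ≤ (2 : ℝ) ^ i / K ^ 9 := ⟨_, rfl⟩
  have huniq : ∀ χ1 χ2, close χ1 → close χ2 → χ1 = χ2 := by
    intro χ1 χ2 h1 h2
    rw [hclose, hD] at h1 h2
    exact hu χ1 χ2 h1 h2
  -- the indices
  obtain ⟨I, hI⟩ : ∃ I : Finset ℕ, I = (range (Nat.log 2 N + 1)).filter
      (fun i => j ≤ i ∧ (2 : ℝ) ^ i ≤ HH N κ) := ⟨_, rfl⟩
  have hcardI : ((I.card : ℕ) : ℝ) ≤ 2 * K := by
    have h1 : I.card ≤ Nat.log 2 N + 1 := by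
      rw [hI]
      exact (card_filter_le _ _).trans (by rw [card_range])
    have h2 : 2 ^ Nat.log 2 N ≤ N := Nat.pow_log_le_self 2 (by omega)
    have h3 : ((2 : ℝ)) ^ Nat.log 2 N ≤ N := by exact_mod_cast h2
    have h4 := Real.log_le_log (by positivity) h3
    rw [Real.log_pow, ← hK] at h4
    have h5 := Real.log_two_gt_d9
    have h6 : (0 : ℝ) ≤ (Nat.log 2 N : ℝ) := Nat.cast_nonneg _
    have h7 : ((I.card : ℕ) : ℝ) ≤ (Nat.log 2 N : ℝ) + 1 := by exact_mod_cast h1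
    nlinarith
  have hmemI : ∀ i, j ≤ i → (2 : ℝ) ^ i ≤ HH N κ → i ∈ I := by
    intro i h1 h2
    rw [hI, mem_filter, mem_range]
    refine ⟨?_, h1, h2⟩
    have h3 : (2 : ℝ) ^ i ≤ N := by
      refine h2.trans ?_
      unfold HH
      calc (N : ℝ) ^ (1 / 2 - 2 * κ) ≤ (N : ℝ) ^ (1 : ℝ) :=
            Real.rpow_le_rpow_of_exponent_le hN1R (by linarith)
        _ = N := Real.rpow_one _
    have h4 : 2 ^ i ≤ N := by exact_mod_cast h3
    exact Nat.lt_succ_of_le (Nat.le_log_of_pow_le (by norm_num) h4)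
  -- not close at one index
  have hone : ∀ i ∈ I, φ * ∑ χ ∈ (XX N (2 ^ j) θ).filter
      (fun χ => ¬ ∑ l ∈ block N (2 ^ i), D χ l ≤ (2 : ℝ) ^ i / K ^ 9), b χ ≤ 2 * K ^ 24 * (ε * S) := by
    intro i hi
    rw [hI, mem_filter] at hi
    obtain ⟨_, hji, hiH⟩ := hi
    have h1 := husl i hji hiH
    have h2i : (0 : ℝ) < (2 : ℝ) ^ i := by positivity
    have hLle : ((L (2 ^ i)).card : ℝ) ≤ (2 : ℝ) ^ i := by
      have h2 : (L (2 ^ i)).card ≤ 2 ^ i := (card_le_card (hH.sub _)).trans (block_card_le N _)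
      exact_mod_cast h2
    have h2 : ∀ χ ∈ (XX N (2 ^ j) θ).filter
        (fun χ => ¬ ∑ l ∈ block N (2 ^ i), D χ l ≤ (2 : ℝ) ^ i / K ^ 9),
        b χ * ((2 : ℝ) ^ i / (2 * K ^ 9)) ≤ ∑ l ∈ L (2 ^ i), b χ * D χ l := by
      intro χ hχ
      rw [mem_filter, not_le] at hχ
      rw [← mul_sum]
      refine mul_le_mul_of_nonneg_left ?_ (hb0 χ)
      have h3 : ∑ l ∈ block N (2 ^ i), D χ l = ∑ l ∈ block N (2 ^ i) \ L (2 ^ i), D χ l +
          ∑ l ∈ L (2 ^ i), D χ l := (sum_sdiff (hH.sub _)).symm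
      have h4 : ∑ l ∈ block N (2 ^ i) \ L (2 ^ i), D χ l ≤ 4 * ((2 : ℝ) ^ i / K ^ 10) := by
        calc ∑ l ∈ block N (2 ^ i) \ L (2 ^ i), D χ l ≤ ∑ l ∈ block N (2 ^ i) \ L (2 ^ i), (4 : ℝ) :=
              sum_le_sum (fun l _ => hD4 χ l)
          _ = ((block N (2 ^ i) \ L (2 ^ i)).card : ℝ) * 4 := by rw [sum_const, nsmul_eq_mul]
          _ ≤ ((2 : ℝ) ^ i / K ^ 10) * 4 := mul_le_mul_of_nonneg_right (hBL i hji hiH) (by norm_num)
          _ = _ := by ring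
      have h5 : 4 * ((2 : ℝ) ^ i / K ^ 10) ≤ (2 : ℝ) ^ i / (2 * K ^ 9) := by
        have h6 : 4 * ((2 : ℝ) ^ i / K ^ 10) = (8 / K) * ((2 : ℝ) ^ i / (2 * K ^ 9)) := by
          field_simp
          norm_num
        rw [h6]
        have h7 : 8 / K ≤ 1 := by
          rw [div_le_iff₀ hK0]
          linarith
        have h8 : 0 ≤ (2 : ℝ) ^ i / (2 * K ^ 9) := by positivity
        nlinarith
      have h6 : (2 : ℝ) ^ i / K ^ 9 = (2 : ℝ) ^ i / (2 * K ^ 9) + (2 : ℝ) ^ i / (2 * K ^ 9) := by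
        field_simp
        norm_num
      have h7 := hχ.2
      linarith
    have h3 : ∑ χ ∈ (XX N (2 ^ j) θ).filter
        (fun χ => ¬ ∑ l ∈ block N (2 ^ i), D χ l ≤ (2 : ℝ) ^ i / K ^ 9), b χ * ((2 : ℝ) ^ i / (2 * K ^ 9)) ≤
        ∑ l ∈ L (2 ^ i), ∑ χ ∈ XX N (2 ^ j) θ, b χ * D χ l := by
      refine (sum_le_sum h2).trans ?_
      rw [sum_comm]
      refine sum_le_sum ?_
      intro l _
      exact sum_le_sum_of_subset_of_nonneg (filter_subset _ _) (fun χ _ _ => mul_nonneg (hb0 χ) (hD0 χ l))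
    rw [← sum_mul] at h3
    have h4 : φ * ∑ l ∈ L (2 ^ i), ∑ χ ∈ XX N (2 ^ j) θ, b χ * D χ l ≤ K ^ 15 * (ε * S) * (L (2 ^ i)).card := by
      rw [hb, hD]
      exact h1
    have h5 : K ^ 15 * (ε * S) * ((L (2 ^ i)).card : ℝ) ≤ K ^ 15 * (ε * S) * (2 : ℝ) ^ i :=
      mul_le_mul_of_nonneg_left hLle (by positivity)
    have h6 := mul_le_mul_of_nonneg_left h3 hφ0.le
    obtain ⟨Q, hQ⟩ : ∃ Q : ℝ, Q = ∑ χ ∈ (XX N (2 ^ j) θ).filter
        (fun χ => ¬ ∑ l ∈ block N (2 ^ i), D χ l ≤ (2 : ℝ) ^ i / K ^ 9), b χ := ⟨_, rfl⟩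
    rw [← hQ] at h6 ⊢
    have h7 : φ * Q * ((2 : ℝ) ^ i / (2 * K ^ 9)) ≤ 2 * K ^ 24 * (ε * S) * ((2 : ℝ) ^ i / (2 * K ^ 9)) := by
      have h8 : 2 * K ^ 24 * (ε * S) * ((2 : ℝ) ^ i / (2 * K ^ 9)) = K ^ 15 * (ε * S) * (2 : ℝ) ^ i := by
        field_simp
      rw [h8]
      linarith
    exact le_of_mul_le_mul_right h7 (by positivity)
  -- all characters which are not close
  have hnc : φ * ∑ χ ∈ univ.filter (fun χ => ¬ close χ), b χ ≤ K ^ 30 * (ε * S) := by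
    have h1 : ∀ χ ∈ univ.filter (fun χ => ¬ close χ), b χ ≤
        (if χ ∈ univ \ XX N (2 ^ j) θ then b χ else 0) +
          ∑ i ∈ I, (if χ ∈ (XX N (2 ^ j) θ).filter
            (fun χ => ¬ ∑ l ∈ block N (2 ^ i), D χ l ≤ (2 : ℝ) ^ i / K ^ 9) then b χ else 0) := by
      intro χ hχ
      have h2 : ∀ i ∈ I, 0 ≤ (if χ ∈ (XX N (2 ^ j) θ).filter
            (fun χ => ¬ ∑ l ∈ block N (2 ^ i), D χ l ≤ (2 : ℝ) ^ i / K ^ 9) then b χ else 0) := by
        intro i _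
        split_ifs
        · exact hb0 χ
        · exact le_rfl
      by_cases hx : χ ∈ XX N (2 ^ j) θ
      · have h3 := (mem_filter.mp hχ).2
        rw [hclose] at h3
        push Not at h3
        obtain ⟨i, hji, hiH, h4⟩ := h3
        have h5 := Finset.single_le_sum h2 (hmemI i hji hiH)
        rw [if_pos (mem_filter.mpr ⟨hx, not_le.mpr h4⟩)] at h5
        rw [if_neg (fun h6 => (mem_sdiff.mp h6).2 hx), zero_add]
        exact h5
      · rw [if_pos (mem_sdiff.mpr ⟨mem_univ _, hx⟩)]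
        have h3 := Finset.sum_nonneg h2
        linarith
    have h2 : ∑ χ ∈ univ.filter (fun χ => ¬ close χ), b χ ≤
        ∑ χ ∈ univ \ XX N (2 ^ j) θ, b χ + ∑ i ∈ I, ∑ χ ∈ (XX N (2 ^ j) θ).filter
            (fun χ => ¬ ∑ l ∈ block N (2 ^ i), D χ l ≤ (2 : ℝ) ^ i / K ^ 9), b χ := by
      refine (sum_le_sum h1).trans ?_
      rw [sum_add_distrib]
      have h3 : ∀ (s t : Finset (DirichletCharacter ℂ N)), ∑ χ ∈ s, (if χ ∈ t then b χ else 0) ≤ ∑ χ ∈ t, b χ := by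
        intro s t
        rw [← sum_filter]
        exact sum_le_sum_of_subset_of_nonneg (fun χ hχ => (mem_filter.mp hχ).2) (fun χ _ _ => hb0 χ)
      refine add_le_add (h3 _ _) ?_
      rw [sum_comm]
      exact sum_le_sum (fun i _ => h3 _ _)
    have h3 := mul_le_mul_of_nonneg_left h2 hφ0.le
    rw [mul_add, Finset.mul_sum I] at h3
    have h4 : ∑ i ∈ I, φ * ∑ χ ∈ (XX N (2 ^ j) θ).filter
            (fun χ => ¬ ∑ l ∈ block N (2 ^ i), D χ l ≤ (2 : ℝ) ^ i / K ^ 9), b χ ≤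
        2 * K * (2 * K ^ 24 * (ε * S)) := by
      refine (sum_le_sum hone).trans ?_
      rw [sum_const, nsmul_eq_mul]
      exact mul_le_mul_of_nonneg_right hcardI (by positivity)
    have h5 : φ * ∑ χ ∈ univ \ XX N (2 ^ j) θ, b χ ≤ K * (ε * S) := by
      rw [hb]
      exact hfirst
    have h6 : K * (ε * S) + 2 * K * (2 * K ^ 24 * (ε * S)) ≤ K ^ 30 * (ε * S) := by
      have h7 : K + 4 * K ^ 25 ≤ K ^ 30 := by
        have h8 : K ^ 1 ≤ K ^ 25 := pow_le_pow_right₀ (by linarith) (by norm_num)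
        have h9 : 8 ^ 5 ≤ K ^ 5 := pow_le_pow_left₀ (by norm_num) hK8 5
        have h10 : 0 < K ^ 25 := by positivity
        have h11 : K ^ 30 = K ^ 25 * K ^ 5 := by ring
        rw [h11]
        nlinarith
      have h8 : K * (ε * S) + 2 * K * (2 * K ^ 24 * (ε * S)) = (K + 4 * K ^ 25) * (ε * S) := by ring
      rw [h8]
      exact mul_le_mul_of_nonneg_right h7 (by positivity)
    linarith
  have hsmall : K ^ 30 * (ε * S) ≤ S / 2 := by
    have h1 : K ^ 40 * ε = K ^ 10 * (K ^ 30 * ε) := by ring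
    have h2 : (2 : ℝ) ≤ K ^ 10 := by
      calc (2 : ℝ) ≤ 8 ^ 10 := by norm_num
        _ ≤ K ^ 10 := pow_le_pow_left₀ (by norm_num) hK8 10
    have h3 : 0 ≤ K ^ 30 * ε := by positivity
    have h4 : 2 * (K ^ 30 * ε) ≤ 1 := by nlinarith
    nlinarith
  have hsplit : S = φ * ∑ χ ∈ univ.filter (fun χ => close χ), b χ +
      φ * ∑ χ ∈ univ.filter (fun χ => ¬ close χ), b χ := by
    rw [← mul_add, sum_filter_add_sum_filter_not]
    exact hpars
  -- the close character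
  obtain ⟨χ0, hχ0⟩ : ∃ χ0, close χ0 := by
    by_contra hcon
    push Not at hcon
    have h1 : univ.filter (fun χ => close χ) = ∅ := by
      rw [filter_eq_empty_iff]
      exact fun χ _ => hcon χ
    rw [h1, sum_empty, mul_zero] at hsplit
    linarith
  have hset : univ.filter (fun χ => close χ) = {χ0} := by
    ext χ
    rw [mem_filter, mem_singleton]
    constructor
    · intro h1
      exact huniq _ _ h1.2 hχ0
    · rintro rfl
      exact ⟨mem_univ _, hχ0⟩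
  have hset2 : univ.filter (fun χ => ¬ close χ) = univ.erase χ0 := by
    ext χ
    rw [mem_filter, mem_erase]
    constructor
    · intro h1
      refine ⟨?_, mem_univ _⟩
      rintro rfl
      exact h1.2 hχ0
    · intro h1
      exact ⟨mem_univ _, fun h2 => h1.1 (huniq _ _ h2 hχ0)⟩
  rw [hset, sum_singleton] at hsplit
  rw [hset2] at hsplit hnc
  have hmass : S / 2 ≤ φ * b χ0 := by linarith
  refine ⟨χ0, ?_, ?_, ?_⟩
  · rw [hb] at hnc
    exact hnc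
  · intro i hji hiH
    have hx : χ0 ∈ XX N (2 ^ j) θ := by
      by_contra hx
      have h1 : b χ0 ≤ ∑ χ ∈ univ \ XX N (2 ^ j) θ, b χ :=
        Finset.single_le_sum (fun χ _ => hb0 χ) (mem_sdiff.mpr ⟨mem_univ _, hx⟩)
      have h2 : φ * ∑ χ ∈ univ \ XX N (2 ^ j) θ, b χ ≤ K * (ε * S) := by
        rw [hb]
        exact hfirst
      have h3 := mul_le_mul_of_nonneg_left h1 hφ0.le
      have h4 : K * (ε * S) < S / 2 := by
        have h5 : K ^ 1 * (8 : ℝ) ^ 29 ≤ K ^ 30 := by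
          have h6 : (8 : ℝ) ^ 29 ≤ K ^ 29 := pow_le_pow_left₀ (by norm_num) hK8 29
          calc K ^ 1 * (8 : ℝ) ^ 29 ≤ K ^ 1 * K ^ 29 := mul_le_mul_of_nonneg_left h6 (by positivity)
            _ = K ^ 30 := by ring
        have h6 : 2 * K ≤ K ^ 30 := by
          rw [pow_one] at h5
          nlinarith
        have h7 : 2 * K * (ε * S) ≤ K ^ 30 * (ε * S) := mul_le_mul_of_nonneg_right h6 (by positivity)
        have h8 : K * (ε * S) ≤ S / 4 := by linarith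
        linarith
      linarith
    have h1 := husl i hji hiH
    have h2 : ∑ l ∈ L (2 ^ i), b χ0 * D χ0 l ≤ ∑ l ∈ L (2 ^ i), ∑ χ ∈ XX N (2 ^ j) θ, b χ * D χ l := by
      refine sum_le_sum ?_
      intro l _
      exact Finset.single_le_sum (f := fun χ => b χ * D χ l) (fun χ _ => mul_nonneg (hb0 χ) (hD0 χ l)) hx
    have h3 : φ * ∑ l ∈ L (2 ^ i), ∑ χ ∈ XX N (2 ^ j) θ, b χ * D χ l ≤ K ^ 15 * (ε * S) * (L (2 ^ i)).card := by
      rw [hb, hD]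
      exact h1
    rw [← mul_sum] at h2
    have h4 := mul_le_mul_of_nonneg_left h2 hφ0.le
    obtain ⟨R, hR⟩ : ∃ R : ℝ, R = ∑ l ∈ L (2 ^ i), D χ0 l := ⟨_, rfl⟩
    have hR0 : 0 ≤ R := by
      rw [hR]
      exact sum_nonneg (fun l _ => hD0 χ0 l)
    have hgoal : R ≤ 2 * K ^ 15 * ε * (L (2 ^ i)).card := by
      rw [← hR] at h4
      have h5 : S / 2 * R ≤ φ * b χ0 * R := mul_le_mul_of_nonneg_right hmass hR0
      have h6 : S / 2 * R ≤ S / 2 * (2 * K ^ 15 * ε * (L (2 ^ i)).card) := by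
        have h7 : S / 2 * (2 * K ^ 15 * ε * ((L (2 ^ i)).card : ℝ)) = K ^ 15 * (ε * S) * (L (2 ^ i)).card := by ring
        rw [h7]
        linarith
      exact le_of_mul_le_mul_left h6 (by linarith)
    rw [hR, hD] at hgoal
    exact hgoal
  · intro χ h1
    refine huniq χ χ0 ?_ hχ0
    rw [hclose, hD]
    exact h1

end Pool.Agent.Lib.TCF
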