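import Pool.Agent.Lib.MP_7b7e48_nt.TCF.Siz

/-!
# Module Uusum (120 minutes): sum of `UUr` over a test measure; `UU ≤ UUr + ph PY`

PROOF of `uusum`. Put `b = v n`, `J2 N < b ≤ J1 N`. `UUr l b = ∑_j ∑_i [X_j ≠ l b] NL l X_j Y_i` with `X_j = l b + (j - q) N`, `q = l b / N`,
`Y_i = b + (i - q') N`, `q' = b / N` (`ZMod.val_natCast`, `Nat.div_add_mod`), and `q' = q / l` (`Nat.div_div_eq_div_mul`: `(l b / N) / l = b / N`). Fix `j, i`.
For fixed `q ≤ l J1` the `n` with `l v n / N = q` form an interval `Ioc a_q b_q`; the sum of the `b_q - a_q` over these `q` is at most the number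
`J1 N / v` of all `n`. Only `q` with `q' = q / l ≥ J2` matter (`b > J2 N`), so the coefficient `i - q'` of `Y_i` is `< 0` (`i < J0 ≤ J2`, `j0_le`), and terms
with `j = q` vanish by the definition of `UUr`; so `c = i - q' ≠ 0`, `c' = j - q ≠ 0` and `PairIn.m1` applies on the part of the interval with
`v n > J2 N`: `∑ wt * NL ≤ (4 / JJ) rho rho L (b_q - a_q + N ^ (1 - kap / 8) / v)` (conditions: `xy_lt`, `x_lt`, `v n ≤ J1 N`; `0 < Y_i` as `n` coprime to
`N` or: if `Y_i = 0` then `NL = 0`, `Rgh1` fails for `0` as `N ≥ 2`; restrict to the `n` with `0 < Y_i`, which on the interval is all or nothing up to one point;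
simplest: cut off the first point `n` with `Y_i = 0` from the interval, it is the smallest element). Sum over `q ≤ l J1`:
`∑ ≤ (4 / JJ) rho rho L (J1 N / v + (l J1 + 1) N ^ (1 - kap / 8) / v)`, and `(l J1 + 1) N ^ (1 - kap / 8) ≤ N ≤ J1 N` by `j1_kap`, `l ≤ 4 MM ^ 2`, `MM ^ 4 J1 ≤
N ^ (kap / 1000)`. Sum over `j < J1`, `i < J0`.
`uu_le`: the only term of `UU l b` which is not in `UUr l b` is `X_j = l b`; `∑_i NL l (l b) Y_i ≤ ph (l b) ∑_i ph Y_i` (`nl_le`).
`pxr_le`: terms `≥ 0`.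
-/

set_option autoImplicit false

open Finset

namespace Pool.Agent.Lib.TCF

open Pool.Agent.Lib.RG hiding RR sig Good
open Pool.Agent.Lib.RH
open Pool.Agent.Lib.MP_45349e_nt.LS (lam)

variable {P : Prm} {N : ℕ} [NeZero N] {D : Dat} {Lk : ℕ → ℕ → ℕ → ℕ → Prop} {Bd : ℕ → ℕ → Prop}
  {A : Finset (ZMod N)}

theorem uu_le (hD : D.Ok P N) (l b : ℕ) : UU P N D Lk Bd l ((b : ℕ) : ZMod N) ≤
    UUr P N D Lk Bd l b + ph P N D.BX (l * b) * PY P N D ((b : ℕ) : ZMod N) := by
  classical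
  have hN : 0 < N := Nat.pos_of_ne_zero (NeZero.ne N)
  have hx : (l : ZMod N) * ((b : ℕ) : ZMod N) = ((l * b : ℕ) : ZMod N) := by push_cast; rfl
  unfold UU UUr
  rw [hx]
  have h0 : 0 ≤ ph P N D.BX (l * b) * PY P N D ((b : ℕ) : ZMod N) :=
    mul_nonneg (ph_nonneg _ _ _ _) (py_nonneg _)
  have h1 : ∀ j ∈ Ico D.J2 D.J1, ∑ i ∈ range D.J0,
      NL P N D Lk Bd l (((l * b : ℕ) : ZMod N).val + j * N) (((b : ℕ) : ZMod N).val + i * N) ≤
      (∑ i ∈ range D.J0, if (((l * b : ℕ) : ZMod N).val + j * N) = l * b then 0 else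
        NL P N D Lk Bd l (((l * b : ℕ) : ZMod N).val + j * N) (((b : ℕ) : ZMod N).val + i * N)) +
      if (((l * b : ℕ) : ZMod N).val + j * N) = l * b then
        ph P N D.BX (l * b) * PY P N D ((b : ℕ) : ZMod N) else 0 := by
    intro j _
    by_cases h : (((l * b : ℕ) : ZMod N).val + j * N) = l * b
    · rw [if_pos h]
      simp only [h, if_true, sum_const_zero, zero_add]
      unfold PY
      rw [mul_sum]
      exact sum_le_sum fun i _ => nl_le hD l (l * b) _
    · rw [if_neg h, add_zero]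
      simp only [h, if_false]
      exact le_rfl
  refine (sum_le_sum h1).trans ?_
  rw [sum_add_distrib]
  refine add_le_add le_rfl ?_
  rw [← sum_filter, sum_const, nsmul_eq_mul]
  have h2 : (((Ico D.J2 D.J1).filter fun j => (((l * b : ℕ) : ZMod N).val + j * N) = l * b).card : ℝ)
      ≤ 1 := by
    have h3 : ((Ico D.J2 D.J1).filter fun j =>
        (((l * b : ℕ) : ZMod N).val + j * N) = l * b).card ≤ 1 := by
      rw [card_le_one]
      intro a ha a' ha'
      rw [mem_filter] at ha ha'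
      have h4 : a * N = a' * N := by
        have := ha.2.trans ha'.2.symm
        omega
      exact Nat.eq_of_mul_eq_mul_right hN h4
    exact_mod_cast h3
  calc _ ≤ 1 * (ph P N D.BX (l * b) * PY P N D ((b : ℕ) : ZMod N)) :=
        mul_le_mul_of_nonneg_right h2 h0
    _ = _ := one_mul _

theorem pxr_le (l b : ℕ) : PXr P N D l b ≤ PX P N D ((l : ZMod N) * ((b : ℕ) : ZMod N)) := by
  have hx : (l : ZMod N) * ((b : ℕ) : ZMod N) = ((l * b : ℕ) : ZMod N) := by push_cast; rfl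
  unfold PXr PX
  rw [hx]
  refine sum_le_sum fun j _ => ?_
  split_ifs
  · exact ph_nonneg _ _ _ _
  · exact le_rfl

theorem pxr_class (l : ℕ) (x : ZMod N) : PXr P N D l x.val ≤ PX P N D ((l : ZMod N) * x) := by
  have h := pxr_le (P := P) (D := D) l x.val (N := N)
  rwa [ZMod.natCast_zmod_val] at h

/-- the bounds of the intervals on which the quotient is constant -/
private def Uusum_a (N w q : ℕ) : ℕ := (q * N - 1) / w

private theorem Uusum_lt {N w q n : ℕ} (hN : 0 < N) (hw : 0 < w) (hn : 1 ≤ n) :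
    n ≤ Uusum_a N w q ↔ w * n < q * N := by
  unfold Uusum_a
  rw [Nat.le_div_iff_mul_le hw, mul_comm n w]
  have h1 : 0 < w * n := Nat.mul_pos hw hn
  rcases Nat.eq_zero_or_pos q with h | h
  · subst h
    omega
  · have h2 : 0 < q * N := Nat.mul_pos h hN
    omega

private theorem Uusum_mono {N w : ℕ} (q : ℕ) : Uusum_a N w q ≤ Uusum_a N w (q + 1) := by
  unfold Uusum_a
  refine Nat.div_le_div_right ?_
  have : q * N ≤ (q + 1) * N := Nat.mul_le_mul_right N (Nat.le_succ q)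
  omega

private theorem Uusum_div {N w q n : ℕ} (hN : 0 < N) (hw : 0 < w) (hn : 1 ≤ n) :
    (w * n / N = q) ↔ (Uusum_a N w q < n ∧ n ≤ Uusum_a N w (q + 1)) := by
  rw [← not_le, Uusum_lt hN hw hn, Uusum_lt hN hw hn, Nat.div_eq_iff hN]
  constructor
  · rintro ⟨h1, h2⟩
    constructor
    · omega
    · have h3 : (q + 1) * N = q * N + N := by ring
      omega
  · rintro ⟨h1, h2⟩
    have h3 : (q + 1) * N = q * N + N := by ring
    constructor
    · omega
    · omega

/-- one value of the quotient -/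
private theorem Uusum_q (hh : Hyp P N D Lk Bd A) {v : ℕ} {o : Option (ℕ → ℝ)} {L : ℝ}
    (hm : TM P N v o L) {l : ℕ} (hl : Mul P N l) {j i : ℕ} (hj : j ∈ Ico D.J2 D.J1)
    (hi : i ∈ range D.J0) (q : ℕ) :
    ∑ n ∈ ((Icc 1 (D.J1 * N / v)).filter (fun n => n.Coprime N ∧ D.J2 * N < v * n)).filter
        (fun n => l * v * n / N = q),
      wt D.y0 o n * (if (((l * (v * n) : ℕ) : ZMod N).val + j * N) = l * (v * n) then 0 else
        NL P N D Lk Bd l (((l * (v * n) : ℕ) : ZMod N).val + j * N)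
          (((v * n : ℕ) : ZMod N).val + i * N)) ≤
      4 / JJ N * (rho D.BX * rho D.BY * L *
        (((min (Uusum_a N (l * v) (q + 1)) (D.J1 * N / v) : ℕ) : ℝ) -
          ((min (Uusum_a N (l * v) q) (D.J1 * N / v) : ℕ) : ℝ) +
          (N : ℝ) ^ (1 - P.kap / 8) / v)) := by
  classical
  have hN : 0 < N := Nat.pos_of_ne_zero (NeZero.ne N)
  have hN2 : 2 ≤ N := N_two hh.nx
  have hl1 : 1 ≤ l := (mul_facts hh.nx hl).1
  have hw : 0 < l * v := Nat.mul_pos hl1 hm.v1
  rw [mem_Ico] at hj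
  rw [mem_range] at hi
  have hlog : 0 < Real.log N := by
    have := hK hh.nx
    have : (0 : ℝ) < 10 ^ 9 := by norm_num
    linarith
  have hρ : 0 ≤ rho D.BX * rho D.BY * L := by
    have h1 := rho_pos hh.ok.fx hlog
    have h2 := rho_pos hh.ok.fy hlog
    have h3 := tm_L_pos hh.nx hm
    positivity
  have hJJ : (0 : ℝ) ≤ 4 / JJ N := by positivity
  have hv0 : (0 : ℝ) < v := by exact_mod_cast hm.v1
  have hmono : ((min (Uusum_a N (l * v) q) (D.J1 * N / v) : ℕ) : ℝ) ≤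
      ((min (Uusum_a N (l * v) (q + 1)) (D.J1 * N / v) : ℕ) : ℝ) := by
    exact_mod_cast min_le_min (Uusum_mono q) le_rfl
  have hpw : (0 : ℝ) ≤ (N : ℝ) ^ (1 - P.kap / 8) / v := by positivity
  have hR : 0 ≤ 4 / JJ N * (rho D.BX * rho D.BY * L *
        (((min (Uusum_a N (l * v) (q + 1)) (D.J1 * N / v) : ℕ) : ℝ) -
          ((min (Uusum_a N (l * v) q) (D.J1 * N / v) : ℕ) : ℝ) +
          (N : ℝ) ^ (1 - P.kap / 8) / v)) :=
    mul_nonneg hJJ (mul_nonneg hρ (by linarith))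
  have hdm : ∀ n : ℕ, (((l * (v * n) : ℕ) : ZMod N).val : ℤ) = (l * (v * n) : ℕ) -
      ((l * v * n / N : ℕ) : ℤ) * N := by
    intro n
    rw [ZMod.val_natCast]
    have h1 := Nat.div_add_mod (l * (v * n)) N
    rw [mul_assoc l v n]
    have h2 : ((l * (v * n) : ℕ) : ℤ) = (N : ℤ) * ((l * (v * n) / N : ℕ) : ℤ) +
        ((l * (v * n) % N : ℕ) : ℤ) := by exact_mod_cast h1.symm
    rw [h2]
    ring
  have hdm' : ∀ n : ℕ, (((v * n : ℕ) : ZMod N).val : ℤ) = (v * n : ℕ) -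
      ((v * n / N : ℕ) : ℤ) * N := by
    intro n
    rw [ZMod.val_natCast]
    have h1 := Nat.div_add_mod (v * n) N
    have h2 : ((v * n : ℕ) : ℤ) = (N : ℤ) * ((v * n / N : ℕ) : ℤ) +
        ((v * n % N : ℕ) : ℤ) := by exact_mod_cast h1.symm
    rw [h2]
    ring
  have hql : ∀ n : ℕ, v * n / N = l * v * n / N / l := by
    intro n
    rw [Nat.div_div_eq_div_mul, mul_assoc, mul_comm N l, Nat.mul_div_mul_left _ _ hl1]
  by_cases hjq : j = q
  · refine le_trans (le_of_eq (sum_eq_zero fun n hn => ?_)) hR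
    rw [mem_filter] at hn
    rw [if_pos, mul_zero]
    have h1 := hdm n
    rw [hn.2, ← hjq] at h1
    have h2 : ((((l * (v * n) : ℕ) : ZMod N).val + j * N : ℕ) : ℤ) = ((l * (v * n) : ℕ) : ℤ) := by
      push_cast at h1 ⊢
      rw [h1]
      ring
    exact_mod_cast h2
  · set a := max (max (Uusum_a N (l * v) q) (D.J2 * N / v)) (q / l * N / v) with ha
    set b := min (Uusum_a N (l * v) (q + 1)) (D.J1 * N / v) with hb
    -- the part of the interval
    have hsub : ((Icc 1 (D.J1 * N / v)).filter (fun n => n.Coprime N ∧ D.J2 * N < v * n)).filter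
        (fun n => l * v * n / N = q) ⊆ Ioc a b := by
      intro n hn
      rw [mem_filter, mem_filter, mem_Icc] at hn
      obtain ⟨⟨⟨h1, h2⟩, h3, h4⟩, h5⟩ := hn
      obtain ⟨h6, h7⟩ := (Uusum_div hN hw h1).1 h5
      rw [mem_Ioc, ha, hb]
      refine ⟨max_lt (max_lt h6 ?_) ?_, le_min h7 h2⟩
      · rw [Nat.div_lt_iff_lt_mul hm.v1, mul_comm n v]
        exact h4
      · rw [Nat.div_lt_iff_lt_mul hm.v1, mul_comm n v]
        have h8 : q / l = v * n / N := by rw [hql, h5]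
        rw [h8]
        have h9 : v * n / N * N ≤ v * n := Nat.div_mul_le_self _ _
        refine lt_of_le_of_ne h9 fun h10 => ?_
        have h11 : N ∣ v * n := Dvd.intro_left _ h10
        have h12 : (v * n).Coprime N := Nat.Coprime.mul_left hm.vc h3
        have h13 := Nat.Coprime.eq_one_of_dvd h12.symm h11
        omega
    have hw0 : ∀ n, 0 ≤ wt D.y0 o n := fun n => wt_nonneg hm D.y0 n
    have h1 : ∑ n ∈ ((Icc 1 (D.J1 * N / v)).filter (fun n => n.Coprime N ∧ D.J2 * N < v * n)).filter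
        (fun n => l * v * n / N = q),
      wt D.y0 o n * (if (((l * (v * n) : ℕ) : ZMod N).val + j * N) = l * (v * n) then 0 else
        NL P N D Lk Bd l (((l * (v * n) : ℕ) : ZMod N).val + j * N)
          (((v * n : ℕ) : ZMod N).val + i * N)) ≤
      ∑ n ∈ Ioc a b, wt D.y0 o n * NL P N D Lk Bd l (((l * (v * n) : ℕ) : ZMod N).val + j * N)
          (((v * n : ℕ) : ZMod N).val + i * N) := by
      refine le_trans (sum_le_sum fun n _ => ?_) (sum_le_sum_of_subset_of_nonneg hsub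
        fun n _ _ => mul_nonneg (hw0 n) (nl_nonneg _ _ _ _ _ _ _ _))
      refine mul_le_mul_of_nonneg_left ?_ (hw0 n)
      split_ifs
      · exact nl_nonneg _ _ _ _ _ _ _ _
      · exact le_rfl
    refine h1.trans ?_
    by_cases hab : a < b
    · -- apply the input
      have hmem : ∀ n ∈ Ioc a b, 1 ≤ n ∧ l * v * n / N = q ∧ D.J2 * N < v * n ∧
          q / l * N < v * n ∧ v * n ≤ D.J1 * N := by
        intro n hn
        rw [mem_Ioc, ha, hb] at hn
        obtain ⟨g1, g2⟩ := hn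
        rw [max_lt_iff, max_lt_iff] at g1
        rw [le_min_iff] at g2
        have g3 : 1 ≤ n := by omega
        refine ⟨g3, (Uusum_div hN hw g3).2 ⟨g1.1.1, g2.1⟩, ?_, ?_, ?_⟩
        · have := (Nat.div_lt_iff_lt_mul hm.v1).1 g1.1.2
          rwa [mul_comm n v] at this
        · have := (Nat.div_lt_iff_lt_mul hm.v1).1 g1.2
          rwa [mul_comm n v] at this
        · have := (Nat.le_div_iff_mul_le hm.v1).1 g2.2
          rwa [mul_comm n v] at this
      have hcc : (i : ℤ) - ((q / l : ℕ) : ℤ) ≠ 0 := by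
        obtain ⟨g3, g4, g5, _, _⟩ := hmem b (mem_Ioc.2 ⟨hab, le_rfl⟩)
        have g6 : q / l = v * b / N := by rw [hql, g4]
        have g7 : D.J2 ≤ v * b / N := (Nat.le_div_iff_mul_le hN).2 g5.le
        have g8 := j0_le hh.nx hh.ok
        have g9 : 1 ≤ MM P N := mm_one P N
        have g10 : D.J0 ≤ 8 * MM P N ^ 2 * D.J0 :=
          Nat.le_mul_of_pos_left _ (by positivity)
        have g11 : i < q / l := by rw [g6]; omega
        omega
      have hcc' : (j : ℤ) - (q : ℤ) ≠ 0 := by omega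
      have hpm := hh.pin.m1 v o L hm l hl ((i : ℤ) - ((q / l : ℕ) : ℤ)) ((j : ℤ) - (q : ℤ))
        (Or.inr ⟨hcc, hcc'⟩) (fun n => ((l * (v * n) : ℕ) : ZMod N).val + j * N)
        (fun n => ((v * n : ℕ) : ZMod N).val + i * N) a b hab.le (by
          intro n hn
          obtain ⟨g1, g2, g3, g4, g5⟩ := hmem n hn
          have f1 := hdm n
          have f2 := hdm' n
          rw [g2] at f1
          rw [hql, g2] at f2
          refine ⟨?_, ?_, ?_, ?_, ?_, g5⟩
          · push_cast at f1 ⊢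
            rw [f1]
            ring
          · push_cast at f2 ⊢
            rw [f2]
            ring
          · have f3 : (0 : ℤ) < ((((v * n : ℕ) : ZMod N).val : ℕ) : ℤ) := by
              rw [f2]
              have : ((q / l * N : ℕ) : ℤ) < ((v * n : ℕ) : ℤ) := by exact_mod_cast g4
              push_cast at this ⊢
              linarith
            have f4 : 0 < ((v * n : ℕ) : ZMod N).val := by exact_mod_cast f3
            show 0 < ((v * n : ℕ) : ZMod N).val + i * N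
            omega
          · exact xy_lt hh.nx hh.ok hl _ _ hj.1 hi
          · exact (x_lt _ hj.2).le)
      refine hpm.trans ?_
      refine mul_le_mul_of_nonneg_left (mul_le_mul_of_nonneg_left ?_ hρ) hJJ
      unfold len
      have g1 : ((min (Uusum_a N (l * v) q) (D.J1 * N / v) : ℕ) : ℝ) ≤ (a : ℝ) := by
        have : min (Uusum_a N (l * v) q) (D.J1 * N / v) ≤ a :=
          (min_le_left _ _).trans ((le_max_left _ _).trans (le_max_left _ _))
        exact_mod_cast this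
      linarith
    · rw [Ioc_eq_empty_of_le (not_lt.1 hab), sum_empty]
      exact hR

private theorem Uusum_ji (hh : Hyp P N D Lk Bd A) {v : ℕ} {o : Option (ℕ → ℝ)} {L : ℝ}
    (hm : TM P N v o L) {l : ℕ} (hl : Mul P N l) {j i : ℕ} (hj : j ∈ Ico D.J2 D.J1)
    (hi : i ∈ range D.J0) :
    ∑ n ∈ (Icc 1 (D.J1 * N / v)).filter (fun n => n.Coprime N ∧ D.J2 * N < v * n),
      wt D.y0 o n * (if (((l * (v * n) : ℕ) : ZMod N).val + j * N) = l * (v * n) then 0 else
        NL P N D Lk Bd l (((l * (v * n) : ℕ) : ZMod N).val + j * N)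
          (((v * n : ℕ) : ZMod N).val + i * N)) ≤
      8 / JJ N * (rho D.BX * rho D.BY * (L * (D.J1 * N / v))) := by
  classical
  have hN : 0 < N := Nat.pos_of_ne_zero (NeZero.ne N)
  have hlf := mul_facts hh.nx hl
  have hlog : 0 < Real.log N := by
    have := hK hh.nx
    have : (0 : ℝ) < 10 ^ 9 := by norm_num
    linarith
  have hρ : 0 ≤ rho D.BX * rho D.BY * L := by
    have h1 := rho_pos hh.ok.fx hlog
    have h2 := rho_pos hh.ok.fy hlog
    have h3 := tm_L_pos hh.nx hm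
    positivity
  have hJJ : (0 : ℝ) ≤ 4 / JJ N := by positivity
  have hv0 : (0 : ℝ) < v := by exact_mod_cast hm.v1
  have hmap : ∀ n ∈ (Icc 1 (D.J1 * N / v)).filter (fun n => n.Coprime N ∧ D.J2 * N < v * n),
      l * v * n / N ∈ range (l * D.J1 + 1) := by
    intro n hn
    rw [mem_filter, mem_Icc] at hn
    rw [mem_range, Nat.lt_succ_iff]
    have h1 : v * n ≤ D.J1 * N := by
      have := (Nat.le_div_iff_mul_le hm.v1).1 hn.1.2
      rwa [mul_comm n v] at this
    calc l * v * n / N = l * (v * n) / N := by rw [mul_assoc]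
      _ ≤ l * (D.J1 * N) / N := Nat.div_le_div_right (Nat.mul_le_mul_left l h1)
      _ = l * D.J1 := by rw [← mul_assoc, Nat.mul_div_cancel _ hN]
  rw [← sum_fiberwise_of_maps_to hmap]
  refine (sum_le_sum fun q _ => Uusum_q hh hm hl hj hi q).trans ?_
  rw [← mul_sum, ← mul_sum, sum_add_distrib, sum_const, card_range, nsmul_eq_mul,
    sum_range_sub (fun q => ((min (Uusum_a N (l * v) q) (D.J1 * N / v) : ℕ) : ℝ))]
  have h1 : ((min (Uusum_a N (l * v) (l * D.J1 + 1)) (D.J1 * N / v) : ℕ) : ℝ) -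
      ((min (Uusum_a N (l * v) 0) (D.J1 * N / v) : ℕ) : ℝ) ≤ D.J1 * N / v := by
    have g1 : ((min (Uusum_a N (l * v) (l * D.J1 + 1)) (D.J1 * N / v) : ℕ) : ℝ) ≤
        ((D.J1 * N / v : ℕ) : ℝ) := by exact_mod_cast min_le_right _ _
    have g2 : ((D.J1 * N / v : ℕ) : ℝ) ≤ ((D.J1 * N : ℕ) : ℝ) / v := Nat.cast_div_le
    have g3 : (0 : ℝ) ≤ ((min (Uusum_a N (l * v) 0) (D.J1 * N / v) : ℕ) : ℝ) := Nat.cast_nonneg _
    push_cast at g2
    push_cast at g1 g3 ⊢
    linarith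
  have h2 : ((l * D.J1 + 1 : ℕ) : ℝ) * ((N : ℝ) ^ (1 - P.kap / 8) / v) ≤ D.J1 * N / v := by
    have hN1 : (1 : ℝ) ≤ N := by exact_mod_cast hN
    have hN0 : (0 : ℝ) < N := by linarith
    have k1 := j1_kap hh.nx hh.ok hh.hP
    have hJ1 : (1 : ℝ) ≤ D.J1 := by exact_mod_cast j1_pos hh.nx hh.ok
    have hM1 : (1 : ℝ) ≤ MM P N := by exact_mod_cast mm_one P N
    have hJJ8 : (8 : ℝ) ≤ (JJ N : ℝ) ^ 4 := by
      have g1 := jj_K hh.nx
      have g2 := hK hh.nx
      have g3 : (1 : ℝ) ≤ Real.log N := by linarith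
      have g4 : (Real.log N) ^ 1 ≤ (Real.log N) ^ 1000 := pow_le_pow_right₀ g3 (by norm_num)
      rw [pow_one] at g4
      have g5 : (8 : ℝ) ≤ JJ N := by linarith
      have g6 : (JJ N : ℝ) ^ 1 ≤ (JJ N : ℝ) ^ 4 := pow_le_pow_right₀ (by linarith) (by norm_num)
      rw [pow_one] at g6
      linarith
    have k2 : ((l * D.J1 + 1 : ℕ) : ℝ) ≤ (JJ N : ℝ) ^ 4 * (MM P N : ℝ) ^ 4 * D.J1 := by
      have g1 : (l : ℝ) ≤ 4 * (MM P N : ℝ) ^ 2 := by exact_mod_cast hlf.2.1
      have g2 : (MM P N : ℝ) ^ 2 ≤ (MM P N : ℝ) ^ 4 := pow_le_pow_right₀ hM1 (by norm_num)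
      have g3 : (1 : ℝ) ≤ (MM P N : ℝ) ^ 4 := one_le_pow₀ hM1
      have g4 : (l : ℝ) * D.J1 ≤ 4 * (MM P N : ℝ) ^ 4 * D.J1 :=
        mul_le_mul_of_nonneg_right (g1.trans (by linarith)) (by linarith)
      have g5 : (1 : ℝ) ≤ (MM P N : ℝ) ^ 4 * D.J1 := one_le_mul_of_one_le_of_one_le g3 hJ1
      have g6 : 8 * ((MM P N : ℝ) ^ 4 * D.J1) ≤ (JJ N : ℝ) ^ 4 * ((MM P N : ℝ) ^ 4 * D.J1) :=
        mul_le_mul_of_nonneg_right hJJ8 (by linarith)
      push_cast
      rw [mul_assoc ((JJ N : ℝ) ^ 4)]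
      linarith
    have k3 : (N : ℝ) ^ (P.kap / 1000) ≤ (N : ℝ) ^ (P.kap / 8) :=
      Real.rpow_le_rpow_of_exponent_le hN1 (by have := hh.hP.kap0; linarith)
    have k4 : ((l * D.J1 + 1 : ℕ) : ℝ) * (N : ℝ) ^ (1 - P.kap / 8) ≤ D.J1 * N := by
      calc ((l * D.J1 + 1 : ℕ) : ℝ) * (N : ℝ) ^ (1 - P.kap / 8) ≤
          (N : ℝ) ^ (P.kap / 8) * (N : ℝ) ^ (1 - P.kap / 8) :=
            mul_le_mul_of_nonneg_right (k2.trans (k1.trans k3)) (by positivity)
        _ = N := by
            rw [← Real.rpow_add hN0]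
            rw [add_sub_cancel, Real.rpow_one]
        _ ≤ D.J1 * N := le_mul_of_one_le_left hN0.le hJ1
    rw [← mul_div_assoc]
    exact div_le_div_of_nonneg_right k4 hv0.le
  calc _ ≤ 4 / JJ N * (rho D.BX * rho D.BY * L * (D.J1 * N / v + D.J1 * N / v)) :=
        mul_le_mul_of_nonneg_left (mul_le_mul_of_nonneg_left (add_le_add h1 h2) hρ) hJJ
    _ = 8 / JJ N * (rho D.BX * rho D.BY * (L * (D.J1 * N / v))) := by ring

theorem uusum (hh : Hyp P N D Lk Bd A) {v : ℕ} {o : Option (ℕ → ℝ)} {L : ℝ} (hm : TM P N v o L)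
    {l : ℕ} (hl : Mul P N l) :
    ∑ n ∈ (Icc 1 (D.J1 * N / v)).filter (fun n => n.Coprime N ∧ D.J2 * N < v * n),
      wt D.y0 o n * UUr P N D Lk Bd l (v * n) ≤
      8 / JJ N * (D.J1 * rho D.BX) * (D.J0 * rho D.BY) * (L * (D.J1 * N / v)) := by
  classical
  have hlog : 0 < Real.log N := by
    have := hK hh.nx
    have : (0 : ℝ) < 10 ^ 9 := by norm_num
    linarith
  have hρ : 0 ≤ 8 / JJ N * (rho D.BX * rho D.BY * (L * (D.J1 * N / v))) := by
    have h1 := rho_pos hh.ok.fx hlog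
    have h2 := rho_pos hh.ok.fy hlog
    have h3 := tm_L_pos hh.nx hm
    positivity
  have h1 : ∑ n ∈ (Icc 1 (D.J1 * N / v)).filter (fun n => n.Coprime N ∧ D.J2 * N < v * n),
      wt D.y0 o n * UUr P N D Lk Bd l (v * n) =
      ∑ j ∈ Ico D.J2 D.J1, ∑ i ∈ range D.J0,
      ∑ n ∈ (Icc 1 (D.J1 * N / v)).filter (fun n => n.Coprime N ∧ D.J2 * N < v * n),
      wt D.y0 o n * (if (((l * (v * n) : ℕ) : ZMod N).val + j * N) = l * (v * n) then 0 else
        NL P N D Lk Bd l (((l * (v * n) : ℕ) : ZMod N).val + j * N)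
          (((v * n : ℕ) : ZMod N).val + i * N)) := by
    unfold UUr
    simp only [mul_sum]
    rw [sum_comm]
    refine sum_congr rfl fun j _ => ?_
    rw [sum_comm]
  rw [h1]
  have h2 : ∀ j ∈ Ico D.J2 D.J1, ∑ i ∈ range D.J0,
      ∑ n ∈ (Icc 1 (D.J1 * N / v)).filter (fun n => n.Coprime N ∧ D.J2 * N < v * n),
      wt D.y0 o n * (if (((l * (v * n) : ℕ) : ZMod N).val + j * N) = l * (v * n) then 0 else
        NL P N D Lk Bd l (((l * (v * n) : ℕ) : ZMod N).val + j * N)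
          (((v * n : ℕ) : ZMod N).val + i * N)) ≤
      D.J0 * (8 / JJ N * (rho D.BX * rho D.BY * (L * (D.J1 * N / v)))) := by
    intro j hj
    refine (sum_le_card_nsmul _ _ _ fun i hi => Uusum_ji hh hm hl hj hi).trans ?_
    rw [card_range, nsmul_eq_mul]
  refine (sum_le_card_nsmul _ _ _ h2).trans ?_
  rw [Nat.card_Ico, nsmul_eq_mul]
  have h3 : ((D.J1 - D.J2 : ℕ) : ℝ) ≤ D.J1 := by exact_mod_cast Nat.sub_le _ _
  calc ((D.J1 - D.J2 : ℕ) : ℝ) * (D.J0 * (8 / JJ N * (rho D.BX * rho D.BY * (L * (D.J1 * N / v))))) ≤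
      D.J1 * (D.J0 * (8 / JJ N * (rho D.BX * rho D.BY * (L * (D.J1 * N / v))))) :=
        mul_le_mul_of_nonneg_right h3 (mul_nonneg (Nat.cast_nonneg _) hρ)
    _ = _ := by ring

end Pool.Agent.Lib.TCF
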