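import Pool.Agent.Lib.MP_7b7e48_nt.TCF.Def2
import Pool.Agent.Lib.MP_7b7e48_nt.TCF.Maj

/-!
# Module Zsum (60 minutes): sums over `ZX` are bounded by sums over `AD`

`M = J1 rho_X`. PROOF. Let `x ∈ ZX`. `M / K ^ 2 ≤ PX x ≤ 2 ∑_j [lam X_j = FF x] ph X_j` (`ff_half`), and for these `X_j`: `lam X_j = FF x = - χ x = - χ X_j ≠ χ X_j` (`χ x ≠ 0`), i.e. `DA χ X_j`; if `ph X_j ≠ 0` then
`Rgh1 X_j`; `J2 N < X_j < J1 N` (`x.val > 0`, `unit_val`): `X_j ∈ AD`. So `M / K ^ 2 * H x ≤ 2 ∑_{j : X_j ∈ AD} pht X_j * H X_j`. Sum over `x`: the `X_j` are different numbers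
(`sum_split` with `W a = [a ∈ AD] pht a H a`; the class of `x.val + j N` is `x`).
-/

set_option autoImplicit false

open Finset

namespace Pool.Agent.Lib.TCF

open Pool.Agent.Lib.RG hiding RR sig Good
open Pool.Agent.Lib.RH
open Pool.Agent.Lib.MP_45349e_nt.LS (lam)

variable {P : Prm} {N : ℕ} [NeZero N] {D : Dat} {Lk : ℕ → ℕ → ℕ → ℕ → Prop} {Bd : ℕ → ℕ → Prop}
  {A : Finset (ZMod N)} {χ : DirichletCharacter ℂ N}

theorem zsum (E : EnvX P N D Lk Bd A χ) (H : ZMod N → ℝ) (hH : ∀ x, 0 ≤ H x) :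
    ∑ x ∈ ZX P N D χ, H x ≤ 2 * (Real.log N) ^ 2 / (D.J1 * rho D.BX) *
      ∑ a ∈ AD P D χ, pht D.BX a * H ((a : ℕ) : ZMod N) := by
  classical
  have hn := E.hyp.nx
  have hD := E.hyp.ok
  have hK0 : 0 < Real.log N := lt_of_lt_of_le (by norm_num) (hK hn)
  have hM0 : 0 < D.J1 * rho D.BX := mr_pos_X hn hD
  set W : ℕ → ℝ := fun a => if a ∈ AD P D χ then pht D.BX a * H ((a : ℕ) : ZMod N) else 0 with hW
  have hW0 : ∀ a, 0 ≤ W a := by
    intro a
    simp only [hW]
    split_ifs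
    · exact mul_nonneg (pht_nonneg _ _) (hH _)
    · exact le_rfl
  have hC0 : 0 ≤ 2 * (Real.log N) ^ 2 / (D.J1 * rho D.BX) := by positivity
  -- one class
  have h1 : ∀ x ∈ ZX P N D χ, H x ≤ 2 * (Real.log N) ^ 2 / (D.J1 * rho D.BX) *
      ∑ j ∈ Ico D.J2 D.J1, W (x.val + j * N) := by
    intro x hx
    unfold ZX at hx
    obtain ⟨-, hu, hPX, hF⟩ := mem_filter.1 hx
    have hcast : ∀ j : ℕ, ((x.val + j * N : ℕ) : ZMod N) = x := by
      intro j
      push_cast
      rw [ZMod.natCast_self, mul_zero, add_zero, ZMod.natCast_val, ZMod.cast_id', id]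
    obtain ⟨hvc, hv0⟩ := unit_val hn hu
    have hχx : χ x ≠ 0 := by
      have h2 : IsUnit (χ x) := hu.map χ
      exact h2.ne_zero
    have h3 := ff_half (P := P) (D := D) hu
    have h4 : (∑ j ∈ Ico D.J2 D.J1, (if lam (x.val + j * N) = FF P N D x then
        ph P N D.BX (x.val + j * N) else 0)) * H x ≤ ∑ j ∈ Ico D.J2 D.J1, W (x.val + j * N) := by
      rw [sum_mul]
      refine sum_le_sum fun j hj => ?_
      obtain ⟨hj1, hj2⟩ := mem_Ico.1 hj
      by_cases hl : lam (x.val + j * N) = FF P N D x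
      · rw [if_pos hl]
        by_cases hr : Rgh1 P N (x.val + j * N)
        · have hmem : x.val + j * N ∈ AD P D χ := by
            unfold AD
            rw [mem_filter, mem_Ioc]
            refine ⟨⟨?_, ?_⟩, hr, ?_⟩
            · have : D.J2 * N ≤ j * N := Nat.mul_le_mul_right N hj1
              omega
            · exact (x_lt (D := D) x hj2).le
            · unfold DA
              rw [hcast j, hl, hF]
              intro h5
              have h6 : χ x + χ x = 0 := by
                rw [← h5]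
                nth_rewrite 2 [h5]
                ring
              have h7 : (2 : ℂ) * χ x = 0 := by rw [two_mul]; exact h6
              rcases mul_eq_zero.1 h7 with h8 | h8
              · norm_num at h8
              · exact hχx h8
          simp only [hW]
          rw [if_pos hmem, hcast j]
          exact mul_le_mul_of_nonneg_right (ph_le_pht _ _ _ _) (hH x)
        · rw [ph_zero hr, zero_mul]
          exact hW0 _
      · rw [if_neg hl, zero_mul]
        exact hW0 _
    have h5 : D.J1 * rho D.BX / (Real.log N) ^ 2 * H x ≤ 2 * ∑ j ∈ Ico D.J2 D.J1, W (x.val + j * N) := by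
      calc D.J1 * rho D.BX / (Real.log N) ^ 2 * H x ≤ PX P N D x * H x :=
            mul_le_mul_of_nonneg_right hPX (hH x)
        _ ≤ (2 * ∑ j ∈ Ico D.J2 D.J1, (if lam (x.val + j * N) = FF P N D x then
              ph P N D.BX (x.val + j * N) else 0)) * H x := mul_le_mul_of_nonneg_right h3 (hH x)
        _ = 2 * ((∑ j ∈ Ico D.J2 D.J1, (if lam (x.val + j * N) = FF P N D x then
              ph P N D.BX (x.val + j * N) else 0)) * H x) := by ring
        _ ≤ _ := by linarith
    have h6 : H x = (Real.log N) ^ 2 / (D.J1 * rho D.BX) *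
        (D.J1 * rho D.BX / (Real.log N) ^ 2 * H x) := by
      have key : ∀ M K h : ℝ, 0 < M → 0 < K → h = K ^ 2 / M * (M / K ^ 2 * h) := by
        intro M K h hM hK
        field_simp
      exact key _ _ _ hM0 hK0
    rw [h6]
    calc (Real.log N) ^ 2 / (D.J1 * rho D.BX) * (D.J1 * rho D.BX / (Real.log N) ^ 2 * H x)
        ≤ (Real.log N) ^ 2 / (D.J1 * rho D.BX) * (2 * ∑ j ∈ Ico D.J2 D.J1, W (x.val + j * N)) :=
          mul_le_mul_of_nonneg_left h5 (by positivity)
      _ = _ := by ring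
  have h2 : ∑ x ∈ ZX P N D χ, H x ≤ 2 * (Real.log N) ^ 2 / (D.J1 * rho D.BX) *
      ∑ x ∈ ZX P N D χ, ∑ j ∈ Ico D.J2 D.J1, W (x.val + j * N) := by
    rw [mul_sum]
    exact sum_le_sum h1
  refine h2.trans (mul_le_mul_of_nonneg_left ?_ hC0)
  have h3 : ∑ x ∈ ZX P N D χ, ∑ j ∈ Ico D.J2 D.J1, W (x.val + j * N) ≤
      ∑ x ∈ (Finset.univ.filter fun x : ZMod N => IsUnit x), ∑ j ∈ Ico D.J2 D.J1, W (x.val + j * N) := by
    refine sum_le_sum_of_subset_of_nonneg ?_ fun x _ _ => sum_nonneg fun j _ => hW0 _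
    intro x hx
    unfold ZX at hx
    exact mem_filter.2 ⟨mem_univ _, (mem_filter.1 hx).2.1⟩
  refine h3.trans (le_of_eq ?_)
  have h4 := sum_split (D := D) hn W
  have h5 : ∑ a ∈ (Ioc (D.J2 * N) (D.J1 * N)).filter (fun a => a.Coprime N), W a =
      ∑ a ∈ AD P D χ, pht D.BX a * H ((a : ℕ) : ZMod N) := by
    have h6 : AD P D χ ⊆ (Ioc (D.J2 * N) (D.J1 * N)).filter (fun a => a.Coprime N) := by
      intro a ha
      unfold AD at ha
      obtain ⟨h7, h8, -⟩ := mem_filter.1 ha
      exact mem_filter.2 ⟨h7, h8.1⟩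
    rw [← sum_subset h6]
    · refine sum_congr rfl fun a ha => ?_
      simp only [hW]
      rw [if_pos ha]
    · intro a _ ha
      simp only [hW]
      rw [if_neg ha]
  rw [← h5, h4]

end Pool.Agent.Lib.TCF
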